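import Pool.Agent.H478.WM.Stm

/-!
# Project WM: assembly, abstract part
-/

open Complex MeasureTheory Filter Topology Set
open scoped ContDiff

namespace Pool.Agent.H478.WM

noncomputable section

theorem exists_min (hA : S_MINA) (hB : S_MINB) (hC : S_MINC) (hD : S_MIND) (S : Sys) (a : ℝ)
    (ha : 0 < a) : 0 < qS S a ∧ ∃ u, IsMin S a u := by
  obtain ⟨g, u, hm⟩ := hA S a ha
  obtain ⟨h1, h2, h3, h4, h5⟩ := hC S a g u ha hm
  exact ⟨h5, u, ⟨h1, h2, h3, h4, hD S a g u ha hm, hB S a g u ha hm⟩⟩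

theorem le_pow_bound (C a : ℝ) (ha : 0 < a) (hC : 0 ≤ C) (z : ℂ) :
    C * Real.exp (a * |z.im|) ≤ (C * Real.exp a) * Real.exp (a * ‖z‖ ^ (3 / 2 : ℝ)) := by
  rw [mul_assoc, ← Real.exp_add]
  refine mul_le_mul_of_nonneg_left (Real.exp_le_exp.2 ?_) hC
  have h1 : |z.im| ≤ ‖z‖ := Complex.abs_im_le_norm z
  have h2 : ‖z‖ ≤ 1 + ‖z‖ ^ (3 / 2 : ℝ) := by
    rcases le_total ‖z‖ 1 with h | h
    · have : 0 ≤ ‖z‖ ^ (3 / 2 : ℝ) := by positivity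
      linarith
    · have : ‖z‖ ^ (1 : ℝ) ≤ ‖z‖ ^ (3 / 2 : ℝ) := Real.rpow_le_rpow_of_exponent_le h (by norm_num)
      rw [Real.rpow_one] at this
      linarith
  nlinarith

/-- the zeros of the minimiser, listed -/
theorem zeros_listed (hHE : S_HE) (hRZ : S_RZ) (hLT : S_LT) (hIL : S_IL) (hZEN : S_ZEN) (hHAD : S_HAD)
    (S : Sys) (γ : ℕ → ℝ) (hγ : StrictMono γ) (hr : Set.range γ = S.G) (hpos : ∀ n, 0 < γ n)
    (hs : Summable (fun n => 1 / γ n ^ 2)) (a : ℝ) (ha : 0 < a) (u : ℂ → ℂ) (hu : IsMin S a u) :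
    ∃ v : ℕ → ℝ, (∀ n, 0 ≤ v n ∧ v n * γ n ^ 2 < 1) ∧ ∀ z, Tendsto (fun N => PP v N z) atTop (𝓝 (u z)) := by
  obtain ⟨hd, he, hL, C, hC0, hC⟩ := hHE S a u ha hu.mem
  obtain ⟨hil, hsim⟩ := hIL S a u ha hu
  have hre : ∀ z, u z = 0 → z.im = 0 := fun z hz => hRZ S a u z ha hu hz
  have hlt : ∀ x : ℝ, 0 < x → u x = 0 → ∃ n, γ n < x := by
    intro x hx h0
    obtain ⟨t, ht, htx⟩ := hLT S a u x ha hu hx h0
    rw [← hr] at ht
    obtain ⟨n, rfl⟩ := ht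
    exact ⟨n, htx⟩
  have hil' : ∀ x y : ℝ, 0 < x → x < y → u x = 0 → u y = 0 → ∃ n, x < γ n ∧ γ n < y := by
    intro x y hx hxy h0 h1
    obtain ⟨t, ht, h2, h3⟩ := hil x y hx hxy h0 h1
    rw [← hr] at ht
    obtain ⟨n, rfl⟩ := ht
    exact ⟨n, h2, h3⟩
  obtain ⟨v, h1, h2, h3⟩ := hZEN u γ hd he hu.one hre hγ hpos hlt hil'
  have hsv : Summable v := by
    refine Summable.of_nonneg_of_le (fun n => (h1 n).1) (fun n => ?_) hs
    have hp : 0 < γ n ^ 2 := by have := hpos n; positivity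
    rw [le_div_iff₀ hp]
    exact (h1 n).2.le
  refine ⟨v, h1, hHAD u (C * Real.exp a) a v hd he hu.one (fun z => (hC z).trans (le_pow_bound C a ha hC0 z))
    (fun n => (h1 n).1) hsv h2 h3 ?_⟩
  intro z hz
  have hzi := hre z hz
  have : z = ((z.re : ℝ) : ℂ) := by
    apply Complex.ext <;> simp [hzi]
  rw [this] at hz ⊢
  exact hsim z.re hz

theorem abstract_main (hA : S_MINA) (hB : S_MINB) (hC : S_MINC) (hD : S_MIND) (hHE : S_HE) (hRZ : S_RZ)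
    (hLT : S_LT) (hIL : S_IL) (hZEN : S_ZEN) (hHAD : S_HAD) (hENUM : S_ENUM) (hPC : S_PC) (hRT : S_RT)
    (S : Sys) (h3 : ∀ ε : ℝ, 0 < ε → ∃ a₀ : ℝ, ∀ a, a₀ ≤ a → ∃ k, Adm a k ∧ Q S (Ct (co k)) ≤ ε) :
    ∃ (u : ℝ → ℂ → ℂ) (γ : ℕ → ℝ) (P : ℂ → ℂ), StrictMono γ ∧ Set.range γ = S.G ∧ (∀ n, 0 < γ n) ∧
      Summable (fun n => 1 / γ n ^ 2) ∧ (∀ a, 0 < a → IsMin S a (u a) ∧ 0 < qS S a ∧ Differentiable ℂ (u a)) ∧
      (∀ z, Tendsto (fun N => PP (fun n => 1 / γ n ^ 2) N z) atTop (𝓝 (P z))) ∧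
      (∀ R ε : ℝ, 0 < ε → ∃ a₀ : ℝ, 0 < a₀ ∧ ∀ a, a₀ ≤ a → ∀ z : ℂ, ‖z‖ ≤ R → ‖u a z - P z‖ ≤ ε) ∧
      (∀ n, ∃ C : ℝ, ∀ᶠ a in atTop, ∃ x : ℝ, γ n < x ∧ x ≤ γ n + C * qS S a ∧ u a (x : ℂ) = 0) := by
  obtain ⟨γ, hγ, hr, hpos, hs, htop⟩ := hENUM S
  have hmin : ∀ a : ℝ, ∃ u : ℂ → ℂ, 0 < a → 0 < qS S a ∧ IsMin S a u := by
    intro a
    by_cases ha : 0 < a
    · obtain ⟨h1, u, hu⟩ := exists_min hA hB hC hD S a ha
      exact ⟨u, fun _ => ⟨h1, hu⟩⟩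
    · exact ⟨fun _ => 0, fun h => absurd h ha⟩
  choose u hu using hmin
  have hv : ∀ a : ℝ, ∃ v : ℕ → ℝ, 0 < a → (∀ n, 0 ≤ v n ∧ v n * γ n ^ 2 < 1) ∧
      ∀ z, Tendsto (fun N => PP v N z) atTop (𝓝 (u a z)) := by
    intro a
    by_cases ha : 0 < a
    · obtain ⟨v, h1, h2⟩ := zeros_listed hHE hRZ hLT hIL hZEN hHAD S γ hγ hr hpos hs a ha (u a) (hu a ha).2
      exact ⟨v, fun _ => ⟨h1, h2⟩⟩
    · exact ⟨fun _ => 0, fun h => absurd h ha⟩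
  choose v hv using hv
  have hq0 : Tendsto (fun a => qS S a) atTop (𝓝 0) := by
    rw [Metric.tendsto_atTop]
    intro ε hε
    obtain ⟨a₀, h0⟩ := h3 (ε / 2) (by linarith)
    refine ⟨max a₀ 1, fun a ha => ?_⟩
    obtain ⟨k, hk, hkq⟩ := h0 a ((le_max_left _ _).trans ha)
    have hapos : 0 < a := lt_of_lt_of_le one_pos ((le_max_right _ _).trans ha)
    have hle : qS S a ≤ Q S (Ct (co k)) := by
      refine csInf_le ⟨0, ?_⟩ ⟨k, hk, rfl⟩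
      rintro r ⟨g, hg, rfl⟩
      exact tsum_nonneg fun t => mul_nonneg (zero_le_one.trans (S.one_le t t.2)) (sq_nonneg _)
    have := (hu a hapos).1
    rw [Real.dist_eq, sub_zero, abs_of_pos this]
    linarith
  have hval : ∀ n, Tendsto (fun a => u a (γ n)) atTop (𝓝 0) := by
    intro n
    have hmem : γ n ∈ S.G := by rw [← hr]; exact ⟨n, rfl⟩
    rw [tendsto_zero_iff_norm_tendsto_zero]
    have h1 : ∀ᶠ a in atTop, ‖u a (γ n)‖ ≤ Real.sqrt (qS S a) := by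
      filter_upwards [eventually_gt_atTop (0:ℝ)] with a ha
      obtain ⟨hq, hm⟩ := hu a ha
      have hL := (hHE S a (u a) ha hm.mem).2.2.1
      have h2 : S.m (γ n) * ‖u a (γ n)‖ ^ 2 ≤ Q S (u a) :=
        hL.le_tsum (⟨γ n, hmem⟩ : S.G)
          (fun t _ => mul_nonneg (zero_le_one.trans (S.one_le t t.2)) (sq_nonneg _))
      rw [hm.energy] at h2
      apply Real.le_sqrt_of_sq_le
      have := S.one_le _ hmem
      nlinarith [sq_nonneg ‖u a (γ n)‖]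
    refine squeeze_zero' (Eventually.of_forall fun a => norm_nonneg _) h1 ?_
    have := (Real.continuous_sqrt.tendsto 0).comp hq0
    rw [Real.sqrt_zero] at this
    exact this
  obtain ⟨hv1, P, hP1, hP2⟩ := hPC γ v u hγ hpos hs (fun a ha => (hv a ha).1) (fun a ha => (hv a ha).2) hval
  refine ⟨u, γ, P, hγ, hr, hpos, hs, fun a ha => ⟨(hu a ha).2, (hu a ha).1, (hHE S a (u a) ha (hu a ha).2.mem).1⟩,
    hP1, hP2, ?_⟩
  exact hRT S γ v u hγ hr hs (fun a ha => (hu a ha).2) (fun a ha => (hv a ha).1) (fun a ha => (hv a ha).2) hv1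

end

end Pool.Agent.H478.WM
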