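import Pool.Agent.H478.WM.Asm1

/-!
# Project WM: assembly, the zeta function
-/

open Complex MeasureTheory Filter Topology Set
open scoped ContDiff

namespace Pool.Agent.H478.WM

noncomputable section

/-- the infimum of Weil's form over the test functions on `[-a, a]` with integral one -/
def qW (a : ℝ) : ℝ := sInf {r : ℝ | ∃ g : ℝ → ℝ, Adm a g ∧ r = W g}

/-- some nonempty sublevel set of Weil's form on the test functions on `[-a, a]` of integral one
consists of functions whose cosine transforms are within `ε` of `F z` for `|z| ≤ R` -/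
def Conc (F : ℂ → ℂ) (a R ε : ℝ) : Prop := ∃ c : ℝ, (∃ g, Adm a g ∧ W g ≤ c) ∧
  ∀ g, Adm a g → W g ≤ c → ∀ z : ℂ, ‖z‖ ≤ R → ‖Ct (co g) z - F z‖ ≤ ε

/-- all nontrivial zeros of the Riemann zeta function are simple -/
def AllSimple : Prop := ∀ ρ ∈ NTZ, deriv riemannZeta ρ ≠ 0

theorem TR.hcs {a : ℝ} {g : ℝ → ℝ} (h : TR a g) : HasCompactSupport g :=
  HasCompactSupport.intro (isCompact_Icc : IsCompact (Icc (-a) a)) fun x hx => h.supp x (by
    by_contra hc
    exact hx (abs_le.1 (not_lt.1 hc)))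

theorem TR.int {a : ℝ} {g : ℝ → ℝ} (h : TR a g) : Integrable g :=
  h.smooth.continuous.integrable_of_hasCompactSupport h.hcs

theorem TR.lin {a : ℝ} {g h : ℝ → ℝ} (hg : TR a g) (hh : TR a h) (s : ℝ) :
    TR a (fun x => g x + s * h x) :=
  ⟨hg.smooth.add (contDiff_const.mul hh.smooth), fun x => by rw [hg.even, hh.even],
    fun x hx => by rw [hg.supp x hx, hh.supp x hx]; ring⟩

theorem Adm.lin {a : ℝ} {g h : ℝ → ℝ} (hg : Adm a g) (hh : TR a h) (h0 : ∫ x : ℝ, h x = 0) (s : ℝ) :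
    Adm a (fun x => g x + s * h x) := by
  refine ⟨hg.1.lin hh s, ?_⟩
  rw [integral_add hg.1.int (hh.int.const_mul s), hg.2, integral_const_mul, h0]
  ring

theorem TR.int_cos {a : ℝ} {g : ℝ → ℝ} (h : TR a g) (z : ℂ) :
    Integrable (fun x : ℝ => co g x * Complex.cos (z * x)) := by
  refine Continuous.integrable_of_hasCompactSupport ?_ ?_
  · refine Continuous.mul ?_ (by fun_prop)
    exact Complex.continuous_ofReal.comp h.smooth.continuous
  · refine HasCompactSupport.mul_right ?_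
    refine HasCompactSupport.intro (isCompact_Icc : IsCompact (Icc (-a) a)) fun x hx => ?_
    have : g x = 0 := h.supp x (by
      by_contra hc
      exact hx (abs_le.1 (not_lt.1 hc)))
    simp [co, this]

theorem Ct_lin {a : ℝ} {g h : ℝ → ℝ} (hg : TR a g) (hh : TR a h) (s : ℝ) (z : ℂ) :
    Ct (co (fun x => g x + s * h x)) z = Ct (co g) z + s * Ct (co h) z := by
  unfold Ct
  rw [← integral_const_mul, ← integral_add (hg.int_cos z) ((hh.int_cos z).const_mul _)]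
  refine integral_congr_ae (ae_of_all _ fun x => ?_)
  simp only [co]
  push_cast
  ring

theorem exists_adm (hA : S_MINA) (S : Sys) (a : ℝ) (ha : 0 < a) : ∃ g, Adm a g := by
  obtain ⟨g, u, hm⟩ := hA S a ha
  exact ⟨g 0, hm.1 0⟩

/-- a negative direction of integral zero makes the form unbounded below -/
theorem unbounded (hQU : S_QU) {a : ℝ} {k g : ℝ → ℝ} (hk : Adm a k) (hg : TR a g)
    (hneg : W g < 0) (B : ℝ) : ∃ s₀ : ℝ, 0 < s₀ ∧ ∀ s, s₀ ≤ s → W (fun x => k x + s * g x) ≤ B := by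
  obtain ⟨⟨β, hβ⟩, _⟩ := hQU a k g hk.1 hg
  have h1 : Tendsto (fun s : ℝ => s * (2 * β + s * W g)) atTop atBot := by
    refine Tendsto.atTop_mul_atBot₀ tendsto_id ?_
    refine tendsto_atBot_add_const_left _ _ ?_
    exact Tendsto.atTop_mul_const_of_neg hneg tendsto_id
  have h2 := (h1.eventually_le_atBot (B - W k)).and (eventually_gt_atTop (0:ℝ))
  obtain ⟨s₀, hs₀⟩ := (eventually_atTop.1 h2)
  refine ⟨s₀, (hs₀ s₀ le_rfl).2, fun s hs => ?_⟩
  rw [hβ s]
  have := (hs₀ s hs).1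
  nlinarith

/-- concentration for arbitrarily large supports implies the Riemann hypothesis -/
theorem rh_of_conc (hTCB : S_TCB) (hQU : S_QU) (hNEG : S_NEG)
    (H : ∀ a₀ : ℝ, ∃ a, a₀ ≤ a ∧ ∃ F, Conc F a 1 1) : RiemannHypothesis := by
  by_contra hcon
  obtain ⟨a₀, ha₀, h0⟩ := hNEG hcon
  obtain ⟨a, ha, F, c, ⟨k, hk, hkc⟩, hc⟩ := H a₀
  have hapos : 0 < a := lt_of_lt_of_le ha₀ ha
  obtain ⟨g, hg, hg0, hneg⟩ := h0 a ha
  obtain ⟨s₀, hs₀, hs⟩ := unbounded hQU hk hg hneg c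
  have hz : ∀ z : ℂ, ‖z‖ ≤ 1 → Ct (co g) z = 0 := by
    intro z hz
    by_contra hne
    have hpos : 0 < ‖Ct (co g) z‖ := norm_pos_iff.2 hne
    set M := ‖Ct (co k) z - F z‖ with hM
    set s := max s₀ ((M + 2) / ‖Ct (co g) z‖) with hsdef
    have h1 := hc _ (hk.lin hg hg0 s) (hs s (le_max_left _ _)) z hz
    rw [Ct_lin hk.1 hg] at h1
    have h2 : ‖(s : ℂ) * Ct (co g) z‖ ≤ M + 1 := by
      have e : (s : ℂ) * Ct (co g) z =
          (Ct (co k) z + s * Ct (co g) z - F z) - (Ct (co k) z - F z) := by ring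
      rw [e]
      refine (norm_sub_le _ _).trans ?_
      rw [← hM]
      linarith
    have hs1 : (M + 2) / ‖Ct (co g) z‖ ≤ s := le_max_right _ _
    rw [div_le_iff₀ hpos] at hs1
    have hs2 : 0 < s := lt_of_lt_of_le hs₀ (le_max_left _ _)
    rw [norm_mul, Complex.norm_real, Real.norm_eq_abs, abs_of_pos hs2] at h2
    linarith
  have hgC : TC a (co g) := ⟨Complex.ofRealCLM.contDiff.comp hg.smooth, fun x => by simp [co, hg.even x],
    fun x hx => by simp [co, hg.supp x hx]⟩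
  have hd := (hTCB a (co g) hapos hgC).1
  have hall : ∀ z, Ct (co g) z = 0 := by
    have h1 : AnalyticOnNhd ℂ (Ct (co g)) univ := fun z _ => hd.analyticAt z
    have h2 : Ct (co g) =ᶠ[𝓝 0] 0 := by
      filter_upwards [Metric.ball_mem_nhds (0:ℂ) one_pos] with z hz'
      exact hz z (by simpa using (mem_ball_zero_iff.1 hz').le)
    intro z
    exact h1.eqOn_zero_of_preconnected_of_eventuallyEq_zero isPreconnected_univ (mem_univ 0) h2 (mem_univ z)
  have := (hQU a g g hg hg).2 hall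
  linarith

/-- boundedness below for arbitrarily large supports implies the Riemann hypothesis -/
theorem rh_of_bdd (hA : ∀ a : ℝ, 0 < a → ∃ g, Adm a g) (hQU : S_QU) (hNEG : S_NEG)
    (H : ∀ a₀ : ℝ, ∃ a, a₀ ≤ a ∧ ∃ B : ℝ, ∀ g, Adm a g → B ≤ W g) : RiemannHypothesis := by
  by_contra hcon
  obtain ⟨a₀, ha₀, h0⟩ := hNEG hcon
  obtain ⟨a, ha, B, hB⟩ := H a₀
  have hapos : 0 < a := lt_of_lt_of_le ha₀ ha
  obtain ⟨g, hg, hg0, hneg⟩ := h0 a ha
  obtain ⟨k, hk⟩ := hA a hapos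
  obtain ⟨s₀, hs₀, hs⟩ := unbounded hQU hk hg hneg (B - 1)
  have h1 := hB _ (hk.lin hg hg0 s₀)
  have h2 := hs s₀ le_rfl
  linarith

theorem qW_eq {S : Sys} {a : ℝ} (ha : 0 < a)
    (hW : ∀ (a : ℝ) (g : ℝ → ℝ), 0 < a → TR a g → W g = 2 * Q S (Ct (co g))) : qW a = 2 * qS S a := by
  unfold qW qS
  rw [show (2:ℝ) * sInf {r : ℝ | ∃ g : ℝ → ℝ, Adm a g ∧ r = Q S (Ct (co g))} =
    (2:ℝ) • sInf {r : ℝ | ∃ g : ℝ → ℝ, Adm a g ∧ r = Q S (Ct (co g))} by simp, ← Real.sInf_smul_of_nonneg two_pos.le]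
  congr 1
  ext r
  constructor
  · rintro ⟨g, hg, rfl⟩
    exact ⟨Q S (Ct (co g)), ⟨g, hg, rfl⟩, by simp [hW a g ha hg.1]⟩
  · rintro ⟨r', ⟨g, hg, rfl⟩, rfl⟩
    exact ⟨g, hg, by simp [hW a g ha hg.1]⟩

end

end Pool.Agent.H478.WM
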