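import Pool.Agent.H478.WM.Asm2

/-!
# Project WM: assembly, the main theorems from the statements of the subtasks
-/

open Complex MeasureTheory Filter Topology Set
open scoped ContDiff

namespace Pool.Agent.H478.WM

noncomputable section

theorem re_of_rh (hRH : RiemannHypothesis) {ρ : ℂ} (h : ρ ∈ NTZ) : ρ.re = 1 / 2 := by
  refine hRH ρ h.1 ?_ ?_
  · rintro ⟨n, hn⟩
    have h1 := h.2.1
    rw [hn] at h1
    simp at h1
    have : (0:ℝ) ≤ n := Nat.cast_nonneg n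
    linarith
  · rintro rfl
    have := h.2.2
    simp at this

/-- the data attached to the Riemann hypothesis -/
structure Data (S : Sys) (u : ℝ → ℂ → ℂ) (γ : ℕ → ℝ) (P : ℂ → ℂ) : Prop where
  G : S.G = Ord
  form : ∀ (a : ℝ) (g : ℝ → ℝ), 0 < a → TR a g → W g = 2 * Q S (Ct (co g))
  mono : StrictMono γ
  range : Set.range γ = S.G
  pos : ∀ n, 0 < γ n
  summ : Summable (fun n => 1 / γ n ^ 2)
  min : ∀ a, 0 < a → IsMin S a (u a) ∧ 0 < qS S a ∧ Differentiable ℂ (u a)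
  prod : ∀ z, Tendsto (fun N => PP (fun n => 1 / γ n ^ 2) N z) atTop (𝓝 (P z))
  lim : ∀ R ε : ℝ, 0 < ε → ∃ a₀ : ℝ, 0 < a₀ ∧ ∀ a, a₀ ≤ a → ∀ z : ℂ, ‖z‖ ≤ R → ‖u a z - P z‖ ≤ ε
  rate : ∀ n, ∃ C : ℝ, ∀ᶠ a in atTop, ∃ x : ℝ, γ n < x ∧ x ≤ γ n + C * qS S a ∧ u a (x : ℂ) = 0

theorem exists_data (hA : S_MINA) (hB : S_MINB) (hC : S_MINC) (hD : S_MIND) (hHE : S_HE) (hRZ : S_RZ)
    (hLT : S_LT) (hIL : S_IL) (hZEN : S_ZEN) (hHAD : S_HAD) (hENUM : S_ENUM) (hPC : S_PC) (hRT : S_RT)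
    (hSYS : S_SYS) (hWK : S_WK) (hRH : RiemannHypothesis) :
    ∃ (S : Sys) (u : ℝ → ℂ → ℂ) (γ : ℕ → ℝ) (P : ℂ → ℂ), Data S u γ P := by
  obtain ⟨S, hG, hW⟩ := hSYS hRH
  obtain ⟨u, γ, P, h1, h2, h3, h4, h5, h6, h7, h8⟩ := abstract_main hA hB hC hD hHE hRZ hLT hIL hZEN hHAD hENUM hPC
    hRT S (by
      intro ε hε
      have hlim : Tendsto (fun a : ℝ => Real.exp (-(2 * Real.pi - 1) * Real.exp (2 * a))) atTop (𝓝 0) := by
        refine Real.tendsto_exp_atBot.comp ?_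
        have h1 : Tendsto (fun a : ℝ => Real.exp (2 * a)) atTop atTop :=
          Real.tendsto_exp_atTop.comp (tendsto_id.const_mul_atTop two_pos)
        exact h1.const_mul_atTop_of_neg (by linarith [Real.pi_gt_three])
      obtain ⟨a₁, ha₁⟩ := eventually_atTop.1 (hlim.eventually_lt_const hε)
      obtain ⟨a₀, ha₀, h0⟩ := hWK.1 1 one_pos
      refine ⟨max a₀ a₁, fun a ha => ?_⟩
      obtain ⟨k, hk, hkW⟩ := h0 a ((le_max_left _ _).trans ha)
      have hapos : 0 < a := lt_of_lt_of_le ha₀ ((le_max_left _ _).trans ha)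
      refine ⟨k, hk, ?_⟩
      have e := hW a k hapos hk.1
      have e1 := ha₁ a ((le_max_right _ _).trans ha)
      have e2 : 0 ≤ Q S (Ct (co k)) :=
        tsum_nonneg fun t => mul_nonneg (zero_le_one.trans (S.one_le t t.2)) (sq_nonneg _)
      linarith)
  exact ⟨S, u, γ, P, ⟨hG, hW, h1, h2, h3, h4, h5, h6, h7, h8⟩⟩

theorem ord_of_zero (hRH : RiemannHypothesis) (hWTS : S_WTS) {z : ℂ} (h : 1 / 2 + I * z ∈ NTZ) :
    z.im = 0 ∧ |z.re| ∈ Ord := by
  have h1 := re_of_rh hRH h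
  have him : z.im = 0 := by
    simp at h1
    exact h1
  have hz : z = ((z.re : ℝ) : ℂ) := by apply Complex.ext <;> simp [him]
  have hne : z.re ≠ 0 := by
    have := (hWTS.2 _ h).2.2.2.2
    simpa using this
  refine ⟨him, ?_⟩
  rcases lt_or_gt_of_ne hne with hlt | hgt
  · rw [abs_of_neg hlt]
    refine ⟨by linarith, ?_⟩
    have h2 := (hWTS.2 _ h).2.1.1
    have e : starRingEnd ℂ (1 / 2 + I * z) = 1 / 2 + ((-z.re : ℝ) : ℂ) * I := by
      apply Complex.ext <;> simp [him]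
    rw [e] at h2
    exact h2
  · rw [abs_of_pos hgt]
    refine ⟨hgt, ?_⟩
    have h2 := h.1
    rw [hz] at h2
    rw [mul_comm]
    exact h2

theorem ntz_of_ord {t : ℝ} (h : t ∈ Ord) : 1 / 2 + I * (t : ℂ) ∈ NTZ := by
  refine ⟨?_, by simp, by simp; norm_num⟩
  rw [mul_comm]
  exact h.2

/-- the Hadamard product of the Xi function -/
theorem xi_prod (hHAD : S_HAD) (hXI0 : S_XI0) (hWTS : S_WTS) (hRH : RiemannHypothesis) (hs : AllSimple)
    {S : Sys} {u : ℝ → ℂ → ℂ} {γ : ℕ → ℝ} {P : ℂ → ℂ} (D : Data S u γ P) (z : ℂ) : P z = Xi z / Xi 0 := by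
  obtain ⟨hd, he, h0, ⟨C, A, hg⟩, hz, hsim⟩ := hXI0
  have key := hHAD (fun z => Xi z / Xi 0) (C / ‖Xi 0‖) A (fun n => 1 / γ n ^ 2) (hd.div_const _)
    (fun z => by simp only [he]) (div_self h0) (fun z => by
      rw [norm_div, div_mul_eq_mul_div]
      exact div_le_div_of_nonneg_right (hg z) (norm_nonneg _))
    (fun n => by positivity) D.summ ?_ ?_ ?_ z
  · exact tendsto_nhds_unique (D.prod z) key
  · intro m n _ hmn
    have hm := D.pos m
    have hn := D.pos n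
    have h1 : γ m ^ 2 = γ n ^ 2 := by
      have := hmn
      field_simp at this
      linarith
    have h2 : γ m = γ n := by nlinarith [sq_nonneg (γ m - γ n)]
    exact D.mono.injective h2
  · intro z
    have hdiv : Xi z / Xi 0 = 0 ↔ Xi z = 0 := by simp [h0]
    show Xi z / Xi 0 = 0 ↔ _
    rw [hdiv, hz z]
    constructor
    · intro h
      obtain ⟨him, hord⟩ := ord_of_zero hRH hWTS h
      rw [← D.G, ← D.range] at hord
      obtain ⟨n, hn⟩ := hord
      have hp := D.pos n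
      refine ⟨n, by positivity, ?_⟩
      have hz' : z = ((z.re : ℝ) : ℂ) := by apply Complex.ext <;> simp [him]
      rw [hz', hn, sq_abs]
      have hre : z.re ≠ 0 := by
        intro hc
        rw [hc, abs_zero] at hn
        linarith
      push_cast
      field_simp
      exact div_self (by exact_mod_cast hre)
    · rintro ⟨n, _, hn⟩
      have hp := D.pos n
      have hpc : (γ n : ℂ) ≠ 0 := by exact_mod_cast hp.ne'
      push_cast at hn
      rw [one_div, inv_mul_eq_div, div_eq_one_iff_eq (pow_ne_zero 2 hpc)] at hn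
      have hmem : γ n ∈ Ord := by rw [← D.G, ← D.range]; exact ⟨n, rfl⟩
      have hN := ntz_of_ord hmem
      rcases sq_eq_sq_iff_eq_or_eq_neg.1 hn with h | h
      · rw [h]; exact hN
      · rw [h]
        have := (hz (γ n)).2 hN
        exact (hz (-(γ n : ℂ))).1 (by rw [he]; exact this)
  · intro z hz0
    have h1 : Xi z = 0 := by
      have : Xi z / Xi 0 = 0 := hz0
      simpa [h0] using this
    have h2 : deriv (fun z => Xi z / Xi 0) z = deriv Xi z / Xi 0 := by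
      simp [deriv_div_const]
    rw [h2]
    refine div_ne_zero (fun hc => ?_) h0
    exact hs _ ((hz z).1 h1) ((hsim z h1).1 hc)

theorem qW_le {a : ℝ} {g : ℝ → ℝ} {S : Sys} (ha : 0 < a)
    (hW : ∀ (a : ℝ) (g : ℝ → ℝ), 0 < a → TR a g → W g = 2 * Q S (Ct (co g))) (hg : Adm a g) : qW a ≤ W g := by
  refine csInf_le ⟨0, ?_⟩ ⟨g, hg, rfl⟩
  rintro r ⟨g, hg, rfl⟩
  rw [hW a g ha hg.1]
  have : 0 ≤ Q S (Ct (co g)) :=
    tsum_nonneg fun t => mul_nonneg (zero_le_one.trans (S.one_le t t.2)) (sq_nonneg _)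
  linarith

/-- near minimisers exist -/
theorem exists_near (hA : S_MINA) {S : Sys} {a : ℝ} (ha : 0 < a) (δ : ℝ) (hδ : 0 < δ) :
    ∃ g, Adm a g ∧ Q S (Ct (co g)) ≤ qS S a + δ := by
  obtain ⟨g, u, hm⟩ := hA S a ha
  have := (hm.2.1.eventually_lt_const (show qS S a < qS S a + δ by linarith)).exists
  obtain ⟨n, hn⟩ := this
  exact ⟨g n, hm.1 n, hn.le⟩

theorem conc_of (hA : S_MINA) {S : Sys} {u : ℝ → ℂ → ℂ} {γ : ℕ → ℝ} {P : ℂ → ℂ} (D : Data S u γ P)
    (R ε : ℝ) (hε : 0 < ε) :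
    ∃ a₀ : ℝ, 0 < a₀ ∧ ∀ a, a₀ ≤ a → Conc P a R ε := by
  obtain ⟨a₀, ha₀, h⟩ := D.lim R (ε / 2) (by linarith)
  refine ⟨a₀, ha₀, fun a ha => ?_⟩
  have hapos : 0 < a := lt_of_lt_of_le ha₀ ha
  obtain ⟨δ, hδ, hn⟩ := (D.min a hapos).1.near R (ε / 2) (by linarith)
  refine ⟨2 * (qS S a + δ), ?_, ?_⟩
  · obtain ⟨g, hg, hgq⟩ := exists_near hA hapos (S := S) δ hδ
    exact ⟨g, hg, by rw [D.form a g hapos hg.1]; linarith⟩
  · intro g hg hgW z hz
    rw [D.form a g hapos hg.1] at hgW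
    have h1 := hn g hg (by linarith) z hz
    have h2 := h a ha z hz
    have e : Ct (co g) z - P z = (Ct (co g) z - u a z) + (u a z - P z) := by ring
    rw [e]
    exact (norm_add_le _ _).trans (by linarith)

theorem P_of_conc (hA : S_MINA) {S : Sys} {u : ℝ → ℂ → ℂ} {γ : ℕ → ℝ} {P : ℂ → ℂ} (D : Data S u γ P)
    {F : ℂ → ℂ}
    (H : ∀ R ε a₀ : ℝ, 0 < ε → ∃ a, a₀ ≤ a ∧ Conc F a R ε) (z : ℂ) : P z = F z := by
  by_contra hne
  have hpos : 0 < ‖P z - F z‖ := norm_pos_iff.2 (sub_ne_zero.2 hne)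
  set ε := ‖P z - F z‖ / 4 with hεd
  have hε : 0 < ε := by positivity
  obtain ⟨a₀, ha₀, h⟩ := D.lim ‖z‖ ε hε
  obtain ⟨a, ha, c, ⟨k, hk, hkc⟩, hc⟩ := H ‖z‖ ε a₀ hε
  have hapos : 0 < a := lt_of_lt_of_le ha₀ ha
  obtain ⟨δ, hδ, hn⟩ := (D.min a hapos).1.near ‖z‖ ε hε
  have hex : ∃ g, Adm a g ∧ W g ≤ c ∧ Q S (Ct (co g)) ≤ qS S a + δ := by
    by_cases hq : Q S (Ct (co k)) ≤ qS S a + δ
    · exact ⟨k, hk, hkc, hq⟩
    · obtain ⟨g, hg, hgq⟩ := exists_near hA hapos (S := S) δ hδ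
      refine ⟨g, hg, ?_, hgq⟩
      have e1 := D.form a g hapos hg.1
      have e2 := D.form a k hapos hk.1
      linarith [not_le.1 hq]
  obtain ⟨g, hg, h1, h2⟩ := hex
  have b1 := hc g hg h1 z le_rfl
  have b2 := hn g hg h2 z le_rfl
  have b3 := h a ha z le_rfl
  have e : P z - F z = (Ct (co g) z - F z) - (Ct (co g) z - u a z) - (u a z - P z) := by ring
  have b4 : ‖P z - F z‖ ≤ ε + ε + ε := by
    rw [e]
    refine (norm_sub_le _ _).trans (add_le_add ((norm_sub_le _ _).trans (add_le_add b1 b2)) b3)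
  rw [hεd] at b4
  linarith

theorem simple_of_P (hPSIM : S_PSIM) (hXI0 : S_XI0) (hWTS : S_WTS) (hRH : RiemannHypothesis)
    {S : Sys} {u : ℝ → ℂ → ℂ} {γ : ℕ → ℝ} {P : ℂ → ℂ} (D : Data S u γ P)
    (hP : ∀ z, P z = Xi z / Xi 0) : AllSimple := by
  obtain ⟨hd, he, h0, ⟨C, A, hg⟩, hz, hsim⟩ := hXI0
  have h1 := hPSIM γ (fun z => Xi z / Xi 0) D.mono D.pos D.summ (hd.div_const _)
    (fun z => by have := D.prod z; rw [hP z] at this; exact this)
  have hpos : ∀ n, deriv Xi (γ n) ≠ 0 := by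
    intro n hc
    apply h1 n
    have h2 : deriv (fun z => Xi z / Xi 0) (γ n) = deriv Xi (γ n) / Xi 0 := by
      simp [deriv_div_const]
    rw [h2, hc, zero_div]
  have hneg : ∀ z : ℂ, deriv Xi (-z) = -deriv Xi z := by
    intro z
    have h3 : deriv (fun w => Xi (-w)) z = -deriv Xi (-z) := by
      rw [deriv_comp_neg]
    have h4 : (fun w => Xi (-w)) = Xi := funext he
    rw [h4] at h3
    rw [h3, neg_neg]
  intro ρ hρ
  set z : ℂ := -I * (ρ - 1 / 2) with hzd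
  have hρz : 1 / 2 + I * z = ρ := by
    rw [hzd]
    linear_combination (-(ρ - 1/2)) * I_sq
  have hmem : 1 / 2 + I * z ∈ NTZ := by rw [hρz]; exact hρ
  obtain ⟨him, hord⟩ := ord_of_zero hRH hWTS hmem
  rw [← D.G, ← D.range] at hord
  obtain ⟨n, hn⟩ := hord
  have hX := (hz z).2 hmem
  have hz' : z = ((z.re : ℝ) : ℂ) := by apply Complex.ext <;> simp [him]
  intro hc
  rw [← hρz] at hc
  have h5 := (hsim z hX).2 hc
  rcases abs_choice z.re with h | h
  · rw [h] at hn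
    rw [hz', ← hn] at h5
    exact hpos n h5
  · rw [h] at hn
    have : z = -((γ n : ℝ) : ℂ) := by rw [hn, hz']; push_cast; simp
    rw [this, hneg] at h5
    exact hpos n (neg_eq_zero.1 h5)

end

end Pool.Agent.H478.WM
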