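import Pool.Agent.H478.WM.Asm3

/-!
# Project WM: assembly, final statement
-/

open Complex MeasureTheory Filter Topology Set
open scoped ContDiff

namespace Pool.Agent.H478.WM

noncomputable section

/-- The properties of the minimisers `u a` of Weil's form, of their limit `P` and of their zeros. -/
structure Minimisers (u : ℝ → ℂ → ℂ) (P : ℂ → ℂ) : Prop where
  /-- the limit is the product over the distinct ordinates -/
  prod : ∀ z : ℂ, HasProd (fun t : Ord => 1 - z ^ 2 / ((t : ℝ) : ℂ) ^ 2) (P z)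
  /-- the minimisers converge locally uniformly to the limit -/
  lim : ∀ R ε : ℝ, 0 < ε → ∃ a₀ : ℝ, ∀ a, a₀ ≤ a → ∀ z : ℂ, ‖z‖ ≤ R → ‖u a z - P z‖ ≤ ε
  entire : ∀ a, 0 < a → Differentiable ℂ (u a)
  pos : ∀ a, 0 < a → 0 < qW a
  /-- all near minimisers of Weil's form are close to the minimiser -/
  near : ∀ a, 0 < a → ∀ R ε : ℝ, 0 < ε → ∃ δ : ℝ, 0 < δ ∧ ∀ g : ℝ → ℝ, Adm a g → W g ≤ qW a + δ →
    ∀ z : ℂ, ‖z‖ ≤ R → ‖Ct (co g) z - u a z‖ ≤ ε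
  /-- all zeros are real and simple -/
  real : ∀ a, 0 < a → ∀ z : ℂ, u a z = 0 → z.im = 0 ∧ deriv (u a) z ≠ 0
  /-- below every positive zero, and between any two, there is an ordinate -/
  first : ∀ a, 0 < a → ∀ x : ℝ, 0 < x → u a x = 0 → ∃ t ∈ Ord, t < x
  interlace : ∀ a, 0 < a → ∀ x y : ℝ, 0 < x → x < y → u a x = 0 → u a y = 0 → ∃ t ∈ Ord, x < t ∧ t < y
  /-- the zeros converge to the ordinates, from above, at least as fast as the minimum of the form -/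
  rate : ∀ t ∈ Ord, ∃ C : ℝ, ∀ᶠ a in atTop, ∃ x : ℝ, t < x ∧ x ≤ t + C * qW a ∧ u a (x : ℂ) = 0

/-- the values of a sequence, as a product over its range -/
theorem hasProd_ord {γ : ℕ → ℝ} (hγ : StrictMono γ) (hr : Set.range γ = Ord) (hpos : ∀ n, 0 < γ n)
    (hs : Summable (fun n => 1 / γ n ^ 2)) {P : ℂ → ℂ}
    (hP : ∀ z, Tendsto (fun N => PP (fun n => 1 / γ n ^ 2) N z) atTop (𝓝 (P z))) (z : ℂ) :
    HasProd (fun t : Ord => 1 - z ^ 2 / ((t : ℝ) : ℂ) ^ 2) (P z) := by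
  have hsum : Summable (fun n => ‖-(z ^ 2 / ((γ n : ℝ) : ℂ) ^ 2)‖) := by
    refine (hs.mul_left (‖z‖ ^ 2)).congr fun n => ?_
    rw [norm_neg, norm_div, norm_pow, norm_pow, Complex.norm_real, Real.norm_eq_abs, sq_abs]
    ring
  have hmul : Multipliable (fun n => 1 + -(z ^ 2 / ((γ n : ℝ) : ℂ) ^ 2)) :=
    Complex.multipliable_one_add_of_summable hsum.of_norm
  have h1 := hmul.hasProd
  have h2 := h1.tendsto_prod_nat
  have h3 : (fun N => ∏ n ∈ Finset.range N, (1 + -(z ^ 2 / ((γ n : ℝ) : ℂ) ^ 2))) =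
      fun N => PP (fun n => 1 / γ n ^ 2) N z := by
    funext N
    unfold PP
    refine Finset.prod_congr rfl fun n _ => ?_
    push_cast
    ring
  rw [h3] at h2
  have h4 := tendsto_nhds_unique h2 (hP z)
  rw [h4] at h1
  have e : Function.Bijective (fun n : ℕ => (⟨γ n, by rw [← hr]; exact ⟨n, rfl⟩⟩ : Ord)) := by
    constructor
    · intro m n hmn
      exact hγ.injective (Subtype.ext_iff.1 hmn)
    · rintro ⟨t, ht⟩
      rw [← hr] at ht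
      obtain ⟨n, hn⟩ := ht
      exact ⟨n, Subtype.ext hn⟩
  rw [← (Equiv.ofBijective _ e).hasProd_iff]
  have e2 : (fun t : Ord => 1 - z ^ 2 / ((t : ℝ) : ℂ) ^ 2) ∘ (Equiv.ofBijective _ e) =
      fun n => 1 + -(z ^ 2 / ((γ n : ℝ) : ℂ) ^ 2) := by
    funext n
    simp only [Function.comp_apply, Equiv.ofBijective_apply]
    ring
  rw [e2]
  exact h1

theorem minimisers (hIL : S_IL) (hRZ : S_RZ) (hLT : S_LT) {S : Sys} {u : ℝ → ℂ → ℂ} {γ : ℕ → ℝ}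
    {P : ℂ → ℂ} (D : Data S u γ P) : Minimisers u P where
  prod := hasProd_ord D.mono (D.range.trans D.G) D.pos D.summ D.prod
  lim := fun R ε hε => by
    obtain ⟨a₀, _, h⟩ := D.lim R ε hε
    exact ⟨a₀, h⟩
  entire := fun a ha => (D.min a ha).2.2
  pos := fun a ha => by rw [qW_eq ha D.form]; linarith [(D.min a ha).2.1]
  near := fun a ha R ε hε => by
    obtain ⟨δ, hδ, h⟩ := (D.min a ha).1.near R ε hε
    refine ⟨δ, hδ, fun g hg hgW z hz => h g hg ?_ z hz⟩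
    rw [qW_eq ha D.form, D.form a g ha hg.1] at hgW
    linarith
  real := fun a ha z hz => by
    have h1 := hRZ S a (u a) z ha (D.min a ha).1 hz
    refine ⟨h1, ?_⟩
    have : z = ((z.re : ℝ) : ℂ) := by apply Complex.ext <;> simp [h1]
    rw [this] at hz ⊢
    exact (hIL S a (u a) ha (D.min a ha).1).2 z.re hz
  first := fun a ha x hx h0 => by
    have := hLT S a (u a) x ha (D.min a ha).1 hx h0
    rw [D.G] at this
    exact this
  interlace := fun a ha x y hx hxy h0 h1 => by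
    have := (hIL S a (u a) ha (D.min a ha).1).1 x y hx hxy h0 h1
    rw [D.G] at this
    exact this
  rate := fun t ht => by
    rw [← D.G, ← D.range] at ht
    obtain ⟨n, rfl⟩ := ht
    obtain ⟨C, hC⟩ := D.rate n
    refine ⟨C / 2, ?_⟩
    filter_upwards [hC, eventually_gt_atTop (0:ℝ)] with a h ha
    obtain ⟨x, h1, h2, h3⟩ := h
    refine ⟨x, h1, ?_, h3⟩
    rw [qW_eq ha D.form]
    linarith

theorem final (hTCB : S_TCB) (hA : S_MINA) (hB : S_MINB) (hC : S_MINC) (hD : S_MIND) (hHE : S_HE)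
    (hRZ : S_RZ) (hLT : S_LT) (hIL : S_IL) (hZEN : S_ZEN) (hHAD : S_HAD) (hENUM : S_ENUM) (hPC : S_PC)
    (hRT : S_RT) (hPSIM : S_PSIM) (hSYS : S_SYS) (hWK : S_WK) (hNEG : S_NEG) (hQU : S_QU)
    (hXI0 : S_XI0) (hWTS : S_WTS) :
    -- RH and simplicity
    ((RiemannHypothesis ∧ AllSimple) →
      ∀ R ε : ℝ, 0 < ε → ∃ a₀ : ℝ, ∀ a, a₀ ≤ a → Conc (fun z => Xi z / Xi 0) a R ε) ∧
    ((∀ R ε a₀ : ℝ, 0 < ε → ∃ a, a₀ ≤ a ∧ Conc (fun z => Xi z / Xi 0) a R ε) →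
      RiemannHypothesis ∧ AllSimple) ∧
    -- RH
    (RiemannHypothesis → ∀ (a : ℝ) (g : ℝ → ℝ), TR a g → 0 ≤ W g) ∧
    ((∀ a₀ : ℝ, ∃ a, a₀ ≤ a ∧ ∃ B : ℝ, ∀ g, Adm a g → B ≤ W g) → RiemannHypothesis) ∧
    (RiemannHypothesis → ∃ (u : ℝ → ℂ → ℂ) (P : ℂ → ℂ), Minimisers u P ∧ (AllSimple ↔ ∀ z, P z = Xi z / Xi 0)) ∧
    -- size of the minimum
    (∀ ε : ℝ, 0 < ε → ∃ a₀ : ℝ, ∀ a, a₀ ≤ a → ∃ g, Adm a g ∧
      W g ≤ Real.exp (-(2 * Real.pi - ε) * Real.exp (2 * a))) := by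
  have hdata : RiemannHypothesis → ∃ (S : Sys) (u : ℝ → ℂ → ℂ) (γ : ℕ → ℝ) (P : ℂ → ℂ), Data S u γ P :=
    exists_data hA hB hC hD hHE hRZ hLT hIL hZEN hHAD hENUM hPC hRT hSYS hWK
  refine ⟨?_, ?_, ?_, ?_, ?_, ?_⟩
  · rintro ⟨hRH, hs⟩ R ε hε
    obtain ⟨S, u, γ, P, D⟩ := hdata hRH
    obtain ⟨a₀, _, h⟩ := conc_of hA D R ε hε
    have : P = fun z => Xi z / Xi 0 := funext (xi_prod hHAD hXI0 hWTS hRH hs D)
    rw [this] at h
    exact ⟨a₀, h⟩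
  · intro H
    have hRH : RiemannHypothesis := rh_of_conc hTCB hQU hNEG (fun a₀ => by
      obtain ⟨a, h1, h2⟩ := H 1 1 a₀ one_pos
      exact ⟨a, h1, _, h2⟩)
    obtain ⟨S, u, γ, P, D⟩ := hdata hRH
    exact ⟨hRH, simple_of_P hPSIM hXI0 hWTS hRH D (P_of_conc hA D H)⟩
  · intro hRH a g hg
    obtain ⟨S, hG, hW⟩ := hSYS hRH
    have hg' : TR (max a 1) g := ⟨hg.smooth, hg.even, fun x hx => hg.supp x ((le_max_left _ _).trans_lt hx)⟩
    rw [hW (max a 1) g (lt_of_lt_of_le one_pos (le_max_right _ _)) hg']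
    have : 0 ≤ Q S (Ct (co g)) :=
      tsum_nonneg fun t => mul_nonneg (zero_le_one.trans (S.one_le t t.2)) (sq_nonneg _)
    linarith
  · intro H
    by_contra hcon
    obtain ⟨a₁, _, hk⟩ := hWK.1 1 one_pos
    obtain ⟨a₀, ha₀, h0⟩ := hNEG hcon
    obtain ⟨a, ha, B, hB'⟩ := H (max a₀ a₁)
    obtain ⟨g, hg, hg0, hneg⟩ := h0 a ((le_max_left _ _).trans ha)
    obtain ⟨k, hk, _⟩ := hk a ((le_max_right _ _).trans ha)
    obtain ⟨s₀, hs₀, hs⟩ := unbounded hQU hk hg hneg (B - 1)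
    have h1 := hB' _ (hk.lin hg hg0 s₀)
    have h2 := hs s₀ le_rfl
    linarith
  · intro hRH
    obtain ⟨S, u, γ, P, D⟩ := hdata hRH
    exact ⟨u, P, minimisers hIL hRZ hLT D, fun hs => xi_prod hHAD hXI0 hWTS hRH hs D,
      fun hP => simple_of_P hPSIM hXI0 hWTS hRH D hP⟩
  · intro ε hε
    obtain ⟨a₀, _, h⟩ := hWK.1 ε hε
    exact ⟨a₀, h⟩

end

end Pool.Agent.H478.WM
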