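import Pool.Agent.H478.WM.Stm

/-!
# Project WM, CAU (helper183): completeness
-/

open Complex MeasureTheory Filter Topology Set
open scoped ContDiff

namespace Pool.Agent.H478.WM

namespace CAU

lemma tc_sub {a : ℝ} {g h : ℝ → ℂ} (hg : TC a g) (hh : TC a h) : TC a (fun x => g x - h x) where
  smooth := hg.smooth.sub hh.smooth
  even := fun x => by rw [hg.even, hh.even]
  supp := fun x hx => by rw [hg.supp x hx, hh.supp x hx, sub_zero]

lemma tc_compact {a : ℝ} {g : ℝ → ℂ} (hg : TC a g) : HasCompactSupport g := by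
  refine HasCompactSupport.intro (isCompact_Icc (a := -a) (b := a)) fun x hx => ?_
  refine hg.supp x ?_
  by_contra h
  exact hx (abs_le.1 (not_lt.1 h))

lemma tc_int {a : ℝ} {g : ℝ → ℂ} (hg : TC a g) (z : ℂ) :
    Integrable (fun x : ℝ => g x * Complex.cos (z * x)) := by
  refine Continuous.integrable_of_hasCompactSupport ?_ ?_
  · have := hg.smooth.continuous
    fun_prop
  · exact (tc_compact hg).mul_right

lemma ct_sub {a : ℝ} {g h : ℝ → ℂ} (hg : TC a g) (hh : TC a h) (z : ℂ) :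
    Ct (fun x => g x - h x) z = Ct g z - Ct h z := by
  unfold Ct
  rw [← integral_sub (tc_int hg z) (tc_int hh z)]
  refine integral_congr_ae (Filter.Eventually.of_forall fun x => ?_)
  simp only [sub_mul]

lemma term_nonneg (S : Sys) (u : ℂ → ℂ) (t : S.G) : 0 ≤ S.m t * ‖u ((t : ℝ) : ℂ)‖ ^ 2 :=
  mul_nonneg (by linarith [S.one_le t t.2]) (sq_nonneg _)

lemma q_nonneg (S : Sys) (u : ℂ → ℂ) : 0 ≤ Q S u := tsum_nonneg fun t => term_nonneg S u t

end CAU

open CAU

theorem t_CAU (h1 : S_TCB) (h2 : S_SUM) (h3 : S_L2A) (h4 : S_COE) : S_CAU := by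
  intro S a g ha hg hC
  obtain ⟨c, hc, hcoe⟩ := h4 S a ha
  -- differences
  have hd : ∀ m n, TC a (fun x => g m x - g n x) := fun m n => tc_sub (hg m) (hg n)
  have hct : ∀ m n, Ct (fun x => g m x - g n x) = fun z => Ct (g m) z - Ct (g n) z :=
    fun m n => funext fun z => ct_sub (hg m) (hg n) z
  have hL2 : ∀ m n, L2 S (fun z => Ct (g m) z - Ct (g n) z) := by
    intro m n
    have h := h2 S a _ ha (hd m n)
    rw [hct] at h
    exact h
  have hbd : ∀ m n z, ‖Ct (g m) z - Ct (g n) z‖ ^ 2 ≤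
      2 * a * Real.exp (2 * a * |z.im|) * (Q S (fun z => Ct (g m) z - Ct (g n) z) / c) := by
    intro m n z
    have e1 := (h1 a _ ha (hd m n)).2.2.1 z
    have e2 := hcoe _ (hd m n)
    rw [hct] at e1 e2
    refine e1.trans (mul_le_mul_of_nonneg_left ?_ (by positivity))
    rw [le_div_iff₀ hc, mul_comm]
    exact e2
  -- uniform Cauchy estimate
  have hunif : ∀ R ε : ℝ, 0 < ε → ∃ N : ℕ, ∀ m n : ℕ, N ≤ m → N ≤ n → ∀ z : ℂ, |z.im| ≤ R →
      ‖Ct (g m) z - Ct (g n) z‖ ≤ ε := by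
    intro R ε hε
    have hK : 0 < 2 * a * Real.exp (2 * a * R) / c := by positivity
    obtain ⟨N, hN⟩ := hC (ε ^ 2 / (2 * a * Real.exp (2 * a * R) / c)) (by positivity)
    refine ⟨N, fun m n hm hn z hz => ?_⟩
    refine abs_le_of_sq_le_sq' ?_ hε.le |>.2
    refine (hbd m n z).trans ?_
    have e1 : Real.exp (2 * a * |z.im|) ≤ Real.exp (2 * a * R) :=
      Real.exp_le_exp.2 (mul_le_mul_of_nonneg_left hz (by positivity))
    have e2 := hN m n hm hn
    have e3 := q_nonneg S (fun z => Ct (g m) z - Ct (g n) z)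
    calc 2 * a * Real.exp (2 * a * |z.im|) * (Q S (fun z => Ct (g m) z - Ct (g n) z) / c) ≤
        2 * a * Real.exp (2 * a * R) * (Q S (fun z => Ct (g m) z - Ct (g n) z) / c) :=
          mul_le_mul_of_nonneg_right (mul_le_mul_of_nonneg_left e1 (by positivity)) (by positivity)
      _ = (2 * a * Real.exp (2 * a * R) / c) * Q S (fun z => Ct (g m) z - Ct (g n) z) := by ring
      _ ≤ (2 * a * Real.exp (2 * a * R) / c) * (ε ^ 2 / (2 * a * Real.exp (2 * a * R) / c)) :=
          mul_le_mul_of_nonneg_left e2 hK.le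
      _ = ε ^ 2 := mul_div_cancel₀ _ hK.ne'
  -- the limit
  have hlim : ∀ z : ℂ, ∃ w : ℂ, Tendsto (fun n => Ct (g n) z) atTop (𝓝 w) := by
    intro z
    refine cauchySeq_tendsto_of_complete ?_
    rw [Metric.cauchySeq_iff]
    intro ε hε
    obtain ⟨N, hN⟩ := hunif |z.im| (ε / 2) (by positivity)
    refine ⟨N, fun m hm n hn => ?_⟩
    rw [dist_eq_norm]
    have := hN m n hm hn z le_rfl
    linarith
  choose u hu using hlim
  -- estimates with the limit
  have hunif2 : ∀ R ε : ℝ, 0 < ε → ∃ N : ℕ, ∀ n : ℕ, N ≤ n → ∀ z : ℂ, |z.im| ≤ R →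
      ‖u z - Ct (g n) z‖ ≤ ε := by
    intro R ε hε
    obtain ⟨N, hN⟩ := hunif R ε hε
    refine ⟨N, fun n hn z hz => ?_⟩
    refine le_of_tendsto (((hu z).sub_const (Ct (g n) z)).norm) ?_
    filter_upwards [eventually_ge_atTop N] with m hm
    exact hN m n hm hn z hz
  have hkey : ∀ ε : ℝ, 0 < ε → ∃ N : ℕ, ∀ n : ℕ, N ≤ n →
      L2 S (fun z => Ct (g n) z - u z) ∧ Q S (fun z => Ct (g n) z - u z) ≤ ε := by
    intro ε hε
    obtain ⟨N, hN⟩ := hC ε hε
    refine ⟨N, fun n hn => ?_⟩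
    have hfin : ∀ s : Finset S.G, ∑ t ∈ s, S.m t * ‖Ct (g n) ((t : ℝ) : ℂ) - u ((t : ℝ) : ℂ)‖ ^ 2 ≤ ε := by
      intro s
      have hT : Tendsto (fun m => ∑ t ∈ s, S.m t *
          ‖Ct (g n) ((t : ℝ) : ℂ) - Ct (g m) ((t : ℝ) : ℂ)‖ ^ 2) atTop
          (𝓝 (∑ t ∈ s, S.m t * ‖Ct (g n) ((t : ℝ) : ℂ) - u ((t : ℝ) : ℂ)‖ ^ 2)) := by
        refine tendsto_finsetSum _ fun t _ => ?_
        exact (((tendsto_const_nhds.sub (hu _)).norm).pow 2).const_mul _
      refine le_of_tendsto hT ?_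
      filter_upwards [eventually_ge_atTop N] with m hm
      refine le_trans ?_ (hN n m hn hm)
      exact (hL2 n m).sum_le_tsum s fun t _ => term_nonneg S (fun z => Ct (g n) z - Ct (g m) z) t
    have hnn : ∀ t : S.G, 0 ≤ S.m t * ‖Ct (g n) ((t : ℝ) : ℂ) - u ((t : ℝ) : ℂ)‖ ^ 2 :=
      fun t => term_nonneg S (fun z => Ct (g n) z - u z) t
    have hs : L2 S (fun z => Ct (g n) z - u z) := summable_of_sum_le hnn hfin
    exact ⟨hs, hs.tsum_le_of_sum_le hfin⟩
  refine ⟨u, ?_, ?_, ?_⟩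
  · rw [Metric.tendstoLocallyUniformly_iff]
    intro ε hε z
    refine ⟨Metric.ball z 1, Metric.ball_mem_nhds z one_pos, ?_⟩
    obtain ⟨N, hN⟩ := hunif2 (‖z‖ + 1) (ε / 2) (by positivity)
    filter_upwards [eventually_ge_atTop N] with n hn y hy
    rw [dist_eq_norm]
    have h5 : |y.im| ≤ ‖z‖ + 1 := by
      refine (Complex.abs_im_le_norm y).trans ?_
      rw [Metric.mem_ball, dist_eq_norm] at hy
      have := norm_add_le (y - z) z
      rw [sub_add_cancel] at this
      linarith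
    have := hN n hn y h5
    linarith
  · intro n
    obtain ⟨N, hN⟩ := hkey 1 one_pos
    have hA := (hN N le_rfl).1
    have hB := (h3 S (fun z => Ct (g n) z - Ct (g N) z) (fun z => Ct (g N) z - u z)
      (fun z => Ct (g N) z - u z) 1 1 (hL2 n N) hA hA).1
    have e : (fun z => (1 : ℂ) * (Ct (g n) z - Ct (g N) z) + 1 * (Ct (g N) z - u z)) =
        fun z => Ct (g n) z - u z := by
      funext z
      ring
    rw [e] at hB
    exact hB
  · rw [Metric.tendsto_atTop]
    intro ε hε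
    obtain ⟨N, hN⟩ := hkey (ε / 2) (by positivity)
    refine ⟨N, fun n hn => ?_⟩
    rw [Real.dist_eq, sub_zero, abs_of_nonneg (q_nonneg S _)]
    have := (hN n hn).2
    linarith

end Pool.Agent.H478.WM
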