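import Pool.Agent.H478.WM.Stm2

/-!
# CHB: bounds of the Chebyshev polynomials, and `cos t cosh t ≤ 1` on `[0, π/2]`
-/

set_option autoImplicit false

namespace Pool.Agent.H478.WM.CHB

open Polynomial.Chebyshev

/-- `|T_N(y)| ≤ cosh (N t)` for `1 ≤ y ≤ cosh t` -/
theorem T_le (N : ℕ) (t y : ℝ) (h1 : 1 ≤ y) (hy : y ≤ Real.cosh t) :
    |(Polynomial.Chebyshev.T ℝ (N : ℤ)).eval y| ≤ Real.cosh (N * t) := by
  have e : (Polynomial.Chebyshev.T ℝ (N : ℤ)).eval y = Real.cosh (N * Real.arcosh y) := by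
    have := T_real_cosh (Real.arcosh y) (N : ℤ)
    rw [Real.cosh_arcosh h1] at this
    rw [this]
    norm_cast
  rw [e, abs_of_pos (Real.cosh_pos _), Real.cosh_le_cosh, abs_mul, abs_mul]
  have h2 : Real.cosh (Real.arcosh y) ≤ Real.cosh t := by
    rw [Real.cosh_arcosh h1]
    exact hy
  exact mul_le_mul_of_nonneg_left (Real.cosh_le_cosh.1 h2) (abs_nonneg _)

theorem T_le' (N : ℕ) (t y : ℝ) (hy : |y| ≤ Real.cosh t) :
    |(Polynomial.Chebyshev.T ℝ (N : ℤ)).eval y| ≤ Real.cosh (N * t) := by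
  rcases le_or_gt |y| 1 with h1 | h1
  · exact (abs_eval_T_real_le_one N h1).trans (Real.one_le_cosh _)
  · rcases le_or_gt 0 y with h0 | h0
    · rw [abs_of_nonneg h0] at h1 hy
      exact T_le N t y h1.le hy
    · rw [abs_of_neg h0] at h1 hy
      have h2 := T_le N t (-y) h1.le hy
      rw [T_eval_neg, abs_mul] at h2
      have h3 : |((Int.negOnePow (N : ℤ) : ℤ) : ℝ)| = 1 := by
        rcases Int.even_or_odd (N : ℤ) with h | h
        · rw [Int.negOnePow_even _ h]
          simp
        · rw [Int.negOnePow_odd _ h]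
          simp
      have h4 : ((Int.negOnePow (N : ℤ) : ℝ)) = ((Int.negOnePow (N : ℤ) : ℤ) : ℝ) := rfl
      rw [h4, h3, one_mul] at h2
      exact h2

/-- `cos t sinh t ≤ sin t cosh t` on `[0, π/2]` -/
theorem k_nonneg {t : ℝ} (h0 : 0 ≤ t) (h1 : t ≤ Real.pi / 2) :
    0 ≤ Real.sin t * Real.cosh t - Real.cos t * Real.sinh t := by
  have hd : ∀ x : ℝ, HasDerivAt (fun x => Real.sin x * Real.cosh x - Real.cos x * Real.sinh x)
      (2 * (Real.sin x * Real.sinh x)) x := by
    intro x
    have := ((Real.hasDerivAt_sin x).mul (Real.hasDerivAt_cosh x)).sub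
      ((Real.hasDerivAt_cos x).mul (Real.hasDerivAt_sinh x))
    refine this.congr_deriv ?_
    ring
  have hm : MonotoneOn (fun x => Real.sin x * Real.cosh x - Real.cos x * Real.sinh x)
      (Set.Icc 0 (Real.pi / 2)) := by
    apply monotoneOn_of_deriv_nonneg (convex_Icc _ _)
    · exact fun x _ => (hd x).continuousAt.continuousWithinAt
    · exact fun x _ => (hd x).differentiableAt.differentiableWithinAt
    · intro x hx
      rw [interior_Icc] at hx
      rw [(hd x).deriv]
      have h2 : 0 ≤ Real.sin x := Real.sin_nonneg_of_nonneg_of_le_pi hx.1.le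
        (by linarith [hx.2, Real.pi_pos])
      have h3 : 0 ≤ Real.sinh x := Real.sinh_nonneg_iff.2 hx.1.le
      positivity
  have h2 := hm (Set.left_mem_Icc.2 (h0.trans h1)) ⟨h0, h1⟩ h0
  simpa using h2

/-- `cos t cosh t ≤ 1` on `[0, π/2]` -/
theorem cos_cosh {t : ℝ} (h0 : 0 ≤ t) (h1 : t ≤ Real.pi / 2) :
    Real.cos t * Real.cosh t ≤ 1 := by
  have hd : ∀ x : ℝ, HasDerivAt (fun x => Real.cos x * Real.cosh x)
      (-(Real.sin x * Real.cosh x - Real.cos x * Real.sinh x)) x := by
    intro x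
    have := (Real.hasDerivAt_cos x).mul (Real.hasDerivAt_cosh x)
    refine this.congr_deriv ?_
    ring
  have hm : AntitoneOn (fun x => Real.cos x * Real.cosh x) (Set.Icc 0 (Real.pi / 2)) := by
    apply antitoneOn_of_deriv_nonpos (convex_Icc _ _)
    · exact fun x _ => (hd x).continuousAt.continuousWithinAt
    · exact fun x _ => (hd x).differentiableAt.differentiableWithinAt
    · intro x hx
      rw [interior_Icc] at hx
      rw [(hd x).deriv]
      have := k_nonneg hx.1.le hx.2.le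
      linarith
  have h2 := hm (Set.left_mem_Icc.2 (h0.trans h1)) ⟨h0, h1⟩ h0
  simpa using h2

theorem t_CHB : S_CHB := by
  refine ⟨fun N y hy => abs_eval_T_real_le_one N hy, fun N t => ?_, T_le', fun t h0 h1 =>
    cos_cosh h0 h1⟩
  rw [T_real_cosh t (N : ℤ)]
  norm_cast

end Pool.Agent.H478.WM.CHB
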