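import Pool.Agent.H478.WM.Stm2

/-!
# The Chebyshev polynomial of a dilated argument has nonnegative Chebyshev coefficients
-/

set_option autoImplicit false

open Complex MeasureTheory Filter Topology Set

namespace Pool.Agent.H478.WM.CHP

noncomputable section

/-- the value of the Chebyshev polynomial of the first kind -/
def tt (k : ℕ) (x : ℝ) : ℝ := (Polynomial.Chebyshev.T ℝ (k : ℤ)).eval x

/-- the value of the Chebyshev polynomial of the second kind -/
def uu (k : ℕ) (x : ℝ) : ℝ := (Polynomial.Chebyshev.U ℝ (k : ℤ)).eval x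

/-- combinations of the first Chebyshev polynomials with continuous coefficients, which are
nonnegative for `1 ≤ r` -/
def Good (n : ℕ) (F : ℝ → ℝ → ℝ) : Prop :=
  ∃ c : ℕ → ℝ → ℝ, (∀ k, Continuous (c k)) ∧ (∀ k r, 1 ≤ r → 0 ≤ c k r) ∧
    ∀ r x, F r x = ∑ k ∈ Finset.range (n + 1), c k r * tt k x

theorem good_zero (n : ℕ) : Good n (fun _ _ => 0) :=
  ⟨fun _ _ => 0, fun _ => continuous_const, fun _ _ _ => le_rfl, fun r x => by simp⟩

theorem good_add {n : ℕ} {F G : ℝ → ℝ → ℝ} (hF : Good n F) (hG : Good n G) :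
    Good n (fun r x => F r x + G r x) := by
  obtain ⟨c, h1, h2, h3⟩ := hF
  obtain ⟨d, h4, h5, h6⟩ := hG
  refine ⟨fun k r => c k r + d k r, fun k => (h1 k).add (h4 k),
    fun k r hr => add_nonneg (h2 k r hr) (h5 k r hr), fun r x => ?_⟩
  simp only
  rw [h3, h6, ← Finset.sum_add_distrib]
  exact Finset.sum_congr rfl fun k _ => by ring

theorem good_smul {n : ℕ} {F : ℝ → ℝ → ℝ} (hF : Good n F) (g : ℝ → ℝ) (hg : Continuous g)
    (hg0 : ∀ r, 1 ≤ r → 0 ≤ g r) : Good n (fun r x => g r * F r x) := by
  obtain ⟨c, h1, h2, h3⟩ := hF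
  refine ⟨fun k r => g r * c k r, fun k => hg.mul (h1 k),
    fun k r hr => mul_nonneg (hg0 r hr) (h2 k r hr), fun r x => ?_⟩
  simp only
  rw [h3, Finset.mul_sum]
  exact Finset.sum_congr rfl fun k _ => by ring

theorem good_sum {n : ℕ} (s : Finset ℕ) (F : ℕ → ℝ → ℝ → ℝ) (hF : ∀ k ∈ s, Good n (F k)) :
    Good n (fun r x => ∑ k ∈ s, F k r x) := by
  classical
  induction s using Finset.induction_on with
  | empty => simpa using good_zero n
  | insert a s ha ih =>
    have h1 := good_add (hF a (Finset.mem_insert_self a s))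
      (ih fun k hk => hF k (Finset.mem_insert_of_mem hk))
    simpa only [Finset.sum_insert ha] using h1

theorem good_term {n k : ℕ} (hk : k ≤ n) (g : ℝ → ℝ) (hg : Continuous g)
    (hg0 : ∀ r, 1 ≤ r → 0 ≤ g r) : Good n (fun r x => g r * tt k x) := by
  classical
  refine ⟨fun j r => if j = k then g r else 0, fun j => ?_, fun j r hr => ?_, fun r x => ?_⟩
  · by_cases h : j = k
    · simp only [h, if_true]
      exact hg
    · simp only [h, if_false]
      exact continuous_const
  · simp only
    split_ifs
    · exact hg0 r hr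
    · exact le_rfl
  · rw [Finset.sum_eq_single_of_mem k (Finset.mem_range.2 (by omega))]
    · simp
    · intro j _ hj
      simp [hj]

theorem good_mono {n m : ℕ} (h : n ≤ m) {F : ℝ → ℝ → ℝ} (hF : Good n F) : Good m F := by
  obtain ⟨c, h1, h2, h3⟩ := hF
  have h4 : Good m (fun r x => ∑ k ∈ Finset.range (n + 1), c k r * tt k x) :=
    good_sum _ (fun k r x => c k r * tt k x) fun k hk =>
      good_term (by have := Finset.mem_range.1 hk; omega) (c k) (h1 k) (h2 k)
  have h5 : F = fun r x => ∑ k ∈ Finset.range (n + 1), c k r * tt k x := by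
    funext r x
    exact h3 r x
  rw [h5]
  exact h4

theorem x_mul_tt_zero (x : ℝ) : x * tt 0 x = tt 1 x := by
  simp [tt]

theorem x_mul_tt_succ (k : ℕ) (x : ℝ) : x * tt (k + 1) x = (tt (k + 2) x + tt k x) / 2 := by
  have h := Polynomial.Chebyshev.T_add_two ℝ (k : ℤ)
  have h2 := congrArg (Polynomial.eval x) h
  simp only [Polynomial.eval_sub, Polynomial.eval_mul, Polynomial.eval_X,
    Polynomial.eval_ofNat] at h2
  unfold tt
  push_cast
  rw [h2]
  ring

theorem good_mulx {n : ℕ} {F : ℝ → ℝ → ℝ} (hF : Good n F) :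
    Good (n + 1) (fun r x => x * F r x) := by
  obtain ⟨c, h1, h2, h3⟩ := hF
  have h4 : Good (n + 1) (fun r x => ∑ k ∈ Finset.range (n + 1), c k r * (x * tt k x)) := by
    refine good_sum _ (fun k r x => c k r * (x * tt k x)) fun k hk => ?_
    have hk' := Finset.mem_range.1 hk
    rcases k with _ | k
    · simp only [x_mul_tt_zero]
      exact good_term (by omega) (c 0) (h1 0) (h2 0)
    · have h5 : Good (n + 1) (fun r x => c (k + 1) r / 2 * tt (k + 2) x) :=
        good_term (by omega) (fun r => c (k + 1) r / 2) ((h1 _).div_const 2)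
          fun r hr => by have := h2 (k + 1) r hr; positivity
      have h6 : Good (n + 1) (fun r x => c (k + 1) r / 2 * tt k x) :=
        good_term (by omega) (fun r => c (k + 1) r / 2) ((h1 _).div_const 2)
          fun r hr => by have := h2 (k + 1) r hr; positivity
      have h7 := good_add h5 h6
      have h8 : (fun r x => c (k + 1) r * (x * tt (k + 1) x)) =
          fun r x => c (k + 1) r / 2 * tt (k + 2) x + c (k + 1) r / 2 * tt k x := by
        funext r x
        rw [x_mul_tt_succ]
        ring
      rw [h8]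
      exact h7
  have h5 : (fun r x => x * F r x) =
      fun r x => ∑ k ∈ Finset.range (n + 1), c k r * (x * tt k x) := by
    funext r x
    rw [h3, Finset.mul_sum]
    exact Finset.sum_congr rfl fun k _ => by ring
  rw [h5]
  exact h4

theorem good_int {n : ℕ} {F : ℝ → ℝ → ℝ} (hF : Good n F) :
    Good n (fun s x => ∫ r in (1 : ℝ)..s, F r x) := by
  obtain ⟨c, h1, h2, h3⟩ := hF
  refine ⟨fun k s => ∫ r in (1 : ℝ)..s, c k r, fun k => ?_, fun k s hs => ?_, fun s x => ?_⟩
  · exact intervalIntegral.continuous_primitive (fun a b => (h1 k).intervalIntegrable a b) 1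
  · exact intervalIntegral.integral_nonneg hs fun r hr => h2 k r hr.1
  · simp only [h3]
    have h4 : ∀ k ∈ Finset.range (n + 1),
        IntervalIntegrable (fun r => c k r * tt k x) volume 1 s := fun k _ =>
      ((h1 k).mul continuous_const).intervalIntegrable _ _
    rw [intervalIntegral.integral_finsetSum h4]
    exact Finset.sum_congr rfl fun k _ => intervalIntegral.integral_mul_const _ _

theorem tt_zero (x : ℝ) : tt 0 x = 1 := by simp [tt]

theorem uu_zero (x : ℝ) : uu 0 x = 1 := by simp [uu]

theorem uu_succ (k : ℕ) (x : ℝ) : uu (k + 1) x = x * uu k x + tt (k + 1) x := by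
  have h := Polynomial.Chebyshev.U_eq_X_mul_U_add_T ℝ (k : ℤ)
  have h2 := congrArg (Polynomial.eval x) h
  simp only [Polynomial.eval_add, Polynomial.eval_mul, Polynomial.eval_X] at h2
  unfold uu tt
  push_cast
  exact h2

theorem continuous_uu (k : ℕ) : Continuous (uu k) := by
  unfold uu
  exact Polynomial.continuous _

theorem tt_deriv (k : ℕ) (y : ℝ) : HasDerivAt (tt (k + 1)) ((k + 1) * uu k y) y := by
  have h := (Polynomial.Chebyshev.T ℝ ((k + 1 : ℕ) : ℤ)).hasDerivAt y
  rw [Polynomial.Chebyshev.T_derivative_eq_U] at h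
  have h2 : (((k + 1 : ℕ) : ℤ) - 1) = (k : ℤ) := by push_cast; ring
  rw [h2, Polynomial.eval_mul] at h
  have h3 : Polynomial.eval y ((((k + 1 : ℕ) : ℤ) : Polynomial ℝ)) = (k : ℝ) + 1 := by
    simp
  rw [h3] at h
  exact h

theorem tt_int (k : ℕ) (s x : ℝ) : tt (k + 1) (s * x) =
    tt (k + 1) x + ∫ r in (1 : ℝ)..s, ((k : ℝ) + 1) * (x * uu k (r * x)) := by
  have h : ∀ r ∈ uIcc 1 s, HasDerivAt (fun r => tt (k + 1) (r * x))
      (((k : ℝ) + 1) * (x * uu k (r * x))) r := by
    intro r _
    have h1 := (tt_deriv k (r * x)).comp r ((hasDerivAt_id r).mul_const x)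
    simp only [one_mul] at h1
    have h2 : ((k : ℝ) + 1) * (x * uu k (r * x)) = ((k : ℝ) + 1) * uu k (r * x) * x := by ring
    rw [h2]
    exact h1
  have hc : Continuous fun r : ℝ => ((k : ℝ) + 1) * (x * uu k (r * x)) :=
    continuous_const.mul (continuous_const.mul
      ((continuous_uu k).comp (continuous_id.mul continuous_const)))
  rw [intervalIntegral.integral_eq_sub_of_hasDerivAt h (hc.intervalIntegrable _ _)]
  simp

theorem both (n : ℕ) : Good n (fun r x => tt n (r * x)) ∧ Good n (fun r x => uu n (r * x)) := by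
  induction n with
  | zero =>
    have h : Good 0 (fun _ x => 1 * tt 0 x) :=
      good_term le_rfl (fun _ => 1) continuous_const fun _ _ => zero_le_one
    constructor
    · simpa only [tt_zero, one_mul] using h
    · simpa only [tt_zero, uu_zero, one_mul] using h
  | succ n ih =>
    have hT : Good (n + 1) (fun r x => tt (n + 1) (r * x)) := by
      have h1 : Good (n + 1) (fun _ x => 1 * tt (n + 1) x) :=
        good_term le_rfl (fun _ => 1) continuous_const fun _ _ => zero_le_one
      have h2 : Good (n + 1) (fun r x => ((n : ℝ) + 1) * (x * uu n (r * x))) :=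
        good_smul (good_mulx ih.2) (fun _ => (n : ℝ) + 1) continuous_const
          fun _ _ => by positivity
      have h3 := good_add h1 (good_int h2)
      have h4 : (fun r x => tt (n + 1) (r * x)) = fun s x => 1 * tt (n + 1) x +
          ∫ r in (1 : ℝ)..s, ((n : ℝ) + 1) * (x * uu n (r * x)) := by
        funext s x
        rw [tt_int, one_mul]
      rw [h4]
      exact h3
    refine ⟨hT, ?_⟩
    have h5 : (fun r x => uu (n + 1) (r * x)) =
        fun r x => r * (x * uu n (r * x)) + tt (n + 1) (r * x) := by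
      funext r x
      rw [uu_succ]
      ring
    rw [h5]
    exact good_add (good_smul (good_mulx ih.2) (fun r => r) continuous_id
      fun r hr => by linarith) hT

end

theorem t_CHP : S_CHP := by
  intro N s hs
  obtain ⟨c, _, h2, h3⟩ := (both N).1
  exact ⟨fun k => c k s, fun k => h2 k s hs, fun x => h3 s x⟩

end Pool.Agent.H478.WM.CHP
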