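import Pool.Agent.H478.WM.Stm

/-!
# Project WM, task COE: coercivity
-/

open Complex MeasureTheory Filter Topology Set
open scoped ContDiff

namespace Pool.Agent.H478.WM

noncomputable section

namespace COE

theorem Ct_smul (c : ℂ) (g : ℝ → ℂ) (z : ℂ) : Ct (fun x => c * g x) z = c * Ct g z := by
  unfold Ct
  rw [← integral_const_mul]
  congr 1
  funext x
  ring

theorem TC_smul {a : ℝ} {g : ℝ → ℂ} (c : ℂ) (hg : TC a g) : TC a (fun x => c * g x) where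
  smooth := contDiff_const.mul hg.smooth
  even := fun x => by rw [hg.even]
  supp := fun x hx => by rw [hg.supp x hx, mul_zero]

theorem Q_nonneg (S : Sys) (u : ℂ → ℂ) : 0 ≤ Q S u :=
  tsum_nonneg fun t => mul_nonneg (zero_le_one.trans (S.one_le t.1 t.2)) (by positivity)

theorem Q_smul (S : Sys) (c : ℂ) (u : ℂ → ℂ) : Q S (fun z => c * u z) = ‖c‖ ^ 2 * Q S u := by
  unfold Q
  rw [← tsum_mul_left]
  congr 1
  funext t
  rw [norm_mul]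
  ring

theorem node_le {S : Sys} {u : ℂ → ℂ} (h : L2 S u) (t : S.G) :
    ‖u ((t : ℝ) : ℂ)‖ ^ 2 ≤ Q S u := by
  have h1 : ‖u ((t : ℝ) : ℂ)‖ ^ 2 ≤ S.m t * ‖u ((t : ℝ) : ℂ)‖ ^ 2 :=
    le_mul_of_one_le_left (by positivity) (S.one_le t.1 t.2)
  exact h1.trans (h.le_tsum t fun s _ =>
    mul_nonneg (zero_le_one.trans (S.one_le s.1 s.2)) (by positivity))

theorem summ_plain {S : Sys} {u : ℂ → ℂ} (h : L2 S u) :
    Summable (fun t : S.G => ‖u ((t : ℝ) : ℂ)‖ ^ 2) :=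
  Summable.of_nonneg_of_le (fun _ => by positivity)
    (fun t => le_mul_of_one_le_left (by positivity) (S.one_le t.1 t.2)) h

theorem tsum_plain_le {S : Sys} {u : ℂ → ℂ} (h : L2 S u) :
    ∑' t : S.G, ‖u ((t : ℝ) : ℂ)‖ ^ 2 ≤ Q S u :=
  (summ_plain h).tsum_le_tsum
    (fun t => le_mul_of_one_le_left (by positivity) (S.one_le t.1 t.2)) h

/-- a normalised sequence with small energy -/
theorem seq (S : Sys) (a : ℝ)
    (hneg : ∀ c : ℝ, 0 < c → ∃ g : ℝ → ℂ, TC a g ∧ Q S (Ct g) < c * ∫ x : ℝ, ‖g x‖ ^ 2) (n : ℕ) :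
    ∃ g : ℝ → ℂ, TC a g ∧ ∫ x : ℝ, ‖g x‖ ^ 2 = 1 ∧ Q S (Ct g) ≤ 1 / ((n : ℝ) + 1) := by
  obtain ⟨g, hg, hQ⟩ := hneg (1 / ((n : ℝ) + 1)) (by positivity)
  obtain ⟨I, hI⟩ : ∃ I, I = ∫ x : ℝ, ‖g x‖ ^ 2 := ⟨_, rfl⟩
  rw [← hI] at hQ
  have h0 := Q_nonneg S (Ct g)
  have hc : (0 : ℝ) < 1 / ((n : ℝ) + 1) := by positivity
  have hIpos : 0 < I := by
    by_contra h
    rw [not_lt] at h
    have : 1 / ((n : ℝ) + 1) * I ≤ 0 := mul_nonpos_of_nonneg_of_nonpos hc.le h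
    linarith
  obtain ⟨c, hcd⟩ : ∃ c : ℝ, c = (Real.sqrt I)⁻¹ := ⟨_, rfl⟩
  have hc2 : ‖(c : ℂ)‖ ^ 2 = I⁻¹ := by
    rw [Complex.norm_real, Real.norm_eq_abs, sq_abs, hcd, inv_pow, Real.sq_sqrt hIpos.le]
  refine ⟨fun x => (c : ℂ) * g x, TC_smul _ hg, ?_, ?_⟩
  · have : ∀ x, ‖(c : ℂ) * g x‖ ^ 2 = I⁻¹ * ‖g x‖ ^ 2 := by
      intro x
      rw [norm_mul, mul_pow, hc2]
    simp only [this]
    rw [integral_const_mul, ← hI, inv_mul_cancel₀ hIpos.ne']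
  · have : Ct (fun x => (c : ℂ) * g x) = fun z => (c : ℂ) * Ct g z := by
      funext z
      exact Ct_smul _ _ _
    rw [this, Q_smul, hc2]
    have h1 : I⁻¹ * Q S (Ct g) ≤ I⁻¹ * (1 / ((n : ℝ) + 1) * I) :=
      mul_le_mul_of_nonneg_left hQ.le (inv_nonneg.2 hIpos.le)
    have h2 : I⁻¹ * (1 / ((n : ℝ) + 1) * I) = 1 / ((n : ℝ) + 1) := by
      field_simp
    rwa [h2] at h1

end COE

open COE in
theorem t_COE (h1 : S_TCB) (h2 : S_SUM) (h3 : S_PL) (h4 : S_GRID) (h5 : S_UNI) (h6 : S_CPT) :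
    S_COE := by
  intro S a ha
  by_contra hcon
  push Not at hcon
  choose g hg hgI hgQ using seq S a (fun c hc => hcon c hc)
  obtain ⟨φ, hφ, F, hF, hFb, hFc⟩ := h6 a g ha hg (fun n => (hgI n).le)
  have hL2 : ∀ n, L2 S (Ct (g n)) := fun n => h2 S a (g n) ha (hg n)
  have hlim0 : Tendsto (fun n => 1 / (((φ n : ℕ) : ℝ) + 1)) atTop (𝓝 0) :=
    tendsto_one_div_add_atTop_nhds_zero_nat.comp hφ.tendsto_atTop
  -- the limit vanishes at the nodes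
  have hF0 : ∀ t ∈ S.G, F (t : ℂ) = 0 := by
    intro t ht
    have e1 : Tendsto (fun n => ‖Ct (g (φ n)) (t : ℂ)‖ ^ 2) atTop (𝓝 (‖F (t : ℂ)‖ ^ 2)) :=
      ((hFc (t : ℂ)).norm).pow 2
    have e2 : ‖F (t : ℂ)‖ ^ 2 ≤ 0 :=
      le_of_tendsto_of_tendsto' e1 hlim0 fun n =>
        (node_le (hL2 (φ n)) ⟨t, ht⟩).trans (hgQ (φ n))
    have e3 : ‖F (t : ℂ)‖ ^ 2 = 0 := le_antisymm e2 (by positivity)
    have e4 : ‖F (t : ℂ)‖ = 0 := by
      exact pow_eq_zero_iff (two_ne_zero) |>.1 e3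
    exact norm_eq_zero.1 e4
  have hFz : ∀ z, F z = 0 := by
    refine h5 S.G F (Real.sqrt (2 * a)) a S.gaps hF ?_ hF0
    intro z
    have e1 := hFb z
    have e2 : (Real.sqrt (2 * a) * Real.exp (a * ‖z‖)) ^ 2 = 2 * a * Real.exp (2 * a * ‖z‖) := by
      rw [mul_pow, Real.sq_sqrt (by positivity), ← Real.exp_nat_mul]
      congr 2
      push_cast
      ring
    have e3 : ‖F z‖ ^ 2 ≤ (Real.sqrt (2 * a) * Real.exp (a * ‖z‖)) ^ 2 := by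
      rw [e2]
      refine e1.trans ?_
      have : 2 * a * |z.im| ≤ 2 * a * ‖z‖ :=
        mul_le_mul_of_nonneg_left (Complex.abs_im_le_norm z) (by positivity)
      exact mul_le_mul_of_nonneg_left (Real.exp_le_exp.2 this) (by positivity)
    exact (pow_le_pow_iff_left₀ (norm_nonneg _) (by positivity) two_ne_zero).1 e3
  -- the grid
  obtain ⟨h, hh⟩ : ∃ h : ℝ, h = 1 / (6 * a) := ⟨_, rfl⟩
  have hhpos : 0 < h := by rw [hh]; positivity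
  have hha : h ^ 2 * a ^ 2 = 1 / 36 := by
    rw [hh]
    field_simp
    norm_num
  obtain ⟨T0, hT0⟩ := S.gaps h hhpos
  obtain ⟨T, hT⟩ : ∃ T : ℝ, T = max T0 0 := ⟨_, rfl⟩
  have hTnn : 0 ≤ T := by rw [hT]; exact le_max_right _ _
  have hgrid : ∀ t : ℝ, T ≤ t → ∃ s ∈ S.G, t ≤ s ∧ s ≤ t + h := fun t ht =>
    hT0 t ((le_max_left T0 0).trans (hT ▸ ht))
  have hmain : ∀ n, 2 * Real.pi ≤ 2 * (∫ t in Ioc 0 T, ‖Ct (g n) (t : ℂ)‖ ^ 2) +
      8 * h * (1 / ((n : ℝ) + 1)) + 8 / 9 * Real.pi := by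
    intro n
    obtain ⟨p1, p2, p3, p4, p5⟩ := h3 a (g n) ha (hg n)
    rw [hgI n, mul_one] at p3 p5
    have hgr := h4 S.G T h (fun t : ℝ => Ct (g n) (t : ℂ)) hhpos hgrid p1 p2 p4
      (summ_plain (hL2 n))
    beta_reduce at hgr
    have hts : ∑' s : S.G, ‖Ct (g n) ((s : ℝ) : ℂ)‖ ^ 2 ≤ 1 / ((n : ℝ) + 1) :=
      (tsum_plain_le (hL2 n)).trans (hgQ n)
    have heven : ∀ t : ℝ, ‖Ct (g n) ((|t| : ℝ) : ℂ)‖ ^ 2 = ‖Ct (g n) (t : ℂ)‖ ^ 2 := by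
      intro t
      rcases abs_choice t with ht | ht
      · rw [ht]
      · rw [ht, Complex.ofReal_neg, (h1 a (g n) ha (hg n)).2.1]
    have e1 : ∫ t : ℝ, ‖Ct (g n) (t : ℂ)‖ ^ 2 = 2 * ∫ t in Ioi (0 : ℝ), ‖Ct (g n) (t : ℂ)‖ ^ 2 := by
      rw [← integral_comp_abs (f := fun t : ℝ => ‖Ct (g n) (t : ℂ)‖ ^ 2)]
      exact integral_congr_ae (Eventually.of_forall fun t => (heven t).symm)
    have e2 : ∫ t in Ioi (0 : ℝ), ‖Ct (g n) (t : ℂ)‖ ^ 2 =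
        (∫ t in Ioc 0 T, ‖Ct (g n) (t : ℂ)‖ ^ 2) + ∫ t in Ioi T, ‖Ct (g n) (t : ℂ)‖ ^ 2 := by
      rw [← Ioc_union_Ioi_eq_Ioi hTnn]
      exact setIntegral_union (Ioc_disjoint_Ioi le_rfl) measurableSet_Ioi
        p2.integrableOn p2.integrableOn
    have hb1 : 4 * h * ∑' s : S.G, ‖Ct (g n) ((s : ℝ) : ℂ)‖ ^ 2 ≤ 4 * h * (1 / ((n : ℝ) + 1)) :=
      mul_le_mul_of_nonneg_left hts (by positivity)
    have hb2 : 8 * h ^ 2 * ∫ t : ℝ, ‖deriv (fun s : ℝ => Ct (g n) (s : ℂ)) t‖ ^ 2 ≤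
        8 * h ^ 2 * (2 * Real.pi * a ^ 2) := mul_le_mul_of_nonneg_left p5 (by positivity)
    have hb3 : 8 * h ^ 2 * (2 * Real.pi * a ^ 2) = 4 / 9 * Real.pi := by
      have : 8 * h ^ 2 * (2 * Real.pi * a ^ 2) = 16 * Real.pi * (h ^ 2 * a ^ 2) := by ring
      rw [this, hha]
      ring
    rw [e1, e2] at p3
    linarith
  -- the integral over a bounded interval tends to zero
  have hA : Tendsto (fun n => ∫ t in Ioc 0 T, ‖Ct (g (φ n)) (t : ℂ)‖ ^ 2) atTop (𝓝 0) := by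
    have e0 : ∫ t in Ioc (0 : ℝ) T, (0 : ℝ) = 0 := by simp
    suffices e9 : Tendsto (fun n => ∫ t in Ioc 0 T, ‖Ct (g (φ n)) (t : ℂ)‖ ^ 2) atTop
        (𝓝 (∫ t in Ioc (0 : ℝ) T, (0 : ℝ))) by rwa [e0] at e9
    refine tendsto_integral_of_dominated_convergence (fun _ : ℝ => 2 * a) ?_ ?_ ?_ ?_
    · intro n
      exact ((h3 a (g (φ n)) ha (hg (φ n))).1.continuous.norm.pow 2).aestronglyMeasurable
    · exact integrable_const _
    · intro n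
      refine Eventually.of_forall fun t => ?_
      have e1 := (h1 a (g (φ n)) ha (hg (φ n))).2.2.1 (t : ℂ)
      rw [hgI, mul_one, Complex.ofReal_im, abs_zero, mul_zero, Real.exp_zero, mul_one] at e1
      rw [Real.norm_eq_abs, abs_of_nonneg (by positivity)]
      exact e1
    · refine Eventually.of_forall fun t => ?_
      have e1 := ((hFc (t : ℂ)).norm).pow 2
      rw [hFz, norm_zero] at e1
      simpa using e1
  have hlim : Tendsto (fun n => 2 * (∫ t in Ioc 0 T, ‖Ct (g (φ n)) (t : ℂ)‖ ^ 2) +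
      8 * h * (1 / (((φ n : ℕ) : ℝ) + 1)) + 8 / 9 * Real.pi) atTop
      (𝓝 (2 * 0 + 8 * h * 0 + 8 / 9 * Real.pi)) :=
    ((hA.const_mul 2).add (hlim0.const_mul (8 * h))).add tendsto_const_nhds
  have hfin := ge_of_tendsto' hlim (fun n => hmain (φ n))
  have := Real.pi_pos
  linarith

end

end Pool.Agent.H478.WM
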