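import Pool.Agent.H478.WM.Stm

/-!
# Project WM, part CPT: compactness (for helper478, by helper190)
-/

open Complex MeasureTheory Filter Topology Set

namespace Pool.Agent.H478.WM.CPT

noncomputable section

theorem supp_cpt {a : ℝ} {g : ℝ → ℂ} (hg : TC a g) : HasCompactSupport g := by
  refine HasCompactSupport.intro (isCompact_Icc (a := -a) (b := a)) fun x hx => hg.supp x ?_
  by_contra h
  exact hx (abs_le.1 (not_lt.1 h))

/-- the integral of the norm -/
theorem L1 {a : ℝ} {g : ℝ → ℂ} (ha : 0 < a) (hg : TC a g) (h1 : ∫ x : ℝ, ‖g x‖ ^ 2 ≤ 1) :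
    ∫ x : ℝ, ‖g x‖ ≤ Real.sqrt (2 * a) := by
  have hc := hg.smooth.continuous
  have hs := supp_cpt hg
  have hl : 0 < Real.sqrt (2 * a) := Real.sqrt_pos.2 (by linarith)
  set l := Real.sqrt (2 * a) with hldef
  have hl2 : l ^ 2 = 2 * a := Real.sq_sqrt (by linarith)
  have hi1 : Integrable (fun x : ℝ => ‖g x‖) := (hc.integrable_of_hasCompactSupport hs).norm
  have hi2 : Integrable (fun x : ℝ => ‖g x‖ ^ 2) := by
    refine (hc.norm.pow 2).integrable_of_hasCompactSupport ?_
    refine HasCompactSupport.intro (isCompact_Icc (a := -a) (b := a)) fun x hx => ?_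
    show ‖g x‖ ^ 2 = 0
    rw [hg.supp x (by
      by_contra h
      exact hx (abs_le.1 (not_lt.1 h))), norm_zero]
    norm_num
  have hi3 : Integrable (fun x : ℝ => (Icc (-a) a).indicator (fun _ => (1 : ℝ)) x) := by
    rw [integrable_indicator_iff measurableSet_Icc]
    exact integrableOn_const (by simp)
  have h3 : ∫ x : ℝ, (Icc (-a) a).indicator (fun _ => (1 : ℝ)) x = 2 * a := by
    rw [integral_indicator measurableSet_Icc, setIntegral_const, smul_eq_mul, mul_one,
      Real.volume_real_Icc]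
    rw [max_eq_left (by linarith)]
    ring
  have hp : ∀ x, ‖g x‖ ≤ (l / 2) * ‖g x‖ ^ 2 +
      (1 / (2 * l)) * (Icc (-a) a).indicator (fun _ => (1 : ℝ)) x := by
    intro x
    by_cases hx : x ∈ Icc (-a) a
    · rw [indicator_of_mem hx]
      have h4 : 0 ≤ (l * ‖g x‖ - 1) ^ 2 / (2 * l) := by positivity
      have h5 : (l / 2) * ‖g x‖ ^ 2 + (1 / (2 * l)) * 1 - ‖g x‖ = (l * ‖g x‖ - 1) ^ 2 / (2 * l) := by
        field_simp
        ring
      linarith
    · rw [indicator_of_notMem hx, hg.supp x (by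
        by_contra h
        exact hx (abs_le.1 (not_lt.1 h))), norm_zero]
      norm_num
  calc ∫ x : ℝ, ‖g x‖ ≤ ∫ x : ℝ, ((l / 2) * ‖g x‖ ^ 2 +
      (1 / (2 * l)) * (Icc (-a) a).indicator (fun _ => (1 : ℝ)) x) :=
        integral_mono hi1 ((hi2.const_mul _).add (hi3.const_mul _)) hp
    _ = (l / 2) * (∫ x : ℝ, ‖g x‖ ^ 2) + (1 / (2 * l)) * (2 * a) := by
        rw [integral_add (hi2.const_mul _) (hi3.const_mul _), integral_const_mul,
          integral_const_mul, h3]
    _ ≤ (l / 2) * 1 + (1 / (2 * l)) * (2 * a) := by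
        have : (l / 2) * (∫ x : ℝ, ‖g x‖ ^ 2) ≤ (l / 2) * 1 :=
          mul_le_mul_of_nonneg_left h1 (by positivity)
        linarith
    _ = l := by
        rw [← hl2]
        field_simp
        ring

/-- the integral against a bounded function -/
theorem mom {a : ℝ} {g : ℝ → ℂ} (ha : 0 < a) (hg : TC a g) (h1 : ∫ x : ℝ, ‖g x‖ ^ 2 ≤ 1)
    {h : ℝ → ℂ} {M : ℝ} (hM : ∀ x, |x| ≤ a → ‖h x‖ ≤ M) :
    ‖∫ x : ℝ, g x * h x‖ ≤ M * Real.sqrt (2 * a) := by
  have hc := hg.smooth.continuous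
  have hs := supp_cpt hg
  have hi1 : Integrable (fun x : ℝ => ‖g x‖) := (hc.integrable_of_hasCompactSupport hs).norm
  have hM0 : 0 ≤ M := (norm_nonneg _).trans (hM 0 (by rw [abs_zero]; exact ha.le))
  calc ‖∫ x : ℝ, g x * h x‖ ≤ ∫ x : ℝ, M * ‖g x‖ := by
        refine norm_integral_le_of_norm_le (hi1.const_mul _) (Eventually.of_forall fun x => ?_)
        rw [norm_mul]
        by_cases hx : |x| ≤ a
        · rw [mul_comm]
          exact mul_le_mul_of_nonneg_right (hM x hx) (norm_nonneg _)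
        · rw [hg.supp x (not_le.1 hx), norm_zero, zero_mul, mul_zero]
    _ = M * ∫ x : ℝ, ‖g x‖ := integral_const_mul _ _
    _ ≤ M * Real.sqrt (2 * a) := mul_le_mul_of_nonneg_left (L1 ha hg h1) hM0

theorem norm_cos_le (w : ℂ) : ‖Complex.cos w‖ ≤ Real.exp |w.im| := by
  unfold Complex.cos
  rw [norm_div, Complex.norm_ofNat]
  have h1 : ‖Complex.exp (w * I)‖ ≤ Real.exp |w.im| := by
    rw [Complex.norm_exp]
    apply Real.exp_le_exp.2
    simp only [mul_re, I_re, I_im, mul_zero, mul_one, zero_sub]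
    exact neg_le_abs _
  have h2 : ‖Complex.exp (-w * I)‖ ≤ Real.exp |w.im| := by
    rw [Complex.norm_exp]
    apply Real.exp_le_exp.2
    simp only [mul_re, I_re, I_im, mul_zero, mul_one, zero_sub, neg_im, neg_neg]
    exact le_abs_self _
  rw [div_le_iff₀ (by norm_num)]
  calc _ ≤ ‖Complex.exp (w * I)‖ + ‖Complex.exp (-w * I)‖ := norm_add_le _ _
    _ ≤ _ := by linarith

/-- the bound for the transform -/
theorem Ct_bd {a : ℝ} {g : ℝ → ℂ} (ha : 0 < a) (hg : TC a g) (h1 : ∫ x : ℝ, ‖g x‖ ^ 2 ≤ 1)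
    (z : ℂ) : ‖Ct g z‖ ^ 2 ≤ 2 * a * Real.exp (2 * a * |z.im|) := by
  have h2 : ‖Ct g z‖ ≤ Real.exp (a * |z.im|) * Real.sqrt (2 * a) := by
    refine mom ha hg h1 fun x hx => ?_
    refine (norm_cos_le _).trans (Real.exp_le_exp.2 ?_)
    have h3 : (z * (x : ℂ)).im = z.im * x := by simp
    rw [h3, abs_mul, mul_comm]
    exact mul_le_mul_of_nonneg_right hx (abs_nonneg _)
  calc ‖Ct g z‖ ^ 2 ≤ (Real.exp (a * |z.im|) * Real.sqrt (2 * a)) ^ 2 :=
        pow_le_pow_left₀ (norm_nonneg _) h2 2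
    _ = 2 * a * Real.exp (2 * a * |z.im|) := by
        rw [mul_pow, Real.sq_sqrt (by linarith), ← Real.exp_nat_mul]
        push_cast
        ring_nf

/-- the coefficients -/
def cf (z : ℂ) (k : ℕ) : ℂ := (-1) ^ k * z ^ (2 * k) / ((2 * k).factorial : ℂ)

/-- the moments -/
def mo (g : ℝ → ℂ) (k : ℕ) : ℂ := ∫ x : ℝ, g x * (x : ℂ) ^ (2 * k)

theorem mo_bd {a : ℝ} {g : ℝ → ℂ} (ha : 0 < a) (hg : TC a g) (h1 : ∫ x : ℝ, ‖g x‖ ^ 2 ≤ 1)
    (k : ℕ) : ‖mo g k‖ ≤ a ^ (2 * k) * Real.sqrt (2 * a) := by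
  refine mom ha hg h1 fun x hx => ?_
  rw [norm_pow, Complex.norm_real]
  exact pow_le_pow_left₀ (norm_nonneg _) hx _

theorem cf_norm (z : ℂ) (k : ℕ) : ‖cf z k‖ = ‖z‖ ^ (2 * k) / (2 * k).factorial := by
  unfold cf
  rw [norm_div, norm_mul, norm_pow, norm_pow, norm_neg, norm_one, one_pow, one_mul,
    Complex.norm_natCast]

theorem summ (r : ℝ) : Summable (fun k : ℕ => r ^ (2 * k) / ((2 * k).factorial : ℝ)) :=
  (Real.summable_pow_div_factorial r).comp_injective (i := fun k : ℕ => 2 * k)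
    (fun a b h => by simpa using h)

theorem Ct_sum {a : ℝ} {g : ℝ → ℂ} (hg : TC a g) (z : ℂ) :
    HasSum (fun k => cf z k * mo g k) (Ct g z) := by
  have hc := hg.smooth.continuous
  have hs := supp_cpt hg
  have hi1 : Integrable (fun x : ℝ => ‖g x‖) := (hc.integrable_of_hasCompactSupport hs).norm
  have h := hasSum_integral_of_dominated_convergence (μ := volume)
    (F := fun (k : ℕ) (x : ℝ) => g x * cf (z * (x : ℂ)) k)
    (f := fun x => g x * Complex.cos (z * x))
    (fun (k : ℕ) (x : ℝ) => ‖g x‖ * ((a * ‖z‖) ^ (2 * k) / ((2 * k).factorial : ℝ)))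
    (fun k => by
      refine Continuous.aestronglyMeasurable ?_
      unfold cf
      fun_prop)
    (fun k => Eventually.of_forall fun x => by
      rw [norm_mul, cf_norm]
      by_cases hx : |x| ≤ a
      · refine mul_le_mul_of_nonneg_left ?_ (norm_nonneg _)
        refine div_le_div_of_nonneg_right ?_ (by positivity)
        refine pow_le_pow_left₀ (norm_nonneg _) ?_ _
        rw [norm_mul, Complex.norm_real, mul_comm]
        exact mul_le_mul_of_nonneg_right hx (norm_nonneg _)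
      · rw [hg.supp x (not_le.1 hx), norm_zero, zero_mul, zero_mul])
    (Eventually.of_forall fun x => (summ _).mul_left _)
    (by
      simp only [tsum_mul_left]
      exact hi1.mul_const _)
    (Eventually.of_forall fun x => by
      have := (Complex.hasSum_cos (z * (x : ℂ))).mul_left (g x)
      exact this)
  have e : (fun k => cf z k * mo g k) = fun k => ∫ x : ℝ, g x * cf (z * (x : ℂ)) k := by
    funext k
    unfold mo
    rw [← integral_const_mul]
    refine integral_congr_ae (Eventually.of_forall fun x => ?_)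
    show cf z k * (g x * (x : ℂ) ^ (2 * k)) = g x * cf (z * (x : ℂ)) k
    unfold cf
    rw [mul_pow]
    ring
  rw [e]
  exact h

theorem t_CPT : S_CPT := by
  intro a g ha hg h1
  obtain ⟨c, hc, φ, hφ, hlim⟩ := (isCompact_univ_pi fun k : ℕ =>
    isCompact_closedBall (0 : ℂ) (a ^ (2 * k) * Real.sqrt (2 * a))).tendsto_subseq
    (x := fun n k => mo (g n) k) (fun n k _ => by
      rw [mem_closedBall_zero_iff]
      exact mo_bd ha (hg n) (h1 n) k)
  have hcb : ∀ k, ‖c k‖ ≤ a ^ (2 * k) * Real.sqrt (2 * a) := fun k =>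
    mem_closedBall_zero_iff.1 (hc k (mem_univ k))
  have hlim' : ∀ k, Tendsto (fun n => mo (g (φ n)) k) atTop (𝓝 (c k)) := fun k =>
    (tendsto_pi_nhds.1 hlim) k
  have hbd : ∀ (R : ℝ) (z : ℂ) (k : ℕ) (m : ℂ), ‖z‖ ≤ R →
      ‖m‖ ≤ a ^ (2 * k) * Real.sqrt (2 * a) →
      ‖cf z k * m‖ ≤ Real.sqrt (2 * a) * ((a * R) ^ (2 * k) / ((2 * k).factorial : ℝ)) := by
    intro R z k m hz hm
    rw [norm_mul, cf_norm]
    calc ‖z‖ ^ (2 * k) / ((2 * k).factorial : ℝ) * ‖m‖
        ≤ R ^ (2 * k) / ((2 * k).factorial : ℝ) * (a ^ (2 * k) * Real.sqrt (2 * a)) := by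
          refine mul_le_mul ?_ hm (norm_nonneg _) (by
            have := (norm_nonneg z).trans hz
            positivity)
          refine div_le_div_of_nonneg_right ?_ (by positivity)
          exact pow_le_pow_left₀ (norm_nonneg _) hz _
      _ = _ := by
          rw [mul_pow]
          ring
  have hT : ∀ z, Tendsto (fun n => Ct (g (φ n)) z) atTop (𝓝 (∑' k, cf z k * c k)) := by
    intro z
    have e : (fun n => Ct (g (φ n)) z) = fun n => ∑' k, cf z k * mo (g (φ n)) k := by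
      funext n
      exact (Ct_sum (hg (φ n)) z).tsum_eq.symm
    rw [e]
    refine tendsto_tsum_of_dominated_convergence
      (bound := fun k => Real.sqrt (2 * a) * ((a * ‖z‖) ^ (2 * k) / ((2 * k).factorial : ℝ)))
      ((summ _).mul_left _) (fun k => (hlim' k).const_mul _)
      (Eventually.of_forall fun n k => ?_)
    exact hbd ‖z‖ z k _ le_rfl (mo_bd ha (hg _) (h1 _) k)
  refine ⟨φ, hφ, fun z => ∑' k, cf z k * c k, ?_, ?_, hT⟩
  · intro z
    have hz : z ∈ Metric.ball (0 : ℂ) (‖z‖ + 1) := by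
      rw [mem_ball_zero_iff]
      linarith
    have h2 := differentiableOn_tsum_of_summable_norm
      (F := fun (k : ℕ) (w : ℂ) => cf w k * c k) (U := Metric.ball (0 : ℂ) (‖z‖ + 1))
      (u := fun k => Real.sqrt (2 * a) *
        ((a * (‖z‖ + 1)) ^ (2 * k) / ((2 * k).factorial : ℝ)))
      ((summ _).mul_left _) (fun k => by
        unfold cf
        fun_prop) Metric.isOpen_ball (fun k w hw => hbd _ w k _
          (mem_ball_zero_iff.1 hw).le (hcb k))
    exact (h2 z hz).differentiableAt (Metric.isOpen_ball.mem_nhds hz)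
  · intro z
    refine le_of_tendsto ((hT z).norm.pow 2) (Eventually.of_forall fun n => ?_)
    exact Ct_bd ha (hg _) (h1 _) z

end

end Pool.Agent.H478.WM.CPT

namespace Pool.Agent.H478.WM

theorem t_CPT : S_CPT := CPT.t_CPT

end Pool.Agent.H478.WM
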