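import Pool.Agent.H478.WM.Stm3

/-!
# Project WM, third part: orthogonal decomposition of a test function
-/

open Complex MeasureTheory Filter Topology Set
open scoped ContDiff

namespace Pool.Agent.H478.WM.DEC

noncomputable section

/-- the transform of a test function is in the closure -/
theorem inH_ct (S : Sys) {a : ℝ} {g : ℝ → ℂ} (hg : TC a g) : InH S a (Ct g) := by
  refine ⟨fun _ => g, fun _ => hg, ?_, ?_, ?_⟩
  · intro s hs x
    exact ⟨univ, univ_mem, Eventually.of_forall fun n y _ => refl_mem_uniformity hs⟩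
  · intro n
    have h : (fun t : S.G => S.m t * ‖(fun z => Ct g z - Ct g z) ((t : ℝ) : ℂ)‖ ^ 2) =
        fun _ => (0 : ℝ) := by
      funext t
      simp
    unfold L2
    rw [h]
    exact summable_zero
  · have h : ∀ n : ℕ, Q S (fun z => Ct g z - Ct g z) = 0 := by
      intro n
      unfold Q
      simp
    exact tendsto_const_nhds.congr fun n => (h n).symm

theorem q_nonneg (S : Sys) (h : ℂ → ℂ) : 0 ≤ Q S h :=
  tsum_nonneg fun t => mul_nonneg (zero_le_one.trans (S.one_le t t.2)) (sq_nonneg _)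

/-- the energy of the orthogonal part -/
theorem q_sub {S : Sys} {u f : ℂ → ℂ} {c : ℂ} (hu : L2 S u) (hf : L2 S f)
    (hr : ∀ t : ℝ, (u t).im = 0)
    (hs : Summable (fun t : S.G => (S.m t : ℂ) * (u ((t : ℝ) : ℂ) * f ((t : ℝ) : ℂ)))) :
    Q S (fun z => f z - c * u z) =
      Q S f - 2 * ((starRingEnd ℂ) c * Bf S u f).re + ‖c‖ ^ 2 * Q S u := by
  have hA : HasSum (fun t : S.G => S.m t * ‖f ((t : ℝ) : ℂ)‖ ^ 2) (Q S f) := hf.hasSum
  have hU : HasSum (fun t : S.G => S.m t * ‖u ((t : ℝ) : ℂ)‖ ^ 2) (Q S u) := hu.hasSum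
  have hB : HasSum (fun t : S.G => (S.m t : ℂ) * (u ((t : ℝ) : ℂ) * f ((t : ℝ) : ℂ)))
      (Bf S u f) := hs.hasSum
  have hB' := Complex.hasSum_re (hB.mul_left ((starRingEnd ℂ) c))
  have hT := (hA.sub (hB'.mul_left 2)).add (hU.mul_left (‖c‖ ^ 2))
  have e : (fun t : S.G => S.m t * ‖f ((t : ℝ) : ℂ)‖ ^ 2 -
      2 * ((starRingEnd ℂ) c * ((S.m t : ℂ) * (u ((t : ℝ) : ℂ) * f ((t : ℝ) : ℂ)))).re +
      ‖c‖ ^ 2 * (S.m t * ‖u ((t : ℝ) : ℂ)‖ ^ 2)) =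
      fun t : S.G => S.m t * ‖(fun z => f z - c * u z) ((t : ℝ) : ℂ)‖ ^ 2 := by
    funext t
    have h1 : (starRingEnd ℂ) (u ((t : ℝ) : ℂ)) = u ((t : ℝ) : ℂ) :=
      Complex.conj_eq_iff_im.2 (hr t)
    have h2 : ‖f ((t : ℝ) : ℂ) - c * u ((t : ℝ) : ℂ)‖ ^ 2 =
        ‖f ((t : ℝ) : ℂ)‖ ^ 2 + ‖c‖ ^ 2 * ‖u ((t : ℝ) : ℂ)‖ ^ 2 -
          2 * ((starRingEnd ℂ) c * (u ((t : ℝ) : ℂ) * f ((t : ℝ) : ℂ))).re := by
      rw [← Complex.normSq_eq_norm_sq, Complex.normSq_sub, Complex.normSq_eq_norm_sq,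
        Complex.normSq_eq_norm_sq, norm_mul, mul_pow, map_mul, h1]
      congr 3
      ring
    have h3 : ((starRingEnd ℂ) c * ((S.m t : ℂ) * (u ((t : ℝ) : ℂ) * f ((t : ℝ) : ℂ)))).re =
        S.m t * ((starRingEnd ℂ) c * (u ((t : ℝ) : ℂ) * f ((t : ℝ) : ℂ))).re := by
      rw [← Complex.re_ofReal_mul]
      congr 1
      ring
    show _ = S.m t * ‖f ((t : ℝ) : ℂ) - c * u ((t : ℝ) : ℂ)‖ ^ 2
    rw [h2, h3]
    ring
  rw [e] at hT
  exact hT.tsum_eq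

theorem t_DEC (h1 : S_TCB) (h2 : S_SUM) (h3 : S_L2A) (h4 : S_HE) (h5 : S_LIN) : S_DEC := by
  intro S a u g ha hu hq hg
  have hgH := inH_ct S hg
  have hgL := h2 S a g ha hg
  have huL := (h4 S a u ha hu.mem).2.2.1
  have hlin := h5 S a (Ct g) u 1 (-Ct g 0) ha hgH hu.mem
  have e1 : (fun z => 1 * Ct g z + -Ct g 0 * u z) = fun z => Ct g z - Ct g 0 * u z := by
    funext z
    ring
  rw [e1] at hlin
  have hs := (h3 S u (Ct g) u 1 1 huL hgL huL).2.1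
  have hQ := q_sub (c := Ct g 0) huL hgL hu.real hs
  have hel := hu.el (Ct g) hgH
  have e2 : ((starRingEnd ℂ) (Ct g 0) * Bf S u (Ct g)).re = qS S a * ‖Ct g 0‖ ^ 2 := by
    rw [hel, mul_left_comm, Complex.conj_mul', Complex.re_ofReal_mul]
    rw [← Complex.ofReal_pow, Complex.ofReal_re]
  rw [e2, hu.energy] at hQ
  have h6 := q_nonneg S (fun z => Ct g z - Ct g 0 * u z)
  have h7 : 0 ≤ qS S a * ‖Ct g 0‖ ^ 2 := mul_nonneg hq.le (sq_nonneg _)
  refine ⟨hlin, ?_, ?_⟩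
  · rw [hQ]
    linarith
  · rw [hQ] at h6
    linarith

end

end Pool.Agent.H478.WM.DEC
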