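import Pool.Agent.H478.WM.Stm3

/-!
# Project WM: division of a transform with a gain in the bound
-/

set_option autoImplicit false

open Complex MeasureTheory Filter Topology Set
open scoped ContDiff

namespace Pool.Agent.H478.WM.DIV

noncomputable section

/-- continuous exponentially decreasing functions -/
structure ED (Y B : ℝ) (f : ℝ → ℝ) : Prop where
  cont : Continuous f
  bd : ∀ x : ℝ, |f x| ≤ B * Real.exp (-Y * |x|)

lemma ED.nonneg {Y B : ℝ} {f : ℝ → ℝ} (h : ED Y B f) : 0 ≤ B := by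
  have h1 := (abs_nonneg _).trans (h.bd 0)
  simpa using h1

lemma int_exp_Ioi {c : ℝ} (hc : 0 < c) : IntegrableOn (fun x : ℝ => Real.exp (-c * x)) (Ioi 0) :=
  integrableOn_exp_mul_Ioi (by linarith) 0

lemma int_exp_abs {c : ℝ} (hc : 0 < c) : Integrable fun x : ℝ => Real.exp (-c * |x|) := by
  have h1 := integral_comp_abs (f := fun x => Real.exp (-c * x))
  rw [integral_exp_mul_Ioi (by linarith) 0] at h1
  by_contra h2
  rw [integral_undef h2] at h1
  have h3 : (2 : ℝ) * (-Real.exp (-c * 0) / -c) ≠ 0 := by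
    rw [mul_zero, Real.exp_zero]
    have : (2 : ℝ) * (-1 / -c) = 2 / c := by field_simp
    rw [this]
    positivity
  exact h3 h1.symm

lemma int_id_exp {Y : ℝ} (hY : 0 < Y) :
    ∫ s in Ioi (0 : ℝ), s * Real.exp (-Y * s) = (1 / Y) ^ 2 ∧
      IntegrableOn (fun s : ℝ => s * Real.exp (-Y * s)) (Ioi 0) := by
  have h1 := Real.integral_rpow_mul_exp_neg_mul_Ioi (a := 2) (by norm_num) hY
  have h2 : ∫ s in Ioi (0 : ℝ), s * Real.exp (-Y * s) = (1 / Y) ^ 2 := by
    rw [Real.Gamma_two, mul_one, Real.rpow_two] at h1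
    rw [← h1]
    refine setIntegral_congr_fun measurableSet_Ioi fun s _ => ?_
    show s * Real.exp (-Y * s) = s ^ ((2 : ℝ) - 1) * Real.exp (-(Y * s))
    rw [show (2 : ℝ) - 1 = 1 by norm_num, Real.rpow_one, neg_mul]
  refine ⟨h2, ?_⟩
  by_contra h3
  have h4 : ∫ s in Ioi (0 : ℝ), s * Real.exp (-Y * s) = 0 := integral_undef h3
  rw [h4] at h2
  have : (0 : ℝ) < (1 / Y) ^ 2 := by positivity
  linarith

lemma ED.int {Y B : ℝ} {f : ℝ → ℝ} (hY : 0 < Y) (h : ED Y B f) : Integrable f := by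
  refine ((int_exp_abs hY).const_mul B).mono' h.cont.aestronglyMeasurable ?_
  exact Eventually.of_forall fun x => by rw [Real.norm_eq_abs]; exact h.bd x

/-- the operator -/
def Lo (γ : ℝ) (f : ℝ → ℝ) (x : ℝ) : ℝ := γ * ∫ s in Ioi (0 : ℝ), Real.sin (γ * s) * f (x + s)

lemma Lo_bound {Y B γ : ℝ} {f : ℝ → ℝ} (hY : 0 < Y) (hγ : 0 < γ) (h : ED Y B f) {x : ℝ}
    (hx : 0 ≤ x) : |Lo γ f x| ≤ B * (γ / Y) ^ 2 * Real.exp (-Y * x) := by
  have hB := h.nonneg
  obtain ⟨h1, h2⟩ := int_id_exp hY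
  have h3 : |∫ s in Ioi (0 : ℝ), Real.sin (γ * s) * f (x + s)| ≤
      ∫ s in Ioi (0 : ℝ), (γ * B * Real.exp (-Y * x)) * (s * Real.exp (-Y * s)) := by
    rw [← Real.norm_eq_abs]
    refine norm_integral_le_of_norm_le (h2.const_mul _) ?_
    refine (ae_restrict_mem measurableSet_Ioi).mono fun s hs => ?_
    have hs0 : (0 : ℝ) < s := hs
    rw [Real.norm_eq_abs, abs_mul]
    have h4 : |Real.sin (γ * s)| ≤ γ * s := by
      have h5 : |Real.sin (γ * s)| ≤ |γ * s| := Real.abs_sin_le_abs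
      rwa [abs_of_pos (mul_pos hγ hs0)] at h5
    have h5 := h.bd (x + s)
    rw [abs_of_nonneg (show 0 ≤ x + s by linarith)] at h5
    calc |Real.sin (γ * s)| * |f (x + s)| ≤ (γ * s) * (B * Real.exp (-Y * (x + s))) :=
          mul_le_mul h4 h5 (abs_nonneg _) (by positivity)
      _ = _ := by
          rw [mul_add, Real.exp_add]
          ring
  rw [integral_const_mul, h1] at h3
  unfold Lo
  rw [abs_mul, abs_of_pos hγ]
  calc γ * |∫ s in Ioi (0 : ℝ), Real.sin (γ * s) * f (x + s)| ≤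
      γ * (γ * B * Real.exp (-Y * x) * (1 / Y) ^ 2) := mul_le_mul_of_nonneg_left h3 hγ.le
    _ = _ := by
      rw [div_pow, div_pow]
      ring

lemma Lo_int {Y B γ : ℝ} {f : ℝ → ℝ} (hY : 0 < Y) (h : ED Y B f) (x : ℝ) :
    Integrable (fun s : ℝ => Real.sin (γ * s) * f (x + s)) (volume.restrict (Ioi 0)) := by
  have h1 : Integrable fun s : ℝ => f (x + s) := (h.int hY).comp_add_left x
  refine (h1.norm.mono' (by
    exact ((by fun_prop : Continuous fun s : ℝ => Real.sin (γ * s)).mul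
      (h.cont.comp (by fun_prop))).aestronglyMeasurable) ?_).integrableOn
  refine Eventually.of_forall fun s => ?_
  rw [Real.norm_eq_abs, Real.norm_eq_abs, abs_mul]
  have := Real.abs_sin_le_one (γ * s)
  nlinarith [abs_nonneg (f (x + s))]

lemma Lo_deriv {Y B γ : ℝ} {f f' : ℝ → ℝ} (hY : 0 < Y) (h : ED Y B f) (h' : ED Y B f')
    (hd : ∀ x, HasDerivAt f (f' x) x) (x : ℝ) : HasDerivAt (Lo γ f) (Lo γ f' x) x := by
  have hB := h.nonneg
  have key := hasDerivAt_integral_of_dominated_loc_of_deriv_le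
    (μ := volume.restrict (Ioi (0 : ℝ))) (F := fun (x s : ℝ) => Real.sin (γ * s) * f (x + s))
    (F' := fun (x s : ℝ) => Real.sin (γ * s) * f' (x + s)) (x₀ := x) (s := Metric.ball x 1)
    (bound := fun s => (B * Real.exp (Y * (|x| + 1))) * Real.exp (-Y * s))
    (Metric.ball_mem_nhds x one_pos)
    (Eventually.of_forall fun y => (((by fun_prop : Continuous fun s : ℝ => Real.sin (γ * s)).mul
      (h.cont.comp (by fun_prop))).aestronglyMeasurable))
    (Lo_int hY h x)
    (((by fun_prop : Continuous fun s : ℝ => Real.sin (γ * s)).mul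
      (h'.cont.comp (by fun_prop))).aestronglyMeasurable)
    (by
      refine (ae_restrict_mem measurableSet_Ioi).mono fun s hs y hy => ?_
      have hs0 : (0 : ℝ) < s := hs
      rw [Metric.mem_ball, Real.dist_eq] at hy
      rw [Real.norm_eq_abs, abs_mul]
      have h1 := Real.abs_sin_le_one (γ * s)
      have h2 := h'.bd (y + s)
      have h3 : Real.exp (-Y * |y + s|) ≤ Real.exp (Y * (|x| + 1)) * Real.exp (-Y * s) := by
        rw [← Real.exp_add, Real.exp_le_exp]
        have h4 : s ≤ |y + s| + |y| := by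
          have h5 := le_abs_self (y + s)
          have h6 := neg_abs_le y
          linarith
        have h5 : |y| ≤ |x| + 1 := by
          have h6 : |y| ≤ |y - x| + |x| := by
            have := abs_add_le (y - x) x
            simpa using this
          linarith
        nlinarith
      calc |Real.sin (γ * s)| * |f' (y + s)| ≤ 1 * (B * Real.exp (-Y * |y + s|)) :=
            mul_le_mul h1 h2 (abs_nonneg _) zero_le_one
        _ ≤ B * (Real.exp (Y * (|x| + 1)) * Real.exp (-Y * s)) := by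
            rw [one_mul]
            exact mul_le_mul_of_nonneg_left h3 hB
        _ = _ := by ring)
    ((int_exp_Ioi hY).const_mul _)
    (by
      refine Eventually.of_forall fun s y _ => ?_
      have h1 : HasDerivAt (fun y : ℝ => y + s) 1 y := (hasDerivAt_id y).add_const s
      have h2 := ((hd (y + s)).comp y h1).const_mul (Real.sin (γ * s))
      simpa using h2)
  exact key.2.const_mul γ

theorem smooth_prim {f : ℝ → ℝ} (hf : ContDiff ℝ ∞ f) :
    ContDiff ℝ ∞ (fun u : ℝ => ∫ s in (0 : ℝ)..u, f s) ∧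
      ∀ u, HasDerivAt (fun u : ℝ => ∫ s in (0 : ℝ)..u, f s) (f u) u := by
  have hd : ∀ u, HasDerivAt (fun u : ℝ => ∫ s in (0 : ℝ)..u, f s) (f u) u := fun u =>
    (hf.continuous.integral_hasStrictDerivAt 0 u).hasDerivAt
  refine ⟨contDiff_infty_iff_deriv.2 ⟨fun u => (hd u).differentiableAt, ?_⟩, hd⟩
  have e : deriv (fun u : ℝ => ∫ s in (0 : ℝ)..u, f s) = f := funext fun u => (hd u).deriv
  rw [e]
  exact hf

theorem prim_neg (f : ℝ → ℝ) (u : ℝ) :
    ∫ s in (0 : ℝ)..(-u), f s = -∫ s in (0 : ℝ)..u, f (-s) := by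
  rw [intervalIntegral.integral_comp_neg (fun s => f s), neg_zero,
    intervalIntegral.integral_symm]

lemma shift_Ioi (g : ℝ → ℝ) (x : ℝ) : ∫ s in Ioi (0 : ℝ), g (x + s) = ∫ v in Ioi x, g v := by
  have h := (measurePreserving_add_left (volume : Measure ℝ) x).setIntegral_preimage_emb
    (MeasurableEquiv.addLeft x).measurableEmbedding g (Ioi x)
  rw [← h]
  congr 2
  ext s
  simp

lemma norm_cos_le (w : ℂ) : ‖Complex.cos w‖ ≤ Real.exp |w.im| := by
  have h1 : ‖Complex.exp (w * I)‖ ≤ Real.exp |w.im| := by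
    rw [Complex.norm_exp, Real.exp_le_exp]
    have : (w * I).re = -w.im := by simp
    rw [this]
    exact neg_le_abs _
  have h2 : ‖Complex.exp (-w * I)‖ ≤ Real.exp |w.im| := by
    rw [Complex.norm_exp, Real.exp_le_exp]
    have : (-w * I).re = w.im := by simp
    rw [this]
    exact le_abs_self _
  have h3 : ‖Complex.cos w‖ = ‖Complex.exp (w * I) + Complex.exp (-w * I)‖ / 2 := by
    rw [Complex.cos, norm_div]
    simp
  rw [h3]
  have := norm_add_le (Complex.exp (w * I)) (Complex.exp (-w * I))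
  linarith

lemma norm_sin_le (w : ℂ) : ‖Complex.sin w‖ ≤ Real.exp |w.im| := by
  have h1 : ‖Complex.exp (w * I)‖ ≤ Real.exp |w.im| := by
    rw [Complex.norm_exp, Real.exp_le_exp]
    have : (w * I).re = -w.im := by simp
    rw [this]
    exact neg_le_abs _
  have h2 : ‖Complex.exp (-w * I)‖ ≤ Real.exp |w.im| := by
    rw [Complex.norm_exp, Real.exp_le_exp]
    have : (-w * I).re = w.im := by simp
    rw [this]
    exact le_abs_self _
  have h3 : ‖Complex.sin w‖ = ‖Complex.exp (-w * I) - Complex.exp (w * I)‖ / 2 := by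
    rw [Complex.sin, norm_div, norm_mul]
    simp
  rw [h3]
  have := norm_sub_le (Complex.exp (-w * I)) (Complex.exp (w * I))
  linarith

lemma int_mul {Y B : ℝ} {f : ℝ → ℝ} (h : ED Y B f) {z : ℂ} (hz : |z.im| < Y) {g : ℝ → ℂ}
    (hg : Continuous g) (hb : ∀ x : ℝ, ‖g x‖ ≤ Real.exp |(z * x).im|) :
    Integrable fun x : ℝ => (f x : ℂ) * g x := by
  have hB := h.nonneg
  have h1 := (int_exp_abs (c := Y - |z.im|) (by linarith)).const_mul B
  refine h1.mono' ((Complex.continuous_ofReal.comp h.cont).mul hg).aestronglyMeasurable ?_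
  refine Eventually.of_forall fun x => ?_
  rw [norm_mul, Complex.norm_real, Real.norm_eq_abs]
  have h2 := hb x
  have h3 : (z * x).im = z.im * x := by simp
  rw [h3, abs_mul] at h2
  calc |f x| * ‖g x‖ ≤ (B * Real.exp (-Y * |x|)) * Real.exp (|z.im| * |x|) :=
        mul_le_mul (h.bd x) h2 (norm_nonneg _) (by positivity)
    _ = _ := by
        rw [mul_assoc, ← Real.exp_add]
        congr 2
        ring

theorem main : S_DIV := by
  intro Y B γ ψ hγ hγY hψ h0
  have hY : 0 < Y := lt_of_lt_of_le hγ hγY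
  have hs1 : ContDiff ℝ ∞ (deriv ψ) := (contDiff_infty_iff_deriv.1 hψ.smooth).2
  have hs2 : ContDiff ℝ ∞ (deriv (deriv ψ)) := (contDiff_infty_iff_deriv.1 hs1).2
  have e0 : ED Y B ψ := ⟨hψ.smooth.continuous, hψ.b0⟩
  have e1 : ED Y B (deriv ψ) := ⟨hs1.continuous, hψ.b1⟩
  have e2 : ED Y B (deriv (deriv ψ)) := ⟨hs2.continuous, hψ.b2⟩
  have d0 : ∀ x, HasDerivAt ψ (deriv ψ x) x := fun x =>
    ((hψ.smooth.differentiable (by simp)) x).hasDerivAt
  have d1 : ∀ x, HasDerivAt (deriv ψ) (deriv (deriv ψ) x) x := fun x =>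
    ((hs1.differentiable (by simp)) x).hasDerivAt
  obtain ⟨gs, hgs⟩ : ∃ gs : ℝ → ℝ, gs = fun v => Real.sin (γ * v) * ψ v := ⟨_, rfl⟩
  obtain ⟨gc, hgc⟩ : ∃ gc : ℝ → ℝ, gc = fun v => Real.cos (γ * v) * ψ v := ⟨_, rfl⟩
  have hlin : ContDiff ℝ ∞ fun v : ℝ => γ * v := contDiff_const.mul contDiff_id
  have csin : ContDiff ℝ ∞ fun v : ℝ => Real.sin (γ * v) := Real.contDiff_sin.comp hlin
  have ccos : ContDiff ℝ ∞ fun v : ℝ => Real.cos (γ * v) := Real.contDiff_cos.comp hlin
  have sgs : ContDiff ℝ ∞ gs := by rw [hgs]; exact csin.mul hψ.smooth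
  have sgc : ContDiff ℝ ∞ gc := by rw [hgc]; exact ccos.mul hψ.smooth
  have igs : Integrable gs := by
    refine (e0.int hY).norm.mono' sgs.continuous.aestronglyMeasurable
      (Eventually.of_forall fun v => ?_)
    rw [hgs, Real.norm_eq_abs, Real.norm_eq_abs, abs_mul]
    have := Real.abs_sin_le_one (γ * v)
    nlinarith [abs_nonneg (ψ v)]
  have igc : Integrable gc := by
    refine (e0.int hY).norm.mono' sgc.continuous.aestronglyMeasurable
      (Eventually.of_forall fun v => ?_)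
    rw [hgc, Real.norm_eq_abs, Real.norm_eq_abs, abs_mul]
    have := Real.abs_cos_le_one (γ * v)
    nlinarith [abs_nonneg (ψ v)]
  obtain ⟨Ps, hPs⟩ : ∃ Ps : ℝ → ℝ, Ps = fun u => ∫ s in (0 : ℝ)..u, gs s := ⟨_, rfl⟩
  obtain ⟨Pc, hPc⟩ : ∃ Pc : ℝ → ℝ, Pc = fun u => ∫ s in (0 : ℝ)..u, gc s := ⟨_, rfl⟩
  obtain ⟨sPs, dPs⟩ := smooth_prim sgs
  obtain ⟨sPc, dPc⟩ := smooth_prim sgc
  rw [← hPs] at sPs dPs
  rw [← hPc] at sPc dPc
  obtain ⟨S0, hS0⟩ : ∃ S0 : ℝ, S0 = ∫ s in Ioi (0 : ℝ), gs s := ⟨_, rfl⟩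
  have hC0 : ∫ s in Ioi (0 : ℝ), gc s = 0 := by
    have h1 := integral_comp_abs (f := gc)
    have h2 : (fun x : ℝ => gc |x|) = fun x => ψ x * Real.cos (γ * x) := by
      funext x
      rw [hgc]
      rcases abs_choice x with h | h
      · rw [h, mul_comm]
      · rw [h]
        show Real.cos (γ * -x) * ψ (-x) = _
        rw [hψ.even, mul_neg, Real.cos_neg, mul_comm]
    rw [h2, h0] at h1
    linarith
  have tS : ∀ u, ∫ v in Ioi u, gs v = S0 - Ps u := by
    intro u
    have h1 := intervalIntegral.integral_interval_add_Ioi (a := 0) (b := u) (f := gs)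
      (μ := volume) igs.integrableOn igs.integrableOn
    rw [hS0, hPs, ← h1]
    simp
  have tC : ∀ u, ∫ v in Ioi u, gc v = -Pc u := by
    intro u
    have h1 := intervalIntegral.integral_interval_add_Ioi (a := 0) (b := u) (f := gc)
      (μ := volume) igc.integrableOn igc.integrableOn
    rw [hC0] at h1
    rw [hPc]
    linarith
  have evPs : ∀ u, Ps (-u) = Ps u := by
    intro u
    rw [hPs]
    show ∫ s in (0 : ℝ)..(-u), gs s = ∫ s in (0 : ℝ)..u, gs s
    rw [prim_neg, ← intervalIntegral.integral_neg]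
    congr 1
    funext s
    rw [hgs]
    show -(Real.sin (γ * -s) * ψ (-s)) = Real.sin (γ * s) * ψ s
    rw [hψ.even, mul_neg, Real.sin_neg]
    ring
  have odPc : ∀ u, Pc (-u) = -Pc u := by
    intro u
    rw [hPc]
    show ∫ s in (0 : ℝ)..(-u), gc s = -∫ s in (0 : ℝ)..u, gc s
    rw [prim_neg]
    congr 2
    funext s
    rw [hgc]
    show Real.cos (γ * -s) * ψ (-s) = Real.cos (γ * s) * ψ s
    rw [hψ.even, mul_neg, Real.cos_neg]
  obtain ⟨φ, hφ⟩ : ∃ φ : ℝ → ℝ, φ = fun u => γ * (Real.cos (γ * u) * (S0 - Ps u) +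
    Real.sin (γ * u) * Pc u) := ⟨_, rfl⟩
  obtain ⟨φ1, hφ1⟩ : ∃ φ1 : ℝ → ℝ, φ1 = fun u => -γ ^ 2 * (Real.sin (γ * u) * (S0 - Ps u) -
    Real.cos (γ * u) * Pc u) := ⟨_, rfl⟩
  have dlin : ∀ u : ℝ, HasDerivAt (fun u : ℝ => γ * u) γ u := fun u => by
    simpa using (hasDerivAt_id u).const_mul γ
  have dsin : ∀ u : ℝ, HasDerivAt (fun u : ℝ => Real.sin (γ * u)) (Real.cos (γ * u) * γ) u :=
    fun u => (dlin u).sin
  have dcos : ∀ u : ℝ, HasDerivAt (fun u : ℝ => Real.cos (γ * u)) (-Real.sin (γ * u) * γ) u :=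
    fun u => (dlin u).cos
  have hd0 : ∀ u, HasDerivAt φ (φ1 u) u := by
    intro u
    rw [hφ, hφ1]
    have h1 := (((dcos u).mul ((dPs u).const_sub S0)).add ((dsin u).mul (dPc u))).const_mul γ
    refine h1.congr_deriv ?_
    rw [hgs, hgc]
    ring
  have hd1 : ∀ u, HasDerivAt φ1 (γ ^ 2 * (ψ u - φ u)) u := by
    intro u
    rw [hφ, hφ1]
    have h1 := (((dsin u).mul ((dPs u).const_sub S0)).sub ((dcos u).mul (dPc u))).const_mul
      (-γ ^ 2)
    refine h1.congr_deriv ?_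
    rw [hgs, hgc]
    have h2 := Real.sin_sq_add_cos_sq (γ * u)
    linear_combination (γ ^ 2 * ψ u) * h2
  have hLo : Lo γ ψ = φ := by
    funext x
    have h1 : ∀ s : ℝ, Real.sin (γ * s) * ψ (x + s) =
        Real.cos (γ * x) * gs (x + s) - Real.sin (γ * x) * gc (x + s) := by
      intro s
      rw [hgs, hgc]
      show _ = Real.cos (γ * x) * (Real.sin (γ * (x + s)) * ψ (x + s)) -
        Real.sin (γ * x) * (Real.cos (γ * (x + s)) * ψ (x + s))
      have h2 : γ * s = γ * (x + s) - γ * x := by ring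
      rw [h2, Real.sin_sub]
      ring
    unfold Lo
    simp only [h1]
    rw [integral_sub ((igs.comp_add_left x).integrableOn.const_mul _)
      ((igc.comp_add_left x).integrableOn.const_mul _), integral_const_mul, integral_const_mul,
      shift_Ioi, shift_Ioi, tS, tC, hφ]
    ring
  have hder1 : deriv φ = φ1 := funext fun u => (hd0 u).deriv
  have hder2 : deriv (deriv φ) = fun u => γ ^ 2 * (ψ u - φ u) := by
    rw [hder1]
    exact funext fun u => (hd1 u).deriv
  have hL1 : deriv φ = Lo γ (deriv ψ) := by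
    rw [← hLo]
    exact funext fun u => (Lo_deriv hY e0 e1 d0 u).deriv
  have hL2 : deriv (deriv φ) = Lo γ (deriv (deriv ψ)) := by
    rw [hL1]
    exact funext fun u => (Lo_deriv hY e1 e2 d1 u).deriv
  have φsm : ContDiff ℝ ∞ φ := by
    rw [hφ]
    exact contDiff_const.mul ((ccos.mul (contDiff_const.sub sPs)).add (csin.mul sPc))
  have φev : ∀ u, φ (-u) = φ u := by
    intro u
    rw [hφ]
    show γ * (Real.cos (γ * -u) * (S0 - Ps (-u)) + Real.sin (γ * -u) * Pc (-u)) = _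
    rw [evPs, odPc, mul_neg, Real.cos_neg, Real.sin_neg]
    ring
  have φ1od : ∀ u, φ1 (-u) = -φ1 u := by
    intro u
    rw [hφ1]
    show -γ ^ 2 * (Real.sin (γ * -u) * (S0 - Ps (-u)) - Real.cos (γ * -u) * Pc (-u)) = _
    rw [evPs, odPc, mul_neg, Real.cos_neg, Real.sin_neg]
    ring
  have bb : ∀ f : ℝ → ℝ, (∀ x, |f (-x)| = |f x|) →
      (∀ x, 0 ≤ x → |f x| ≤ B * (γ / Y) ^ 2 * Real.exp (-Y * x)) →
      ∀ x, |f x| ≤ B * (γ / Y) ^ 2 * Real.exp (-Y * |x|) := by
    intro f hf h x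
    rcases le_total 0 x with hx | hx
    · rw [abs_of_nonneg hx]
      exact h x hx
    · rw [abs_of_nonpos hx, ← hf]
      exact h (-x) (by linarith)
  have hEB : EB Y (B * (γ / Y) ^ 2) φ := by
    refine ⟨φsm, φev, ?_, ?_, ?_⟩
    · refine bb φ (fun x => by rw [φev]) fun x hx => ?_
      rw [← hLo]
      exact Lo_bound hY hγ e0 hx
    · refine bb (deriv φ) (fun x => by rw [hder1, φ1od, abs_neg]) fun x hx => ?_
      rw [hL1]
      exact Lo_bound hY hγ e1 hx
    · refine bb (deriv (deriv φ)) (fun x => by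
        rw [hder2]
        show |γ ^ 2 * (ψ (-x) - φ (-x))| = |γ ^ 2 * (ψ x - φ x)|
        rw [φev, hψ.even]) fun x hx => ?_
      rw [hL2]
      exact Lo_bound hY hγ e2 hx
  refine ⟨φ, hEB, fun z hz => ?_⟩
  -- the transform
  have E0 : ED Y (B * (γ / Y) ^ 2) φ := ⟨φsm.continuous, hEB.b0⟩
  have E1 : ED Y (B * (γ / Y) ^ 2) φ1 := by
    rw [← hder1]
    exact ⟨(contDiff_infty_iff_deriv.1 φsm).2.continuous, hEB.b1⟩
  have zlin : ∀ (w : ℂ), HasDerivAt (fun u : ℂ => z * u) z w := by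
    intro w
    simpa using (hasDerivAt_id w).const_mul z
  have zsin : ∀ u : ℝ, HasDerivAt (fun u : ℝ => Complex.sin (z * u))
      (Complex.cos (z * u) * z) u := fun u => (zlin u).csin.comp_ofReal
  have zcos : ∀ u : ℝ, HasDerivAt (fun u : ℝ => Complex.cos (z * u))
      (-Complex.sin (z * u) * z) u := fun u => (zlin u).ccos.comp_ofReal
  have hF : ∀ u : ℝ, HasDerivAt (fun u : ℝ => (φ1 u : ℂ) * Complex.cos (z * u) +
      z * ((φ u : ℂ) * Complex.sin (z * u)))
      ((γ : ℂ) ^ 2 * ((ψ u : ℂ) * Complex.cos (z * u)) +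
        (z ^ 2 - (γ : ℂ) ^ 2) * ((φ u : ℂ) * Complex.cos (z * u))) u := by
    intro u
    have h1 := ((hd1 u).ofReal_comp.mul (zcos u)).add
      (((hd0 u).ofReal_comp.mul (zsin u)).const_mul z)
    refine h1.congr_deriv ?_
    push_cast
    ring
  have cz : Continuous fun u : ℝ => Complex.cos (z * u) := by fun_prop
  have sz : Continuous fun u : ℝ => Complex.sin (z * u) := by fun_prop
  have i1 := int_mul e0 hz cz (fun x => norm_cos_le _)
  have i2 := int_mul E0 hz cz (fun x => norm_cos_le _)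
  have i3 := int_mul E1 hz cz (fun x => norm_cos_le _)
  have i4 := int_mul E0 hz sz (fun x => norm_sin_le _)
  have h5 := integral_eq_zero_of_hasDerivAt_of_integrable hF
    ((i1.const_mul _).add (i2.const_mul _)) (i3.add (i4.const_mul z))
  rw [integral_add (i1.const_mul _) (i2.const_mul _), integral_const_mul,
    integral_const_mul] at h5
  have hγ0 : (γ : ℂ) ^ 2 ≠ 0 := pow_ne_zero 2 (by exact_mod_cast hγ.ne')
  have h6 : (γ : ℂ) ^ 2 * ∫ x : ℝ, (ψ x : ℂ) * Complex.cos (z * x) =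
      (γ : ℂ) ^ 2 * ((1 - z ^ 2 / (γ : ℂ) ^ 2) * ∫ x : ℝ, (φ x : ℂ) * Complex.cos (z * x)) := by
    have h7 : (γ : ℂ) ^ 2 * ((1 - z ^ 2 / (γ : ℂ) ^ 2) *
        ∫ x : ℝ, (φ x : ℂ) * Complex.cos (z * x)) =
        ((γ : ℂ) ^ 2 - z ^ 2) * ∫ x : ℝ, (φ x : ℂ) * Complex.cos (z * x) := by
      have h8 : (γ : ℂ) ^ 2 * (1 - z ^ 2 / (γ : ℂ) ^ 2) = (γ : ℂ) ^ 2 - z ^ 2 := by
        rw [mul_sub, mul_one, mul_div_cancel₀ _ hγ0]
      rw [← mul_assoc, h8]
    rw [h7]
    linear_combination h5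
  exact mul_left_cancel₀ hγ0 h6

theorem t_DIV : S_DIV := main

end

end Pool.Agent.H478.WM.DIV
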