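import Pool.Agent.H478.WM.Stm3

/-!
# Project WM, part 3: a lower bound for the energies bounds the number of multiple zeros
-/

open Complex MeasureTheory Filter Topology Set

namespace Pool.Agent.H478.WM.DT

/-- the sum over the zeros up to a bounded height -/
lemma low (h2 : S_WTS) (T₀ : ℝ) (F : Finset ℝ) (hF : ∀ t ∈ F, t ∈ Ord ∧ t ≤ T₀) :
    ((∑ t ∈ F, (mz (1 / 2 + t * I) - 1) : ℕ) : ℝ) ≤
      T₀ ^ 2 * ∑' ρ : NTZ, (mz ρ : ℝ) / ‖(ρ : ℂ) - 1 / 2‖ ^ 2 := by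
  classical
  have hmem : ∀ t : ℝ, t ∈ Ord → (1 / 2 + t * I : ℂ) ∈ NTZ := by
    intro t ht
    refine ⟨ht.2, ?_, ?_⟩
    · simp
    · simp
      norm_num
  have hnorm : ∀ t : ℝ, 0 < t → ‖(1 / 2 + t * I : ℂ) - 1 / 2‖ = t := by
    intro t ht
    rw [add_sub_cancel_left, norm_mul, Complex.norm_I, mul_one, Complex.norm_real,
      Real.norm_eq_abs, abs_of_pos ht]
  obtain ⟨e, he⟩ : ∃ e : {t // t ∈ F} → NTZ, ∀ t, (e t : ℂ) = 1 / 2 + ((t : ℝ) : ℂ) * I :=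
    ⟨fun t => ⟨1 / 2 + ((t : ℝ) : ℂ) * I, hmem t (hF t t.2).1⟩, fun _ => rfl⟩
  have hinj : Function.Injective e := by
    intro s t hst
    have h1 := congrArg (fun ρ : NTZ => (ρ : ℂ).im) hst
    simp only [he] at h1
    simp at h1
    exact h1
  have h3 : ∑ ρ ∈ F.attach.image e, (mz ρ : ℝ) / ‖(ρ : ℂ) - 1 / 2‖ ^ 2 ≤
      ∑' ρ : NTZ, (mz ρ : ℝ) / ‖(ρ : ℂ) - 1 / 2‖ ^ 2 :=
    h2.1.sum_le_tsum _ (fun ρ _ => by positivity)
  rw [Finset.sum_image (fun a _ b _ h => hinj h)] at h3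
  refine le_trans ?_ (mul_le_mul_of_nonneg_left h3 (sq_nonneg T₀))
  rw [Finset.mul_sum, Nat.cast_sum, ← Finset.sum_attach F]
  refine Finset.sum_le_sum fun t _ => ?_
  have ht := hF t t.2
  have ht0 : 0 < (t : ℝ) := ht.1.1
  rw [he, hnorm _ ht0]
  have h4 : ((mz (1 / 2 + ((t : ℝ) : ℂ) * I) - 1 : ℕ) : ℝ) ≤
      (mz (1 / 2 + ((t : ℝ) : ℂ) * I) : ℝ) := by
    exact_mod_cast Nat.sub_le _ _
  refine h4.trans ?_
  have h5 : 1 ≤ T₀ ^ 2 / (t : ℝ) ^ 2 := by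
    rw [one_le_div (by positivity)]
    exact pow_le_pow_left₀ ht0.le ht.2 2
  have h6 : T₀ ^ 2 * ((mz (1 / 2 + ((t : ℝ) : ℂ) * I) : ℝ) / (t : ℝ) ^ 2) =
      (T₀ ^ 2 / (t : ℝ) ^ 2) * (mz (1 / 2 + ((t : ℝ) : ℂ) * I) : ℝ) := by ring
  rw [h6]
  exact le_mul_of_one_le_left (Nat.cast_nonneg _) h5

theorem t_DT (h1 : S_QD) (h2 : S_WTS) : S_DT := by
  intro RH q C hq hlow
  obtain ⟨a₀, ha₀, hQ⟩ := h1 RH 1 one_pos
  obtain ⟨a₂, ha₂⟩ := eventually_atTop.1 hlow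
  obtain ⟨a₁, ha₁⟩ : ∃ a₁, a₁ = max a₀ a₂ := ⟨_, rfl⟩
  obtain ⟨T₀, hT₀⟩ : ∃ T₀, T₀ = Real.pi * Real.exp (2 * a₁) := ⟨_, rfl⟩
  obtain ⟨S, hS⟩ : ∃ S, S = ∑' ρ : NTZ, (mz ρ : ℝ) / ‖(ρ : ℂ) - 1 / 2‖ ^ 2 := ⟨_, rfl⟩
  have hS0 : 0 ≤ S := by
    rw [hS]
    exact tsum_nonneg fun ρ => by positivity
  have hlog2 : 0 < Real.log 2 := Real.log_pos (by norm_num)
  have hpi := Real.pi_pos
  refine ⟨|C| / (4 * Real.pi * Real.log 2) + T₀ ^ 2 * S, fun T hT F hF => ?_⟩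
  have hc1 : 0 ≤ |C| / (4 * Real.pi * Real.log 2) := by positivity
  have hc2 : 0 ≤ T₀ ^ 2 * S := by positivity
  have hT0 : 0 < T := by linarith
  rcases le_total T T₀ with h | h
  · have h3 := low h2 T₀ F (fun t ht => ⟨(hF t ht).1, (hF t ht).2.trans h⟩)
    rw [← hS] at h3
    have h4 : T₀ ^ 2 * S ≤ T₀ ^ 2 * S * T := le_mul_of_one_le_right hc2 hT
    have h5 : 0 ≤ |C| / (4 * Real.pi * Real.log 2) * T := mul_nonneg hc1 hT0.le
    rw [add_mul]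
    linarith
  · obtain ⟨a, ha⟩ : ∃ a, a = Real.log (T / Real.pi) / 2 := ⟨_, rfl⟩
    have hTp : 0 < T / Real.pi := by positivity
    have hea : Real.exp (2 * a) = T / Real.pi := by
      rw [ha, mul_div_cancel₀ _ (two_ne_zero), Real.exp_log hTp]
    have haa : a₁ ≤ a := by
      have h3 : Real.exp (2 * a₁) ≤ Real.exp (2 * a) := by
        rw [hea, le_div_iff₀ hpi, mul_comm, ← hT₀]
        exact h
      have := Real.exp_le_exp.1 h3
      linarith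
    have ha0 : a₀ ≤ a := (le_max_left a₀ a₂).trans (ha₁ ▸ haa)
    have ha2 : a₂ ≤ a := (le_max_right a₀ a₂).trans (ha₁ ▸ haa)
    have hden : 2 * Real.pi * Real.exp (2 * a) = 2 * T := by
      rw [hea]
      field_simp
    obtain ⟨k, hk, hW⟩ := hQ a ha0 F (fun t ht => ⟨(hF t ht).1, by
      rw [hden]
      linarith [(hF t ht).2]⟩)
    have h3 := (ha₂ a ha2).trans ((hq a k (ha₀.trans_le ha0) hk).trans hW)
    rw [hden] at h3
    have h4 : Real.exp (-(2 * Real.pi - 1) * Real.exp (2 * a)) ≤ 1 := by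
      rw [Real.exp_le_one_iff]
      have := Real.exp_pos (2 * a)
      have := Real.pi_gt_three
      nlinarith
    obtain ⟨N, hN⟩ : ∃ N : ℕ, N = ∑ t ∈ F, (mz (1 / 2 + t * I) - 1) := ⟨_, rfl⟩
    have h5 : ∏ t ∈ F, (t / (2 * T)) ^ (4 * (mz (1 / 2 + t * I) - 1)) ≤ (1 / 2 : ℝ) ^ (4 * N) := by
      rw [hN, Finset.mul_sum, ← Finset.prod_pow_eq_pow_sum]
      refine Finset.prod_le_prod (fun t ht => ?_) (fun t ht => ?_)
      · have := (hF t ht).1.1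
        positivity
      · have ht0 : 0 < t := (hF t ht).1.1
        refine pow_le_pow_left₀ (by positivity) ?_ _
        rw [div_le_iff₀ (by positivity)]
        linarith [(hF t ht).2]
    have h6 : 0 ≤ ∏ t ∈ F, (t / (2 * T)) ^ (4 * (mz (1 / 2 + t * I) - 1)) :=
      Finset.prod_nonneg fun t ht => by
        have := (hF t ht).1.1
        positivity
    have h7 : Real.exp (-C * Real.exp (2 * a)) ≤ (1 / 2 : ℝ) ^ (4 * N) :=
      h3.trans ((mul_le_of_le_one_left h6 h4).trans h5)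
    have h8 := Real.log_le_log (Real.exp_pos _) h7
    rw [Real.log_exp, Real.log_pow, one_div, Real.log_inv, hea] at h8
    push_cast at h8
    rw [← hN]
    have h9 : (N : ℝ) * (4 * Real.pi * Real.log 2) ≤ C * T := by
      have h10 : 4 * (N : ℝ) * Real.log 2 ≤ C * (T / Real.pi) := by linarith
      have h11 := mul_le_mul_of_nonneg_right h10 hpi.le
      have h12 : C * (T / Real.pi) * Real.pi = C * T := by field_simp
      rw [h12] at h11
      linarith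
    have h13 : (N : ℝ) ≤ |C| / (4 * Real.pi * Real.log 2) * T := by
      rw [div_mul_eq_mul_div, le_div_iff₀ (by positivity)]
      exact h9.trans (mul_le_mul_of_nonneg_right (le_abs_self C) hT0.le)
    have h14 : 0 ≤ T₀ ^ 2 * S * T := mul_nonneg hc2 hT0.le
    rw [add_mul]
    linarith

end Pool.Agent.H478.WM.DT
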