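import Pool.Agent.H478.WM.Stm3

/-!
# Project WM, DVL: division by all excess zeros (helper401)
-/

open Complex MeasureTheory Filter Topology Set
open scoped ContDiff

namespace Pool.Agent.H478.WM.DVL

open Pool.Agent.H478.WM

noncomputable section

theorem xi_an (z : ℂ) : AnalyticAt ℂ Xi z := by
  have h : Differentiable ℂ Xi := by
    have e : Xi = fun z => ((1 / 2 + I * z) * ((1 / 2 + I * z) - 1) *
      completedRiemannZeta₀ (1 / 2 + I * z) + 1) / 2 := rfl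
    rw [e]
    have h1 : Differentiable ℂ (fun z : ℂ => 1 / 2 + I * z) := by fun_prop
    have h2 : Differentiable ℂ (fun z : ℂ => completedRiemannZeta₀ (1 / 2 + I * z)) :=
      differentiable_completedZeta₀.comp h1
    exact (((h1.mul (h1.sub_const 1)).mul h2).add_const 1).div_const 2
  exact h.analyticAt z

theorem exp_int (c : ℝ) (hc : 0 < c) : Integrable (fun t : ℝ => Real.exp (-c * |t|)) := by
  have h1 : IntegrableOn (fun t : ℝ => Real.exp (-c * |t|)) (Iic 0) := by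
    refine (integrableOn_exp_mul_Iic hc 0).congr_fun (fun t ht => ?_) measurableSet_Iic
    have ht' : t ≤ 0 := ht
    show Real.exp (c * t) = Real.exp (-c * |t|)
    rw [abs_of_nonpos ht']
    congr 1
    ring
  have h2 : IntegrableOn (fun t : ℝ => Real.exp (-c * |t|)) (Ioi 0) := by
    refine (integrableOn_exp_mul_Ioi (neg_lt_zero.mpr hc) 0).congr_fun (fun t ht => ?_)
      measurableSet_Ioi
    have ht' : 0 < t := ht
    show Real.exp (-c * t) = Real.exp (-c * |t|)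
    rw [abs_of_pos ht']
  have := h1.union h2
  rwa [Iic_union_Ioi, integrableOn_univ] at this

theorem psi_int {Y B : ℝ} {ψ : ℝ → ℝ} (hY : 0 < Y) (h : EB Y B ψ) : Integrable ψ := by
  refine ((exp_int Y hY).const_mul B).mono' h.smooth.continuous.aestronglyMeasurable
    (ae_of_all _ fun x => ?_)
  rw [Real.norm_eq_abs]
  exact h.b0 x

theorem psi_cont {Y B : ℝ} {ψ : ℝ → ℝ} (hY : 0 < Y) (h : EB Y B ψ) :
    Continuous (fun t : ℝ => ∫ x : ℝ, ψ x * Real.cos (t * x)) := by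
  refine continuous_of_dominated (F := fun t x => ψ x * Real.cos (t * x))
    (bound := fun x => |ψ x|) ?_ ?_ ?_ ?_
  · intro t
    have hc : Continuous (fun x : ℝ => Real.cos (t * x)) := by fun_prop
    exact (h.smooth.continuous.mul hc).aestronglyMeasurable
  · intro t
    refine ae_of_all _ fun x => ?_
    rw [norm_mul, Real.norm_eq_abs, Real.norm_eq_abs]
    exact mul_le_of_le_one_right (abs_nonneg _) (Real.abs_cos_le_one _)
  · exact (psi_int hY h).abs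
  · refine ae_of_all _ fun x => ?_
    fun_prop

theorem psi_cast (ψ : ℝ → ℝ) (t : ℝ) : ∫ x : ℝ, (ψ x : ℂ) * Complex.cos ((t : ℂ) * x) =
    ((∫ x : ℝ, ψ x * Real.cos (t * x) : ℝ) : ℂ) := by
  rw [← integral_complex_ofReal]
  refine integral_congr_ae (ae_of_all _ fun x => ?_)
  show (ψ x : ℂ) * Complex.cos ((t : ℂ) * x) = ((ψ x * Real.cos (t * x) : ℝ) : ℂ)
  push_cast
  rfl

theorem fac (F : Finset ℝ) (hF : ∀ t ∈ F, 0 < t) (e : ℝ → ℕ) (t₀ : ℝ) (h0 : 0 < t₀) :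
    ∃ (M : ℕ) (G : ℂ → ℂ), (t₀ ∈ F → M = e t₀) ∧ (t₀ ∉ F → M = 0) ∧ Continuous G ∧
      G (t₀ : ℂ) ≠ 0 ∧ ∀ z : ℂ, ∏ t ∈ F, (1 - z ^ 2 / (t : ℂ) ^ 2) ^ (e t) =
        (z - (t₀ : ℂ)) ^ M * G z := by
  classical
  have hne : ∀ t ∈ F, t ≠ t₀ → (1 : ℂ) - (t₀ : ℂ) ^ 2 / (t : ℂ) ^ 2 ≠ 0 := by
    intro t ht htt h
    have ht0 := hF t ht
    have h2 : (1 : ℝ) - t₀ ^ 2 / t ^ 2 = 0 := by exact_mod_cast h
    have h3 : t₀ ^ 2 / t ^ 2 = 1 := by linarith
    rw [div_eq_one_iff_eq (pow_pos ht0 2).ne'] at h3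
    exact htt ((pow_left_inj₀ ht0.le h0.le (by norm_num)).1 h3.symm)
  have hcont : ∀ F' : Finset ℝ,
      Continuous (fun z : ℂ => ∏ t ∈ F', (1 - z ^ 2 / (t : ℂ) ^ 2) ^ (e t)) := fun F' =>
    continuous_finset_prod _ fun t _ => by fun_prop
  by_cases ht : t₀ ∈ F
  · refine ⟨e t₀, fun z => (-(z + t₀) / (t₀ : ℂ) ^ 2) ^ (e t₀) *
      ∏ t ∈ F.erase t₀, (1 - z ^ 2 / (t : ℂ) ^ 2) ^ (e t), fun _ => rfl,
      fun h => absurd ht h, ?_, ?_, ?_⟩
    · refine Continuous.mul ?_ (hcont _)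
      fun_prop
    · have ht0c : (t₀ : ℂ) ≠ 0 := by exact_mod_cast h0.ne'
      refine mul_ne_zero (pow_ne_zero _ ?_) (Finset.prod_ne_zero_iff.2 fun t ht' => ?_)
      · refine div_ne_zero (neg_ne_zero.2 ?_) (pow_ne_zero _ ht0c)
        have h3 : (t₀ : ℂ) + t₀ = 2 * t₀ := by ring
        rw [h3]
        exact mul_ne_zero two_ne_zero ht0c
      · exact pow_ne_zero _ (hne t (Finset.mem_of_mem_erase ht') (Finset.ne_of_mem_erase ht'))
    · intro z
      have ht0c : (t₀ : ℂ) ≠ 0 := by exact_mod_cast h0.ne'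
      rw [← Finset.mul_prod_erase F _ ht, ← mul_assoc, ← mul_pow]
      congr 2
      field_simp
      ring
  · refine ⟨0, _, fun h => absurd h ht, fun _ => rfl, hcont F, ?_, fun z => ?_⟩
    · refine Finset.prod_ne_zero_iff.2 fun t ht' => pow_ne_zero _ (hne t ht' ?_)
      rintro rfl
      exact ht ht'
    · rw [pow_zero, one_mul]

theorem vanish (h2 : S_ORD) {Y B : ℝ} {ψ : ℝ → ℝ} (hY : 0 < Y) (hE : EB Y B ψ) (F : Finset ℝ)
    (e : ℝ → ℕ) (hid : ∀ z : ℂ, |z.im| < Y → Xi z =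
      (∏ t ∈ F, (1 - z ^ 2 / (t : ℂ) ^ 2) ^ (e t)) * ∫ x : ℝ, (ψ x : ℂ) * Complex.cos (z * x))
    (hF : ∀ t ∈ F, 0 < t) (t₀ : ℝ) (ht₀ : t₀ ∈ Ord)
    (hlt : t₀ ∈ F → e t₀ < mz (1 / 2 + t₀ * I)) : ∫ x : ℝ, ψ x * Real.cos (t₀ * x) = 0 := by
  obtain ⟨ho1, ho2, ho3⟩ := h2 t₀ ht₀
  obtain ⟨g, hg1, hg2, hg3⟩ := ((xi_an (t₀ : ℂ)).analyticOrderNatAt_eq_iff ho1).1 ho2
  obtain ⟨M, G, hM1, hM2, hG1, hG2, hG3⟩ := fac F hF e t₀ ht₀.1
  obtain ⟨n, hn⟩ : ∃ n : ℕ, n = mz (1 / 2 + t₀ * I) := ⟨_, rfl⟩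
  rw [← hn] at hg3 ho3 hlt
  have hMn : M < n := by
    by_cases h : t₀ ∈ F
    · rw [hM1 h]
      exact hlt h
    · rw [hM2 h]
      omega
  obtain ⟨k, hk⟩ := Nat.exists_eq_add_of_lt hMn
  have hev : ∀ᶠ s : ℝ in 𝓝[≠] t₀, ((s : ℂ) - t₀) ^ (k + 1) * g s =
      G s * ((∫ x : ℝ, ψ x * Real.cos (s * x) : ℝ) : ℂ) := by
    have h3 : ∀ᶠ s : ℝ in 𝓝[≠] t₀, Xi (s : ℂ) = ((s : ℂ) - t₀) ^ n • g s :=
      ((Complex.continuous_ofReal.tendsto t₀).eventually hg3).filter_mono nhdsWithin_le_nhds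
    filter_upwards [h3, self_mem_nhdsWithin] with s hs hs'
    have hsne : (s : ℂ) - t₀ ≠ 0 := by
      rw [sub_ne_zero]
      exact fun h => hs' (Complex.ofReal_injective h)
    have h4 := hid s (by rw [Complex.ofReal_im, abs_zero]; exact hY)
    rw [hG3, psi_cast, hs, smul_eq_mul, hk, add_assoc, pow_add, mul_assoc, mul_assoc] at h4
    exact mul_left_cancel₀ (pow_ne_zero M hsne) h4
  have l1 : Tendsto (fun s : ℝ => ((s : ℂ) - t₀) ^ (k + 1) * g s) (𝓝[≠] t₀) (𝓝 0) := by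
    have h5 : ContinuousAt (fun s : ℝ => ((s : ℂ) - t₀) ^ (k + 1) * g s) t₀ := by
      refine ContinuousAt.mul ?_ ?_
      · have : Continuous (fun s : ℝ => ((s : ℂ) - t₀) ^ (k + 1)) := by fun_prop
        exact this.continuousAt
      · exact hg1.continuousAt.comp Complex.continuous_ofReal.continuousAt
    have h6 := h5.tendsto.mono_left (nhdsWithin_le_nhds (s := {t₀}ᶜ))
    rwa [sub_self, zero_pow (Nat.succ_ne_zero k), zero_mul] at h6
  have l2 : Tendsto (fun s : ℝ => G s * ((∫ x : ℝ, ψ x * Real.cos (s * x) : ℝ) : ℂ)) (𝓝[≠] t₀)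
      (𝓝 (G t₀ * ((∫ x : ℝ, ψ x * Real.cos (t₀ * x) : ℝ) : ℂ))) := by
    have h5 : Continuous (fun s : ℝ => G s * ((∫ x : ℝ, ψ x * Real.cos (s * x) : ℝ) : ℂ)) :=
      (hG1.comp Complex.continuous_ofReal).mul (Complex.continuous_ofReal.comp (psi_cont hY hE))
    exact (h5.tendsto t₀).mono_left nhdsWithin_le_nhds
  have h7 := tendsto_nhds_unique (l1.congr' hev) l2
  have h8 := (mul_eq_zero.1 h7.symm).resolve_left hG2
  exact_mod_cast h8

theorem prod_upd {M : Type} [CommMonoid M] (F : Finset ℝ) (f : ℝ → ℕ → M) (e : ℝ → ℕ) (t₀ : ℝ)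
    (ht : t₀ ∈ F) (k : ℕ) (hk : e t₀ = k + 1) (c : M) (hc : f t₀ (k + 1) = f t₀ k * c) :
    ∏ t ∈ F, f t (e t) = (∏ t ∈ F, f t (Function.update e t₀ k t)) * c := by
  classical
  have h : ∀ t ∈ F.erase t₀, f t (Function.update e t₀ k t) = f t (e t) := fun t ht' => by
    rw [Function.update_of_ne (Finset.ne_of_mem_erase ht')]
  rw [← Finset.mul_prod_erase F (fun t => f t (e t)) ht,
    ← Finset.mul_prod_erase F (fun t => f t (Function.update e t₀ k t)) ht,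
    Finset.prod_congr rfl h, Function.update_self, hk, hc, mul_right_comm]

theorem claim (h1 : S_DIV) (h2 : S_ORD) (Y B : ℝ) (Φ : ℝ → ℝ) (F : Finset ℝ) (hY : 0 < Y)
    (hΦ : EB Y B Φ)
    (hXi : ∀ z : ℂ, |z.im| < Y → Xi z = ∫ x : ℝ, (Φ x : ℂ) * Complex.cos (z * x))
    (hF : ∀ t ∈ F, t ∈ Ord ∧ t ≤ Y) : ∀ (N : ℕ) (e : ℝ → ℕ), ∑ t ∈ F, e t = N →
      (∀ t ∈ F, e t + 1 ≤ mz (1 / 2 + t * I)) →
      ∃ ψ : ℝ → ℝ, EB Y (B * ∏ t ∈ F, (t / Y) ^ (2 * e t)) ψ ∧ ∀ z : ℂ, |z.im| < Y → Xi z =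
        (∏ t ∈ F, (1 - z ^ 2 / (t : ℂ) ^ 2) ^ (e t)) *
          ∫ x : ℝ, (ψ x : ℂ) * Complex.cos (z * x) := by
  intro N
  induction N with
  | zero =>
    intro e he _
    have h0 : ∀ t ∈ F, e t = 0 := Finset.sum_eq_zero_iff.1 he
    refine ⟨Φ, ?_, fun z hz => ?_⟩
    · have e1 : ∏ t ∈ F, (t / Y) ^ (2 * e t) = 1 := Finset.prod_eq_one fun t ht => by
        rw [h0 t ht, Nat.mul_zero, pow_zero]
      rw [e1, mul_one]
      exact hΦ
    · have e1 : ∏ t ∈ F, (1 - z ^ 2 / (t : ℂ) ^ 2) ^ (e t) = 1 :=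
        Finset.prod_eq_one fun t ht => by rw [h0 t ht, pow_zero]
      rw [e1, one_mul]
      exact hXi z hz
  | succ N ih =>
    intro e he hle
    obtain ⟨t₀, ht₀, hne⟩ : ∃ t₀ ∈ F, e t₀ ≠ 0 := by
      by_contra hcon
      push Not at hcon
      rw [Finset.sum_eq_zero hcon] at he
      exact Nat.succ_ne_zero N he.symm
    obtain ⟨k, hk⟩ := Nat.exists_eq_succ_of_ne_zero hne
    have hk' : e t₀ = k + 1 := hk
    have hsum : ∑ t ∈ F, Function.update e t₀ k t = N := by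
      classical
      have h3 : ∀ t ∈ F.erase t₀, Function.update e t₀ k t = e t := fun t ht' =>
        Function.update_of_ne (Finset.ne_of_mem_erase ht') _ _
      have h4 := Finset.add_sum_erase F e ht₀
      have h5 := Finset.add_sum_erase F (Function.update e t₀ k) ht₀
      rw [Finset.sum_congr rfl h3, Function.update_self] at h5
      rw [he, hk'] at h4
      rw [← h5]
      linarith
    have hle' : ∀ t ∈ F, Function.update e t₀ k t + 1 ≤ mz (1 / 2 + t * I) := by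
      intro t ht
      by_cases h5 : t = t₀
      · rw [h5, Function.update_self]
        have h6 := hle t₀ ht₀
        omega
      · rw [Function.update_of_ne h5]
        exact hle t ht
    obtain ⟨ψ, hψ, hid⟩ := ih (Function.update e t₀ k) hsum hle'
    have hv := vanish h2 hY hψ F _ hid (fun t ht => (hF t ht).1.1) t₀ (hF t₀ ht₀).1
      (fun _ => Nat.lt_of_succ_le (hle' t₀ ht₀))
    obtain ⟨φ, hφ, hφid⟩ := h1 Y _ t₀ ψ (hF t₀ ht₀).1.1 (hF t₀ ht₀).2 hψ hv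
    refine ⟨φ, ?_, fun z hz => ?_⟩
    · rw [prod_upd F (fun t k => (t / Y) ^ (2 * k)) e t₀ ht₀ k hk' ((t₀ / Y) ^ 2)
        (by rw [Nat.mul_succ, pow_add]), ← mul_assoc]
      exact hφ
    · rw [prod_upd F (fun t k => (1 - z ^ 2 / (t : ℂ) ^ 2) ^ k) e t₀ ht₀ k hk'
        (1 - z ^ 2 / (t₀ : ℂ) ^ 2) (pow_succ _ _), hid z hz, hφid z hz, mul_assoc]

theorem t_DVL (h1 : S_DIV) (h2 : S_ORD) : S_DVL := by
  intro Y B Φ F hY hΦ hXi hF
  obtain ⟨ψ, hψ, hid⟩ := claim h1 h2 Y B Φ F hY hΦ hXi hF _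
    (fun t => mz (1 / 2 + t * I) - 1) rfl (fun t ht => by
      have h3 := (h2 t (hF t ht).1).2.2
      show mz (1 / 2 + t * I) - 1 + 1 ≤ mz (1 / 2 + t * I)
      omega)
  refine ⟨ψ, hψ, ?_, fun t ht => vanish h2 hY hψ F _ hid (fun t ht => (hF t ht).1.1) t ht
    (fun _ => by
      have h3 := (h2 t ht).2.2
      show mz (1 / 2 + t * I) - 1 < mz (1 / 2 + t * I)
      omega)⟩
  have h0 := hid 0 (by rw [Complex.zero_im, abs_zero]; exact hY)
  have e1 : ∏ t ∈ F, (1 - (0 : ℂ) ^ 2 / (t : ℂ) ^ 2) ^ (mz (1 / 2 + t * I) - 1) = 1 :=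
    Finset.prod_eq_one fun t _ => by
      rw [zero_pow two_ne_zero, zero_div, sub_zero, one_pow]
  have e2 : ∫ x : ℝ, (ψ x : ℂ) * Complex.cos (0 * x) = ((∫ x : ℝ, ψ x : ℝ) : ℂ) := by
    rw [← integral_complex_ofReal]
    refine integral_congr_ae (ae_of_all _ fun x => ?_)
    show (ψ x : ℂ) * Complex.cos (0 * x) = ((ψ x : ℝ) : ℂ)
    rw [zero_mul, Complex.cos_zero, mul_one]
  rw [h0]
  refine Eq.trans ?_ (congrArg₂ (· * ·) e1 e2).symm
  exact (one_mul _).symm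

end

end Pool.Agent.H478.WM.DVL
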