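import Mathlib

/-!
# Project WM: the minimisers of Weil's quadratic form converge to Riemann's Xi function. Definitions.
-/

open Complex MeasureTheory Filter Topology Set
open scoped ContDiff

namespace Pool.Agent.H478.WM

noncomputable section

/-- Riemann's function `Ξ(z) = ξ(1/2 + i z)`, where `ξ(s) = s (s - 1) π^(-s/2) Γ(s/2) ζ(s) / 2`
(written with Mathlib's entire function `completedRiemannZeta₀`) -/
def Xi (z : ℂ) : ℂ :=
  ((1 / 2 + I * z) * ((1 / 2 + I * z) - 1) * completedRiemannZeta₀ (1 / 2 + I * z) + 1) / 2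

/-- smooth even complex valued functions which vanish off `[-a, a]` -/
structure TC (a : ℝ) (g : ℝ → ℂ) : Prop where
  smooth : ContDiff ℝ ∞ g
  even : ∀ x : ℝ, g (-x) = g x
  supp : ∀ x : ℝ, a < |x| → g x = 0

/-- smooth even real valued functions which vanish off `[-a, a]` -/
structure TR (a : ℝ) (g : ℝ → ℝ) : Prop where
  smooth : ContDiff ℝ ∞ g
  even : ∀ x : ℝ, g (-x) = g x
  supp : ∀ x : ℝ, a < |x| → g x = 0

/-- a real valued function as a complex valued one -/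
def co (g : ℝ → ℝ) (x : ℝ) : ℂ := (g x : ℂ)

/-- the cosine transform, an entire function -/
def Ct (g : ℝ → ℂ) (z : ℂ) : ℂ := ∫ x : ℝ, g x * Complex.cos (z * x)

/-- real test functions on `[-a, a]` of integral one -/
def Adm (a : ℝ) (g : ℝ → ℝ) : Prop := TR a g ∧ ∫ x : ℝ, g x = 1

/-- the autoconvolution (for even functions: the autocorrelation) -/
def auto (g : ℝ → ℝ) (v : ℝ) : ℝ := ∫ x : ℝ, g x * g (v - x)

/-- Weil's quadratic form; if `g` vanishes off `[-a, a]` only the prime powers up to `exp (2 a)`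
contribute -/
def W (g : ℝ → ℝ) : ℝ :=
  2 * (∫ v in Ioi (0 : ℝ), auto g v * Real.exp (v / 2))
  - 2 * (∑' n : ℕ, ArithmeticFunction.vonMangoldt n / Real.sqrt n * auto g (Real.log n))
  - (Real.eulerMascheroniConstant + Real.log Real.pi) * auto g 0
  + ∑' n : ℕ, (auto g 0 / ((n : ℝ) + 1) - 2 * ∫ v in Ioi (0 : ℝ), auto g v *
      Real.exp (-(2 * ((n : ℝ) + 1) + 1 / 2) * v))

/-- the nontrivial zeros of the Riemann zeta function -/
def NTZ : Set ℂ := {s : ℂ | riemannZeta s = 0 ∧ 0 < s.re ∧ s.re < 1}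

/-- the multiplicity of a zero of the Riemann zeta function -/
def mz (s : ℂ) : ℕ := analyticOrderNatAt riemannZeta s

/-- the distinct positive ordinates of the zeros on the critical line -/
def Ord : Set ℝ := {t : ℝ | 0 < t ∧ riemannZeta (1 / 2 + t * I) = 0}

/-- A system of nodes: a set `G` of positive numbers with weights `m t ≥ 1`, such that
`∑ m t / t ^ 2 < ∞` and the gaps of `G` tend to zero. -/
structure Sys where
  G : Set ℝ
  m : ℝ → ℝ
  pos : ∀ t ∈ G, 0 < t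
  one_le : ∀ t ∈ G, 1 ≤ m t
  summ : Summable (fun t : G => m t / (t : ℝ) ^ 2)
  gaps : ∀ h : ℝ, 0 < h → ∃ T : ℝ, ∀ t : ℝ, T ≤ t → ∃ s ∈ G, t ≤ s ∧ s ≤ t + h

/-- the values of `u` at the nodes are square summable -/
def L2 (S : Sys) (u : ℂ → ℂ) : Prop :=
  Summable (fun t : S.G => S.m t * ‖u ((t : ℝ) : ℂ)‖ ^ 2)

/-- the quadratic form -/
def Q (S : Sys) (u : ℂ → ℂ) : ℝ := ∑' t : S.G, S.m t * ‖u ((t : ℝ) : ℂ)‖ ^ 2

/-- the bilinear form -/
def Bf (S : Sys) (u v : ℂ → ℂ) : ℂ :=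
  ∑' t : S.G, (S.m t : ℂ) * (u ((t : ℝ) : ℂ) * v ((t : ℝ) : ℂ))

/-- convergence: locally uniformly on `ℂ` and in the weighted `ℓ²` space over the nodes -/
def Cv (S : Sys) (F : ℕ → ℂ → ℂ) (u : ℂ → ℂ) : Prop :=
  TendstoLocallyUniformly F u atTop ∧ (∀ n, L2 S (fun z => F n z - u z)) ∧
    Tendsto (fun n => Q S (fun z => F n z - u z)) atTop (𝓝 0)

/-- the closure of the space of the transforms of `TC a` -/
def InH (S : Sys) (a : ℝ) (u : ℂ → ℂ) : Prop :=
  ∃ g : ℕ → ℝ → ℂ, (∀ n, TC a (g n)) ∧ Cv S (fun n => Ct (g n)) u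

/-- the minimum of the quadratic form -/
def qS (S : Sys) (a : ℝ) : ℝ := sInf {r : ℝ | ∃ g : ℝ → ℝ, Adm a g ∧ r = Q S (Ct (co g))}

/-- `g n` is a minimising sequence, whose transforms converge to `u` -/
def MinSeq (S : Sys) (a : ℝ) (g : ℕ → ℝ → ℝ) (u : ℂ → ℂ) : Prop :=
  (∀ n, Adm a (g n)) ∧ Tendsto (fun n => Q S (Ct (co (g n)))) atTop (𝓝 (qS S a)) ∧
    Cv S (fun n => Ct (co (g n))) u

/-- `u` is the minimiser -/
structure IsMin (S : Sys) (a : ℝ) (u : ℂ → ℂ) : Prop where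
  mem : InH S a u
  one : u 0 = 1
  real : ∀ t : ℝ, (u t).im = 0
  energy : Q S u = qS S a
  el : ∀ v : ℂ → ℂ, InH S a v → Bf S u v = (qS S a : ℂ) * v 0
  near : ∀ R ε : ℝ, 0 < ε → ∃ δ : ℝ, 0 < δ ∧ ∀ k : ℝ → ℝ, Adm a k → Q S (Ct (co k)) ≤ qS S a + δ →
    ∀ z : ℂ, ‖z‖ ≤ R → ‖Ct (co k) z - u z‖ ≤ ε

/-- the partial products -/
def PP (v : ℕ → ℝ) (N : ℕ) (z : ℂ) : ℂ := ∏ n ∈ Finset.range N, (1 - (v n : ℂ) * z ^ 2)

end

end Pool.Agent.H478.WM
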