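import Pool.Agent.H478.WM.Stm

open Complex MeasureTheory Filter Topology Set
open scoped ContDiff

namespace Pool.Agent.H478.WM

noncomputable section

theorem enum_sum (S : Sys) : Summable (fun t : S.G => 1 / (t : ℝ) ^ 2) := by
  refine Summable.of_nonneg_of_le (fun t => by positivity) (fun t => ?_) S.summ
  have h1 := S.one_le t t.2
  have h2 : (0 : ℝ) < (t : ℝ) ^ 2 := by
    have := S.pos t t.2
    positivity
  exact div_le_div_of_nonneg_right h1 h2.le

theorem enum_fin (S : Sys) (T : ℝ) : (S.G ∩ Iic T).Finite := by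
  by_cases hT : T ≤ 0
  · have : S.G ∩ Iic T = ∅ := by
      ext t
      constructor
      · rintro ⟨h1, h2⟩
        have := S.pos t h1
        simp only [mem_Iic] at h2
        linarith
      · intro h
        exact absurd h (notMem_empty t)
    rw [this]
    exact finite_empty
  · have hT' : 0 < T := not_le.mp hT
    have h1 := (enum_sum S).tendsto_cofinite_zero
    have h2 : ∀ᶠ t : S.G in cofinite, 1 / (t : ℝ) ^ 2 < 1 / T ^ 2 :=
      h1.eventually (gt_mem_nhds (by positivity))
    have h3 : {t : S.G | ¬ (1 / (t : ℝ) ^ 2 < 1 / T ^ 2)}.Finite := h2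
    refine (h3.image (fun t : S.G => (t : ℝ))).subset ?_
    rintro t ⟨ht, htT⟩
    refine ⟨⟨t, ht⟩, ?_, rfl⟩
    rw [Set.mem_ofPred_eq, not_lt]
    have hp := S.pos t ht
    have htT' : t ≤ T := htT
    apply one_div_le_one_div_of_le (by positivity)
    apply pow_le_pow_left₀ hp.le htT'

theorem enum_next (S : Sys) (T : ℝ) : ∃ s ∈ S.G, T < s ∧ ∀ t ∈ S.G, T < t → s ≤ t := by
  obtain ⟨T0, hT0⟩ := S.gaps 1 one_pos
  obtain ⟨s, hs, hs1, _⟩ := hT0 (max T0 (T + 1)) (le_max_left _ _)
  have hs2 : T < s := by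
    have := le_max_right T0 (T + 1)
    linarith
  have hfin : ((S.G ∩ Iic s) ∩ Ioi T).Finite := (enum_fin S s).subset inter_subset_left
  obtain ⟨r, hr, hr2⟩ := Set.exists_min_image _ id hfin ⟨s, ⟨hs, le_refl s⟩, hs2⟩
  refine ⟨r, hr.1.1, hr.2, ?_⟩
  intro t ht htT
  by_cases hts : t ≤ s
  · exact hr2 t ⟨⟨ht, hts⟩, htT⟩
  · have : r ≤ s := hr.1.2
    linarith [not_le.mp hts]

/-- the enumeration -/
def enumF (S : Sys) : ℕ → ℝ
  | 0 => (enum_next S 0).choose
  | n + 1 => (enum_next S (enumF S n)).choose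

theorem enumF_mem (S : Sys) (n : ℕ) : enumF S n ∈ S.G := by
  cases n with
  | zero => exact (enum_next S 0).choose_spec.1
  | succ n => exact (enum_next S (enumF S n)).choose_spec.1

theorem enumF_lt (S : Sys) (n : ℕ) : enumF S n < enumF S (n + 1) :=
  (enum_next S (enumF S n)).choose_spec.2.1

theorem enumF_le (S : Sys) (n : ℕ) (t : ℝ) (ht : t ∈ S.G) (h : enumF S n < t) :
    enumF S (n + 1) ≤ t :=
  (enum_next S (enumF S n)).choose_spec.2.2 t ht h

theorem enumF_zero_le (S : Sys) (t : ℝ) (ht : t ∈ S.G) : enumF S 0 ≤ t :=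
  (enum_next S 0).choose_spec.2.2 t ht (S.pos t ht)

theorem enumF_mono (S : Sys) : StrictMono (enumF S) := strictMono_nat_of_lt_succ (enumF_lt S)

theorem enumF_unb (S : Sys) (T : ℝ) : ∃ n, T < enumF S n := by
  by_contra hcon
  push Not at hcon
  have hsub : Set.range (enumF S) ⊆ S.G ∩ Iic T := by
    rintro _ ⟨n, rfl⟩
    exact ⟨enumF_mem S n, hcon n⟩
  have h1 : (Set.range (enumF S)).Finite := (enum_fin S T).subset hsub
  exact (Set.infinite_range_of_injective (enumF_mono S).injective) h1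

theorem enum_ex (S : Sys) : ∃ γ : ℕ → ℝ, (∀ n, γ n ∈ S.G) ∧ StrictMono γ ∧
    (∀ n, ∀ t ∈ S.G, γ n < t → γ (n + 1) ≤ t) ∧ (∀ t ∈ S.G, γ 0 ≤ t) ∧ ∀ T : ℝ, ∃ n, T < γ n :=
  ⟨enumF S, enumF_mem S, enumF_mono S, fun n t ht h => enumF_le S n t ht h,
    fun t ht => enumF_zero_le S t ht, enumF_unb S⟩

theorem t_ENUM : S_ENUM := by
  intro S
  obtain ⟨γ, hmem, hmono, hnext, hzero, hunb⟩ := enum_ex S
  refine ⟨γ, hmono, ?_, fun n => S.pos _ (hmem n), ?_, ?_⟩
  · apply Subset.antisymm
    · rintro _ ⟨n, rfl⟩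
      exact hmem n
    · intro t ht
      have hex := hunb t
      classical
      have h1 := Nat.find_spec hex
      have h2 : ∀ k, k < Nat.find hex → ¬ t < γ k := fun k hk => Nat.find_min hex hk
      rcases hn : Nat.find hex with _ | k
      · rw [hn] at h1
        exact absurd (hzero t ht) (not_le.mpr h1)
      · rw [hn] at h1 h2
        have h3 : γ k ≤ t := not_lt.mp (h2 k (Nat.lt_succ_self k))
        rcases lt_or_eq_of_le h3 with h4 | h4
        · exact absurd (hnext k t ht h4) (not_le.mpr h1)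
        · exact ⟨k, h4⟩
  · have hinj : Function.Injective (fun n : ℕ => (⟨γ n, hmem n⟩ : S.G)) := by
      intro i j hij
      have h1 : γ i = γ j := congrArg (fun z : S.G => (z : ℝ)) hij
      exact hmono.injective h1
    have h2 := (enum_sum S).comp_injective hinj
    exact h2
  · refine tendsto_atTop_atTop_of_monotone hmono.monotone fun b => ?_
    obtain ⟨n, hn⟩ := hunb b
    exact ⟨n, hn.le⟩

end

end Pool.Agent.H478.WM
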