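import Pool.Agent.H478.WM.Stm

/-!
# Project WM, task EX: division in the closure
-/

open Complex MeasureTheory Filter Topology Set
open scoped ContDiff

namespace Pool.Agent.H478.WM

namespace EX

theorem integrable_TC {a : ℝ} {g : ℝ → ℂ} (hg : TC a g) (z : ℂ) :
    Integrable (fun x : ℝ => g x * Complex.cos (z * x)) := by
  apply Continuous.integrable_of_hasCompactSupport
  · exact hg.smooth.continuous.mul
      (Complex.continuous_cos.comp (continuous_const.mul Complex.continuous_ofReal))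
  · apply HasCompactSupport.mul_right
    refine HasCompactSupport.intro (isCompact_Icc (a := -a) (b := a)) fun x hx => hg.supp x ?_
    rw [Set.mem_Icc, ← abs_le] at hx
    exact not_le.1 hx

theorem comb_TC {a : ℝ} {g b : ℝ → ℂ} (hg : TC a g) (hb : TC a b) (c : ℂ) :
    TC a (fun s => g s - c * b s) :=
  ⟨hg.smooth.sub (contDiff_const.mul hb.smooth),
    fun x => by simp only [hg.even, hb.even],
    fun x hx => by simp only [hg.supp x hx, hb.supp x hx]; ring⟩

theorem Ct_comb {a : ℝ} {g b : ℝ → ℂ} (hg : TC a g) (hb : TC a b) (c z : ℂ) :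
    Ct (fun s => g s - c * b s) z = Ct g z - c * Ct b z := by
  unfold Ct
  rw [← integral_const_mul, ← integral_sub (integrable_TC hg z)
    ((integrable_TC hb z).const_mul c)]
  refine integral_congr_ae (Filter.Eventually.of_forall fun s => ?_)
  show (g s - c * b s) * Complex.cos (z * s) = _
  ring

theorem lu_iff (F : ℕ → ℂ → ℂ) (u : ℂ → ℂ) : TendstoLocallyUniformly F u atTop ↔
    ∀ R ε : ℝ, 0 < ε → ∀ᶠ n in atTop, ∀ z, ‖z‖ ≤ R → ‖F n z - u z‖ ≤ ε := by
  rw [tendstoLocallyUniformly_iff_forall_isCompact]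
  constructor
  · intro h R ε hε
    have := h (Metric.closedBall 0 R) (isCompact_closedBall 0 R)
    rw [Metric.tendstoUniformlyOn_iff] at this
    filter_upwards [this ε hε] with n hn z hz
    have h2 := hn z (by simpa using hz)
    rw [dist_comm, dist_eq_norm] at h2
    exact h2.le
  · intro h K hK
    rw [Metric.tendstoUniformlyOn_iff]
    intro ε hε
    obtain ⟨R, hR⟩ := hK.isBounded.exists_norm_le
    filter_upwards [h R (ε / 2) (by positivity)] with n hn z hz
    have := hn z (hR z hz)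
    rw [dist_comm, dist_eq_norm]
    linarith

theorem exists_div {v : ℂ → ℂ} (hv : Differentiable ℂ v) (heven : ∀ z, v (-z) = v z) {x : ℂ}
    (hx : x ≠ 0) (hvx : v x = 0) :
    ∃ k : ℂ → ℂ, Differentiable ℂ k ∧ ∀ z : ℂ, (z ^ 2 - x ^ 2) * k z = v z := by
  have hd : ∀ (f : ℂ → ℂ) (c : ℂ), Differentiable ℂ f → Differentiable ℂ (dslope f c) := by
    intro f c hf
    rw [← differentiableOn_univ]
    exact (Complex.differentiableOn_dslope Filter.univ_mem).2 hf.differentiableOn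
  have h1 : ∀ z, (z - x) * dslope v x z = v z := by
    intro z
    have := sub_smul_dslope v x z
    rw [smul_eq_mul, hvx, sub_zero] at this
    exact this
  have h2 : dslope v x (-x) = 0 := by
    have := h1 (-x)
    rw [heven, hvx] at this
    rcases mul_eq_zero.1 this with h | h
    · exfalso
      apply hx
      have : (2 : ℂ) * x = 0 := by linear_combination -h
      rcases mul_eq_zero.1 this with h' | h'
      · exact absurd h' two_ne_zero
      · exact h'
    · exact h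
  refine ⟨dslope (dslope v x) (-x), hd _ _ (hd _ _ hv), fun z => ?_⟩
  have h3 := sub_smul_dslope (dslope v x) (-x) z
  rw [smul_eq_mul, h2, sub_zero] at h3
  rw [← h1 z, ← h3]
  ring

/-- the nodes below a bound are finite in number -/
theorem finite_nodes (S : Sys) (R : ℝ) : {t : S.G | (t : ℝ) < R}.Finite := by
  have h1 : Summable (fun t : S.G => S.m t / (t : ℝ) ^ 2) := S.summ
  have h2 := h1.tendsto_cofinite_zero
  by_cases hR : 0 < R
  · have h3 : ∀ᶠ t : S.G in cofinite, S.m t / (t : ℝ) ^ 2 < 1 / R ^ 2 :=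
      h2.eventually (gt_mem_nhds (by positivity))
    have h4 : {t : S.G | ¬ S.m t / (t : ℝ) ^ 2 < 1 / R ^ 2}.Finite := h3
    refine h4.subset fun t ht => ?_
    have ht' : (t : ℝ) < R := ht
    have htp := S.pos t t.2
    show ¬ _
    rw [not_lt, div_le_div_iff₀ (by positivity) (by positivity)]
    have h5 := S.one_le t t.2
    have h6 : (t : ℝ) ^ 2 ≤ R ^ 2 := by nlinarith
    nlinarith [sq_nonneg R]
  · refine Set.Finite.subset Set.finite_empty fun t ht => ?_
    have ht' : (t : ℝ) < R := ht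
    have htp := S.pos t t.2
    exfalso
    exact hR (htp.trans ht')

end EX

open EX in
theorem t_EX (h1 : S_TCB) (h2 : S_SUM) (h3 : S_L2A) (h4 : S_HE) (h5 : S_NZ) (h6 : S_ODE) :
    S_EX := by
  intro S a v x ha hx hv hvx
  obtain ⟨hvd, hve, hvL, _⟩ := h4 S a v ha hv
  obtain ⟨g, hg, hlu, hL2, hQ⟩ := hv
  obtain ⟨b, hb, hbx⟩ := h5 a x ha
  obtain ⟨k, hk, hkv⟩ := exists_div hvd hve hx hvx
  obtain ⟨hbd, _, _, _⟩ := h1 a b ha hb
  have hbL : L2 S (Ct b) := h2 S a b ha hb
  set c : ℕ → ℂ := fun n => Ct (g n) x with hc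
  have hlu' := (lu_iff _ _).1 hlu
  have hc0 : Tendsto c atTop (𝓝 0) := by
    rw [Metric.tendsto_atTop']
    intro ε hε
    obtain ⟨N, hN⟩ := eventually_atTop.1 (hlu' ‖x‖ (ε / 2) (by positivity))
    refine ⟨N, fun n hn => ?_⟩
    have := hN n hn.le x le_rfl
    rw [hvx, sub_zero] at this
    rw [dist_zero_right]
    exact lt_of_le_of_lt this (by linarith)
  have hH : ∀ n, TC a (fun s => g n s - c n * b s) := fun n => comb_TC (hg n) hb (c n)
  have hHc : ∀ n z, Ct (fun s => g n s - c n * b s) z = Ct (g n) z - c n * Ct b z :=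
    fun n z => Ct_comb (hg n) hb (c n) z
  have hHx : ∀ n, Ct (fun s => g n s - c n * b s) x = 0 := by
    intro n
    rw [hHc, hbx, mul_one, sub_self]
  choose K hK hKz using fun n => h6 a x _ ha hx (hH n) (hHx n)
  have hKz' : ∀ n z, (z ^ 2 - x ^ 2) * (Ct (K n) z - k z) = Ct (g n) z - v z - c n * Ct b z := by
    intro n z
    rw [mul_sub, hKz, hkv, hHc]
    ring
  have hKd : ∀ n, Differentiable ℂ (Ct (K n)) := fun n => (h1 a _ ha (hK n)).1
  -- the difference `Ct (h n) - v`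
  have hdl : ∀ R ε : ℝ, 0 < ε → ∀ᶠ n in atTop, ∀ z, ‖z‖ ≤ R →
      ‖Ct (g n) z - v z - c n * Ct b z‖ ≤ ε := by
    intro R ε hε
    obtain ⟨M, hM⟩ := (isCompact_closedBall (0 : ℂ) R).exists_bound_of_continuousOn
      hbd.continuous.continuousOn
    have hMc : ∀ᶠ n in atTop, ‖c n‖ * (|M| + 1) < ε / 2 := by
      have : Tendsto (fun n => ‖c n‖ * (|M| + 1)) atTop (𝓝 (‖(0 : ℂ)‖ * (|M| + 1))) :=
        hc0.norm.mul_const _
      rw [norm_zero, zero_mul] at this
      exact this.eventually (gt_mem_nhds (by positivity))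
    filter_upwards [hlu' R (ε / 2) (by positivity), hMc] with n hn hn2 z hz
    have e1 := hn z hz
    have e2 : ‖c n * Ct b z‖ ≤ ‖c n‖ * (|M| + 1) := by
      rw [norm_mul]
      apply mul_le_mul_of_nonneg_left _ (norm_nonneg _)
      have := hM z (by simpa using hz)
      linarith [le_abs_self M]
    calc ‖Ct (g n) z - v z - c n * Ct b z‖ ≤ ‖Ct (g n) z - v z‖ + ‖c n * Ct b z‖ := norm_sub_le _ _
      _ ≤ ε := by linarith
  -- lower bound for `z² - x²`
  have hlow : ∀ z : ℂ, ‖x‖ + 1 ≤ ‖z‖ → 1 ≤ ‖z ^ 2 - x ^ 2‖ := by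
    intro z hz
    have e1 := norm_sub_norm_le (z ^ 2) (x ^ 2)
    rw [norm_pow, norm_pow] at e1
    have e2 := norm_nonneg x
    nlinarith
  have hcmp : ∀ n z, ‖x‖ + 1 ≤ ‖z‖ → ‖Ct (K n) z - k z‖ ≤ ‖Ct (g n) z - v z - c n * Ct b z‖ := by
    intro n z hz
    have e1 := hlow z hz
    rw [← hKz', norm_mul]
    have e2 := norm_nonneg (Ct (K n) z - k z)
    nlinarith
  have hluK : ∀ R ε : ℝ, 0 < ε → ∀ᶠ n in atTop, ∀ z, ‖z‖ ≤ R → ‖Ct (K n) z - k z‖ ≤ ε := by
    intro R ε hε
    set R' := max R (‖x‖ + 1) with hR'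
    have hR'0 : 0 < R' := lt_of_lt_of_le (by positivity) (le_max_right _ _)
    filter_upwards [hdl R' ε hε] with n hn z hz
    have hfr : ∀ w ∈ frontier (Metric.ball (0 : ℂ) R'), ‖Ct (K n) w - k w‖ ≤ ε := by
      intro w hw
      rw [frontier_ball (0 : ℂ) hR'0.ne', mem_sphere_zero_iff_norm] at hw
      exact (hcmp n w (by rw [hw]; exact le_max_right _ _)).trans (hn w hw.le)
    have hdc : DiffContOnCl ℂ (fun w => Ct (K n) w - k w) (Metric.ball (0 : ℂ) R') :=
      ((hKd n).sub hk).diffContOnCl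
    exact Complex.norm_le_of_forall_mem_frontier_norm_le Metric.isBounded_ball hdc hfr
      (by rw [closure_ball (0 : ℂ) hR'0.ne', mem_closedBall_zero_iff]
          exact hz.trans (le_max_left _ _))
  -- square summability
  have hL2d : ∀ n, L2 S (fun z => Ct (g n) z - v z - c n * Ct b z) := by
    intro n
    have := (h3 S (fun z => Ct (g n) z - v z) (Ct b) (Ct b) 1 (-c n) (hL2 n) hbL hbL).1
    have e : (fun z => (1 : ℂ) * (Ct (g n) z - v z) + -c n * Ct b z) =
        fun z => Ct (g n) z - v z - c n * Ct b z := by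
      funext z; ring
    rwa [e] at this
  have hQd : Tendsto (fun n => Q S (fun z => Ct (g n) z - v z - c n * Ct b z)) atTop (𝓝 0) := by
    have hup : ∀ n, Q S (fun z => Ct (g n) z - v z - c n * Ct b z) ≤
        2 * Q S (fun z => Ct (g n) z - v z) + 2 * (‖c n‖ ^ 2 * Q S (Ct b)) := by
      intro n
      have hcb : L2 S (fun z => -c n * Ct b z) := by
        have := (h3 S (Ct b) (Ct b) (Ct b) (-c n) 0 hbL hbL hbL).1
        have e : (fun z => -c n * Ct b z + (0 : ℂ) * Ct b z) = fun z => -c n * Ct b z := by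
          funext z; ring
        rwa [e] at this
      have e1 := (h3 S (fun z => Ct (g n) z - v z) (fun z => -c n * Ct b z) (Ct b) 0 0 (hL2 n) hcb
        hbL).2.2.2.1
      have e2 : (fun z => Ct (g n) z - v z + -c n * Ct b z) =
          fun z => Ct (g n) z - v z - c n * Ct b z := by
        funext z; ring
      have e3 : Q S (fun z => -c n * Ct b z) = ‖c n‖ ^ 2 * Q S (Ct b) := by
        unfold Q
        rw [← tsum_mul_left]
        refine tsum_congr fun t => ?_
        rw [norm_mul, norm_neg]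
        ring
      rw [e2, e3] at e1
      exact e1
    have hnn : ∀ n, 0 ≤ Q S (fun z => Ct (g n) z - v z - c n * Ct b z) := by
      intro n
      refine tsum_nonneg fun t => ?_
      have := S.one_le t t.2
      positivity
    have hlim : Tendsto (fun n => 2 * Q S (fun z => Ct (g n) z - v z) +
        2 * (‖c n‖ ^ 2 * Q S (Ct b))) atTop (𝓝 0) := by
      have e1 := (hQ.const_mul 2).add (((hc0.norm.pow 2).mul_const (Q S (Ct b))).const_mul 2)
      simpa using e1
    exact squeeze_zero hnn hup hlim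
  -- the finite set of small nodes
  set B := (finite_nodes S (‖x‖ + 1)).toFinset with hB
  have hBmem : ∀ t : S.G, t ∉ B → ‖x‖ + 1 ≤ ‖((t : ℝ) : ℂ)‖ := by
    intro t ht
    rw [hB, Set.Finite.mem_toFinset] at ht
    have ht' : ¬ (t : ℝ) < ‖x‖ + 1 := ht
    rw [Complex.norm_real, Real.norm_of_nonneg (S.pos t t.2).le]
    exact not_lt.1 ht'
  have hmpos : ∀ t : S.G, 0 ≤ S.m t := fun t => le_trans zero_le_one (S.one_le t t.2)
  have hterm : ∀ n (t : S.G), t ∉ B → S.m t * ‖Ct (K n) ((t : ℝ) : ℂ) - k ((t : ℝ) : ℂ)‖ ^ 2 ≤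
      S.m t * ‖Ct (g n) ((t : ℝ) : ℂ) - v ((t : ℝ) : ℂ) - c n * Ct b ((t : ℝ) : ℂ)‖ ^ 2 := by
    intro n t ht
    apply mul_le_mul_of_nonneg_left _ (hmpos t)
    exact pow_le_pow_left₀ (norm_nonneg _) (hcmp n _ (hBmem t ht)) 2
  have hL2K : ∀ n, L2 S (fun z => Ct (K n) z - k z) := by
    intro n
    refine Summable.of_norm_bounded_eventually (hL2d n) ?_
    have : {t : S.G | t ∈ B}.Finite := B.finite_toSet
    refine this.subset fun t ht => ?_
    by_contra hcon
    apply ht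
    show ‖S.m t * ‖Ct (K n) ((t : ℝ) : ℂ) - k ((t : ℝ) : ℂ)‖ ^ 2‖ ≤ _
    rw [Real.norm_of_nonneg (mul_nonneg (hmpos t) (sq_nonneg _))]
    exact hterm n t hcon
  refine ⟨k, ⟨K, hK, (lu_iff _ _).2 hluK, hL2K, ?_⟩, hkv⟩
  have hup : ∀ n, Q S (fun z => Ct (K n) z - k z) ≤
      (∑ t ∈ B, S.m t * ‖Ct (K n) ((t : ℝ) : ℂ) - k ((t : ℝ) : ℂ)‖ ^ 2) +
        Q S (fun z => Ct (g n) z - v z - c n * Ct b z) := by
    intro n
    have e1 := (hL2K n).sum_add_tsum_compl (s := B)
    have e2 := (hL2d n).sum_add_tsum_compl (s := B)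
    unfold Q
    rw [← e1, ← e2]
    have e3 : ∑' t : (↑(B : Set S.G)ᶜ : Set S.G), S.m (t : S.G) * ‖Ct (K n) (((t : S.G) : ℝ) : ℂ) -
          k (((t : S.G) : ℝ) : ℂ)‖ ^ 2 ≤
        ∑' t : (↑(B : Set S.G)ᶜ : Set S.G), S.m (t : S.G) * ‖Ct (g n) (((t : S.G) : ℝ) : ℂ) -
          v (((t : S.G) : ℝ) : ℂ) - c n * Ct b (((t : S.G) : ℝ) : ℂ)‖ ^ 2 := by
      refine Summable.tsum_le_tsum (fun t => hterm n t.1 fun h => t.2 (Finset.mem_coe.2 h)) ?_ ?_
      · exact (hL2K n).subtype _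
      · exact (hL2d n).subtype _
    have e4 : 0 ≤ ∑ t ∈ B, S.m t * ‖Ct (g n) ((t : ℝ) : ℂ) - v ((t : ℝ) : ℂ) -
        c n * Ct b ((t : ℝ) : ℂ)‖ ^ 2 :=
      Finset.sum_nonneg fun t _ => mul_nonneg (hmpos t) (sq_nonneg _)
    linarith
  have hnn : ∀ n, 0 ≤ Q S (fun z => Ct (K n) z - k z) := fun n =>
    tsum_nonneg fun t => mul_nonneg (hmpos t) (sq_nonneg _)
  have hlimK : ∀ z, Tendsto (fun n => Ct (K n) z - k z) atTop (𝓝 0) := by
    intro z
    rw [Metric.tendsto_atTop']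
    intro ε hε
    obtain ⟨N, hN⟩ := eventually_atTop.1 (hluK ‖z‖ (ε / 2) (by positivity))
    refine ⟨N, fun n hn => ?_⟩
    have := hN n hn.le z le_rfl
    rw [dist_zero_right]
    exact lt_of_le_of_lt this (by linarith)
  have hlim : Tendsto (fun n => (∑ t ∈ B, S.m t *
      ‖Ct (K n) ((t : ℝ) : ℂ) - k ((t : ℝ) : ℂ)‖ ^ 2) +
        Q S (fun z => Ct (g n) z - v z - c n * Ct b z)) atTop (𝓝 0) := by
    have e1 : Tendsto (fun n => ∑ t ∈ B, S.m t *
        ‖Ct (K n) ((t : ℝ) : ℂ) - k ((t : ℝ) : ℂ)‖ ^ 2) atTop (𝓝 (∑ t ∈ B, S.m t * ‖(0 : ℂ)‖ ^ 2)) :=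
      tendsto_finsetSum _ fun t _ => ((hlimK _).norm.pow 2).const_mul _
    have e2 := e1.add hQd
    simpa using e2
  exact squeeze_zero hnn hup hlim

end Pool.Agent.H478.WM
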