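import Pool.Agent.H478.WM.Stm
import Pool.Graph.R_pool_sql_team_seeded_f72693b1.W8.WP.EF1
import Pool.Graph.R_pool_sql_team_seeded_f72693b1.W187.WP.EFb

/-!
# WM-EXF: the explicit formula for Weil's form of a real even test function (helper696 for helper478)
-/

set_option autoImplicit false

open Complex MeasureTheory Filter Topology Set
open scoped ContDiff Convolution

namespace Pool.Agent.H478.WM

theorem exf_ef : Pool.Agent.W187.WP.S_EF := by
  intro g hg hc
  have h1 := Pool.Agent.W8.WP.ef1 g hg hc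
  rwa [Pool.Agent.W187.WP.EFb.ef2 g hg hc] at h1

section
variable {a : ℝ} {g : ℝ → ℝ}

theorem exf_co_smooth (hg : TR a g) : ContDiff ℝ ∞ (co g) :=
  Complex.ofRealCLM.contDiff.comp hg.smooth

theorem exf_co_comp (hg : TR a g) : HasCompactSupport (co g) := by
  refine HasCompactSupport.intro (isCompact_Icc (a := -a) (b := a)) fun x hx => ?_
  have h1 : a < |x| := by
    by_contra h
    rw [not_lt, abs_le] at h
    exact hx h
  unfold co
  rw [hg.supp x h1, Complex.ofReal_zero]

theorem exf_auto_neg (hg : TR a g) (v : ℝ) : auto g (-v) = auto g v := by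
  unfold auto
  rw [← integral_neg_eq_self (fun x => g x * g (v - x))]
  refine integral_congr_ae (Eventually.of_forall fun x => ?_)
  show g x * g (-v - x) = g (-x) * g (v - -x)
  rw [hg.even x, ← hg.even (-v - x)]
  congr 2
  ring

theorem exf_conv (g : ℝ → ℝ) : (fun v => ((auto g v : ℝ) : ℂ)) =
    (co g) ⋆[ContinuousLinearMap.mul ℝ ℂ, volume] (co g) := by
  funext v
  rw [convolution_def]
  unfold auto co
  rw [← integral_complex_ofReal]
  refine integral_congr_ae (Eventually.of_forall fun x => ?_)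
  simp only [ContinuousLinearMap.mul_apply', Complex.ofReal_mul]

theorem exf_lap (hg : TR a g) (z : ℂ) :
    Pool.Agent.W187.WP.lap (fun v => ((auto g v : ℝ) : ℂ)) z =
      Pool.Agent.W187.WP.lap (co g) z ^ 2 := by
  have hint : Integrable (fun x : ℝ => co g x * cexp (z * x)) := by
    refine Continuous.integrable_of_hasCompactSupport ?_ ?_
    · exact (exf_co_smooth hg).continuous.mul (by fun_prop)
    · exact (exf_co_comp hg).mul_right
  have h1 := integral_convolution (ContinuousLinearMap.mul ℝ ℂ) (μ := volume) (ν := volume)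
    hint hint
  unfold Pool.Agent.W187.WP.lap
  rw [ContinuousLinearMap.mul_apply'] at h1
  rw [pow_two, ← h1]
  refine integral_congr_ae (Eventually.of_forall fun u => ?_)
  show ((auto g u : ℝ) : ℂ) * cexp (z * u) = _
  rw [congrFun (exf_conv g) u, convolution_def, convolution_def, ← integral_mul_const]
  refine integral_congr_ae (Eventually.of_forall fun x => ?_)
  simp only [ContinuousLinearMap.mul_apply']
  have e1 : cexp (z * u) = cexp (z * x) * cexp (z * ((u - x : ℝ) : ℂ)) := by
    rw [← Complex.exp_add]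
    congr 1
    push_cast
    ring
  rw [e1]
  ring

theorem exf_Ct (hg : TR a g) (z : ℂ) :
    Pool.Agent.W187.WP.lap (co g) z = Ct (co g) (-I * z) := by
  have hi : ∀ w : ℂ, Integrable (fun x : ℝ => co g x * cexp (w * x)) := by
    intro w
    refine Continuous.integrable_of_hasCompactSupport ?_ ?_
    · exact (exf_co_smooth hg).continuous.mul (by fun_prop)
    · exact (exf_co_comp hg).mul_right
  have h1 : Pool.Agent.W187.WP.lap (co g) z = Pool.Agent.W187.WP.lap (co g) (-z) := by
    unfold Pool.Agent.W187.WP.lap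
    rw [← integral_neg_eq_self (fun x : ℝ => co g x * cexp (z * x))]
    refine integral_congr_ae (Eventually.of_forall fun x => ?_)
    show co g (-x) * cexp (z * ((-x : ℝ) : ℂ)) = co g x * cexp (-z * x)
    unfold co
    rw [hg.even x]
    congr 2
    push_cast
    ring
  have h2 : Ct (co g) (-I * z) = (Pool.Agent.W187.WP.lap (co g) z +
      Pool.Agent.W187.WP.lap (co g) (-z)) / 2 := by
    unfold Pool.Agent.W187.WP.lap Ct
    rw [← integral_add (hi z) (hi (-z)), ← integral_div]
    refine integral_congr_ae (Eventually.of_forall fun x => ?_)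
    show co g x * Complex.cos (-I * z * x) = (co g x * cexp (z * x) + co g x * cexp (-z * x)) / 2
    have e1 : -I * z * x = -((z * x) * I) := by ring
    rw [e1, Complex.cos_neg, Complex.cos_mul_I, Complex.cosh]
    have e2 : -(z * (x : ℂ)) = -z * x := by ring
    rw [e2]
    ring
  rw [h2, ← h1]
  ring

theorem exf_cast (x y z t : ℝ) : ((x - y - z + t : ℝ) : ℂ) = (x : ℂ) - (y : ℂ) - (z : ℂ) + (t : ℂ) := by
  push_cast
  ring

theorem exf_WW (hg : TR a g) :
    Pool.Agent.W187.WP.WW (fun v => ((auto g v : ℝ) : ℂ)) = ((W g : ℝ) : ℂ) := by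
  have hd : ∀ v : ℝ, ((auto g v : ℝ) : ℂ) + ((auto g (-v) : ℝ) : ℂ) =
      ((2 * auto g v : ℝ) : ℂ) := by
    intro v
    rw [exf_auto_neg hg v]
    push_cast
    ring
  have hi : ∀ k : ℝ → ℝ, (∫ v in Ioi (0 : ℝ), ((2 * auto g v : ℝ) : ℂ) * ((k v : ℝ) : ℂ)) =
      ((2 * ∫ v in Ioi (0 : ℝ), auto g v * k v : ℝ) : ℂ) := by
    intro k
    rw [← integral_const_mul, ← integral_complex_ofReal]
    refine integral_congr_ae (Eventually.of_forall fun v => ?_)
    show ((2 * auto g v : ℝ) : ℂ) * ((k v : ℝ) : ℂ) = ((2 * (auto g v * k v) : ℝ) : ℂ)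
    push_cast
    ring
  unfold Pool.Agent.W187.WP.WW W
  simp only [hd, hi]
  rw [exf_cast]
  congr 1
  · congr 1
    · congr 1
      rw [← tsum_mul_left, Complex.ofReal_tsum]
      refine tsum_congr fun n => ?_
      push_cast
      ring
    · push_cast
      ring
  · rw [Complex.ofReal_tsum]
    refine tsum_congr fun n => ?_
    push_cast
    ring

end

theorem t_EXF : S_EXF := by
  intro a g hg
  have h1 : ContDiff ℝ 2 (fun v => ((auto g v : ℝ) : ℂ)) := by
    rw [exf_conv]
    refine HasCompactSupport.contDiff_convolution_right _ (exf_co_comp hg) ?_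
      ((exf_co_smooth hg).of_le (by exact_mod_cast le_top))
    exact (exf_co_smooth hg).continuous.locallyIntegrable
  have h2 : HasCompactSupport (fun v => ((auto g v : ℝ) : ℂ)) := by
    rw [exf_conv]
    exact (exf_co_comp hg).convolution _ (exf_co_comp hg)
  have h3 := exf_ef _ h1 h2
  rw [exf_WW hg] at h3
  have h4 : (fun ρ : Pool.Agent.W187.WP.Zr => (Pool.Agent.W187.WP.mult ρ : ℂ) *
      Pool.Agent.W187.WP.lap (fun v => ((auto g v : ℝ) : ℂ)) ((ρ : ℂ) - 1 / 2)) =
      fun ρ : NTZ => (mz ρ : ℂ) * (Ct (co g) (-I * ((ρ : ℂ) - 1 / 2))) ^ 2 := by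
    funext ρ
    rw [exf_lap hg, exf_Ct hg]
    rfl
  rw [h4] at h3
  exact h3

end Pool.Agent.H478.WM
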