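import Pool.Agent.H478.WM.Stm
import Pool.Graph.R_pool_sql_team_seeded_f72693b1.W338.MW.A

/-!
# Project WM: on the Riemann hypothesis the gaps between the ordinates tend to zero
(direct proof from the explicit formula)
-/

set_option autoImplicit false

open Complex MeasureTheory Filter Topology Set
open scoped ContDiff ComplexConjugate FourierTransform
open Pool.Agent.W187.WP (lap Zr mult WW)
open Pool.Agent.W338.MW (Co Co_contDiff Co_compact lap_Co lap_conj int1 int2 ef)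
open Pool.Agent.W8.WP (lap_parts)

namespace Pool.Agent.H478.WM.GAP

noncomputable section

/-! ## the test function -/

theorem two_le_inf : (2 : WithTop ℕ∞) ≤ ∞ := WithTop.coe_le_coe.2 (le_top : (2 : ℕ∞) ≤ ⊤)

theorem one_le_inf : (1 : WithTop ℕ∞) ≤ ∞ := WithTop.coe_le_coe.2 (le_top : (1 : ℕ∞) ≤ ⊤)

theorem hcs_of_supp {E : Type*} [NormedAddCommGroup E] {φ : ℝ → E} {b : ℝ}
    (hb : ∀ v, b < |v| → φ v = 0) : HasCompactSupport φ := by
  refine HasCompactSupport.intro (isCompact_Icc (a := -b) (b := b)) fun y hy => hb y ?_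
  by_contra hlt
  push Not at hlt
  rw [abs_le] at hlt
  exact hy hlt

theorem co_real (p q : ℝ → ℝ) (v : ℝ) :
    Co (fun x => (p x : ℂ)) (fun x => (q x : ℂ)) v = ((∫ x : ℝ, p (x + v) * q x : ℝ) : ℂ) := by
  unfold Co
  rw [← integral_complex_ofReal]
  congr 1
  funext x
  push_cast
  rfl

theorem co_even (p : ℝ → ℝ) (v : ℝ) :
    ∫ x : ℝ, p (x + -v) * p x = ∫ x : ℝ, p (x + v) * p x := by
  rw [← integral_add_right_eq_self (fun x : ℝ => p (x + -v) * p x) v]
  congr 1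
  funext x
  rw [add_neg_cancel_right, mul_comm]

theorem lap_real {p : ℝ → ℝ} (r : ℝ) :
    lap (fun x => (p x : ℂ)) (-(I * r)) = conj (lap (fun x => (p x : ℂ)) (I * r)) := by
  have h := lap_conj (f := fun x => (p x : ℂ)) (I * r)
  simp only [Complex.conj_ofReal] at h
  rw [h]
  congr 2
  rw [map_mul, Complex.conj_I, Complex.conj_ofReal]
  ring

theorem deriv_ofReal (p : ℝ → ℝ) (hp : Differentiable ℝ p) :
    deriv (fun x => (p x : ℂ)) = fun x => ((deriv p x : ℝ) : ℂ) := by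
  funext x
  exact ((hp x).hasDerivAt.ofReal_comp).deriv

theorem exists_phi (h : ℝ) (hh : 0 < h) : ∃ φ : ℝ → ℝ, ContDiff ℝ 2 φ ∧
    (∃ b : ℝ, ∀ v, b < |v| → φ v = 0) ∧ (∀ v, φ (-v) = φ v) ∧ 0 < φ 0 ∧
    ∀ r : ℝ, ∃ K : ℝ, 0 ≤ K ∧
      lap (fun v => (φ v : ℂ)) (I * r) = (((h ^ 2 - r ^ 2) * K : ℝ) : ℂ) := by
  obtain ⟨η, hη⟩ : ∃ η : ContDiffBump (0 : ℝ), η = ⟨1, 2, one_pos, one_lt_two⟩ := ⟨_, rfl⟩
  have hηc : ContDiff ℝ ∞ η := η.contDiff
  have hηs : ∀ x : ℝ, 2 < |x| → η x = 0 := by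
    intro x hx
    refine η.zero_of_le_dist ?_
    rw [hη, Real.dist_eq, sub_zero]
    exact hx.le
  have hηk : HasCompactSupport η := hcs_of_supp hηs
  have hηd : Continuous (deriv η) := hηc.continuous_deriv (by simp)
  obtain ⟨A, hA⟩ : ∃ A : ℝ, A = ∫ x : ℝ, η x * η x := ⟨_, rfl⟩
  obtain ⟨B, hB⟩ : ∃ B : ℝ, B = ∫ x : ℝ, deriv η x * deriv η x := ⟨_, rfl⟩
  have hA0 : 0 < A := by
    rw [hA]
    refine (hηc.continuous.mul hηc.continuous).integral_pos_of_hasCompactSupport_nonneg_nonzero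
      (hηk.mul_right) (fun x => mul_self_nonneg _) (x := 0) ?_
    have : η 0 = 1 := η.one_of_mem_closedBall (by simp [hη])
    simp only [this]; norm_num
  have hB0 : 0 ≤ B := by rw [hB]; exact integral_nonneg fun x => mul_self_nonneg _
  obtain ⟨b, hb⟩ : ∃ b : ℝ, b = B / (h ^ 2 * A) + 1 := ⟨_, rfl⟩
  have hb0 : 0 < b := by rw [hb]; positivity
  have hb1 : 1 ≤ b := by rw [hb]; have : 0 ≤ B / (h ^ 2 * A) := by positivity
                         linarith
  have hbB : B < h ^ 2 * b ^ 2 * A := by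
    have h1 : B / (h ^ 2 * A) < b := by rw [hb]; linarith
    rw [div_lt_iff₀ (by positivity)] at h1
    have h2 : b * (h ^ 2 * A) ≤ b ^ 2 * (h ^ 2 * A) := by
      refine mul_le_mul_of_nonneg_right ?_ (by positivity)
      nlinarith
    nlinarith
  obtain ⟨p, hp⟩ : ∃ p : ℝ → ℝ, p = fun x => η (x / b) := ⟨_, rfl⟩
  have hpc : ContDiff ℝ ∞ p := by
    rw [hp]; exact hηc.comp (contDiff_id.div_const b)
  have hps : ∀ x : ℝ, 2 * b < |x| → p x = 0 := by
    intro x hx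
    rw [hp]
    refine hηs _ ?_
    rw [abs_div, abs_of_pos hb0, lt_div_iff₀ hb0]
    exact hx
  have hpk : HasCompactSupport p := hcs_of_supp hps
  have hpd : ∀ x, deriv p x = deriv η (x / b) / b := by
    intro x
    have h1 : HasDerivAt η (deriv η (x / b)) (x / b) :=
      ((hηc.differentiable (by simp)) _).hasDerivAt
    have h2 := h1.comp x ((hasDerivAt_id x).div_const b)
    rw [hp]
    have h3 := h2.deriv
    rw [← mul_one_div]
    exact h3
  have hps' : ∀ x : ℝ, 2 * b < |x| → deriv p x = 0 := by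
    intro x hx
    have h1 : p =ᶠ[𝓝 x] fun _ => 0 := by
      have : {y : ℝ | 2 * b < |y|} ∈ 𝓝 x := (isOpen_lt continuous_const continuous_abs).mem_nhds hx
      filter_upwards [this] with y hy using hps y hy
    rw [h1.deriv_eq, deriv_const]
  have hpcd : ContDiff ℝ ∞ (deriv p) := by
    have := (contDiff_infty_iff_deriv).1 hpc
    exact this.2
  obtain ⟨P, hP⟩ : ∃ P : ℝ → ℂ, P = fun x => (p x : ℂ) := ⟨_, rfl⟩
  have hPc : ContDiff ℝ ∞ P := by rw [hP]; exact Complex.ofRealCLM.contDiff.comp hpc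
  have hPs : ∀ x : ℝ, 2 * b < |x| → P x = 0 := by
    intro x hx; rw [hP]; show (p x : ℂ) = 0; rw [hps x hx]; simp
  have hPk : HasCompactSupport P := hcs_of_supp hPs
  obtain ⟨D, hD⟩ : ∃ D : ℝ → ℂ, D = fun x => ((deriv p x : ℝ) : ℂ) := ⟨_, rfl⟩
  have hDc : ContDiff ℝ ∞ D := by rw [hD]; exact Complex.ofRealCLM.contDiff.comp hpcd
  have hDs : ∀ x : ℝ, 2 * b < |x| → D x = 0 := by
    intro x hx; rw [hD]; show ((deriv p x : ℝ) : ℂ) = 0; rw [hps' x hx]; simp
  have hDk : HasCompactSupport D := hcs_of_supp hDs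
  have hPD : deriv P = D := by rw [hP, hD]; exact deriv_ofReal p (hpc.differentiable (by simp))
  obtain ⟨φ, hφ⟩ : ∃ φ : ℝ → ℝ, φ = fun v => h ^ 2 * (∫ x : ℝ, p (x + v) * p x) -
    ∫ x : ℝ, deriv p (x + v) * deriv p x := ⟨_, rfl⟩
  have hφC : ∀ v, (φ v : ℂ) = (h : ℂ) ^ 2 * Co P P v - Co D D v := by
    intro v
    rw [hP, hD, co_real, co_real, hφ]
    push_cast
    rfl
  have c2 : ContDiff ℝ 2 (fun v => (h : ℂ) ^ 2 * Co P P v - Co D D v) :=
    (contDiff_const.mul (Co_contDiff (hPc.of_le two_le_inf) hPk hPc.continuous)).sub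
      (Co_contDiff (hDc.of_le two_le_inf) hDk hDc.continuous)
  have k2 : HasCompactSupport (fun v => (φ v : ℂ)) := by
    have e : (fun v => (φ v : ℂ)) = fun v => (h : ℂ) ^ 2 * Co P P v - Co D D v := funext hφC
    rw [e]
    have h1 : HasCompactSupport (fun v => (h : ℂ) ^ 2 * Co P P v) :=
      (Co_compact hPs hPs).mul_left
    have h2 : HasCompactSupport (Co D D) := Co_compact hDs hDs
    exact h1.sub h2
  refine ⟨φ, ?_, ?_, ?_, ?_, ?_⟩
  · have e : φ = fun v => ((h : ℂ) ^ 2 * Co P P v - Co D D v).re := by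
      funext v; rw [← hφC, Complex.ofReal_re]
    rw [e]
    exact Complex.reCLM.contDiff.comp c2
  · obtain ⟨R, hR⟩ := k2.isCompact.isBounded.exists_norm_le
    refine ⟨R, fun v hv => ?_⟩
    by_contra hne
    have hm : v ∈ tsupport (fun v => (φ v : ℂ)) := by
      refine subset_tsupport _ ?_
      rw [Function.mem_support]
      exact_mod_cast hne
    have := hR v hm
    rw [Real.norm_eq_abs] at this
    linarith
  · intro v
    rw [hφ]
    show h ^ 2 * (∫ x : ℝ, p (x + -v) * p x) - ∫ x : ℝ, deriv p (x + -v) * deriv p x = _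
    rw [co_even, co_even]
  · have e1 : ∫ x : ℝ, p (x + 0) * p x = b * A := by
      rw [hA]
      simp only [add_zero, hp]
      have := Measure.integral_comp_div (fun x : ℝ => η x * η x) b
      rw [this, abs_of_pos hb0, smul_eq_mul]
    have e2 : ∫ x : ℝ, deriv p (x + 0) * deriv p x = B / b := by
      rw [hB]
      simp only [add_zero, hpd]
      have e3 : ∀ x : ℝ, deriv η (x / b) / b * (deriv η (x / b) / b) =
          (1 / b ^ 2) * (deriv η (x / b) * deriv η (x / b)) := fun x => by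
        field_simp
      simp_rw [e3]
      rw [integral_const_mul]
      have := Measure.integral_comp_div (fun x : ℝ => deriv η x * deriv η x) b
      rw [this, abs_of_pos hb0, smul_eq_mul]
      field_simp
    rw [hφ]
    show 0 < h ^ 2 * (∫ x : ℝ, p (x + 0) * p x) - ∫ x : ℝ, deriv p (x + 0) * deriv p x
    rw [e1, e2, sub_pos, div_lt_iff₀ hb0]
    calc B < h ^ 2 * b ^ 2 * A := hbB
      _ = h ^ 2 * (b * A) * b := by ring
  · intro r
    refine ⟨‖lap P (I * r)‖ ^ 2, by positivity, ?_⟩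
    have e : (fun v => (φ v : ℂ)) = fun v => (h : ℂ) ^ 2 * Co P P v - Co D D v := funext hφC
    rw [e]
    have hlin : lap (fun v => (h : ℂ) ^ 2 * Co P P v - Co D D v) (I * r) =
        (h : ℂ) ^ 2 * lap (Co P P) (I * r) - lap (Co D D) (I * r) := by
      unfold lap
      have i1 : Integrable fun u : ℝ => Co P P u * cexp (I * r * u) := by
        refine Continuous.integrable_of_hasCompactSupport ?_ (Co_compact hPs hPs).mul_right
        exact (Co_contDiff (hPc.of_le two_le_inf) hPk hPc.continuous).continuous.mul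
          (by fun_prop)
      have i2 : Integrable fun u : ℝ => Co D D u * cexp (I * r * u) := by
        refine Continuous.integrable_of_hasCompactSupport ?_ (Co_compact hDs hDs).mul_right
        exact (Co_contDiff (hDc.of_le two_le_inf) hDk hDc.continuous).continuous.mul
          (by fun_prop)
      rw [← integral_const_mul, ← integral_sub (i1.const_mul _) i2]
      congr 1
      funext u
      ring
    rw [hlin, lap_Co hPc.continuous hPk hPc.continuous hPk,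
      lap_Co hDc.continuous hDk hDc.continuous hDk, ← hPD,
      lap_parts (hPc.of_le one_le_inf) hPk,
      lap_parts (hPc.of_le one_le_inf) hPk]
    have e4 : lap P (-(I * r)) = conj (lap P (I * r)) := by rw [hP]; exact lap_real r
    rw [e4]
    have e5 : lap P (I * r) * conj (lap P (I * r)) = ((‖lap P (I * r)‖ ^ 2 : ℝ) : ℂ) := by
      rw [Complex.mul_conj']
      push_cast; rfl
    have hI : (I : ℂ) ^ 2 = -1 := Complex.I_sq
    push_cast at e5 ⊢
    linear_combination ((h : ℂ) ^ 2 - (r : ℂ) ^ 2) * e5 +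
      (r : ℂ) ^ 2 * (lap P (I * r) * conj (lap P (I * r))) * hI

/-! ## the modulated test function -/

/-- the modulated test function -/
def G (φ : ℝ → ℝ) (t : ℝ) (v : ℝ) : ℂ := (φ v : ℂ) * cexp (-(I * t * v))

theorem G_contDiff {φ : ℝ → ℝ} (hφ : ContDiff ℝ 2 φ) (t : ℝ) : ContDiff ℝ 2 (G φ t) := by
  unfold G
  refine (Complex.ofRealCLM.contDiff.comp hφ).mul ?_
  refine ContDiff.cexp ?_
  exact (contDiff_const.mul Complex.ofRealCLM.contDiff).neg

theorem G_compact {φ : ℝ → ℝ} {b : ℝ} (hb : ∀ v, b < |v| → φ v = 0) (t : ℝ) :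
    HasCompactSupport (G φ t) := by
  refine hcs_of_supp (b := b) fun v hv => ?_
  unfold G
  rw [hb v hv]; simp

theorem lap_G (φ : ℝ → ℝ) (t r : ℝ) :
    lap (G φ t) (I * r) = lap (fun v => (φ v : ℂ)) (I * ((r - t : ℝ) : ℂ)) := by
  unfold lap G
  congr 1
  funext u
  rw [mul_assoc, ← Complex.exp_add]
  congr 2
  push_cast
  ring

theorem G_add {φ : ℝ → ℝ} (he : ∀ v, φ (-v) = φ v) (t v : ℝ) :
    G φ t v + G φ t (-v) = ((2 * (φ v * Real.cos (t * v)) : ℝ) : ℂ) := by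
  unfold G
  rw [he]
  push_cast
  rw [Complex.cos]
  have e1 : -(I * (t : ℂ) * -(v : ℂ)) = (t : ℂ) * v * I := by ring
  have e2 : -(I * (t : ℂ) * (v : ℂ)) = -((t : ℂ) * v) * I := by ring
  rw [e1, e2]
  ring

theorem WW_real (g : ℝ → ℂ) (k : ℝ → ℝ) (h2 : ∀ v, g v + g (-v) = ((2 * k v : ℝ) : ℂ))
    (h0 : g 0 = (k 0 : ℂ)) : WW g = ((2 * (∫ v in Ioi (0 : ℝ), k v * Real.exp (v / 2)) -
    2 * (∑' n : ℕ, ArithmeticFunction.vonMangoldt n / Real.sqrt n * k (Real.log n)) -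
    (Real.eulerMascheroniConstant + Real.log Real.pi) * k 0 +
    ∑' n : ℕ, (k 0 / ((n : ℝ) + 1) - ∫ v in Ioi (0 : ℝ), (2 * k v) *
      Real.exp (-(2 * ((n : ℝ) + 1) + 1 / 2) * v)) : ℝ) : ℂ) := by
  unfold WW
  simp_rw [h2, h0]
  have e1 : ∀ f : ℝ → ℝ, ∫ v in Ioi (0 : ℝ), ((2 * k v : ℝ) : ℂ) * ((f v : ℝ) : ℂ) =
      ((∫ v in Ioi (0 : ℝ), (2 * k v) * f v : ℝ) : ℂ) := by
    intro f
    rw [← integral_complex_ofReal]
    congr 1
    funext v
    push_cast
    rfl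
  rw [e1 fun v => Real.exp (v / 2)]
  have e2 : ∀ n : ℕ, ∫ v in Ioi (0 : ℝ), ((2 * k v : ℝ) : ℂ) *
      ((Real.exp (-(2 * ((n : ℝ) + 1) + 1 / 2) * v) : ℝ) : ℂ) =
      ((∫ v in Ioi (0 : ℝ), (2 * k v) *
        Real.exp (-(2 * ((n : ℝ) + 1) + 1 / 2) * v) : ℝ) : ℂ) := fun n =>
    e1 fun v => Real.exp (-(2 * ((n : ℝ) + 1) + 1 / 2) * v)
  simp_rw [e2]
  push_cast
  congr 1
  congr 1
  congr 1
  · rw [← Complex.ofReal_ofNat, ← Complex.ofReal_mul, ← integral_const_mul]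
    congr 1
    refine integral_congr_ae (Filter.Eventually.of_forall fun v => ?_)
    show 2 * k v * Real.exp (v / 2) = 2 * (k v * Real.exp (v / 2))
    ring
  · rw [← tsum_mul_left]
    refine tsum_congr fun n => ?_
    ring

/-! ## the archimedean terms -/

theorem integ_k {k : ℝ → ℝ} (hk : Continuous k) (hc : HasCompactSupport k) (f : ℝ → ℝ)
    (hf : Continuous f) : Integrable (fun v => (2 * k v) * f v) (volume.restrict (Ioi (0 : ℝ))) := by
  refine Integrable.integrableOn ?_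
  refine Continuous.integrable_of_hasCompactSupport ?_ ?_
  · exact (continuous_const.mul hk).mul hf
  · exact (hc.mul_left (f := fun _ => (2 : ℝ))).mul_right

theorem term_le {k : ℝ → ℝ} (hk : Continuous k) (hc : HasCompactSupport k) {M : ℝ} (hM : 0 ≤ M)
    (hl : ∀ v, 0 ≤ v → |k v - k 0| ≤ M * v) (n : ℕ) :
    |k 0 / ((n : ℝ) + 1) - ∫ v in Ioi (0 : ℝ), (2 * k v) *
      Real.exp (-(2 * ((n : ℝ) + 1) + 1 / 2) * v)| ≤ (|k 0| + M) * (1 / ((n : ℝ) + 1) ^ 2) := by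
  obtain ⟨N, hN⟩ : ∃ N : ℝ, N = (n : ℝ) + 1 := ⟨_, rfl⟩
  have hN0 : 0 < N := by rw [hN]; positivity
  rw [← hN]
  obtain ⟨a, ha⟩ : ∃ a : ℝ, a = 2 * N + 1 / 2 := ⟨_, rfl⟩
  have ha0 : 0 < a := by rw [ha]; positivity
  have haN : 2 * N ≤ a := by rw [ha]; linarith
  rw [← ha]
  have iI := integ_k hk hc (fun v => Real.exp (-a * v)) (by fun_prop)
  obtain ⟨j1, k1⟩ := int1 ha0
  obtain ⟨j2, k2⟩ := int2 ha0
  have e1 : ∫ v in Ioi (0 : ℝ), (2 * k v) * Real.exp (-a * v) =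
      2 * k 0 / a + ∫ v in Ioi (0 : ℝ), 2 * (k v - k 0) * Real.exp (-a * v) := by
    have h1 : ∀ v : ℝ, 2 * (k v - k 0) * Real.exp (-a * v) =
        (2 * k v) * Real.exp (-a * v) - 2 * k 0 * Real.exp (-a * v) := fun v => by ring
    simp_rw [h1]
    rw [integral_sub iI (j1.const_mul (2 * k 0)), integral_const_mul, k1]
    ring
  have e2 : |∫ v in Ioi (0 : ℝ), 2 * (k v - k 0) * Real.exp (-a * v)| ≤
      2 * M * (1 / a ^ 2) := by
    rw [← k2, ← integral_const_mul, ← Real.norm_eq_abs]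
    refine norm_integral_le_of_norm_le (j2.const_mul (2 * M)) ?_
    refine (ae_restrict_iff' measurableSet_Ioi).2 (Filter.Eventually.of_forall fun v hv => ?_)
    have hv0 : 0 ≤ v := le_of_lt hv
    have h1 := hl v hv0
    rw [norm_mul, norm_mul, Real.norm_eq_abs, Real.norm_eq_abs, Real.norm_eq_abs, abs_two,
      Real.abs_exp]
    have h3 := Real.exp_pos (-a * v)
    nlinarith
  have e3 : k 0 / N - (2 * k 0 / a + ∫ v in Ioi (0 : ℝ), 2 * (k v - k 0) * Real.exp (-a * v)) =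
      k 0 * (1 / 2) / (N * a) - ∫ v in Ioi (0 : ℝ), 2 * (k v - k 0) * Real.exp (-a * v) := by
    have : k 0 / N - 2 * k 0 / a = k 0 * (1 / 2) / (N * a) := by
      rw [div_sub_div _ _ hN0.ne' ha0.ne']
      congr 1
      rw [ha]
      ring
    rw [← this]
    ring
  rw [e1, e3]
  have e4 : |k 0 * (1 / 2) / (N * a)| ≤ |k 0| * (1 / (4 * N ^ 2)) := by
    rw [abs_div, abs_mul, abs_of_pos (show (0 : ℝ) < N * a by positivity),
      abs_of_pos (show (0 : ℝ) < 1 / 2 by norm_num)]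
    calc |k 0| * (1 / 2) / (N * a) ≤ |k 0| * (1 / 2) / (N * (2 * N)) := by gcongr
      _ = |k 0| * (1 / (4 * N ^ 2)) := by
          field_simp
          ring
  have e5 : 2 * M * (1 / a ^ 2) ≤ 2 * M * (1 / (4 * N ^ 2)) := by
    have : 4 * N ^ 2 ≤ a ^ 2 := by nlinarith
    gcongr
  have e6 : ∀ x : ℝ, x * (1 / (4 * N ^ 2)) = x * (1 / N ^ 2) / 4 := by
    intro x
    field_simp
  have e7 : 0 ≤ |k 0| * (1 / N ^ 2) := by positivity
  have e8 : 0 ≤ M * (1 / N ^ 2) := by positivity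
  calc _ ≤ |k 0 * (1 / 2) / (N * a)| +
        |∫ v in Ioi (0 : ℝ), 2 * (k v - k 0) * Real.exp (-a * v)| := abs_sub _ _
    _ ≤ |k 0| * (1 / (4 * N ^ 2)) + 2 * M * (1 / (4 * N ^ 2)) := add_le_add e4 (e2.trans e5)
    _ ≤ (|k 0| + M) * (1 / N ^ 2) := by
        rw [e6, e6, add_mul]
        linarith

theorem term_ge {k : ℝ → ℝ} (hk : Continuous k) (hc : HasCompactSupport k) {M : ℝ} (hM : 0 ≤ M)
    (h0 : 0 ≤ k 0) (hl : ∀ v, 0 ≤ v → k v ≤ k 0 + M * v) (n : ℕ) :
    -(M * (1 / ((n : ℝ) + 1) ^ 2)) ≤ k 0 / ((n : ℝ) + 1) - ∫ v in Ioi (0 : ℝ), (2 * k v) *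
      Real.exp (-(2 * ((n : ℝ) + 1) + 1 / 2) * v) := by
  obtain ⟨N, hN⟩ : ∃ N : ℝ, N = (n : ℝ) + 1 := ⟨_, rfl⟩
  have hN0 : 0 < N := by rw [hN]; positivity
  rw [← hN]
  obtain ⟨a, ha⟩ : ∃ a : ℝ, a = 2 * N + 1 / 2 := ⟨_, rfl⟩
  have ha0 : 0 < a := by rw [ha]; positivity
  have haN : 2 * N ≤ a := by rw [ha]; linarith
  rw [← ha]
  have iI := integ_k hk hc (fun v => Real.exp (-a * v)) (by fun_prop)
  obtain ⟨j1, k1⟩ := int1 ha0
  obtain ⟨j2, k2⟩ := int2 ha0
  have e1 : ∫ v in Ioi (0 : ℝ), (2 * k v) * Real.exp (-a * v) ≤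
      2 * k 0 * (1 / a) + 2 * M * (1 / a ^ 2) := by
    rw [← k1, ← k2, ← integral_const_mul, ← integral_const_mul,
      ← integral_add (j1.const_mul _) (j2.const_mul _)]
    refine setIntegral_mono_on iI ((j1.const_mul _).add (j2.const_mul _)) measurableSet_Ioi
      fun v hv => ?_
    have hv0 : 0 ≤ v := le_of_lt hv
    have h1 := hl v hv0
    have h3 := Real.exp_pos (-a * v)
    nlinarith
  have e2 : 2 * k 0 * (1 / a) ≤ k 0 / N := by
    rw [mul_one_div, div_le_div_iff₀ ha0 hN0]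
    nlinarith
  have e3 : 2 * M * (1 / a ^ 2) ≤ M * (1 / N ^ 2) := by
    have h4 : 4 * N ^ 2 ≤ a ^ 2 := by nlinarith
    have h5 : 1 / a ^ 2 ≤ 1 / (4 * N ^ 2) := one_div_le_one_div_of_le (by positivity) h4
    have h6 : 1 / (4 * N ^ 2) = 1 / N ^ 2 / 4 := by field_simp
    have h7 : 0 < 1 / N ^ 2 := by positivity
    nlinarith
  linarith

/-- Riemann-Lebesgue -/
theorem rl {F : ℝ → ℝ} (hF : IntegrableOn F (Ioi 0)) :
    Tendsto (fun t : ℝ => ∫ v in Ioi (0 : ℝ), F v * Real.cos (t * v)) atTop (𝓝 0) := by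
  have h := Real.tendsto_integral_exp_smul_cocompact
    ((Ioi (0 : ℝ)).indicator fun v => (F v : ℂ))
  have h1 : Tendsto (fun t : ℝ => t / (2 * Real.pi)) atTop (cocompact ℝ) :=
    (tendsto_id.atTop_div_const (by positivity)).mono_right atTop_le_cocompact
  have h2 := h.comp h1
  have h3 : Tendsto (fun z : ℂ => z.re) (𝓝 0) (𝓝 0) := by
    have := Complex.continuous_re.tendsto 0
    simpa using this
  have h4 := h3.comp h2
  refine h4.congr fun t => ?_
  simp only [Function.comp]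
  have hFc : Integrable (fun v : ℝ => ((Ioi (0 : ℝ)).indicator (fun v => (F v : ℂ)) v)) := by
    rw [integrable_indicator_iff measurableSet_Ioi]
    exact hF.ofReal
  have e1 : (fun v : ℝ => 𝐞 (-(v * (t / (2 * Real.pi)))) •
      (Ioi (0 : ℝ)).indicator (fun v => (F v : ℂ)) v) =
      (Ioi (0 : ℝ)).indicator (fun v : ℝ => 𝐞 (-(v * (t / (2 * Real.pi)))) • (F v : ℂ)) := by
    funext v
    by_cases hv : v ∈ Ioi (0 : ℝ)
    · rw [Set.indicator_of_mem hv, Set.indicator_of_mem hv]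
    · rw [Set.indicator_of_notMem hv, Set.indicator_of_notMem hv, smul_zero]
  have e2 : ∀ v : ℝ, 𝐞 (-(v * (t / (2 * Real.pi)))) • (F v : ℂ) =
      cexp (((-(t * v) : ℝ) : ℂ) * I) * (F v : ℂ) := by
    intro v
    rw [Circle.smul_def, Real.fourierChar_apply, smul_eq_mul]
    congr 3
    have : Real.pi ≠ 0 := Real.pi_ne_zero
    push_cast
    field_simp
  rw [e1, integral_indicator measurableSet_Ioi]
  simp_rw [e2]
  have i1 : Integrable (fun v : ℝ => cexp (((-(t * v) : ℝ) : ℂ) * I) * (F v : ℂ))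
      (volume.restrict (Ioi 0)) := by
    refine (hF.ofReal (𝕜 := ℂ)).bdd_mul (c := 1) (by fun_prop) ?_
    refine Filter.Eventually.of_forall fun v => ?_
    rw [Complex.norm_exp_ofReal_mul_I]
  have e3 := integral_re (𝕜 := ℂ) i1
  have e4 : ∀ v : ℝ, RCLike.re (cexp (((-(t * v) : ℝ) : ℂ) * I) * (F v : ℂ)) =
      F v * Real.cos (t * v) := by
    intro v
    show (cexp (((-(t * v) : ℝ) : ℂ) * I) * (F v : ℂ)).re = _
    rw [Complex.re_mul_ofReal, Complex.exp_ofReal_mul_I_re, Real.cos_neg]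
    ring
  simp_rw [e4] at e3
  exact e3.symm

theorem lipk {φ : ℝ → ℝ} (hφ : ContDiff ℝ 2 φ) (hc : HasCompactSupport φ) :
    ∃ M : ℝ, 0 ≤ M ∧ ∀ v, 0 ≤ v → |φ v - φ 0| ≤ M * v := by
  obtain ⟨M, hM⟩ := hc.deriv.exists_bound_of_continuous (hφ.continuous_deriv (by norm_num))
  refine ⟨M, (norm_nonneg _).trans (hM 0), fun v hv => ?_⟩
  have h := Convex.norm_image_sub_le_of_norm_deriv_le (f := φ) (C := M) (s := univ) (x := 0)
    (y := v) (fun x _ => (hφ.differentiable (by norm_num)) x) (fun x _ => hM x) convex_univ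
    (mem_univ _) (mem_univ _)
  rwa [sub_zero, Real.norm_of_nonneg hv, Real.norm_eq_abs] at h

theorem growth {φ : ℝ → ℝ} (hφ : ContDiff ℝ 2 φ) {b : ℝ} (hb : ∀ v, b < |v| → φ v = 0)
    (he : ∀ v, φ (-v) = φ v) (h0 : 0 < φ 0) (B : ℝ) :
    ∃ T : ℝ, ∀ t : ℝ, T ≤ t → B ≤ (WW (G φ t)).re := by
  have hc : HasCompactSupport φ := hcs_of_supp hb
  obtain ⟨M, hM, hl⟩ := lipk hφ hc
  -- the modulated functions
  have kc : ∀ t : ℝ, Continuous fun v => φ v * Real.cos (t * v) := fun t =>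
    hφ.continuous.mul (by fun_prop)
  have ks : ∀ t : ℝ, HasCompactSupport fun v => φ v * Real.cos (t * v) := fun t => hc.mul_right
  have hk0 : ∀ t : ℝ, φ 0 * Real.cos (t * 0) = φ 0 := fun t => by simp
  obtain ⟨τ, hτ⟩ : ∃ τ : ℕ → ℝ → ℝ, τ = fun (n : ℕ) (t : ℝ) => φ 0 / ((n : ℝ) + 1) -
      ∫ v in Ioi (0 : ℝ), (2 * (φ v * Real.cos (t * v))) *
        Real.exp (-(2 * ((n : ℝ) + 1) + 1 / 2) * v) := ⟨_, rfl⟩
  have hs2 : Summable fun n : ℕ => 1 / ((n : ℝ) + 1) ^ 2 := by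
    have h1 : Summable fun n : ℕ => 1 / ((n : ℝ)) ^ 2 :=
      Real.summable_one_div_nat_pow.2 (by norm_num)
    have h2 := (summable_nat_add_iff 1).2 h1
    refine h2.congr fun n => ?_
    push_cast
    rfl
  have hτs : ∀ t, Summable fun n => τ n t := by
    intro t
    have hl2 : ∀ v, 0 ≤ v → |φ v * Real.cos (t * v) - φ 0 * Real.cos (t * 0)| ≤
        (M + |φ 0| * |t|) * v := by
      intro v hv
      have e : φ v * Real.cos (t * v) - φ 0 * Real.cos (t * 0) =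
          (φ v - φ 0) * Real.cos (t * v) + φ 0 * (Real.cos (t * v) - 1) := by
        simp only [mul_zero, Real.cos_zero]; ring
      have h1 : |(φ v - φ 0) * Real.cos (t * v)| ≤ M * v := by
        rw [abs_mul]
        have := Real.abs_cos_le_one (t * v)
        have := hl v hv
        nlinarith [abs_nonneg (φ v - φ 0), abs_nonneg (Real.cos (t * v))]
      have h2 : |Real.cos (t * v) - 1| ≤ |t| * v := by
        have h3 := Real.abs_cos_sub_cos_le (t * v) 0
        rw [Real.cos_zero, sub_zero, abs_mul, abs_of_nonneg hv] at h3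
        exact h3
      rw [e]
      refine (abs_add_le _ _).trans ?_
      rw [abs_mul (φ 0)]
      have := mul_le_mul_of_nonneg_left h2 (abs_nonneg (φ 0))
      nlinarith
    refine Summable.of_norm_bounded (hs2.mul_left (|φ 0 * Real.cos (t * 0)| +
      (M + |φ 0| * |t|))) fun n => ?_
    have h3 := term_le (k := fun v => φ v * Real.cos (t * v)) (kc t) (ks t)
      (M := M + |φ 0| * |t|) (by positivity) hl2 n
    rw [Real.norm_eq_abs, hτ]
    simp only [hk0] at h3 ⊢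
    exact h3
  have hτl : ∀ (n : ℕ) (t : ℝ), -(M * (1 / ((n : ℝ) + 1) ^ 2)) ≤ τ n t := by
    intro n t
    have h3 := term_ge (k := fun v => φ v * Real.cos (t * v)) (kc t) (ks t) hM
      (by simp only [hk0]; exact h0.le) (fun v hv => ?_) n
    · rw [hτ]
      simp only [hk0] at h3 ⊢
      exact h3
    · simp only [hk0]
      have h4 := abs_le.1 (hl v hv)
      have h5 := Real.abs_cos_le_one (t * v)
      have h6 : |φ v| ≤ φ 0 + M * v := by
        rw [abs_le]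
        constructor <;> linarith [h4.1, h4.2, mul_nonneg hM hv]
      calc φ v * Real.cos (t * v) ≤ |φ v * Real.cos (t * v)| := le_abs_self _
        _ = |φ v| * |Real.cos (t * v)| := abs_mul _ _
        _ ≤ (φ 0 + M * v) * 1 :=
          mul_le_mul h6 h5 (abs_nonneg _) (by linarith [mul_nonneg hM hv])
        _ = φ 0 + M * v := mul_one _
  have hτt : ∀ n, Tendsto (fun t => τ n t) atTop (𝓝 (φ 0 / ((n : ℝ) + 1))) := by
    intro n
    have h1 := rl (F := fun v => (2 * φ v) * Real.exp (-(2 * ((n : ℝ) + 1) + 1 / 2) * v))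
      (integ_k hφ.continuous hc _ (by fun_prop))
    have h2 := (tendsto_const_nhds (x := φ 0 / ((n : ℝ) + 1))).sub h1
    rw [sub_zero] at h2
    refine h2.congr fun t => ?_
    rw [hτ]
    show _ = φ 0 / ((n : ℝ) + 1) - _
    congr 1
    congr 1
    funext v
    ring
  -- bounds for the other terms
  obtain ⟨B1, hB1⟩ : ∃ B1 : ℝ, ∀ t : ℝ,
      -B1 ≤ 2 * ∫ v in Ioi (0 : ℝ), (φ v * Real.cos (t * v)) * Real.exp (v / 2) := by
    refine ⟨∫ v in Ioi (0 : ℝ), 2 * |φ v| * Real.exp (v / 2), fun t => ?_⟩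
    have hca : HasCompactSupport fun v => |φ v| := hc.norm
    have i1 := integ_k hφ.continuous.abs hca (fun v => Real.exp (v / 2)) (by fun_prop)
    rw [← integral_const_mul]
    have h1 : ‖∫ v in Ioi (0 : ℝ), 2 * ((φ v * Real.cos (t * v)) * Real.exp (v / 2))‖ ≤
        ∫ v in Ioi (0 : ℝ), 2 * |φ v| * Real.exp (v / 2) := by
      refine norm_integral_le_of_norm_le i1 (Filter.Eventually.of_forall fun v => ?_)
      rw [norm_mul, norm_mul, norm_mul, Real.norm_eq_abs, Real.norm_eq_abs, Real.norm_eq_abs,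
        Real.norm_eq_abs, abs_two, Real.abs_exp]
      have h5 := Real.abs_cos_le_one (t * v)
      have h6 : |φ v| * |Real.cos (t * v)| ≤ |φ v| := mul_le_of_le_one_right (abs_nonneg _) h5
      have h7 := mul_le_mul_of_nonneg_right h6 (Real.exp_pos (v / 2)).le
      linarith
    rw [Real.norm_eq_abs] at h1
    exact (abs_le.1 h1).1
  obtain ⟨B2, hB2⟩ : ∃ B2 : ℝ, ∀ t : ℝ,
      2 * ∑' n : ℕ, ArithmeticFunction.vonMangoldt n / Real.sqrt n *
        (φ (Real.log n) * Real.cos (t * Real.log n)) ≤ B2 := by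
    have hsupp : ∀ n : ℕ, n ∉ Finset.range (Nat.ceil (Real.exp |b|) + 1) →
        φ (Real.log n) = 0 := by
      intro n hn
      rw [Finset.mem_range, not_lt] at hn
      refine hb _ ?_
      have h1 : Real.exp |b| < n := by
        have h2 := Nat.le_ceil (Real.exp |b|)
        have h3 : ((Nat.ceil (Real.exp |b|) + 1 : ℕ) : ℝ) ≤ n := by exact_mod_cast hn
        push_cast at h3
        linarith
      have h2 : |b| < Real.log n := by
        rw [Real.lt_log_iff_exp_lt (lt_trans (Real.exp_pos _) h1)]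
        exact h1
      exact lt_of_le_of_lt (le_abs_self b) (lt_of_lt_of_le h2 (le_abs_self _))
    refine ⟨2 * ∑ n ∈ Finset.range (Nat.ceil (Real.exp |b|) + 1),
      ArithmeticFunction.vonMangoldt n / Real.sqrt n * |φ (Real.log n)|, fun t => ?_⟩
    rw [tsum_eq_sum (s := Finset.range (Nat.ceil (Real.exp |b|) + 1))
      (fun n hn => by rw [hsupp n hn]; ring)]
    refine mul_le_mul_of_nonneg_left (Finset.sum_le_sum fun n _ => ?_) (by norm_num)
    refine mul_le_mul_of_nonneg_left ?_ (div_nonneg ArithmeticFunction.vonMangoldt_nonneg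
      (Real.sqrt_nonneg _))
    refine (le_abs_self _).trans ?_
    rw [abs_mul]
    exact mul_le_of_le_one_right (abs_nonneg _) (Real.abs_cos_le_one _)
  obtain ⟨A3, hA3⟩ : ∃ A3 : ℝ, A3 = (Real.eulerMascheroniConstant + Real.log Real.pi) * φ 0 :=
    ⟨_, rfl⟩
  obtain ⟨S2, hS2⟩ : ∃ S2 : ℝ, S2 = ∑' n : ℕ, M * (1 / ((n : ℝ) + 1) ^ 2) := ⟨_, rfl⟩
  obtain ⟨N, hN⟩ : ∃ N : ℕ, B + B1 + B2 + A3 + S2 + 1 ≤
      ∑ n ∈ Finset.range N, φ 0 / ((n : ℝ) + 1) := by
    have h1 := Real.tendsto_sum_range_one_div_nat_succ_atTop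
    have h2 := h1.const_mul_atTop h0
    obtain ⟨N, hN⟩ := (h2.eventually (eventually_ge_atTop (B + B1 + B2 + A3 + S2 + 1))).exists
    refine ⟨N, hN.trans_eq ?_⟩
    rw [Finset.mul_sum]
    refine Finset.sum_congr rfl fun n _ => ?_
    ring
  have hlim : Tendsto (fun t => ∑ n ∈ Finset.range N, τ n t) atTop
      (𝓝 (∑ n ∈ Finset.range N, φ 0 / ((n : ℝ) + 1))) := tendsto_finsetSum _ fun n _ => hτt n
  have hev := hlim.eventually (eventually_ge_nhds
    (show ∑ n ∈ Finset.range N, φ 0 / ((n : ℝ) + 1) - 1 < ∑ n ∈ Finset.range N, φ 0 / ((n : ℝ) + 1)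
      by linarith))
  obtain ⟨T, hT⟩ := Filter.eventually_atTop.1 hev
  refine ⟨T, fun t ht => ?_⟩
  have h1 := hT t ht
  have hsm : Summable fun n : ℕ => M * (1 / ((n : ℝ) + 1) ^ 2) := hs2.mul_left M
  have h2 : ∑ n ∈ Finset.range N, τ n t - S2 ≤ ∑' n, τ n t := by
    have h3 : ∑ n ∈ Finset.range N, (τ n t + M * (1 / ((n : ℝ) + 1) ^ 2)) ≤
        ∑' n, (τ n t + M * (1 / ((n : ℝ) + 1) ^ 2)) :=
      ((hτs t).add hsm).sum_le_tsum _ fun n _ => by linarith [hτl n t]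
    rw [(hτs t).tsum_add hsm, ← hS2, Finset.sum_add_distrib] at h3
    have h4 : 0 ≤ ∑ n ∈ Finset.range N, M * (1 / ((n : ℝ) + 1) ^ 2) :=
      Finset.sum_nonneg fun n _ => by positivity
    linarith
  rw [WW_real (G φ t) (fun v => φ v * Real.cos (t * v)) (G_add he t) (by
    unfold G; simp), Complex.ofReal_re]
  have h5 := hB1 t
  have h6 := hB2 t
  have h7 : ∑' n : ℕ, (φ 0 * Real.cos (t * 0) / ((n : ℝ) + 1) -
      ∫ v in Ioi (0 : ℝ), (2 * (φ v * Real.cos (t * v))) *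
        Real.exp (-(2 * ((n : ℝ) + 1) + 1 / 2) * v)) = ∑' n, τ n t := by
    rw [hτ]
    simp only [hk0]
  rw [h7, hk0, ← hA3]
  linarith

/-- if there is no zero near `t` then the real part of the sum over the zeros is nonpositive -/
theorem neg_side (RH : RiemannHypothesis) {h : ℝ} {φ : ℝ → ℝ} (hφ : ContDiff ℝ 2 φ) {b : ℝ}
    (hb : ∀ v, b < |v| → φ v = 0)
    (hK : ∀ r : ℝ, ∃ K : ℝ, 0 ≤ K ∧
      lap (fun v => (φ v : ℂ)) (I * r) = (((h ^ 2 - r ^ 2) * K : ℝ) : ℂ)) (t : ℝ)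
    (hz : ∀ s : ℝ, riemannZeta (1 / 2 + s * I) = 0 → h ^ 2 ≤ (s - t) ^ 2) :
    (WW (G φ t)).re ≤ 0 := by
  have h1 := ef (G φ t) (G_contDiff hφ t) (G_compact hb t)
  have h2 := Complex.hasSum_re h1
  refine h2.nonpos fun ρ => ?_
  obtain ⟨ρ, hρ0, hρ1, hρ2⟩ := ρ
  have hre : ρ.re = 1 / 2 := by
    refine RH ρ hρ0 ?_ ?_
    · rintro ⟨n, hn⟩
      rw [hn] at hρ1
      have : (-2 * ((n : ℂ) + 1)).re = -2 * ((n : ℝ) + 1) := by simp
      rw [this] at hρ1
      have : (0 : ℝ) ≤ n := Nat.cast_nonneg n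
      linarith
    · intro h1
      rw [h1] at hρ2
      norm_num at hρ2
  have e1 : ρ = 1 / 2 + ρ.im * I := by
    apply Complex.ext
    · simp [hre]
    · simp
  have e2 : ρ - 1 / 2 = I * ((ρ.im : ℝ) : ℂ) := by
    rw [e1]; simp; ring
  show ((mult ρ : ℂ) * lap (G φ t) (ρ - 1 / 2)).re ≤ 0
  rw [e2, lap_G]
  obtain ⟨K, hK0, hKe⟩ := hK (ρ.im - t)
  rw [hKe]
  have h3 := hz ρ.im (by rw [← e1]; exact hρ0)
  have e3 : ((mult ρ : ℂ) * (((h ^ 2 - (ρ.im - t) ^ 2) * K : ℝ) : ℂ)).re =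
      (mult ρ : ℝ) * ((h ^ 2 - (ρ.im - t) ^ 2) * K) := by
    rw [← Complex.ofReal_natCast, ← Complex.ofReal_mul, Complex.ofReal_re]
  rw [e3]
  have h4 : (h ^ 2 - (ρ.im - t) ^ 2) * K ≤ 0 :=
    mul_nonpos_of_nonpos_of_nonneg (by linarith) hK0
  exact mul_nonpos_of_nonneg_of_nonpos (Nat.cast_nonneg _) h4

end

end Pool.Agent.H478.WM.GAP

namespace Pool.Agent.H478.WM

theorem t_GAP : S_GAP := by
  intro RH h hh
  obtain ⟨φ, hφ, ⟨b, hb⟩, he, h0, hK⟩ := GAP.exists_phi (h / 2) (by linarith)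
  obtain ⟨T, hT⟩ := GAP.growth hφ hb he h0 1
  refine ⟨max T 1, fun t ht => ?_⟩
  have hT1 : T ≤ t + h / 2 := by linarith [le_max_left T 1]
  have ht1 : 1 ≤ t := (le_max_right T 1).trans ht
  by_contra hcon
  push Not at hcon
  have h1 := hT (t + h / 2) hT1
  have h2 := GAP.neg_side RH hφ hb hK (t + h / 2) (fun s hs => ?_)
  · linarith
  · by_contra hlt
    push Not at hlt
    have h3 : |s - (t + h / 2)| < |h / 2| := sq_lt_sq.1 hlt
    rw [abs_of_pos (show (0 : ℝ) < h / 2 by linarith), abs_lt] at h3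
    have h4 := hcon s ⟨by linarith [h3.1], hs⟩ (by linarith [h3.1])
    linarith [h3.2]

end Pool.Agent.H478.WM
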