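import Pool.Agent.H478.WM.Stm

/-!
# Task GRID: a function which is small on a fine grid (helper289, for helper478)
-/

open Complex MeasureTheory Filter Topology Set
open scoped ContDiff

namespace Pool.Agent.H478.WM

namespace GRID

/-- Cauchy-Schwarz on an interval -/
lemma cs {g : ℝ → ℝ} (hg : Continuous g) {α β : ℝ} (hab : α < β) :
    (∫ x in α..β, g x) ^ 2 ≤ (β - α) * ∫ x in α..β, g x ^ 2 := by
  have hl : 0 < β - α := by linarith
  obtain ⟨c, hc⟩ : ∃ c : ℝ, c = (∫ x in α..β, g x) / (β - α) := ⟨_, rfl⟩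
  have h1 : 0 ≤ ∫ x in α..β, (g x - c) ^ 2 :=
    intervalIntegral.integral_nonneg hab.le fun x _ => sq_nonneg _
  have h2 : ∫ x in α..β, (g x - c) ^ 2 =
      (∫ x in α..β, g x ^ 2) - 2 * c * (∫ x in α..β, g x) + c ^ 2 * (β - α) := by
    have e : (fun x => (g x - c) ^ 2) = fun x => (g x ^ 2 - 2 * c * g x) + c ^ 2 := by
      funext x
      ring
    rw [e, intervalIntegral.integral_add, intervalIntegral.integral_sub,
      intervalIntegral.integral_const_mul, intervalIntegral.integral_const, smul_eq_mul,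
      mul_comm (β - α)]
    · exact (hg.pow 2).intervalIntegrable _ _
    · exact (continuous_const.mul hg).intervalIntegrable _ _
    · exact ((hg.pow 2).sub (continuous_const.mul hg)).intervalIntegrable _ _
    · exact continuous_const.intervalIntegrable _ _
  have h3 : c * (β - α) = ∫ x in α..β, g x := by
    rw [hc, div_mul_cancel₀ _ hl.ne']
  rw [h2] at h1
  rw [← h3] at h1 ⊢
  have h4 : 0 ≤ (∫ x in α..β, g x ^ 2) - c ^ 2 * (β - α) := by nlinarith
  have h5 : 0 ≤ (β - α) * ((∫ x in α..β, g x ^ 2) - c ^ 2 * (β - α)) := mul_nonneg hl.le h4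
  nlinarith

lemma pt {f : ℝ → ℂ} (hf : ContDiff ℝ 1 f) {α β s t : ℝ} (hs : s ∈ Icc α β) (ht : t ∈ Icc α β)
    (hab : α < β) :
    ‖f t‖ ^ 2 ≤ 2 * ‖f s‖ ^ 2 + 2 * (β - α) * ∫ x in α..β, ‖deriv f x‖ ^ 2 := by
  have hd : Continuous (deriv f) := hf.continuous_deriv le_rfl
  have hdiff : Differentiable ℝ f := hf.differentiable one_ne_zero
  have h1 : ∫ x in s..t, deriv f x = f t - f s :=
    intervalIntegral.integral_deriv_eq_sub (fun x _ => hdiff x) (hd.intervalIntegrable _ _)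
  have h2 : ‖f t - f s‖ ≤ ∫ x in α..β, ‖deriv f x‖ := by
    rw [← h1]
    refine intervalIntegral.norm_integral_le_abs_integral_norm.trans ?_
    have h3 : |∫ x in s..t, ‖deriv f x‖| ≤ |∫ x in α..β, ‖deriv f x‖| := by
      refine intervalIntegral.abs_integral_mono_interval ?_ ?_ (hd.norm.intervalIntegrable _ _)
      · rw [uIoc_of_le hab.le]
        intro x hx
        rw [uIoc, mem_Ioc] at hx
        exact ⟨lt_of_le_of_lt (le_min hs.1 ht.1) hx.1, hx.2.trans (max_le hs.2 ht.2)⟩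
      · exact Eventually.of_forall fun x => norm_nonneg _
    refine h3.trans (le_of_eq (abs_of_nonneg ?_))
    exact intervalIntegral.integral_nonneg hab.le fun x _ => norm_nonneg _
  have h4 := cs hd.norm hab
  have h5 : ‖f t‖ ≤ ‖f s‖ + ∫ x in α..β, ‖deriv f x‖ := by
    have e : f t = f s + (f t - f s) := by ring
    calc ‖f t‖ = ‖f s + (f t - f s)‖ := by rw [← e]
      _ ≤ ‖f s‖ + ‖f t - f s‖ := norm_add_le _ _
      _ ≤ _ := by linarith
  have h6 : 0 ≤ ‖f t‖ := norm_nonneg _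
  have h7 : ‖f t‖ ^ 2 ≤ (‖f s‖ + ∫ x in α..β, ‖deriv f x‖) ^ 2 := pow_le_pow_left₀ h6 h5 2
  nlinarith [sq_nonneg (‖f s‖ - ∫ x in α..β, ‖deriv f x‖)]

lemma step {f : ℝ → ℂ} (hf : ContDiff ℝ 1 f) {α β s : ℝ} (hs : s ∈ Icc α β) (hab : α < β) :
    ∫ t in α..β, ‖f t‖ ^ 2 ≤
      2 * (β - α) * ‖f s‖ ^ 2 + 2 * (β - α) ^ 2 * ∫ x in α..β, ‖deriv f x‖ ^ 2 := by
  have h1 : ∫ t in α..β, ‖f t‖ ^ 2 ≤ ∫ _t in α..β, (2 * ‖f s‖ ^ 2 +
      2 * (β - α) * ∫ x in α..β, ‖deriv f x‖ ^ 2) := by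
    refine intervalIntegral.integral_mono_on hab.le
      ((hf.continuous.norm.pow 2).intervalIntegrable _ _)
      (continuous_const.intervalIntegrable _ _) ?_
    intro t ht
    exact pt hf hs ht hab
  rw [intervalIntegral.integral_const, smul_eq_mul] at h1
  refine h1.trans (le_of_eq ?_)
  ring

end GRID

open GRID in
/-- **GRID.** -/
theorem t_GRID : S_GRID := by
  intro G T h f hh hG hf hf2 hd2 hs2
  have hd : Continuous (deriv f) := hf.continuous_deriv le_rfl
  choose! s hsG hs1 hs2' using hG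
  obtain ⟨α, hα⟩ : ∃ α : ℕ → ℝ, α = fun k : ℕ => T + 2 * (k : ℝ) * h := ⟨_, rfl⟩
  have hα0 : α 0 = T := by rw [hα]; simp
  have hα1 : ∀ k, α (k + 1) = α k + 2 * h := by
    intro k
    rw [hα]
    push_cast
    ring
  have hαT : ∀ k, T ≤ α k := by
    intro k
    rw [hα]
    have : 0 ≤ 2 * (k : ℝ) * h := by positivity
    show T ≤ T + 2 * k * h
    linarith
  -- the nodes
  have hσmono : StrictMono (fun k => s (α k)) := by
    refine strictMono_nat_of_lt_succ fun k => ?_
    have h1 := hs2' (α k) (hαT k)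
    have h2 := hs1 (α (k + 1)) (hαT (k + 1))
    rw [hα1] at h2 ⊢
    show s (α k) < s (α k + 2 * h)
    linarith
  have hsum : ∀ n : ℕ, ∑ k ∈ Finset.range n, ‖f (s (α k))‖ ^ 2 ≤ ∑' x : G, ‖f x‖ ^ 2 := by
    intro n
    let g : ℕ → G := fun k => ⟨s (α k), hsG _ (hαT k)⟩
    have hg : Function.Injective g := by
      intro a b hab
      exact hσmono.injective (congrArg Subtype.val hab)
    have h1 : ∑ k ∈ Finset.range n, ‖f (s (α k))‖ ^ 2 =
        ∑ x ∈ (Finset.range n).map ⟨g, hg⟩, ‖f (x : ℝ)‖ ^ 2 := by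
      rw [Finset.sum_map]
      rfl
    rw [h1]
    exact hs2.sum_le_tsum _ fun x _ => by positivity
  have key : ∀ n : ℕ, ∫ t in T..(α n), ‖f t‖ ^ 2 ≤
      4 * h * ∑ k ∈ Finset.range n, ‖f (s (α k))‖ ^ 2 +
        8 * h ^ 2 * ∫ t in T..(α n), ‖deriv f t‖ ^ 2 := by
    intro n
    induction n with
    | zero => rw [hα0]; simp
    | succ n ih =>
      have hI : ∀ (g : ℝ → ℝ), Continuous g → ∫ t in T..(α (n + 1)), g t =
          (∫ t in T..(α n), g t) + ∫ t in (α n)..(α (n + 1)), g t := by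
        intro g hg
        rw [intervalIntegral.integral_add_adjacent_intervals] <;>
          exact hg.intervalIntegrable _ _
      have hlt : α n < α (n + 1) := by rw [hα1]; linarith
      have h1 := step hf (α := α n) (β := α (n + 1)) (s := s (α n))
        ⟨hs1 _ (hαT n), by rw [hα1]; linarith [hs2' _ (hαT n)]⟩ hlt
      have h2 : α (n + 1) - α n = 2 * h := by rw [hα1]; ring
      rw [h2] at h1
      rw [hI (fun t => ‖f t‖ ^ 2) (hf.continuous.norm.pow 2),
        hI (fun t => ‖deriv f t‖ ^ 2) (hd.norm.pow 2), Finset.sum_range_succ]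
      nlinarith
  have hlim : Tendsto (fun n => ∫ t in T..(α n), ‖f t‖ ^ 2) atTop (𝓝 (∫ t in Ioi T, ‖f t‖ ^ 2)) := by
    refine intervalIntegral_tendsto_integral_Ioi T hf2.integrableOn ?_
    rw [hα]
    refine tendsto_atTop_add_const_left _ _ ?_
    refine Tendsto.atTop_mul_const hh ?_
    exact Tendsto.const_mul_atTop (by norm_num) tendsto_natCast_atTop_atTop
  refine le_of_tendsto' hlim fun n => (key n).trans ?_
  have h1 : ∫ t in T..(α n), ‖deriv f t‖ ^ 2 ≤ ∫ t : ℝ, ‖deriv f t‖ ^ 2 := by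
    rw [intervalIntegral.integral_of_le (hαT n)]
    exact setIntegral_le_integral hd2 (Eventually.of_forall fun x => by positivity)
  have h2 := hsum n
  have h3 : 0 ≤ 8 * h ^ 2 := by positivity
  exact add_le_add (mul_le_mul_of_nonneg_left h2 (by positivity)) (mul_le_mul_of_nonneg_left h1 h3)

end Pool.Agent.H478.WM
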