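import Pool.Agent.H478.WM.Stm
import Pool.Graph.R_pool_sql_team_seeded_1acbe0a2.Y818.FV.LOGD

set_option autoImplicit false

/-!
# Hadamard's factorisation for even entire functions of order less than two
-/

open Complex MeasureTheory Filter Topology Set Metric

namespace Pool.Agent.H478.WM

namespace HADN

/-- division of an entire function by a quadratic factor -/
theorem div_quad {F : ℂ → ℂ} (hF : Differentiable ℂ F) {z0 : ℂ} (h0 : z0 ≠ 0) (h1 : F z0 = 0)
    (h2 : F (-z0) = 0) (v : ℂ) (hv : v * z0 ^ 2 = 1) :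
    ∃ H : ℂ → ℂ, Differentiable ℂ H ∧ ∀ z, F z = (1 - v * z ^ 2) * H z := by
  have hG : Differentiable ℂ (dslope F z0) := fun z =>
    (differentiableOn_dslope (s := univ) univ_mem).2 hF.differentiableOn |>.differentiableAt
      univ_mem
  have e1 : ∀ z, F z = (z - z0) * dslope F z0 z := by
    intro z
    have := sub_smul_dslope F z0 z
    rw [h1, sub_zero, smul_eq_mul] at this
    exact this.symm
  have h3 : dslope F z0 (-z0) = 0 := by
    have := e1 (-z0)
    rw [h2] at this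
    rcases mul_eq_zero.1 this.symm with h | h
    · exfalso
      apply h0
      have : (2 : ℂ) * z0 = 0 := by linear_combination -h
      exact (mul_eq_zero.1 this).resolve_left two_ne_zero
    · exact h
  set G := dslope F z0 with hGdef
  have hH : Differentiable ℂ (dslope G (-z0)) := fun z =>
    (differentiableOn_dslope (s := univ) univ_mem).2 hG.differentiableOn |>.differentiableAt
      univ_mem
  have e2 : ∀ z, G z = (z - -z0) * dslope G (-z0) z := by
    intro z
    have := sub_smul_dslope G (-z0) z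
    rw [h3, sub_zero, smul_eq_mul] at this
    exact this.symm
  refine ⟨fun z => -(z0 ^ 2) * dslope G (-z0) z, hH.const_mul _, fun z => ?_⟩
  rw [e1, e2]
  linear_combination (-z ^ 2 * dslope G (-z0) z) * hv

/-- the finite products divide the function -/
theorem div_prod {f : ℂ → ℂ} {v : ℕ → ℝ} (hf : Differentiable ℂ f) (hv : ∀ n, 0 ≤ v n)
    (hinj : ∀ m n, v m ≠ 0 → v m = v n → m = n)
    (hz : ∀ z, f z = 0 ↔ ∃ n, v n ≠ 0 ∧ (v n : ℂ) * z ^ 2 = 1) (S : Finset ℕ)
    (hS : ∀ n ∈ S, v n ≠ 0) :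
    ∃ F : ℂ → ℂ, Differentiable ℂ F ∧ ∀ z, f z = (∏ n ∈ S, (1 - (v n : ℂ) * z ^ 2)) * F z := by
  classical
  induction S using Finset.induction_on with
  | empty => exact ⟨f, hf, fun z => by rw [Finset.prod_empty, one_mul]⟩
  | insert m S hm ih =>
    obtain ⟨F, hF, hfF⟩ := ih fun n hn => hS n (Finset.mem_insert_of_mem hn)
    have hvm : v m ≠ 0 := hS m (Finset.mem_insert_self _ _)
    have hvmp : 0 < v m := lt_of_le_of_ne (hv m) hvm.symm
    set z0 : ℂ := ((1 / Real.sqrt (v m) : ℝ) : ℂ) with hz0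
    have hs : 0 < Real.sqrt (v m) := Real.sqrt_pos.2 hvmp
    have hz0ne : z0 ≠ 0 := by
      rw [hz0]
      exact_mod_cast (by positivity : (1 / Real.sqrt (v m)) ≠ 0)
    have hz02 : (v m : ℂ) * z0 ^ 2 = 1 := by
      rw [hz0]
      have : v m * (1 / Real.sqrt (v m)) ^ 2 = 1 := by
        rw [div_pow, one_pow, Real.sq_sqrt hvmp.le]
        field_simp
      exact_mod_cast this
    have hz02' : (v m : ℂ) * (-z0) ^ 2 = 1 := by rw [neg_sq]; exact hz02
    have hP : ∀ z : ℂ, (v m : ℂ) * z ^ 2 = 1 → ∏ n ∈ S, (1 - (v n : ℂ) * z ^ 2) ≠ 0 := by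
      intro z hz'
      rw [Finset.prod_ne_zero_iff]
      intro n hn h
      have h1 : (v n : ℂ) * z ^ 2 = 1 := by linear_combination -h
      have h2 : z ^ 2 ≠ 0 := by
        intro h3
        rw [h3, mul_zero] at h1
        exact zero_ne_one h1
      have h4 : (v n : ℂ) = v m := mul_right_cancel₀ h2 (h1.trans hz'.symm)
      have h5 : v n = v m := by exact_mod_cast h4
      have h6 := hinj m n hvm h5.symm
      exact hm (h6 ▸ hn)
    have h1 : F z0 = 0 := by
      have := hfF z0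
      rw [(hz z0).2 ⟨m, hvm, hz02⟩] at this
      exact (mul_eq_zero.1 this.symm).resolve_left (hP z0 hz02)
    have h2 : F (-z0) = 0 := by
      have := hfF (-z0)
      rw [(hz (-z0)).2 ⟨m, hvm, hz02'⟩] at this
      exact (mul_eq_zero.1 this.symm).resolve_left (hP (-z0) hz02')
    obtain ⟨H, hH, hFH⟩ := div_quad hF hz0ne h1 h2 (v m) hz02
    refine ⟨H, hH, fun z => ?_⟩
    rw [hfF z, hFH z, Finset.prod_insert hm]
    ring

/-- derivative of a function of `z ^ 2` at the origin -/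
theorem deriv_even {f : ℂ → ℂ} (hf : Differentiable ℂ f) (he : ∀ z, f (-z) = f z) :
    deriv f 0 = 0 := by
  have h1 : HasDerivAt (fun z : ℂ => f (-z)) (deriv f (-0) * (-1)) 0 := by
    have h2 : HasDerivAt f (deriv f (-0)) (-0) := (hf (-0)).hasDerivAt
    exact h2.comp (0 : ℂ) (hasDerivAt_neg (0 : ℂ))
  have e : (fun z : ℂ => f (-z)) = f := funext he
  rw [e, neg_zero] at h1
  have h3 := h1.unique (hf 0).hasDerivAt
  have : (2 : ℂ) * deriv f 0 = 0 := by linear_combination -h3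
  exact (mul_eq_zero.1 this).resolve_left two_ne_zero

/-- a zero-free function with small logarithmic derivative is close to one -/
theorem close_one {F : ℂ → ℂ} (hF : Differentiable ℂ F) (h0 : F 0 = 1) (hd : deriv F 0 = 0)
    {ρ M : ℝ} (hρ : 0 < ρ) (hnz : ∀ u ∈ ball (0 : ℂ) ρ, F u ≠ 0)
    (hb : ∀ w ∈ ball (0 : ℂ) ρ, ‖F w‖ ≤ Real.exp M) {z : ℂ} (hz : ‖z‖ ≤ ρ / 8) :
    ∃ ℓ : ℂ, F z = cexp ℓ ∧ ‖ℓ‖ ≤ 128 * (M - 0 + 1) / ρ ^ 2 * ‖z‖ ^ 2 := by
  have hg : DifferentiableOn ℂ (fun z => deriv F z / F z) (ball 0 ρ) := by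
    refine DifferentiableOn.div ?_ hF.differentiableOn hnz
    exact (hF.contDiff (n := 2)).differentiable_deriv_two.differentiableOn
  obtain ⟨L0, hL0⟩ := hg.isExactOn_ball
  obtain ⟨L, hLdef⟩ : ∃ L : ℂ → ℂ, L = fun z => L0 z - L0 0 := ⟨_, rfl⟩
  have hL : ∀ z ∈ ball (0 : ℂ) ρ, HasDerivAt L (deriv F z / F z) z := fun z hz => by
    rw [hLdef]
    exact (hL0 z hz).sub_const _
  have hLz : L 0 = 0 := by simp [hLdef]
  have hconst : ∀ z ∈ ball (0 : ℂ) ρ, F z * cexp (-L z) = F 0 := by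
    intro z hz
    have hd : ∀ x ∈ ball (0 : ℂ) ρ, HasDerivAt (fun y => F y * cexp (-L y)) 0 x := by
      intro x hx
      have h1 := (hF x).hasDerivAt.mul ((hL x hx).neg.cexp)
      have e : deriv F x * cexp (-L x) + F x * (cexp (-L x) * -(deriv F x / F x)) = 0 := by
        have hx' := hnz x hx
        field_simp
        ring
      have h1' : HasDerivAt (fun y => F y * cexp (-L y))
        (deriv F x * cexp (-L x) + F x * (cexp (-L x) * -(deriv F x / F x))) x := h1
      rwa [e] at h1'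
    have h2 := (convex_ball (0 : ℂ) ρ).is_const_of_fderivWithin_eq_zero (𝕜 := ℂ)
      (f := fun y => F y * cexp (-L y))
      (fun x hx => (hd x hx).differentiableAt.differentiableWithinAt) (by
        intro x hx
        rw [((hd x hx).hasFDerivAt.hasFDerivWithinAt (s := ball (0 : ℂ) ρ)).fderivWithin
          (isOpen_ball.uniqueDiffWithinAt hx)]
        ext
        simp) hz (mem_ball_self hρ)
    simpa [hLz] using h2
  have hzb : z ∈ ball (0 : ℂ) ρ := by
    rw [mem_ball_zero_iff]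
    linarith [norm_nonneg z]
  refine ⟨L z, ?_, ?_⟩
  · have h1 := hconst z hzb
    rw [h0] at h1
    calc F z = F z * cexp (-L z) * cexp (L z) := by
          rw [mul_assoc, ← Complex.exp_add, neg_add_cancel, Complex.exp_zero, mul_one]
      _ = cexp (L z) := by rw [h1, one_mul]
  · have hld0 : logDeriv F 0 = 0 := by rw [logDeriv_apply, hd, zero_div]
    have h1 : ∀ w ∈ closedBall (0 : ℂ) ‖z‖, ‖deriv L w‖ ≤ 128 * (M - 0 + 1) / ρ ^ 2 * ‖z‖ := by
      intro w hw
      rw [mem_closedBall_zero_iff] at hw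
      have hwb : w ∈ ball (0 : ℂ) ρ := by
        rw [mem_ball_zero_iff]
        linarith [norm_nonneg z]
      have h2 := Pool.Agent.Y818.FV.logd_free hF hρ hnz hb (w := w) (w' := 0) (by linarith)
        (by rw [norm_zero]; positivity)
      rw [hld0, sub_zero, sub_zero, h0, norm_one, Real.log_one] at h2
      have h3 : 0 ≤ 128 * (M - 0 + 1) / ρ ^ 2 := by
        have h4 := hb 0 (mem_ball_self hρ)
        rw [h0, norm_one] at h4
        have h5 : 0 ≤ M := by
          by_contra hc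
          push Not at hc
          have := Real.exp_lt_exp.2 hc
          rw [Real.exp_zero] at this
          linarith
        have : 0 ≤ M - 0 + 1 := by linarith
        positivity
      rw [(hL w hwb).deriv]
      have h4 : deriv F w / F w = logDeriv F w := (logDeriv_apply F w).symm
      rw [h4]
      exact h2.trans (mul_le_mul_of_nonneg_left hw h3)
    have h2 := (convex_closedBall (0 : ℂ) ‖z‖).norm_image_sub_le_of_norm_deriv_le
      (f := L) (fun w hw => (hL w (by
        rw [mem_closedBall_zero_iff] at hw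
        rw [mem_ball_zero_iff]
        linarith [norm_nonneg z])).differentiableAt) h1
      (mem_closedBall_self (norm_nonneg z)) (y := z) (by rw [mem_closedBall_zero_iff])
    rw [hLz, sub_zero] at h2
    simp only [sub_zero] at h2 ⊢
    refine h2.trans (le_of_eq ?_)
    rw [mul_assoc, ← sq]

end HADN

open HADN

theorem t_HAD : S_HAD := by
  classical
  intro f C A v hf he h0 hgr hv hsum hinj hz hsimple z
  -- the growth
  obtain ⟨K, hK⟩ : ∃ K : ℝ, ∀ w, ‖f w‖ ≤ Real.exp (K * (1 + ‖w‖) ^ (3 / 2 : ℝ)) := by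
    have hC : 0 < C := by
      have := hgr 0
      rw [h0, norm_one] at this
      by_contra hc
      push Not at hc
      have h1 : C * Real.exp (A * ‖(0 : ℂ)‖ ^ (3 / 2 : ℝ)) ≤ 0 :=
        mul_nonpos_of_nonpos_of_nonneg hc (Real.exp_pos _).le
      linarith
    refine ⟨|Real.log C| + |A|, fun w => (hgr w).trans ?_⟩
    have h1 : C = Real.exp (Real.log C) := (Real.exp_log hC).symm
    rw [h1, ← Real.exp_add, Real.log_exp]
    apply Real.exp_le_exp.2
    have h2 : (1 : ℝ) ≤ (1 + ‖w‖) ^ (3 / 2 : ℝ) :=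
      Real.one_le_rpow (by linarith [norm_nonneg w]) (by norm_num)
    have h3 : ‖w‖ ^ (3 / 2 : ℝ) ≤ (1 + ‖w‖) ^ (3 / 2 : ℝ) :=
      Real.rpow_le_rpow (norm_nonneg w) (by linarith) (by norm_num)
    have h4 : Real.log C ≤ |Real.log C| * (1 + ‖w‖) ^ (3 / 2 : ℝ) :=
      (le_abs_self _).trans (le_mul_of_one_le_right (abs_nonneg _) h2)
    have h5 : A * ‖w‖ ^ (3 / 2 : ℝ) ≤ |A| * (1 + ‖w‖) ^ (3 / 2 : ℝ) :=
      mul_le_mul (le_abs_self A) h3 (Real.rpow_nonneg (norm_nonneg w) _) (abs_nonneg A)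
    linarith
  -- the finite sets
  have hfin : ∀ k : ℕ, {n : ℕ | (v n ≠ 0 ∧ 1 ≤ v n * (k : ℝ) ^ 2) ∨ (v n = 0 ∧ n < k)}.Finite := by
    intro k
    have h1 : {n : ℕ | 1 ≤ v n * (k : ℝ) ^ 2}.Finite := by
      have h2 : Tendsto (fun n => v n * (k : ℝ) ^ 2) cofinite (𝓝 0) := by
        have := hsum.tendsto_cofinite_zero.mul_const ((k : ℝ) ^ 2)
        rwa [zero_mul] at this
      have h3 := h2.eventually (gt_mem_nhds (zero_lt_one' ℝ))
      rw [Filter.eventually_cofinite] at h3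
      refine h3.subset fun n hn => ?_
      simp only [Set.mem_ofPred_eq] at hn ⊢
      exact not_lt.2 hn
    refine (h1.union (Set.finite_lt_nat k)).subset ?_
    rintro n (⟨-, h⟩ | ⟨-, h⟩)
    · exact Or.inl h
    · exact Or.inr h
  set s : ℕ → Finset ℕ := fun k => (hfin k).toFinset with hs
  have hmem : ∀ k n, n ∈ s k ↔ (v n ≠ 0 ∧ 1 ≤ v n * (k : ℝ) ^ 2) ∨ (v n = 0 ∧ n < k) := by
    intro k n
    rw [hs]
    simp only [Set.Finite.mem_toFinset, Set.mem_ofPred_eq]
  have hmono : Monotone s := by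
    intro k l hkl n hn
    rw [hmem] at hn ⊢
    rcases hn with ⟨h1, h2⟩ | ⟨h1, h2⟩
    · refine Or.inl ⟨h1, h2.trans ?_⟩
      have h3 : (k : ℝ) ≤ l := by exact_mod_cast hkl
      have h4 : (k : ℝ) ^ 2 ≤ (l : ℝ) ^ 2 := pow_le_pow_left₀ (Nat.cast_nonneg _) h3 2
      exact mul_le_mul_of_nonneg_left h4 (hv n)
    · exact Or.inr ⟨h1, lt_of_lt_of_le h2 hkl⟩
  have hex : ∀ n, ∃ k, n ∈ s k := by
    intro n
    by_cases hn : v n = 0
    · exact ⟨n + 1, (hmem _ _).2 (Or.inr ⟨hn, Nat.lt_succ_self n⟩)⟩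
    · have hvp : 0 < v n := lt_of_le_of_ne (hv n) (Ne.symm hn)
      obtain ⟨k, hk⟩ := exists_nat_ge (1 / v n + 1)
      refine ⟨k, (hmem _ _).2 (Or.inl ⟨hn, ?_⟩)⟩
      have h1 : 0 < 1 / v n := by positivity
      have h2 : 1 / v n ≤ (k : ℝ) ^ 2 := by nlinarith
      rw [div_le_iff₀ hvp] at h2
      linarith
  have hsat : Tendsto s atTop atTop := tendsto_atTop_finset_of_monotone hmono hex
  -- the infinite product
  have hmul : Multipliable (fun n => 1 + -((v n : ℂ) * z ^ 2)) := by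
    apply multipliable_one_add_of_summable
    have : (fun n => ‖-((v n : ℂ) * z ^ 2)‖) = fun n => v n * ‖z ^ 2‖ := by
      funext n
      rw [norm_neg, norm_mul, Complex.norm_real, Real.norm_eq_abs, abs_of_nonneg (hv n)]
    rw [this]
    exact hsum.mul_right _
  have hprod := hmul.hasProd
  set Pz := ∏' n, (1 + -((v n : ℂ) * z ^ 2)) with hPz
  have hPP : Tendsto (fun N => PP v N z) atTop (𝓝 Pz) := by
    refine hprod.tendsto_prod_nat.congr fun N => ?_
    unfold PP
    exact Finset.prod_congr rfl fun n _ => by ring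
  have hPs : Tendsto (fun k => ∏ n ∈ s k, (1 + -((v n : ℂ) * z ^ 2))) atTop (𝓝 Pz) :=
    Tendsto.comp (f := s) hprod hsat
  -- the quotients
  have hkey : ∀ k : ℕ, 1 ≤ k → 8 * ‖z‖ ≤ k → ∃ ℓ : ℂ,
      f z = (∏ n ∈ s k, (1 + -((v n : ℂ) * z ^ 2))) * cexp ℓ ∧
      ‖ℓ‖ ≤ 128 * (K * (1 + 2 * (k : ℝ)) ^ (3 / 2 : ℝ) - 0 + 1) / (k : ℝ) ^ 2 * ‖z‖ ^ 2 := by
    intro k hk hkz
    have hkp : (0 : ℝ) < k := by exact_mod_cast (by omega : 0 < k)
    set S := (s k).filter (fun n => v n ≠ 0) with hSdef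
    have hSmem : ∀ n, n ∈ S ↔ v n ≠ 0 ∧ 1 ≤ v n * (k : ℝ) ^ 2 := by
      intro n
      rw [hSdef, Finset.mem_filter, hmem]
      constructor
      · rintro ⟨h1 | h1, h2⟩
        · exact h1
        · exact absurd h1.1 h2
      · intro h
        exact ⟨Or.inl h, h.1⟩
    obtain ⟨F, hF, hfF⟩ := div_prod hf hv hinj hz S fun n hn => ((hSmem n).1 hn).1
    have hPdiff : Differentiable ℂ fun w : ℂ => ∏ n ∈ S, (1 - (v n : ℂ) * w ^ 2) := by
      have : (fun w : ℂ => ∏ n ∈ S, (1 - (v n : ℂ) * w ^ 2)) =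
        ∏ n ∈ S, fun w : ℂ => (1 - (v n : ℂ) * w ^ 2) := by
        funext w
        rw [Finset.prod_apply]
      rw [this]
      exact Differentiable.finsetProd fun n _ => by fun_prop
    set Pf : ℂ → ℂ := fun w => ∏ n ∈ S, (1 - (v n : ℂ) * w ^ 2) with hPf
    have hPf0 : Pf 0 = 1 := by
      rw [hPf]
      refine Finset.prod_eq_one fun n _ => ?_
      rw [zero_pow two_ne_zero, mul_zero, sub_zero]
    have hF0 : F 0 = 1 := by
      have := hfF 0
      rw [h0] at this
      change (1 : ℂ) = Pf 0 * F 0 at this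
      rw [hPf0, one_mul] at this
      exact this.symm
    have hder : ∀ w, deriv f w = deriv Pf w * F w + Pf w * deriv F w := by
      intro w
      have e : f = fun w => Pf w * F w := funext hfF
      conv_lhs => rw [e]
      exact ((hPdiff w).hasDerivAt.mul (hF w).hasDerivAt).deriv
    have hd0 : deriv F 0 = 0 := by
      have h1 := hder 0
      rw [deriv_even hf he, deriv_even hPdiff (fun w => by
        rw [hPf]
        simp only [neg_sq]), hPf0, zero_mul, zero_add, one_mul] at h1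
      exact h1.symm
    have hnz : ∀ u ∈ ball (0 : ℂ) k, F u ≠ 0 := by
      intro u hu hFu
      rw [mem_ball_zero_iff] at hu
      have hfu : f u = 0 := by rw [hfF, hFu, mul_zero]
      obtain ⟨n, hn1, hn2⟩ := (hz u).1 hfu
      have hnS : n ∈ S := by
        rw [hSmem]
        refine ⟨hn1, ?_⟩
        have h1 := congrArg norm hn2
        rw [norm_mul, norm_pow, Complex.norm_real, Real.norm_eq_abs, abs_of_nonneg (hv n),
          norm_one] at h1
        rw [← h1]
        exact mul_le_mul_of_nonneg_left (pow_le_pow_left₀ (norm_nonneg _) hu.le 2) (hv n)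
      have hPu : Pf u = 0 := by
        rw [hPf]
        refine Finset.prod_eq_zero hnS ?_
        rw [hn2, sub_self]
      have h1 := hder u
      rw [hFu, hPu, mul_zero, zero_mul, add_zero] at h1
      exact hsimple u hfu h1
    have hsph : ∀ w ∈ frontier (ball (0 : ℂ) (2 * k)),
        ‖F w‖ ≤ Real.exp (K * (1 + 2 * (k : ℝ)) ^ (3 / 2 : ℝ)) := by
      intro w hw
      rw [frontier_ball _ (by positivity)] at hw
      have hwn : ‖w‖ = 2 * k := by simpa using hw
      have h1 : 1 ≤ ‖Pf w‖ := by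
        rw [hPf, norm_prod]
        have h3 : ∀ n ∈ S, (1 : ℝ) ≤ ‖1 - (v n : ℂ) * w ^ 2‖ := by
          intro n hn
          have h4 : ‖(v n : ℂ) * w ^ 2‖ = v n * (2 * k) ^ 2 := by
            rw [norm_mul, norm_pow, Complex.norm_real, Real.norm_eq_abs, abs_of_nonneg (hv n), hwn]
          have h5 := norm_sub_norm_le ((v n : ℂ) * w ^ 2) 1
          rw [norm_one, norm_sub_rev, h4] at h5
          have h6 := ((hSmem n).1 hn).2
          nlinarith
        calc (1 : ℝ) = ∏ _n ∈ S, (1 : ℝ) := by rw [Finset.prod_const_one]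
          _ ≤ _ := Finset.prod_le_prod (fun _ _ => zero_le_one) h3
      have h2 := hK w
      rw [hfF w, norm_mul, hwn] at h2
      change ‖Pf w‖ * ‖F w‖ ≤ _ at h2
      exact (le_mul_of_one_le_left (norm_nonneg _) h1).trans h2
    have hb : ∀ w ∈ ball (0 : ℂ) k, ‖F w‖ ≤ Real.exp (K * (1 + 2 * (k : ℝ)) ^ (3 / 2 : ℝ)) := by
      intro w hw
      refine Complex.norm_le_of_forall_mem_frontier_norm_le isBounded_ball
        (hF.differentiableOn.diffContOnCl (s := ball (0 : ℂ) (2 * k))) hsph (subset_closure ?_)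
      rw [mem_ball_zero_iff] at hw ⊢
      linarith
    obtain ⟨ℓ, h1, h2⟩ := close_one hF hF0 hd0 hkp hnz hb (z := z) (by linarith)
    refine ⟨ℓ, ?_, h2⟩
    rw [← h1, hfF z]
    congr 1
    rw [hSdef, Finset.prod_filter]
    refine Finset.prod_congr rfl fun n _ => ?_
    split_ifs with h
    · ring
    · push Not at h
      rw [h]
      simp
  -- the limit
  have hlim : Tendsto (fun k : ℕ => 128 * (K * (1 + 2 * (k : ℝ)) ^ (3 / 2 : ℝ) - 0 + 1) /
      (k : ℝ) ^ 2 * ‖z‖ ^ 2) atTop (𝓝 0) :=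
    (Pool.Agent.Y818.FV.logd_lim (K := K) (c := 0) (d := ‖z‖ ^ 2)).comp
      tendsto_natCast_atTop_atTop
  choose! ℓ hℓ1 hℓ2 using hkey
  obtain ⟨k0, hk0⟩ := exists_nat_ge (8 * ‖z‖)
  have hev : ∀ᶠ k : ℕ in atTop, 1 ≤ k ∧ 8 * ‖z‖ ≤ k := by
    filter_upwards [eventually_ge_atTop (max 1 k0)] with k hk
    refine ⟨le_trans (le_max_left _ _) hk, hk0.trans ?_⟩
    exact_mod_cast le_trans (le_max_right _ _) hk
  have hℓ0 : Tendsto ℓ atTop (𝓝 0) := by
    apply squeeze_zero_norm' _ hlim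
    filter_upwards [hev] with k hk
    exact hℓ2 k hk.1 hk.2
  have hfin2 : Tendsto (fun k => (∏ n ∈ s k, (1 + -((v n : ℂ) * z ^ 2))) * cexp (ℓ k)) atTop
      (𝓝 (Pz * cexp 0)) := hPs.mul ((Complex.continuous_exp.tendsto 0).comp hℓ0)
  rw [Complex.exp_zero, mul_one] at hfin2
  have hconst : Tendsto (fun _ : ℕ => f z) atTop (𝓝 Pz) := by
    refine hfin2.congr' ?_
    filter_upwards [hev] with k hk
    exact (hℓ1 k hk.1 hk.2).symm
  have hfPz : f z = Pz := tendsto_nhds_unique tendsto_const_nhds hconst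
  rw [hfPz]
  exact hPP

end Pool.Agent.H478.WM

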