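import Pool.Agent.H478.WM.Stm

/-!
# Project WM, task HE: elements of the closure

By helper588.
-/

open Complex MeasureTheory Filter Topology Set
open scoped ContDiff

namespace Pool.Agent.H478.WM

theorem t_HE (h1 : S_TCB) (h2 : S_SUM) (h3 : S_L2A) (h4 : S_COE) : S_HE := by
  intro S a u ha hu
  obtain ⟨g, hg, hlu, hL2, hQ⟩ := hu
  have hpt : ∀ z, Tendsto (fun n => Ct (g n) z) atTop (𝓝 (u z)) := fun z =>
    (tendstoLocallyUniformlyOn_univ.2 hlu).tendsto_at (mem_univ z)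
  have hdiff : Differentiable ℂ u := by
    rw [← differentiableOn_univ]
    refine (tendstoLocallyUniformlyOn_univ.2 hlu).differentiableOn ?_ isOpen_univ
    exact Eventually.of_forall fun n => (h1 a (g n) ha (hg n)).1.differentiableOn
  have heven : ∀ z, u (-z) = u z := by
    intro z
    refine tendsto_nhds_unique (hpt (-z)) ((hpt z).congr fun n => ?_)
    exact ((h1 a (g n) ha (hg n)).2.1 z).symm
  have hLu : L2 S u := by
    have e1 := (h3 S (Ct (g 0)) (fun z => Ct (g 0) z - u z) (Ct (g 0)) 1 (-1)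
      (h2 S a (g 0) ha (hg 0)) (hL2 0) (h2 S a (g 0) ha (hg 0))).1
    have e2 : (fun z => (1 : ℂ) * Ct (g 0) z + (-1) * (Ct (g 0) z - u z)) = u := by
      funext z
      ring
    rwa [e2] at e1
  refine ⟨hdiff, heven, hLu, ?_⟩
  obtain ⟨c, hc, hcoe⟩ := h4 S a ha
  obtain ⟨M, hM⟩ : ∃ M : ℝ, M = max ((2 + 2 * Q S u) / c) 0 := ⟨_, rfl⟩
  have hM0 : 0 ≤ M := by rw [hM]; exact le_max_right _ _
  have hQ1 : ∀ᶠ n in atTop, Q S (fun z => Ct (g n) z - u z) < 1 :=
    hQ.eventually (gt_mem_nhds one_pos)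
  have hb : ∀ᶠ n in atTop, ∫ x : ℝ, ‖g n x‖ ^ 2 ≤ M := by
    filter_upwards [hQ1] with n hn
    have e1 := (h3 S (fun z => Ct (g n) z - u z) u u 1 1 (hL2 n) hLu hLu).2.2.2.1
    have e2 : (fun z => (Ct (g n) z - u z) + u z) = Ct (g n) := by
      funext z
      ring
    rw [e2] at e1
    have e3 := hcoe (g n) (hg n)
    rw [hM]
    refine le_trans ?_ (le_max_left _ _)
    rw [le_div_iff₀ hc]
    linarith
  refine ⟨Real.sqrt (2 * a * M), Real.sqrt_nonneg _, fun z => ?_⟩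
  have hsq : ‖u z‖ ^ 2 ≤ 2 * a * Real.exp (2 * a * |z.im|) * M := by
    refine le_of_tendsto ((hpt z).norm.pow 2) ?_
    filter_upwards [hb] with n hn
    refine ((h1 a (g n) ha (hg n)).2.2.1 z).trans ?_
    exact mul_le_mul_of_nonneg_left hn (by positivity)
  have e4 : 2 * a * Real.exp (2 * a * |z.im|) * M =
      (Real.sqrt (2 * a * M) * Real.exp (a * |z.im|)) ^ 2 := by
    rw [mul_pow, Real.sq_sqrt (by positivity), ← Real.exp_nat_mul]
    have e5 : ((2 : ℕ) : ℝ) * (a * |z.im|) = 2 * a * |z.im| := by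
      push_cast
      ring
    rw [e5]
    ring
  rw [e4] at hsq
  exact le_of_sq_le_sq hsq (by positivity)

end Pool.Agent.H478.WM
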