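import Pool.Agent.H478.WM.Stm

/-!
# Project WM: between two positive zeros of the minimiser there is a node, and the zeros are simple
-/

open Complex MeasureTheory Filter Topology Set
open scoped ContDiff

namespace Pool.Agent.H478.WM.IL

noncomputable section

/-- division by `z - w` -/
theorem div1 (f : ℂ → ℂ) (hf : Differentiable ℂ f) (w : ℂ) (hw : f w = 0) :
    ∃ g : ℂ → ℂ, Differentiable ℂ g ∧ ∀ z, (z - w) * g z = f z := by
  refine ⟨dslope f w, ?_, fun z => ?_⟩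
  · have h := (Complex.differentiableOn_dslope (s := Set.univ) (c := w) (f := f)
      Filter.univ_mem).2 hf.differentiableOn
    exact differentiableOn_univ.1 h
  · have h := sub_smul_dslope f w z
    rw [hw, sub_zero, smul_eq_mul] at h
    exact h

/-- division of an even function by `z² - x²` -/
theorem div2 (u : ℂ → ℂ) (hu : Differentiable ℂ u) (he : ∀ z, u (-z) = u z) (x : ℂ) (hx : x ≠ 0)
    (hux : u x = 0) :
    ∃ k : ℂ → ℂ, Differentiable ℂ k ∧ (∀ z, k (-z) = k z) ∧ ∀ z, (z ^ 2 - x ^ 2) * k z = u z := by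
  obtain ⟨g, hg, hgu⟩ := div1 u hu x hux
  have h1 : g (-x) = 0 := by
    have h2 := hgu (-x)
    rw [he, hux] at h2
    have h3 : (-x - x) ≠ 0 := by
      intro h
      apply hx
      have : (-2 : ℂ) * x = 0 := by linear_combination h
      rcases mul_eq_zero.1 this with h4 | h4
      · norm_num at h4
      · exact h4
    exact (mul_eq_zero.1 h2).resolve_left h3
  obtain ⟨g', hg', hgu'⟩ := div1 g hg (-x) h1
  have h4 : ∀ z, (z ^ 2 - x ^ 2) * g' z = u z := by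
    intro z
    rw [← hgu, ← hgu']
    ring
  refine ⟨fun z => (g' z + g' (-z)) / 2, ?_, ?_, ?_⟩
  · exact (hg'.add (hg'.comp differentiable_neg)).div_const 2
  · intro z
    simp only [neg_neg]
    ring
  · intro z
    have h5 := h4 z
    have h6 := h4 (-z)
    rw [he] at h6
    linear_combination (1 / 2 : ℂ) * h5 + (1 / 2 : ℂ) * h6

/-- all terms nonnegative: contradiction -/
theorem pos (h2 : S_ORT2) (h3 : S_NV) (S : Sys) (a : ℝ) (u k : ℂ → ℂ) (x y : ℝ) (ha : 0 < a)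
    (hu : IsMin S a u) (hk : Differentiable ℂ k)
    (hku : ∀ z : ℂ, (z ^ 2 - (x : ℂ) ^ 2) * (z ^ 2 - (y : ℂ) ^ 2) * k z = u z)
    (hpos : ∀ t ∈ S.G, 0 ≤ (t ^ 2 - x ^ 2) * (t ^ 2 - y ^ 2)) : False := by
  obtain ⟨hs, h0⟩ := h2 S a u k x y ha hu hk hku
  have hsum := hs.hasSum
  rw [h0] at hsum
  have hre : ∀ t : ℝ, u (t : ℂ) = (((u (t : ℂ)).re : ℝ) : ℂ) := by
    intro t
    apply Complex.ext
    · simp
    · simp [hu.real t]
  have hterm : ∀ t : S.G, (S.m t : ℂ) * (((t : ℝ) : ℂ) ^ 2 * (u ((t : ℝ) : ℂ)) ^ 2 /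
      ((((t : ℝ) : ℂ) ^ 2 - (x : ℂ) ^ 2) * (((t : ℝ) : ℂ) ^ 2 - (y : ℂ) ^ 2))) =
      ((S.m t * ((t : ℝ) ^ 2 * ((u ((t : ℝ) : ℂ)).re) ^ 2 /
        (((t : ℝ) ^ 2 - x ^ 2) * ((t : ℝ) ^ 2 - y ^ 2))) : ℝ) : ℂ) := by
    intro t
    rw [hre t]
    push_cast
    rfl
  simp only [hterm] at hsum
  have hsum' : HasSum (fun t : S.G => S.m t * ((t : ℝ) ^ 2 * ((u ((t : ℝ) : ℂ)).re) ^ 2 /
        (((t : ℝ) ^ 2 - x ^ 2) * ((t : ℝ) ^ 2 - y ^ 2)))) 0 := by
    have := Complex.reCLM.hasSum hsum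
    rw [map_zero] at this
    exact this
  have hm : ∀ t : S.G, 0 < S.m t := fun t => lt_of_lt_of_le one_pos (S.one_le t t.2)
  have hnn : ∀ t : S.G, 0 ≤ S.m t * ((t : ℝ) ^ 2 * ((u ((t : ℝ) : ℂ)).re) ^ 2 /
        (((t : ℝ) ^ 2 - x ^ 2) * ((t : ℝ) ^ 2 - y ^ 2))) := fun t =>
    mul_nonneg (hm t).le (div_nonneg (by positivity) (hpos t t.2))
  have hz := (hasSum_zero_iff_of_nonneg hnn).1 hsum'
  obtain ⟨t, ht, hut⟩ := h3 S a u ha hu
  apply hut
  have hz' := congrFun hz ⟨t, ht⟩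
  simp only [Pi.zero_apply] at hz'
  have ht0 : 0 < t := S.pos t ht
  by_cases hd : (t ^ 2 - x ^ 2) * (t ^ 2 - y ^ 2) = 0
  · rw [← hku (t : ℂ)]
    have : (((t : ℝ) : ℂ) ^ 2 - (x : ℂ) ^ 2) * (((t : ℝ) : ℂ) ^ 2 - (y : ℂ) ^ 2) = 0 := by
      exact_mod_cast hd
    rw [this, zero_mul]
  · have h4 := (mul_eq_zero.1 hz').resolve_left (hm ⟨t, ht⟩).ne'
    rw [div_eq_zero_iff] at h4
    have h5 := h4.resolve_right hd
    have h6 := (mul_eq_zero.1 h5).resolve_left (by positivity)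
    rw [hre t, pow_eq_zero_iff two_ne_zero |>.1 h6]
    simp

theorem t_IL (h1 : S_HE) (h2 : S_ORT2) (h3 : S_NV) : S_IL := by
  intro S a u ha hu
  obtain ⟨hd, he, -, -⟩ := h1 S a u ha hu.mem
  have hne : ∀ x : ℝ, u (x : ℂ) = 0 → x ≠ 0 := by
    intro x hx h0
    rw [h0, Complex.ofReal_zero, hu.one] at hx
    exact one_ne_zero hx
  constructor
  · intro x y hx hxy hux huy
    by_contra hcon
    push Not at hcon
    have hxc : (x : ℂ) ≠ 0 := by exact_mod_cast hx.ne'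
    have hyc : (y : ℂ) ≠ 0 := by exact_mod_cast (hx.trans hxy).ne'
    obtain ⟨k1, hk1, he1, hku1⟩ := div2 u hd he x hxc hux
    have hk1y : k1 (y : ℂ) = 0 := by
      have h4 := hku1 (y : ℂ)
      rw [huy] at h4
      refine (mul_eq_zero.1 h4).resolve_left ?_
      have h5 : y ^ 2 - x ^ 2 ≠ 0 := by nlinarith
      exact_mod_cast h5
    obtain ⟨k, hk, -, hku⟩ := div2 k1 hk1 he1 y hyc hk1y
    refine pos h2 h3 S a u k x y ha hu hk (fun z => ?_) (fun t ht => ?_)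
    · rw [← hku1, ← hku]
      ring
    · have ht0 := S.pos t ht
      rcases le_or_gt t x with h | h
      · have e1 : t ^ 2 - x ^ 2 ≤ 0 := by nlinarith
        have e2 : t ^ 2 - y ^ 2 ≤ 0 := by nlinarith
        exact mul_nonneg_of_nonpos_of_nonpos e1 e2
      · have h5 := hcon t ht h
        have e1 : 0 ≤ t ^ 2 - x ^ 2 := by nlinarith
        have e2 : 0 ≤ t ^ 2 - y ^ 2 := by nlinarith
        exact mul_nonneg e1 e2
  · intro x hux hdu
    have hx0 := hne x hux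
    have hxc : (x : ℂ) ≠ 0 := by exact_mod_cast hx0
    obtain ⟨k1, hk1, he1, hku1⟩ := div2 u hd he x hxc hux
    have hk1x : k1 (x : ℂ) = 0 := by
      have h4 : HasDerivAt (fun z : ℂ => (z ^ 2 - (x : ℂ) ^ 2) * k1 z)
          ((2 * (x : ℂ)) * k1 x + ((x : ℂ) ^ 2 - (x : ℂ) ^ 2) * deriv k1 x) (x : ℂ) := by
        have h5 : HasDerivAt (fun z : ℂ => z ^ 2 - (x : ℂ) ^ 2) (2 * (x : ℂ)) (x : ℂ) := by
          have := (hasDerivAt_pow 2 (x : ℂ)).sub_const ((x : ℂ) ^ 2)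
          simpa using this
        exact h5.mul (hk1 x).hasDerivAt
      have h6 : (fun z : ℂ => (z ^ 2 - (x : ℂ) ^ 2) * k1 z) = u := funext hku1
      rw [h6] at h4
      have h7 := h4.deriv
      rw [hdu, sub_self, zero_mul, add_zero] at h7
      have h8 : (2 * (x : ℂ)) ≠ 0 := mul_ne_zero two_ne_zero hxc
      exact (mul_eq_zero.1 h7.symm).resolve_left h8
    obtain ⟨k, hk, -, hku⟩ := div2 k1 hk1 he1 x hxc hk1x
    refine pos h2 h3 S a u k x x ha hu hk (fun z => ?_) (fun t _ => mul_self_nonneg _)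
    rw [← hku1, ← hku]
    ring

end

end Pool.Agent.H478.WM.IL
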