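import Pool.Agent.H478.WM.Stm

/-!
# Project WM, task L2A: the weighted square summable sequences
-/

set_option autoImplicit false

open Complex MeasureTheory Filter Topology Set
open scoped ContDiff

namespace Pool.Agent.H478.WM

namespace L2AN

theorem m_pos (S : Sys) (t : S.G) : 0 < S.m t := lt_of_lt_of_le one_pos (S.one_le t t.2)

theorem summ_prod {S : Sys} {u v : ℂ → ℂ} (hu : L2 S u) (hv : L2 S v) :
    Summable (fun t : S.G => (S.m t : ℂ) * (u ((t : ℝ) : ℂ) * v ((t : ℝ) : ℂ))) := by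
  refine Summable.of_norm_bounded (hu.add hv) fun t => ?_
  have hm := m_pos S t
  rw [norm_mul, norm_mul, Complex.norm_real, Real.norm_of_nonneg hm.le, ← mul_add]
  refine mul_le_mul_of_nonneg_left ?_ hm.le
  nlinarith [sq_nonneg (‖u ((t : ℝ) : ℂ)‖ - ‖v ((t : ℝ) : ℂ)‖),
    sq_nonneg (‖u ((t : ℝ) : ℂ)‖ + ‖v ((t : ℝ) : ℂ)‖),
    mul_nonneg (norm_nonneg (u ((t : ℝ) : ℂ))) (norm_nonneg (v ((t : ℝ) : ℂ)))]

theorem l2_lin {S : Sys} {u v : ℂ → ℂ} (α β : ℂ) (hu : L2 S u) (hv : L2 S v) :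
    L2 S (fun z => α * u z + β * v z) := by
  refine Summable.of_nonneg_of_le (fun t => ?_) (fun t => ?_)
    ((hu.mul_left (2 * ‖α‖ ^ 2)).add (hv.mul_left (2 * ‖β‖ ^ 2)))
  · have hm := m_pos S t
    positivity
  · have hm := m_pos S t
    have h1 : ‖α * u ((t : ℝ) : ℂ) + β * v ((t : ℝ) : ℂ)‖ ≤
        ‖α‖ * ‖u ((t : ℝ) : ℂ)‖ + ‖β‖ * ‖v ((t : ℝ) : ℂ)‖ := by
      refine (norm_add_le _ _).trans ?_
      rw [norm_mul, norm_mul]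
    have h2 : ‖α * u ((t : ℝ) : ℂ) + β * v ((t : ℝ) : ℂ)‖ ^ 2 ≤
        (‖α‖ * ‖u ((t : ℝ) : ℂ)‖ + ‖β‖ * ‖v ((t : ℝ) : ℂ)‖) ^ 2 :=
      pow_le_pow_left₀ (norm_nonneg _) h1 2
    have h3 : (‖α‖ * ‖u ((t : ℝ) : ℂ)‖ + ‖β‖ * ‖v ((t : ℝ) : ℂ)‖) ^ 2 ≤
        2 * ‖α‖ ^ 2 * ‖u ((t : ℝ) : ℂ)‖ ^ 2 + 2 * ‖β‖ ^ 2 * ‖v ((t : ℝ) : ℂ)‖ ^ 2 := by
      nlinarith [sq_nonneg (‖α‖ * ‖u ((t : ℝ) : ℂ)‖ - ‖β‖ * ‖v ((t : ℝ) : ℂ)‖)]
    calc S.m t * ‖α * u ((t : ℝ) : ℂ) + β * v ((t : ℝ) : ℂ)‖ ^ 2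
        ≤ S.m t * (2 * ‖α‖ ^ 2 * ‖u ((t : ℝ) : ℂ)‖ ^ 2 + 2 * ‖β‖ ^ 2 * ‖v ((t : ℝ) : ℂ)‖ ^ 2) :=
          mul_le_mul_of_nonneg_left (h2.trans h3) hm.le
      _ = _ := by ring

theorem l2_add {S : Sys} {u v : ℂ → ℂ} (hu : L2 S u) (hv : L2 S v) :
    L2 S (fun z => u z + v z) := by
  have h := l2_lin 1 1 hu hv
  simpa using h

theorem l2_sub {S : Sys} {u v : ℂ → ℂ} (hu : L2 S u) (hv : L2 S v) :
    L2 S (fun z => u z - v z) := by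
  have h := l2_lin 1 (-1) hu hv
  have e : (fun z => 1 * u z + -1 * v z) = fun z => u z - v z := by
    funext z
    ring
  rwa [e] at h

theorem Q_nonneg (S : Sys) (u : ℂ → ℂ) : 0 ≤ Q S u :=
  tsum_nonneg fun t => mul_nonneg (m_pos S t).le (sq_nonneg _)

theorem para {S : Sys} {u v : ℂ → ℂ} (hu : L2 S u) (hv : L2 S v) :
    Q S (fun z => u z + v z) + Q S (fun z => u z - v z) = 2 * Q S u + 2 * Q S v := by
  unfold Q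
  rw [← Summable.tsum_add (l2_add hu hv) (l2_sub hu hv), ← tsum_mul_left, ← tsum_mul_left,
    ← Summable.tsum_add (hu.mul_left 2) (hv.mul_left 2)]
  refine tsum_congr fun t => ?_
  have h := parallelogram_law_with_norm ℝ (u ((t : ℝ) : ℂ)) (v ((t : ℝ) : ℂ))
  have h1 : ‖u ((t : ℝ) : ℂ) + v ((t : ℝ) : ℂ)‖ ^ 2 + ‖u ((t : ℝ) : ℂ) - v ((t : ℝ) : ℂ)‖ ^ 2 =
      2 * (‖u ((t : ℝ) : ℂ)‖ ^ 2 + ‖v ((t : ℝ) : ℂ)‖ ^ 2) := h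
  rw [← mul_add, h1]
  ring

theorem Bf_lin {S : Sys} {u v w : ℂ → ℂ} (α β : ℂ) (hu : L2 S u) (hv : L2 S v) (hw : L2 S w) :
    Bf S w (fun z => α * u z + β * v z) = α * Bf S w u + β * Bf S w v := by
  unfold Bf
  rw [← tsum_mul_left, ← tsum_mul_left, ← Summable.tsum_add ((summ_prod hw hu).mul_left α)
    ((summ_prod hw hv).mul_left β)]
  exact tsum_congr fun t => by ring

theorem cs {S : Sys} {u v : ℂ → ℂ} (hu : L2 S u) (hv : L2 S v) :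
    ‖Bf S u v‖ ^ 2 ≤ Q S u * Q S v := by
  have h1 : Tendsto (fun F : Finset S.G =>
      ‖∑ t ∈ F, (S.m t : ℂ) * (u ((t : ℝ) : ℂ) * v ((t : ℝ) : ℂ))‖ ^ 2) atTop
      (𝓝 (‖Bf S u v‖ ^ 2)) := ((summ_prod hu hv).hasSum.norm).pow 2
  refine le_of_tendsto' h1 fun F => ?_
  have h2 : ‖∑ t ∈ F, (S.m t : ℂ) * (u ((t : ℝ) : ℂ) * v ((t : ℝ) : ℂ))‖ ≤
      ∑ t ∈ F, (Real.sqrt (S.m t) * ‖u ((t : ℝ) : ℂ)‖) * (Real.sqrt (S.m t) * ‖v ((t : ℝ) : ℂ)‖) := by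
    refine (norm_sum_le _ _).trans (Finset.sum_le_sum fun t _ => le_of_eq ?_)
    have hm := (m_pos S t).le
    rw [norm_mul, norm_mul, Complex.norm_real, Real.norm_of_nonneg hm]
    calc S.m t * (‖u ((t : ℝ) : ℂ)‖ * ‖v ((t : ℝ) : ℂ)‖) =
        (Real.sqrt (S.m t) * Real.sqrt (S.m t)) * (‖u ((t : ℝ) : ℂ)‖ * ‖v ((t : ℝ) : ℂ)‖) := by
          rw [Real.mul_self_sqrt hm]
      _ = _ := by ring
  have h3 := pow_le_pow_left₀ (norm_nonneg _) h2 2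
  refine h3.trans ((Finset.sum_mul_sq_le_sq_mul_sq F _ _).trans ?_)
  have h4 : ∀ f : ℂ → ℂ, L2 S f → ∑ t ∈ F, (Real.sqrt (S.m t) * ‖f ((t : ℝ) : ℂ)‖) ^ 2 ≤ Q S f := by
    intro f hf
    have h5 : ∑ t ∈ F, (Real.sqrt (S.m t) * ‖f ((t : ℝ) : ℂ)‖) ^ 2 =
        ∑ t ∈ F, S.m t * ‖f ((t : ℝ) : ℂ)‖ ^ 2 := by
      refine Finset.sum_congr rfl fun t _ => ?_
      rw [mul_pow, Real.sq_sqrt (m_pos S t).le]
    rw [h5]
    exact hf.sum_le_tsum F fun t _ => mul_nonneg (m_pos S t).le (sq_nonneg _)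
  exact mul_le_mul (h4 u hu) (h4 v hv) (Finset.sum_nonneg fun t _ => sq_nonneg _) (Q_nonneg S u)

end L2AN

open L2AN in
theorem t_L2A : S_L2A := by
  intro S u v w α β hu hv hw
  refine ⟨l2_lin α β hu hv, summ_prod hu hv, Bf_lin α β hu hv hw, ?_, para hu hv, cs hu hv⟩
  have h1 := para hu hv
  have h2 := Q_nonneg S (fun z => u z - v z)
  linarith

end Pool.Agent.H478.WM
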