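import Pool.Agent.H478.WM.Stm

set_option autoImplicit false

/-!
# Lower bound of the other factors at a node
-/

open Complex MeasureTheory Filter Topology Set

namespace Pool.Agent.H478.WM

namespace LBN

/-- Weierstrass inequality -/
theorem one_sub_sum {ι : Type} (s : Finset ι) (t : ι → ℝ) (h0 : ∀ i ∈ s, 0 ≤ t i)
    (h1 : ∀ i ∈ s, t i ≤ 1) : 1 - ∑ i ∈ s, t i ≤ ∏ i ∈ s, (1 - t i) := by
  classical
  induction s using Finset.induction_on with
  | empty => simp
  | insert a s ha ih =>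
    rw [Finset.sum_insert ha, Finset.prod_insert ha]
    have h2 := ih (fun i hi => h0 i (Finset.mem_insert_of_mem hi))
      (fun i hi => h1 i (Finset.mem_insert_of_mem hi))
    have h3 := h0 a (Finset.mem_insert_self a s)
    have h4 := h1 a (Finset.mem_insert_self a s)
    have h5 : 0 ≤ ∑ i ∈ s, t i := Finset.sum_nonneg fun i hi => h0 i (Finset.mem_insert_of_mem hi)
    have h6 := mul_le_mul_of_nonneg_left h2 (sub_nonneg.2 h4)
    nlinarith [mul_nonneg h3 h5]

/-- the finite subproducts of a convergent product are bounded below -/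
theorem prod_lower (t : ℕ → ℝ) (h0 : ∀ i, 0 ≤ t i) (h1 : ∀ i, t i < 1) (hs : Summable t) :
    ∃ c : ℝ, 0 < c ∧ ∀ N, c ≤ ∏ i ∈ Finset.range N, (1 - t i) := by
  obtain ⟨N₀, hN₀⟩ : ∃ N₀ : ℕ, ∀ N, ∑ i ∈ Finset.Ico N₀ N, t i ≤ 1 / 2 := by
    have h2 := tendsto_sum_nat_add t
    obtain ⟨N₀, h3⟩ := (h2.eventually (gt_mem_nhds (by norm_num : (0 : ℝ) < 1 / 2))).exists
    refine ⟨N₀, fun N => ?_⟩
    rw [Finset.sum_Ico_eq_sum_range]
    have h4 : Summable fun k => t (k + N₀) := (summable_nat_add_iff N₀).2 hs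
    have h5 := h4.sum_le_tsum (Finset.range (N - N₀)) (fun i _ => h0 _)
    have h6 : ∑ k ∈ Finset.range (N - N₀), t (N₀ + k) = ∑ k ∈ Finset.range (N - N₀), t (k + N₀) :=
      Finset.sum_congr rfl fun k _ => by rw [add_comm]
    rw [h6]
    linarith
  have hp : ∀ i, 0 < 1 - t i := fun i => by linarith [h1 i]
  set c₀ := ∏ i ∈ Finset.range N₀, (1 - t i) with hc₀
  have hc₀p : 0 < c₀ := Finset.prod_pos fun i _ => hp i
  refine ⟨c₀ / 2, by positivity, fun N => ?_⟩
  rcases le_total N₀ N with h | h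
  · rw [← Finset.prod_range_mul_prod_Ico _ h, ← hc₀]
    have h2 := one_sub_sum (Finset.Ico N₀ N) t (fun i _ => h0 i) (fun i _ => (h1 i).le)
    have h3 := hN₀ N
    have h4 : 1 / 2 ≤ ∏ i ∈ Finset.Ico N₀ N, (1 - t i) := by linarith
    have h5 := mul_le_mul_of_nonneg_left h4 hc₀p.le
    linarith
  · have h2 : c₀ ≤ ∏ i ∈ Finset.range N, (1 - t i) := by
      rw [hc₀, ← Finset.prod_range_mul_prod_Ico _ h]
      refine mul_le_of_le_one_right (Finset.prod_nonneg fun i _ => (hp i).le) ?_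
      exact Finset.prod_le_one (fun i _ => (hp i).le) fun i _ => by linarith [h0 i]
    linarith

end LBN

open LBN

theorem t_LB : S_LB := by
  classical
  intro γ v f j hγ hγ0 hsum hv hf hlim
  have hγj := hγ0 j
  -- the tail
  set t : ℕ → ℝ := fun i => if j < i then γ j ^ 2 / γ i ^ 2 else 0 with ht
  have ht0 : ∀ i, 0 ≤ t i := by
    intro i
    rw [ht]
    beta_reduce
    split_ifs
    · have := hγ0 i
      positivity
    · exact le_rfl
  have ht1 : ∀ i, t i < 1 := by
    intro i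
    rw [ht]
    beta_reduce
    split_ifs with h
    · have h1 := hγ h
      have h2 := hγ0 i
      rw [div_lt_one (by positivity)]
      exact pow_lt_pow_left₀ h1 hγj.le two_ne_zero
    · exact one_pos
  have hts : Summable t := by
    refine Summable.of_nonneg_of_le ht0 (fun i => ?_) (hsum.mul_left (γ j ^ 2))
    rw [ht]
    beta_reduce
    split_ifs
    · rw [mul_one_div]
    · have := hγ0 i
      positivity
  obtain ⟨c₁, hc₁, hc₁N⟩ := prod_lower t ht0 ht1 hts
  -- the first factors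
  set d : ℕ → ℝ := fun i => |1 - 1 / γ i ^ 2 * γ j ^ 2| with hd
  have hdp : ∀ i ∈ Finset.range j, 0 < d i := by
    intro i hi
    rw [Finset.mem_range] at hi
    have h1 := hγ hi
    have h2 := hγ0 i
    rw [hd]
    apply abs_pos.2
    have h3 : 1 < 1 / γ i ^ 2 * γ j ^ 2 := by
      rw [one_div, inv_mul_eq_div, lt_div_iff₀ (by positivity), one_mul]
      exact pow_lt_pow_left₀ h1 h2.le two_ne_zero
    linarith
  have hD : 0 < ∏ i ∈ Finset.range j, d i := Finset.prod_pos hdp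
  have hlimD : Tendsto (fun a => ∏ i ∈ Finset.range j, |1 - v a i * γ j ^ 2|) atTop
      (𝓝 (∏ i ∈ Finset.range j, d i)) := by
    refine tendsto_finsetProd _ fun i hi => ?_
    rw [Finset.mem_range] at hi
    exact (((hlim i hi).mul_const _).const_sub 1).abs
  have hevD : ∀ᶠ a in atTop, (∏ i ∈ Finset.range j, d i) / 2 <
      ∏ i ∈ Finset.range j, |1 - v a i * γ j ^ 2| :=
    hlimD.eventually (lt_mem_nhds (by linarith))
  refine ⟨(∏ i ∈ Finset.range j, d i) / 2 * c₁, by positivity, ?_⟩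
  filter_upwards [hevD, eventually_gt_atTop 0] with a ha ha0
  have hva := hv a ha0
  have hlima : Tendsto (fun N => ‖PP (v a) N (γ j : ℂ)‖) atTop (𝓝 ‖f a (γ j)‖) :=
    (hf a ha0 _).norm
  refine ge_of_tendsto hlima ?_
  filter_upwards [eventually_gt_atTop j] with N hN
  have hnorm : ‖PP (v a) N (γ j : ℂ)‖ = ∏ i ∈ Finset.range N, |1 - v a i * γ j ^ 2| := by
    unfold PP
    rw [norm_prod]
    refine Finset.prod_congr rfl fun i _ => ?_
    rw [← Real.norm_eq_abs, ← Complex.norm_real]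
    push_cast
    rfl
  have hjf : 0 ≤ 1 - v a j * γ j ^ 2 := by linarith [(hva j).2]
  have hsplit : ∏ i ∈ Finset.range N, |1 - v a i * γ j ^ 2| =
      (∏ i ∈ Finset.range j, |1 - v a i * γ j ^ 2|) * ((1 - v a j * γ j ^ 2) *
        ∏ i ∈ Finset.Ico (j + 1) N, |1 - v a i * γ j ^ 2|) := by
    rw [← Finset.prod_range_mul_prod_Ico _ hN.le, Finset.prod_eq_prod_Ico_succ_bot hN,
      abs_of_nonneg hjf]
  have htail : c₁ ≤ ∏ i ∈ Finset.Ico (j + 1) N, |1 - v a i * γ j ^ 2| := by
    refine (hc₁N N).trans ?_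
    rw [← Finset.prod_range_mul_prod_Ico (fun i => 1 - t i) (by omega : j + 1 ≤ N)]
    have h1 : ∏ i ∈ Finset.range (j + 1), (1 - t i) = 1 := by
      refine Finset.prod_eq_one fun i hi => ?_
      rw [Finset.mem_range] at hi
      have : t i = 0 := by
        rw [ht]
        exact if_neg (by omega)
      rw [this, sub_zero]
    rw [h1, one_mul]
    refine Finset.prod_le_prod (fun i _ => by linarith [ht1 i]) fun i hi => ?_
    rw [Finset.mem_Ico] at hi
    have h2 : t i = γ j ^ 2 / γ i ^ 2 := by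
      rw [ht]
      exact if_pos (by omega)
    have h3 : v a i * γ j ^ 2 ≤ γ j ^ 2 / γ i ^ 2 := by
      have h4 := hγ0 i
      rw [le_div_iff₀ (by positivity)]
      have h5 := (hva i).2.le
      have h6 : 0 ≤ γ j ^ 2 := by positivity
      calc v a i * γ j ^ 2 * γ i ^ 2 = v a i * γ i ^ 2 * γ j ^ 2 := by ring
        _ ≤ 1 * γ j ^ 2 := mul_le_mul_of_nonneg_right h5 h6
        _ = γ j ^ 2 := one_mul _
    rw [h2]
    exact (by linarith : 1 - γ j ^ 2 / γ i ^ 2 ≤ 1 - v a i * γ j ^ 2).trans (le_abs_self _)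
  rw [hnorm, hsplit]
  have hD0 : 0 ≤ (∏ i ∈ Finset.range j, d i) / 2 := by positivity
  calc (∏ i ∈ Finset.range j, d i) / 2 * c₁ * (1 - v a j * γ j ^ 2)
      = (∏ i ∈ Finset.range j, d i) / 2 * ((1 - v a j * γ j ^ 2) * c₁) := by ring
    _ ≤ (∏ i ∈ Finset.range j, |1 - v a i * γ j ^ 2|) * ((1 - v a j * γ j ^ 2) *
        ∏ i ∈ Finset.Ico (j + 1) N, |1 - v a i * γ j ^ 2|) :=
        mul_le_mul ha.le (mul_le_mul_of_nonneg_left htail hjf)
          (mul_nonneg hjf hc₁.le) (hD0.trans ha.le)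

end Pool.Agent.H478.WM

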