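import Pool.Agent.H478.WM.Stm

/-!
# Project WM, task LIN: the closure is a complex vector space
-/

open Complex MeasureTheory Filter Topology Set
open scoped ContDiff

namespace Pool.Agent.H478.WM.LIN

open Pool.Agent.H478.WM

theorem tc_lin {a : ℝ} {g h : ℝ → ℂ} (hg : TC a g) (hh : TC a h) (α β : ℂ) :
    TC a (fun x => α * g x + β * h x) := by
  refine ⟨?_, ?_, ?_⟩
  · exact (contDiff_const.mul hg.smooth).add (contDiff_const.mul hh.smooth)
  · intro x
    simp only [hg.even x, hh.even x]
  · intro x hx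
    simp only [hg.supp x hx, hh.supp x hx, mul_zero, add_zero]

theorem tc_int {a : ℝ} {g : ℝ → ℂ} (hg : TC a g) (z : ℂ) :
    Integrable (fun x : ℝ => g x * Complex.cos (z * x)) := by
  apply Continuous.integrable_of_hasCompactSupport
  · have := hg.smooth.continuous
    fun_prop
  · apply HasCompactSupport.intro (isCompact_Icc (a := -a) (b := a))
    intro x hx
    have h1 : a < |x| := by
      by_contra hc
      push Not at hc
      exact hx (abs_le.1 hc)
    rw [hg.supp x h1, zero_mul]

theorem ct_lin {a : ℝ} {g h : ℝ → ℂ} (hg : TC a g) (hh : TC a h) (α β z : ℂ) :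
    Ct (fun x => α * g x + β * h x) z = α * Ct g z + β * Ct h z := by
  unfold Ct
  rw [← integral_const_mul, ← integral_const_mul,
    ← integral_add ((tc_int hg z).const_mul α) ((tc_int hh z).const_mul β)]
  congr 1
  ext x
  ring

theorem q_smul (S : Sys) (u : ℂ → ℂ) (α : ℂ) :
    Q S (fun z => α * u z) = ‖α‖ ^ 2 * Q S u := by
  unfold Q
  rw [← tsum_mul_left]
  congr 1
  ext t
  rw [norm_mul, mul_pow]
  ring

theorem q_nonneg (S : Sys) (u : ℂ → ℂ) : 0 ≤ Q S u := by
  unfold Q
  apply tsum_nonneg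
  intro t
  have := S.one_le t t.2
  positivity

theorem l2_smul (S : Sys) {u : ℂ → ℂ} (hu : L2 S u) (α : ℂ) : L2 S (fun z => α * u z) := by
  unfold L2 at hu ⊢
  refine (hu.mul_left (‖α‖ ^ 2)).congr fun t => ?_
  rw [norm_mul, mul_pow]
  ring

theorem t_LIN (h1 : S_SUM) (h2 : S_L2A) : S_LIN := by
  intro S a u v α β ha hu hv
  obtain ⟨g, hg, hg1, hg2, hg3⟩ := hu
  obtain ⟨h, hh, hh1, hh2, hh3⟩ := hv
  have hk : ∀ n z, Ct (fun x => α * g n x + β * h n x) z = α * Ct (g n) z + β * Ct (h n) z :=
    fun n z => ct_lin (hg n) (hh n) α β z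
  have hdiff : ∀ n, (fun z => Ct (fun x => α * g n x + β * h n x) z - (α * u z + β * v z)) =
      fun z => α * (Ct (g n) z - u z) + β * (Ct (h n) z - v z) := by
    intro n
    ext z
    rw [hk]
    ring
  refine ⟨fun n x => α * g n x + β * h n x, fun n => tc_lin (hg n) (hh n) α β, ?_, ?_, ?_⟩
  · have a1 : TendstoLocallyUniformly (fun n z => α * Ct (g n) z) (fun z => α * u z) atTop :=
      (LipschitzWith.uniformContinuous (K := ‖α‖₊)
        (LipschitzWith.of_dist_le_mul fun x y => by
          rw [dist_eq_norm, dist_eq_norm, ← mul_sub, norm_mul, coe_nnnorm])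
        : UniformContinuous (fun x : ℂ => α * x)).comp_tendstoLocallyUniformly hg1
    have a2 : TendstoLocallyUniformly (fun n z => β * Ct (h n) z) (fun z => β * v z) atTop :=
      (LipschitzWith.uniformContinuous (K := ‖β‖₊)
        (LipschitzWith.of_dist_le_mul fun x y => by
          rw [dist_eq_norm, dist_eq_norm, ← mul_sub, norm_mul, coe_nnnorm])
        : UniformContinuous (fun x : ℂ => β * x)).comp_tendstoLocallyUniformly hh1
    refine (a1.add a2).congr fun n z => ?_
    exact (hk n z).symm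
  · intro n
    have := (h2 S (fun z => Ct (g n) z - u z) (fun z => Ct (h n) z - v z) (fun z => Ct (h n) z - v z)
      α β (hg2 n) (hh2 n) (hh2 n)).1
    show L2 S (fun z => Ct (fun x => α * g n x + β * h n x) z - (α * u z + β * v z))
    rw [hdiff n]
    exact this
  · have hle : ∀ n, Q S (fun z => Ct (fun x => α * g n x + β * h n x) z - (α * u z + β * v z)) ≤
        2 * (‖α‖ ^ 2 * Q S (fun z => Ct (g n) z - u z)) +
        2 * (‖β‖ ^ 2 * Q S (fun z => Ct (h n) z - v z)) := by
      intro n
      rw [hdiff n, ← q_smul, ← q_smul]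
      exact (h2 S (fun z => α * (Ct (g n) z - u z)) (fun z => β * (Ct (h n) z - v z))
        (fun z => β * (Ct (h n) z - v z)) 1 1 (l2_smul S (hg2 n) α) (l2_smul S (hh2 n) β)
        (l2_smul S (hh2 n) β)).2.2.2.1
    refine squeeze_zero (fun n => q_nonneg S _) hle ?_
    have h5 := ((hg3.const_mul (‖α‖ ^ 2)).const_mul 2).add ((hh3.const_mul (‖β‖ ^ 2)).const_mul 2)
    simpa using h5

end Pool.Agent.H478.WM.LIN
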