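import Pool.Agent.H478.WM.Stm

/-!
# LT: below every positive zero of the minimiser there is a node (helper34 for helper478)
-/

set_option autoImplicit false

namespace Pool.Agent.H478.WM

namespace LTaux

/-- the real terms of the orthogonality relation -/
noncomputable def ct (S : Sys) (u : ℂ → ℂ) (x t : ℝ) : ℝ :=
  S.m t * (t ^ 2 * (u (t : ℂ)).re ^ 2 / (t ^ 2 - x ^ 2))

theorem term_eq (S : Sys) (u : ℂ → ℂ) (hr : ∀ t : ℝ, (u t).im = 0) (x t : ℝ) :
    (S.m t : ℂ) * (((t : ℝ) : ℂ) ^ 2 * (u ((t : ℝ) : ℂ)) ^ 2 / (((t : ℝ) : ℂ) ^ 2 - (x : ℂ) ^ 2)) =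
      ((ct S u x t : ℝ) : ℂ) := by
  have h1 : u ((t : ℝ) : ℂ) = (((u (t : ℂ)).re : ℝ) : ℂ) := by
    apply Complex.ext
    · rw [Complex.ofReal_re]
    · rw [Complex.ofReal_im, hr]
  unfold ct
  conv_lhs => rw [h1]
  push_cast
  rfl

end LTaux

open LTaux in
theorem t_LT (h1 : S_ORT1) (h2 : S_NV) : S_LT := by
  intro S a u x ha hu hx hux
  by_contra hcon
  push Not at hcon
  obtain ⟨hs, hz⟩ := h1 S a u (x : ℂ) ha hu hux
  simp only [term_eq S u hu.real] at hs hz
  have hs' : Summable fun t : S.G => ct S u x t := Complex.summable_ofReal.1 hs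
  have hz' : ∑' t : S.G, ct S u x t = 0 := by
    rw [← Complex.ofReal_tsum] at hz
    exact_mod_cast hz
  have hnn : ∀ t : S.G, 0 ≤ ct S u x t := by
    intro t
    have ht := hcon t t.2
    have hm := S.one_le t t.2
    have h3 : 0 ≤ (t : ℝ) ^ 2 - x ^ 2 := by nlinarith
    unfold ct
    exact mul_nonneg (by linarith) (div_nonneg (by positivity) h3)
  have hall : ∀ t : S.G, ct S u x t = 0 := by
    have h3 := (hasSum_zero_iff_of_nonneg hnn).1 (hz' ▸ hs'.hasSum)
    intro t
    exact congrFun h3 t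
  obtain ⟨t, ht, hut⟩ := h2 S a u ha hu
  apply hut
  rcases eq_or_lt_of_le (hcon t ht) with h | h
  · rw [← h]
    exact hux
  · have h3 := hall ⟨t, ht⟩
    unfold ct at h3
    have hm := S.one_le t ht
    have h4 : 0 < t ^ 2 - x ^ 2 := by nlinarith
    have h5 : t ≠ 0 := by linarith
    have h6 : S.m t ≠ 0 := by linarith
    have h7 : (t ^ 2 * (u (t : ℂ)).re ^ 2 / (t ^ 2 - x ^ 2)) = 0 := by
      rcases mul_eq_zero.1 h3 with h8 | h8
      · exact absurd h8 h6
      · exact h8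
    have h8 : t ^ 2 * (u (t : ℂ)).re ^ 2 = 0 := by
      rcases div_eq_zero_iff.1 h7 with h9 | h9
      · exact h9
      · exact absurd h9 h4.ne'
    have h9 : (u (t : ℂ)).re = 0 := by
      rcases mul_eq_zero.1 h8 with h10 | h10
      · exact absurd (pow_eq_zero_iff two_ne_zero |>.1 h10) h5
      · exact pow_eq_zero_iff two_ne_zero |>.1 h10
    apply Complex.ext
    · rw [h9]
      rfl
    · rw [hu.real t]
      rfl

end Pool.Agent.H478.WM
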