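import Pool.Agent.H478.WM.Def

/-!
# Project WM: statements of the subtasks, with complete paper proofs

Every task: create the file `Pool/Agent/H478/WM/<NAME>.lean` importing `Pool.Agent.H478.WM.Stm`, with
`theorem t_<NAME> : S_<NAME>` (or, where the docstring says `uses S_A, S_B`,
`theorem t_<NAME> (h1 : S_A) (h2 : S_B) : S_<NAME>`), in a namespace
`Pool.Agent.H478.WM.<NAME>`.
-/

open Complex MeasureTheory Filter Topology Set
open scoped ContDiff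

namespace Pool.Agent.H478.WM

noncomputable section

/-! ## Part 1. The transforms -/

/-- **TCB.** Basic facts about the transform of a test function.
Proof. `g` is continuous with compact support in `[-a, a]`, so `Ct g` is entire (differentiate under the
integral sign, `hasDerivAt_integral_of_dominated_loc_of_deriv_le`, or any library lemma), and even since
`cos` is. `|cos (z x)| ≤ exp (|x| |Im z|) ≤ exp (a |Im z|)` on `[-a, a]`; Cauchy-Schwarz gives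
`‖Ct g z‖² ≤ (∫_{-a}^a ‖g‖)² exp (2 a |Im z|) ≤ 2 a exp (2 a |Im z|) ∫ ‖g‖²`.
Two integrations by parts (`integral_mul_deriv_eq_deriv_mul` ... on the whole line, compact support):
`Ct g t = - Ct g'' t / t²` for real `t ≠ 0`, and `‖Ct g'' t‖ ≤ ∫ ‖g''‖ =: C`.
The integral over `ℝ` of `‖g‖²` is finite (continuous, compact support). -/
def S_TCB : Prop := ∀ (a : ℝ) (g : ℝ → ℂ), 0 < a → TC a g →
  Differentiable ℂ (Ct g) ∧ (∀ z, Ct g (-z) = Ct g z) ∧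
  (∀ z : ℂ, ‖Ct g z‖ ^ 2 ≤ 2 * a * Real.exp (2 * a * |z.im|) * ∫ x : ℝ, ‖g x‖ ^ 2) ∧
  (∃ C : ℝ, 0 ≤ C ∧ ∀ t : ℝ, t ≠ 0 → ‖Ct g (t : ℂ)‖ ≤ C / t ^ 2)

/-- **SUM.** The values of a transform at the nodes are square summable.
Proof. uses S_TCB. `‖Ct g t‖ ≤ C₁ / t²` for `t ≠ 0` and `‖Ct g t‖ ≤ C₂` for all real `t` (bound of TCB with
`Im t = 0`). Hence `S.m t ‖Ct g t‖² ≤ C₁ C₂ S.m t / t²` for the nodes `t > 0`, and `S.summ`. -/
def S_SUM : Prop := ∀ (S : Sys) (a : ℝ) (g : ℝ → ℂ), 0 < a → TC a g → L2 S (Ct g)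

/-- **L2A.** Linear combinations and the triangle inequality in the weighted `ℓ²` space, continuity of the
bilinear form. The weights `S.m t` are `≥ 1 > 0` at the nodes.
Proof. `‖α u + β v‖² ≤ 2 |α|² ‖u‖² + 2 |β|² ‖v‖²` termwise; the products are summable by
`2 ‖u v‖ ≤ ‖u‖² + ‖v‖²`; linearity of `tsum`; the last item is the Cauchy-Schwarz inequality for sums
(`Real.inner_le_Lp_mul_Lq_tsum_of_nonneg` with `p = q = 2`, or from the discriminant, or on finite sums). -/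
def S_L2A : Prop := ∀ (S : Sys) (u v w : ℂ → ℂ) (α β : ℂ), L2 S u → L2 S v → L2 S w →
  L2 S (fun z => α * u z + β * v z) ∧
  Summable (fun t : S.G => (S.m t : ℂ) * (u ((t : ℝ) : ℂ) * v ((t : ℝ) : ℂ))) ∧
  Bf S w (fun z => α * u z + β * v z) = α * Bf S w u + β * Bf S w v ∧
  Q S (fun z => u z + v z) ≤ 2 * Q S u + 2 * Q S v ∧
  Q S (fun z => u z + v z) + Q S (fun z => u z - v z) = 2 * Q S u + 2 * Q S v ∧
  ‖Bf S u v‖ ^ 2 ≤ Q S u * Q S v

/-- **PL.** Plancherel. For the test function `g` put `F t = Ct g t` (`t` real). Then `F` is continuously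
differentiable, `∫ |F|² = 2 π ∫ |g|²` and `∫ |F'|² = 2 π ∫ x² |g x|² ≤ 2 π a² ∫ |g|²`.
Proof. `g` even: `Ct g t = ∫ g x exp (-i t x) dx` is the Fourier transform (`𝓕 g (t / 2π)`), and
`F' t = ∫ g x (-x) sin (t x) dx` is, up to the factor `-i` or `i`, the Fourier transform of the odd function
`x g x`. Apply Plancherel in Mathlib (Schwartz functions: a smooth function with compact support is a Schwartz
function, `HasCompactSupport.toSchwartzMap` or similar; `SchwartzMap.integral_norm_sq_fourier`, or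
`MeasureTheory.integral_norm_sq_fourier..`; the library also has several versions) and substitute
`t = 2 π ξ`. -/
def S_PL : Prop := ∀ (a : ℝ) (g : ℝ → ℂ), 0 < a → TC a g →
  ContDiff ℝ 1 (fun t : ℝ => Ct g (t : ℂ)) ∧
  Integrable (fun t : ℝ => ‖Ct g (t : ℂ)‖ ^ 2) ∧
  ∫ t : ℝ, ‖Ct g (t : ℂ)‖ ^ 2 = 2 * Real.pi * ∫ x : ℝ, ‖g x‖ ^ 2 ∧
  Integrable (fun t : ℝ => ‖deriv (fun s : ℝ => Ct g (s : ℂ)) t‖ ^ 2) ∧
  ∫ t : ℝ, ‖deriv (fun s : ℝ => Ct g (s : ℂ)) t‖ ^ 2 ≤ 2 * Real.pi * a ^ 2 * ∫ x : ℝ, ‖g x‖ ^ 2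

/-- **GRID.** A function which is small on a fine grid and whose derivative is square integrable is small.
Proof. For `k = 0, 1, 2, ...` let `J_k = [T + 2 k h, T + 2 (k+1) h]` and pick a node
`s_k ∈ G ∩ [T + 2 k h, T + 2 k h + h] ⊆ J_k`; the `s_k` are pairwise distinct. For `t ∈ J_k`:
`‖f t‖ ≤ ‖f s_k‖ + ∫_{J_k} ‖f'‖`, so `‖f t‖² ≤ 2 ‖f s_k‖² + 2 · 2 h ∫_{J_k} ‖f'‖²` (Cauchy-Schwarz).
Integrate over `J_k` (length `2 h`): `∫_{J_k} ‖f‖² ≤ 4 h ‖f s_k‖² + 8 h² ∫_{J_k} ‖f'‖²`. Sum over `k`. -/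
def S_GRID : Prop := ∀ (G : Set ℝ) (T h : ℝ) (f : ℝ → ℂ), 0 < h →
  (∀ t : ℝ, T ≤ t → ∃ s ∈ G, t ≤ s ∧ s ≤ t + h) → ContDiff ℝ 1 f →
  Integrable (fun t => ‖f t‖ ^ 2) → Integrable (fun t => ‖deriv f t‖ ^ 2) →
  Summable (fun s : G => ‖f s‖ ^ 2) →
  ∫ t in Ioi T, ‖f t‖ ^ 2 ≤ 4 * h * ∑' s : G, ‖f s‖ ^ 2 + 8 * h ^ 2 * ∫ t : ℝ, ‖deriv f t‖ ^ 2

/-- **UNI.** An entire function of exponential type which vanishes on a set with gaps tending to zero is zero.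
Proof. Suppose `f w ≠ 0`. Let `K > 0`. By the gap condition with `h = 1/K` the number `n(r)` of points of `G` in
`(0, r]` is `≥ K r / 2 - C_K` for large `r` (disjoint intervals of length `2 h` each contain a point). Fix `r`
large and points `γ_1, ..., γ_n ∈ G ∩ (0, r]`, distinct. `p = ∏ (z - γ_j)` divides `f`: `f = p g`, `g` entire
(remove the zeros one by one, e.g. `dslope`). On `|z| = R := 3 r + 2 |w|`:
`|g z| ≤ C exp (A R) / (R - r)^n`, so by the maximum principle `|g w| ≤ C exp (A R) / (R - r)^n` and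
`|f w| ≤ C exp (A R) ∏ |w - γ_j| / (R - r)^n ≤ C exp (A R) ((r + |w|) / (R - r))^n ≤ C exp (A R) 2^(-n)`.
With `n ≥ K r / 2 - C_K` and `K` so large that `K (log 2) / 2 > 3 A + 1` the right side tends to zero as
`r → ∞`. Contradiction. (Alternatively Jensen's formula.) -/
def S_UNI : Prop := ∀ (G : Set ℝ) (f : ℂ → ℂ) (C A : ℝ),
  (∀ h : ℝ, 0 < h → ∃ T : ℝ, ∀ t : ℝ, T ≤ t → ∃ s ∈ G, t ≤ s ∧ s ≤ t + h) → Differentiable ℂ f →
  (∀ z, ‖f z‖ ≤ C * Real.exp (A * ‖z‖)) → (∀ t ∈ G, f (t : ℂ) = 0) → ∀ z, f z = 0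

/-- **CPT.** Compactness: a bounded sequence of test functions has a subsequence whose transforms converge
pointwise to an entire function of exponential type.
Proof. Let `c_k(n) = ∫ g_n(x) x^(2k) dx`; `|c_k(n)| ≤ (2 a)^(1/2) a^(2k)` (Cauchy-Schwarz). The sequence
`n ↦ (c_k(n))_k` lies in a product of compact discs, which is sequentially compact (countable product:
`isCompact_univ_pi`, metrizable), so a subsequence converges for every `k`, to `c_k` say,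
`|c_k| ≤ (2a)^(1/2) a^(2k)`. `Ct (g n) z = ∑_k (-1)^k c_k(n) z^(2k) / (2k)!` (dominated by
`(2a)^(1/2) (a |z|)^(2k) / (2k)!`), so by Tannery (`tendsto_tsum_of_dominated_convergence`)
`Ct (g (φ n)) z → F z := ∑_k (-1)^k c_k z^(2k) / (2k)!`, an entire function (power series, or locally uniform
limit). `‖F z‖ ≤ lim sup ‖Ct (g n) z‖ ≤ (2 a)^(1/2) exp (a |Im z|)` by TCB. Uses S_TCB. (Or use Montel's theorem from
the library, or weak compactness.) -/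
def S_CPT : Prop := ∀ (a : ℝ) (g : ℕ → ℝ → ℂ), 0 < a → (∀ n, TC a (g n)) →
  (∀ n, ∫ x : ℝ, ‖g n x‖ ^ 2 ≤ 1) →
  ∃ φ : ℕ → ℕ, StrictMono φ ∧ ∃ F : ℂ → ℂ, Differentiable ℂ F ∧
    (∀ z : ℂ, ‖F z‖ ^ 2 ≤ 2 * a * Real.exp (2 * a * |z.im|)) ∧
    ∀ z, Tendsto (fun n => Ct (g (φ n)) z) atTop (𝓝 (F z))

/-- **COE.** Coercivity. uses S_TCB, S_SUM, S_PL, S_GRID, S_UNI, S_CPT (in this order as hypotheses).
Proof. Otherwise for every `n` there is `g_n` with `TC a (g_n)`, `Q S (Ct g_n) < (1/(n+1)) ∫ |g_n|²`; scaling,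
`∫ |g_n|² = 1` (note `∫ |g_n|² > 0`, and `Ct` is linear, `Q` homogeneous of degree 2). Take the subsequence and `F` from CPT.
For a node `t`: `‖Ct g_n t‖² ≤ S.m t ‖Ct g_n t‖² ≤ Q S (Ct g_n) → 0`, so `F t = 0`; `‖F z‖ ≤ C exp (a ‖z‖)`;
by UNI `F = 0`. Choose `h > 0` with `8 h² a² ≤ 1/2` and `T > 0` from `S.gaps h`. With `f t = Ct g_n t` (real
`t`), an even function of `t`, Plancherel gives
`2 π = ∫_ℝ |f|² = 2 ∫_0^∞ |f|² = 2 ∫_0^T |f|² + 2 ∫_T^∞ |f|²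
 ≤ 2 ∫_0^T |f|² + 2 (4 h Q S (Ct g_n) + 8 h² · 2 π a²)`, so `2 π ≤ 2 ∫_0^T |f|² + 8 h Q S (Ct g_n) + 2 π · 16 h² a²`;
take instead `16 h² a² ≤ 1/2`. Then `π ≤ 2 ∫_0^T |Ct g_n t|² dt + 8 h Q S (Ct g_n) → 0` by dominated
convergence along the subsequence (`‖Ct g_n t‖² ≤ 2 a`, pointwise limit `0`), a contradiction.
(`∑' ‖f t‖² ≤ ∑' S.m t ‖f t‖²` since `S.m t ≥ 1`.) -/
def S_COE : Prop := ∀ (S : Sys) (a : ℝ), 0 < a → ∃ c : ℝ, 0 < c ∧ ∀ g : ℝ → ℂ, TC a g →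
  c * (∫ x : ℝ, ‖g x‖ ^ 2) ≤ Q S (Ct g)

/-- **CAU.** Completeness. uses S_TCB, S_SUM, S_L2A, S_COE.
Proof. `Ct (g m) - Ct (g n) = Ct (g m - g n)` and `g m - g n` is a test function. By COE
`∫ |g m - g n|² ≤ ε / c` and by TCB `‖Ct (g m) z - Ct (g n) z‖² ≤ 2 a exp (2 a R) ε / c` for `‖z‖ ≤ R`: the sequence is
uniformly Cauchy on every disc, so it converges locally uniformly to some `u`. For the `ℓ²` statement fix `ε`
and `N`; for `n ≥ N` and every finite set `s` of nodes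
`∑_{t ∈ s} S.m t ‖Ct (g n) t - u t‖² = lim_m ∑_{t ∈ s} S.m t ‖Ct (g n) t - Ct (g m) t‖² ≤ ε`, so the sum over
all nodes converges and is `≤ ε` for `n ≥ N`. For the finitely many other `n`: difference of two elements of `L2`. -/
def S_CAU : Prop := ∀ (S : Sys) (a : ℝ) (g : ℕ → ℝ → ℂ), 0 < a → (∀ n, TC a (g n)) →
  (∀ ε : ℝ, 0 < ε → ∃ N : ℕ, ∀ m n : ℕ, N ≤ m → N ≤ n → Q S (fun z => Ct (g m) z - Ct (g n) z) ≤ ε) →
  ∃ u : ℂ → ℂ, Cv S (fun n => Ct (g n)) u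

/-- **HE.** Elements of the closure. uses S_TCB, S_SUM, S_L2A, S_COE.
Proof. `u` is a locally uniform limit of entire even functions, so entire and even. `L2`: `u = Ct (g n) - (Ct (g n) - u)`.
Growth: `Q S (Ct (g n)) ≤ 2 Q S (Ct (g n) - u) + 2 Q S u` is bounded, so `∫ |g n|² ≤ M` by COE and
`‖Ct (g n) z‖² ≤ 2 a M exp (2 a |Im z|)` by TCB; let `n → ∞`. Real combinations: add the sequences.
The constant function `0` is in the closure. -/
def S_HE : Prop := ∀ (S : Sys) (a : ℝ) (u : ℂ → ℂ), 0 < a → InH S a u →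
  Differentiable ℂ u ∧ (∀ z, u (-z) = u z) ∧ L2 S u ∧
  (∃ C : ℝ, 0 ≤ C ∧ ∀ z : ℂ, ‖u z‖ ≤ C * Real.exp (a * |z.im|))

/-- **LIN.** The closure is a complex vector space. uses S_SUM, S_L2A.
Proof. If `Ct (g n) → u` and `Ct (h n) → v` then `Ct (α g n + β h n) = α Ct (g n) + β Ct (h n) → α u + β v`
locally uniformly, and `Q S (α (Ct (g n) - u) + β (Ct (h n) - v)) ≤ 2 |α|² Q S (..) + 2 |β|² Q S (..) → 0`
(prove it directly from the definitions; `TC a` is closed under linear combinations). -/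
def S_LIN : Prop := ∀ (S : Sys) (a : ℝ) (u v : ℂ → ℂ) (α β : ℂ), 0 < a → InH S a u → InH S a v →
  InH S a (fun z => α * u z + β * v z)

/-- **NZ.** For every `x` some test function has transform `1` at `x`.
Proof. Let `b` be a smooth even nonnegative function supported in `[-1, 1]` with integral one (`ContDiffBump`
centred at `0`, it is even) and `b_r(s) = b (s / r) / r`. As `r → 0`, `Ct b_r x = ∫ b(s) cos (x r s) ds → 1`, so it is
nonzero for some `r ≤ a`; divide by this number. -/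
def S_NZ : Prop := ∀ (a : ℝ) (x : ℂ), 0 < a → ∃ b : ℝ → ℂ, TC a b ∧ Ct b x = 1

/-- **ODE.** Division of a transform by `z² - x²`.
Proof. `k u = -(1/x) ∫_{-a}^u sin (x (u - s)) h s ds
 = -(1/x) [sin (x u) ∫_{-a}^u cos (x s) h s ds - cos (x u) ∫_{-a}^u sin (x s) h s ds]`, smooth (products of smooth
functions and primitives of smooth functions), `k' u = -∫_{-a}^u cos (x (u - s)) h s ds` and `k'' = -h - x² k`.
For `u < -a`, `k u = 0` (`h` vanishes). For `u > a` the two integrals are `∫ cos (x s) h s ds = Ct h x = 0` and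
`∫ sin (x s) h s ds = 0` (`h` even), so `k u = 0`. Even: substituting `s → -s`,
`k (-u) = -(1/x) ∫_{-a}^{-u} sin (x (-u - s)) h s ds = -(1/x) ∫_u^a sin (x (s - u)) h s ds
 = (1/x) ∫_u^a sin (x (u - s)) h s ds = k u` because `∫_{-a}^a sin (x (u - s)) h s ds = sin (x u) Ct h x = 0`.
Two integrations by parts: `Ct (k'') z = -z² Ct k z`. Hence `Ct h z = Ct (-k'' - x² k) z = (z² - x²) Ct k z`. -/
def S_ODE : Prop := ∀ (a : ℝ) (x : ℂ) (h : ℝ → ℂ), 0 < a → x ≠ 0 → TC a h → Ct h x = 0 →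
  ∃ k : ℝ → ℂ, TC a k ∧ ∀ z : ℂ, (z ^ 2 - x ^ 2) * Ct k z = Ct h z

/-- **EX.** Division in the closure. uses S_TCB, S_SUM, S_L2A, S_HE, S_NZ, S_ODE.
Proof. Let `Ct (g n) → v` as in `InH`. Let `b` be from NZ and `h n = g n - (Ct (g n) x) b`; `Ct (h n) x = 0` and
`Ct (h n) = Ct (g n) - (Ct (g n) x) Ct b → v` in the sense `Cv` since `Ct (g n) x → v x = 0` and `Ct b ∈ L2`.
Let `k n` be from ODE for `h n`. Since `v` is entire and even and `v x = 0`, `x ≠ 0`, also `v (-x) = 0` and there is an entire `k`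
with `(z² - x²) k z = v z` (`dslope` twice). For `R > ‖x‖ + 1` and `‖z‖ = R`:
`‖Ct (k n) z - k z‖ = ‖Ct (h n) z - v z‖ / ‖z² - x²‖ ≤ ‖Ct (h n) z - v z‖` as `‖z² - x²‖ ≥ R² - ‖x‖² ≥ 1`; by the maximum principle
the same bound (sup over the circle) holds in the disc `‖z‖ ≤ R`; so `Ct (k n) → k` locally uniformly.
`ℓ²`: the nodes `t` with `‖t² - x²‖ < 1` are finitely many (nodes are locally finite: `S.summ` and `m ≥ 1`); for these
`‖Ct (k n) t - k t‖ → 0`; for the others `‖Ct (k n) t - k t‖ ≤ ‖Ct (h n) t - v t‖`. -/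
def S_EX : Prop := ∀ (S : Sys) (a : ℝ) (v : ℂ → ℂ) (x : ℂ), 0 < a → x ≠ 0 → InH S a v → v x = 0 →
  ∃ k : ℂ → ℂ, InH S a k ∧ ∀ z : ℂ, (z ^ 2 - x ^ 2) * k z = v z

/-! ## Part 2. The minimiser -/

/-- **MINA.** Existence of a minimising sequence with a limit. uses S_TCB, S_SUM, S_L2A, S_CAU.
Proof. The set defining `qS S a` is nonempty (normalised `ContDiffBump` at `0` with outer radius `a`) and bounded below by `0`.
Choose `g n` with `Adm a (g n)` and `Q S (Ct (co (g n))) ≤ qS S a + 1/(n+1)`. For admissible `g, h` also `(g + h)/2` is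
admissible, so by the parallelogram law (S_L2A)
`Q (Ct g - Ct h) = 2 Q (Ct g) + 2 Q (Ct h) - 4 Q (Ct ((g + h)/2)) ≤ 2 Q (Ct g) + 2 Q (Ct h) - 4 qS S a`.
So the sequence is Cauchy and S_CAU applies. -/
def S_MINA : Prop := ∀ (S : Sys) (a : ℝ), 0 < a → ∃ (g : ℕ → ℝ → ℝ) (u : ℂ → ℂ), MinSeq S a g u

/-- **MINB.** Near minimisers are close to the limit. uses S_TCB, S_SUM, S_L2A, S_COE.
Proof. Let `k` be admissible with `Q (Ct k) ≤ qS + δ`. As in MINA `Q (Ct k - Ct (g n)) ≤ 2 δ + 2 (Q (Ct (g n)) - qS)`; by COE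
`∫ |k - g n|² ≤ (..)/c` and by TCB, for `‖z‖ ≤ R`, `‖Ct k z - Ct (g n) z‖² ≤ 2 a exp (2 a R) (2 δ + 2 (Q (Ct (g n)) - qS)) / c`.
`n → ∞`: `‖Ct k z - u z‖² ≤ 4 a exp (2 a R) δ / c`. Choose `δ` so that this is `≤ ε²`. -/
def S_MINB : Prop := ∀ (S : Sys) (a : ℝ) (g : ℕ → ℝ → ℝ) (u : ℂ → ℂ), 0 < a → MinSeq S a g u →
  ∀ R ε : ℝ, 0 < ε → ∃ δ : ℝ, 0 < δ ∧ ∀ k : ℝ → ℝ, Adm a k → Q S (Ct (co k)) ≤ qS S a + δ →
    ∀ z : ℂ, ‖z‖ ≤ R → ‖Ct (co k) z - u z‖ ≤ ε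

/-- **MINC.** Simple facts: `u 0 = 1`, `u` is real on the real axis, `Q S u = qS S a`, `0 < qS S a`.
uses S_TCB, S_SUM, S_L2A, S_HE, S_UNI.
Proof. `Ct (co (g n)) 0 = ∫ g n = 1` and `Ct (co (g n)) t` is real for real `t`: limits. `u` is in `InH S a`. From
`|√Q(v) - √Q(w)| ≤ √Q(v - w)` (or: `Q(u) ≤ (1+η) Q(v) + (1 + 1/η) Q(u - v)` for every `η > 0`) and
`Q (Ct (g n) - u) → 0` we get `Q S u = lim Q (Ct (g n)) = qS S a`. `qS ≥ 0`; if `qS = 0` then `Q S u = 0`, `u t = 0` at all nodes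
(`m ≥ 1`), `‖u z‖ ≤ C exp (a ‖z‖)` by HE, so `u = 0` by UNI, contradiction with `u 0 = 1`. -/
def S_MINC : Prop := ∀ (S : Sys) (a : ℝ) (g : ℕ → ℝ → ℝ) (u : ℂ → ℂ), 0 < a → MinSeq S a g u →
  InH S a u ∧ u 0 = 1 ∧ (∀ t : ℝ, (u t).im = 0) ∧ Q S u = qS S a ∧ 0 < qS S a

/-- **MIND.** The Euler-Lagrange equation. uses S_TCB, S_SUM, S_L2A, S_HE, S_MINC.
Proof. Write `B = Bf S`, `q = qS S a`. (1) Let `h` be real, `TR a h`, `∫ h = 0`. For real `s`, `g n + s h` is admissible, so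
`q ≤ Q (Ct (g n) + s Ct h) = Q (Ct (g n)) + 2 s B(Ct (g n), Ct h) + s² Q (Ct h)` (all values at the nodes are real).
`n → ∞` (continuity of `B`, S_L2A): `0 ≤ 2 s B(u, Ct h) + s² Q (Ct h)` for all real `s`, hence `B(u, Ct h) = 0` (a real number).
(2) `g n - g 0` has integral `0`, so `B(u, Ct (g n)) = B(u, Ct (g 0))` for all `n`, and the limit is
`B(u, u) = Q S u = q` (`u` real at the nodes). So `B(u, Ct (g 0)) = q`, and for every real `h` with `TR a h`: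
`B(u, Ct h) = (∫ h) q` (apply (1) to `h - (∫ h) g 0`). (3) complex `h` with `TC a h`: real and imaginary parts are `TR a`, so
`B(u, Ct h) = q ∫ h = q Ct h 0`. (4) `v` in the closure: `Ct (h n) → v`; `B(u, Ct (h n)) → B(u, v)` by Cauchy-Schwarz and
`Ct (h n) 0 → v 0`. -/
def S_MIND : Prop := ∀ (S : Sys) (a : ℝ) (g : ℕ → ℝ → ℝ) (u : ℂ → ℂ), 0 < a → MinSeq S a g u →
  ∀ v : ℂ → ℂ, InH S a v → Bf S u v = (qS S a : ℂ) * v 0

/-! ## Part 3. The zeros of the minimiser -/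

/-- **ORT1.** Orthogonality at one zero. uses S_L2A, S_HE, S_LIN, S_EX.
Proof. `x ≠ 0` as `u 0 = 1`. By EX `(z² - x²) k z = u z` with `InH S a k`. `v z := z² k z = u z + x² k z` is in the closure by LIN and `v 0 = 0`.
`el` gives `Bf S u v = 0` (summable by S_L2A, HE). At a node `t` with `t² ≠ x²`: `u t * v t = t² (u t)² / (t² - x²)`; if `t² = x²` then
`u t = (t² - x²) k t = 0` and both sides are `0` (division by zero is zero in Lean). -/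
def S_ORT1 : Prop := ∀ (S : Sys) (a : ℝ) (u : ℂ → ℂ) (x : ℂ), 0 < a → IsMin S a u → u x = 0 →
  Summable (fun t : S.G => (S.m t : ℂ) * (((t : ℝ) : ℂ) ^ 2 * (u ((t : ℝ) : ℂ)) ^ 2 / (((t : ℝ) : ℂ) ^ 2 - x ^ 2))) ∧
  ∑' t : S.G, (S.m t : ℂ) * (((t : ℝ) : ℂ) ^ 2 * (u ((t : ℝ) : ℂ)) ^ 2 / (((t : ℝ) : ℂ) ^ 2 - x ^ 2)) = 0

/-- **ORT2.** Orthogonality at two zeros (or a double zero). uses S_L2A, S_HE, S_LIN, S_EX.
Proof. `u x = 0`, `u y = 0`, `x, y ≠ 0` since `u 0 = 1`. EX gives `k₁` in the closure with `(z² - x²) k₁ = u`; `k₁ = (z² - y²) k` where `z² ≠ x²`, hence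
everywhere by continuity; so `k₁ y = 0` and EX gives `k₂` in the closure with `(z² - y²) k₂ = k₁`; `k₂ = k` (where `z² ≠ y²`, so everywhere).
`v z := z² k z = k₁ z + y² k z` is in the closure, `v 0 = 0`, so `Bf S u v = 0`; evaluate at the nodes as in ORT1
(if `t² = x²` or `t² = y²` then `u t = 0`). -/
def S_ORT2 : Prop := ∀ (S : Sys) (a : ℝ) (u k : ℂ → ℂ) (x y : ℂ), 0 < a → IsMin S a u →
  Differentiable ℂ k → (∀ z : ℂ, (z ^ 2 - x ^ 2) * (z ^ 2 - y ^ 2) * k z = u z) →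
  Summable (fun t : S.G => (S.m t : ℂ) * (((t : ℝ) : ℂ) ^ 2 * (u ((t : ℝ) : ℂ)) ^ 2 /
    ((((t : ℝ) : ℂ) ^ 2 - x ^ 2) * (((t : ℝ) : ℂ) ^ 2 - y ^ 2)))) ∧
  ∑' t : S.G, (S.m t : ℂ) * (((t : ℝ) : ℂ) ^ 2 * (u ((t : ℝ) : ℂ)) ^ 2 /
    ((((t : ℝ) : ℂ) ^ 2 - x ^ 2) * (((t : ℝ) : ℂ) ^ 2 - y ^ 2))) = 0

/-- **NV.** The minimiser does not vanish at all nodes. uses S_HE, S_UNI.
Proof. HE gives `‖u z‖ ≤ C exp (a ‖z‖)`; if `u` vanished at all nodes then `u = 0` by UNI, but `u 0 = 1`. -/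
def S_NV : Prop := ∀ (S : Sys) (a : ℝ) (u : ℂ → ℂ), 0 < a → IsMin S a u → ∃ t ∈ S.G, u (t : ℂ) ≠ 0

/-- **RZ.** The zeros of the minimiser are real. uses S_ORT1, S_NV.
Proof. Let `w = x²`, `c_t = m t * t² (u t)² ≥ 0` (real, as `u t` is real), not all zero. Imaginary part of ORT1:
`0 = ∑ c_t Im (1/(t² - w)) = (Im w) ∑ c_t / |t² - w|²`. If `Im w ≠ 0` then all terms are zero, `c_t = 0` for all `t`: contradiction. So `w` is real.
If `w < 0` then all terms `c_t / (t² - w)` are `≥ 0` with sum `0`, so all `c_t = 0`, contradiction. `w = 0`: `u 0 = 1 ≠ 0`. So `w > 0` and `x` is real. -/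
def S_RZ : Prop := ∀ (S : Sys) (a : ℝ) (u : ℂ → ℂ) (x : ℂ), 0 < a → IsMin S a u → u x = 0 → x.im = 0

/-- **LT.** Below every positive zero there is a node. uses S_ORT1, S_NV.
Proof. If all nodes are `≥ x` then all terms `c_t / (t² - x²)` of ORT1 are `≥ 0` (for `t = x` the term is `0` by convention) with sum `0`, so
`c_t = 0` for all `t ≠ x`; and `u x = 0`. So `u t = 0` at all nodes, contradiction with NV. -/
def S_LT : Prop := ∀ (S : Sys) (a : ℝ) (u : ℂ → ℂ) (x : ℝ), 0 < a → IsMin S a u → 0 < x → u (x : ℂ) = 0 →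
  ∃ t ∈ S.G, t < x

/-- **IL.** Between two positive zeros there is a node, and the zeros are simple. uses S_HE, S_ORT2, S_NV.
Proof. (a) `0 < x < y`, `u x = u y = 0`: `u` is even, entire and vanishes at the four distinct points `±x, ±y`, so there is an entire `k` with
`(z² - x²)(z² - y²) k = u`. If no node lies in `(x, y)`, all terms `c_t / ((t² - x²)(t² - y²))` of ORT2 are `≥ 0`; sum zero gives `c_t = 0` for the nodes
`t ≠ x, y`; also `u x = u y = 0`. So `u = 0` at all nodes, contradiction with NV.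
(b) if `u x = 0 = u' x` with `x ≠ 0` (real by RZ, but this is not needed if the statement is only for real `x`): `u` even, so double zeros at `±x`,
and `u = (z² - x²)² k`, `k` entire; all terms `c_t / (t² - x²)²` are `≥ 0`; same contradiction. -/
def S_IL : Prop := ∀ (S : Sys) (a : ℝ) (u : ℂ → ℂ), 0 < a → IsMin S a u →
  (∀ x y : ℝ, 0 < x → x < y → u (x : ℂ) = 0 → u (y : ℂ) = 0 → ∃ t ∈ S.G, x < t ∧ t < y) ∧
  (∀ x : ℝ, u (x : ℂ) = 0 → deriv u (x : ℂ) ≠ 0)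

/-- **CNT.** Counting from interlacing (pure combinatorics).
Proof. If the set of nodes `< y` is infinite there is nothing to prove (`encard = ⊤`). It suffices that every finite subset
`{x_0 < ... < x_(n-1)}` of `Z ∩ (-∞, y]` has at most `encard` many elements: there are distinct nodes `t_0 < x_0`, `x_(i-1) < t_i < x_i`. -/
def S_CNT : Prop := ∀ (Z G : Set ℝ) (y : ℝ), (∀ x ∈ Z, ∃ t ∈ G, t < x) →
  (∀ x ∈ Z, ∀ x' ∈ Z, x < x' → ∃ t ∈ G, x < t ∧ t < x') →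
  {x : ℝ | x ∈ Z ∧ x ≤ y}.encard ≤ {t : ℝ | t ∈ G ∧ t < y}.encard

/-! ## Part 4. Products -/

/-- **ENUM.** The nodes form an increasing sequence.
Proof. `G` is infinite (gaps) and `G ∩ (-∞, T]` is finite for every `T` (`∑ m/t² < ∞`, `m ≥ 1`, so only finitely many `t ≤ T`); enumerate it increasingly
(`Nat.nth`-like: e.g. use `Set.Infinite` with a locally finite order, or define `γ n` recursively as the least element of `G` larger than `γ (n-1)`).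
Summability of `1/γ_n²`: `S.summ`, `m ≥ 1`, and injectivity of `γ`. -/
def S_ENUM : Prop := ∀ S : Sys, ∃ γ : ℕ → ℝ, StrictMono γ ∧ Set.range γ = S.G ∧ (∀ n, 0 < γ n) ∧
  Summable (fun n => 1 / γ n ^ 2) ∧ Tendsto γ atTop atTop

/-- **HAD.** Hadamard's factorisation for even entire functions of order less than two with simple zeros `± 1/√v_n`.
Proof. `f` is even and entire, so `f z = φ (z²)` with `φ` entire, `φ 0 = 1`, `|φ w| ≤ C exp (A |w|^(3/4))`. The zeros of `φ` are exactly the numbers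
`w_n = 1 / v_n` (`v_n ≠ 0`), pairwise distinct and simple (`f' z = 2 z φ'(z²)`). The product `P w = ∏ (1 - v_n w)` converges locally uniformly
(`∑ v_n < ∞`), is entire, with exactly the same zeros, also simple; so `E = φ / P` is entire without zeros (removable singularities).
Growth of `E`: let `R` be large, `τ(R) = ∑_{0 < v_n < 1/(2R)} v_n → 0`. Split `P = P₁ P₂`, `P₁` the finite product over `v_n ≥ 1/(2R)`. On `|w| = 4 R`,
`|1 - v_n w| ≥ v_n 4 R - 1 ≥ 1` for the factors of `P₁`, so `|φ / P₁| ≤ C exp (A (4R)^(3/4))` on this circle and by the maximum principle for `|w| ≤ R` too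
(`φ/P₁ = E P₂` is entire). For `|w| ≤ R`: `|P₂ w| ≥ ∏ (1 - v_n R) ≥ exp (-2 R τ(R))` as `1 - s ≥ exp (-2 s)` for `0 ≤ s ≤ 1/2`. So
`|E w| ≤ C exp (A (4R)^(3/4) + 2 R τ(R))` for `|w| ≤ R`: `log |E| ≤ o(R)`. `E = exp g` with `g` entire, `g 0 = 0`, `Re g ≤ o(R)` on `|w| ≤ R`; Borel-Carathéodory
(or the coefficient bound `|a_n| R^n ≤ 4 max (0, max Re g) - 2 Re g 0`) gives `g = 0`. So `φ = P`, and the partial products converge.
Library tools: `Pool/Graph/R_pool_sql_team_seeded_1acbe0a2/Y818/FV/LOGD.lean` (real exponent Hadamard for the logarithmic derivative),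
`.../W743/BE/Grow.lean` (zero-free entire functions of order < 1 are constant). -/
def S_HAD : Prop := ∀ (f : ℂ → ℂ) (C A : ℝ) (v : ℕ → ℝ), Differentiable ℂ f → (∀ z, f (-z) = f z) → f 0 = 1 →
  (∀ z, ‖f z‖ ≤ C * Real.exp (A * ‖z‖ ^ (3 / 2 : ℝ))) → (∀ n, 0 ≤ v n) → Summable v →
  (∀ m n, v m ≠ 0 → v m = v n → m = n) → (∀ z, f z = 0 ↔ ∃ n, v n ≠ 0 ∧ (v n : ℂ) * z ^ 2 = 1) →
  (∀ z, f z = 0 → deriv f z ≠ 0) → ∀ z, Tendsto (fun N => PP v N z) atTop (𝓝 (f z))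

/-- **ZEN.** Enumeration of the zeros of the minimiser, compared with the nodes (elementary).
Proof. Let `Z = {x > 0 : f x = 0}`, a set without finite accumulation point (`f` is a nonzero entire function). Enumerate it increasingly as
`x_0 < x_1 < ...` (finite or infinite) and let `v_n = 1 / x_n²`, `v_n = 0` beyond the end. By induction `x_n > γ_n`: there is a node below
`x_0` and one in each `(x_(i-1), x_i)`, `i ≤ n`, so at least `n + 1` nodes are `< x_n`, and `γ` is increasing. Zeros of `f`: they are real,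
nonzero, and `f` is even, so `f z = 0` iff `z = ± x_n` for some `n`. Summability: `0 ≤ v_n ≤ 1/γ_n²`. -/
def S_ZEN : Prop := ∀ (f : ℂ → ℂ) (γ : ℕ → ℝ), Differentiable ℂ f → (∀ z, f (-z) = f z) → f 0 = 1 →
  (∀ z, f z = 0 → z.im = 0) → StrictMono γ → (∀ n, 0 < γ n) →
  (∀ x : ℝ, 0 < x → f x = 0 → ∃ n, γ n < x) →
  (∀ x y : ℝ, 0 < x → x < y → f x = 0 → f y = 0 → ∃ n, x < γ n ∧ γ n < y) →
  ∃ v : ℕ → ℝ, (∀ n, 0 ≤ v n ∧ v n * γ n ^ 2 < 1) ∧ (∀ m n, v m ≠ 0 → v m = v n → m = n) ∧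
    (∀ z, f z = 0 ↔ ∃ n, v n ≠ 0 ∧ (v n : ℂ) * z ^ 2 = 1)

/-- **LB.** Lower bound of the other factors at a node.
Proof. `|f a γ_j| = |1 - v_j γ_j²| ∏_{i<j} |1 - v_i γ_j²| ∏_{i>j} |1 - v_i γ_j²|` (limit of partial products). For `i > j`:
`0 ≤ v_i γ_j² < γ_j²/γ_i² < 1`, so the tail product is `≥ c₁ := ∏_{i>j} (1 - γ_j²/γ_i²) > 0` (`∑ 1/γ_i² < ∞`; for the partial products:
`∏_{j<i<N} (1 - v_i γ_j²) ≥ ∏_{j<i<N} (1 - γ_j²/γ_i²) ≥ c₁`). For `i < j`: `v_i → 1/γ_i²`, `|1 - v_i γ_j²| → γ_j²/γ_i² - 1 > 0`, so it is eventually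
`≥` half of this. -/
def S_LB : Prop := ∀ (γ : ℕ → ℝ) (v : ℝ → ℕ → ℝ) (f : ℝ → ℂ → ℂ) (j : ℕ), StrictMono γ → (∀ n, 0 < γ n) →
  Summable (fun n => 1 / γ n ^ 2) → (∀ a, 0 < a → ∀ n, 0 ≤ v a n ∧ v a n * γ n ^ 2 < 1) →
  (∀ a, 0 < a → ∀ z, Tendsto (fun N => PP (v a) N z) atTop (𝓝 (f a z))) →
  (∀ i < j, Tendsto (fun a => v a i) atTop (𝓝 (1 / γ i ^ 2))) →
  ∃ c : ℝ, 0 < c ∧ ∀ᶠ a in atTop, c * (1 - v a j * γ j ^ 2) ≤ ‖f a (γ j)‖

/-- **PC.** Convergence of the products. uses S_LB.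
Proof. Strong induction on `j` with LB: `0 ≤ c (1 - v_j γ_j²) ≤ ‖f a γ_j‖ → 0`, so `v_j → 1/γ_j²`. Limit function: `P z = ∏ (1 - z²/γ_n²)` converges
(`∑ 1/γ_n² < ∞`). For `‖z‖ ≤ R`: from `|∏ (1 + a_i) - ∏ (1 + b_i)| ≤ exp (∑ c_i) ∑ |a_i - b_i|` for `|a_i|, |b_i| ≤ c_i` (finite products, telescoping),
`‖f a z - P z‖ ≤ exp (R² ∑ 1/γ_n²) R² ∑ |v_n - 1/γ_n²|`, and the sum tends to `0` as `a → ∞` by Tannery (terms `≤ 1/γ_n²`, each tends to `0`). -/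
def S_PC : Prop := ∀ (γ : ℕ → ℝ) (v : ℝ → ℕ → ℝ) (f : ℝ → ℂ → ℂ), StrictMono γ → (∀ n, 0 < γ n) →
  Summable (fun n => 1 / γ n ^ 2) → (∀ a, 0 < a → ∀ n, 0 ≤ v a n ∧ v a n * γ n ^ 2 < 1) →
  (∀ a, 0 < a → ∀ z, Tendsto (fun N => PP (v a) N z) atTop (𝓝 (f a z))) →
  (∀ n, Tendsto (fun a => f a (γ n)) atTop (𝓝 0)) →
  (∀ n, Tendsto (fun a => v a n) atTop (𝓝 (1 / γ n ^ 2))) ∧
  ∃ P : ℂ → ℂ, (∀ z, Tendsto (fun N => PP (fun n => 1 / γ n ^ 2) N z) atTop (𝓝 (P z))) ∧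
    ∀ R ε : ℝ, 0 < ε → ∃ a₀ : ℝ, 0 < a₀ ∧ ∀ a, a₀ ≤ a → ∀ z : ℂ, ‖z‖ ≤ R → ‖f a z - P z‖ ≤ ε

/-- **RT.** The rate of convergence of the zeros. uses S_L2A, S_HE, S_ORT1, S_LB.
Proof. Fix `j`, `γ = γ_j`, `γ' = γ_(j+1)`. For large `a`: `v_j > 0`, `x := 1/√(v a j)` satisfies `x > γ` (as `v_j γ² < 1`), `x → γ`, `x ≤ (γ + γ')/2`,
and `u a x = 0` since the factor `n = j` of the product vanishes at `x`. ORT1 at `x` (all terms real): with `c_t = m t t² (u t)² ≥ 0`,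
`∑_{t < x} c_t/(x² - t²) = ∑_{t > x} c_t/(t² - x²)`. Left side `≥` the term `t = γ`: `≥ γ² (u γ)²/(x² - γ²)` (`m ≥ 1`). Right side: the nodes `> x` are `≥ γ'`,
`t²/(t² - x²) ≤ γ'²/(γ'² - x²) ≤ K` with `K` depending on `j` only, so it is `≤ K ∑ m t (u t)² = K Q S u = K q`. By LB `|u γ| ≥ c (1 - v_j γ²) = c (x² - γ²)/x²`. So
`γ² c² (x² - γ²)/x⁴ ≤ K q`, i.e. `x - γ ≤ K q x⁴/(γ² c² (x + γ)) ≤ C q`. -/
def S_RT : Prop := ∀ (S : Sys) (γ : ℕ → ℝ) (v : ℝ → ℕ → ℝ) (u : ℝ → ℂ → ℂ), StrictMono γ →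
  Set.range γ = S.G → Summable (fun n => 1 / γ n ^ 2) → (∀ a, 0 < a → IsMin S a (u a)) →
  (∀ a, 0 < a → ∀ n, 0 ≤ v a n ∧ v a n * γ n ^ 2 < 1) →
  (∀ a, 0 < a → ∀ z, Tendsto (fun N => PP (v a) N z) atTop (𝓝 (u a z))) →
  (∀ n, Tendsto (fun a => v a n) atTop (𝓝 (1 / γ n ^ 2))) →
  ∀ n, ∃ C : ℝ, ∀ᶠ a in atTop, ∃ x : ℝ, γ n < x ∧ x ≤ γ n + C * qS S a ∧ u a (x : ℂ) = 0

/-- **PSIM.** The product over the nodes vanishes exactly at `± γ_n`, with nonzero derivative.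
Proof. `P z = (1 - z²/γ_n²) P_n z` with `P_n z = lim ∏_{i ≠ n, i < N} (1 - z²/γ_i²)`; `P_n (γ_n) ≠ 0` since `∑ γ_n²/γ_i² < ∞` and no factor vanishes
(`tprod_one_add_ne_zero..` or: the tail product `∏_{i ≥ N₀} (1 - s_i)` with `s_i ∈ [0, 1/2]`, `∑ s_i < ∞`, is `≥ exp (-2 ∑ s_i) > 0`). `P_n` is entire (locally uniform limit), so
`P' (γ_n) = (-2/γ_n) P_n (γ_n) ≠ 0`. If `f` is only known to be differentiable: `(f z - f γ_n)/(z - γ_n) = -(z + γ_n)/γ_n² P_n z → -(2/γ_n) P_n(γ_n)`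
by continuity of `P_n` at `γ_n`. -/
def S_PSIM : Prop := ∀ (γ : ℕ → ℝ) (f : ℂ → ℂ), StrictMono γ → (∀ n, 0 < γ n) →
  Summable (fun n => 1 / γ n ^ 2) → Differentiable ℂ f →
  (∀ z, Tendsto (fun N => PP (fun n => 1 / γ n ^ 2) N z) atTop (𝓝 (f z))) → ∀ n, deriv f (γ n) ≠ 0

/-! ## Part 5. The zeta function -/

/-- **EXF.** The explicit formula for Weil's form of a real even test function.
Proof. Library: `Pool/Graph/R_pool_sql_team_seeded_f72693b1/W187/WP/Stmts.lean` (statement `S_EF`, definitions `Zr, mult, lap, WW`), proved by `ef` in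
`Pool/Graph/R_pool_sql_team_seeded_f72693b1/W338/MW/A.lean` (or `W45/WP`); there are also lemmas on correlations (`Co_contDiff`, `lap_Co`). Apply it to `G v = (auto g v : ℂ)`, which is smooth, even, supported in `[-2a, 2a]`.
`lap G w = (lap g w)²` (Fubini, `g` even) and `lap g (ρ - 1/2) = ∫ g x exp ((ρ - 1/2) x) dx = ∫ g x cosh ((ρ - 1/2) x) dx = Ct (co g) (-I (ρ - 1/2))`.
`WW G = (W g : ℂ)` since `G v + G (-v) = 2 auto g v` (casts under `∫` and `∑'`). `NTZ = Zr`, `mz = mult` by definition. -/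
def S_EXF : Prop := ∀ (a : ℝ) (g : ℝ → ℝ), TR a g →
  HasSum (fun ρ : NTZ => (mz ρ : ℂ) * (Ct (co g) (-I * ((ρ : ℂ) - 1 / 2))) ^ 2) (W g : ℂ)

/-- **WTS.** Summability over the zeros, symmetries.
Proof. `Pool.Agent.H480.W2` of this run (`wt_summable`, `NTZ_one_sub`, `NTZ_conj`, `mz_conj`, `mz_pos`, `NTZ_im`, same definitions of `NTZ`, `mz`); `mz (1 - ρ) = mz ρ` by the
functional equation (library `W187/WP` or `H353`), or from `H480.W`. -/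
def S_WTS : Prop := Summable (fun ρ : NTZ => (mz ρ : ℝ) / ‖(ρ : ℂ) - 1 / 2‖ ^ 2) ∧
  (∀ ρ ∈ NTZ, 1 - ρ ∈ NTZ ∧ starRingEnd ℂ ρ ∈ NTZ ∧ mz (starRingEnd ℂ ρ) = mz ρ ∧ 1 ≤ mz ρ ∧ ρ.im ≠ 0)

/-- **GAP.** On the Riemann hypothesis the gaps between the ordinates tend to zero.
Proof. (1) From the library: `Pool/Graph/R_pool_sql_team_seeded_1acbe0a2/Results/MP_21f43f_nt/LargeDeviations.lean`, item (2) (no exceptions for `N < exp (c m log m)`), or any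
other library version of Littlewood's theorem. (2) Directly from the explicit formula `S_EF` (see EXF): let `h > 0`. Let `ψ` be a smooth even real function with compact support and
`φ = h² (ψ * ψ) + (ψ * ψ)''`, so that `∫ φ v cos (r v) dv = (h² - r²) Ψ(r)²`, `Ψ(r) = ∫ ψ v cos (r v) dv`; for `ψ v = η (v/b)` with `b` large
`φ 0 = (1/2π) ∫ (h² - r²) Ψ(r)² dr = h² ∫ ψ² - ∫ ψ'² > 0`. Take the test function `g_t v = φ v cos (t v)`. If no zero `1/2 + iγ` has `|γ - t| < h` or `|γ + t| < h`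
then all terms `lap g_t (iγ) = ((h² - (γ-t)²) Ψ(γ-t)² + (h² - (γ+t)²) Ψ(γ+t)²)/2` are `≤ 0`, so the real part of `WW g_t` is `≤ 0`. But `WW g_t → +∞` as `t → ∞`: the first three terms of `WW`
are bounded in `t`; in the last one the `n`-th term is `τ_n(t) = φ 0/(n+1) - 2 ∫_0^∞ φ v cos (t v) e^{-c v} dv`, `c = 2(n+1) + 1/2`; with `|φ v - φ 0| ≤ M v²`:
`τ_n(t) ≥ φ 0/(n+1) - 2 φ 0 c/(c² + t²) - 4 M/c³ ≥ -4 M/c³` and `τ_n(t) → φ 0/(n+1)` up to `4M/c³` as `t → ∞`. So `lim inf ∑ τ_n(t) ≥ φ 0 ∑_{n<N} 1/(n+1) - 8 M ∑ 1/c³` for every `N`. -/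
def S_GAP : Prop := RiemannHypothesis → ∀ h : ℝ, 0 < h → ∃ T : ℝ, ∀ t : ℝ, T ≤ t → ∃ s ∈ Ord, t ≤ s ∧ s ≤ t + h

/-- **SYS.** On the Riemann hypothesis the ordinates form a system and Weil's form is twice its quadratic form. uses S_TCB, S_EXF, S_WTS, S_GAP.
Proof. `G = Ord`, `m t = mz (1/2 + t I)`. `summ`, `one_le`: WTS restricted to the zeros `1/2 + t I`, `‖ρ - 1/2‖ = t`. On RH every `ρ ∈ NTZ` is `1/2 + i γ` with `γ ≠ 0` real and
`-I (ρ - 1/2) = γ`; the sum in EXF splits into `γ > 0` and `γ < 0`, which are equal (`Ct` even, `mz (conj ρ) = mz ρ`); `Ct (co g) γ` is real. -/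
def S_SYS : Prop := RiemannHypothesis → ∃ S : Sys, S.G = Ord ∧
  ∀ (a : ℝ) (g : ℝ → ℝ), 0 < a → TR a g → W g = 2 * Q S (Ct (co g))

/-- the kernel of the Xi function (the index `n` stands for `n + 1`); it equals `Pool.Agent.KK.Phi` of the library -/
def Phi (x : ℝ) : ℝ := 2 * ∑' n : ℕ,
  (2 * Real.pi ^ 2 * ((n : ℝ) + 1) ^ 4 * Real.exp (9 * x / 2) - 3 * Real.pi * ((n : ℝ) + 1) ^ 2 * Real.exp (5 * x / 2)) *
    Real.exp (-Real.pi * ((n : ℝ) + 1) ^ 2 * Real.exp (2 * x))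

/-- **PHA.** The kernel is smooth, with doubly exponential decay of the function and two derivatives on the right.
Proof. Each term is smooth; its `k`-th derivative is `(polynomial in π (n+1)² e^{2x} of degree ≤ k + 2, times e^{x/2}) exp (-π (n+1)² e^{2x})`; on `x ≥ -M` it is
`O_{k,M} ((n+1)^(2k+4) e^{(2k+5)|x|} exp (-π (n+1)² e^{2x}))`, summable uniformly on bounded sets (`contDiff_tsum` or its local version, e.g. on every `(-M, M)`), so `Phi` is smooth and may be differentiated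
termwise. For `x ≥ 0`: `exp (-π (n+1)² e^{2x}) ≤ exp (-π e^{2x}) exp (-π ((n+1)² - 1))` and `e^{9x} ≤ C exp (ε e^{2x})`. -/
def S_PHA : Prop := ContDiff ℝ ∞ Phi ∧ ∀ ε : ℝ, 0 < ε → ∃ C : ℝ, ∀ x : ℝ, 0 ≤ x →
  |Phi x| + |deriv Phi x| + |deriv (deriv Phi) x| ≤ C * Real.exp (-(Real.pi - ε) * Real.exp (2 * x))

/-- **PHB.** The kernel is even and positive. Proof: theta functional equation; several library modules prove it (search `Phi_even`, `Phi_neg`, `Phi_pos`; modules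
`Pool/Graph/R_pool_sql_team_3845a38e/KK`, `R_pool_sql_team_22c7b01f/H21`, `R_pool_sql_team_8f841797/H15`, `R_pool_sql_team_ae5b0c61/H88`). -/
def S_PHB : Prop := (∀ x, Phi (-x) = Phi x) ∧ ∀ x, 0 < Phi x

/-- **PHC.** The integral representation of the Xi function. uses S_PHA, S_PHB.
Proof. `∫ Phi x exp ((s - 1/2) x) dx = (s - 1) π^(-s/2) Γ(s/2 + 1) ζ(s) = s (s-1) Λ(s) / 2` for `Re s > 1` (library: `Pool/Graph/R_pool_sql_team_3845a38e/KK/Repr.lean`, `Phi_mellin` on the lines `Re s = 3 + 2j`; the same computation for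
all `Re s > 1`), `Λ(s) = completedRiemannZeta s = completedRiemannZeta₀ s - 1/s - 1/(1-s)`, so it equals `(s (s-1) Λ₀(s) + 1)/2 = Xi z`, `s = 1/2 + i z`. Both sides are entire in `z` and agree on a line, hence everywhere (identity theorem).
`∫ Phi x exp (i z x) dx = ∫ Phi x cos (z x) dx` since `Phi` is even. Integrability: PHA, PHB. -/
def S_PHC : Prop := ∀ z : ℂ, Integrable (fun x : ℝ => (Phi x : ℂ) * Complex.cos (z * x)) ∧
  Xi z = ∫ x : ℝ, (Phi x : ℂ) * Complex.cos (z * x)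

/-- **PHI.** The kernel of the Xi function, summary. uses S_PHA, S_PHB, S_PHC.
Proof. Take `Φ = Phi`. For `x < 0`: `Phi' x = -Phi' (-x)`, `Phi'' x = Phi'' (-x)` by evenness, so the bound of PHA holds with `|x|`. -/
def S_PHI : Prop := ∃ Φ : ℝ → ℝ, ContDiff ℝ ∞ Φ ∧ (∀ x, Φ (-x) = Φ x) ∧
  (∀ ε : ℝ, 0 < ε → ∃ C : ℝ, ∀ x : ℝ, |Φ x| + |deriv Φ x| + |deriv (deriv Φ) x| ≤
    C * Real.exp (-(Real.pi - ε) * Real.exp (2 * |x|))) ∧
  (∀ z : ℂ, Xi z = ∫ x : ℝ, (Φ x : ℂ) * Complex.cos (z * x))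

/-- **XI0.** `Xi` is entire, even, real on the real axis, `Xi 0 ≠ 0`, of order less than `3/2`, and its zeros correspond to those of zeta.
Proof. With `s = 1/2 + I z`: `s (s-1) Λ(s)/2 = Xi z` for `s ≠ 0, 1` (`completedRiemannZeta_eq`), `Λ` = completed zeta, symmetric. Growth: PHI (as hypothesis): with `Φ x ≤ C exp (-|x|³ - |x|)`,
`‖Xi z‖ ≤ ∫ Φ(x) exp (|x| ‖z‖) dx ≤ C' exp (‖z‖^{3/2})` since `x y ≤ x³ + y^{3/2}` for `x, y ≥ 0`. `Xi 0 ≠ 0`: `ζ(1/2) ≠ 0` (library) or `Φ > 0`. If `Xi z = 0` then `s ≠ 0, 1` (there `Xi = 1/2`) and `Λ s = 0`, so `s ∈ NTZ`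
(no zeros of `Λ` for `Re s ≥ 1`, functional equation for `Re s ≤ 0`). Near `s ∈ NTZ`, `Xi z` is `ζ(s)` times a nonvanishing analytic function (`Λ s = π^{-s/2} Γ(s/2) ζ(s)`), so `Xi' z ≠ 0` iff `ζ'(s) ≠ 0`. uses S_PHI. -/
def S_XI0 : Prop := Differentiable ℂ Xi ∧ (∀ z, Xi (-z) = Xi z) ∧ Xi 0 ≠ 0 ∧
  (∃ C A : ℝ, ∀ z, ‖Xi z‖ ≤ C * Real.exp (A * ‖z‖ ^ (3 / 2 : ℝ))) ∧
  (∀ z, Xi z = 0 ↔ 1 / 2 + I * z ∈ NTZ) ∧
  (∀ z, Xi z = 0 → (deriv Xi z = 0 ↔ deriv riemannZeta (1 / 2 + I * z) = 0))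

/-- **TRI.** Trial functions. uses S_PHI, S_XI0.
Proof. We may assume `ε < 1`. Let `δ, ε₁ > 0` be small with `(π - 2 ε₁) e^{-2δ} > π - ε/2`. Let `χ = χ_a` be smooth, even, `1` on `|x| ≤ a - δ`, `0` for `|x| ≥ a`, `0 ≤ χ ≤ 1`, with `|χ'|, |χ''| ≤ K` independent of `a`
(`χ x = η (x - a) η (-x - a)`, `η` a fixed smooth function, `η = 1` on `(-∞, -δ]`, `0` on `[0, ∞)`; `Real.smoothTransition`). Let `I_a = ∫ Φ χ`; `I_a → ∫ Φ = Xi 0 ≠ 0`, so `|I_a| ≥ |Xi 0|/2` for large `a`; `k = Φ χ / I_a`.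
If `Xi z = 0`, `z ≠ 0`, `|Im z| ≤ 1/2`: `∫ Φ χ cos (z x) = -∫ Φ (1 - χ) cos (z x) = (1/z²) ∫ (Φ (1 - χ))'' cos (z x) dx` (two integrations by parts, everything decays),
and `|(Φ (1-χ))''| ≤ C exp (-(π - ε₁) e^{2|x|})`, supported in `|x| ≥ a - δ`, `|cos (z x)| ≤ e^{|x|/2}`. So `‖Ct k z‖ ≤ (C'/‖z‖²) exp (-(π - 2ε₁) e^{2(a - δ)}) ≤ exp (-(π - ε) e^{2a})/‖z‖²` for large `a`. -/
def S_TRI : Prop := ∀ ε : ℝ, 0 < ε → ∃ a₀ : ℝ, 0 < a₀ ∧ ∀ a, a₀ ≤ a → ∃ k : ℝ → ℝ, Adm a k ∧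
  ∀ z : ℂ, |z.im| ≤ 1 / 2 → z ≠ 0 → Xi z = 0 →
    ‖Ct (co k) z‖ ≤ Real.exp (-(Real.pi - ε) * Real.exp (2 * a)) / ‖z‖ ^ 2

/-- **QU.** Weil's form is a quadratic form. uses S_EXF, S_WTS.
Proof. `F_{g + s h} = F_g + s F_h` (`Ct` is linear), so by EXF `W (g + s h) = W g + 2 s β + s² W h` with
`β = (W (g + h) - W g - W h)/2`; (all sums converge absolutely: subtract the `HasSum` statements for `g + h`, `g`, `h` to get the one of the mixed terms).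
If `Ct (co h)` vanishes identically then `W h = 0` by EXF. -/
def S_QU : Prop := ∀ (a : ℝ) (g h : ℝ → ℝ), TR a g → TR a h →
  (∃ β : ℝ, ∀ s : ℝ, W (fun x => g x + s * h x) = W g + 2 * s * β + s ^ 2 * W h) ∧
  ((∀ z : ℂ, Ct (co h) z = 0) → W h = 0)

/-- **WK.** The trial functions have small energy, without any hypothesis, also against a fixed test function. uses S_TCB, S_EXF, S_WTS, S_XI0, S_TRI, S_QU.
Proof. For `ρ ∈ NTZ` let `z = -I (ρ - 1/2)`: `Xi z = 0` (XI0), `|Im z| ≤ 1/2`, `‖z‖ = ‖ρ - 1/2‖ ≥ |Im ρ| > 0`. (1) `|W k| ≤ ∑ mz ‖Ct k z‖² ≤ exp (-2 (π - ε') e^{2a}) ∑ mz/‖z‖⁴`, and the last sum is finite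
(`∑ mz/‖z‖² < ∞` and only finitely many `‖z‖ < 1`: each term `mz/‖z‖²` is at most the whole sum, so `‖z‖` is bounded below). Choose `ε' < ε/2` and `a` large. (2) With `η = exp (-(π - ε') e^{2a})`: `W (g - c k) = ∑ mz (Ct g z - c Ct k z)²`, so
`|W (g - c k) - W g| ≤ 2 |c| η ∑ mz ‖Ct g z‖/‖z‖² + c² η² ∑ mz/‖z‖⁴`, `‖Ct g z‖` bounded on `|Im z| ≤ 1/2`; this tends to zero as `a → ∞`. -/
def S_WK : Prop :=
  (∀ ε : ℝ, 0 < ε → ∃ a₀ : ℝ, 0 < a₀ ∧ ∀ a, a₀ ≤ a → ∃ k : ℝ → ℝ, Adm a k ∧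
    W k ≤ Real.exp (-(2 * Real.pi - ε) * Real.exp (2 * a))) ∧
  (∀ (b : ℝ) (g : ℝ → ℝ) (c ε : ℝ), 0 < b → TR b g → 0 < ε → ∃ a₀ : ℝ, 0 < a₀ ∧ ∀ a, a₀ ≤ a → ∃ k : ℝ → ℝ, Adm a k ∧
    W (fun x => g x - c * k x) ≤ W g + ε)

/-- **NEG.** If the Riemann hypothesis fails, Weil's form is negative somewhere on the functions of integral zero, for all large supports. uses S_EXF, S_WTS, S_WK.
Proof. If RH fails there is `ρ₀ ∈ NTZ` with `Re ρ₀ > 1/2` (a zero off the line, and `1 - ρ` if necessary). `Pool.Agent.H480.W4` of this run: theorem `lower` with the class `P = RealEven` (which is `Rich`) gives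
`c e^{(2 Re ρ₀ - 1) a} ≤ 1 + defect P a` for large `a`, so `defect P a > 0`: there is `g₀` real even smooth supported in `[-b, b]` with `weil g₀ < 0`
(`H480.W.weil` of a real even function is `W`: the term is `mz hat g ρ conj (hat g (1 - conj ρ)) = mz (Ct g (-I(ρ-1/2)))²`). By WK (2) with `c = ∫ g₀` and `ε = -W g₀/2`: for all large `a ≥ b` the function `g = g₀ - c k` satisfies `TR a g`, `∫ g = 0`,
`W g ≤ W g₀/2 < 0`. -/
def S_NEG : Prop := ¬ RiemannHypothesis → ∃ a₀ : ℝ, 0 < a₀ ∧ ∀ a, a₀ ≤ a → ∃ g : ℝ → ℝ, TR a g ∧ ∫ x : ℝ, g x = 0 ∧ W g < 0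

end

end Pool.Agent.H478.WM
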