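import Mathlib
import Pool.Agent.H478.WM.Stm

/-!
# Project WM: MINB, near minimisers are close to the limit (helper870)
-/

open Complex MeasureTheory Filter Topology Set
open scoped ContDiff

namespace Pool.Agent.H478.WM

noncomputable section

namespace MINBx

theorem TC_co {a : ℝ} {g : ℝ → ℝ} (h : TR a g) : TC a (co g) where
  smooth := Complex.ofRealCLM.contDiff.comp h.smooth
  even := fun x => by simp only [co, h.even x]
  supp := fun x hx => by simp only [co, h.supp x hx, Complex.ofReal_zero]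

theorem TR_lin {a : ℝ} {g h : ℝ → ℝ} (hg : TR a g) (hh : TR a h) (α β : ℝ) :
    TR a (fun x => α * g x + β * h x) where
  smooth := (contDiff_const.mul hg.smooth).add (contDiff_const.mul hh.smooth)
  even := fun x => by simp only [hg.even x, hh.even x]
  supp := fun x hx => by simp only [hg.supp x hx, hh.supp x hx, mul_zero, add_zero]

theorem hcs {a : ℝ} {g : ℝ → ℝ} (h : TR a g) : HasCompactSupport g := by
  refine HasCompactSupport.of_support_subset_isCompact (isCompact_Icc (a := -a) (b := a)) ?_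
  intro x hx
  have h1 : ¬ a < |x| := fun h2 => hx (h.supp x h2)
  exact abs_le.mp (not_lt.mp h1)

theorem integrable_real {a : ℝ} {g : ℝ → ℝ} (h : TR a g) : Integrable g :=
  h.smooth.continuous.integrable_of_hasCompactSupport (hcs h)

theorem integrable_cos {a : ℝ} {g : ℝ → ℝ} (h : TR a g) (z : ℂ) :
    Integrable (fun x : ℝ => co g x * Complex.cos (z * x)) := by
  have hc : Continuous (fun x : ℝ => co g x * Complex.cos (z * x)) := by
    have h1 : Continuous (co g) := (TC_co h).smooth.continuous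
    have h2 : Continuous (fun x : ℝ => Complex.cos (z * x)) :=
      Complex.continuous_cos.comp (continuous_const.mul Complex.continuous_ofReal)
    exact h1.mul h2
  refine hc.integrable_of_hasCompactSupport ?_
  refine HasCompactSupport.of_support_subset_isCompact (isCompact_Icc (a := -a) (b := a)) ?_
  intro x hx
  have h1 : ¬ a < |x| := by
    intro h2
    apply hx
    simp only [(TC_co h).supp x h2, zero_mul]
  exact abs_le.mp (not_lt.mp h1)

theorem Ct_lin {a : ℝ} {g h : ℝ → ℝ} (hg : TR a g) (hh : TR a h) (α β : ℝ) (z : ℂ) :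
    Ct (co (fun x => α * g x + β * h x)) z = α * Ct (co g) z + β * Ct (co h) z := by
  unfold Ct
  rw [← integral_const_mul, ← integral_const_mul,
    ← integral_add ((integrable_cos hg z).const_mul _) ((integrable_cos hh z).const_mul _)]
  refine integral_congr_ae (Eventually.of_forall fun x => ?_)
  simp only [co]
  push_cast
  ring

theorem Q_nonneg (S : Sys) (u : ℂ → ℂ) : 0 ≤ Q S u := by
  refine tsum_nonneg fun t => ?_
  have := S.one_le t t.2
  positivity

theorem Q_smul (S : Sys) (u : ℂ → ℂ) (c : ℂ) : Q S (fun z => c * u z) = ‖c‖ ^ 2 * Q S u := by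
  unfold Q
  rw [← tsum_mul_left]
  refine tsum_congr fun t => ?_
  rw [norm_mul]
  ring

theorem qS_le (S : Sys) {a : ℝ} {g : ℝ → ℝ} (h : Adm a g) : qS S a ≤ Q S (Ct (co g)) := by
  refine csInf_le ⟨0, ?_⟩ ⟨g, h, rfl⟩
  rintro r ⟨g, -, rfl⟩
  exact Q_nonneg S _

theorem Adm_half {a : ℝ} {g h : ℝ → ℝ} (hg : Adm a g) (hh : Adm a h) :
    Adm a (fun x => (1 / 2 : ℝ) * g x + (1 / 2 : ℝ) * h x) := by
  refine ⟨TR_lin hg.1 hh.1 _ _, ?_⟩
  rw [integral_add ((integrable_real hg.1).const_mul _) ((integrable_real hh.1).const_mul _),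
    integral_const_mul, integral_const_mul, hg.2, hh.2]
  norm_num

/-- the parallelogram law -/
theorem diff_le (h2 : S_SUM) (h3 : S_L2A) (S : Sys) {a : ℝ} (ha : 0 < a) {g h : ℝ → ℝ}
    (hg : Adm a g) (hh : Adm a h) :
    Q S (Ct (co (fun x => (1 : ℝ) * g x + (-1 : ℝ) * h x))) ≤
      2 * (Q S (Ct (co g)) - qS S a) + 2 * (Q S (Ct (co h)) - qS S a) := by
  have hu : L2 S (Ct (co g)) := h2 S a _ ha (TC_co hg.1)
  have hv : L2 S (Ct (co h)) := h2 S a _ ha (TC_co hh.1)
  obtain ⟨-, -, -, -, hpar, -⟩ := h3 S (Ct (co g)) (Ct (co h)) (Ct (co h)) 1 1 hu hv hv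
  have e1 : Ct (co (fun x => (1 : ℝ) * g x + (-1 : ℝ) * h x)) =
      fun z => Ct (co g) z - Ct (co h) z := by
    funext z
    rw [Ct_lin hg.1 hh.1]
    push_cast
    ring
  have e2 : Ct (co (fun x => (1 / 2 : ℝ) * g x + (1 / 2 : ℝ) * h x)) =
      fun z => (1 / 2 : ℂ) * (Ct (co g) z + Ct (co h) z) := by
    funext z
    rw [Ct_lin hg.1 hh.1]
    push_cast
    ring
  have h5 := qS_le S (Adm_half hg hh)
  rw [e2, Q_smul S (fun z => Ct (co g) z + Ct (co h) z)] at h5
  have h6 : ‖(1 / 2 : ℂ)‖ ^ 2 = 1 / 4 := by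
    rw [norm_div, norm_one, Complex.norm_ofNat]
    norm_num
  rw [h6] at h5
  rw [e1]
  linarith

end MINBx

open MINBx in
theorem t_MINB (h1 : S_TCB) (h2 : S_SUM) (h3 : S_L2A) (h4 : S_COE) : S_MINB := by
  intro S a g u ha hmin R ε hε
  obtain ⟨c, hc, hcoe⟩ := h4 S a ha
  obtain ⟨hadm, hlim, hcv⟩ := hmin
  have hE : 0 < Real.exp (2 * a * R) := Real.exp_pos _
  refine ⟨ε ^ 2 * c / (4 * a * Real.exp (2 * a * R)), by positivity, ?_⟩
  intro k hk hkQ z hz
  set δ : ℝ := ε ^ 2 * c / (4 * a * Real.exp (2 * a * R)) with hδ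
  have hkey : ∀ n, ‖Ct (co k) z - Ct (co (g n)) z‖ ^ 2 ≤
      2 * a * Real.exp (2 * a * R) *
        ((2 * δ + 2 * (Q S (Ct (co (g n))) - qS S a)) / c) := by
    intro n
    have hTR : TR a (fun x => (1 : ℝ) * k x + (-1 : ℝ) * g n x) := TR_lin hk.1 (hadm n).1 _ _
    have hTC := TC_co hTR
    have hd := diff_le h2 h3 S ha hk (hadm n)
    have hco := hcoe _ hTC
    have htcb := (h1 a _ ha hTC).2.2.1 z
    have e1 : Ct (co (fun x => (1 : ℝ) * k x + (-1 : ℝ) * g n x)) z =
        Ct (co k) z - Ct (co (g n)) z := by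
      rw [Ct_lin hk.1 (hadm n).1]
      push_cast
      ring
    rw [e1] at htcb
    refine htcb.trans ?_
    have him : |z.im| ≤ R := (Complex.abs_im_le_norm z).trans hz
    have hexp : Real.exp (2 * a * |z.im|) ≤ Real.exp (2 * a * R) := by
      apply Real.exp_le_exp.mpr
      exact mul_le_mul_of_nonneg_left him (by positivity)
    have hI : ∫ x : ℝ, ‖co (fun x => (1 : ℝ) * k x + (-1 : ℝ) * g n x) x‖ ^ 2 ≤
        (2 * δ + 2 * (Q S (Ct (co (g n))) - qS S a)) / c := by
      rw [le_div_iff₀ hc, mul_comm]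
      refine hco.trans (hd.trans ?_)
      linarith
    have hI0 : 0 ≤ ∫ x : ℝ, ‖co (fun x => (1 : ℝ) * k x + (-1 : ℝ) * g n x) x‖ ^ 2 :=
      integral_nonneg fun x => by positivity
    refine mul_le_mul ?_ hI hI0 (by positivity)
    exact mul_le_mul_of_nonneg_left hexp (by positivity)
  have hpt : Tendsto (fun n => Ct (co (g n)) z) atTop (𝓝 (u z)) := (hcv.1.tendstoLocallyUniformlyOn (s := Set.univ)).tendsto_at (Set.mem_univ z)
  have hL : Tendsto (fun n => ‖Ct (co k) z - Ct (co (g n)) z‖ ^ 2) atTop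
      (𝓝 (‖Ct (co k) z - u z‖ ^ 2)) := ((tendsto_const_nhds.sub hpt).norm).pow 2
  have hRt : Tendsto (fun n => 2 * a * Real.exp (2 * a * R) *
        ((2 * δ + 2 * (Q S (Ct (co (g n))) - qS S a)) / c)) atTop
      (𝓝 (2 * a * Real.exp (2 * a * R) * ((2 * δ + 2 * (qS S a - qS S a)) / c))) := by
    refine Tendsto.const_mul _ (Tendsto.div_const (Tendsto.const_add _ (Tendsto.const_mul _ ?_)) _)
    exact hlim.sub_const _
  have hfin := le_of_tendsto_of_tendsto' hL hRt hkey
  have hval : 2 * a * Real.exp (2 * a * R) * ((2 * δ + 2 * (qS S a - qS S a)) / c) = ε ^ 2 := by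
    rw [hδ]
    field_simp
    ring
  rw [hval] at hfin
  exact (sq_le_sq₀ (norm_nonneg _) hε.le).mp hfin

end

end Pool.Agent.H478.WM
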