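import Pool.Agent.H478.WM.Stm

open Complex MeasureTheory Filter Topology Set
open scoped ContDiff

namespace Pool.Agent.H478.WM

noncomputable section

theorem minc_TC {a : ℝ} {g : ℝ → ℝ} (h : TR a g) : TC a (co g) := by
  refine ⟨?_, ?_, ?_⟩
  · exact Complex.ofRealCLM.contDiff.comp h.smooth
  · intro x
    simp only [co, h.even x]
  · intro x hx
    simp only [co, h.supp x hx, Complex.ofReal_zero]

theorem minc_real (g : ℝ → ℝ) (t : ℝ) :
    Ct (co g) (t : ℂ) = ((∫ x : ℝ, g x * Real.cos (t * x) : ℝ) : ℂ) := by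
  unfold Ct co
  rw [← integral_complex_ofReal]
  refine integral_congr_ae (Eventually.of_forall fun x => ?_)
  simp only [Complex.ofReal_mul, Complex.ofReal_cos]

theorem minc_zero {a : ℝ} {g : ℝ → ℝ} (h : Adm a g) : Ct (co g) 0 = 1 := by
  have h1 := minc_real g 0
  simp only [Complex.ofReal_zero, zero_mul, Real.cos_zero, mul_one] at h1
  rw [h1, h.2, Complex.ofReal_one]

theorem minc_term_nonneg (S : Sys) (u : ℂ → ℂ) (t : S.G) :
    0 ≤ S.m t * ‖u ((t : ℝ) : ℂ)‖ ^ 2 :=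
  mul_nonneg (le_trans zero_le_one (S.one_le t t.2)) (sq_nonneg _)

theorem minc_Q_nonneg (S : Sys) (u : ℂ → ℂ) : 0 ≤ Q S u :=
  tsum_nonneg (minc_term_nonneg S u)

theorem minc_Q_le (S : Sys) (x y z : ℂ → ℂ) (η : ℝ) (hη : 0 < η) (hx : L2 S x) (hy : L2 S y)
    (hz : L2 S z) (h : ∀ t : ℂ, ‖x t‖ ≤ ‖y t‖ + ‖z t‖) :
    Q S x ≤ (1 + η) * Q S y + (1 + 1 / η) * Q S z := by
  unfold Q
  rw [← tsum_mul_left, ← tsum_mul_left]
  have s1 : Summable (fun t : S.G => (1 + η) * (S.m t * ‖y ((t : ℝ) : ℂ)‖ ^ 2)) :=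
    Summable.mul_left _ hy
  have s2 : Summable (fun t : S.G => (1 + 1 / η) * (S.m t * ‖z ((t : ℝ) : ℂ)‖ ^ 2)) :=
    Summable.mul_left _ hz
  rw [← s1.tsum_add s2]
  refine Summable.tsum_le_tsum ?_ hx (s1.add s2)
  intro t
  have hm : 0 ≤ S.m t := le_trans zero_le_one (S.one_le t t.2)
  have h0 := h ((t : ℝ) : ℂ)
  set A := ‖x ((t : ℝ) : ℂ)‖
  set B := ‖y ((t : ℝ) : ℂ)‖
  set C := ‖z ((t : ℝ) : ℂ)‖
  have hA : 0 ≤ A := norm_nonneg _
  have hB : 0 ≤ B := norm_nonneg _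
  have hC : 0 ≤ C := norm_nonneg _
  have h1 : A ^ 2 ≤ (1 + η) * B ^ 2 + (1 + 1 / η) * C ^ 2 := by
    have h2 : A ^ 2 ≤ (B + C) ^ 2 := by
      apply pow_le_pow_left₀ hA h0
    have h3 : 2 * B * C ≤ η * B ^ 2 + 1 / η * C ^ 2 := by
      have h4 : 0 ≤ (η * B - C) ^ 2 / η := div_nonneg (sq_nonneg _) hη.le
      have h5 : (η * B - C) ^ 2 / η = η * B ^ 2 + 1 / η * C ^ 2 - 2 * B * C := by
        field_simp
        ring
      linarith
    nlinarith
  calc S.m t * A ^ 2 ≤ S.m t * ((1 + η) * B ^ 2 + (1 + 1 / η) * C ^ 2) :=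
        mul_le_mul_of_nonneg_left h1 hm
    _ = (1 + η) * (S.m t * B ^ 2) + (1 + 1 / η) * (S.m t * C ^ 2) := by ring

theorem minc_le_of {A B : ℝ} (hB : 0 ≤ B) (h : ∀ η : ℝ, 0 < η → A ≤ (1 + η) * B) : A ≤ B := by
  refine le_of_forall_pos_le_add fun ε hε => ?_
  have h1 := h (ε / (B + 1)) (by positivity)
  have h2 : ε / (B + 1) * B ≤ ε := by
    rw [div_mul_eq_mul_div, div_le_iff₀ (by positivity)]
    nlinarith
  nlinarith

theorem t_MINC (_h1 : S_TCB) (h2 : S_SUM) (_h3 : S_L2A) (h4 : S_HE) (h5 : S_UNI) : S_MINC := by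
  intro S a g u ha hms
  obtain ⟨hg, hq, hCv⟩ := hms
  have hTC : ∀ n, TC a (co (g n)) := fun n => minc_TC (hg n).1
  have hmem : InH S a u := ⟨fun n => co (g n), hTC, hCv⟩
  obtain ⟨hloc, hL2, hQ0⟩ := hCv
  have hpt : ∀ z : ℂ, Tendsto (fun n => Ct (co (g n)) z) atTop (𝓝 (u z)) := by
    intro z
    exact (tendstoLocallyUniformlyOn_univ.mpr hloc).tendsto_at (mem_univ z)
  obtain ⟨hdu, heu, hL2u, C, hC0, hCu⟩ := h4 S a u ha hmem
  have hone : u 0 = 1 := by
    have e1 : Tendsto (fun n => Ct (co (g n)) 0) atTop (𝓝 1) := by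
      have : (fun n => Ct (co (g n)) 0) = fun _ => (1 : ℂ) := by
        funext n
        exact minc_zero (hg n)
      rw [this]
      exact tendsto_const_nhds
    exact tendsto_nhds_unique (hpt 0) e1
  have hreal : ∀ t : ℝ, (u t).im = 0 := by
    intro t
    have e1 : Tendsto (fun n => (Ct (co (g n)) (t : ℂ)).im) atTop (𝓝 ((u t).im)) :=
      (Complex.continuous_im.tendsto _).comp (hpt (t : ℂ))
    have e2 : Tendsto (fun n => (Ct (co (g n)) (t : ℂ)).im) atTop (𝓝 0) := by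
      have : (fun n => (Ct (co (g n)) (t : ℂ)).im) = fun _ => (0 : ℝ) := by
        funext n
        rw [minc_real, Complex.ofReal_im]
      rw [this]
      exact tendsto_const_nhds
    exact tendsto_nhds_unique e1 e2
  have hF : ∀ n, L2 S (Ct (co (g n))) := fun n => h2 S a _ ha (hTC n)
  have hq0 : 0 ≤ qS S a := ge_of_tendsto' hq fun n => minc_Q_nonneg S _
  have hle1 : Q S u ≤ qS S a := by
    refine minc_le_of hq0 fun η hη => ?_
    have e1 : Tendsto (fun n => (1 + η) * Q S (Ct (co (g n))) +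
        (1 + 1 / η) * Q S (fun z => Ct (co (g n)) z - u z)) atTop
        (𝓝 ((1 + η) * qS S a + (1 + 1 / η) * 0)) :=
      (hq.const_mul _).add (hQ0.const_mul _)
    rw [mul_zero, add_zero] at e1
    refine ge_of_tendsto' e1 fun n => ?_
    refine minc_Q_le S u (Ct (co (g n))) (fun z => Ct (co (g n)) z - u z) η hη hL2u (hF n)
      (hL2 n) fun t => ?_
    have : u t = Ct (co (g n)) t - (Ct (co (g n)) t - u t) := by ring
    calc ‖u t‖ = ‖Ct (co (g n)) t - (Ct (co (g n)) t - u t)‖ := by rw [← this]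
      _ ≤ _ := norm_sub_le _ _
  have hle2 : qS S a ≤ Q S u := by
    refine minc_le_of (minc_Q_nonneg S u) fun η hη => ?_
    have e1 : Tendsto (fun n => (1 + η) * Q S u +
        (1 + 1 / η) * Q S (fun z => Ct (co (g n)) z - u z)) atTop
        (𝓝 ((1 + η) * Q S u + (1 + 1 / η) * 0)) :=
      tendsto_const_nhds.add (hQ0.const_mul _)
    rw [mul_zero, add_zero] at e1
    refine le_of_tendsto_of_tendsto' hq e1 fun n => ?_
    refine minc_Q_le S (Ct (co (g n))) u (fun z => Ct (co (g n)) z - u z) η hη (hF n) hL2u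
      (hL2 n) fun t => ?_
    have : Ct (co (g n)) t = u t + (Ct (co (g n)) t - u t) := by ring
    calc ‖Ct (co (g n)) t‖ = ‖u t + (Ct (co (g n)) t - u t)‖ := by rw [← this]
      _ ≤ _ := norm_add_le _ _
  have hen : Q S u = qS S a := le_antisymm hle1 hle2
  refine ⟨hmem, hone, hreal, hen, lt_of_le_of_ne hq0 ?_⟩
  intro h0
  have hQu : Q S u = 0 := by rw [hen, ← h0]
  have hz : ∀ t ∈ S.G, u (t : ℂ) = 0 := by
    intro t ht
    have e1 : S.m t * ‖u ((t : ℝ) : ℂ)‖ ^ 2 ≤ Q S u := by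
      have := Summable.le_tsum hL2u (⟨t, ht⟩ : S.G) (fun j _ => minc_term_nonneg S u j)
      exact this
    have hm : 1 ≤ S.m t := S.one_le t ht
    have e2 : ‖u (t : ℂ)‖ ^ 2 ≤ 0 := by
      have := sq_nonneg ‖u (t : ℂ)‖
      nlinarith
    have e3 : ‖u (t : ℂ)‖ = 0 := by
      have := sq_nonneg ‖u (t : ℂ)‖
      exact pow_eq_zero_iff (two_ne_zero) |>.mp (le_antisymm e2 this)
    exact norm_eq_zero.mp e3
  have hbd : ∀ z, ‖u z‖ ≤ C * Real.exp (a * ‖z‖) := by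
    intro z
    refine (hCu z).trans (mul_le_mul_of_nonneg_left ?_ hC0)
    exact Real.exp_le_exp.mpr (mul_le_mul_of_nonneg_left (Complex.abs_im_le_norm z) ha.le)
  have := h5 S.G u C a S.gaps hdu hbd hz 0
  rw [hone] at this
  exact one_ne_zero this

end

end Pool.Agent.H478.WM
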