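import Pool.Agent.H478.WM.Stm

/-!
# Project WM: the Euler-Lagrange equation
-/

open Complex MeasureTheory Filter Topology Set
open scoped ContDiff

namespace Pool.Agent.H478.WM

noncomputable section

theorem mind_tc {a : ℝ} {h : ℝ → ℝ} (hh : TR a h) : TC a (co h) where
  smooth := Complex.ofRealCLM.contDiff.comp hh.smooth
  even x := by
    show ((h (-x) : ℝ) : ℂ) = _
    rw [hh.even]
    rfl
  supp x hx := by
    show ((h x : ℝ) : ℂ) = 0
    rw [hh.supp x hx, Complex.ofReal_zero]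

theorem mind_hc {E : Type} [Zero E] {a : ℝ} {h : ℝ → E} (hh : ∀ x : ℝ, a < |x| → h x = 0) :
    HasCompactSupport h := by
  refine HasCompactSupport.intro (isCompact_Icc (a := -a) (b := a)) fun x hx => hh x ?_
  by_contra hc
  push Not at hc
  exact hx (abs_le.1 hc)

theorem mind_int {a : ℝ} {g : ℝ → ℂ} (hg : TC a g) (z : ℂ) :
    Integrable (fun x : ℝ => g x * Complex.cos (z * x)) := by
  refine Continuous.integrable_of_hasCompactSupport ?_ ?_
  · exact hg.smooth.continuous.mul (Complex.continuous_cos.comp (by fun_prop))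
  · exact (mind_hc hg.supp).mul_right

theorem mind_lin {a : ℝ} {g h : ℝ → ℂ} (hg : TC a g) (hh : TC a h) (α β z : ℂ) :
    Ct (fun x => α * g x + β * h x) z = α * Ct g z + β * Ct h z := by
  unfold Ct
  rw [← integral_const_mul, ← integral_const_mul,
    ← integral_add ((mind_int hg z).const_mul α) ((mind_int hh z).const_mul β)]
  refine integral_congr_ae (Eventually.of_forall fun x => ?_)
  show (α * g x + β * h x) * _ = α * (g x * _) + β * (h x * _)
  ring

theorem mind_real {h : ℝ → ℝ} (t : ℝ) :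
    Ct (co h) (t : ℂ) = ((∫ x : ℝ, h x * Real.cos (t * x) : ℝ) : ℂ) := by
  unfold Ct
  rw [← integral_complex_ofReal]
  refine integral_congr_ae (Eventually.of_forall fun x => ?_)
  show ((h x : ℝ) : ℂ) * Complex.cos ((t : ℂ) * x) = ((h x * Real.cos (t * x) : ℝ) : ℂ)
  push_cast
  rfl

theorem mind_im {h : ℝ → ℝ} (t : ℝ) : (Ct (co h) (t : ℂ)).im = 0 := by
  rw [mind_real, Complex.ofReal_im]

theorem mind_zero {h : ℝ → ℝ} : Ct (co h) 0 = ((∫ x : ℝ, h x : ℝ) : ℂ) := by
  have h1 := mind_real (h := h) 0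
  rw [Complex.ofReal_zero] at h1
  rw [h1]
  simp

theorem mind_symm (S : Sys) (u v : ℂ → ℂ) : Bf S u v = Bf S v u := by
  unfold Bf
  refine tsum_congr fun t => ?_
  ring

/-- the linear combination of test functions -/
theorem mind_tr {a : ℝ} {g h : ℝ → ℝ} (hg : TR a g) (hh : TR a h) (s : ℝ) :
    TR a (fun x => g x + s * h x) where
  smooth := hg.smooth.add (contDiff_const.mul hh.smooth)
  even x := by rw [hg.even, hh.even]
  supp x hx := by rw [hg.supp x hx, hh.supp x hx]; ring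

theorem mind_intr {a : ℝ} {g : ℝ → ℝ} (hg : TR a g) : Integrable g :=
  hg.smooth.continuous.integrable_of_hasCompactSupport (mind_hc hg.supp)

theorem mind_ct {a : ℝ} {g h : ℝ → ℝ} (hg : TR a g) (hh : TR a h) (s : ℝ) (z : ℂ) :
    Ct (co (fun x => g x + s * h x)) z = Ct (co g) z + s * Ct (co h) z := by
  have h1 := mind_lin (mind_tc hg) (mind_tc hh) 1 s z
  rw [one_mul] at h1
  rw [← h1]
  congr 1
  funext x
  show ((g x + s * h x : ℝ) : ℂ) = 1 * ((g x : ℝ) : ℂ) + s * ((h x : ℝ) : ℂ)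
  push_cast
  ring

theorem mind_it {a : ℝ} {g h : ℝ → ℝ} (hg : TR a g) (hh : TR a h) (s : ℝ) :
    ∫ x : ℝ, (g x + s * h x) = (∫ x : ℝ, g x) + s * ∫ x : ℝ, h x := by
  rw [integral_add (mind_intr hg) ((mind_intr hh).const_mul s), integral_const_mul]

/-- expansion of the quadratic form -/
theorem mind_exp (h3 : S_L2A) (S : Sys) {u v : ℂ → ℂ} (hu : L2 S u) (hv : L2 S v)
    (hvr : ∀ t : ℝ, (v t).im = 0) (s : ℝ) :
    Q S (fun z => u z + s * v z) = Q S u + 2 * s * (Bf S u v).re + s ^ 2 * Q S v := by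
  have hs := (h3 S u v v 0 0 hu hv hv).2.1
  have e1 : (Bf S u v).re = ∑' t : S.G, S.m t * ((u ((t : ℝ) : ℂ)).re * (v ((t : ℝ) : ℂ)).re) := by
    unfold Bf
    rw [Complex.re_tsum hs]
    refine tsum_congr fun t => ?_
    rw [Complex.re_ofReal_mul, Complex.mul_re, hvr, mul_zero, sub_zero]
  have hs' : Summable fun t : S.G => S.m t * ((u ((t : ℝ) : ℂ)).re * (v ((t : ℝ) : ℂ)).re) := by
    have h4 := Complex.reCLM.summable hs
    refine h4.congr fun t => ?_
    show ((S.m t : ℂ) * (u ((t : ℝ) : ℂ) * v ((t : ℝ) : ℂ))).re = _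
    rw [Complex.re_ofReal_mul, Complex.mul_re, hvr, mul_zero, sub_zero]
  rw [e1]
  unfold Q
  rw [← tsum_mul_left, ← tsum_mul_left, ← Summable.tsum_add hu (hs'.mul_left _),
    ← Summable.tsum_add (hu.add (hs'.mul_left _)) (Summable.mul_left _ hv)]
  refine tsum_congr fun t => ?_
  rw [← Complex.normSq_eq_norm_sq, ← Complex.normSq_eq_norm_sq, ← Complex.normSq_eq_norm_sq,
    Complex.normSq_apply, Complex.normSq_apply, Complex.normSq_apply, Complex.add_re, Complex.add_im,
    Complex.re_ofReal_mul, Complex.im_ofReal_mul, hvr]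
  ring

/-- continuity of the bilinear form -/
theorem mind_lim (h3 : S_L2A) (S : Sys) {F : ℕ → ℂ → ℂ} {u w : ℂ → ℂ} (hF : ∀ n, L2 S (F n))
    (hu : L2 S u) (hw : L2 S w) (hc : Tendsto (fun n => Q S (fun z => F n z - u z)) atTop (𝓝 0)) :
    Tendsto (fun n => Bf S w (F n)) atTop (𝓝 (Bf S w u)) := by
  rw [tendsto_iff_norm_sub_tendsto_zero]
  have e1 : ∀ n, Bf S w (F n) - Bf S w u = Bf S w (fun z => F n z - u z) := by
    intro n
    have h4 := (h3 S (F n) u w 1 (-1) (hF n) hu hw).2.2.1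
    have h5 : (fun z => (1 : ℂ) * F n z + -1 * u z) = fun z => F n z - u z := by
      funext z
      ring
    rw [h5] at h4
    rw [h4]
    ring
  have hd : ∀ n, L2 S (fun z => F n z - u z) := by
    intro n
    have h4 := (h3 S (F n) u w 1 (-1) (hF n) hu hw).1
    have h5 : (fun z => (1 : ℂ) * F n z + -1 * u z) = fun z => F n z - u z := by
      funext z
      ring
    rwa [h5] at h4
  have e2 : ∀ n, ‖Bf S w (F n) - Bf S w u‖ ≤ Real.sqrt (Q S w * Q S (fun z => F n z - u z)) := by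
    intro n
    rw [e1]
    exact Real.le_sqrt_of_sq_le (h3 S w (fun z => F n z - u z) w 0 0 hw (hd n) hw).2.2.2.2.2
  have e3 : Tendsto (fun n => Real.sqrt (Q S w * Q S (fun z => F n z - u z))) atTop (𝓝 0) := by
    have h4 := (hc.const_mul (Q S w)).sqrt
    rwa [mul_zero, Real.sqrt_zero] at h4
  exact squeeze_zero (fun n => norm_nonneg _) e2 e3

theorem t_MIND (h1 : S_TCB) (h2 : S_SUM) (h3 : S_L2A) (h4 : S_HE) (h5 : S_MINC) : S_MIND := by
  intro S a g u ha hM v hv
  obtain ⟨hIn, hu1, hur, hQu, hq⟩ := h5 S a g u ha hM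
  obtain ⟨hAd, hmin, hCv⟩ := hM
  obtain ⟨hlu, hl2, hQ0⟩ := hCv
  have hL2u : L2 S u := (h4 S a u ha hIn).2.2.1
  have hL2v : L2 S v := (h4 S a v ha hv).2.2.1
  have hL2g : ∀ n, L2 S (Ct (co (g n))) := fun n => h2 S a _ ha (mind_tc (hAd n).1)
  have hnn : ∀ w : ℂ → ℂ, 0 ≤ Q S w := fun w => tsum_nonneg fun t =>
    mul_nonneg (zero_le_one.trans (S.one_le t t.2)) (sq_nonneg _)
  have hbdd : BddBelow {r : ℝ | ∃ g : ℝ → ℝ, Adm a g ∧ r = Q S (Ct (co g))} := by
    refine ⟨0, ?_⟩
    rintro r ⟨k, -, rfl⟩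
    exact hnn _
  -- (1)
  have s1 : ∀ h : ℝ → ℝ, TR a h → ∫ x : ℝ, h x = 0 → Bf S u (Ct (co h)) = 0 := by
    intro h hh h0
    have hL2h : L2 S (Ct (co h)) := h2 S a _ ha (mind_tc hh)
    have hrh : ∀ t : ℝ, (Ct (co h) t).im = 0 := fun t => mind_im t
    have hb : Tendsto (fun n => Bf S (Ct (co (g n))) (Ct (co h))) atTop
        (𝓝 (Bf S u (Ct (co h)))) := by
      have h6 := mind_lim h3 S hL2g hL2u hL2h hQ0
      rw [mind_symm S u]
      refine h6.congr fun n => ?_
      exact mind_symm _ _ _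
    have hre : ∀ s : ℝ, 0 ≤ 2 * s * (Bf S u (Ct (co h))).re + s ^ 2 * Q S (Ct (co h)) := by
      intro s
      have h6 : ∀ n, qS S a ≤ Q S (Ct (co (g n))) +
          2 * s * (Bf S (Ct (co (g n))) (Ct (co h))).re + s ^ 2 * Q S (Ct (co h)) := by
        intro n
        rw [← mind_exp h3 S (hL2g n) hL2h hrh s]
        refine csInf_le hbdd ⟨fun x => g n x + s * h x, ⟨mind_tr (hAd n).1 hh s, ?_⟩, ?_⟩
        · rw [mind_it (hAd n).1 hh s, (hAd n).2, h0]
          ring
        · congr 1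
          funext z
          exact (mind_ct (hAd n).1 hh s z).symm
      have h7 : Tendsto (fun n => Q S (Ct (co (g n))) +
          2 * s * (Bf S (Ct (co (g n))) (Ct (co h))).re + s ^ 2 * Q S (Ct (co h))) atTop
          (𝓝 (qS S a + 2 * s * (Bf S u (Ct (co h))).re + s ^ 2 * Q S (Ct (co h)))) :=
        (hmin.add (((Complex.continuous_re.tendsto _).comp hb).const_mul (2 * s))).add_const _
      have h8 := ge_of_tendsto' h7 h6
      linarith
    have hre0 : (Bf S u (Ct (co h))).re = 0 := by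
      set b := (Bf S u (Ct (co h))).re with hbdef
      set c := Q S (Ct (co h)) with hcdef
      have hc : 0 ≤ c := hnn _
      have h6 := hre (-b / (c + 1))
      have hc1 : 0 < c + 1 := by linarith
      have h7 : 2 * (-b / (c + 1)) * b + (-b / (c + 1)) ^ 2 * c =
          -(b ^ 2 * ((c + 2) / (c + 1) ^ 2)) := by
        field_simp
        ring
      rw [h7] at h6
      have h8 : 0 < (c + 2) / (c + 1) ^ 2 := by positivity
      have h9 : b ^ 2 ≤ 0 := by
        by_contra hcon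
        push Not at hcon
        have := mul_pos hcon h8
        linarith
      exact pow_eq_zero_iff (two_ne_zero) |>.1 (le_antisymm h9 (sq_nonneg b))
    have him0 : (Bf S u (Ct (co h))).im = 0 := by
      have hs := (h3 S u (Ct (co h)) u 0 0 hL2u hL2h hL2u).2.1
      unfold Bf
      rw [Complex.im_tsum hs]
      have : (fun t : S.G => ((S.m t : ℂ) * (u ((t : ℝ) : ℂ) * Ct (co h) ((t : ℝ) : ℂ))).im) =
          fun _ => 0 := by
        funext t
        rw [Complex.im_ofReal_mul, Complex.mul_im, hur, hrh]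
        ring
      rw [this, tsum_zero]
    exact Complex.ext hre0 him0
  -- (2)
  have s2 : ∀ h : ℝ → ℝ, TR a h →
      Bf S u (Ct (co h)) = ((∫ x : ℝ, h x : ℝ) : ℂ) * Bf S u (Ct (co (g 0))) := by
    intro h hh
    obtain ⟨c, hc⟩ : ∃ c : ℝ, c = ∫ x : ℝ, h x := ⟨_, rfl⟩
    have h6 := s1 (fun x => h x + -c * g 0 x) (mind_tr hh (hAd 0).1 (-c)) (by
      rw [mind_it hh (hAd 0).1, (hAd 0).2, ← hc]
      ring)
    have h7 : Ct (co (fun x => h x + -c * g 0 x)) =
        fun z => (1 : ℂ) * Ct (co h) z + (-c : ℂ) * Ct (co (g 0)) z := by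
      funext z
      rw [mind_ct hh (hAd 0).1 (-c) z]
      push_cast
      ring
    rw [h7, (h3 S (Ct (co h)) (Ct (co (g 0))) u 1 (-c) (h2 S a _ ha (mind_tc hh)) (hL2g 0)
      hL2u).2.2.1] at h6
    rw [← hc]
    linear_combination h6
  have hBg : Bf S u (Ct (co (g 0))) = (qS S a : ℂ) := by
    have h6 : ∀ n, Bf S u (Ct (co (g n))) = Bf S u (Ct (co (g 0))) := by
      intro n
      rw [s2 (g n) (hAd n).1, (hAd n).2, Complex.ofReal_one, one_mul]
    have h7 := mind_lim h3 S hL2g hL2u hL2u hQ0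
    have h8 : Bf S u u = Bf S u (Ct (co (g 0))) := by
      refine tendsto_nhds_unique h7 ?_
      exact tendsto_const_nhds.congr fun n => (h6 n).symm
    rw [← h8, ← hQu]
    unfold Bf Q
    rw [Complex.ofReal_tsum]
    refine tsum_congr fun t => ?_
    have h9 : u ((t : ℝ) : ℂ) = (((u ((t : ℝ) : ℂ)).re : ℝ) : ℂ) := by
      apply Complex.ext
      · simp
      · simp [hur]
    have h10 : ‖u ((t : ℝ) : ℂ)‖ ^ 2 = (u ((t : ℝ) : ℂ)).re * (u ((t : ℝ) : ℂ)).re := by
      rw [← Complex.normSq_eq_norm_sq, Complex.normSq_apply, hur]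
      ring
    rw [h10]
    push_cast
    rw [← h9]
  have s3 : ∀ h : ℝ → ℝ, TR a h → Bf S u (Ct (co h)) = (qS S a : ℂ) * Ct (co h) 0 := by
    intro h hh
    rw [s2 h hh, hBg, mind_zero]
    ring
  -- (3)
  have s4 : ∀ h : ℝ → ℂ, TC a h → Bf S u (Ct h) = (qS S a : ℂ) * Ct h 0 := by
    intro h hh
    have hr : TR a (fun x => (h x).re) :=
      ⟨Complex.reCLM.contDiff.comp hh.smooth, fun x => by rw [hh.even], fun x hx => by
        rw [hh.supp x hx, Complex.zero_re]⟩
    have hi : TR a (fun x => (h x).im) :=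
      ⟨Complex.imCLM.contDiff.comp hh.smooth, fun x => by rw [hh.even], fun x hx => by
        rw [hh.supp x hx, Complex.zero_im]⟩
    have h6 : Ct h = fun z => (1 : ℂ) * Ct (co fun x => (h x).re) z +
        I * Ct (co fun x => (h x).im) z := by
      funext z
      rw [← mind_lin (mind_tc hr) (mind_tc hi) 1 I z]
      congr 1
      funext x
      show h x = 1 * (((h x).re : ℝ) : ℂ) + I * (((h x).im : ℝ) : ℂ)
      rw [one_mul, mul_comm I]
      exact (Complex.re_add_im _).symm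
    rw [h6, (h3 S _ _ u 1 I (h2 S a _ ha (mind_tc hr)) (h2 S a _ ha (mind_tc hi)) hL2u).2.2.1,
      s3 _ hr, s3 _ hi]
    ring
  -- (4)
  obtain ⟨h, hh, hlv, hl2v, hQv⟩ := hv
  have h6 := mind_lim h3 S (fun n => h2 S a _ ha (hh n)) hL2v hL2u hQv
  have h7 : Tendsto (fun n => Ct (h n) 0) atTop (𝓝 (v 0)) := (hlv.tendstoLocallyUniformlyOn (s := univ)).tendsto_at (mem_univ 0)
  refine tendsto_nhds_unique h6 ((h7.const_mul (qS S a : ℂ)).congr fun n => ?_)
  exact (s4 _ (hh n)).symm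

end

end Pool.Agent.H478.WM
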