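import Pool.Agent.H478.WM.Stm
import Pool.Agent.H480.W4

/-!
# Project WM, part NEG: if the Riemann hypothesis fails, Weil's form is negative somewhere on the functions of
integral zero, for all large supports
-/

set_option autoImplicit false

open Complex MeasureTheory Filter Topology Set
open scoped ContDiff

namespace Pool.Agent.H478.WM.NEG

open Pool.Agent.H478.WM
open Pool.Agent.H480.W (hat weil Test RealEven Rich defect lower)

noncomputable section

theorem rich_realEven : Rich RealEven := fun _ _ _ h => h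

theorem exists_zero (h : ¬ RiemannHypothesis) : ∃ ρ : ℂ, ρ ∈ Pool.Agent.H480.W.NTZ ∧ 1 / 2 < ρ.re := by
  by_contra hcon
  push Not at hcon
  apply h
  apply H353.RH_of
  intro s hs hs1 h0
  by_cases h1 : 1 ≤ s.re
  · exact riemannZeta_ne_zero_of_one_le_re h1 h0
  · push Not at h1
    have := hcon s ⟨h0, by linarith, h1⟩
    linarith

/-- a smooth function which vanishes off a bounded interval has compact support -/
theorem hcs {b : ℝ} {g : ℝ → ℝ} (hg : ∀ x : ℝ, b < |x| → g x = 0) : HasCompactSupport g := by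
  refine HasCompactSupport.intro (isCompact_Icc (a := -b) (b := b)) fun x hx => hg x ?_
  by_contra h
  push Not at h
  exact hx (abs_le.1 h)

theorem tr_integrable {b : ℝ} {g : ℝ → ℝ} (hg : TR b g) : Integrable g :=
  hg.smooth.continuous.integrable_of_hasCompactSupport (hcs hg.supp)

theorem hat_eq {g : ℝ → ℝ} {b : ℝ} (hg : TR b g) (s : ℂ) :
    hat (co g) s = Ct (co g) (-I * (s - 1 / 2)) := by
  have hint : ∀ w : ℂ, Integrable (fun x : ℝ => co g x * cexp (w * x)) := by
    intro w
    have hc : Continuous (fun x : ℝ => co g x * cexp (w * x)) := by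
      have h1 : Continuous g := hg.smooth.continuous
      unfold co
      fun_prop
    refine hc.integrable_of_hasCompactSupport ?_
    refine HasCompactSupport.intro (isCompact_Icc (a := -b) (b := b)) fun x hx => ?_
    have h1 : g x = 0 := by
      apply hg.supp
      by_contra h
      push Not at h
      exact hx (abs_le.1 h)
    unfold co
    rw [h1]; simp
  have hneg : ∫ x : ℝ, co g x * cexp ((s - 1 / 2) * x) = ∫ x : ℝ, co g x * cexp (-(s - 1 / 2) * x) := by
    rw [← integral_neg_eq_self (fun x : ℝ => co g x * cexp ((s - 1 / 2) * x))]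
    refine integral_congr_ae (Eventually.of_forall fun x => ?_)
    show co g (-x) * cexp ((s - 1 / 2) * ((-x : ℝ) : ℂ)) = _
    have h1 : co g (-x) = co g x := by unfold co; rw [hg.even]
    rw [h1]
    congr 2
    push_cast; ring
  have hcos : ∀ x : ℝ, Complex.cos (-I * (s - 1 / 2) * x) =
      (cexp ((s - 1 / 2) * x) + cexp (-(s - 1 / 2) * x)) / 2 := by
    intro x
    rw [Complex.cos]
    congr 2
    · congr 1
      linear_combination (-(s - 1 / 2) * x) * I_mul_I
    · congr 1
      linear_combination ((s - 1 / 2) * x) * I_mul_I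
  unfold Ct hat
  have h2 : ∫ x : ℝ, co g x * Complex.cos (-I * (s - 1 / 2) * x) =
      ((∫ x : ℝ, co g x * cexp ((s - 1 / 2) * x)) + ∫ x : ℝ, co g x * cexp (-(s - 1 / 2) * x)) / 2 := by
    rw [← integral_add (hint _) (hint _), ← integral_div]
    refine integral_congr_ae (Eventually.of_forall fun x => ?_)
    show co g x * Complex.cos (-I * (s - 1 / 2) * x) = _
    rw [hcos]; ring
  rw [h2, ← hneg]; ring

theorem hat_conj {g : ℝ → ℝ} {b : ℝ} (hg : TR b g) (s : ℂ) :
    starRingEnd ℂ (hat (co g) (1 - starRingEnd ℂ s)) = hat (co g) s := by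
  have h1 : starRingEnd ℂ (hat (co g) (1 - starRingEnd ℂ s)) = ∫ x : ℝ, co g x * cexp (-(s - 1 / 2) * x) := by
    unfold hat
    rw [← integral_conj]
    refine integral_congr_ae (Eventually.of_forall fun x => ?_)
    show starRingEnd ℂ (co g x * cexp ((1 - starRingEnd ℂ s - 1 / 2) * x)) = _
    rw [map_mul, ← Complex.exp_conj]
    have e1 : starRingEnd ℂ (co g x) = co g x := by unfold co; exact Complex.conj_ofReal _
    rw [e1]
    congr 2
    simp only [map_mul, map_sub, map_one, Complex.conj_conj, Complex.conj_ofReal, map_div₀, map_ofNat]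
    ring
  rw [h1]
  unfold hat
  rw [← integral_neg_eq_self (fun x : ℝ => co g x * cexp ((s - 1 / 2) * x))]
  refine integral_congr_ae (Eventually.of_forall fun x => ?_)
  show co g x * cexp (-(s - 1 / 2) * x) = co g (-x) * cexp ((s - 1 / 2) * ((-x : ℝ) : ℂ))
  have h1 : co g (-x) = co g x := by unfold co; rw [hg.even]
  have h2 : -(s - 1 / 2) * (x : ℂ) = (s - 1 / 2) * ((-x : ℝ) : ℂ) := by push_cast; ring
  rw [h1, h2]

theorem weil_eq (hE : S_EXF) {g : ℝ → ℝ} {b : ℝ} (hg : TR b g) : weil (co g) = W g := by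
  have h := (hE b g hg).tsum_eq
  unfold weil
  have e : (∑' ρ : Pool.Agent.H480.W.NTZ, (Pool.Agent.H480.W.mz ρ : ℂ) *
      (hat (co g) ρ * starRingEnd ℂ (hat (co g) (1 - starRingEnd ℂ (ρ : ℂ))))) =
      ∑' ρ : NTZ, (mz ρ : ℂ) * (Ct (co g) (-I * ((ρ : ℂ) - 1 / 2))) ^ 2 := by
    refine tsum_congr fun ρ => ?_
    rw [hat_conj hg, hat_eq hg, ← sq]
    rfl
  rw [e, h, Complex.ofReal_re]

end

end Pool.Agent.H478.WM.NEG

namespace Pool.Agent.H478.WM

open NEG
open Pool.Agent.H480.W (hat weil Test RealEven Rich defect lower)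

theorem t_NEG (hE : S_EXF) (_ : S_WTS) (hW : S_WK) : S_NEG := by
  intro hRH
  obtain ⟨ρ, hρ, hre⟩ := exists_zero hRH
  obtain ⟨c, hc, hev⟩ := lower rich_realEven ρ hρ hre
  obtain ⟨b, hb1, hb2⟩ := (hev.and (eventually_gt_atTop 0)).exists
  have hd : 0 < defect RealEven b := lt_of_lt_of_le (by positivity) hb1
  -- a function with a negative value
  obtain ⟨gc, hgRE, hgT, hgn⟩ : ∃ g : ℝ → ℂ, RealEven g ∧ Test b g ∧ 0 < -weil g := by
    unfold defect at hd
    by_cases hne : {r : ℝ | ∃ g : ℝ → ℂ, RealEven g ∧ Test b g ∧ ∫ x : ℝ, ‖deriv g x‖ ^ 2 ≤ 1 ∧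
        r = -weil g}.Nonempty
    · obtain ⟨r, ⟨g, h1, h2, _, h4⟩, h5⟩ := exists_lt_of_lt_csSup hne hd
      exact ⟨g, h1, h2, by rw [← h4]; exact h5⟩
    · rw [Set.not_nonempty_iff_eq_empty] at hne
      rw [hne, Real.sSup_empty] at hd
      exact absurd hd (lt_irrefl _)
  set g0 : ℝ → ℝ := fun x => (gc x).re with hg0
  have hco : co g0 = gc := by
    funext x
    unfold co
    apply Complex.ext
    · rw [Complex.ofReal_re]
    · rw [Complex.ofReal_im, (hgRE x).2]
  have hTR : TR b g0 := by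
    refine ⟨?_, fun x => ?_, fun x hx => ?_⟩
    · exact Complex.reCLM.contDiff.comp hgT.smooth
    · show (gc (-x)).re = (gc x).re
      rw [(hgRE x).1]
    · show (gc x).re = 0
      rw [hgT.supp x hx, Complex.zero_re]
  have hWg : W g0 < 0 := by
    rw [← weil_eq hE hTR, hco]; linarith
  obtain ⟨a₀, ha₀, hk⟩ := hW.2 b g0 (∫ x : ℝ, g0 x) (-W g0 / 2) hb2 hTR (by linarith)
  refine ⟨max a₀ b, lt_of_lt_of_le ha₀ (le_max_left _ _), fun a ha => ?_⟩
  obtain ⟨k, ⟨hkT, hk1⟩, hk2⟩ := hk a ((le_max_left _ _).trans ha)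
  have hba : b ≤ a := (le_max_right _ _).trans ha
  set C : ℝ := ∫ x : ℝ, g0 x with hC
  refine ⟨fun x => g0 x - C * k x, ⟨?_, fun x => ?_, fun x hx => ?_⟩, ?_, ?_⟩
  · exact hTR.smooth.sub (contDiff_const.mul hkT.smooth)
  · show g0 (-x) - C * k (-x) = g0 x - C * k x
    rw [hTR.even, hkT.even]
  · show g0 x - C * k x = 0
    rw [hTR.supp x (hba.trans_lt hx), hkT.supp x hx]; ring
  · rw [integral_sub (tr_integrable hTR) ((tr_integrable hkT).const_mul C), integral_const_mul, hk1,
      ← hC]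
    ring
  · linarith

end Pool.Agent.H478.WM
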