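import Pool.Agent.H478.WM.Stm

/-!
# WM, NV: the minimiser does not vanish at all nodes (helper390)
-/

open Complex MeasureTheory Filter Topology Set

namespace Pool.Agent.H478.WM

theorem t_NV (h1 : S_HE) (h2 : S_UNI) : S_NV := by
  intro S a u ha hu
  by_contra hcon
  push Not at hcon
  obtain ⟨hd, -, -, C, hC0, hC⟩ := h1 S a u ha hu.mem
  have h3 := h2 S.G u C a S.gaps hd (fun z => (hC z).trans (mul_le_mul_of_nonneg_left
    (Real.exp_le_exp.2 (mul_le_mul_of_nonneg_left (Complex.abs_im_le_norm z) ha.le)) hC0)) hcon 0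
  rw [hu.one] at h3
  exact one_ne_zero h3

end Pool.Agent.H478.WM
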