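import Pool.Agent.H478.WM.Stm

set_option autoImplicit false

open Complex MeasureTheory Filter Topology Set
open scoped ContDiff

namespace Pool.Agent.H478.WM

theorem t_NZ : S_NZ := by
  intro a x ha
  -- a small radius
  have hcont : Continuous (fun s : ℝ => Complex.cos (x * s)) := by fun_prop
  have hc0 : ContinuousAt (fun s : ℝ => Complex.cos (x * s)) 0 := hcont.continuousAt
  obtain ⟨δ, hδ, hδ'⟩ := Metric.continuousAt_iff.1 hc0 (1 / 2) (by norm_num : (0 : ℝ) < 1 / 2)
  obtain ⟨r, hr⟩ : ∃ r, r = min a (δ / 2) := ⟨_, rfl⟩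
  have hr0 : 0 < r := by rw [hr]; exact lt_min ha (half_pos hδ)
  have hra : r ≤ a := by rw [hr]; exact min_le_left _ _
  have hrδ : r < δ := by
    have : r ≤ δ / 2 := by rw [hr]; exact min_le_right _ _
    linarith
  let β : ContDiffBump (0 : ℝ) := ⟨r / 2, r, half_pos hr0, half_lt_self hr0⟩
  have hβ0 : ∀ s : ℝ, r ≤ |s| → β s = 0 := by
    intro s hs
    refine β.zero_of_le_dist ?_
    show r ≤ dist s 0
    rw [Real.dist_eq, sub_zero]; exact hs
  have hcos : ∀ s : ℝ, |s| < r → ‖Complex.cos (x * s) - 1‖ ≤ 1 / 2 := by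
    intro s hs
    have h := hδ' (show dist s 0 < δ by rw [Real.dist_eq, sub_zero]; linarith)
    rw [dist_eq_norm] at h
    simp only [Complex.ofReal_zero, mul_zero, Complex.cos_zero] at h
    exact h.le
  have hβi : Integrable (fun s : ℝ => β s) := β.continuous.integrable_of_hasCompactSupport β.hasCompactSupport
  have hβi2 : Integrable (fun s : ℝ => (β s : ℂ)) := hβi.ofReal
  have hβi3 : Integrable (fun s : ℝ => (β s : ℂ) * Complex.cos (x * s)) := by
    refine Continuous.integrable_of_hasCompactSupport ((Complex.continuous_ofReal.comp β.continuous).mul hcont) ?_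
    exact (β.hasCompactSupport.comp_left (g := fun t : ℝ => (t : ℂ)) Complex.ofReal_zero).mul_right
  have hpos : 0 < ∫ s : ℝ, β s := β.integral_pos
  obtain ⟨J, hJ⟩ : ∃ J : ℂ, J = ∫ s : ℝ, (β s : ℂ) * Complex.cos (x * s) := ⟨_, rfl⟩
  have h1 : ‖J - ((∫ s : ℝ, β s : ℝ) : ℂ)‖ ≤ 1 / 2 * ∫ s : ℝ, β s := by
    rw [hJ, ← integral_complex_ofReal, ← integral_sub hβi3 hβi2, ← integral_const_mul]
    refine norm_integral_le_of_norm_le (hβi.const_mul (1 / 2)) (Filter.Eventually.of_forall fun s => ?_)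
    have e : (β s : ℂ) * Complex.cos (x * s) - (β s : ℂ) = (β s : ℂ) * (Complex.cos (x * s) - 1) := by ring
    rw [e, norm_mul, Complex.norm_real, Real.norm_of_nonneg β.nonneg, mul_comm (1 / 2)]
    rcases lt_or_ge |s| r with hs | hs
    · exact mul_le_mul_of_nonneg_left (hcos s hs) β.nonneg
    · rw [hβ0 s hs, zero_mul, zero_mul]
  have hJ0 : J ≠ 0 := by
    intro h
    rw [h, zero_sub, norm_neg, Complex.norm_real, Real.norm_of_nonneg hpos.le] at h1
    linarith
  refine ⟨fun s => (β s : ℂ) * J⁻¹, ⟨?_, ?_, ?_⟩, ?_⟩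
  · exact (Complex.ofRealCLM.contDiff.comp β.contDiff).mul contDiff_const
  · intro s
    rw [β.neg]
  · intro s hs
    rw [hβ0 s (hra.trans hs.le), Complex.ofReal_zero, zero_mul]
  · show ∫ s : ℝ, (β s : ℂ) * J⁻¹ * Complex.cos (x * s) = 1
    have e : (fun s : ℝ => (β s : ℂ) * J⁻¹ * Complex.cos (x * s)) =
        fun s : ℝ => J⁻¹ * ((β s : ℂ) * Complex.cos (x * s)) := by
      funext s; ring
    rw [e, integral_const_mul, ← hJ, inv_mul_cancel₀ hJ0]

end Pool.Agent.H478.WM
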