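import Pool.Agent.H478.WM.Stm

/-!
# Project WM: division of a transform by `z ^ 2 - x ^ 2`
-/

set_option autoImplicit false

open Complex MeasureTheory Filter Topology Set
open scoped ContDiff

namespace Pool.Agent.H478.WM.ODE

noncomputable section

theorem smooth_prim {f : ℝ → ℂ} (hf : ContDiff ℝ ∞ f) :
    ContDiff ℝ ∞ (fun u : ℝ => ∫ s in (0 : ℝ)..u, f s) ∧
      ∀ u, HasDerivAt (fun u : ℝ => ∫ s in (0 : ℝ)..u, f s) (f u) u := by
  have hd : ∀ u, HasDerivAt (fun u : ℝ => ∫ s in (0 : ℝ)..u, f s) (f u) u := fun u =>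
    (hf.continuous.integral_hasStrictDerivAt 0 u).hasDerivAt
  refine ⟨contDiff_infty_iff_deriv.2 ⟨fun u => (hd u).differentiableAt, ?_⟩, hd⟩
  have e : deriv (fun u : ℝ => ∫ s in (0 : ℝ)..u, f s) = f := funext fun u => (hd u).deriv
  rw [e]
  exact hf

theorem prim_neg (f : ℝ → ℂ) (u : ℝ) :
    ∫ s in (0 : ℝ)..(-u), f s = -∫ s in (0 : ℝ)..u, f (-s) := by
  rw [intervalIntegral.integral_comp_neg (fun s => f s), neg_zero,
    intervalIntegral.integral_symm]

theorem main (a : ℝ) (x : ℂ) (h : ℝ → ℂ) (ha : 0 < a) (hx : x ≠ 0) (hh : TC a h)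
    (h0 : Ct h x = 0) :
    ∃ k : ℝ → ℂ, TC a k ∧ ∀ z : ℂ, (z ^ 2 - x ^ 2) * Ct k z = Ct h z := by
  obtain ⟨fc, hfc⟩ : ∃ fc : ℝ → ℂ, fc = fun s => h s * Complex.cos (x * s) := ⟨_, rfl⟩
  obtain ⟨fs, hfs⟩ : ∃ fs : ℝ → ℂ, fs = fun s => h s * Complex.sin (x * s) := ⟨_, rfl⟩
  have hxs : ContDiff ℝ ∞ fun s : ℝ => x * (s : ℂ) :=
    contDiff_const.mul Complex.ofRealCLM.contDiff
  have hcos : ContDiff ℝ ∞ fun s : ℝ => Complex.cos (x * s) :=
    (Complex.contDiff_cos.restrict_scalars ℝ).comp hxs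
  have hsin : ContDiff ℝ ∞ fun s : ℝ => Complex.sin (x * s) :=
    (Complex.contDiff_sin.restrict_scalars ℝ).comp hxs
  have cfc : ContDiff ℝ ∞ fc := by rw [hfc]; exact hh.smooth.mul hcos
  have cfs : ContDiff ℝ ∞ fs := by rw [hfs]; exact hh.smooth.mul hsin
  obtain ⟨C, hC⟩ : ∃ C : ℝ → ℂ, C = fun u => ∫ s in (0 : ℝ)..u, fc s := ⟨_, rfl⟩
  obtain ⟨D, hD⟩ : ∃ D : ℝ → ℂ, D = fun u => ∫ s in (0 : ℝ)..u, fs s := ⟨_, rfl⟩
  obtain ⟨sC, dC⟩ := smooth_prim cfc
  obtain ⟨sD, dD⟩ := smooth_prim cfs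
  rw [← hC] at sC dC
  rw [← hD] at sD dD
  have eC : ∀ u, C (-u) = -C u := by
    intro u
    rw [hC]
    show ∫ s in (0 : ℝ)..(-u), fc s = -∫ s in (0 : ℝ)..u, fc s
    rw [prim_neg]
    congr 2
    funext s
    rw [hfc]
    show h (-s) * Complex.cos (x * ((-s : ℝ) : ℂ)) = h s * Complex.cos (x * s)
    rw [hh.even, Complex.ofReal_neg, mul_neg, Complex.cos_neg]
  have eD : ∀ u, D (-u) = D u := by
    intro u
    rw [hD]
    show ∫ s in (0 : ℝ)..(-u), fs s = ∫ s in (0 : ℝ)..u, fs s
    rw [prim_neg, ← intervalIntegral.integral_neg]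
    congr 1
    funext s
    rw [hfs]
    show -(h (-s) * Complex.sin (x * ((-s : ℝ) : ℂ))) = h s * Complex.sin (x * s)
    rw [hh.even, Complex.ofReal_neg, mul_neg, Complex.sin_neg]
    ring
  have zC : ∀ u, a < u → C u = 0 := by
    intro u hu
    have h1 : ∫ s in (-u)..u, fc s = ∫ s : ℝ, fc s := by
      refine intervalIntegral.integral_eq_integral_of_support_subset ?_
      intro s hs
      rw [Function.mem_support] at hs
      have h2 : ¬ a < |s| := by
        intro h3
        apply hs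
        rw [hfc]
        show h s * _ = 0
        rw [hh.supp s h3, zero_mul]
      rw [not_lt, abs_le] at h2
      exact ⟨by linarith [h2.1], by linarith [h2.2]⟩
    have h2 : ∫ s : ℝ, fc s = 0 := by
      rw [hfc]
      exact h0
    have h3 : ∫ s in (-u)..u, fc s = C u - C (-u) := by
      rw [hC]
      show _ = (∫ s in (0 : ℝ)..u, fc s) - ∫ s in (0 : ℝ)..(-u), fc s
      rw [intervalIntegral.integral_interval_sub_left]
      · exact cfc.continuous.intervalIntegrable _ _
      · exact cfc.continuous.intervalIntegrable _ _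
    rw [eC, h1, h2] at h3
    linear_combination -(1 / 2 : ℂ) * h3
  obtain ⟨κ, hκ⟩ : ∃ κ : ℂ, κ = D (a + 1) := ⟨_, rfl⟩
  have zD : ∀ u, a < u → D u - κ = 0 := by
    intro u hu
    rw [hκ, hD]
    show (∫ s in (0 : ℝ)..u, fs s) - ∫ s in (0 : ℝ)..(a + 1), fs s = 0
    rw [intervalIntegral.integral_interval_sub_left (cfs.continuous.intervalIntegrable _ _)
      (cfs.continuous.intervalIntegrable _ _)]
    rw [intervalIntegral.integral_congr (g := fun _ => (0 : ℂ))]
    · simp
    · intro s hs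
      have h1 : a < s := by
        have := (Set.mem_uIcc.1 hs)
        rcases this with h2 | h2
        · linarith [h2.1]
        · linarith [h2.1]
      show fs s = 0
      rw [hfs]
      show h s * _ = 0
      rw [hh.supp s (lt_of_lt_of_le h1 (le_abs_self s)), zero_mul]
  obtain ⟨k, hk⟩ : ∃ k : ℝ → ℂ, k = fun u : ℝ => -(1 / x) * (Complex.sin (x * u) * C u -
      Complex.cos (x * u) * (D u - κ)) := ⟨_, rfl⟩
  obtain ⟨k1, hk1⟩ : ∃ k1 : ℝ → ℂ, k1 = fun u : ℝ => -(Complex.cos (x * u) * C u +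
      Complex.sin (x * u) * (D u - κ)) := ⟨_, rfl⟩
  have dlin : ∀ (z w : ℂ), HasDerivAt (fun u : ℂ => z * u) z w := by
    intro z w
    simpa using (hasDerivAt_id w).const_mul z
  have dsin : ∀ (z : ℂ) (u : ℝ), HasDerivAt (fun u : ℝ => Complex.sin (z * u))
      (Complex.cos (z * u) * z) u := fun z u => (dlin z u).csin.comp_ofReal
  have dcos : ∀ (z : ℂ) (u : ℝ), HasDerivAt (fun u : ℝ => Complex.cos (z * u))
      (-Complex.sin (z * u) * z) u := fun z u => (dlin z u).ccos.comp_ofReal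
  have hdk : ∀ u, HasDerivAt k (k1 u) u := by
    intro u
    rw [hk, hk1]
    have h1 := (((dsin x u).mul (dC u)).sub ((dcos x u).mul ((dD u).sub_const κ))).const_mul
      (-(1 / x))
    refine h1.congr_deriv ?_
    rw [hfc, hfs]
    show -(1 / x) * (Complex.cos (x * u) * x * C u + Complex.sin (x * u) *
      (h u * Complex.cos (x * u)) - (-Complex.sin (x * u) * x * (D u - κ) +
      Complex.cos (x * u) * (h u * Complex.sin (x * u)))) = -(Complex.cos (x * u) * C u +
      Complex.sin (x * u) * (D u - κ))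
    field_simp
    ring
  have hdk1 : ∀ u, HasDerivAt k1 (-h u - x ^ 2 * k u) u := by
    intro u
    rw [hk1, hk]
    have h1 := (((dcos x u).mul (dC u)).add ((dsin x u).mul ((dD u).sub_const κ))).neg
    refine h1.congr_deriv ?_
    rw [hfc, hfs]
    show -(-Complex.sin (x * u) * x * C u + Complex.cos (x * u) *
      (h u * Complex.cos (x * u)) + (Complex.cos (x * u) * x * (D u - κ) +
      Complex.sin (x * u) * (h u * Complex.sin (x * u)))) = -h u - x ^ 2 *
      (-(1 / x) * (Complex.sin (x * u) * C u - Complex.cos (x * u) * (D u - κ)))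
    have h2 := Complex.sin_sq_add_cos_sq (x * u)
    have h3 : x ^ 2 * (-(1 / x) * (Complex.sin (x * u) * C u - Complex.cos (x * u) * (D u - κ))) =
        -(x * (Complex.sin (x * u) * C u - Complex.cos (x * u) * (D u - κ))) := by
      field_simp
    rw [h3]
    linear_combination (-h u) * h2
  have ksm : ContDiff ℝ ∞ k := by
    rw [hk]
    exact contDiff_const.mul ((hsin.mul sC).sub (hcos.mul (sD.sub contDiff_const)))
  have k1sm : ContDiff ℝ ∞ k1 := by
    rw [hk1]
    exact ((hcos.mul sC).add (hsin.mul (sD.sub contDiff_const))).neg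
  have harg : ∀ u : ℝ, x * ((-u : ℝ) : ℂ) = -(x * u) := fun u => by push_cast; ring
  have kev : ∀ u, k (-u) = k u := by
    intro u
    rw [hk]
    show -(1 / x) * (Complex.sin (x * ((-u : ℝ) : ℂ)) * C (-u) -
      Complex.cos (x * ((-u : ℝ) : ℂ)) * (D (-u) - κ)) = _
    rw [eC, eD, harg, Complex.sin_neg, Complex.cos_neg]
    ring
  have k1od : ∀ u, k1 (-u) = -k1 u := by
    intro u
    rw [hk1]
    show -(Complex.cos (x * ((-u : ℝ) : ℂ)) * C (-u) +
      Complex.sin (x * ((-u : ℝ) : ℂ)) * (D (-u) - κ)) = _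
    rw [eC, eD, harg, Complex.sin_neg, Complex.cos_neg]
    ring
  have kz : ∀ u, a < u → k u = 0 := by
    intro u hu
    rw [hk]
    show -(1 / x) * (Complex.sin (x * u) * C u - Complex.cos (x * u) * (D u - κ)) = 0
    rw [zC u hu, zD u hu]; ring
  have k1z : ∀ u, a < u → k1 u = 0 := by
    intro u hu
    rw [hk1]
    show -(Complex.cos (x * u) * C u + Complex.sin (x * u) * (D u - κ)) = 0
    rw [zC u hu, zD u hu]; ring
  have ksupp : ∀ u, a < |u| → k u = 0 := by
    intro u hu
    rcases lt_abs.1 hu with h1 | h1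
    · exact kz u h1
    · rw [← kev]; exact kz _ h1
  have k1supp : ∀ u, a < |u| → k1 u = 0 := by
    intro u hu
    rcases lt_abs.1 hu with h1 | h1
    · exact k1z u h1
    · have h2 := k1z _ h1
      rw [k1od, neg_eq_zero] at h2
      exact h2
  have cs : ∀ {f : ℝ → ℂ}, (∀ u, a < |u| → f u = 0) → HasCompactSupport f := by
    intro f hf
    refine HasCompactSupport.intro (isCompact_Icc (a := -a) (b := a)) fun y hy => hf y ?_
    by_contra hlt
    rw [not_lt, abs_le] at hlt
    exact hy hlt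
  refine ⟨k, ⟨ksm, kev, ksupp⟩, fun z => ?_⟩
  have hF : ∀ u : ℝ, HasDerivAt (fun u : ℝ => k1 u * Complex.cos (z * u) +
      k u * (z * Complex.sin (z * u)))
      (-(h u * Complex.cos (z * u)) + (z ^ 2 - x ^ 2) * (k u * Complex.cos (z * u))) u := by
    intro u
    have h1 := ((hdk1 u).mul (dcos z u)).add ((hdk u).mul ((dsin z u).const_mul z))
    refine h1.congr_deriv ?_
    ring
  have ich : Integrable fun u : ℝ => h u * Complex.cos (z * u) :=
    (hh.smooth.continuous.mul (by fun_prop)).integrable_of_hasCompactSupport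
      (cs hh.supp).mul_right
  have ick : Integrable fun u : ℝ => k u * Complex.cos (z * u) :=
    (ksm.continuous.mul (by fun_prop)).integrable_of_hasCompactSupport (cs ksupp).mul_right
  have icF : Integrable fun u : ℝ => k1 u * Complex.cos (z * u) +
      k u * (z * Complex.sin (z * u)) :=
    ((k1sm.continuous.mul (by fun_prop)).integrable_of_hasCompactSupport
      (cs k1supp).mul_right).add ((ksm.continuous.mul (by fun_prop)).integrable_of_hasCompactSupport
      (cs ksupp).mul_right)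
  have ichn : Integrable fun u : ℝ => -(h u * Complex.cos (z * u)) := ich.neg
  have h5 := integral_eq_zero_of_hasDerivAt_of_integrable hF
    (ichn.add (ick.const_mul (z ^ 2 - x ^ 2))) icF
  rw [integral_add ichn (ick.const_mul (z ^ 2 - x ^ 2)), integral_const_mul,
    integral_neg] at h5
  unfold Ct
  linear_combination h5

end

end Pool.Agent.H478.WM.ODE

namespace Pool.Agent.H478.WM

theorem t_ODE : S_ODE := ODE.main

end Pool.Agent.H478.WM
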