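import Pool.Agent.H478.WM.Stm

/-!
# WM: ORT1 (helper972)
-/

open Complex MeasureTheory Filter Topology Set
open scoped ContDiff

namespace Pool.Agent.H478.WM

theorem t_ORT1 (h1 : S_L2A) (h2 : S_HE) (h3 : S_LIN) (h4 : S_EX) : S_ORT1 := by
  intro S a u x ha hu hx
  have hx0 : x ≠ 0 := by
    rintro rfl
    rw [hu.one] at hx
    exact one_ne_zero hx
  obtain ⟨k, hk, hku⟩ := h4 S a u x ha hx0 hu.mem hx
  have hv : InH S a (fun z => 1 * u z + x ^ 2 * k z) := h3 S a u k 1 (x ^ 2) ha hu.mem hk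
  have hv0 : 1 * u 0 + x ^ 2 * k 0 = 0 := by
    have := hku 0
    linear_combination (-1 : ℂ) * this
  have hB : Bf S u (fun z => 1 * u z + x ^ 2 * k z) = 0 := by
    rw [hu.el _ hv]
    show (qS S a : ℂ) * (1 * u 0 + x ^ 2 * k 0) = 0
    rw [hv0, mul_zero]
  have hL2u := (h2 S a u ha hu.mem).2.2.1
  have hL2v := (h2 S a _ ha hv).2.2.1
  have hS := (h1 S u (fun z => 1 * u z + x ^ 2 * k z) u 1 1 hL2u hL2v hL2u).2.1
  have hterm : ∀ t : S.G, (S.m t : ℂ) * (((t : ℝ) : ℂ) ^ 2 * (u ((t : ℝ) : ℂ)) ^ 2 /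
      (((t : ℝ) : ℂ) ^ 2 - x ^ 2)) =
      (S.m t : ℂ) * (u ((t : ℝ) : ℂ) * (fun z => 1 * u z + x ^ 2 * k z) ((t : ℝ) : ℂ)) := by
    intro t
    have ht := hku ((t : ℝ) : ℂ)
    congr 1
    show _ = u ((t : ℝ) : ℂ) * (1 * u ((t : ℝ) : ℂ) + x ^ 2 * k ((t : ℝ) : ℂ))
    by_cases hc : ((t : ℝ) : ℂ) ^ 2 - x ^ 2 = 0
    · rw [hc, zero_mul] at ht
      rw [hc, ← ht]
      simp
    · rw [div_eq_iff hc]
      linear_combination (u ((t : ℝ) : ℂ) * (-x ^ 2)) * ht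
  refine ⟨?_, ?_⟩
  · exact hS.congr fun t => (hterm t).symm
  · rw [tsum_congr hterm]
    exact hB

end Pool.Agent.H478.WM
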