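import Pool.Agent.H478.WM.Stm

/-!
# WM: ORT2 (helper972)
-/

open Complex MeasureTheory Filter Topology Set
open scoped ContDiff

namespace Pool.Agent.H478.WM

namespace ORT2

/-- cancellation of `z² - x²` for continuous functions -/
theorem cancel {f g : ℂ → ℂ} (hf : Continuous f) (hg : Continuous g) (x : ℂ)
    (h : ∀ z : ℂ, (z ^ 2 - x ^ 2) * f z = (z ^ 2 - x ^ 2) * g z) (z : ℂ) : f z = g z := by
  have hfin : ({x, -x} : Set ℂ).Finite := by simp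
  have hd : Dense ({x, -x} : Set ℂ)ᶜ := hfin.countable.dense_compl ℂ
  have : f = g := by
    refine Continuous.ext_on hd hf hg ?_
    intro w hw
    have hne : w ^ 2 - x ^ 2 ≠ 0 := by
      intro h0
      apply hw
      have h1 : (w - x) * (w + x) = 0 := by linear_combination h0
      rcases mul_eq_zero.1 h1 with h2 | h2
      · left
        exact sub_eq_zero.1 h2
      · right
        exact eq_neg_of_add_eq_zero_left h2
    exact mul_left_cancel₀ hne (h w)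
  rw [this]

end ORT2

theorem t_ORT2 (h1 : S_L2A) (h2 : S_HE) (h3 : S_LIN) (h4 : S_EX) : S_ORT2 := by
  intro S a u k x y ha hu hkd hku
  have hux : u x = 0 := by rw [← hku x]; ring
  have huy : u y = 0 := by rw [← hku y]; ring
  have hx0 : x ≠ 0 := by
    rintro rfl
    rw [hu.one] at hux
    exact one_ne_zero hux
  have hy0 : y ≠ 0 := by
    rintro rfl
    rw [hu.one] at huy
    exact one_ne_zero huy
  obtain ⟨k₁, hk₁, hk₁u⟩ := h4 S a u x ha hx0 hu.mem hux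
  have hk₁d := (h2 S a k₁ ha hk₁).1
  have hk₁e : ∀ z, k₁ z = (z ^ 2 - y ^ 2) * k z := by
    apply ORT2.cancel hk₁d.continuous (by have := hkd.continuous; fun_prop) x
    intro z
    rw [hk₁u, ← hku]
    ring
  have hk₁y : k₁ y = 0 := by rw [hk₁e]; ring
  obtain ⟨k₂, hk₂, hk₂u⟩ := h4 S a k₁ y ha hy0 hk₁ hk₁y
  have hk₂d := (h2 S a k₂ ha hk₂).1
  have hk₂e : k₂ = k := by
    funext z
    apply ORT2.cancel hk₂d.continuous hkd.continuous y
    intro z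
    rw [hk₂u, ← hk₁e]
  rw [hk₂e] at hk₂
  have hv : InH S a (fun z => 1 * k₁ z + y ^ 2 * k z) := h3 S a k₁ k 1 (y ^ 2) ha hk₁ hk₂
  have hv0 : 1 * k₁ 0 + y ^ 2 * k 0 = 0 := by
    rw [hk₁e]
    ring
  have hB : Bf S u (fun z => 1 * k₁ z + y ^ 2 * k z) = 0 := by
    rw [hu.el _ hv]
    show (qS S a : ℂ) * (1 * k₁ 0 + y ^ 2 * k 0) = 0
    rw [hv0, mul_zero]
  have hL2u := (h2 S a u ha hu.mem).2.2.1
  have hL2v := (h2 S a _ ha hv).2.2.1
  have hS := (h1 S u (fun z => 1 * k₁ z + y ^ 2 * k z) u 1 1 hL2u hL2v hL2u).2.1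
  have hterm : ∀ t : S.G, (S.m t : ℂ) * (((t : ℝ) : ℂ) ^ 2 * (u ((t : ℝ) : ℂ)) ^ 2 /
      ((((t : ℝ) : ℂ) ^ 2 - x ^ 2) * (((t : ℝ) : ℂ) ^ 2 - y ^ 2))) =
      (S.m t : ℂ) * (u ((t : ℝ) : ℂ) * (fun z => 1 * k₁ z + y ^ 2 * k z) ((t : ℝ) : ℂ)) := by
    intro t
    have ht := hku ((t : ℝ) : ℂ)
    congr 1
    show _ = u ((t : ℝ) : ℂ) * (1 * k₁ ((t : ℝ) : ℂ) + y ^ 2 * k ((t : ℝ) : ℂ))
    rw [hk₁e]
    by_cases hc : (((t : ℝ) : ℂ) ^ 2 - x ^ 2) * (((t : ℝ) : ℂ) ^ 2 - y ^ 2) = 0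
    · rw [hc, zero_mul] at ht
      rw [hc, ← ht]
      simp
    · rw [div_eq_iff hc]
      linear_combination (-((t : ℝ) : ℂ) ^ 2 * u ((t : ℝ) : ℂ)) * ht
  refine ⟨?_, ?_⟩
  · exact hS.congr fun t => (hterm t).symm
  · rw [tsum_congr hterm]
    exact hB

end Pool.Agent.H478.WM
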