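import Pool.Agent.H478.WM.Stm

/-!
# Project WM, task PC (helper177 for helper478): convergence of the products
-/

set_option autoImplicit false

open Complex MeasureTheory Filter Topology Set

namespace Pool.Agent.H478.WM.PC

theorem diff_bound (v w : ℕ → ℝ) (R : ℝ) (z : ℂ) (hz : ‖z‖ ≤ R) (hv : ∀ n, 0 ≤ v n ∧ v n ≤ w n)
    (N : ℕ) :
    ‖PP v N z‖ ≤ Real.exp (R ^ 2 * ∑ n ∈ Finset.range N, w n) ∧
    ‖PP v N z - PP w N z‖ ≤ Real.exp (R ^ 2 * ∑ n ∈ Finset.range N, w n) *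
      (R ^ 2 * ∑ n ∈ Finset.range N, |v n - w n|) := by
  have hR : 0 ≤ R := (norm_nonneg z).trans hz
  have hz2 : ‖z‖ ^ 2 ≤ R ^ 2 := by
    have := norm_nonneg z
    nlinarith
  have hf : ∀ s t : ℝ, 0 ≤ s → s ≤ t → ‖1 - (s : ℂ) * z ^ 2‖ ≤ Real.exp (R ^ 2 * t) := by
    intro s t hs hst
    have h1 : ‖1 - (s : ℂ) * z ^ 2‖ ≤ 1 + s * ‖z‖ ^ 2 := by
      refine (norm_sub_le _ _).trans ?_
      rw [norm_one, norm_mul, norm_pow, Complex.norm_real, Real.norm_of_nonneg hs]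
    have h2 : s * ‖z‖ ^ 2 ≤ R ^ 2 * t := by
      have h3 : s * ‖z‖ ^ 2 ≤ t * R ^ 2 := mul_le_mul hst hz2 (by positivity) (hs.trans hst)
      linarith
    have h3 := Real.add_one_le_exp (R ^ 2 * t)
    linarith
  induction N with
  | zero => simp [PP]
  | succ N ih =>
    obtain ⟨ih1, ih2⟩ := ih
    have e1 : PP v (N + 1) z = PP v N z * (1 - (v N : ℂ) * z ^ 2) := by
      unfold PP
      rw [Finset.prod_range_succ]
    have e2 : PP w (N + 1) z = PP w N z * (1 - (w N : ℂ) * z ^ 2) := by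
      unfold PP
      rw [Finset.prod_range_succ]
    have hE : Real.exp (R ^ 2 * ∑ n ∈ Finset.range (N + 1), w n) =
        Real.exp (R ^ 2 * ∑ n ∈ Finset.range N, w n) * Real.exp (R ^ 2 * w N) := by
      rw [Finset.sum_range_succ, mul_add, Real.exp_add]
    have hw0 : 0 ≤ w N := (hv N).1.trans (hv N).2
    constructor
    · rw [e1, norm_mul, hE]
      exact mul_le_mul ih1 (hf _ _ (hv N).1 (hv N).2) (norm_nonneg _) (Real.exp_pos _).le
    · have e3 : PP v (N + 1) z - PP w (N + 1) z =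
          (PP v N z - PP w N z) * (1 - (w N : ℂ) * z ^ 2) +
            PP v N z * (((w N - v N : ℝ) : ℂ) * z ^ 2) := by
        rw [e1, e2]
        push_cast
        ring
      have e4 : ‖((w N - v N : ℝ) : ℂ) * z ^ 2‖ ≤ R ^ 2 * |v N - w N| := by
        rw [norm_mul, norm_pow, Complex.norm_real, Real.norm_eq_abs, abs_sub_comm]
        have := abs_nonneg (v N - w N)
        nlinarith
      have hge : 1 ≤ Real.exp (R ^ 2 * w N) := by
        rw [← Real.exp_zero]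
        exact Real.exp_le_exp.2 (by positivity)
      have hS0 : 0 ≤ R ^ 2 * ∑ n ∈ Finset.range N, |v n - w n| := by positivity
      rw [e3]
      refine (norm_add_le _ _).trans ?_
      rw [norm_mul, norm_mul]
      have f1 : ‖PP v N z - PP w N z‖ * ‖1 - (w N : ℂ) * z ^ 2‖ ≤
          (Real.exp (R ^ 2 * ∑ n ∈ Finset.range N, w n) *
            (R ^ 2 * ∑ n ∈ Finset.range N, |v n - w n|)) * Real.exp (R ^ 2 * w N) :=
        mul_le_mul ih2 (hf _ _ hw0 le_rfl) (norm_nonneg _) (by positivity)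
      have f2 : ‖PP v N z‖ * ‖((w N - v N : ℝ) : ℂ) * z ^ 2‖ ≤
          Real.exp (R ^ 2 * ∑ n ∈ Finset.range N, w n) * (R ^ 2 * |v N - w N|) :=
        mul_le_mul ih1 e4 (norm_nonneg _) (Real.exp_pos _).le
      have f3 : Real.exp (R ^ 2 * ∑ n ∈ Finset.range N, w n) * (R ^ 2 * |v N - w N|) ≤
          Real.exp (R ^ 2 * ∑ n ∈ Finset.range N, w n) * (R ^ 2 * |v N - w N|) *
            Real.exp (R ^ 2 * w N) := by
        refine le_mul_of_one_le_right ?_ hge
        have := abs_nonneg (v N - w N)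
        positivity
      rw [hE, Finset.sum_range_succ]
      calc _ ≤ (Real.exp (R ^ 2 * ∑ n ∈ Finset.range N, w n) *
            (R ^ 2 * ∑ n ∈ Finset.range N, |v n - w n|)) * Real.exp (R ^ 2 * w N) +
          Real.exp (R ^ 2 * ∑ n ∈ Finset.range N, w n) * (R ^ 2 * |v N - w N|) *
            Real.exp (R ^ 2 * w N) := add_le_add f1 (f2.trans f3)
        _ = _ := by ring

theorem coeff_tendsto (hLB : S_LB) (γ : ℕ → ℝ) (v : ℝ → ℕ → ℝ) (f : ℝ → ℂ → ℂ) (hγ : StrictMono γ)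
    (hpos : ∀ n, 0 < γ n) (hsum : Summable (fun n => 1 / γ n ^ 2))
    (hv : ∀ a, 0 < a → ∀ n, 0 ≤ v a n ∧ v a n * γ n ^ 2 < 1)
    (hf : ∀ a, 0 < a → ∀ z, Tendsto (fun N => PP (v a) N z) atTop (𝓝 (f a z)))
    (h0 : ∀ n, Tendsto (fun a => f a (γ n)) atTop (𝓝 0)) (n : ℕ) :
    Tendsto (fun a => v a n) atTop (𝓝 (1 / γ n ^ 2)) := by
  induction n using Nat.strong_induction_on with
  | _ n ih =>
    obtain ⟨c, hc, h1⟩ := hLB γ v f n hγ hpos hsum hv hf ih
    have h2 : Tendsto (fun a => ‖f a (γ n)‖) atTop (𝓝 0) := by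
      have := (h0 n).norm
      rwa [norm_zero] at this
    have h3 : Tendsto (fun a => c * (1 - v a n * γ n ^ 2)) atTop (𝓝 0) := by
      refine squeeze_zero' ?_ h1 h2
      filter_upwards [eventually_gt_atTop (0 : ℝ)] with a ha
      have := (hv a ha n).2
      have : 0 < 1 - v a n * γ n ^ 2 := by linarith
      positivity
    have hg := hpos n
    have h4 : Tendsto (fun a => (1 - c⁻¹ * (c * (1 - v a n * γ n ^ 2))) * (1 / γ n ^ 2)) atTop
        (𝓝 ((1 - c⁻¹ * 0) * (1 / γ n ^ 2))) := by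
      exact ((tendsto_const_nhds.sub (h3.const_mul c⁻¹))).mul_const _
    rw [mul_zero, sub_zero, one_mul] at h4
    refine h4.congr fun a => ?_
    field_simp
    ring

theorem tail_tendsto (γ : ℕ → ℝ) (v : ℝ → ℕ → ℝ) (hpos : ∀ n, 0 < γ n)
    (hsum : Summable (fun n => 1 / γ n ^ 2))
    (hv : ∀ a, 0 < a → ∀ n, 0 ≤ v a n ∧ v a n * γ n ^ 2 < 1)
    (h : ∀ n, Tendsto (fun a => v a n) atTop (𝓝 (1 / γ n ^ 2))) :
    Tendsto (fun a => ∑' n, |v a n - 1 / γ n ^ 2|) atTop (𝓝 0) := by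
  have h1 : Tendsto (fun a => ∑' n, |v a n - 1 / γ n ^ 2|) atTop (𝓝 (∑' _ : ℕ, (0 : ℝ))) := by
    refine tendsto_tsum_of_dominated_convergence hsum ?_ ?_
    · intro n
      have h2 := ((h n).sub_const (1 / γ n ^ 2)).abs
      rwa [sub_self, abs_zero] at h2
    · filter_upwards [eventually_gt_atTop (0 : ℝ)] with a ha n
      have h2 := hv a ha n
      have hg := hpos n
      have h3 : v a n ≤ 1 / γ n ^ 2 := by
        rw [le_div_iff₀ (by positivity)]
        exact h2.2.le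
      rw [Real.norm_eq_abs, abs_abs, abs_le]
      constructor <;> linarith [h2.1]
  rwa [tsum_zero] at h1

theorem prod_tendsto (w : ℕ → ℝ) (hw : ∀ n, 0 ≤ w n) (hsum : Summable w) (z : ℂ) :
    ∃ P : ℂ, Tendsto (fun N => PP w N z) atTop (𝓝 P) := by
  have h1 : Summable (fun n => ‖-((w n : ℂ) * z ^ 2)‖) := by
    have h2 := hsum.mul_right (‖z‖ ^ 2)
    refine h2.congr fun n => ?_
    rw [norm_neg, norm_mul, norm_pow, Complex.norm_real, Real.norm_of_nonneg (hw n)]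
  have h2 := multipliable_one_add_of_summable h1
  refine ⟨_, h2.hasProd.tendsto_prod_nat.congr fun N => ?_⟩
  unfold PP
  refine Finset.prod_congr rfl fun n _ => ?_
  ring

end Pool.Agent.H478.WM.PC

namespace Pool.Agent.H478.WM

open PC

theorem t_PC (h1 : S_LB) : S_PC := by
  intro γ v f hγ hpos hsum hv hf h0
  have hc := coeff_tendsto h1 γ v f hγ hpos hsum hv hf h0
  refine ⟨hc, ?_⟩
  have hw : ∀ n, 0 ≤ 1 / γ n ^ 2 := by
    intro n
    have := hpos n
    positivity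
  choose P hP using fun z => prod_tendsto (fun n => 1 / γ n ^ 2) hw hsum z
  refine ⟨P, hP, ?_⟩
  intro R ε hε
  obtain ⟨T, hT⟩ : ∃ T : ℝ, T = Real.exp (R ^ 2 * ∑' n, 1 / γ n ^ 2) := ⟨_, rfl⟩
  have hT0 : 0 < T := by
    rw [hT]
    exact Real.exp_pos _
  have ht := tail_tendsto γ v hpos hsum hv hc
  have h2 : Tendsto (fun a => T * (R ^ 2 * ∑' n, |v a n - 1 / γ n ^ 2|)) atTop (𝓝 0) := by
    have := (ht.const_mul (R ^ 2)).const_mul T
    rwa [mul_zero, mul_zero] at this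
  obtain ⟨a₁, ha₁⟩ := eventually_atTop.1 ((h2.eventually (ge_mem_nhds hε)))
  refine ⟨max a₁ 1, lt_of_lt_of_le one_pos (le_max_right _ _), ?_⟩
  intro a ha z hz
  have ha0 : 0 < a := lt_of_lt_of_le one_pos ((le_max_right _ _).trans ha)
  refine le_trans ?_ (ha₁ a ((le_max_left _ _).trans ha))
  have hva : ∀ n, 0 ≤ v a n ∧ v a n ≤ 1 / γ n ^ 2 := by
    intro n
    have h3 := hv a ha0 n
    have hg := hpos n
    refine ⟨h3.1, ?_⟩
    rw [le_div_iff₀ (by positivity)]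
    exact h3.2.le
  have hsa : Summable (fun n => |v a n - 1 / γ n ^ 2|) := by
    refine Summable.of_nonneg_of_le (fun n => abs_nonneg _) (fun n => ?_) hsum
    have h3 := hva n
    rw [abs_le]
    constructor <;> linarith [h3.1, h3.2]
  have h3 : Tendsto (fun N => ‖PP (v a) N z - PP (fun n => 1 / γ n ^ 2) N z‖) atTop
      (𝓝 ‖f a z - P z‖) := ((hf a ha0 z).sub (hP z)).norm
  refine le_of_tendsto h3 (Eventually.of_forall fun N => ?_)
  refine (diff_bound (v a) (fun n => 1 / γ n ^ 2) R z hz hva N).2.trans ?_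
  rw [hT]
  have h4 : ∑ n ∈ Finset.range N, 1 / γ n ^ 2 ≤ ∑' n, 1 / γ n ^ 2 :=
    hsum.sum_le_tsum _ (fun n _ => hw n)
  have h5 : ∑ n ∈ Finset.range N, |v a n - 1 / γ n ^ 2| ≤ ∑' n, |v a n - 1 / γ n ^ 2| :=
    hsa.sum_le_tsum _ (fun n _ => abs_nonneg _)
  gcongr

end Pool.Agent.H478.WM
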