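import Pool.Agent.H478.WM.Stm

/-!
# PHA: smoothness and decay of the kernel of the Xi function (helper287)

`Phi = 2 F P₀`, `F P x = ∑ exp (x/2) P(y_n) exp (- y_n)`, `y_n = π (n+1)² exp (2 x)`, and `(F P)' = F (L P)`.
-/

open MeasureTheory Filter Topology Set
open scoped ContDiff

namespace Pool.Agent.H478.WM.PHA

noncomputable section

/-- the numbers `π (n+1)² exp (2 x)` -/
def yn (n : ℕ) (x : ℝ) : ℝ := Real.pi * ((n : ℝ) + 1) ^ 2 * Real.exp (2 * x)

/-- the terms -/
def tn (P : Polynomial ℝ) (n : ℕ) (x : ℝ) : ℝ :=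
  Real.exp (x / 2) * P.eval (yn n x) * Real.exp (-(yn n x))

/-- the sums -/
def FP (P : Polynomial ℝ) (x : ℝ) : ℝ := ∑' n : ℕ, tn P n x

/-- the operator on polynomials -/
def Lp (P : Polynomial ℝ) : Polynomial ℝ :=
  Polynomial.C (1 / 2) * P + Polynomial.C 2 * Polynomial.X * Polynomial.derivative P -
    Polynomial.C 2 * Polynomial.X * P

theorem yn_pos (n : ℕ) (x : ℝ) : 0 < yn n x := by
  unfold yn
  positivity

theorem poly_bound (P : Polynomial ℝ) (δ : ℝ) (hδ : 0 < δ) :
    ∃ K : ℝ, 0 ≤ K ∧ ∀ y : ℝ, 0 ≤ y → |P.eval y| ≤ K * Real.exp (δ * y) := by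
  induction P using Polynomial.induction_on' with
  | add p q hp hq =>
    obtain ⟨K, hK, h1⟩ := hp
    obtain ⟨K', hK', h2⟩ := hq
    refine ⟨K + K', by positivity, fun y hy => ?_⟩
    rw [Polynomial.eval_add, add_mul]
    exact (abs_add_le _ _).trans (add_le_add (h1 y hy) (h2 y hy))
  | monomial k a =>
    refine ⟨|a| * (k.factorial / δ ^ k), by positivity, fun y hy => ?_⟩
    have h := Real.pow_div_factorial_le_exp (δ * y) (by positivity) k
    rw [Polynomial.eval_monomial, abs_mul, abs_of_nonneg (pow_nonneg hy k), mul_assoc]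
    refine mul_le_mul_of_nonneg_left ?_ (abs_nonneg a)
    rw [div_le_iff₀ (by positivity), mul_pow] at h
    have h3 : 0 < δ ^ k := by positivity
    rw [div_mul_eq_mul_div, le_div_iff₀ h3]
    linarith

theorem hasDerivAt_tn (P : Polynomial ℝ) (n : ℕ) (x : ℝ) :
    HasDerivAt (tn P n) (tn (Lp P) n x) x := by
  have h1 : HasDerivAt (yn n) (2 * yn n x) x := by
    have h := (((hasDerivAt_id x).const_mul 2).exp).const_mul (Real.pi * ((n : ℝ) + 1) ^ 2)
    refine h.congr_deriv ?_
    unfold yn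
    simp only [id]
    ring
  have h2 : HasDerivAt (fun x => P.eval (yn n x))
      ((Polynomial.derivative P).eval (yn n x) * (2 * yn n x)) x :=
    (P.hasDerivAt (yn n x)).comp x h1
  have h3 : HasDerivAt (fun x : ℝ => Real.exp (x / 2)) (Real.exp (x / 2) * (1 / 2)) x :=
    ((hasDerivAt_id x).div_const 2).exp
  have h4 : HasDerivAt (fun x => Real.exp (-(yn n x)))
      (Real.exp (-(yn n x)) * (-(2 * yn n x))) x := h1.neg.exp
  refine ((h3.mul h2).mul h4).congr_deriv ?_
  unfold tn Lp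
  simp only [Pi.mul_apply, Polynomial.eval_sub, Polynomial.eval_add, Polynomial.eval_mul,
    Polynomial.eval_C, Polynomial.eval_X]
  ring

theorem tn_bound (P : Polynomial ℝ) (M : ℝ) :
    ∃ u : ℕ → ℝ, Summable u ∧ ∀ n : ℕ, ∀ x ∈ Ioo (-M) M, ‖tn P n x‖ ≤ u n := by
  obtain ⟨K, hK, hP⟩ := poly_bound P (1 / 2) (by norm_num)
  set r : ℝ := Real.exp (-(Real.exp (-(2 * M)))) with hr
  have hr1 : r < 1 := by
    rw [hr, Real.exp_lt_one_iff]
    have := Real.exp_pos (-(2 * M))
    linarith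
  have hr0 : 0 < r := Real.exp_pos _
  refine ⟨fun n => Real.exp (M / 2) * K * r ^ n, ?_, ?_⟩
  · exact (summable_geometric_of_lt_one hr0.le hr1).mul_left _
  · intro n x hx
    have hy := yn_pos n x
    have h1 := hP (yn n x) hy.le
    have hpi := Real.pi_gt_three
    have hyn : 2 * (n * Real.exp (-(2 * M))) ≤ yn n x := by
      unfold yn
      have e1 : Real.exp (-(2 * M)) ≤ Real.exp (2 * x) := by
        apply Real.exp_le_exp.mpr
        linarith [hx.1]
      have e2 : (2 : ℝ) * n ≤ Real.pi * ((n : ℝ) + 1) ^ 2 := by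
        have hn : (0 : ℝ) ≤ n := Nat.cast_nonneg n
        nlinarith
      rw [← mul_assoc]
      exact mul_le_mul e2 e1 (Real.exp_pos _).le (by positivity)
    have e3 : r ^ n = Real.exp (-(n * Real.exp (-(2 * M)))) := by
      rw [hr, ← Real.exp_nat_mul]
      congr 1
      ring
    have e4 : Real.exp (1 / 2 * yn n x) * Real.exp (-(yn n x)) ≤ r ^ n := by
      rw [e3, ← Real.exp_add]
      apply Real.exp_le_exp.mpr
      linarith
    unfold tn
    rw [Real.norm_eq_abs, abs_mul, abs_mul, Real.abs_exp, Real.abs_exp]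
    have e5 : Real.exp (x / 2) ≤ Real.exp (M / 2) := by
      apply Real.exp_le_exp.mpr
      linarith [hx.2]
    calc Real.exp (x / 2) * |P.eval (yn n x)| * Real.exp (-(yn n x))
        ≤ Real.exp (M / 2) * (K * Real.exp (1 / 2 * yn n x)) * Real.exp (-(yn n x)) := by
          gcongr
      _ = Real.exp (M / 2) * K * (Real.exp (1 / 2 * yn n x) * Real.exp (-(yn n x))) := by ring
      _ ≤ Real.exp (M / 2) * K * r ^ n := by gcongr

theorem summable_tn (P : Polynomial ℝ) (x : ℝ) : Summable (fun n => tn P n x) := by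
  obtain ⟨u, hu, h⟩ := tn_bound P (|x| + 1)
  refine Summable.of_norm_bounded hu fun n => h n x ?_
  have := abs_lt.mp (show |x| < |x| + 1 by linarith)
  exact ⟨this.1, this.2⟩

theorem hasDerivAt_FP (P : Polynomial ℝ) (x : ℝ) : HasDerivAt (FP P) (FP (Lp P) x) x := by
  obtain ⟨u, hu, h⟩ := tn_bound (Lp P) (|x| + 1)
  have hx : x ∈ Ioo (-(|x| + 1)) (|x| + 1) := by
    have := abs_lt.mp (show |x| < |x| + 1 by linarith)
    exact ⟨this.1, this.2⟩
  exact hasDerivAt_tsum_of_isPreconnected hu isOpen_Ioo isPreconnected_Ioo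
    (fun n y _ => hasDerivAt_tn P n y) h hx (summable_tn P x) hx

theorem contDiff_FP (k : ℕ) : ∀ P : Polynomial ℝ, ContDiff ℝ k (FP P) := by
  induction k with
  | zero =>
    intro P
    rw [Nat.cast_zero, contDiff_zero]
    exact continuous_iff_continuousAt.mpr fun x => (hasDerivAt_FP P x).continuousAt
  | succ k ih =>
    intro P
    have h1 : deriv (FP P) = FP (Lp P) := funext fun x => (hasDerivAt_FP P x).deriv
    rw [Nat.cast_succ, contDiff_succ_iff_deriv]
    refine ⟨fun x => (hasDerivAt_FP P x).differentiableAt, fun h => ?_, ?_⟩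
    · exact absurd h (by simp)
    · rw [h1]
      exact ih (Lp P)

theorem FP_decay (P : Polynomial ℝ) (ε : ℝ) (hε : 0 < ε) :
    ∃ C : ℝ, ∀ x : ℝ, 0 ≤ x → |FP P x| ≤ C * Real.exp (-(Real.pi - ε) * Real.exp (2 * x)) := by
  have hpi := Real.pi_gt_three
  set δ : ℝ := min (ε / Real.pi) (1 / 2) with hδdef
  have hδ : 0 < δ := by
    rw [hδdef]
    exact lt_min (by positivity) (by norm_num)
  have hδ1 : δ * Real.pi ≤ ε := by
    have : δ ≤ ε / Real.pi := min_le_left _ _
    rwa [le_div_iff₀ (by positivity)] at this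
  have hδ2 : δ ≤ 1 / 2 := min_le_right _ _
  obtain ⟨K, hK, hP⟩ := poly_bound (Polynomial.X * P) δ hδ
  set r : ℝ := Real.exp (-1) with hr
  have hr1 : r < 1 := by
    rw [hr, Real.exp_lt_one_iff]
    norm_num
  have hr0 : 0 < r := Real.exp_pos _
  refine ⟨K * (1 - r)⁻¹, fun x hx => ?_⟩
  have hterm : ∀ n : ℕ, ‖tn P n x‖ ≤ (K * Real.exp (-(Real.pi - ε) * Real.exp (2 * x))) * r ^ n := by
    intro n
    have hy := yn_pos n x
    have h1 := hP (yn n x) hy.le
    rw [Polynomial.eval_mul, Polynomial.eval_X, abs_mul, abs_of_pos hy] at h1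
    have he2x : 1 ≤ Real.exp (2 * x) := Real.one_le_exp (by linarith)
    have hn : (0 : ℝ) ≤ n := Nat.cast_nonneg n
    have hxy : Real.exp (x / 2) ≤ yn n x := by
      have e1 : Real.exp (x / 2) ≤ Real.exp (2 * x) := Real.exp_le_exp.mpr (by linarith)
      have e2 : 1 ≤ Real.pi * ((n : ℝ) + 1) ^ 2 := by nlinarith
      unfold yn
      nlinarith [Real.exp_pos (2 * x)]
    have e3 : r ^ n = Real.exp (-(n : ℝ)) := by
      rw [hr, ← Real.exp_nat_mul]
      congr 1
      ring
    have e4 : Real.exp (δ * yn n x) * Real.exp (-(yn n x)) ≤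
        Real.exp (-(Real.pi - ε) * Real.exp (2 * x)) * r ^ n := by
      rw [e3, ← Real.exp_add, ← Real.exp_add]
      apply Real.exp_le_exp.mpr
      have e5 : (Real.pi - ε) * Real.exp (2 * x) + n ≤ (1 - δ) * yn n x := by
        unfold yn
        have e6 : (Real.pi - ε) * Real.exp (2 * x) ≤ (1 - δ) * Real.pi * Real.exp (2 * x) := by
          apply mul_le_mul_of_nonneg_right _ (Real.exp_pos _).le
          linarith
        have e7 : (n : ℝ) ≤ (1 - δ) * Real.pi * (((n : ℝ) + 1) ^ 2 - 1) * Real.exp (2 * x) := by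
          have a1 : 1 ≤ (1 - δ) * Real.pi := by nlinarith
          have a2 : (n : ℝ) ≤ ((n : ℝ) + 1) ^ 2 - 1 := by nlinarith
          have a3 : (n : ℝ) ≤ (1 - δ) * Real.pi * (((n : ℝ) + 1) ^ 2 - 1) := by nlinarith
          nlinarith
        calc (Real.pi - ε) * Real.exp (2 * x) + n
            ≤ (1 - δ) * Real.pi * Real.exp (2 * x) +
              (1 - δ) * Real.pi * (((n : ℝ) + 1) ^ 2 - 1) * Real.exp (2 * x) := add_le_add e6 e7
          _ = (1 - δ) * (Real.pi * ((n : ℝ) + 1) ^ 2 * Real.exp (2 * x)) := by ring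
      linarith
    unfold tn
    rw [Real.norm_eq_abs, abs_mul, abs_mul, Real.abs_exp, Real.abs_exp]
    calc Real.exp (x / 2) * |P.eval (yn n x)| * Real.exp (-(yn n x))
        ≤ yn n x * |P.eval (yn n x)| * Real.exp (-(yn n x)) := by gcongr
      _ ≤ (K * Real.exp (δ * yn n x)) * Real.exp (-(yn n x)) := by gcongr
      _ = K * (Real.exp (δ * yn n x) * Real.exp (-(yn n x))) := by ring
      _ ≤ K * (Real.exp (-(Real.pi - ε) * Real.exp (2 * x)) * r ^ n) := by gcongr
      _ = (K * Real.exp (-(Real.pi - ε) * Real.exp (2 * x))) * r ^ n := by ring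
  have hs : HasSum (fun n => (K * Real.exp (-(Real.pi - ε) * Real.exp (2 * x))) * r ^ n)
      ((K * Real.exp (-(Real.pi - ε) * Real.exp (2 * x))) * (1 - r)⁻¹) :=
    (hasSum_geometric_of_lt_one hr0.le hr1).mul_left _
  have := tsum_of_norm_bounded hs hterm
  rw [Real.norm_eq_abs] at this
  unfold FP
  calc |∑' n : ℕ, tn P n x| ≤ (K * Real.exp (-(Real.pi - ε) * Real.exp (2 * x))) * (1 - r)⁻¹ := this
    _ = K * (1 - r)⁻¹ * Real.exp (-(Real.pi - ε) * Real.exp (2 * x)) := by ring

/-- the polynomial of the kernel -/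
def P0 : Polynomial ℝ :=
  Polynomial.C 2 * (Polynomial.C 2 * Polynomial.X ^ 2 - Polynomial.C 3 * Polynomial.X)

theorem Phi_eq : Phi = FP P0 := by
  funext x
  unfold Phi FP
  rw [← tsum_mul_left]
  refine tsum_congr fun n => ?_
  unfold tn P0 yn
  simp only [Polynomial.eval_sub, Polynomial.eval_mul, Polynomial.eval_C,
    Polynomial.eval_X, Polynomial.eval_pow]
  have e1 : Real.exp (9 * x / 2) = Real.exp (x / 2) * Real.exp (2 * x) ^ 2 := by
    rw [← Real.exp_nat_mul, ← Real.exp_add]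
    congr 1
    push_cast
    ring
  have e2 : Real.exp (5 * x / 2) = Real.exp (x / 2) * Real.exp (2 * x) := by
    rw [← Real.exp_add]
    congr 1
    ring
  have e3 : -Real.pi * ((n : ℝ) + 1) ^ 2 * Real.exp (2 * x) =
      -(Real.pi * ((n : ℝ) + 1) ^ 2 * Real.exp (2 * x)) := by ring
  rw [e1, e2, e3]
  ring

end

end Pool.Agent.H478.WM.PHA

namespace Pool.Agent.H478.WM

open Pool.Agent.H478.WM.PHA

/-- **PHA.** The kernel is smooth, with doubly exponential decay. -/
theorem t_PHA : S_PHA := by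
  have hd : ∀ P : Polynomial ℝ, deriv (FP P) = FP (Lp P) := fun P =>
    funext fun x => (hasDerivAt_FP P x).deriv
  refine ⟨?_, fun ε hε => ?_⟩
  · rw [Phi_eq, contDiff_infty]
    exact fun k => contDiff_FP k P0
  · obtain ⟨C0, h0⟩ := FP_decay P0 ε hε
    obtain ⟨C1, h1⟩ := FP_decay (Lp P0) ε hε
    obtain ⟨C2, h2⟩ := FP_decay (Lp (Lp P0)) ε hε
    refine ⟨C0 + C1 + C2, fun x hx => ?_⟩
    rw [Phi_eq, hd, hd, add_mul, add_mul]
    exact add_le_add (add_le_add (h0 x hx) (h1 x hx)) (h2 x hx)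

end Pool.Agent.H478.WM
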