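import Pool.Agent.H478.WM.Stm
import Pool.Graph.R_pool_sql_team_3845a38e.KK.Even

/-!
# Project WM: the kernel of the Xi function is even and positive
-/

set_option autoImplicit false

namespace Pool.Agent.H478.WM

namespace PHB

theorem Phi_eq (x : ℝ) : Phi x = Pool.Agent.KK.Phi x := rfl

theorem phi_summable (x : ℝ) : Summable fun n => Pool.Agent.KK.phi n x := by
  obtain ⟨h0, -, h2⟩ := Pool.Agent.KK.th_summable x
  have h : ∀ n, Pool.Agent.KK.phi n x =
      (Pool.Agent.KK.th2 n x - Pool.Agent.KK.th n x / 4) / 2 := by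
    intro n
    unfold Pool.Agent.KK.phi Pool.Agent.KK.th2 Pool.Agent.KK.th
    have e1 : Real.exp (9 * x / 2) = Real.exp (x / 2) * Real.exp (2 * x) ^ 2 := by
      rw [← Real.exp_nat_mul, ← Real.exp_add]; congr 1; push_cast; ring
    have e2 : Real.exp (5 * x / 2) = Real.exp (x / 2) * Real.exp (2 * x) := by
      rw [← Real.exp_add]; congr 1; ring
    have e3 : Real.exp (x / 2 - Real.pi * ((n : ℝ) + 1) ^ 2 * Real.exp (2 * x)) =
        Real.exp (x / 2) * Real.exp (-Real.pi * ((n : ℝ) + 1) ^ 2 * Real.exp (2 * x)) := by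
      rw [← Real.exp_add]; congr 1; ring
    rw [e1, e2, e3]
    ring
  simp only [h]
  exact (h2.sub (h0.div_const 4)).div_const 2

theorem phi_pos {x : ℝ} (hx : 0 ≤ x) (n : ℕ) : 0 < Pool.Agent.KK.phi n x := by
  unfold Pool.Agent.KK.phi
  refine mul_pos ?_ (Real.exp_pos _)
  have h1 : 1 ≤ Real.exp (2 * x) := Real.one_le_exp (by linarith)
  have e1 : Real.exp (9 * x / 2) = Real.exp (5 * x / 2) * Real.exp (2 * x) := by
    rw [← Real.exp_add]; congr 1; ring
  have hpi := Real.pi_gt_three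
  have hn : (1 : ℝ) ≤ ((n : ℝ) + 1) ^ 2 := by
    have : (0 : ℝ) ≤ n := Nat.cast_nonneg n
    nlinarith
  have e2 : 2 * Real.pi ^ 2 * ((n : ℝ) + 1) ^ 4 * Real.exp (9 * x / 2) -
      3 * Real.pi * ((n : ℝ) + 1) ^ 2 * Real.exp (5 * x / 2) =
      Real.pi * ((n : ℝ) + 1) ^ 2 * Real.exp (5 * x / 2) *
        (2 * Real.pi * (((n : ℝ) + 1) ^ 2 * Real.exp (2 * x)) - 3) := by
    rw [e1]
    ring
  rw [e2]
  have h2 : 1 ≤ ((n : ℝ) + 1) ^ 2 * Real.exp (2 * x) := one_le_mul_of_one_le_of_one_le hn h1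
  have h3 : 0 < 2 * Real.pi * (((n : ℝ) + 1) ^ 2 * Real.exp (2 * x)) - 3 := by
    have : 2 * Real.pi * 1 ≤ 2 * Real.pi * (((n : ℝ) + 1) ^ 2 * Real.exp (2 * x)) :=
      mul_le_mul_of_nonneg_left h2 (by positivity)
    linarith
  positivity

theorem Phi_pos_nonneg {x : ℝ} (hx : 0 ≤ x) : 0 < Phi x := by
  rw [Phi_eq]
  unfold Pool.Agent.KK.Phi
  have := (phi_summable x).tsum_pos (fun n => (phi_pos hx n).le) 0 (phi_pos hx 0)
  linarith

end PHB

theorem t_PHB : S_PHB := by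
  have he : ∀ x, Phi (-x) = Phi x := fun x => Pool.Agent.KK.Phi_even x
  refine ⟨he, fun x => ?_⟩
  rcases le_total 0 x with hx | hx
  · exact PHB.Phi_pos_nonneg hx
  · rw [← he x]
    exact PHB.Phi_pos_nonneg (by linarith)

end Pool.Agent.H478.WM
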