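import Pool.Agent.H478.WM.Stm
import Pool.Graph.R_pool_sql_team_3845a38e.KK.Repr

/-!
# Project WM: the integral representation of the Xi function (statement `S_PHC`)
-/

open Complex MeasureTheory Filter Topology Set
open scoped ContDiff

namespace Pool.Agent.H478.WM

noncomputable section

lemma phc_eq (x : ℝ) : Phi x = Pool.Agent.KK.Phi x := rfl

/-- every exponential decay on both sides -/
lemma phc_bound (h2 : S_PHB) (k : ℕ) (hk : 1 ≤ k) : ∃ C : ℝ, 0 ≤ C ∧ ∀ t : ℝ,
    |Phi t| ≤ C * Real.exp (-(k : ℝ) * |t|) := by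
  obtain ⟨C, hC0, hC⟩ := Pool.Agent.KK.Phi_bound k hk
  refine ⟨C, hC0, fun t => ?_⟩
  rcases abs_cases t with ⟨h, -⟩ | ⟨h, -⟩
  · rw [h]; exact hC t
  · rw [h]
    have := hC (-t)
    have e : Phi t = Phi (-t) := (h2.1 t).symm
    rw [e]; exact this

lemma phc_cont : Continuous Phi := Pool.Agent.KK.Phi_cont

lemma phc_exp_int (c : ℝ) (hc : 0 < c) : Integrable (fun t : ℝ => Real.exp (-c * |t|)) := by
  have h1 : IntegrableOn (fun t : ℝ => Real.exp (-c * |t|)) (Iic 0) := by
    refine (integrableOn_exp_mul_Iic hc 0).congr_fun (fun t ht => ?_) measurableSet_Iic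
    have ht' : t ≤ 0 := ht
    show Real.exp (c * t) = Real.exp (-c * |t|)
    rw [abs_of_nonpos ht']; congr 1; ring
  have h2 : IntegrableOn (fun t : ℝ => Real.exp (-c * |t|)) (Ioi 0) := by
    refine (integrableOn_exp_mul_Ioi (neg_lt_zero.mpr hc) 0).congr_fun (fun t ht => ?_)
      measurableSet_Ioi
    have ht' : 0 < t := ht
    show Real.exp (-c * t) = Real.exp (-c * |t|)
    rw [abs_of_pos ht']
  have := h1.union h2
  rwa [Iic_union_Ioi, integrableOn_univ] at this

/-- the two-sided Laplace transform of the kernel -/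
def phcF (w : ℂ) : ℂ := ∫ t : ℝ, (Phi t : ℂ) * Complex.exp (w * t)

lemma phc_norm (w : ℂ) (t : ℝ) :
    ‖(Phi t : ℂ) * Complex.exp (w * t)‖ ≤ |Phi t| * Real.exp (‖w‖ * |t|) := by
  rw [norm_mul, Complex.norm_real, Real.norm_eq_abs, Complex.norm_exp]
  refine mul_le_mul_of_nonneg_left (Real.exp_le_exp.mpr ?_) (abs_nonneg _)
  calc (w * t).re ≤ ‖w * t‖ := Complex.re_le_norm _
    _ = ‖w‖ * |t| := by rw [norm_mul, Complex.norm_real, Real.norm_eq_abs]

lemma phc_int (h2 : S_PHB) (w : ℂ) :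
    Integrable (fun t : ℝ => (Phi t : ℂ) * Complex.exp (w * t)) := by
  obtain ⟨k, hk⟩ := exists_nat_ge (‖w‖ + 1)
  have hk1 : 1 ≤ k := by
    have : (1 : ℝ) ≤ k := le_trans (by linarith [norm_nonneg w]) hk
    exact_mod_cast this
  obtain ⟨C, hC0, hC⟩ := phc_bound h2 k hk1
  have hc := phc_cont
  refine ((phc_exp_int 1 one_pos).const_mul C).mono' (by fun_prop)
    (Eventually.of_forall fun t => ?_)
  calc ‖(Phi t : ℂ) * Complex.exp (w * t)‖ ≤ |Phi t| * Real.exp (‖w‖ * |t|) := phc_norm w t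
    _ ≤ (C * Real.exp (-(k : ℝ) * |t|)) * Real.exp (‖w‖ * |t|) :=
        mul_le_mul_of_nonneg_right (hC t) (Real.exp_pos _).le
    _ = C * Real.exp (-(k : ℝ) * |t| + ‖w‖ * |t|) := by rw [Real.exp_add]; ring
    _ ≤ C * Real.exp (-1 * |t|) := by
        refine mul_le_mul_of_nonneg_left (Real.exp_le_exp.mpr ?_) hC0
        nlinarith [abs_nonneg t]

lemma phc_diff (h2 : S_PHB) : Differentiable ℂ phcF := by
  intro z0
  obtain ⟨k, hk⟩ := exists_nat_ge (‖z0‖ + 3)
  have hk1 : 1 ≤ k := by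
    have : (1 : ℝ) ≤ k := le_trans (by linarith [norm_nonneg z0]) hk
    exact_mod_cast this
  obtain ⟨C, hC0, hC⟩ := phc_bound h2 k hk1
  have hc := phc_cont
  have h := hasDerivAt_integral_of_dominated_loc_of_deriv_le (𝕜 := ℂ) (μ := volume)
    (F := fun (z : ℂ) (t : ℝ) => (Phi t : ℂ) * Complex.exp (z * t))
    (F' := fun (z : ℂ) (t : ℝ) => (Phi t : ℂ) * (Complex.exp (z * t) * t))
    (x₀ := z0) (s := Metric.ball z0 1) (bound := fun t => C * Real.exp (-1 * |t|))
    (Metric.ball_mem_nhds z0 one_pos)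
    (Eventually.of_forall fun z => by
      refine Continuous.aestronglyMeasurable ?_
      fun_prop)
    (phc_int h2 z0)
    (by
      refine Continuous.aestronglyMeasurable ?_
      fun_prop)
    (Eventually.of_forall fun t z hz => by
      have hzR : ‖z‖ ≤ ‖z0‖ + 1 := by
        have h1 : ‖z - z0‖ < 1 := by simpa [dist_eq_norm] using hz
        calc ‖z‖ = ‖z0 + (z - z0)‖ := by congr 1; ring
          _ ≤ ‖z0‖ + ‖z - z0‖ := norm_add_le _ _
          _ ≤ ‖z0‖ + 1 := by linarith
      have h3 : |t| ≤ Real.exp |t| := by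
        have := Real.add_one_le_exp |t|
        linarith
      calc ‖(Phi t : ℂ) * (Complex.exp (z * t) * t)‖
          = ‖(Phi t : ℂ) * Complex.exp (z * t)‖ * |t| := by
            rw [← mul_assoc, norm_mul _ (t : ℂ), Complex.norm_real, Real.norm_eq_abs]
        _ ≤ (|Phi t| * Real.exp (‖z‖ * |t|)) * |t| :=
            mul_le_mul_of_nonneg_right (phc_norm z t) (abs_nonneg t)
        _ ≤ ((C * Real.exp (-(k : ℝ) * |t|)) * Real.exp ((‖z0‖ + 1) * |t|)) * Real.exp |t| := by
            refine mul_le_mul ?_ h3 (abs_nonneg t) (by positivity)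
            refine mul_le_mul (hC t) (Real.exp_le_exp.mpr ?_) (Real.exp_pos _).le (by positivity)
            exact mul_le_mul_of_nonneg_right hzR (abs_nonneg t)
        _ = C * Real.exp (-(k : ℝ) * |t| + (‖z0‖ + 1) * |t| + |t|) := by
            rw [Real.exp_add, Real.exp_add]; ring
        _ ≤ C * Real.exp (-1 * |t|) := by
            refine mul_le_mul_of_nonneg_left (Real.exp_le_exp.mpr ?_) hC0
            nlinarith [abs_nonneg t])
    ((phc_exp_int 1 one_pos).const_mul C)
    (Eventually.of_forall fun t z _ => by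
      have h1 : HasDerivAt (fun z : ℂ => z * t) (t : ℂ) z := by
        simpa using (hasDerivAt_id z).mul_const (t : ℂ)
      exact (h1.cexp).const_mul _)
  exact h.2.differentiableAt

/-- the other side -/
def phcX (w : ℂ) : ℂ :=
  ((1 / 2 + w) * ((1 / 2 + w) - 1) * completedRiemannZeta₀ (1 / 2 + w) + 1) / 2

lemma phcX_diff : Differentiable ℂ phcX := by
  have h0 := differentiable_completedZeta₀
  have h1 : Differentiable ℂ (fun w : ℂ => completedRiemannZeta₀ (1 / 2 + w)) :=
    h0.comp ((differentiable_const _).add differentiable_id)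
  unfold phcX
  fun_prop

lemma phc_line (y : ℝ) : phcF (5 / 2 + I * y) = phcX (5 / 2 + I * y) := by
  have h := Pool.Agent.KK.Phi_mellin 0 y
  have e0 : phcF (5 / 2 + I * y) = Pool.Agent.KK.G 0 y * Pool.Agent.KK.D 0 y := by
    rw [← h]
    unfold phcF
    refine integral_congr_ae (Eventually.of_forall fun t => ?_)
    show (Phi t : ℂ) * Complex.exp ((5 / 2 + I * y) * t) =
      (Pool.Agent.KK.Phi t : ℂ) * Complex.exp ((5 / 2 + 2 * ((0 : ℕ) : ℂ) + Complex.I * y) * t)
    rw [phc_eq]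
    congr 3
    push_cast; ring
  set s : ℂ := 3 + I * y with hs
  have hss : Pool.Agent.KK.ss 0 y = s := by
    unfold Pool.Agent.KK.ss; rw [hs]; push_cast; ring
  have hsre : s.re = 3 := by rw [hs]; simp
  have hs0 : s ≠ 0 := by
    intro h; rw [h] at hsre; norm_num at hsre
  have hs1 : 1 - s ≠ 0 := by
    intro h
    have : s = 1 := (sub_eq_zero.mp h).symm
    rw [this] at hsre; norm_num at hsre
  have hD : Pool.Agent.KK.D 0 y = riemannZeta s := by
    unfold Pool.Agent.KK.D
    rw [hss, zeta_eq_tsum_one_div_nat_add_one_cpow (by rw [hsre]; norm_num)]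
    refine tsum_congr fun n => ?_
    rw [Complex.cpow_neg, one_div]
    push_cast
    rfl
  have hG : Pool.Agent.KK.G 0 y = (Real.pi : ℂ) ^ (-s / 2) * (s - 1) * Complex.Gamma (s / 2 + 1) := by
    unfold Pool.Agent.KK.G
    rw [hss]
  have hL : completedRiemannZeta s = (Real.pi : ℂ) ^ (-s / 2) * Complex.Gamma (s / 2) * riemannZeta s := by
    have h1 := riemannZeta_def_of_ne_zero hs0
    have hg : Gammaℝ s ≠ 0 := Gammaℝ_ne_zero_of_re_pos (by rw [hsre]; norm_num)
    rw [h1, ← Gammaℝ_def]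
    field_simp
  have hX : phcX (5 / 2 + I * y) = s * (s - 1) * completedRiemannZeta s / 2 := by
    unfold phcX
    have e1 : (1 / 2 : ℂ) + (5 / 2 + I * y) = s := by rw [hs]; ring
    rw [e1, completedRiemannZeta_eq]
    field_simp
    ring
  have hGam : Complex.Gamma (s / 2 + 1) = s / 2 * Complex.Gamma (s / 2) :=
    Complex.Gamma_add_one _ (by simpa using hs0)
  rw [e0, hX, hD, hG, hL, hGam]
  ring

lemma phc_all (h2 : S_PHB) (w : ℂ) : phcF w = phcX w := by
  have hF : AnalyticOnNhd ℂ phcF univ := fun z _ => (phc_diff h2).analyticAt z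
  have hX : AnalyticOnNhd ℂ phcX univ := fun z _ => phcX_diff.analyticAt z
  have hfr : ∃ᶠ z in 𝓝[≠] (5 / 2 : ℂ), phcF z = phcX z := by
    have ht : Tendsto (fun y : ℝ => (5 / 2 : ℂ) + I * y) (𝓝[≠] 0) (𝓝[≠] (5 / 2 : ℂ)) := by
      refine tendsto_nhdsWithin_iff.mpr ⟨?_, ?_⟩
      · have hc : Continuous (fun y : ℝ => (5 / 2 : ℂ) + I * y) := by fun_prop
        have := hc.tendsto 0
        simp only [ofReal_zero, mul_zero, add_zero] at this
        exact this.mono_left nhdsWithin_le_nhds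
      · filter_upwards [self_mem_nhdsWithin] with y hy
        have hy0 : y ≠ 0 := hy
        simp [hy0]
    exact ht.frequently (Eventually.frequently (Eventually.of_forall phc_line))
  exact congrFun (hF.eq_of_frequently_eq hX hfr) w

theorem t_PHC (h1 : S_PHA) (h2 : S_PHB) : S_PHC := by
  intro z
  have hi1 := phc_int h2 (I * z)
  have hi2 := phc_int h2 (-(I * z))
  have hfun : (fun x : ℝ => (Phi x : ℂ) * Complex.cos (z * x)) = fun x : ℝ =>
      (1 / 2 : ℂ) * ((Phi x : ℂ) * Complex.exp (I * z * x) +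
        (Phi x : ℂ) * Complex.exp (-(I * z) * x)) := by
    funext x
    rw [Complex.cos]
    have e1 : z * x * I = I * z * x := by ring
    have e2 : -(z * x) * I = -(I * z) * x := by ring
    rw [e1, e2]; ring
  rw [hfun]
  refine ⟨(hi1.add hi2).const_mul _, ?_⟩
  rw [integral_const_mul, integral_add hi1 hi2]
  have e3 : ∫ x : ℝ, (Phi x : ℂ) * Complex.exp (-(I * z) * x) =
      ∫ x : ℝ, (Phi x : ℂ) * Complex.exp (I * z * x) := by
    rw [← integral_neg_eq_self (fun x : ℝ => (Phi x : ℂ) * Complex.exp (I * z * x))]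
    refine integral_congr_ae (Eventually.of_forall fun x => ?_)
    show (Phi x : ℂ) * Complex.exp (-(I * z) * x) =
      (Phi (-x) : ℂ) * Complex.exp (I * z * ((-x : ℝ) : ℂ))
    rw [h2.1 x]
    congr 2
    push_cast; ring
  have e4 : ∫ x : ℝ, (Phi x : ℂ) * Complex.exp (I * z * x) = Xi z := by
    have := phc_all h2 (I * z)
    unfold phcF phcX at this
    rw [this]
    rfl
  rw [e3, e4]; ring

end

end Pool.Agent.H478.WM
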