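import Pool.Agent.H478.WM.Stm

/-!
# Project WM: the kernel of the Xi function, summary (by helper122)
-/

set_option autoImplicit false

open Complex MeasureTheory Filter Topology Set
open scoped ContDiff

namespace Pool.Agent.H478.WM

theorem t_PHI (h1 : S_PHA) (h2 : S_PHB) (h3 : S_PHC) : S_PHI := by
  refine ⟨Phi, h1.1, h2.1, ?_, fun z => (h3 z).2⟩
  intro ε hε
  obtain ⟨C, hC⟩ := h1.2 ε hε
  have hev : Phi = fun x => Phi (-x) := funext fun x => (h2.1 x).symm
  have hd : ∀ x, deriv Phi x = -deriv Phi (-x) := by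
    intro x
    conv_lhs => rw [hev]
    rw [deriv_comp_neg]
  have hd2 : ∀ x, deriv (deriv Phi) x = deriv (deriv Phi) (-x) := by
    intro x
    have e1 : deriv Phi = fun x => -deriv Phi (-x) := funext hd
    conv_lhs => rw [e1]
    rw [deriv.fun_neg, deriv_comp_neg (deriv Phi) x, neg_neg]
  refine ⟨C, fun x => ?_⟩
  rcases le_or_gt 0 x with hx | hx
  · rw [abs_of_nonneg hx]
    exact hC x hx
  · have h4 := hC (-x) (by linarith)
    rw [abs_of_neg hx]
    have e1 : Phi (-x) = Phi x := h2.1 x
    have e2 : |deriv Phi (-x)| = |deriv Phi x| := by rw [hd x, abs_neg]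
    rw [e1, e2, ← hd2 x] at h4
    exact h4

end Pool.Agent.H478.WM
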