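import Pool.Agent.H478.WM.Stm

/-!
# Project WM: Plancherel (PL), by helper236
-/

set_option autoImplicit false

open Complex MeasureTheory Filter Topology Set
open scoped ContDiff FourierTransform SchwartzMap

namespace Pool.Agent.H478.WM

namespace PLN

variable {a : ℝ} {g : ℝ → ℂ}

theorem hcs (h : TC a g) : HasCompactSupport g :=
  HasCompactSupport.intro (isCompact_Icc : IsCompact (Icc (-a) a)) (fun x hx => by
    refine h.supp x ?_
    by_contra hcon
    exact hx (abs_le.mp (not_lt.mp hcon)))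

theorem integrable_mul (h : TC a g) {k : ℝ → ℂ} (hk : Continuous k) :
    Integrable (fun x => g x * k x) :=
  (h.smooth.continuous.mul hk).integrable_of_hasCompactSupport (hcs h).mul_right

theorem Ct_eq (h : TC a g) (t : ℝ) : Ct g (t : ℂ) = 𝓕 g (t / (2 * Real.pi)) := by
  rw [Real.fourier_real_eq_integral_exp_smul]
  have hpi : (2 * Real.pi) ≠ 0 := by positivity
  have e1 : ∀ v : ℝ, Complex.exp (↑(-2 * Real.pi * v * (t / (2 * Real.pi))) * I) • g v =
      g v * Complex.exp (-((t : ℂ) * v * I)) := fun v => by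
    rw [smul_eq_mul, mul_comm]
    congr 2
    have : -2 * Real.pi * v * (t / (2 * Real.pi)) = -(t * v) := by
      field_simp
    rw [this]
    push_cast
    ring
  rw [integral_congr_ae (Filter.Eventually.of_forall e1)]
  have hc1 : Continuous (fun v : ℝ => Complex.exp (-((t : ℂ) * v * I))) := by fun_prop
  have hc2 : Continuous (fun v : ℝ => Complex.exp ((t : ℂ) * v * I)) := by fun_prop
  have hA := integrable_mul h hc1
  have hB := integrable_mul h hc2
  have e2 : ∫ v : ℝ, g v * Complex.exp ((t : ℂ) * v * I) =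
      ∫ v : ℝ, g v * Complex.exp (-((t : ℂ) * v * I)) := by
    rw [← integral_neg_eq_self (fun v : ℝ => g v * Complex.exp (-((t : ℂ) * v * I)))]
    refine integral_congr_ae (Filter.Eventually.of_forall (fun v => ?_))
    simp only [h.even]
    congr 2
    push_cast
    ring
  have e3 : ∀ v : ℝ, g v * Complex.cos ((t : ℂ) * v) =
      (1 / 2 : ℂ) * (g v * Complex.exp ((t : ℂ) * v * I) +
        g v * Complex.exp (-((t : ℂ) * v * I))) := fun v => by
    rw [Complex.cos]
    ring_nf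
  unfold Ct
  rw [integral_congr_ae (Filter.Eventually.of_forall e3), integral_const_mul,
    integral_add hB hA, e2]
  ring

/-- the Schwartz function of a smooth function of compact support -/
noncomputable def sch {g : ℝ → ℂ} (h1 : HasCompactSupport g) (h2 : ContDiff ℝ ∞ g) : 𝓢(ℝ, ℂ) :=
  h1.toSchwartzMap h2

theorem planch {g : ℝ → ℂ} (h1 : HasCompactSupport g) (h2 : ContDiff ℝ ∞ g) :
    ContDiff ℝ 1 (𝓕 g) ∧ Integrable (fun x : ℝ => ‖𝓕 g x‖ ^ 2) ∧
      ∫ x : ℝ, ‖𝓕 g x‖ ^ 2 = ∫ x : ℝ, ‖g x‖ ^ 2 := by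
  have e : (⇑(𝓕 (sch h1 h2) : 𝓢(ℝ, ℂ)) : ℝ → ℂ) = 𝓕 g := rfl
  refine ⟨?_, ?_, ?_⟩
  · have h3 : ContDiff ℝ 1 (⇑(𝓕 (sch h1 h2) : 𝓢(ℝ, ℂ))) := (𝓕 (sch h1 h2)).smooth 1
    rwa [e] at h3
  · have h3 : MemLp (⇑(𝓕 (sch h1 h2) : 𝓢(ℝ, ℂ))) 2 volume := (𝓕 (sch h1 h2)).memLp 2
    rw [e] at h3
    exact h3.integrable_norm_pow (by norm_num)
  · have h3 := SchwartzMap.integral_norm_sq_fourier (sch h1 h2)
    rw [e] at h3
    exact h3

theorem planch_scale {g : ℝ → ℂ} (h1 : HasCompactSupport g) (h2 : ContDiff ℝ ∞ g) :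
    Integrable (fun t : ℝ => ‖𝓕 g (t / (2 * Real.pi))‖ ^ 2) ∧
      ∫ t : ℝ, ‖𝓕 g (t / (2 * Real.pi))‖ ^ 2 = 2 * Real.pi * ∫ x : ℝ, ‖g x‖ ^ 2 := by
  obtain ⟨_, h3, h4⟩ := planch h1 h2
  have hpi : (2 * Real.pi) ≠ 0 := by positivity
  refine ⟨h3.comp_div hpi, ?_⟩
  rw [Measure.integral_comp_div (fun x : ℝ => ‖𝓕 g x‖ ^ 2) (2 * Real.pi), h4,
    abs_of_pos (by positivity), smul_eq_mul]

end PLN

open PLN in
theorem t_PL : S_PL := by
  intro a g ha h
  have hpi : (2 * Real.pi) ≠ 0 := by positivity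
  have h1 := hcs h
  have h2 := h.smooth
  have hfun : (fun t : ℝ => Ct g (t : ℂ)) = fun t : ℝ => 𝓕 g (t / (2 * Real.pi)) := by
    ext t
    exact Ct_eq h t
  obtain ⟨hsm, _, _⟩ := planch h1 h2
  obtain ⟨hi, he⟩ := planch_scale h1 h2
  -- the derivative
  set k : ℝ → ℂ := fun x => (-2 * Real.pi * I * x) • g x with hk
  have hk1 : HasCompactSupport k := by
    have h3 : HasCompactSupport (fun x : ℝ => (-2 * Real.pi * I * x : ℂ) * g x) := h1.mul_left
    exact h3
  have hk2 : ContDiff ℝ ∞ k := by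
    have h3 : ContDiff ℝ ∞ (fun x : ℝ => (x : ℂ)) := Complex.ofRealCLM.contDiff
    have h4 : ContDiff ℝ ∞ (fun x : ℝ => (-2 * Real.pi * I * x : ℂ) * g x) :=
      (contDiff_const.mul h3).mul h2
    exact h4
  obtain ⟨hki, hke⟩ := planch_scale hk1 hk2
  have hgi : Integrable g := h2.continuous.integrable_of_hasCompactSupport h1
  have hxg : Integrable (fun x : ℝ => x • g x) := by
    have h3 := integrable_mul h Complex.continuous_ofReal
    refine h3.congr (Filter.Eventually.of_forall (fun x => ?_))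
    show g x * (x : ℂ) = x • g x
    rw [Complex.real_smul, mul_comm]
  have hder : ∀ t : ℝ, HasDerivAt (fun t : ℝ => 𝓕 g (t / (2 * Real.pi)))
      ((1 / (2 * Real.pi)) • 𝓕 k (t / (2 * Real.pi))) t := fun t => by
    have h3 := Real.hasDerivAt_fourier hgi hxg (t / (2 * Real.pi))
    have h4 : HasDerivAt (fun t : ℝ => t / (2 * Real.pi)) (1 / (2 * Real.pi)) t :=
      (hasDerivAt_id t).div_const _
    exact h3.scomp t h4
  have hnorm : ∀ t : ℝ, ‖deriv (fun s : ℝ => Ct g (s : ℂ)) t‖ ^ 2 =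
      (1 / (2 * Real.pi)) ^ 2 * ‖𝓕 k (t / (2 * Real.pi))‖ ^ 2 := fun t => by
    rw [hfun, (hder t).deriv, norm_smul, mul_pow, Real.norm_eq_abs, sq_abs]
  refine ⟨?_, ?_, ?_, ?_, ?_⟩
  · rw [hfun]
    exact hsm.comp (contDiff_id.div_const _)
  · refine hi.congr (Filter.Eventually.of_forall (fun t => ?_))
    simp only [Ct_eq h]
  · rw [← he]
    refine integral_congr_ae (Filter.Eventually.of_forall (fun t => ?_))
    simp only [Ct_eq h]
  · refine (hki.const_mul ((1 / (2 * Real.pi)) ^ 2)).congr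
      (Filter.Eventually.of_forall (fun t => ?_))
    exact (hnorm t).symm
  · rw [integral_congr_ae (Filter.Eventually.of_forall hnorm), integral_const_mul, hke]
    have hkb : ∫ x : ℝ, ‖k x‖ ^ 2 ≤ ∫ x : ℝ, (2 * Real.pi * a) ^ 2 * ‖g x‖ ^ 2 := by
      have hgsq : Integrable (fun x : ℝ => (2 * Real.pi * a) ^ 2 * ‖g x‖ ^ 2) := by
        refine Integrable.const_mul ?_ _
        have h5 : Continuous (fun x : ℝ => ‖g x‖ ^ 2) := h2.continuous.norm.pow 2
        refine h5.integrable_of_hasCompactSupport ?_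
        exact HasCompactSupport.intro (isCompact_Icc : IsCompact (Icc (-a) a)) (fun x hx => by
          have : g x = 0 := by
            refine h.supp x ?_
            by_contra hcon
            exact hx (abs_le.mp (not_lt.mp hcon))
          rw [this, norm_zero]
          norm_num)
      refine integral_mono_of_nonneg (Filter.Eventually.of_forall (fun x => by positivity)) hgsq
        (Filter.Eventually.of_forall (fun x => ?_))
      by_cases hx : a < |x|
      · have h6 : k x = 0 := by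
          simp only [hk]
          rw [h.supp x hx, smul_zero]
        show ‖k x‖ ^ 2 ≤ (2 * Real.pi * a) ^ 2 * ‖g x‖ ^ 2
        rw [h6, norm_zero, show (0 : ℝ) ^ 2 = 0 by norm_num]
        positivity
      · have h6 : |x| ≤ a := not_lt.mp hx
        have h7 : ‖k x‖ = 2 * Real.pi * |x| * ‖g x‖ := by
          simp only [hk]
          rw [norm_smul, norm_mul, norm_mul, norm_mul, norm_neg, Complex.norm_I, Complex.norm_real,
            Complex.norm_real, Real.norm_eq_abs, Real.norm_eq_abs, abs_of_pos Real.pi_pos]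
          norm_num
        show ‖k x‖ ^ 2 ≤ (2 * Real.pi * a) ^ 2 * ‖g x‖ ^ 2
        rw [h7, ← mul_pow]
        refine pow_le_pow_left₀ (by positivity) ?_ 2
        refine mul_le_mul_of_nonneg_right ?_ (norm_nonneg _)
        refine mul_le_mul_of_nonneg_left h6 (by positivity)
    rw [integral_const_mul] at hkb
    calc (1 / (2 * Real.pi)) ^ 2 * (2 * Real.pi * ∫ x : ℝ, ‖k x‖ ^ 2)
        ≤ (1 / (2 * Real.pi)) ^ 2 * (2 * Real.pi * ((2 * Real.pi * a) ^ 2 * ∫ x : ℝ, ‖g x‖ ^ 2)) := by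
          gcongr
      _ = 2 * Real.pi * a ^ 2 * ∫ x : ℝ, ‖g x‖ ^ 2 := by
          field_simp

end Pool.Agent.H478.WM
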