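import Pool.Agent.H478.WM.Stm

/-!
# The product over the nodes has simple zeros at the nodes
-/

set_option autoImplicit false

open Complex MeasureTheory Filter Topology Set

namespace Pool.Agent.H478.WM

namespace PSIM

noncomputable section

/-- the factors without the one of index `n` -/
def a (γ : ℕ → ℝ) (n i : ℕ) (z : ℂ) : ℂ := if i = n then 0 else -((1 / γ i ^ 2 : ℝ) : ℂ) * z ^ 2

/-- the product without the factor of index `n` -/
def G (γ : ℕ → ℝ) (n : ℕ) (z : ℂ) : ℂ := ∏' i, (1 + a γ n i z)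

theorem a_bound (γ : ℕ → ℝ) (n i : ℕ) (z : ℂ) (R : ℝ) (hz : ‖z‖ ≤ R) :
    ‖a γ n i z‖ ≤ R ^ 2 * (1 / γ i ^ 2) := by
  have hR : 0 ≤ R := (norm_nonneg z).trans hz
  have h0 : (0 : ℝ) ≤ 1 / γ i ^ 2 := by positivity
  unfold a
  split_ifs with h
  · rw [norm_zero]
    positivity
  · rw [norm_mul, norm_neg, norm_pow, Complex.norm_real, Real.norm_of_nonneg h0, mul_comm]
    exact mul_le_mul_of_nonneg_right (pow_le_pow_left₀ (norm_nonneg z) hz 2) h0

theorem summable_norm_a (γ : ℕ → ℝ) (hs : Summable (fun n => 1 / γ n ^ 2)) (n : ℕ) (z : ℂ) :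
    Summable (fun i => ‖a γ n i z‖) :=
  Summable.of_nonneg_of_le (fun _ => norm_nonneg _) (fun i => a_bound γ n i z ‖z‖ le_rfl)
    (hs.mul_left _)

theorem tendsto_prod (γ : ℕ → ℝ) (hs : Summable (fun n => 1 / γ n ^ 2)) (n : ℕ) (z : ℂ) :
    Tendsto (fun N => ∏ i ∈ Finset.range N, (1 + a γ n i z)) atTop (𝓝 (G γ n z)) :=
  (multipliable_one_add_of_summable (summable_norm_a γ hs n z)).hasProd.tendsto_prod_nat

theorem PP_eq (γ : ℕ → ℝ) (n N : ℕ) (h : n < N) (z : ℂ) :
    PP (fun n => 1 / γ n ^ 2) N z =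
      (1 - ((1 / γ n ^ 2 : ℝ) : ℂ) * z ^ 2) * ∏ i ∈ Finset.range N, (1 + a γ n i z) := by
  have hn : n ∈ Finset.range N := Finset.mem_range.2 h
  unfold PP
  rw [← Finset.mul_prod_erase _ _ hn, ← Finset.mul_prod_erase _ (fun i => 1 + a γ n i z) hn]
  have h1 : (1 : ℂ) + a γ n n z = 1 := by simp [a]
  rw [h1, one_mul]
  congr 1
  refine Finset.prod_congr rfl fun i hi => ?_
  have hne : i ≠ n := Finset.ne_of_mem_erase hi
  simp only [a, hne, if_false]
  ring

theorem continuousOn_G (γ : ℕ → ℝ) (hs : Summable (fun n => 1 / γ n ^ 2)) (n : ℕ) (R : ℝ) :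
    ContinuousOn (G γ n) (Metric.closedBall 0 R) := by
  have h := Summable.hasProdUniformlyOn_nat_one_add (f := fun i z => a γ n i z)
    (isCompact_closedBall (0 : ℂ) R) (hs.mul_left (R ^ 2))
    (Eventually.of_forall fun i z hz => a_bound γ n i z R (by simpa using hz))
    (fun i => by
      unfold a
      split_ifs
      · exact continuousOn_const
      · fun_prop)
  have h2 := hasProdUniformlyOn_iff_tendstoUniformlyOn.1 h
  refine h2.continuousOn (Frequently.of_forall fun s => ?_)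
  refine continuousOn_finsetProd _ fun i _ => ?_
  unfold a
  split_ifs
  · exact continuousOn_const
  · fun_prop

theorem G_ne (γ : ℕ → ℝ) (hm : StrictMono γ) (hp : ∀ n, 0 < γ n)
    (hs : Summable (fun n => 1 / γ n ^ 2)) (n : ℕ) : G γ n (γ n : ℂ) ≠ 0 := by
  refine tprod_one_add_ne_zero_of_summable (f := fun i => a γ n i (γ n : ℂ)) (fun i => ?_)
    (summable_norm_a γ hs n _)
  unfold a
  split_ifs with h
  · simp
  · intro h0
    have h1 : ((1 + -(1 / γ i ^ 2) * γ n ^ 2 : ℝ) : ℂ) = 0 := by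
      rw [← h0]
      push_cast
      ring
    have h2 : (1 + -(1 / γ i ^ 2) * γ n ^ 2 : ℝ) = 0 := by exact_mod_cast h1
    have hi := hp i
    have hn := hp n
    have h3 : γ i ^ 2 = γ n ^ 2 := by
      field_simp at h2
      linarith
    have h4 : γ i = γ n := by
      rw [sq_eq_sq₀ hi.le hn.le] at h3
      exact h3
    exact h (hm.injective h4)

end

end PSIM

open PSIM in
theorem t_PSIM : S_PSIM := by
  intro γ f hm hp hs hf hlim n
  have hfz : ∀ z, f z = (1 - ((1 / γ n ^ 2 : ℝ) : ℂ) * z ^ 2) * G γ n z := by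
    intro z
    refine tendsto_nhds_unique (hlim z) ?_
    refine Tendsto.congr' ?_ ((tendsto_prod γ hs n z).const_mul _)
    filter_upwards [eventually_gt_atTop n] with N hN
    exact (PP_eq γ n N hN z).symm
  have hn := hp n
  have hnc : (γ n : ℂ) ≠ 0 := by exact_mod_cast hn.ne'
  have hcont : ContinuousAt (G γ n) (γ n : ℂ) := by
    refine (continuousOn_G γ hs n (γ n + 1)).continuousAt ?_
    refine Filter.mem_of_superset (Metric.ball_mem_nhds (γ n : ℂ) one_pos) fun z hz => ?_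
    rw [Metric.mem_ball, dist_eq_norm] at hz
    rw [Metric.mem_closedBall, dist_zero_right]
    calc ‖z‖ = ‖(z - γ n) + γ n‖ := by rw [sub_add_cancel]
      _ ≤ ‖z - γ n‖ + ‖(γ n : ℂ)‖ := norm_add_le _ _
      _ ≤ 1 + γ n := by
          rw [Complex.norm_real, Real.norm_of_nonneg hn.le]
          linarith
      _ = γ n + 1 := by ring
  have h0 : f (γ n : ℂ) = 0 := by
    rw [hfz]
    push_cast
    field_simp
    simp
  have h1 : Tendsto (slope f (γ n : ℂ)) (𝓝[≠] (γ n : ℂ)) (𝓝 (deriv f (γ n : ℂ))) :=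
    hasDerivAt_iff_tendsto_slope.1 (hf _).hasDerivAt
  have h2 : Tendsto (fun z : ℂ => -(z + γ n) * ((1 / γ n ^ 2 : ℝ) : ℂ) * G γ n z)
      (𝓝[≠] (γ n : ℂ)) (𝓝 (-((γ n : ℂ) + γ n) * ((1 / γ n ^ 2 : ℝ) : ℂ) * G γ n (γ n : ℂ))) := by
    have h3 : ContinuousAt (fun z : ℂ => -(z + γ n) * ((1 / γ n ^ 2 : ℝ) : ℂ) * G γ n z)
        (γ n : ℂ) := by
      refine ContinuousAt.mul ?_ hcont
      fun_prop
    exact h3.tendsto.mono_left nhdsWithin_le_nhds
  have h3 : deriv f (γ n : ℂ) =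
      -((γ n : ℂ) + γ n) * ((1 / γ n ^ 2 : ℝ) : ℂ) * G γ n (γ n : ℂ) := by
    refine tendsto_nhds_unique h1 (h2.congr' ?_)
    filter_upwards [self_mem_nhdsWithin] with z hz
    have hz' : z - (γ n : ℂ) ≠ 0 := sub_ne_zero.2 hz
    rw [slope_def_field, h0, sub_zero, hfz, eq_div_iff hz']
    push_cast
    field_simp
    ring
  rw [h3]
  refine mul_ne_zero (mul_ne_zero ?_ ?_) (G_ne γ hm hp hs n)
  · rw [neg_ne_zero, ← two_mul]
    exact mul_ne_zero two_ne_zero hnc
  · have : (1 / γ n ^ 2 : ℝ) ≠ 0 := by positivity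
    exact_mod_cast this

end Pool.Agent.H478.WM
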