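import Pool.Agent.H478.WM.Stm

/-!
# Project WM, part QU: Weil's form is a quadratic form (helper384)
-/

open Complex MeasureTheory Filter Topology Set
open scoped ContDiff

namespace Pool.Agent.H478.WM.QU

noncomputable section

/-- linear combinations of real test functions -/
lemma tr_comb {a : ℝ} {g h : ℝ → ℝ} (hg : TR a g) (hh : TR a h) (s : ℝ) :
    TR a (fun x => g x + s * h x) where
  smooth := hg.smooth.add (contDiff_const.mul hh.smooth)
  even := fun x => by rw [hg.even, hh.even]
  supp := fun x hx => by rw [hg.supp x hx, hh.supp x hx, mul_zero, add_zero]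

/-- the integrand of the transform is integrable -/
lemma integrable_ct {a : ℝ} {g : ℝ → ℝ} (hg : TR a g) (z : ℂ) :
    Integrable (fun x : ℝ => co g x * Complex.cos (z * x)) := by
  have hc : Continuous (fun x : ℝ => co g x * Complex.cos (z * x)) := by
    unfold co
    have h1 : Continuous g := hg.smooth.continuous
    fun_prop
  refine hc.integrable_of_hasCompactSupport ?_
  refine HasCompactSupport.intro (isCompact_Icc (a := -a) (b := a)) fun x hx => ?_
  have h1 : a < |x| := by
    by_contra hcon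
    exact hx (abs_le.mp (not_lt.mp hcon))
  unfold co
  rw [hg.supp x h1]
  simp

/-- the transform is additive -/
lemma ct_comb {a : ℝ} {g h : ℝ → ℝ} (hg : TR a g) (hh : TR a h) (s : ℝ) (z : ℂ) :
    Ct (co (fun x => g x + s * h x)) z = Ct (co g) z + s * Ct (co h) z := by
  unfold Ct
  rw [← integral_const_mul, ← integral_add (integrable_ct hg z) ((integrable_ct hh z).const_mul _)]
  refine integral_congr_ae (Eventually.of_forall fun x => ?_)
  simp only [co]
  push_cast
  ring

/-- see the statement -/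
theorem t_QU (h1 : S_EXF) (_h2 : S_WTS) : S_QU := by
  intro a g h hg hh
  have eg := h1 a g hg
  have eh := h1 a h hh
  have egh := h1 a _ (tr_comb hg hh 1)
  refine ⟨⟨(W (fun x => g x + 1 * h x) - W g - W h) / 2, fun s => ?_⟩, fun h0 => ?_⟩
  · have es := h1 a _ (tr_comb hg hh s)
    have hm := (egh.sub eg).sub eh
    have ht := (eg.add (hm.mul_left (s : ℂ))).add (eh.mul_left ((s : ℂ) ^ 2))
    have hcongr : (fun ρ : NTZ => (mz ρ : ℂ) *
        (Ct (co (fun x => g x + s * h x)) (-I * ((ρ : ℂ) - 1 / 2))) ^ 2) =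
        (fun ρ : NTZ => (mz ρ : ℂ) * (Ct (co g) (-I * ((ρ : ℂ) - 1 / 2))) ^ 2 +
          (s : ℂ) * ((mz ρ : ℂ) *
            (Ct (co (fun x => g x + 1 * h x)) (-I * ((ρ : ℂ) - 1 / 2))) ^ 2 -
            (mz ρ : ℂ) * (Ct (co g) (-I * ((ρ : ℂ) - 1 / 2))) ^ 2 -
            (mz ρ : ℂ) * (Ct (co h) (-I * ((ρ : ℂ) - 1 / 2))) ^ 2) +
          (s : ℂ) ^ 2 * ((mz ρ : ℂ) * (Ct (co h) (-I * ((ρ : ℂ) - 1 / 2))) ^ 2)) := by
      funext ρ
      rw [ct_comb hg hh s, ct_comb hg hh 1]
      push_cast
      ring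
    rw [hcongr] at es
    have hu := es.unique ht
    have hr : ((W (fun x => g x + s * h x) : ℝ) : ℂ) =
        ((W g + s * (W (fun x => g x + 1 * h x) - W g - W h) + s ^ 2 * W h : ℝ) : ℂ) := by
      rw [hu]
      push_cast
      ring
    have hr' := Complex.ofReal_injective hr
    rw [hr']
    ring
  · have hz : (fun ρ : NTZ => (mz ρ : ℂ) * (Ct (co h) (-I * ((ρ : ℂ) - 1 / 2))) ^ 2) =
        fun _ => (0 : ℂ) := by
      funext ρ
      rw [h0]
      ring
    rw [hz] at eh
    exact Complex.ofReal_injective (eh.unique hasSum_zero)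

end

end Pool.Agent.H478.WM.QU
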