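import Pool.Agent.H478.WM.Stm

open Complex MeasureTheory Filter Topology Set

namespace Pool.Agent.H478.WM

theorem t_RZ (h1 : S_ORT1) (h2 : S_NV) : S_RZ := by
  intro S a u x ha hu hx
  obtain ⟨hs, h0⟩ := h1 S a u x ha hu hx
  obtain ⟨t0, ht0, hne⟩ := h2 S a u ha hu
  by_contra hxi
  have hsum := hs.hasSum
  rw [h0] at hsum
  -- the weights
  obtain ⟨c, hc⟩ : ∃ c : S.G → ℝ, c = fun t : S.G => S.m t * (t : ℝ) ^ 2 * (u ((t : ℝ) : ℂ)).re ^ 2 :=
    ⟨_, rfl⟩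
  have hc0 : ∀ t, 0 ≤ c t := by
    intro t
    rw [hc]
    have := S.one_le t t.2
    positivity
  have hcpos : 0 < c ⟨t0, ht0⟩ := by
    rw [hc]
    have k1 := S.one_le t0 ht0
    have k2 := S.pos t0 ht0
    have k3 : (u ((t0 : ℝ) : ℂ)).re ≠ 0 := by
      intro h
      exact hne (Complex.ext h (hu.real t0))
    positivity
  have hF : ∀ t : S.G, (S.m t : ℂ) * (((t : ℝ) : ℂ) ^ 2 * (u ((t : ℝ) : ℂ)) ^ 2 /
      (((t : ℝ) : ℂ) ^ 2 - x ^ 2)) = (c t : ℂ) * (((t : ℝ) : ℂ) ^ 2 - x ^ 2)⁻¹ := by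
    intro t
    have k1 : u ((t : ℝ) : ℂ) = ((u ((t : ℝ) : ℂ)).re : ℂ) := by
      apply Complex.ext
      · simp
      · simp [hu.real t]
    rw [hc]
    conv_lhs => rw [k1]
    push_cast
    ring
  have hzim : ∀ t : ℝ, ((t : ℂ) ^ 2 - x ^ 2).im = -(2 * x.re * x.im) := by
    intro t
    simp [pow_two]
    ring
  have hzre : ∀ t : ℝ, ((t : ℂ) ^ 2 - x ^ 2).re = t ^ 2 - x.re ^ 2 + x.im ^ 2 := by
    intro t
    simp [pow_two]
    ring
  by_cases hxr : x.re = 0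
  · have hre := Complex.hasSum_re hsum
    rw [Complex.zero_re] at hre
    have hn : ∀ t : S.G, 0 ≤ ((S.m t : ℂ) * (((t : ℝ) : ℂ) ^ 2 * (u ((t : ℝ) : ℂ)) ^ 2 /
      (((t : ℝ) : ℂ) ^ 2 - x ^ 2))).re := by
      intro t
      rw [hF, Complex.re_ofReal_mul, Complex.inv_re, hzre, hxr]
      have := hc0 t
      have k : 0 ≤ (t : ℝ) ^ 2 - 0 ^ 2 + x.im ^ 2 := by
        have := sq_nonneg (t : ℝ)
        have := sq_nonneg x.im
        linarith
      exact mul_nonneg this (div_nonneg k (Complex.normSq_nonneg _))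
    have hz := (hasSum_zero_iff_of_nonneg hn).1 hre
    have hz0 := congrFun hz ⟨t0, ht0⟩
    have hz1 := hF ⟨t0, ht0⟩
    simp only [Pi.zero_apply] at hz0 hz1
    rw [hz1, Complex.re_ofReal_mul, Complex.inv_re, hzre, hxr] at hz0
    have k : 0 < t0 ^ 2 - 0 ^ 2 + x.im ^ 2 := by
      have := S.pos t0 ht0
      have : 0 < t0 ^ 2 := by positivity
      have := sq_nonneg x.im
      linarith
    have hnz : ((t0 : ℂ) ^ 2 - x ^ 2) ≠ 0 := by
      intro h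
      have := hzre t0
      rw [h, Complex.zero_re, hxr] at this
      linarith
    have hq := Complex.normSq_pos.2 hnz
    have : 0 < c ⟨t0, ht0⟩ * ((t0 ^ 2 - 0 ^ 2 + x.im ^ 2) / Complex.normSq ((t0 : ℂ) ^ 2 - x ^ 2)) :=
      mul_pos hcpos (div_pos k hq)
    exact this.ne' hz0
  · have him := (Complex.hasSum_im hsum).mul_left (2 * x.re * x.im)
    rw [Complex.zero_im, mul_zero] at him
    have hform : ∀ t : S.G, 2 * x.re * x.im * ((S.m t : ℂ) * (((t : ℝ) : ℂ) ^ 2 *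
        (u ((t : ℝ) : ℂ)) ^ 2 / (((t : ℝ) : ℂ) ^ 2 - x ^ 2))).im =
        c t * ((2 * x.re * x.im) ^ 2 / Complex.normSq (((t : ℝ) : ℂ) ^ 2 - x ^ 2)) := by
      intro t
      rw [hF, Complex.im_ofReal_mul, Complex.inv_im, hzim]
      ring
    have hn : ∀ t : S.G, 0 ≤ 2 * x.re * x.im * ((S.m t : ℂ) * (((t : ℝ) : ℂ) ^ 2 *
        (u ((t : ℝ) : ℂ)) ^ 2 / (((t : ℝ) : ℂ) ^ 2 - x ^ 2))).im := by
      intro t
      rw [hform]
      exact mul_nonneg (hc0 t) (div_nonneg (sq_nonneg _) (Complex.normSq_nonneg _))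
    have hz := (hasSum_zero_iff_of_nonneg hn).1 him
    have hz0 := congrFun hz ⟨t0, ht0⟩
    have hz1 := hform ⟨t0, ht0⟩
    simp only [Pi.zero_apply] at hz0 hz1
    rw [hz1] at hz0
    have hw : 2 * x.re * x.im ≠ 0 := mul_ne_zero (mul_ne_zero two_ne_zero hxr) hxi
    have hnz : ((t0 : ℂ) ^ 2 - x ^ 2) ≠ 0 := by
      intro h
      have := hzim t0
      rw [h, Complex.zero_im] at this
      exact hw (by linarith)
    have hq := Complex.normSq_pos.2 hnz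
    have : 0 < c ⟨t0, ht0⟩ * ((2 * x.re * x.im) ^ 2 / Complex.normSq ((t0 : ℂ) ^ 2 - x ^ 2)) :=
      mul_pos hcpos (div_pos (by positivity) hq)
    exact this.ne' hz0

end Pool.Agent.H478.WM
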