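import Pool.Agent.H478.WM.Stm

/-!
# WM SUM: the values of a transform at the nodes are square summable (helper721)
-/

open Complex MeasureTheory Filter Topology Set
open scoped ContDiff

namespace Pool.Agent.H478.WM

theorem t_SUM (h1 : S_TCB) : S_SUM := by
  intro S a g ha hg
  obtain ⟨-, -, hb, C, hC0, hC⟩ := h1 a g ha hg
  obtain ⟨K, hK⟩ : ∃ K : ℝ, K = 2 * a * ∫ x : ℝ, ‖g x‖ ^ 2 := ⟨_, rfl⟩
  have hb' : ∀ t : ℝ, ‖Ct g (t : ℂ)‖ ^ 2 ≤ K := by
    intro t
    have h := hb (t : ℂ)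
    rw [Complex.ofReal_im, abs_zero, mul_zero, Real.exp_zero, mul_one] at h
    rw [hK]
    exact h
  have hb2 : ∀ t : ℝ, ‖Ct g (t : ℂ)‖ ≤ max 1 K := by
    intro t
    rcases le_or_gt ‖Ct g (t : ℂ)‖ 1 with h | h
    · exact h.trans (le_max_left _ _)
    · refine le_trans ?_ ((hb' t).trans (le_max_right _ _))
      rw [sq]
      exact le_mul_of_one_le_left (norm_nonneg _) h.le
  refine Summable.of_nonneg_of_le (fun t => ?_) (fun t => ?_)
    (S.summ.mul_left (C * max 1 K))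
  · have h := S.one_le t t.2
    positivity
  · have hm := S.one_le t t.2
    have ht := S.pos t t.2
    have h2 := hC t ht.ne'
    have h3 := hb2 t
    have hK0 : 0 ≤ max 1 K := le_trans zero_le_one (le_max_left _ _)
    calc S.m t * ‖Ct g ((t : ℝ) : ℂ)‖ ^ 2
        = S.m t * (‖Ct g ((t : ℝ) : ℂ)‖ * ‖Ct g ((t : ℝ) : ℂ)‖) := by rw [sq]
      _ ≤ S.m t * (C / (t : ℝ) ^ 2 * max 1 K) := by
          refine mul_le_mul_of_nonneg_left ?_ (by linarith)
          exact mul_le_mul h2 h3 (norm_nonneg _) (by positivity)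
      _ = C * max 1 K * (S.m t / (t : ℝ) ^ 2) := by ring

end Pool.Agent.H478.WM
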