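import Pool.Agent.H478.WM.Stm

/-!
Project WM, task SYS: on the Riemann hypothesis the ordinates form a system and Weil's form is twice
its quadratic form.
-/

open Complex MeasureTheory Filter Topology Set

namespace Pool.Agent.H478.WM

namespace SYSx

theorem Ct_neg (g : ℝ → ℂ) (z : ℂ) : Ct g (-z) = Ct g z := by
  simp only [Ct, neg_mul, Complex.cos_neg]

/-- the cosine transform of a real function at a real point is real -/
theorem Ct_real (g : ℝ → ℝ) (t : ℝ) :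
    Ct (co g) (t : ℂ) = ((∫ x : ℝ, g x * Real.cos (t * x) : ℝ) : ℂ) := by
  rw [← integral_complex_ofReal]
  simp only [Ct, co]
  refine integral_congr_ae (Eventually.of_forall fun x => ?_)
  simp only
  push_cast
  rfl

theorem Ct_sq (g : ℝ → ℝ) (t : ℝ) :
    (Ct (co g) (t : ℂ)) ^ 2 = ((‖Ct (co g) (t : ℂ)‖ ^ 2 : ℝ) : ℂ) := by
  rw [Ct_real, Complex.norm_real, Real.norm_eq_abs, sq_abs]
  push_cast
  rfl

theorem mem_NTZ (t : Ord) : (1 / 2 + (t : ℝ) * I : ℂ) ∈ NTZ := by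
  refine ⟨t.2.2, ?_, ?_⟩
  · simp
  · simp
    norm_num

theorem conj_pt (t : ℝ) : starRingEnd ℂ (1 / 2 + (t : ℝ) * I : ℂ) = 1 / 2 - (t : ℝ) * I := by
  apply Complex.ext <;> simp

theorem norm_pt (t : ℝ) : ‖(1 / 2 + (t : ℝ) * I : ℂ) - 1 / 2‖ ^ 2 = t ^ 2 := by
  have h : (1 / 2 + (t : ℝ) * I : ℂ) - 1 / 2 = (t : ℝ) * I := by ring
  rw [h, norm_mul, Complex.norm_I, mul_one, Complex.norm_real, Real.norm_eq_abs, sq_abs]

/-- the upper zeros -/
noncomputable def up (t : Ord) : NTZ := ⟨1 / 2 + (t : ℝ) * I, mem_NTZ t⟩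

theorem mem_low (h : S_WTS) (t : Ord) : (1 / 2 - (t : ℝ) * I : ℂ) ∈ NTZ := by
  rw [← conj_pt]
  exact (h.2 _ (mem_NTZ t)).2.1

/-- the lower zeros -/
noncomputable def low (h : S_WTS) (t : Ord) : NTZ := ⟨1 / 2 - (t : ℝ) * I, mem_low h t⟩

theorem up_inj : Function.Injective up := by
  intro s t hst
  have h1 : (1 / 2 + ((s : ℝ) : ℂ) * I : ℂ) = 1 / 2 + ((t : ℝ) : ℂ) * I := Subtype.ext_iff.1 hst
  have h2 := congrArg Complex.im h1
  simp at h2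
  exact Subtype.ext h2

theorem low_inj (h : S_WTS) : Function.Injective (low h) := by
  intro s t hst
  have h1 : (1 / 2 - ((s : ℝ) : ℂ) * I : ℂ) = 1 / 2 - ((t : ℝ) : ℂ) * I := Subtype.ext_iff.1 hst
  have h2 := congrArg Complex.im h1
  simp at h2
  exact Subtype.ext h2

theorem up_ne_low (h : S_WTS) (s t : Ord) : up s ≠ low h t := by
  intro hst
  have h1 : (1 / 2 + ((s : ℝ) : ℂ) * I : ℂ) = 1 / 2 - ((t : ℝ) : ℂ) * I := Subtype.ext_iff.1 hst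
  have h2 := congrArg Complex.im h1
  simp at h2
  have h3 := s.2.1
  have h4 := t.2.1
  linarith

theorem re_half (hRH : RiemannHypothesis) (ρ : NTZ) : (ρ : ℂ).re = 1 / 2 := by
  obtain ⟨h1, h2, h3⟩ := ρ.2
  apply hRH _ h1
  · rintro ⟨n, hn⟩
    rw [hn] at h2
    simp at h2
    have : (0 : ℝ) ≤ n := Nat.cast_nonneg n
    linarith
  · intro h4
    rw [h4] at h3
    simp at h3

theorem surj (hRH : RiemannHypothesis) (h : S_WTS) (ρ : NTZ) :
    (∃ t, up t = ρ) ∨ (∃ t, low h t = ρ) := by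
  have hre := re_half hRH ρ
  have him := (h.2 _ ρ.2).2.2.2.2
  rcases lt_or_gt_of_ne him with h1 | h1
  · right
    have hz : riemannZeta (1 / 2 + ((-(ρ : ℂ).im : ℝ) : ℂ) * I) = 0 := by
      have h2 := (h.2 _ ρ.2).2.1.1
      have h3 : starRingEnd ℂ (ρ : ℂ) = 1 / 2 + ((-(ρ : ℂ).im : ℝ) : ℂ) * I := by
        apply Complex.ext
        · simp [hre]
        · simp
      rw [← h3]
      exact h2
    refine ⟨⟨-(ρ : ℂ).im, by linarith, hz⟩, ?_⟩
    apply Subtype.ext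
    show (1 / 2 - ((-(ρ : ℂ).im : ℝ) : ℂ) * I : ℂ) = ρ
    apply Complex.ext
    · simp [hre]
    · simp
  · left
    have h3 : (ρ : ℂ) = 1 / 2 + (((ρ : ℂ).im : ℝ) : ℂ) * I := by
      apply Complex.ext
      · simp [hre]
      · simp
    have hz : riemannZeta (1 / 2 + (((ρ : ℂ).im : ℝ) : ℂ) * I) = 0 := by
      rw [← h3]
      exact ρ.2.1
    refine ⟨⟨(ρ : ℂ).im, h1, hz⟩, ?_⟩
    apply Subtype.ext
    exact h3.symm

end SYSx

open SYSx in
theorem t_SYS (_h1 : S_TCB) (h2 : S_EXF) (h3 : S_WTS) (h4 : S_GAP) : S_SYS := by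
  intro hRH
  have hsumm : Summable (fun t : Ord => ((mz (1 / 2 + (t : ℝ) * I) : ℝ)) / (t : ℝ) ^ 2) := by
    have := h3.1.comp_injective up_inj
    refine this.congr fun t => ?_
    simp only [Function.comp, up, norm_pt]
  let S : Sys :=
    { G := Ord
      m := fun t => (mz (1 / 2 + (t : ℝ) * I) : ℝ)
      pos := fun t ht => ht.1
      one_le := fun t ht => by
        have := (h3.2 _ (mem_NTZ ⟨t, ht⟩)).2.2.2.1
        exact_mod_cast this
      summ := hsumm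
      gaps := fun h hh => by
        obtain ⟨T, hT⟩ := h4 hRH h hh
        exact ⟨T, fun t ht => hT t ht⟩ }
  refine ⟨S, rfl, ?_⟩
  intro a g _ hg
  have hE := h2 a g hg
  set F : NTZ → ℂ := fun ρ => (mz ρ : ℂ) * (Ct (co g) (-I * ((ρ : ℂ) - 1 / 2))) ^ 2 with hF
  let e : Ord ⊕ Ord ≃ NTZ := Equiv.ofBijective (Sum.elim up (low h3)) (by
    constructor
    · exact up_inj.sumElim (low_inj h3) (fun s t => up_ne_low h3 s t)
    · intro ρ
      rcases surj hRH h3 ρ with ⟨t, ht⟩ | ⟨t, ht⟩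
      · exact ⟨Sum.inl t, ht⟩
      · exact ⟨Sum.inr t, ht⟩)
  have hval : ∀ t : Ord, F (up t) =
      ((mz (1 / 2 + (t : ℝ) * I) * ‖Ct (co g) ((t : ℝ) : ℂ)‖ ^ 2 : ℝ) : ℂ) := by
    intro t
    have h5 : -I * (((up t : NTZ) : ℂ) - 1 / 2) = ((t : ℝ) : ℂ) := by
      show -I * ((1 / 2 + ((t : ℝ) : ℂ) * I) - 1 / 2) = ((t : ℝ) : ℂ)
      linear_combination (-((t : ℝ) : ℂ)) * I_mul_I
    simp only [hF]
    rw [h5, Ct_sq]
    push_cast
    rfl
  have hval' : ∀ t : Ord, F (low h3 t) =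
      ((mz (1 / 2 + (t : ℝ) * I) * ‖Ct (co g) ((t : ℝ) : ℂ)‖ ^ 2 : ℝ) : ℂ) := by
    intro t
    have h5 : -I * (((low h3 t : NTZ) : ℂ) - 1 / 2) = -((t : ℝ) : ℂ) := by
      show -I * ((1 / 2 - ((t : ℝ) : ℂ) * I) - 1 / 2) = -((t : ℝ) : ℂ)
      linear_combination (((t : ℝ) : ℂ)) * I_mul_I
    have h6 : mz ((low h3 t : NTZ) : ℂ) = mz (1 / 2 + (t : ℝ) * I) := by
      show mz (1 / 2 - ((t : ℝ) : ℂ) * I) = mz (1 / 2 + (t : ℝ) * I)
      rw [← conj_pt]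
      exact (h3.2 _ (mem_NTZ t)).2.2.1
    simp only [hF]
    rw [h5, h6, Ct_neg, Ct_sq]
    push_cast
    rfl
  have hs : Summable (fun t : Ord =>
      ((mz (1 / 2 + (t : ℝ) * I) * ‖Ct (co g) ((t : ℝ) : ℂ)‖ ^ 2 : ℝ) : ℂ)) := by
    have := hE.summable.comp_injective up_inj
    exact this.congr fun t => hval t
  have hs' : Summable (fun t : Ord =>
      (mz (1 / 2 + (t : ℝ) * I) : ℝ) * ‖Ct (co g) ((t : ℝ) : ℂ)‖ ^ 2) :=
    Complex.summable_ofReal.1 hs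
  have hQ : HasSum (fun t : Ord =>
      ((mz (1 / 2 + (t : ℝ) * I) * ‖Ct (co g) ((t : ℝ) : ℂ)‖ ^ 2 : ℝ) : ℂ))
      ((Q S (Ct (co g)) : ℝ) : ℂ) := by
    have : HasSum (fun t : Ord =>
      (mz (1 / 2 + (t : ℝ) * I) : ℝ) * ‖Ct (co g) ((t : ℝ) : ℂ)‖ ^ 2) (Q S (Ct (co g))) :=
      hs'.hasSum
    exact Complex.hasSum_ofReal.2 this
  have hA : HasSum ((F ∘ e) ∘ Sum.inl) ((Q S (Ct (co g)) : ℝ) : ℂ) := by
    have : (F ∘ e) ∘ Sum.inl = fun t : Ord =>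
      ((mz (1 / 2 + (t : ℝ) * I) * ‖Ct (co g) ((t : ℝ) : ℂ)‖ ^ 2 : ℝ) : ℂ) := by
      funext t
      exact hval t
    rw [this]
    exact hQ
  have hB : HasSum ((F ∘ e) ∘ Sum.inr) ((Q S (Ct (co g)) : ℝ) : ℂ) := by
    have : (F ∘ e) ∘ Sum.inr = fun t : Ord =>
      ((mz (1 / 2 + (t : ℝ) * I) * ‖Ct (co g) ((t : ℝ) : ℂ)‖ ^ 2 : ℝ) : ℂ) := by
      funext t
      exact hval' t
    rw [this]
    exact hQ
  have hAB := HasSum.sum hA hB
  have hE' : HasSum (F ∘ e) (W g : ℂ) := (Equiv.hasSum_iff e).2 hE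
  have := hE'.unique hAB
  rw [two_mul]
  exact_mod_cast this

end Pool.Agent.H478.WM
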