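import Pool.Agent.H478.WM.Stm

/-!
# Project WM: basic facts about the transform of a test function
-/

open Complex MeasureTheory Filter Topology Set
open scoped ContDiff

namespace Pool.Agent.H478.WM

noncomputable section

namespace TCB

lemma norm_exp_I_le (w : ℂ) : ‖Complex.exp (w * I)‖ ≤ Real.exp |w.im| := by
  rw [Complex.norm_exp]
  refine Real.exp_le_exp.2 ?_
  have h : (w * I).re = -w.im := by simp
  rw [h]
  exact neg_le_abs _

lemma norm_exp_neg_I_le (w : ℂ) : ‖Complex.exp (-w * I)‖ ≤ Real.exp |w.im| := by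
  have h := norm_exp_I_le (-w)
  rw [Complex.neg_im, abs_neg] at h
  exact h

lemma norm_cos_le (w : ℂ) : ‖Complex.cos w‖ ≤ Real.exp |w.im| := by
  rw [Complex.cos, norm_div]
  have h1 := norm_exp_I_le w
  have h2 := norm_exp_neg_I_le w
  have h3 := norm_add_le (Complex.exp (w * I)) (Complex.exp (-w * I))
  have h4 : ‖(2 : ℂ)‖ = 2 := by simp
  rw [h4]
  linarith

lemma norm_sin_le (w : ℂ) : ‖Complex.sin w‖ ≤ Real.exp |w.im| := by
  rw [Complex.sin, norm_div, norm_mul, Complex.norm_I, mul_one]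
  have h1 := norm_exp_I_le w
  have h2 := norm_exp_neg_I_le w
  have h3 := norm_sub_le (Complex.exp (-w * I)) (Complex.exp (w * I))
  have h4 : ‖(2 : ℂ)‖ = 2 := by simp
  rw [h4]
  linarith

lemma im_mul_real (z : ℂ) (x : ℝ) : |(z * (x : ℂ)).im| = |z.im| * |x| := by
  rw [Complex.im_mul_ofReal, abs_mul]

variable {a : ℝ} {g : ℝ → ℂ}

lemma compact (hg : TC a g) : HasCompactSupport g := by
  refine HasCompactSupport.of_support_subset_isCompact (isCompact_Icc (a := -a) (b := a)) ?_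
  intro x hx
  rw [Function.mem_support] at hx
  have h1 : |x| ≤ a := by
    by_contra h
    exact hx (hg.supp x (not_le.1 h))
  exact abs_le.1 h1

lemma cont (hg : TC a g) : Continuous g := hg.smooth.continuous

lemma diff (hg : TC a g) : Differentiable ℂ (Ct g) := by
  intro z₀
  have hF : ∀ z : ℂ, Continuous fun x : ℝ => g x * Complex.cos (z * x) := fun z =>
    (cont hg).mul (by fun_prop)
  have hF' : ∀ z : ℂ, Continuous fun x : ℝ => g x * (-Complex.sin (z * x) * x) := fun z =>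
    (cont hg).mul (by fun_prop)
  have hb : Continuous fun x : ℝ => ‖g x‖ * (Real.exp ((‖z₀‖ + 1) * |x|) * |x|) :=
    (cont hg).norm.mul (by fun_prop)
  have key := hasDerivAt_integral_of_dominated_loc_of_deriv_le (μ := volume) (𝕜 := ℂ)
    (F := fun (z : ℂ) (x : ℝ) => g x * Complex.cos (z * x))
    (F' := fun (z : ℂ) (x : ℝ) => g x * (-Complex.sin (z * x) * x)) (x₀ := z₀)
    (bound := fun x : ℝ => ‖g x‖ * (Real.exp ((‖z₀‖ + 1) * |x|) * |x|))
    (s := Metric.ball z₀ 1) (Metric.ball_mem_nhds z₀ one_pos)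
    (Eventually.of_forall fun z => (hF z).aestronglyMeasurable)
    ((hF z₀).integrable_of_hasCompactSupport ((compact hg).mul_right))
    ((hF' z₀).aestronglyMeasurable)
    (Eventually.of_forall fun x z hz => ?_)
    (hb.integrable_of_hasCompactSupport ((compact hg).norm.mul_right))
    (Eventually.of_forall fun x z hz => ?_)
  · exact key.2.differentiableAt
  · rw [norm_mul, norm_mul, norm_neg, Complex.norm_real, Real.norm_eq_abs]
    refine mul_le_mul_of_nonneg_left (mul_le_mul_of_nonneg_right ?_ (abs_nonneg x))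
      (norm_nonneg _)
    refine (norm_sin_le _).trans (Real.exp_le_exp.2 ?_)
    rw [im_mul_real]
    refine mul_le_mul_of_nonneg_right ?_ (abs_nonneg x)
    have h1 := Complex.abs_im_le_norm z
    have h2 : ‖z - z₀‖ < 1 := by
      rw [← dist_eq_norm]
      exact hz
    have h3 : ‖z‖ ≤ ‖z - z₀‖ + ‖z₀‖ := by
      have := norm_add_le (z - z₀) z₀
      rw [sub_add_cancel] at this
      exact this
    linarith
  · have h1 : HasDerivAt (fun z : ℂ => z * (x : ℂ)) (x : ℂ) z := by
      simpa using (hasDerivAt_id z).mul_const (x : ℂ)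
    exact h1.ccos.const_mul (g x)

lemma even (z : ℂ) : Ct g (-z) = Ct g z := by
  unfold Ct
  refine integral_congr_ae (Eventually.of_forall fun x => ?_)
  change g x * Complex.cos (-z * x) = g x * Complex.cos (z * x)
  rw [neg_mul, Complex.cos_neg]

lemma sq_int (ha : 0 < a) (hg : TC a g) :
    (∫ x : ℝ, ‖g x‖) ^ 2 ≤ 2 * a * ∫ x : ℝ, ‖g x‖ ^ 2 := by
  have hz : ∀ x, x ∉ Icc (-a) a → g x = 0 := by
    intro x hx
    refine hg.supp x ?_
    by_contra h
    exact hx (abs_le.1 (not_lt.1 h))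
  obtain ⟨m, hm⟩ : ∃ m : ℝ, m = ∫ x in Icc (-a) a, ‖g x‖ := ⟨_, rfl⟩
  obtain ⟨q, hq⟩ : ∃ q : ℝ, q = ∫ x in Icc (-a) a, ‖g x‖ ^ 2 := ⟨_, rfl⟩
  have e1 : ∫ x : ℝ, ‖g x‖ = m := by
    rw [hm]
    refine (setIntegral_eq_integral_of_forall_compl_eq_zero fun x hx => ?_).symm
    rw [hz x hx, norm_zero]
  have e2 : ∫ x : ℝ, ‖g x‖ ^ 2 = q := by
    rw [hq]
    refine (setIntegral_eq_integral_of_forall_compl_eq_zero fun x hx => ?_).symm
    rw [hz x hx, norm_zero, zero_pow two_ne_zero]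
  rw [e1, e2]
  have i1 : IntegrableOn (fun x => ‖g x‖) (Icc (-a) a) :=
    ((cont hg).norm.continuousOn).integrableOn_compact isCompact_Icc
  have i2 : IntegrableOn (fun x => ‖g x‖ ^ 2) (Icc (-a) a) :=
    (((cont hg).norm.pow 2).continuousOn).integrableOn_compact isCompact_Icc
  obtain ⟨c, hc⟩ : ∃ c : ℝ, c = m / (2 * a) := ⟨_, rfl⟩
  have i3 : IntegrableOn (fun _ : ℝ => c ^ 2) (Icc (-a) a) :=
    (continuous_const.continuousOn).integrableOn_compact isCompact_Icc
  have h0 : 0 ≤ ∫ x in Icc (-a) a, (‖g x‖ ^ 2 - 2 * c * ‖g x‖ + c ^ 2) := by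
    refine setIntegral_nonneg measurableSet_Icc fun x _ => ?_
    nlinarith [sq_nonneg (‖g x‖ - c)]
  have h1 : ∫ x in Icc (-a) a, (‖g x‖ ^ 2 - 2 * c * ‖g x‖ + c ^ 2) =
      q - 2 * c * m + 2 * a * c ^ 2 := by
    have i4 : IntegrableOn (fun x => ‖g x‖ ^ 2 - 2 * c * ‖g x‖) (Icc (-a) a) :=
      i2.sub (i1.const_mul (2 * c))
    rw [integral_add i4 i3, integral_sub i2 (i1.const_mul (2 * c)), integral_const_mul, ← hm,
      ← hq, setIntegral_const, Real.volume_real_Icc_of_le (by linarith)]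
    simp only [smul_eq_mul]
    ring
  rw [h1, hc] at h0
  have h2 : q - 2 * (m / (2 * a)) * m + 2 * a * (m / (2 * a)) ^ 2 = q - m ^ 2 / (2 * a) := by
    field_simp
    ring
  rw [h2] at h0
  have h3 : m ^ 2 / (2 * a) ≤ q := by linarith
  rw [div_le_iff₀ (by positivity)] at h3
  linarith

lemma bound (ha : 0 < a) (hg : TC a g) (z : ℂ) :
    ‖Ct g z‖ ^ 2 ≤ 2 * a * Real.exp (2 * a * |z.im|) * ∫ x : ℝ, ‖g x‖ ^ 2 := by
  have h1 : ‖Ct g z‖ ≤ Real.exp (a * |z.im|) * ∫ x : ℝ, ‖g x‖ := by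
    rw [← integral_const_mul]
    refine norm_integral_le_of_norm_le ?_ (Eventually.of_forall fun x => ?_)
    · exact ((cont hg).norm.integrable_of_hasCompactSupport (compact hg).norm).const_mul _
    · rw [norm_mul, mul_comm]
      by_cases hx : a < |x|
      · rw [hg.supp x hx, norm_zero, mul_zero, mul_zero]
      · refine mul_le_mul_of_nonneg_right ?_ (norm_nonneg _)
        refine (norm_cos_le _).trans (Real.exp_le_exp.2 ?_)
        rw [im_mul_real, mul_comm]
        exact mul_le_mul_of_nonneg_right (not_lt.1 hx) (abs_nonneg _)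
  have h2 := sq_int ha hg
  calc ‖Ct g z‖ ^ 2 ≤ (Real.exp (a * |z.im|) * ∫ x : ℝ, ‖g x‖) ^ 2 :=
        pow_le_pow_left₀ (norm_nonneg _) h1 2
    _ = Real.exp (2 * a * |z.im|) * (∫ x : ℝ, ‖g x‖) ^ 2 := by
        rw [mul_pow, ← Real.exp_nat_mul]
        congr 2
        push_cast
        ring
    _ ≤ Real.exp (2 * a * |z.im|) * (2 * a * ∫ x : ℝ, ‖g x‖ ^ 2) :=
        mul_le_mul_of_nonneg_left h2 (Real.exp_pos _).le
    _ = _ := by ring

lemma decay (hg : TC a g) :
    ∃ C : ℝ, 0 ≤ C ∧ ∀ t : ℝ, t ≠ 0 → ‖Ct g (t : ℂ)‖ ≤ C / t ^ 2 := by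
  have hs : ContDiff ℝ ∞ g := hg.smooth
  have hs1 : ContDiff ℝ ∞ (deriv g) := by
    have h := (contDiff_infty_iff_deriv.1 hs).2
    exact h
  have hs2 : ContDiff ℝ ∞ (deriv (deriv g)) := (contDiff_infty_iff_deriv.1 hs1).2
  have hd0 : ∀ x, HasDerivAt g (deriv g x) x := fun x =>
    ((contDiff_infty_iff_deriv.1 hs).1 x).hasDerivAt
  have hd1 : ∀ x, HasDerivAt (deriv g) (deriv (deriv g) x) x := fun x =>
    ((contDiff_infty_iff_deriv.1 hs1).1 x).hasDerivAt
  have hc0 : HasCompactSupport g := compact hg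
  have hc1 : HasCompactSupport (deriv g) := hc0.deriv
  have hc2 : HasCompactSupport (deriv (deriv g)) := hc1.deriv
  have int0 : ∀ v : ℝ → ℂ, Continuous v → Integrable (g * v) := fun v hv =>
    ((cont hg).mul hv).integrable_of_hasCompactSupport hc0.mul_right
  have int1 : ∀ v : ℝ → ℂ, Continuous v → Integrable (deriv g * v) := fun v hv =>
    (hs1.continuous.mul hv).integrable_of_hasCompactSupport hc1.mul_right
  have int2 : ∀ v : ℝ → ℂ, Continuous v → Integrable (deriv (deriv g) * v) := fun v hv =>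
    (hs2.continuous.mul hv).integrable_of_hasCompactSupport hc2.mul_right
  refine ⟨∫ x : ℝ, ‖deriv (deriv g) x‖, integral_nonneg fun x => norm_nonneg _, ?_⟩
  intro t ht
  have ht' : (t : ℂ) ≠ 0 := by exact_mod_cast ht
  have hlin : ∀ x : ℝ, HasDerivAt (fun x : ℝ => (t : ℂ) * (x : ℂ)) (t : ℂ) x := by
    intro x
    simpa using (Complex.ofRealCLM.hasDerivAt (x := x)).const_mul (t : ℂ)
  have hsin : ∀ x : ℝ, HasDerivAt (fun x : ℝ => Complex.sin ((t : ℂ) * x) / t)
      (Complex.cos ((t : ℂ) * x)) x := by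
    intro x
    have h := ((Complex.hasDerivAt_sin ((t : ℂ) * x)).comp x (hlin x)).div_const (t : ℂ)
    rw [mul_div_cancel_right₀ _ ht'] at h
    exact h
  have hcos : ∀ x : ℝ, HasDerivAt (fun x : ℝ => -(Complex.cos ((t : ℂ) * x) / t))
      (Complex.sin ((t : ℂ) * x)) x := by
    intro x
    have h := (((Complex.hasDerivAt_cos ((t : ℂ) * x)).comp x (hlin x)).div_const (t : ℂ)).neg
    rw [mul_div_cancel_right₀ _ ht', neg_neg] at h
    exact h
  have cs : Continuous fun x : ℝ => Complex.sin ((t : ℂ) * x) := by fun_prop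
  have cc : Continuous fun x : ℝ => Complex.cos ((t : ℂ) * x) := by fun_prop
  have cs' : Continuous fun x : ℝ => Complex.sin ((t : ℂ) * x) / t := by fun_prop
  have cc' : Continuous fun x : ℝ => -(Complex.cos ((t : ℂ) * x) / t) := by fun_prop
  have A1 := integral_mul_deriv_eq_deriv_mul_of_integrable (u := g)
    (v := fun x : ℝ => Complex.sin ((t : ℂ) * x) / t) (u' := deriv g)
    (v' := fun x : ℝ => Complex.cos ((t : ℂ) * x)) (fun x _ => hd0 x) (fun x _ => hsin x)
    (int0 _ cc) (int1 _ cs') (int0 _ cs')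
  have A2 := integral_mul_deriv_eq_deriv_mul_of_integrable (u := deriv g)
    (v := fun x : ℝ => -(Complex.cos ((t : ℂ) * x) / t)) (u' := deriv (deriv g))
    (v' := fun x : ℝ => Complex.sin ((t : ℂ) * x)) (fun x _ => hd1 x) (fun x _ => hcos x)
    (int1 _ cs) (int2 _ cc') (int1 _ cc')
  have A3 : Ct g (t : ℂ) = -((1 / (t : ℂ) ^ 2) *
      ∫ x : ℝ, deriv (deriv g) x * Complex.cos ((t : ℂ) * x)) := by
    have B1 : ∫ x : ℝ, deriv g x * (Complex.sin ((t : ℂ) * x) / t) =
        (1 / (t : ℂ)) * ∫ x : ℝ, deriv g x * Complex.sin ((t : ℂ) * x) := by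
      rw [← integral_const_mul]
      refine integral_congr_ae (Eventually.of_forall fun x => ?_)
      change deriv g x * (Complex.sin ((t : ℂ) * x) / t) =
        (1 / (t : ℂ)) * (deriv g x * Complex.sin ((t : ℂ) * x))
      ring
    have B2 : ∫ x : ℝ, deriv (deriv g) x * -(Complex.cos ((t : ℂ) * x) / t) =
        -((1 / (t : ℂ)) * ∫ x : ℝ, deriv (deriv g) x * Complex.cos ((t : ℂ) * x)) := by
      rw [← integral_const_mul, ← integral_neg]
      refine integral_congr_ae (Eventually.of_forall fun x => ?_)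
      change deriv (deriv g) x * -(Complex.cos ((t : ℂ) * x) / t) =
        -((1 / (t : ℂ)) * (deriv (deriv g) x * Complex.cos ((t : ℂ) * x)))
      ring
    unfold Ct
    rw [A1, B1, A2, B2]
    field_simp
  rw [A3, norm_neg, norm_mul, norm_div, norm_one, norm_pow, Complex.norm_real, Real.norm_eq_abs,
    sq_abs, one_div, mul_comm, ← div_eq_mul_inv]
  refine div_le_div_of_nonneg_right ?_ (sq_nonneg t)
  refine norm_integral_le_of_norm_le ?_ (Eventually.of_forall fun x => ?_)
  · exact hs2.continuous.norm.integrable_of_hasCompactSupport hc2.norm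
  · rw [norm_mul]
    have h1 := norm_cos_le ((t : ℂ) * x)
    have h2 : ((t : ℂ) * (x : ℂ)).im = 0 := by
      rw [← Complex.ofReal_mul]
      exact Complex.ofReal_im _
    rw [h2, abs_zero, Real.exp_zero] at h1
    have h3 := norm_nonneg (deriv (deriv g) x)
    nlinarith

end TCB

theorem t_TCB : S_TCB := fun _ _ ha hg =>
  ⟨TCB.diff hg, TCB.even, TCB.bound ha hg, TCB.decay hg⟩

end

end Pool.Agent.H478.WM
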