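import Pool.Agent.H478.WM.Stm

open Complex MeasureTheory Filter Topology Set
open scoped ContDiff

namespace Pool.Agent.H478.WM

/-- the cut-off function: `0` for `s ≤ -δ`, `1` for `0 ≤ s` -/
noncomputable def triw (δ s : ℝ) : ℝ := Real.smoothTransition (1 + s / δ)

theorem triw_contDiff (δ : ℝ) : ContDiff ℝ ∞ (triw δ) := by
  unfold triw
  exact Real.smoothTransition.contDiff.comp (contDiff_const.add (contDiff_id.div_const δ))

theorem triw_zero {δ s : ℝ} (hδ : 0 < δ) (hs : s ≤ -δ) : triw δ s = 0 := by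
  apply Real.smoothTransition.zero_of_nonpos
  have : s / δ ≤ -1 := by rw [div_le_iff₀ hδ]; linarith
  linarith

theorem triw_one {δ s : ℝ} (hδ : 0 < δ) (hs : 0 ≤ s) : triw δ s = 1 := by
  apply Real.smoothTransition.one_of_one_le
  have : 0 ≤ s / δ := div_nonneg hs hδ.le
  linarith

theorem triw_bound {δ : ℝ} (hδ : 0 < δ) : ∃ K : ℝ, 0 < K ∧ ∀ s, |triw δ s| ≤ K ∧
    |deriv (triw δ) s| ≤ K ∧ |deriv (deriv (triw δ)) s| ≤ K := by
  have hc : ContDiff ℝ ∞ (triw δ) := triw_contDiff δ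
  have hc1 : ContDiff ℝ ∞ (deriv (triw δ)) := (contDiff_infty_iff_deriv.1 hc).2
  have hc2 : ContDiff ℝ ∞ (deriv (deriv (triw δ))) := (contDiff_infty_iff_deriv.1 hc1).2
  have hs : HasCompactSupport (deriv (triw δ)) := by
    refine HasCompactSupport.intro (K := Icc (-δ) 0) isCompact_Icc ?_
    intro x hx
    rw [mem_Icc, not_and_or, not_le, not_le] at hx
    rcases hx with hx | hx
    · have : triw δ =ᶠ[𝓝 x] fun _ => (0 : ℝ) :=
        (eventually_lt_nhds hx).mono fun y hy => triw_zero hδ hy.le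
      rw [this.deriv_eq, deriv_const]
    · have : triw δ =ᶠ[𝓝 x] fun _ => (1 : ℝ) :=
        (eventually_gt_nhds hx).mono fun y hy => triw_one hδ (le_of_lt hy)
      rw [this.deriv_eq, deriv_const]
  obtain ⟨K1, hK1⟩ := hs.exists_bound_of_continuous hc1.continuous
  obtain ⟨K2, hK2⟩ := hs.deriv.exists_bound_of_continuous hc2.continuous
  refine ⟨max 1 (max K1 K2), lt_max_of_lt_left one_pos, fun s => ⟨?_, ?_, ?_⟩⟩
  · refine le_trans ?_ (le_max_left _ _)
    unfold triw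
    rw [abs_of_nonneg (Real.smoothTransition.nonneg _)]
    exact Real.smoothTransition.le_one _
  · exact (hK1 s).trans ((le_max_left _ _).trans (le_max_right _ _))
  · exact (hK2 s).trans ((le_max_right _ _).trans (le_max_right _ _))

theorem tri_norm_exp (z : ℂ) (x : ℝ) (hz : |z.im| ≤ 1 / 2) : ‖Complex.exp (z * x * I)‖ ≤ Real.exp (|x| / 2) ∧
    ‖Complex.exp (-(z * x) * I)‖ ≤ Real.exp (|x| / 2) := by
  have h : |z.im * x| ≤ |x| / 2 := by
    rw [abs_mul]
    have := mul_le_mul_of_nonneg_right hz (abs_nonneg x)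
    linarith
  obtain ⟨h1, h2⟩ := abs_le.1 h
  constructor
  · rw [Complex.norm_exp]
    apply Real.exp_le_exp.2
    simp
    linarith
  · rw [Complex.norm_exp]
    apply Real.exp_le_exp.2
    simp
    linarith

theorem tri_norm_cos (z : ℂ) (x : ℝ) (hz : |z.im| ≤ 1 / 2) :
    ‖Complex.cos (z * x)‖ ≤ Real.exp (|x| / 2) := by
  obtain ⟨h1, h2⟩ := tri_norm_exp z x hz
  rw [Complex.cos, norm_div]
  have : ‖(2 : ℂ)‖ = 2 := by simp
  rw [this, div_le_iff₀ two_pos]
  have := norm_add_le (Complex.exp (z * x * I)) (Complex.exp (-(z * x) * I))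
  linarith

theorem tri_norm_sin (z : ℂ) (x : ℝ) (hz : |z.im| ≤ 1 / 2) :
    ‖Complex.sin (z * x)‖ ≤ Real.exp (|x| / 2) := by
  obtain ⟨h1, h2⟩ := tri_norm_exp z x hz
  rw [Complex.sin, norm_div, norm_mul, Complex.norm_I, mul_one]
  have : ‖(2 : ℂ)‖ = 2 := by simp
  rw [this, div_le_iff₀ two_pos]
  have := norm_sub_le (Complex.exp (-(z * x) * I)) (Complex.exp (z * x * I))
  linarith

/-- two integrations by parts -/
theorem tri_ibp {p p1 p2 B : ℝ → ℝ} {z : ℂ} (hz : |z.im| ≤ 1 / 2)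
    (h1 : ∀ x, HasDerivAt p (p1 x) x) (h2 : ∀ x, HasDerivAt p1 (p2 x) x) (h3 : Continuous p2)
    (hB : Integrable B) (b0 : ∀ x, |p x| * Real.exp (|x| / 2) ≤ B x)
    (b1 : ∀ x, |p1 x| * Real.exp (|x| / 2) ≤ B x) (b2 : ∀ x, |p2 x| * Real.exp (|x| / 2) ≤ B x) :
    Integrable (fun x : ℝ => (p x : ℂ) * Complex.cos (z * x)) ∧
    ∫ x : ℝ, (p2 x : ℂ) * Complex.cos (z * x) = - z ^ 2 * ∫ x : ℝ, (p x : ℂ) * Complex.cos (z * x) := by
  have c0 : Continuous p := continuous_iff_continuousAt.2 fun x => (h1 x).continuousAt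
  have c1 : Continuous p1 := continuous_iff_continuousAt.2 fun x => (h2 x).continuousAt
  have ccos : Continuous (fun x : ℝ => Complex.cos (z * x)) := by fun_prop
  have csin : Continuous (fun x : ℝ => Complex.sin (z * x)) := by fun_prop
  have icos : ∀ q : ℝ → ℝ, Continuous q → (∀ x, |q x| * Real.exp (|x| / 2) ≤ B x) →
      Integrable (fun x : ℝ => (q x : ℂ) * Complex.cos (z * x)) := by
    intro q hq hb
    refine hB.mono' ((continuous_ofReal.comp hq).mul ccos).aestronglyMeasurable (ae_of_all _ ?_)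
    intro x
    rw [norm_mul, Complex.norm_real, Real.norm_eq_abs]
    exact (mul_le_mul_of_nonneg_left (tri_norm_cos z x hz) (abs_nonneg _)).trans (hb x)
  have isin : ∀ q : ℝ → ℝ, Continuous q → (∀ x, |q x| * Real.exp (|x| / 2) ≤ B x) →
      Integrable (fun x : ℝ => (q x : ℂ) * Complex.sin (z * x)) := by
    intro q hq hb
    refine hB.mono' ((continuous_ofReal.comp hq).mul csin).aestronglyMeasurable (ae_of_all _ ?_)
    intro x
    rw [norm_mul, Complex.norm_real, Real.norm_eq_abs]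
    exact (mul_le_mul_of_nonneg_left (tri_norm_sin z x hz) (abs_nonneg _)).trans (hb x)
  have dcos : ∀ x : ℝ, HasDerivAt (fun x : ℝ => Complex.cos (z * x)) (-Complex.sin (z * x) * z) x := by
    intro x
    have e : HasDerivAt (fun x : ℝ => z * (x : ℂ)) z x := by
      simpa using (Complex.ofRealCLM.hasDerivAt (x := x)).const_mul z
    exact (Complex.hasDerivAt_cos (z * x)).comp x e
  have dsin : ∀ x : ℝ, HasDerivAt (fun x : ℝ => Complex.sin (z * x)) (Complex.cos (z * x) * z) x := by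
    intro x
    have e : HasDerivAt (fun x : ℝ => z * (x : ℂ)) z x := by
      simpa using (Complex.ofRealCLM.hasDerivAt (x := x)).const_mul z
    exact (Complex.hasDerivAt_sin (z * x)).comp x e
  have dp : ∀ x : ℝ, HasDerivAt (fun x : ℝ => (p x : ℂ)) ((p1 x : ℝ) : ℂ) x := fun x => (h1 x).ofReal_comp
  have dp1 : ∀ x : ℝ, HasDerivAt (fun x : ℝ => (p1 x : ℂ)) ((p2 x : ℝ) : ℂ) x := fun x => (h2 x).ofReal_comp
  -- first: ∫ cos * p2 = - ∫ (-sin z) * p1
  have e1 : ∫ x : ℝ, Complex.cos (z * x) * (p2 x : ℂ) =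
      - ∫ x : ℝ, (-Complex.sin (z * x) * z) * (p1 x : ℂ) := by
    refine integral_mul_deriv_eq_deriv_mul_of_integrable (fun x _ => dcos x) (fun x _ => dp1 x) ?_ ?_ ?_
    · refine (icos p2 h3 b2).congr (ae_of_all _ fun x => ?_)
      simp only [Pi.mul_apply]
      ring
    · refine ((isin p1 c1 b1).const_mul (-z)).congr (ae_of_all _ fun x => ?_)
      simp only [Pi.mul_apply]
      ring
    · refine (icos p1 c1 b1).congr (ae_of_all _ fun x => ?_)
      simp only [Pi.mul_apply]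
      ring
  have e2 : ∫ x : ℝ, Complex.sin (z * x) * (p1 x : ℂ) =
      - ∫ x : ℝ, (Complex.cos (z * x) * z) * (p x : ℂ) := by
    refine integral_mul_deriv_eq_deriv_mul_of_integrable (fun x _ => dsin x) (fun x _ => dp x) ?_ ?_ ?_
    · refine (isin p1 c1 b1).congr (ae_of_all _ fun x => ?_)
      simp only [Pi.mul_apply]
      ring
    · refine ((icos p c0 b0).const_mul z).congr (ae_of_all _ fun x => ?_)
      simp only [Pi.mul_apply]
      ring
    · refine (isin p c0 b0).congr (ae_of_all _ fun x => ?_)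
      simp only [Pi.mul_apply]
      ring
  refine ⟨icos p c0 b0, ?_⟩
  have f1 : ∫ x : ℝ, (p2 x : ℂ) * Complex.cos (z * x) = ∫ x : ℝ, Complex.cos (z * x) * (p2 x : ℂ) :=
    integral_congr_ae (ae_of_all _ fun x => by ring)
  have f2 : ∫ x : ℝ, (-Complex.sin (z * x) * z) * (p1 x : ℂ) =
      -z * ∫ x : ℝ, Complex.sin (z * x) * (p1 x : ℂ) := by
    rw [← integral_const_mul]
    exact integral_congr_ae (ae_of_all _ fun x => by ring)
  have f3 : ∫ x : ℝ, (Complex.cos (z * x) * z) * (p x : ℂ) =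
      z * ∫ x : ℝ, (p x : ℂ) * Complex.cos (z * x) := by
    rw [← integral_const_mul]
    exact integral_congr_ae (ae_of_all _ fun x => by ring)
  rw [f1, e1, f2, e2, f3]
  ring

/-- the dominating function -/
theorem tri_dom {ε₁ : ℝ} (h : 0 < ε₁) :
    Integrable (fun x : ℝ => Real.exp (-ε₁ * Real.exp (2 * |x|)) * Real.exp (|x| / 2)) := by
  have hg : Integrable (fun x : ℝ => Real.exp (1 / (16 * ε₁)) * Real.exp (-ε₁ * x ^ 2)) :=
    (integrable_exp_neg_mul_sq h).const_mul _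
  refine hg.mono' (by fun_prop) (ae_of_all _ ?_)
  intro x
  rw [Real.norm_eq_abs, abs_of_pos (by positivity), ← Real.exp_add, ← Real.exp_add]
  apply Real.exp_le_exp.2
  have h1 : 2 * x ^ 2 ≤ Real.exp (2 * |x|) := by
    have := Real.quadratic_le_exp_of_nonneg (x := 2 * |x|) (by positivity)
    have h2 : |x| ^ 2 = x ^ 2 := sq_abs x
    have h3 := abs_nonneg x
    nlinarith
  have h2 : |x| / 2 ≤ ε₁ * x ^ 2 + 1 / (16 * ε₁) := by
    have h3 : |x| ^ 2 = x ^ 2 := sq_abs x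
    rw [← h3]
    have h4 : ε₁ * |x| ^ 2 + 1 / (16 * ε₁) - |x| / 2 = (4 * ε₁ * |x| - 1) ^ 2 / (16 * ε₁) := by
      field_simp
      ring
    have h5 : 0 ≤ (4 * ε₁ * |x| - 1) ^ 2 / (16 * ε₁) := by positivity
    linarith
  have h3 : ε₁ * (2 * x ^ 2) ≤ ε₁ * Real.exp (2 * |x|) := mul_le_mul_of_nonneg_left h1 h.le
  linarith

theorem triw_deriv_zero {δ s : ℝ} (hδ : 0 < δ) (hs : s < -δ) :
    deriv (triw δ) s = 0 ∧ deriv (deriv (triw δ)) s = 0 := by
  have h : triw δ =ᶠ[𝓝 s] fun _ => (0 : ℝ) :=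
    (eventually_lt_nhds hs).mono fun y hy => triw_zero hδ hy.le
  have h' : deriv (triw δ) =ᶠ[𝓝 s] deriv (fun _ => (0 : ℝ)) := h.deriv
  constructor
  · rw [h.deriv_eq, deriv_const]
  · rw [h'.deriv_eq]
    simp

/-- the main estimate -/
theorem tri_main {Φ : ℝ → ℝ} (hΦ : ContDiff ℝ ∞ Φ) {ε₁ δ C K a : ℝ} (hε : 0 < ε₁)
    (hε2 : 2 * ε₁ ≤ Real.pi) (hδ : 0 < δ)
    (hC : ∀ x : ℝ, |Φ x| + |deriv Φ x| + |deriv (deriv Φ) x| ≤
      C * Real.exp (-(Real.pi - ε₁) * Real.exp (2 * |x|)))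
    (hK0 : 0 < K)
    (hK : ∀ s, |triw δ s| ≤ K ∧ |deriv (triw δ) s| ≤ K ∧ |deriv (deriv (triw δ)) s| ≤ K)
    (ha : δ ≤ a) {z : ℂ} (hz : |z.im| ≤ 1 / 2) :
    Integrable (fun x : ℝ => ((Φ x * triw δ (x - a) : ℝ) : ℂ) * Complex.cos (z * x)) ∧
    ‖∫ x : ℝ, ((Φ x * triw δ (x - a) : ℝ) : ℂ) * Complex.cos (z * x)‖ ≤
      Real.exp (-(Real.pi - 2 * ε₁) * Real.exp (2 * (a - δ))) *
        ∫ x : ℝ, 4 * K * C * (Real.exp (-ε₁ * Real.exp (2 * |x|)) * Real.exp (|x| / 2)) ∧
    ‖z‖ ^ 2 * ‖∫ x : ℝ, ((Φ x * triw δ (x - a) : ℝ) : ℂ) * Complex.cos (z * x)‖ ≤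
      Real.exp (-(Real.pi - 2 * ε₁) * Real.exp (2 * (a - δ))) *
        ∫ x : ℝ, 4 * K * C * (Real.exp (-ε₁ * Real.exp (2 * |x|)) * Real.exp (|x| / 2)) := by
  have hC0 : 0 ≤ C := by
    have h := hC 0
    have h2 : 0 ≤ |Φ 0| + |deriv Φ 0| + |deriv (deriv Φ) 0| := by positivity
    exact nonneg_of_mul_nonneg_left (h2.trans h) (Real.exp_pos _)
  have hΦ1 : ContDiff ℝ ∞ (deriv Φ) := (contDiff_infty_iff_deriv.1 hΦ).2
  have hΦ2 : ContDiff ℝ ∞ (deriv (deriv Φ)) := (contDiff_infty_iff_deriv.1 hΦ1).2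
  have hw : ContDiff ℝ ∞ (triw δ) := triw_contDiff δ
  have hw1 : ContDiff ℝ ∞ (deriv (triw δ)) := (contDiff_infty_iff_deriv.1 hw).2
  have hw2 : ContDiff ℝ ∞ (deriv (deriv (triw δ))) := (contDiff_infty_iff_deriv.1 hw1).2
  have dΦ : ∀ x, HasDerivAt Φ (deriv Φ x) x := fun x => ((contDiff_infty_iff_deriv.1 hΦ).1 x).hasDerivAt
  have dΦ1 : ∀ x, HasDerivAt (deriv Φ) (deriv (deriv Φ) x) x :=
    fun x => ((contDiff_infty_iff_deriv.1 hΦ1).1 x).hasDerivAt
  have dw : ∀ x, HasDerivAt (fun x => triw δ (x - a)) (deriv (triw δ) (x - a)) x :=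
    fun x => (((contDiff_infty_iff_deriv.1 hw).1 (x - a)).hasDerivAt).comp_sub_const x a
  have dw1 : ∀ x, HasDerivAt (fun x => deriv (triw δ) (x - a)) (deriv (deriv (triw δ)) (x - a)) x :=
    fun x => (((contDiff_infty_iff_deriv.1 hw1).1 (x - a)).hasDerivAt).comp_sub_const x a
  have cΦ := hΦ.continuous
  have cΦ1 := hΦ1.continuous
  have cΦ2 := hΦ2.continuous
  have cw : Continuous (fun x => triw δ (x - a)) := hw.continuous.comp (by fun_prop)
  have cw1 : Continuous (fun x => deriv (triw δ) (x - a)) := hw1.continuous.comp (by fun_prop)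
  have cw2 : Continuous (fun x => deriv (deriv (triw δ)) (x - a)) := hw2.continuous.comp (by fun_prop)
  -- the dominating function
  set E : ℝ := Real.exp (-(Real.pi - 2 * ε₁) * Real.exp (2 * (a - δ))) with hE
  have hE0 : 0 < E := Real.exp_pos _
  set B : ℝ → ℝ := fun x => E * (4 * K * C *
    (Real.exp (-ε₁ * Real.exp (2 * |x|)) * Real.exp (|x| / 2))) with hBdef
  have hB : Integrable B := ((tri_dom hε).const_mul (4 * K * C)).const_mul E
  have key : ∀ q : ℝ → ℝ, (∀ x, |q x| ≤ 4 * K * (|Φ x| + |deriv Φ x| + |deriv (deriv Φ) x|)) →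
      (∀ x, x < a - δ → q x = 0) → ∀ x, |q x| * Real.exp (|x| / 2) ≤ B x := by
    intro q hq hq0 x
    rcases lt_or_ge x (a - δ) with hx | hx
    · rw [hq0 x hx, abs_zero, zero_mul]
      simp only [hBdef]
      positivity
    · have hx0 : 0 ≤ x := by linarith
      simp only [hBdef]
      rw [abs_of_nonneg hx0] at *
      have h3 := hC x
      rw [abs_of_nonneg hx0] at h3
      have h4 : Real.exp (-(Real.pi - ε₁) * Real.exp (2 * x)) ≤
          E * Real.exp (-ε₁ * Real.exp (2 * x)) := by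
        rw [hE, ← Real.exp_add]
        apply Real.exp_le_exp.2
        have h5 : Real.exp (2 * (a - δ)) ≤ Real.exp (2 * x) := Real.exp_le_exp.2 (by linarith)
        have h6 : (Real.pi - 2 * ε₁) * Real.exp (2 * (a - δ)) ≤ (Real.pi - 2 * ε₁) * Real.exp (2 * x) :=
          mul_le_mul_of_nonneg_left h5 (by linarith)
        linarith
      calc |q x| * Real.exp (x / 2) ≤ (4 * K * (C * (E * Real.exp (-ε₁ * Real.exp (2 * x))))) *
          Real.exp (x / 2) := by
            refine mul_le_mul_of_nonneg_right ?_ (Real.exp_pos _).le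
            refine (hq x).trans ?_
            refine mul_le_mul_of_nonneg_left ?_ (by positivity)
            exact h3.trans (mul_le_mul_of_nonneg_left h4 hC0)
        _ = _ := by ring
  have b0 : ∀ x, |Φ x * triw δ (x - a)| * Real.exp (|x| / 2) ≤ B x := by
    refine key (fun x => Φ x * triw δ (x - a)) ?_ ?_
    · intro x
      obtain ⟨k0, k1, k2⟩ := hK (x - a)
      have := mul_le_mul_of_nonneg_left k0 (abs_nonneg (Φ x))
      rw [abs_mul]
      have e1 := mul_nonneg hK0.le (abs_nonneg (Φ x))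
      have e2 := mul_nonneg hK0.le (abs_nonneg (deriv Φ x))
      have e3 := mul_nonneg hK0.le (abs_nonneg (deriv (deriv Φ) x))
      nlinarith
    · intro x hx
      rw [triw_zero hδ (by linarith), mul_zero]
  have b1 : ∀ x, |deriv Φ x * triw δ (x - a) + Φ x * deriv (triw δ) (x - a)| *
      Real.exp (|x| / 2) ≤ B x := by
    refine key (fun x => deriv Φ x * triw δ (x - a) + Φ x * deriv (triw δ) (x - a)) ?_ ?_
    · intro x
      obtain ⟨k0, k1, k2⟩ := hK (x - a)
      have f1 := mul_le_mul_of_nonneg_left k0 (abs_nonneg (deriv Φ x))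
      have f2 := mul_le_mul_of_nonneg_left k1 (abs_nonneg (Φ x))
      have f3 := abs_add_le (deriv Φ x * triw δ (x - a)) (Φ x * deriv (triw δ) (x - a))
      rw [abs_mul, abs_mul] at f3
      have e1 := mul_nonneg hK0.le (abs_nonneg (Φ x))
      have e2 := mul_nonneg hK0.le (abs_nonneg (deriv Φ x))
      have e3 := mul_nonneg hK0.le (abs_nonneg (deriv (deriv Φ) x))
      nlinarith
    · intro x hx
      rw [triw_zero hδ (by linarith), (triw_deriv_zero hδ (by linarith)).1, mul_zero, mul_zero, add_zero]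
  have b2 : ∀ x, |(deriv (deriv Φ) x * triw δ (x - a) + deriv Φ x * deriv (triw δ) (x - a)) +
      (deriv Φ x * deriv (triw δ) (x - a) + Φ x * deriv (deriv (triw δ)) (x - a))| *
      Real.exp (|x| / 2) ≤ B x := by
    refine key (fun x => (deriv (deriv Φ) x * triw δ (x - a) + deriv Φ x * deriv (triw δ) (x - a)) +
      (deriv Φ x * deriv (triw δ) (x - a) + Φ x * deriv (deriv (triw δ)) (x - a))) ?_ ?_
    · intro x
      obtain ⟨k0, k1, k2⟩ := hK (x - a)
      have f1 := mul_le_mul_of_nonneg_left k0 (abs_nonneg (deriv (deriv Φ) x))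
      have f2 := mul_le_mul_of_nonneg_left k1 (abs_nonneg (deriv Φ x))
      have f4 := mul_le_mul_of_nonneg_left k2 (abs_nonneg (Φ x))
      have g1 := abs_add_le (deriv (deriv Φ) x * triw δ (x - a) + deriv Φ x * deriv (triw δ) (x - a))
        (deriv Φ x * deriv (triw δ) (x - a) + Φ x * deriv (deriv (triw δ)) (x - a))
      have g2 := abs_add_le (deriv (deriv Φ) x * triw δ (x - a)) (deriv Φ x * deriv (triw δ) (x - a))
      have g3 := abs_add_le (deriv Φ x * deriv (triw δ) (x - a)) (Φ x * deriv (deriv (triw δ)) (x - a))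
      rw [abs_mul, abs_mul] at g2 g3
      have e1 := mul_nonneg hK0.le (abs_nonneg (Φ x))
      have e2 := mul_nonneg hK0.le (abs_nonneg (deriv Φ x))
      have e3 := mul_nonneg hK0.le (abs_nonneg (deriv (deriv Φ) x))
      nlinarith
    · intro x hx
      rw [triw_zero hδ (by linarith), (triw_deriv_zero hδ (by linarith)).1,
        (triw_deriv_zero hδ (by linarith)).2]
      ring
  have h1 : ∀ x, HasDerivAt (fun x => Φ x * triw δ (x - a))
      (deriv Φ x * triw δ (x - a) + Φ x * deriv (triw δ) (x - a)) x := fun x => (dΦ x).mul (dw x)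
  have h2 : ∀ x, HasDerivAt (fun x => deriv Φ x * triw δ (x - a) + Φ x * deriv (triw δ) (x - a))
      ((deriv (deriv Φ) x * triw δ (x - a) + deriv Φ x * deriv (triw δ) (x - a)) +
      (deriv Φ x * deriv (triw δ) (x - a) + Φ x * deriv (deriv (triw δ)) (x - a))) x :=
    fun x => ((dΦ1 x).mul (dw x)).add ((dΦ x).mul (dw1 x))
  have h3 : Continuous (fun x => (deriv (deriv Φ) x * triw δ (x - a) + deriv Φ x * deriv (triw δ) (x - a)) +
      (deriv Φ x * deriv (triw δ) (x - a) + Φ x * deriv (deriv (triw δ)) (x - a))) :=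
    ((cΦ2.mul cw).add (cΦ1.mul cw1)).add ((cΦ1.mul cw1).add (cΦ.mul cw2))
  obtain ⟨i0, ibp⟩ := tri_ibp hz h1 h2 h3 hB b0 b1 b2
  have hBint : ∫ x, B x = E * ∫ x : ℝ, 4 * K * C *
      (Real.exp (-ε₁ * Real.exp (2 * |x|)) * Real.exp (|x| / 2)) := by
    rw [← integral_const_mul]
  have nb : ∀ q : ℝ → ℝ, (∀ x, |q x| * Real.exp (|x| / 2) ≤ B x) →
      ‖∫ x : ℝ, ((q x : ℝ) : ℂ) * Complex.cos (z * x)‖ ≤ ∫ x, B x := by
    intro q hb
    refine norm_integral_le_of_norm_le hB (ae_of_all _ fun x => ?_)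
    rw [norm_mul, Complex.norm_real, Real.norm_eq_abs]
    exact (mul_le_mul_of_nonneg_left (tri_norm_cos z x hz) (abs_nonneg _)).trans (hb x)
  refine ⟨i0, ?_, ?_⟩
  · rw [← hBint]
    exact nb _ b0
  · rw [← hBint, ← norm_pow, ← norm_neg (z ^ 2), ← norm_mul, ← ibp]
    exact nb _ b2

/-- the numerical inequalities -/
theorem tri_num {e D X a : ℝ} (he : 0 < e) (he1 : e ≤ 1) (hD : 0 ≤ D) (hX : 0 < X)
    (ha : 1 + 4 * D / (X * e) ≤ a) :
    4 * (Real.exp (-(Real.pi - 2 * (e / 8)) * Real.exp (2 * (a - e / 32))) * D) ≤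
      X * Real.exp (-(Real.pi - e) * Real.exp (2 * a)) ∧
    4 * (Real.exp (-(Real.pi - 2 * (e / 8)) * Real.exp (2 * (a - e / 32))) * D) ≤ X := by
  have hpi3 := Real.pi_gt_three
  have hpi4 := Real.pi_le_four
  have ha1 : 1 ≤ a := by
    have : 0 ≤ 4 * D / (X * e) := by positivity
    linarith
  set E : ℝ := Real.exp (2 * a) with hE
  have hE0 : 0 < E := Real.exp_pos _
  have hE2 : 2 * a ≤ E := by
    have := Real.add_one_le_exp (2 * a)
    linarith
  have h1 : (Real.pi - e / 2) * E ≤ (Real.pi - 2 * (e / 8)) * Real.exp (2 * (a - e / 32)) := by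
    have h2 : Real.exp (2 * (a - e / 32)) = E * Real.exp (-(e / 16)) := by
      rw [hE, ← Real.exp_add]
      congr 1
      ring
    have h3 : 1 - e / 16 ≤ Real.exp (-(e / 16)) := by
      have := Real.add_one_le_exp (-(e / 16))
      linarith
    have h4 : Real.pi - e / 2 ≤ (Real.pi - 2 * (e / 8)) * (1 - e / 16) := by
      nlinarith
    have h5 : Real.pi - e / 2 ≤ (Real.pi - 2 * (e / 8)) * Real.exp (-(e / 16)) :=
      h4.trans (mul_le_mul_of_nonneg_left h3 (by linarith))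
    rw [h2]
    calc (Real.pi - e / 2) * E ≤ ((Real.pi - 2 * (e / 8)) * Real.exp (-(e / 16))) * E :=
          mul_le_mul_of_nonneg_right h5 hE0.le
      _ = _ := by ring
  have h6 : Real.exp (-(Real.pi - 2 * (e / 8)) * Real.exp (2 * (a - e / 32))) ≤
      Real.exp (-(Real.pi - e / 2) * E) := Real.exp_le_exp.2 (by linarith)
  have h7 : 4 * D ≤ X * Real.exp (e / 2 * E) := by
    have h8 : 4 * D / (X * e) ≤ a := by linarith
    rw [div_le_iff₀ (by positivity)] at h8
    have h9 : e / 2 * E ≤ Real.exp (e / 2 * E) := by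
      have := Real.add_one_le_exp (e / 2 * E)
      linarith
    have h10 : a * e ≤ e / 2 * E := by nlinarith
    calc 4 * D ≤ a * (X * e) := h8
      _ = X * (a * e) := by ring
      _ ≤ X * Real.exp (e / 2 * E) := mul_le_mul_of_nonneg_left (h10.trans h9) hX.le
  have h11 : 4 * (Real.exp (-(Real.pi - 2 * (e / 8)) * Real.exp (2 * (a - e / 32))) * D) ≤
      X * Real.exp (-(Real.pi - e) * E) := by
    calc 4 * (Real.exp (-(Real.pi - 2 * (e / 8)) * Real.exp (2 * (a - e / 32))) * D)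
        ≤ 4 * (Real.exp (-(Real.pi - e / 2) * E) * D) := by
          have := mul_le_mul_of_nonneg_right h6 hD
          linarith
      _ = Real.exp (-(Real.pi - e / 2) * E) * (4 * D) := by ring
      _ ≤ Real.exp (-(Real.pi - e / 2) * E) * (X * Real.exp (e / 2 * E)) :=
          mul_le_mul_of_nonneg_left h7 (Real.exp_pos _).le
      _ = X * (Real.exp (-(Real.pi - e / 2) * E) * Real.exp (e / 2 * E)) := by ring
      _ = X * Real.exp (-(Real.pi - e) * E) := by
          rw [← Real.exp_add]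
          congr 2
          ring
  refine ⟨h11, h11.trans ?_⟩
  have h12 : Real.exp (-(Real.pi - e) * E) ≤ 1 := by
    apply Real.exp_le_one_iff.2
    have : 0 ≤ (Real.pi - e) * E := mul_nonneg (by linarith) hE0.le
    linarith
  calc X * Real.exp (-(Real.pi - e) * E) ≤ X * 1 := mul_le_mul_of_nonneg_left h12 hX.le
    _ = X := mul_one X

theorem t_TRI (h1 : S_PHI) (h2 : S_XI0) : S_TRI := by
  intro ε hε
  obtain ⟨Φ, hΦ, hev, hdec, hXi⟩ := h1
  obtain ⟨-, -, hX0, -, -, -⟩ := h2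
  obtain ⟨e, he0, he1, heε⟩ : ∃ e : ℝ, 0 < e ∧ e ≤ 1 ∧ e ≤ ε :=
    ⟨min ε 1, lt_min hε one_pos, min_le_right _ _, min_le_left _ _⟩
  have hpi3 := Real.pi_gt_three
  have hδ : 0 < e / 32 := by positivity
  have hε₁ : 0 < e / 8 := by positivity
  have hε₂ : 2 * (e / 8) ≤ Real.pi := by linarith
  obtain ⟨C, hC⟩ := hdec (e / 8) hε₁
  obtain ⟨K, hK0, hK⟩ := triw_bound hδ
  have hC0 : 0 ≤ C := by
    have h := hC 0
    have h2 : 0 ≤ |Φ 0| + |deriv Φ 0| + |deriv (deriv Φ) 0| := by positivity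
    exact nonneg_of_mul_nonneg_left (h2.trans h) (Real.exp_pos _)
  obtain ⟨D, hDdef⟩ : ∃ D : ℝ, D = ∫ x : ℝ, 4 * K * C *
    (Real.exp (-(e / 8) * Real.exp (2 * |x|)) * Real.exp (|x| / 2)) := ⟨_, rfl⟩
  have hD : 0 ≤ D := by
    rw [hDdef]
    refine integral_nonneg fun x => ?_
    show 0 ≤ _
    positivity
  obtain ⟨X, hXdef⟩ : ∃ X : ℝ, X = ‖Xi 0‖ := ⟨_, rfl⟩
  have hX : 0 < X := by rw [hXdef]; exact norm_pos_iff.2 hX0
  refine ⟨1 + 4 * D / (X * e), by positivity, ?_⟩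
  intro a ha
  have ha1 : 1 ≤ a := by
    have : 0 ≤ 4 * D / (X * e) := by positivity
    linarith
  have haδ : e / 32 ≤ a := by linarith
  obtain ⟨n1, n2⟩ := tri_num he0 he1 hD hX ha
  have hw : ContDiff ℝ ∞ (triw (e / 32)) := triw_contDiff _
  -- the main estimate
  have main := fun (z : ℂ) (hz : |z.im| ≤ 1 / 2) => tri_main hΦ hε₁ hε₂ hδ hC hK0 hK haδ hz
  rw [← hDdef] at main
  -- the cut-off kernel
  obtain ⟨k₀, hk₀⟩ : ∃ k₀ : ℝ → ℝ, k₀ = fun x => Φ x * (1 - triw (e / 32) (x - a) -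
    triw (e / 32) (-x - a)) := ⟨_, rfl⟩
  have hTR : TR a k₀ := by
    refine ⟨?_, ?_, ?_⟩
    · rw [hk₀]
      exact hΦ.mul ((contDiff_const.sub (hw.comp (contDiff_id.sub contDiff_const))).sub
        (hw.comp (contDiff_neg.sub contDiff_const)))
    · intro x
      rw [hk₀]
      simp only [neg_neg]
      rw [hev]
      ring
    · intro x hx
      rw [hk₀]
      simp only
      rcases lt_abs.1 hx with h | h
      · rw [triw_one hδ (by linarith : 0 ≤ x - a), triw_zero hδ (by linarith : -x - a ≤ -(e / 32))]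
        ring
      · rw [triw_one hδ (by linarith : 0 ≤ -x - a), triw_zero hδ (by linarith : x - a ≤ -(e / 32))]
        ring
  -- integrability of the full integrand
  have iΦ : ∀ z : ℂ, |z.im| ≤ 1 / 2 → Integrable (fun x : ℝ => (Φ x : ℂ) * Complex.cos (z * x)) := by
    intro z hz
    have hB : Integrable (fun x : ℝ => C * (Real.exp (-(e / 8) * Real.exp (2 * |x|)) *
        Real.exp (|x| / 2))) := (tri_dom hε₁).const_mul C
    refine hB.mono' (Continuous.aestronglyMeasurable ?_) (ae_of_all _ ?_)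
    · have := hΦ.continuous
      fun_prop
    · intro x
      rw [norm_mul, Complex.norm_real, Real.norm_eq_abs]
      have h3 : |Φ x| ≤ C * Real.exp (-(e / 8) * Real.exp (2 * |x|)) := by
        have h4 := hC x
        have h5 := abs_nonneg (deriv Φ x)
        have h6 := abs_nonneg (deriv (deriv Φ) x)
        have h7 : Real.exp (-(Real.pi - e / 8) * Real.exp (2 * |x|)) ≤
            Real.exp (-(e / 8) * Real.exp (2 * |x|)) := by
          apply Real.exp_le_exp.2
          refine mul_le_mul_of_nonneg_right ?_ (Real.exp_pos _).le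
          linarith
        have h8 := mul_le_mul_of_nonneg_left h7 hC0
        linarith
      calc |Φ x| * ‖Complex.cos (z * x)‖
          ≤ (C * Real.exp (-(e / 8) * Real.exp (2 * |x|))) * Real.exp (|x| / 2) :=
            mul_le_mul h3 (tri_norm_cos z x hz) (norm_nonneg _) (by positivity)
        _ = _ := by ring
  -- the transform of the cut-off kernel
  have hT : ∀ z : ℂ, |z.im| ≤ 1 / 2 → Ct (co k₀) z = Xi z -
      2 * ∫ x : ℝ, ((Φ x * triw (e / 32) (x - a) : ℝ) : ℂ) * Complex.cos (z * x) := by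
    intro z hz
    obtain ⟨i1, -, -⟩ := main z hz
    have i2 : Integrable (fun x : ℝ => ((Φ x * triw (e / 32) (-x - a) : ℝ) : ℂ) * Complex.cos (z * x)) := by
      refine i1.comp_neg.congr (ae_of_all _ fun x => ?_)
      simp only
      rw [hev, Complex.ofReal_neg, mul_neg, Complex.cos_neg]
    have e2 : ∫ x : ℝ, ((Φ x * triw (e / 32) (-x - a) : ℝ) : ℂ) * Complex.cos (z * x) =
        ∫ x : ℝ, ((Φ x * triw (e / 32) (x - a) : ℝ) : ℂ) * Complex.cos (z * x) := by
      rw [← integral_neg_eq_self (fun x : ℝ => ((Φ x * triw (e / 32) (x - a) : ℝ) : ℂ) *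
        Complex.cos (z * x)) volume]
      refine integral_congr_ae (ae_of_all _ fun x => ?_)
      simp only
      rw [hev, Complex.ofReal_neg, mul_neg, Complex.cos_neg]
    have e3 : Ct (co k₀) z = ∫ x : ℝ, ((Φ x : ℂ) * Complex.cos (z * x) -
        ((Φ x * triw (e / 32) (x - a) : ℝ) : ℂ) * Complex.cos (z * x) -
        ((Φ x * triw (e / 32) (-x - a) : ℝ) : ℂ) * Complex.cos (z * x)) := by
      unfold Ct co
      refine integral_congr_ae (ae_of_all _ fun x => ?_)
      simp only [hk₀]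
      push_cast
      ring
    have i3 : Integrable (fun x : ℝ => (Φ x : ℂ) * Complex.cos (z * x) -
        ((Φ x * triw (e / 32) (x - a) : ℝ) : ℂ) * Complex.cos (z * x)) := (iΦ z hz).sub i1
    rw [e3, integral_sub i3 i2, integral_sub (iΦ z hz) i1, e2, ← hXi]
    ring
  -- the integral
  have hz0 : |(0 : ℂ).im| ≤ 1 / 2 := by simp
  have hI : ((∫ x : ℝ, k₀ x : ℝ) : ℂ) = Ct (co k₀) 0 := by
    have h3 : ((∫ x : ℝ, k₀ x : ℝ) : ℂ) = ∫ x : ℝ, (k₀ x : ℂ) :=
      (integral_ofReal (𝕜 := ℂ) (f := k₀) (μ := volume)).symm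
    rw [h3]
    unfold Ct co
    refine integral_congr_ae (ae_of_all _ fun x => ?_)
    simp
  have hI2 : X / 2 ≤ |∫ x : ℝ, k₀ x| := by
    have h3 : ‖((∫ x : ℝ, k₀ x : ℝ) : ℂ)‖ = |∫ x : ℝ, k₀ x| := Complex.norm_real _
    rw [← h3, hI, hT 0 hz0]
    obtain ⟨-, i2, -⟩ := main 0 hz0
    have h4 := norm_sub_norm_le (Xi 0) (2 * ∫ x : ℝ, ((Φ x * triw (e / 32) (x - a) : ℝ) : ℂ) *
      Complex.cos (0 * x))
    rw [norm_mul, ← hXdef] at h4
    have h5 : ‖(2 : ℂ)‖ = 2 := by simp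
    rw [h5] at h4
    linarith
  have hI0 : (∫ x : ℝ, k₀ x) ≠ 0 := by
    intro h
    rw [h, abs_zero] at hI2
    linarith
  refine ⟨fun x => k₀ x / ∫ x : ℝ, k₀ x, ⟨⟨?_, ?_, ?_⟩, ?_⟩, ?_⟩
  · exact hTR.smooth.div_const _
  · intro x
    rw [hTR.even]
  · intro x hx
    rw [hTR.supp x hx, zero_div]
  · rw [integral_div, div_self hI0]
  · intro z hz hz1 hz2
    obtain ⟨-, -, i3⟩ := main z hz
    have e4 : Ct (co (fun x => k₀ x / ∫ x : ℝ, k₀ x)) z = Ct (co k₀) z / ((∫ x : ℝ, k₀ x : ℝ) : ℂ) := by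
      unfold Ct co
      rw [← integral_div]
      refine integral_congr_ae (ae_of_all _ fun x => ?_)
      simp only
      push_cast
      ring
    rw [e4, hT z hz, hz2, zero_sub, norm_div, norm_neg, norm_mul, Complex.norm_real, Real.norm_eq_abs]
    have h5 : ‖(2 : ℂ)‖ = 2 := by simp
    rw [h5]
    have hzn : 0 < ‖z‖ ^ 2 := by
      have := norm_pos_iff.2 hz1
      positivity
    have hIp : 0 < |∫ x : ℝ, k₀ x| := by linarith
    rw [div_le_div_iff₀ hIp hzn]
    obtain ⟨J, hJ⟩ : ∃ J : ℝ, J = ‖∫ x : ℝ, ((Φ x * triw (e / 32) (x - a) : ℝ) : ℂ) *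
      Complex.cos (z * x)‖ := ⟨_, rfl⟩
    rw [← hJ] at i3 ⊢
    have h6 : Real.exp (-(Real.pi - e) * Real.exp (2 * a)) ≤
        Real.exp (-(Real.pi - ε) * Real.exp (2 * a)) := by
      apply Real.exp_le_exp.2
      refine mul_le_mul_of_nonneg_right ?_ (Real.exp_pos _).le
      linarith
    have h7 : Real.exp (-(Real.pi - e) * Real.exp (2 * a)) * (X / 2) ≤
        Real.exp (-(Real.pi - ε) * Real.exp (2 * a)) * |∫ x : ℝ, k₀ x| :=
      mul_le_mul h6 hI2 (by positivity) (Real.exp_pos _).le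
    refine le_trans ?_ h7
    linarith

end Pool.Agent.H478.WM
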