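import Pool.Agent.H478.WM.Stm

/-!
# Project WM: uniqueness (UNI), by helper236
-/

set_option autoImplicit false

open Complex MeasureTheory Filter Topology Set

namespace Pool.Agent.H478.WM

namespace UNIN

theorem divide (f : ℂ → ℂ) (hf : Differentiable ℂ f) (s : ℕ → ℂ) (hs : Function.Injective s)
    (h0 : ∀ k, f (s k) = 0) (n : ℕ) :
    ∃ g : ℂ → ℂ, Differentiable ℂ g ∧ ∀ z, f z = (∏ k ∈ Finset.range n, (z - s k)) * g z := by
  induction n with
  | zero => exact ⟨f, hf, fun z => by simp⟩
  | succ n ih =>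
    obtain ⟨g, hg, hfg⟩ := ih
    have hgn : g (s n) = 0 := by
      have h1 := hfg (s n)
      rw [h0 n] at h1
      rcases mul_eq_zero.mp h1.symm with h2 | h2
      · exfalso
        rw [Finset.prod_eq_zero_iff] at h2
        obtain ⟨k, hk, hk2⟩ := h2
        have h3 : s n = s k := sub_eq_zero.mp hk2
        have h4 := hs h3
        rw [Finset.mem_range] at hk
        omega
      · exact h2
    refine ⟨dslope g (s n), ?_, fun z => ?_⟩
    · have h1 : DifferentiableOn ℂ (dslope g (s n)) Set.univ :=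
        (Complex.differentiableOn_dslope univ_mem).mpr hg.differentiableOn
      exact differentiableOn_univ.mp h1
    · have h1 : (z - s n) • dslope g (s n) z = g z - g (s n) := sub_smul_dslope g (s n) z
      rw [hgn, sub_zero, smul_eq_mul] at h1
      rw [hfg z, Finset.prod_range_succ, mul_assoc, h1]

end UNIN

open UNIN in
theorem t_UNI : S_UNI := by
  intro G f C A hG hf hb h0 w
  have hC : 0 ≤ C := by
    have h1 := hb 0
    rw [norm_zero, mul_zero, Real.exp_zero, mul_one] at h1
    exact (norm_nonneg _).trans h1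
  have hA1 : 0 < |A| + 1 := by positivity
  obtain ⟨h, hh⟩ : ∃ h : ℝ, h = 1 / (12 * (|A| + 1)) := ⟨_, rfl⟩
  have hpos : 0 < h := by rw [hh]; positivity
  have hAh : 6 * |A| * h ≤ 1 / 2 := by
    rw [hh, mul_one_div, div_le_div_iff₀ (by positivity) (by norm_num)]
    have := abs_nonneg A
    linarith
  obtain ⟨T1, hT1⟩ := hG h hpos
  obtain ⟨T0, hT0⟩ : ∃ T0 : ℝ, T0 = max T1 1 := ⟨_, rfl⟩
  have hT01 : 1 ≤ T0 := by rw [hT0]; exact le_max_right _ _
  have hT0T : T1 ≤ T0 := by rw [hT0]; exact le_max_left _ _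
  have hex : ∀ k : ℕ, ∃ s ∈ G, T0 + 2 * k * h ≤ s ∧ s ≤ T0 + 2 * k * h + h := fun k => by
    refine hT1 _ ?_
    have : 0 ≤ 2 * (k : ℝ) * h := by positivity
    linarith
  choose s hsG hs1 hs2 using hex
  have hmono : StrictMono s := strictMono_nat_of_lt_succ (fun k => by
    have h1 := hs2 k
    have h2 := hs1 (k + 1)
    push_cast at h2
    have h3 : 2 * ((k : ℝ) + 1) * h = 2 * k * h + 2 * h := by ring
    rw [h3] at h2
    linarith)
  have hinj : Function.Injective (fun k => (s k : ℂ)) := fun a b hab =>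
    hmono.injective (Complex.ofReal_injective hab)
  have hbound : ∀ n : ℕ, ‖f w‖ ≤ C * Real.exp (3 * |A| * T0 + 2 * |A| * ‖w‖) *
      (Real.exp (1 / 2) / 2) ^ n := by
    intro n
    obtain ⟨g, hg, hfg⟩ := divide f hf (fun k => (s k : ℂ)) hinj (fun k => h0 _ (hsG k)) n
    obtain ⟨r, hr⟩ : ∃ r : ℝ, r = T0 + 2 * n * h := ⟨_, rfl⟩
    have hr0 : 0 < r := by
      have : 0 ≤ 2 * (n : ℝ) * h := by positivity
      rw [hr]; linarith
    obtain ⟨R, hR⟩ : ∃ R : ℝ, R = 3 * r + 2 * ‖w‖ := ⟨_, rfl⟩
    have hw0 := norm_nonneg w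
    have hR0 : 0 < R := by rw [hR]; linarith
    have hsk : ∀ k ∈ Finset.range n, ‖(s k : ℂ)‖ ≤ r := fun k hk => by
      have h1 := hs2 k
      have h2 : 0 < s k := by
        have h3 := hs1 k
        have : 0 ≤ 2 * (k : ℝ) * h := by positivity
        linarith
      have h4 : ((k : ℝ) + 1) ≤ n := by
        have := Finset.mem_range.mp hk
        exact_mod_cast this
      rw [Complex.norm_real, Real.norm_of_nonneg h2.le, hr]
      nlinarith
    have hRr : 0 < R - r := by rw [hR]; linarith
    have hpow : 0 < (R - r) ^ n := by positivity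
    -- the bound of `g` on the circle
    have hgb : ∀ z : ℂ, ‖z‖ = R → ‖g z‖ ≤ C * Real.exp (A * R) / (R - r) ^ n := by
      intro z hz
      rw [le_div_iff₀ hpow]
      have h1 : (R - r) ^ n ≤ ‖∏ k ∈ Finset.range n, (z - (s k : ℂ))‖ := by
        rw [norm_prod]
        calc (R - r) ^ n = ∏ _k ∈ Finset.range n, (R - r) := by
              rw [Finset.prod_const, Finset.card_range]
          _ ≤ ∏ k ∈ Finset.range n, ‖z - (s k : ℂ)‖ := by
              refine Finset.prod_le_prod (fun _ _ => hRr.le) (fun k hk => ?_)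
              have h2 := norm_sub_norm_le z (s k : ℂ)
              have h3 := hsk k hk
              rw [hz] at h2
              linarith
      calc ‖g z‖ * (R - r) ^ n ≤ ‖g z‖ * ‖∏ k ∈ Finset.range n, (z - (s k : ℂ))‖ :=
            mul_le_mul_of_nonneg_left h1 (norm_nonneg _)
        _ = ‖f z‖ := by rw [hfg z, norm_mul, mul_comm]
        _ ≤ C * Real.exp (A * R) := by
            have := hb z
            rwa [hz] at this
    have hgw : ‖g w‖ ≤ C * Real.exp (A * R) / (R - r) ^ n := by
      refine Complex.norm_le_of_forall_mem_frontier_norm_le (U := Metric.ball (0 : ℂ) R)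
        Metric.isBounded_ball hg.diffContOnCl (fun z hz => ?_) ?_
      · rw [frontier_ball (0 : ℂ) hR0.ne', mem_sphere_zero_iff_norm] at hz
        exact hgb z hz
      · refine subset_closure ?_
        rw [mem_ball_zero_iff, hR]
        linarith
    have hprod : ‖∏ k ∈ Finset.range n, (w - (s k : ℂ))‖ ≤ (r + ‖w‖) ^ n := by
      rw [norm_prod]
      calc ∏ k ∈ Finset.range n, ‖w - (s k : ℂ)‖ ≤ ∏ _k ∈ Finset.range n, (r + ‖w‖) := by
            refine Finset.prod_le_prod (fun _ _ => norm_nonneg _) (fun k hk => ?_)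
            have h2 := norm_sub_le w (s k : ℂ)
            have h3 := hsk k hk
            linarith
        _ = (r + ‖w‖) ^ n := by rw [Finset.prod_const, Finset.card_range]
    have hRr2 : R - r = 2 * (r + ‖w‖) := by rw [hR]; ring
    have hrw : 0 < r + ‖w‖ := by linarith
    calc ‖f w‖ = ‖∏ k ∈ Finset.range n, (w - (s k : ℂ))‖ * ‖g w‖ := by
          rw [hfg w, norm_mul]
      _ ≤ (r + ‖w‖) ^ n * (C * Real.exp (A * R) / (R - r) ^ n) :=
          mul_le_mul hprod hgw (norm_nonneg _) (by positivity)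
      _ = C * Real.exp (A * R) * (1 / 2) ^ n := by
          rw [hRr2, mul_pow]
          have h1 : (r + ‖w‖) ^ n ≠ 0 := by positivity
          rw [one_div, inv_pow]
          field_simp
      _ ≤ C * Real.exp (3 * |A| * T0 + 2 * |A| * ‖w‖ + n * (1 / 2)) * (1 / 2) ^ n := by
          refine mul_le_mul_of_nonneg_right ?_ (by positivity)
          refine mul_le_mul_of_nonneg_left ?_ hC
          refine Real.exp_le_exp.mpr ?_
          have h1 : A * R ≤ |A| * R := mul_le_mul_of_nonneg_right (le_abs_self A) hR0.le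
          have h2 : |A| * R = 3 * |A| * T0 + 2 * |A| * ‖w‖ + n * (6 * |A| * h) := by
            rw [hR, hr]; ring
          have h3 : (n : ℝ) * (6 * |A| * h) ≤ n * (1 / 2) :=
            mul_le_mul_of_nonneg_left hAh n.cast_nonneg
          linarith
      _ = C * Real.exp (3 * |A| * T0 + 2 * |A| * ‖w‖) * (Real.exp (1 / 2) / 2) ^ n := by
          rw [Real.exp_add, Real.exp_nat_mul, div_pow, div_pow, one_pow]
          ring
  have hlt : Real.exp (1 / 2) / 2 < 1 := by
    rw [div_lt_one (by norm_num)]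
    have h1 := Real.exp_one_lt_d9
    have h2 : Real.exp (1 / 2) * Real.exp (1 / 2) = Real.exp 1 := by
      rw [← Real.exp_add]; norm_num
    have h3 := Real.exp_pos (1 / 2)
    nlinarith
  have hlim : Tendsto (fun n : ℕ => C * Real.exp (3 * |A| * T0 + 2 * |A| * ‖w‖) *
      (Real.exp (1 / 2) / 2) ^ n) atTop (𝓝 0) := by
    have h1 := (tendsto_pow_atTop_nhds_zero_of_lt_one (by positivity) hlt).const_mul
      (C * Real.exp (3 * |A| * T0 + 2 * |A| * ‖w‖))
    rwa [mul_zero] at h1
  have hfin : ‖f w‖ ≤ 0 := ge_of_tendsto' hlim hbound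
  exact norm_le_zero_iff.mp hfin

end Pool.Agent.H478.WM
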