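import Pool.Agent.H478.WM.Stm

/-!
# Project WM, part WK: the trial functions have small energy
-/

set_option autoImplicit false

open Complex MeasureTheory Filter Topology Set
open scoped ContDiff

namespace Pool.Agent.H478.WM

noncomputable section

namespace WKa

/-- the argument attached to a zero -/
def zz (ρ : ℂ) : ℂ := -I * (ρ - 1 / 2)

theorem zz_eq (ρ : ℂ) : 1 / 2 + I * zz ρ = ρ := by
  unfold zz
  linear_combination (-(ρ - 1 / 2)) * I_mul_I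

theorem zz_norm (ρ : ℂ) : ‖zz ρ‖ = ‖ρ - 1 / 2‖ := by
  unfold zz
  rw [norm_mul, norm_neg, norm_I, one_mul]

theorem zz_im (ρ : ℂ) (h : ρ ∈ NTZ) : |(zz ρ).im| ≤ 1 / 2 := by
  have e : (zz ρ).im = -(ρ.re - 1 / 2) := by
    unfold zz
    simp
  rw [e, abs_le]
  have h1 := h.2.1
  have h2 := h.2.2
  constructor <;> linarith

theorem nrm_pos (h3 : S_WTS) (ρ : ℂ) (h : ρ ∈ NTZ) : 0 < ‖ρ - 1 / 2‖ := by
  have h1 := (h3.2 ρ h).2.2.2.2
  rw [norm_pos_iff]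
  intro h0
  apply h1
  have h2 := congrArg Complex.im h0
  simpa using h2

theorem zz_ne (h3 : S_WTS) (ρ : ℂ) (h : ρ ∈ NTZ) : zz ρ ≠ 0 := by
  rw [← norm_pos_iff, zz_norm]
  exact nrm_pos h3 ρ h

/-- the total weight -/
def Sg : ℝ := ∑' ρ : NTZ, (mz ρ : ℝ) / ‖(ρ : ℂ) - 1 / 2‖ ^ 2

theorem Sg_nonneg : 0 ≤ Sg := tsum_nonneg fun ρ => by positivity

theorem inv_le (h3 : S_WTS) (ρ : NTZ) : 1 / ‖(ρ : ℂ) - 1 / 2‖ ^ 2 ≤ Sg := by
  have h1 : (mz ρ : ℝ) / ‖(ρ : ℂ) - 1 / 2‖ ^ 2 ≤ Sg :=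
    h3.1.le_tsum ρ fun j _ => by positivity
  have h2 : 1 ≤ mz ρ := (h3.2 ρ ρ.2).2.2.2.1
  have h4 : (1 : ℝ) ≤ mz ρ := by exact_mod_cast h2
  refine le_trans ?_ h1
  exact div_le_div_of_nonneg_right h4 (by positivity)

theorem co_cont {b : ℝ} {g : ℝ → ℝ} (hg : TR b g) : Continuous (co g) := by
  unfold co
  exact continuous_ofReal.comp hg.smooth.continuous

theorem cs {b : ℝ} {g : ℝ → ℝ} (hg : TR b g) : HasCompactSupport (co g) := by
  refine HasCompactSupport.intro (isCompact_Icc (a := -b) (b := b)) ?_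
  intro x hx
  unfold co
  rw [hg.supp x ?_, ofReal_zero]
  by_contra hc
  exact hx (abs_le.1 (not_lt.1 hc))

theorem intg {b : ℝ} {g : ℝ → ℝ} (hg : TR b g) (z : ℂ) :
    Integrable fun x : ℝ => co g x * Complex.cos (z * x) := by
  refine Continuous.integrable_of_hasCompactSupport ?_ ?_
  · exact (co_cont hg).mul (Complex.continuous_cos.comp (continuous_const.mul continuous_ofReal))
  · exact (cs hg).mul_right

theorem Ct_lin {a b : ℝ} {g k : ℝ → ℝ} (hg : TR b g) (hk : TR a k) (c : ℝ) (z : ℂ) :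
    Ct (co fun x => g x - c * k x) z = Ct (co g) z - c * Ct (co k) z := by
  unfold Ct
  rw [← integral_const_mul, ← integral_sub (intg hg z) ((intg hk z).const_mul _)]
  refine integral_congr_ae (Eventually.of_forall fun x => ?_)
  show co (fun x => g x - c * k x) x * Complex.cos (z * x) =
    co g x * Complex.cos (z * x) - c * (co k x * Complex.cos (z * x))
  unfold co
  push_cast
  ring

theorem TR_sub {a b : ℝ} {g k : ℝ → ℝ} (hg : TR b g) (hk : TR a k) (c : ℝ) :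
    TR (max a b) fun x => g x - c * k x where
  smooth := hg.smooth.sub (contDiff_const.mul hk.smooth)
  even := fun x => by rw [hg.even, hk.even]
  supp := fun x hx => by
    rw [hg.supp x ((le_max_right a b).trans_lt hx), hk.supp x ((le_max_left a b).trans_lt hx)]
    ring

theorem TC_co {b : ℝ} {g : ℝ → ℝ} (hg : TR b g) : TC b (co g) where
  smooth := ofRealCLM.contDiff.comp hg.smooth
  even := fun x => by unfold co; rw [hg.even]
  supp := fun x hx => by unfold co; rw [hg.supp x hx, ofReal_zero]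

/-- the bound of the energy -/
theorem key (h2 : S_EXF) (h3 : S_WTS) (h4 : S_XI0) {a : ℝ} {k : ℝ → ℝ} {E : ℝ} (hE : 0 ≤ E)
    (hk : TR a k) (hb : ∀ z : ℂ, |z.im| ≤ 1 / 2 → z ≠ 0 → Xi z = 0 → ‖Ct (co k) z‖ ≤ E / ‖z‖ ^ 2) :
    W k ≤ E ^ 2 * Sg ^ 2 := by
  have e1 : ∀ ρ : NTZ, ‖Ct (co k) (-I * ((ρ : ℂ) - 1 / 2))‖ ≤ E / ‖(ρ : ℂ) - 1 / 2‖ ^ 2 := by
    intro ρ
    have := hb (zz ρ) (zz_im ρ ρ.2) (zz_ne h3 ρ ρ.2)
      ((h4.2.2.2.2.1 (zz ρ)).2 (by rw [zz_eq]; exact ρ.2))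
    rw [zz_norm] at this
    exact this
  have e2 : HasSum (fun ρ : NTZ => E ^ 2 * Sg * ((mz ρ : ℝ) / ‖(ρ : ℂ) - 1 / 2‖ ^ 2))
      (E ^ 2 * Sg * Sg) := h3.1.hasSum.mul_left _
  have e3 : ‖(W k : ℂ)‖ ≤ E ^ 2 * Sg * Sg := by
    refine (h2 a k hk).norm_le_of_bounded e2 fun ρ => ?_
    rw [norm_mul, norm_pow, norm_natCast]
    have h5 : ‖Ct (co k) (-I * ((ρ : ℂ) - 1 / 2))‖ ^ 2 ≤ (E / ‖(ρ : ℂ) - 1 / 2‖ ^ 2) ^ 2 :=
      pow_le_pow_left₀ (norm_nonneg _) (e1 ρ) 2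
    have h6 := inv_le h3 ρ
    have h7 : (0 : ℝ) ≤ (mz ρ : ℝ) * (E ^ 2 * (1 / ‖(ρ : ℂ) - 1 / 2‖ ^ 2)) := by positivity
    calc (mz ρ : ℝ) * ‖Ct (co k) (-I * ((ρ : ℂ) - 1 / 2))‖ ^ 2 ≤
        (mz ρ : ℝ) * (E / ‖(ρ : ℂ) - 1 / 2‖ ^ 2) ^ 2 :=
          mul_le_mul_of_nonneg_left h5 (Nat.cast_nonneg _)
      _ = ((mz ρ : ℝ) * (E ^ 2 * (1 / ‖(ρ : ℂ) - 1 / 2‖ ^ 2))) *
          (1 / ‖(ρ : ℂ) - 1 / 2‖ ^ 2) := by ring
      _ ≤ ((mz ρ : ℝ) * (E ^ 2 * (1 / ‖(ρ : ℂ) - 1 / 2‖ ^ 2))) * Sg :=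
          mul_le_mul_of_nonneg_left h6 h7
      _ = E ^ 2 * Sg * ((mz ρ : ℝ) / ‖(ρ : ℂ) - 1 / 2‖ ^ 2) := by ring
  have e4 : W k ≤ ‖(W k : ℂ)‖ := by
    rw [norm_real]
    exact le_abs_self _
  refine e4.trans (e3.trans (le_of_eq ?_))
  ring

/-- the bound of the energy of a difference -/
theorem key2 (h2 : S_EXF) (h3 : S_WTS) (h4 : S_XI0) {a b : ℝ} {g k : ℝ → ℝ} {c E G : ℝ}
    (hE : 0 ≤ E) (hE1 : E ≤ 1) (hG : 0 ≤ G) (hg : TR b g) (hk : TR a k)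
    (hgb : ∀ z : ℂ, |z.im| ≤ 1 / 2 → ‖Ct (co g) z‖ ≤ G)
    (hb : ∀ z : ℂ, |z.im| ≤ 1 / 2 → z ≠ 0 → Xi z = 0 → ‖Ct (co k) z‖ ≤ E / ‖z‖ ^ 2) :
    W (fun x => g x - c * k x) ≤ W g + E * ((2 * |c| * G + c ^ 2 * Sg) * Sg) := by
  have e1 : ∀ ρ : NTZ, ‖Ct (co k) (-I * ((ρ : ℂ) - 1 / 2))‖ ≤ E / ‖(ρ : ℂ) - 1 / 2‖ ^ 2 := by
    intro ρ
    have := hb (zz ρ) (zz_im ρ ρ.2) (zz_ne h3 ρ ρ.2)
      ((h4.2.2.2.2.1 (zz ρ)).2 (by rw [zz_eq]; exact ρ.2))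
    rw [zz_norm] at this
    exact this
  have e0 : ∀ ρ : NTZ, ‖Ct (co g) (-I * ((ρ : ℂ) - 1 / 2))‖ ≤ G := fun ρ =>
    hgb (zz ρ) (zz_im ρ ρ.2)
  set M : ℝ := E * (2 * |c| * G + c ^ 2 * Sg) with hM
  have hSg := Sg_nonneg
  have e2 : HasSum (fun ρ : NTZ => M * ((mz ρ : ℝ) / ‖(ρ : ℂ) - 1 / 2‖ ^ 2)) (M * Sg) :=
    h3.1.hasSum.mul_left _
  have e5 := (h2 (max a b) _ (TR_sub hg hk c)).sub (h2 b g hg)
  have e3 : ‖((W (fun x => g x - c * k x) : ℂ) - (W g : ℂ))‖ ≤ M * Sg := by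
    refine e5.norm_le_of_bounded e2 fun ρ => ?_
    set x : ℂ := Ct (co g) (-I * ((ρ : ℂ) - 1 / 2)) with hx
    set y : ℂ := Ct (co k) (-I * ((ρ : ℂ) - 1 / 2)) with hy
    set r : ℝ := 1 / ‖(ρ : ℂ) - 1 / 2‖ ^ 2 with hr
    have hr0 : 0 ≤ r := by rw [hr]; positivity
    have hrS : r ≤ Sg := inv_le h3 ρ
    have hy1 : ‖y‖ ≤ E * r := by
      have := e1 ρ
      rw [← hy] at this
      refine this.trans (le_of_eq ?_)
      rw [hr]; ring
    have hx1 : ‖x‖ ≤ G := e0 ρ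
    have e6 : (mz ρ : ℂ) * (Ct (co fun x => g x - c * k x) (-I * ((ρ : ℂ) - 1 / 2))) ^ 2 -
        (mz ρ : ℂ) * x ^ 2 = (mz ρ : ℂ) * (c ^ 2 * y ^ 2 - 2 * c * (x * y)) := by
      rw [Ct_lin hg hk c, ← hx, ← hy]
      ring
    rw [e6, norm_mul, norm_natCast]
    have e7 : ‖((c : ℂ) ^ 2 * y ^ 2 - 2 * c * (x * y))‖ ≤ c ^ 2 * ‖y‖ ^ 2 + 2 * |c| * (‖x‖ * ‖y‖) := by
      refine (norm_sub_le _ _).trans (le_of_eq ?_)
      rw [norm_mul, norm_mul, norm_mul, norm_mul, norm_pow, norm_pow, norm_real, norm_ofNat,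
        Real.norm_eq_abs, sq_abs]
    have e8 : c ^ 2 * ‖y‖ ^ 2 ≤ c ^ 2 * (E * (Sg * r)) := by
      refine mul_le_mul_of_nonneg_left ?_ (sq_nonneg _)
      calc ‖y‖ ^ 2 ≤ (E * r) ^ 2 := pow_le_pow_left₀ (norm_nonneg _) hy1 2
        _ = (E * r) * (E * r) := by ring
        _ ≤ (1 * Sg) * (E * r) := by
            refine mul_le_mul_of_nonneg_right ?_ (mul_nonneg hE hr0)
            exact mul_le_mul hE1 hrS hr0 zero_le_one
        _ = E * (Sg * r) := by ring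
    have e9 : 2 * |c| * (‖x‖ * ‖y‖) ≤ 2 * |c| * (G * (E * r)) := by
      refine mul_le_mul_of_nonneg_left ?_ (by positivity)
      exact mul_le_mul hx1 hy1 (norm_nonneg _) hG
    calc (mz ρ : ℝ) * ‖((c : ℂ) ^ 2 * y ^ 2 - 2 * c * (x * y))‖ ≤
        (mz ρ : ℝ) * (c ^ 2 * (E * (Sg * r)) + 2 * |c| * (G * (E * r))) :=
          mul_le_mul_of_nonneg_left (by linarith) (Nat.cast_nonneg _)
      _ = M * ((mz ρ : ℝ) / ‖(ρ : ℂ) - 1 / 2‖ ^ 2) := by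
          rw [hM, hr]; ring
  have e4 : W (fun x => g x - c * k x) - W g ≤
      ‖((W (fun x => g x - c * k x) : ℂ) - (W g : ℂ))‖ := by
    rw [← ofReal_sub, norm_real]
    exact le_abs_self _
  have e10 : M * Sg = E * ((2 * |c| * G + c ^ 2 * Sg) * Sg) := by rw [hM]; ring
  linarith

end WKa

open WKa

theorem t_WK (h1 : S_TCB) (h2 : S_EXF) (h3 : S_WTS) (h4 : S_XI0) (h5 : S_TRI) (h6 : S_QU) :
    S_WK := by
  have hSg := Sg_nonneg
  constructor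
  · intro ε hε
    obtain ⟨a₁, ha₁, hk⟩ := h5 (ε / 4) (by positivity)
    refine ⟨max a₁ (Sg ^ 2 / ε), lt_max_of_lt_left ha₁, fun a ha => ?_⟩
    have ha1 : a₁ ≤ a := (le_max_left _ _).trans ha
    have ha2 : Sg ^ 2 / ε ≤ a := (le_max_right _ _).trans ha
    obtain ⟨k, hadm, hb⟩ := hk a ha1
    refine ⟨k, hadm, ?_⟩
    set E : ℝ := Real.exp (-(Real.pi - ε / 4) * Real.exp (2 * a)) with hE
    have q1 := key h2 h3 h4 (Real.exp_pos _).le hadm.1 hb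
    rw [← hE] at q1
    refine q1.trans ?_
    have q2 : Sg ^ 2 ≤ Real.exp (ε / 2 * Real.exp (2 * a)) := by
      have r1 : Sg ^ 2 ≤ a * ε := (div_le_iff₀ hε).1 ha2
      have r2 : 2 * a ≤ Real.exp (2 * a) := by
        have := Real.add_one_le_exp (2 * a)
        linarith
      have r3 := Real.add_one_le_exp (ε / 2 * Real.exp (2 * a))
      have r4 : ε / 2 * (2 * a) ≤ ε / 2 * Real.exp (2 * a) :=
        mul_le_mul_of_nonneg_left r2 (by positivity)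
      linarith
    have q3 : E ^ 2 = Real.exp (-(2 * Real.pi - ε / 2) * Real.exp (2 * a)) := by
      rw [hE, ← Real.exp_nat_mul]
      congr 1
      push_cast
      ring
    calc E ^ 2 * Sg ^ 2 ≤ E ^ 2 * Real.exp (ε / 2 * Real.exp (2 * a)) :=
          mul_le_mul_of_nonneg_left q2 (sq_nonneg _)
      _ = Real.exp (-(2 * Real.pi - ε) * Real.exp (2 * a)) := by
          rw [q3, ← Real.exp_add]
          congr 1
          ring
  · intro b g c ε hb0 hg hε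
    obtain ⟨-, -, hT, -⟩ := h1 b (co g) hb0 (TC_co hg)
    set N : ℝ := ∫ x : ℝ, ‖co g x‖ ^ 2 with hN
    have hN0 : 0 ≤ N := integral_nonneg fun x => sq_nonneg _
    set G : ℝ := Real.sqrt (2 * b * Real.exp b * N) with hG
    have hG0 : 0 ≤ G := Real.sqrt_nonneg _
    have hgb : ∀ z : ℂ, |z.im| ≤ 1 / 2 → ‖Ct (co g) z‖ ≤ G := by
      intro z hz
      refine Real.le_sqrt_of_sq_le ((hT z).trans ?_)
      refine mul_le_mul_of_nonneg_right ?_ hN0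
      refine mul_le_mul_of_nonneg_left ?_ (by positivity)
      refine Real.exp_le_exp.2 ?_
      nlinarith
    set M : ℝ := (2 * |c| * G + c ^ 2 * Sg) * Sg with hM
    have hM0 : 0 ≤ M := by positivity
    obtain ⟨a₁, ha₁, hk⟩ := h5 1 one_pos
    refine ⟨max a₁ (M / ε), lt_max_of_lt_left ha₁, fun a ha => ?_⟩
    have ha1 : a₁ ≤ a := (le_max_left _ _).trans ha
    have ha2 : M / ε ≤ a := (le_max_right _ _).trans ha
    have ha0 : 0 < a := ha₁.trans_le ha1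
    obtain ⟨k, hadm, hb⟩ := hk a ha1
    refine ⟨k, hadm, ?_⟩
    set E : ℝ := Real.exp (-(Real.pi - 1) * Real.exp (2 * a)) with hE
    have hE0 : 0 ≤ E := (Real.exp_pos _).le
    have hx : 0 ≤ Real.exp (2 * a) := (Real.exp_pos _).le
    have hEa : E ≤ Real.exp (-a) := by
      rw [hE]
      refine Real.exp_le_exp.2 ?_
      have r2 := Real.add_one_le_exp (2 * a)
      have r3 := Real.pi_gt_three
      nlinarith
    have hE1 : E ≤ 1 := hEa.trans (by rw [← Real.exp_zero]; exact Real.exp_le_exp.2 (by linarith))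
    have q1 := key2 (c := c) h2 h3 h4 hE0 hE1 hG0 hg hadm.1 hgb hb
    rw [← hM] at q1
    refine q1.trans ?_
    have r1 : M ≤ a * ε := (div_le_iff₀ hε).1 ha2
    have r2 : a * Real.exp (-a) ≤ 1 := by
      rw [Real.exp_neg, ← div_eq_mul_inv, div_le_one (Real.exp_pos _)]
      have := Real.add_one_le_exp a
      linarith
    have r3 : E * M ≤ Real.exp (-a) * (a * ε) := mul_le_mul hEa r1 hM0 (Real.exp_pos _).le
    have r4 : Real.exp (-a) * (a * ε) = a * Real.exp (-a) * ε := by ring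
    have r5 : a * Real.exp (-a) * ε ≤ 1 * ε := mul_le_mul_of_nonneg_right r2 hε.le
    linarith

end

end Pool.Agent.H478.WM
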