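import Pool.Agent.H478.WM.Stm
import Pool.Agent.H480.W2

open Complex MeasureTheory Filter Topology Set
open scoped ContDiff

namespace Pool.Agent.H478.WM

theorem t_WTS : S_WTS := by
  refine ⟨Pool.Agent.H480.W.wt_summable, fun ρ hρ => ?_⟩
  have h : ρ ∈ Pool.Agent.H480.W.NTZ := hρ
  exact ⟨Pool.Agent.H480.W.NTZ_one_sub h, Pool.Agent.H480.W.NTZ_conj h,
    Pool.Agent.H480.W.mz_conj h, Pool.Agent.H480.W.mz_pos h, Pool.Agent.H480.W.NTZ_im h⟩

end Pool.Agent.H478.WM
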