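import Pool.Agent.H478.WM.Stm
import Pool.Graph.R_pool_sql_team_668148b0.Helper88.SE3.P_zeta_half

/-!
# WM-XI0: the function `Xi`
-/

set_option autoImplicit false

open Complex MeasureTheory Filter Topology Set
open scoped ContDiff

namespace Pool.Agent.H478.WM

namespace XI0


/-- `ζ(1/2)` is not zero -/
theorem zeta_half_ne : riemannZeta (1 / 2) ≠ 0 := by
  obtain ⟨z, hz, hlim⟩ := Pool.Agent.Helper88.SE.zeta_half
  have hstep : ∀ M : ℕ, 1 ≤ M → (∑ m ∈ Finset.range M, ((m : ℝ) + 1) ^ (-(1 / 2) : ℝ)) -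
      2 * Real.sqrt M ≤ -1 := by
    intro M hM
    induction M, hM using Nat.le_induction with
    | base => norm_num
    | succ M hM ih =>
      rw [Finset.sum_range_succ]
      have hp : 0 < Real.sqrt ((M : ℝ) + 1) := Real.sqrt_pos.2 (by positivity)
      have ha := Real.sq_sqrt (show (0 : ℝ) ≤ (M : ℝ) + 1 by positivity)
      have hb := Real.sq_sqrt (show (0 : ℝ) ≤ (M : ℝ) by positivity)
      have hc := Real.sqrt_nonneg (M : ℝ)
      have e1 : ((M : ℝ) + 1) ^ (-(1 / 2) : ℝ) = 1 / Real.sqrt ((M : ℝ) + 1) := by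
        rw [Real.rpow_neg (by positivity), ← Real.sqrt_eq_rpow, one_div]
      have e2 : 1 / Real.sqrt ((M : ℝ) + 1) ≤ 2 * (Real.sqrt ((M : ℝ) + 1) - Real.sqrt M) := by
        rw [div_le_iff₀ hp]
        nlinarith [sq_nonneg (Real.sqrt ((M : ℝ) + 1) - Real.sqrt M)]
      rw [e1]
      push_cast
      linarith
  have hle : z ≤ -1 := by
    refine le_of_tendsto hlim ?_
    filter_upwards [eventually_ge_atTop 1] with M hM using hstep M hM
  rw [hz]
  intro h
  have h0 : z = 0 := by exact_mod_cast h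
  linarith

theorem Xi_eq {z : ℂ} (h0 : (1 / 2 : ℂ) + I * z ≠ 0) (h1 : (1 / 2 : ℂ) + I * z ≠ 1) :
    Xi z = (1 / 2 + I * z) * ((1 / 2 + I * z) - 1) * completedRiemannZeta (1 / 2 + I * z) / 2 := by
  unfold Xi
  rw [completedRiemannZeta_eq]
  generalize (1 / 2 : ℂ) + I * z = s at h0 h1 ⊢
  have h2 : 1 - s ≠ 0 := sub_ne_zero.2 (Ne.symm h1)
  field_simp
  ring

theorem Xi_zero_iff (z : ℂ) : Xi z = 0 ↔ 1 / 2 + I * z ∈ NTZ := by
  constructor
  · intro h
    have h0 : (1 / 2 : ℂ) + I * z ≠ 0 := by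
      intro h'
      unfold Xi at h
      rw [h'] at h
      norm_num at h
    have h1 : (1 / 2 : ℂ) + I * z ≠ 1 := by
      intro h'
      unfold Xi at h
      rw [h'] at h
      norm_num at h
    rw [Xi_eq h0 h1] at h
    generalize (1 / 2 : ℂ) + I * z = s at h h0 h1 ⊢
    have h2 : completedRiemannZeta s = 0 := by
      have h3 : s - 1 ≠ 0 := sub_ne_zero.2 h1
      have h4 : s * (s - 1) * completedRiemannZeta s = 0 := by
        linear_combination 2 * h
      rcases mul_eq_zero.1 h4 with h5 | h5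
      · exact absurd h5 (mul_ne_zero h0 h3)
      · exact h5
    have hz : riemannZeta s = 0 := by
      rw [riemannZeta_def_of_ne_zero h0, h2, zero_div]
    have hlt : s.re < 1 := by
      by_contra hge
      exact riemannZeta_ne_zero_of_one_le_re (not_lt.1 hge) hz
    have hgt : 0 < s.re := by
      by_contra hle
      have h5 : 1 ≤ (1 - s).re := by
        rw [sub_re, one_re]
        linarith [not_lt.1 hle]
      have h6 : riemannZeta (1 - s) = 0 := by
        rw [riemannZeta_def_of_ne_zero (sub_ne_zero.2 (Ne.symm h1)), completedRiemannZeta_one_sub,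
          h2, zero_div]
      exact riemannZeta_ne_zero_of_one_le_re h5 h6
    exact ⟨hz, hgt, hlt⟩
  · rintro ⟨hz, hgt, hlt⟩
    have h0 : (1 / 2 : ℂ) + I * z ≠ 0 := by
      intro h
      rw [h, zero_re] at hgt
      exact lt_irrefl _ hgt
    have h1 : (1 / 2 : ℂ) + I * z ≠ 1 := by
      intro h
      rw [h, one_re] at hlt
      exact lt_irrefl _ hlt
    rw [Xi_eq h0 h1]
    have h2 : completedRiemannZeta (1 / 2 + I * z) = 0 := by
      rw [riemannZeta_def_of_ne_zero h0] at hz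
      rcases div_eq_zero_iff.1 hz with h3 | h3
      · exact h3
      · exact absurd h3 (Gammaℝ_ne_zero_of_re_pos hgt)
    rw [h2, mul_zero, zero_div]

theorem Xi_diff : Differentiable ℂ Xi := by
  have h1 : Differentiable ℂ fun z : ℂ => (1 / 2 : ℂ) + I * z :=
    (differentiable_const _).add ((differentiable_const _).mul differentiable_id)
  have h2 : Differentiable ℂ fun z : ℂ => completedRiemannZeta₀ (1 / 2 + I * z) :=
    differentiable_completedZeta₀.comp h1
  exact (((h1.mul (h1.sub_const 1)).mul h2).add_const 1).div_const 2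

theorem Xi_even (z : ℂ) : Xi (-z) = Xi z := by
  unfold Xi
  have h1 : completedRiemannZeta₀ (1 / 2 + I * -z) = completedRiemannZeta₀ (1 / 2 + I * z) := by
    rw [← completedRiemannZeta₀_one_sub (1 / 2 + I * z)]
    congr 1
    ring
  rw [h1]
  ring

theorem Xi_deriv (z : ℂ) (hz : Xi z = 0) :
    deriv Xi z = 0 ↔ deriv riemannZeta (1 / 2 + I * z) = 0 := by
  have hmem := (Xi_zero_iff z).1 hz
  obtain ⟨hz0, hgt, hlt⟩ := hmem
  have h0 : (1 / 2 : ℂ) + I * z ≠ 0 := by
    intro h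
    rw [h, zero_re] at hgt
    exact lt_irrefl _ hgt
  have h1 : (1 / 2 : ℂ) + I * z ≠ 1 := by
    intro h
    rw [h, one_re] at hlt
    exact lt_irrefl _ hlt
  have hsd : HasDerivAt (fun w : ℂ => (1 / 2 : ℂ) + I * w) I z := by
    have h := ((hasDerivAt_id z).const_mul I).const_add (1 / 2 : ℂ)
    rw [mul_one] at h
    exact h
  have hsc : Continuous fun w : ℂ => (1 / 2 : ℂ) + I * w := by fun_prop
  -- the factor
  set k : ℂ → ℂ := fun w => 2 / ((1 / 2 + I * w) * ((1 / 2 + I * w) - 1)) *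
    (Gammaℝ (1 / 2 + I * w))⁻¹ with hk
  have hev : (fun w : ℂ => riemannZeta (1 / 2 + I * w)) =ᶠ[𝓝 z] fun w => Xi w * k w := by
    have e0 : ∀ᶠ w in 𝓝 z, (1 / 2 : ℂ) + I * w ≠ 0 := hsc.continuousAt.eventually_ne h0
    have e1 : ∀ᶠ w in 𝓝 z, (1 / 2 : ℂ) + I * w ≠ 1 := hsc.continuousAt.eventually_ne h1
    filter_upwards [e0, e1] with w hw0 hw1
    rw [hk]
    simp only
    rw [Xi_eq hw0 hw1, riemannZeta_def_of_ne_zero hw0]
    have hw2 : (1 / 2 : ℂ) + I * w - 1 ≠ 0 := sub_ne_zero.2 hw1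
    generalize (1 / 2 : ℂ) + I * w = s at hw0 hw2 ⊢
    rw [div_eq_mul_inv (completedRiemannZeta s)]
    generalize (Gammaℝ s)⁻¹ = g
    field_simp
  have hkd : DifferentiableAt ℂ k z := by
    have d1 : DifferentiableAt ℂ (fun w : ℂ => (1 / 2 + I * w) * ((1 / 2 + I * w) - 1)) z :=
      hsd.differentiableAt.mul (hsd.differentiableAt.sub_const 1)
    have d2 : DifferentiableAt ℂ (fun w : ℂ => (Gammaℝ (1 / 2 + I * w))⁻¹) z :=
      DifferentiableAt.comp (g := fun s : ℂ => (Gammaℝ s)⁻¹)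
        (f := fun w : ℂ => (1 / 2 : ℂ) + I * w) z (differentiable_Gammaℝ_inv (1 / 2 + I * z))
        hsd.differentiableAt
    exact ((differentiableAt_const _).div d1 (mul_ne_zero h0 (sub_ne_zero.2 h1))).mul d2
  have hkz : k z ≠ 0 := by
    rw [hk]
    exact mul_ne_zero (div_ne_zero two_ne_zero (mul_ne_zero h0 (sub_ne_zero.2 h1)))
      (inv_ne_zero (Gammaℝ_ne_zero_of_re_pos hgt))
  have hd1 : deriv (fun w : ℂ => riemannZeta (1 / 2 + I * w)) z =
      deriv riemannZeta (1 / 2 + I * z) * I :=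
    ((differentiableAt_riemannZeta h1).hasDerivAt.comp z hsd).deriv
  have hd2 : deriv (fun w : ℂ => riemannZeta (1 / 2 + I * w)) z = deriv Xi z * k z := by
    rw [hev.deriv_eq, deriv_fun_mul (Xi_diff z) hkd, hz, zero_mul, add_zero]
  rw [hd1] at hd2
  constructor
  · intro h
    rw [h, zero_mul] at hd2
    rcases mul_eq_zero.1 hd2 with h2 | h2
    · exact h2
    · exact absurd h2 I_ne_zero
  · intro h
    rw [h, zero_mul] at hd2
    rcases mul_eq_zero.1 hd2.symm with h2 | h2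
    · exact h2
    · exact absurd h2 hkz

theorem norm_cos_le (w : ℂ) : ‖Complex.cos w‖ ≤ Real.exp ‖w‖ := by
  rw [Complex.cos, norm_div, Complex.norm_two]
  have e : ∀ v : ℂ, ‖v‖ = ‖w‖ → ‖Complex.exp v‖ ≤ Real.exp ‖w‖ := by
    intro v hv
    rw [Complex.norm_exp]
    exact Real.exp_le_exp.2 ((Complex.re_le_norm v).trans hv.le)
  have e1 := e (w * I) (by simp)
  have e2 := e (-w * I) (by simp)
  have e3 := norm_add_le (Complex.exp (w * I)) (Complex.exp (-w * I))
  linarith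

theorem young {x y : ℝ} (hx : 0 ≤ x) (hy : 0 ≤ y) : x * y ≤ x ^ 3 + y ^ (3 / 2 : ℝ) := by
  have h1 : y ^ (3 / 2 : ℝ) = y * Real.sqrt y := by
    rw [show (3 / 2 : ℝ) = 1 + 1 / 2 by norm_num, Real.rpow_add_of_nonneg hy (by norm_num)
      (by norm_num), Real.rpow_one, ← Real.sqrt_eq_rpow]
  rw [h1]
  have h2 := Real.sqrt_nonneg y
  have h3 := Real.sq_sqrt hy
  rcases le_total y (x ^ 2) with h | h
  · have h4 : x * y ≤ x * x ^ 2 := mul_le_mul_of_nonneg_left h hx
    have h5 : 0 ≤ y * Real.sqrt y := by positivity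
    nlinarith
  · have h4 : x ≤ Real.sqrt y := Real.le_sqrt_of_sq_le h
    have h5 : x * y ≤ Real.sqrt y * y := mul_le_mul_of_nonneg_right h4 hy
    have h6 : 0 ≤ x ^ 3 := by positivity
    nlinarith

theorem exp_bound {t : ℝ} (ht : 0 ≤ t) : t ^ 3 - 2 * Real.exp (2 * t) ≤ -t ^ 2 := by
  have h1 := Real.sum_le_exp_of_nonneg (show 0 ≤ 2 * t by linarith) 4
  simp only [Finset.sum_range_succ, Finset.sum_range_zero, Nat.factorial] at h1
  norm_num at h1
  have h2 : 0 ≤ t ^ 2 := by positivity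
  have h3 : 0 ≤ t ^ 3 := by positivity
  nlinarith

theorem Xi_growth (h : S_PHI) :
    ∃ C A : ℝ, ∀ z, ‖Xi z‖ ≤ C * Real.exp (A * ‖z‖ ^ (3 / 2 : ℝ)) := by
  obtain ⟨Φ, -, -, hΦ, hXi⟩ := h
  obtain ⟨C, hC⟩ := hΦ 1 one_pos
  have hC0 : 0 ≤ C := by
    have h1 := hC 0
    have h2 : 0 ≤ |Φ 0| + |deriv Φ 0| + |deriv (deriv Φ) 0| := by positivity
    have h3 : 0 ≤ C * Real.exp (-(Real.pi - 1) * Real.exp (2 * |(0 : ℝ)|)) := h2.trans h1
    by_contra hneg
    have h4 : C * Real.exp (-(Real.pi - 1) * Real.exp (2 * |(0 : ℝ)|)) < 0 :=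
      mul_neg_of_neg_of_pos (not_le.1 hneg) (Real.exp_pos _)
    linarith
  have hint : Integrable fun x : ℝ => Real.exp (-1 * x ^ 2) := integrable_exp_neg_mul_sq one_pos
  refine ⟨C * ∫ x : ℝ, Real.exp (-1 * x ^ 2), 1, fun z => ?_⟩
  rw [hXi z, one_mul, mul_assoc, mul_comm (∫ x : ℝ, Real.exp (-1 * x ^ 2)), ← mul_assoc,
    ← integral_const_mul]
  refine norm_integral_le_of_norm_le (hint.const_mul _) (Filter.Eventually.of_forall fun x => ?_)
  rw [norm_mul, Complex.norm_real, Real.norm_eq_abs]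
  have h1 : |Φ x| ≤ C * Real.exp (-(Real.pi - 1) * Real.exp (2 * |x|)) := by
    refine le_trans ?_ (hC x)
    have := abs_nonneg (deriv Φ x)
    have := abs_nonneg (deriv (deriv Φ) x)
    linarith
  have h2 : ‖Complex.cos (z * x)‖ ≤ Real.exp (|x| ^ 3 + ‖z‖ ^ (3 / 2 : ℝ)) := by
    refine (norm_cos_le _).trans (Real.exp_le_exp.2 ?_)
    rw [norm_mul, Complex.norm_real, Real.norm_eq_abs, mul_comm]
    exact young (abs_nonneg x) (norm_nonneg z)
  refine (mul_le_mul h1 h2 (norm_nonneg _) (by positivity)).trans ?_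
  rw [mul_assoc, ← Real.exp_add, mul_assoc C, ← Real.exp_add]
  refine mul_le_mul_of_nonneg_left (Real.exp_le_exp.2 ?_) hC0
  have h3 := exp_bound (abs_nonneg x)
  have h4 : 2 ≤ Real.pi - 1 := by linarith [Real.pi_gt_three]
  have h5 := mul_le_mul_of_nonneg_right h4 (Real.exp_pos (2 * |x|)).le
  rw [sq_abs] at h3
  linarith

end XI0

open XI0 in
theorem t_XI0 (h1 : S_PHI) : S_XI0 := by
  refine ⟨Xi_diff, Xi_even, ?_, Xi_growth h1, Xi_zero_iff, Xi_deriv⟩
  intro h
  have h2 := ((Xi_zero_iff 0).1 h).1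
  rw [mul_zero, add_zero] at h2
  exact zeta_half_ne h2

end Pool.Agent.H478.WM

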