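import Pool.Agent.H478.WM.Stm

/-!
# Project WM: enumeration of the zeros of the minimiser (helper271 for helper478)
-/

open Complex MeasureTheory Filter Topology Set
open scoped ContDiff

namespace Pool.Agent.H478.WM.ZEN

/-- the positive zeros below `x` -/
def Ax (f : ℂ → ℂ) (x : ℝ) : Set ℝ := {y : ℝ | 0 < y ∧ f y = 0 ∧ y < x}

theorem Ax_finite (f : ℂ → ℂ) (hf : Differentiable ℂ f) (h1 : f 0 = 1) (x : ℝ) : (Ax f x).Finite := by
  by_contra hinf
  have hinf' : (Ax f x).Infinite := hinf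
  have hsub : Ax f x ⊆ Set.Icc 0 x := fun y hy => ⟨hy.1.le, hy.2.2.le⟩
  obtain ⟨z, _, hz⟩ := hinf'.exists_accPt_of_subset_isCompact isCompact_Icc hsub
  have hfr : ∃ᶠ y in 𝓝[≠] z, y ∈ Ax f x := accPt_iff_frequently_nhdsNE.1 hz
  have ht : Tendsto (fun y : ℝ => (y : ℂ)) (𝓝[≠] z) (𝓝[≠] (z : ℂ)) := by
    refine tendsto_nhdsWithin_of_tendsto_nhds_of_eventually_within _ ?_ ?_
    · exact (Complex.continuous_ofReal.tendsto z).mono_left nhdsWithin_le_nhds
    · filter_upwards [self_mem_nhdsWithin] with y hy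
      exact fun h => hy (Complex.ofReal_injective h)
  have hfr2 : ∃ᶠ w in 𝓝[≠] (z : ℂ), f w = 0 := by
    refine ht.frequently ?_
    exact hfr.mono fun y hy => hy.2.1
  have han : AnalyticOnNhd ℂ f Set.univ := fun w _ => hf.analyticAt w
  have h0 := han.eqOn_zero_of_preconnected_of_frequently_eq_zero isPreconnected_univ (Set.mem_univ (z : ℂ)) hfr2
  have h2 : f 0 = 0 := h0 (Set.mem_univ 0)
  rw [h1] at h2
  exact one_ne_zero h2

theorem N_lt (f : ℂ → ℂ) (hf : Differentiable ℂ f) (h1 : f 0 = 1) (x y : ℝ) (hx : 0 < x) (hfx : f x = 0)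
    (hxy : x < y) : (Ax f x).ncard < (Ax f y).ncard := by
  refine Set.ncard_lt_ncard ?_ (Ax_finite f hf h1 y)
  refine ⟨fun z hz => ⟨hz.1, hz.2.1, hz.2.2.trans hxy⟩, fun h => ?_⟩
  have := (h (⟨hx, hfx, hxy⟩ : x ∈ Ax f y)).2.2
  exact lt_irrefl _ this

theorem N_inj (f : ℂ → ℂ) (hf : Differentiable ℂ f) (h1 : f 0 = 1) (x y : ℝ) (hx : 0 < x) (hfx : f x = 0)
    (hy : 0 < y) (hfy : f y = 0) (h : (Ax f x).ncard = (Ax f y).ncard) : x = y := by
  rcases lt_trichotomy x y with h2 | h2 | h2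
  · exact absurd h (N_lt f hf h1 x y hx hfx h2).ne
  · exact h2
  · exact absurd h (N_lt f hf h1 y x hy hfy h2).ne'

theorem gamma_lt (f : ℂ → ℂ) (γ : ℕ → ℝ) (hf : Differentiable ℂ f) (h1 : f 0 = 1) (hγ : StrictMono γ)
    (hlow : ∀ x : ℝ, 0 < x → f x = 0 → ∃ n, γ n < x)
    (hint : ∀ x y : ℝ, 0 < x → x < y → f x = 0 → f y = 0 → ∃ n, x < γ n ∧ γ n < y) :
    ∀ (n : ℕ) (x : ℝ), 0 < x → f x = 0 → (Ax f x).ncard = n → γ n < x := by
  intro n
  induction n with
  | zero =>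
    intro x hx hfx _
    obtain ⟨m, hm⟩ := hlow x hx hfx
    exact (hγ.monotone (Nat.zero_le m)).trans_lt hm
  | succ n ih =>
    intro x hx hfx hn
    have hfin := Ax_finite f hf h1 x
    have hne : (Ax f x).Nonempty := by
      rw [← Set.ncard_pos hfin]
      omega
    obtain ⟨y, hy, hmax⟩ := Set.exists_max_image (Ax f x) id hfin hne
    have hyN : (Ax f y).ncard = n := by
      have h2 : Ax f x = insert y (Ax f y) := by
        ext z
        constructor
        · intro hz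
          rcases eq_or_lt_of_le (hmax z hz) with h3 | h3
          · exact Or.inl h3
          · exact Or.inr ⟨hz.1, hz.2.1, h3⟩
        · rintro (h3 | h3)
          · rw [h3]
            exact hy
          · exact ⟨h3.1, h3.2.1, h3.2.2.trans hy.2.2⟩
      rw [h2, Set.ncard_insert_of_notMem (fun h => lt_irrefl _ h.2.2) (Ax_finite f hf h1 y)] at hn
      omega
    have h3 := ih y hy.1 hy.2.1 hyN
    obtain ⟨m, hm1, hm2⟩ := hint y x hy.1 hy.2.2 hy.2.1 hfx
    have h4 : n < m := hγ.lt_iff_lt.1 (h3.trans hm1)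
    exact (hγ.monotone h4).trans_lt hm2

open Classical in
theorem t_ZEN : S_ZEN := by
  intro f γ hf heven h1 hreal hγ hpos hlow hint
  have hP : ∀ n : ℕ, ∃ w : ℝ, 0 ≤ w ∧ ((∃ x : ℝ, 0 < x ∧ f x = 0 ∧ (Ax f x).ncard = n ∧ w = 1 / x ^ 2) ∨
      ((∀ x : ℝ, 0 < x → f x = 0 → (Ax f x).ncard ≠ n) ∧ w = 0)) := by
    intro n
    by_cases h : ∃ x : ℝ, 0 < x ∧ f x = 0 ∧ (Ax f x).ncard = n
    · obtain ⟨x, hx1, hx2, hx3⟩ := h
      exact ⟨1 / x ^ 2, by positivity, Or.inl ⟨x, hx1, hx2, hx3, rfl⟩⟩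
    · refine ⟨0, le_rfl, Or.inr ⟨fun x hx1 hx2 hx3 => h ⟨x, hx1, hx2, hx3⟩, rfl⟩⟩
  choose v hv0 hv using hP
  have hx_of : ∀ n, v n ≠ 0 → ∃ x : ℝ, 0 < x ∧ f x = 0 ∧ (Ax f x).ncard = n ∧ v n = 1 / x ^ 2 := by
    intro n hn
    rcases hv n with h | ⟨_, h⟩
    · exact h
    · exact absurd h hn
  refine ⟨v, fun n => ⟨hv0 n, ?_⟩, ?_, ?_⟩
  · rcases hv n with ⟨x, hx1, hx2, hx3, hx4⟩ | ⟨_, h⟩
    · have h2 := gamma_lt f γ hf h1 hγ hlow hint n x hx1 hx2 hx3
      rw [hx4, one_div, inv_mul_lt_iff₀ (by positivity), mul_one]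
      have := hpos n
      exact pow_lt_pow_left₀ h2 this.le (by norm_num)
    · rw [h, zero_mul]
      exact one_pos
  · intro m n hm hmn
    obtain ⟨x, hx1, hx2, hx3, hx4⟩ := hx_of m hm
    obtain ⟨y, hy1, hy2, hy3, hy4⟩ := hx_of n (hmn ▸ hm)
    rw [hx4, hy4, one_div, one_div, inv_inj] at hmn
    have hxy : x = y := by
      have := (pow_left_inj₀ hx1.le hy1.le (by norm_num : (2 : ℕ) ≠ 0)).1 hmn
      exact this
    rw [← hx3, ← hy3, hxy]
  · intro z
    constructor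
    · intro hz
      have him := hreal z hz
      have hzt : z = ((z.re : ℝ) : ℂ) := by
        apply Complex.ext
        · simp
        · simp [him]
      have hne : z.re ≠ 0 := by
        intro h
        rw [hzt, h, Complex.ofReal_zero, h1] at hz
        exact one_ne_zero hz
      have habs : f ((|z.re| : ℝ) : ℂ) = 0 := by
        rcases abs_choice z.re with h | h
        · rw [h, ← hzt]
          exact hz
        · rw [h, Complex.ofReal_neg, heven, ← hzt]
          exact hz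
      have hpos2 : 0 < |z.re| := abs_pos.2 hne
      refine ⟨(Ax f |z.re|).ncard, ?_⟩
      rcases hv (Ax f |z.re|).ncard with ⟨x, hx1, hx2, hx3, hx4⟩ | ⟨h, _⟩
      · have hx : x = |z.re| := N_inj f hf h1 x _ hx1 hx2 hpos2 habs hx3
        rw [hx4, hx]
        refine ⟨by positivity, ?_⟩
        have h5 : (z : ℂ) ^ 2 = ((|z.re| ^ 2 : ℝ) : ℂ) := by
          rw [sq_abs]
          conv_lhs => rw [hzt]
          push_cast
          rfl
        rw [h5, ← Complex.ofReal_mul]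
        have h6 : 1 / |z.re| ^ 2 * |z.re| ^ 2 = 1 := by
          rw [one_div]
          exact inv_mul_cancel₀ (by positivity)
        rw [h6, Complex.ofReal_one]
      · exact absurd rfl (h _ hpos2 habs)
    · rintro ⟨n, hn, hz⟩
      obtain ⟨x, hx1, hx2, hx3, hx4⟩ := hx_of n hn
      have h7 : z ^ 2 = (x : ℂ) ^ 2 := by
        rw [hx4] at hz
        push_cast at hz
        have hxc : (x : ℂ) ^ 2 ≠ 0 := by
          have : (x : ℂ) ≠ 0 := by exact_mod_cast hx1.ne'
          exact pow_ne_zero 2 this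
        rw [one_div, inv_mul_eq_div, div_eq_one_iff_eq hxc] at hz
        exact hz
      rcases sq_eq_sq_iff_eq_or_eq_neg.1 h7 with h8 | h8
      · rw [h8]
        exact hx2
      · rw [h8, heven]
        exact hx2

end Pool.Agent.H478.WM.ZEN
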