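import Pool.Agent.H478.WM.Asm4
import Pool.Agent.H478.WM.TCB
import Pool.Agent.H478.WM.SUM
import Pool.Agent.H478.WM.L2A
import Pool.Agent.H478.WM.PL
import Pool.Agent.H478.WM.GRID
import Pool.Agent.H478.WM.UNI
import Pool.Agent.H478.WM.CPT
import Pool.Agent.H478.WM.COE
import Pool.Agent.H478.WM.CAU
import Pool.Agent.H478.WM.HE
import Pool.Agent.H478.WM.LIN
import Pool.Agent.H478.WM.NZ
import Pool.Agent.H478.WM.ODE
import Pool.Agent.H478.WM.EX
import Pool.Agent.H478.WM.MINA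
import Pool.Agent.H478.WM.MINB
import Pool.Agent.H478.WM.MINC
import Pool.Agent.H478.WM.MIND
import Pool.Agent.H478.WM.ORT1
import Pool.Agent.H478.WM.ORT2
import Pool.Agent.H478.WM.NV
import Pool.Agent.H478.WM.RZ
import Pool.Agent.H478.WM.LT
import Pool.Agent.H478.WM.IL
import Pool.Agent.H478.WM.ENUM
import Pool.Agent.H478.WM.HAD
import Pool.Agent.H478.WM.ZEN
import Pool.Agent.H478.WM.LB
import Pool.Agent.H478.WM.PC
import Pool.Agent.H478.WM.RT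
import Pool.Agent.H478.WM.PSIM
import Pool.Agent.H478.WM.EXF
import Pool.Agent.H478.WM.WTS
import Pool.Agent.H478.WM.GAP
import Pool.Agent.H478.WM.SYS
import Pool.Agent.H478.WM.PHA
import Pool.Agent.H478.WM.PHB
import Pool.Agent.H478.WM.PHC
import Pool.Agent.H478.WM.PHI
import Pool.Agent.H478.WM.XI0
import Pool.Agent.H478.WM.TRI
import Pool.Agent.H478.WM.QU
import Pool.Agent.H478.WM.WK
import Pool.Agent.H478.WM.NEG

/-!
# Project WM: everything together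
-/

open Complex MeasureTheory Filter Topology Set
open scoped ContDiff

namespace Pool.Agent.H478.WM

theorem f_SUM : S_SUM := t_SUM t_TCB
theorem f_COE : S_COE := t_COE t_TCB f_SUM t_PL t_GRID t_UNI t_CPT
theorem f_CAU : S_CAU := t_CAU t_TCB f_SUM t_L2A f_COE
theorem f_HE : S_HE := t_HE t_TCB f_SUM t_L2A f_COE
theorem f_LIN : S_LIN := LIN.t_LIN f_SUM t_L2A
theorem f_EX : S_EX := t_EX t_TCB f_SUM t_L2A f_HE t_NZ t_ODE
theorem f_MINA : S_MINA := t_MINA t_TCB f_SUM t_L2A f_CAU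
theorem f_MINB : S_MINB := t_MINB t_TCB f_SUM t_L2A f_COE
theorem f_MINC : S_MINC := t_MINC t_TCB f_SUM t_L2A f_HE t_UNI
theorem f_MIND : S_MIND := t_MIND t_TCB f_SUM t_L2A f_HE f_MINC
theorem f_ORT1 : S_ORT1 := t_ORT1 t_L2A f_HE f_LIN f_EX
theorem f_ORT2 : S_ORT2 := t_ORT2 t_L2A f_HE f_LIN f_EX
theorem f_NV : S_NV := t_NV f_HE t_UNI
theorem f_RZ : S_RZ := t_RZ f_ORT1 f_NV
theorem f_LT : S_LT := t_LT f_ORT1 f_NV
theorem f_IL : S_IL := IL.t_IL f_HE f_ORT2 f_NV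
theorem f_PC : S_PC := t_PC t_LB
theorem f_RT : S_RT := t_RT t_L2A f_HE f_ORT1 t_LB
theorem f_SYS : S_SYS := t_SYS t_TCB t_EXF t_WTS t_GAP
theorem f_PHC : S_PHC := t_PHC t_PHA t_PHB
theorem f_PHI : S_PHI := t_PHI t_PHA t_PHB f_PHC
theorem f_XI0 : S_XI0 := t_XI0 f_PHI
theorem f_TRI : S_TRI := t_TRI f_PHI f_XI0
theorem f_QU : S_QU := QU.t_QU t_EXF t_WTS
theorem f_WK : S_WK := t_WK t_TCB t_EXF t_WTS f_XI0 f_TRI f_QU
theorem f_NEG : S_NEG := t_NEG t_EXF t_WTS f_WK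

end Pool.Agent.H478.WM
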