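import Pool.Agent.H478.WM.Stm2

set_option autoImplicit false
open Complex MeasureTheory Filter Topology Set Asymptotics
open scoped ContDiff

namespace Pool.Agent.H478.WM.MEL

open Pool.Agent.H478.WM

noncomputable section

/-- the periodised function -/
def pf (h : ℝ → ℝ) (x : ℝ) : ℂ := ((∑' n : ℕ, h (((n : ℝ) + 1) * x) : ℝ) : ℂ)

lemma exp_cpow (u : ℝ) (w : ℂ) : ((Real.exp u : ℝ) : ℂ) ^ w = cexp (w * u) := by
  rw [Complex.ofReal_exp, Complex.cpow_def_of_ne_zero (Complex.exp_ne_zero _),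
    Complex.log_exp (by simp [Real.pi_pos]) (by simp [Real.pi_pos.le]), mul_comm]

lemma kern (f : ℝ → ℂ) (s : ℂ) (u : ℝ) :
    |Real.exp u| • (((Real.exp u : ℝ) : ℂ) ^ (s - 1) • f (Real.exp u)) =
      f (Real.exp u) * cexp (s * u) := by
  rw [exp_cpow, abs_of_pos (Real.exp_pos u), smul_eq_mul, Complex.real_smul, Complex.ofReal_exp]
  have : cexp (s * u) = cexp u * cexp ((s - 1) * u) := by
    rw [← Complex.exp_add]
    congr 1
    ring
  rw [this]
  ring

lemma range_exp' : Real.exp '' Set.univ = Ioi (0 : ℝ) := by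
  rw [Set.image_univ, Real.range_exp]

lemma mellin_line (f : ℝ → ℂ) (s : ℂ) :
    mellin f s = ∫ u : ℝ, f (Real.exp u) * cexp (s * u) := by
  have h := integral_image_eq_integral_abs_deriv_smul (s := Set.univ) (f := Real.exp)
    (f' := Real.exp) MeasurableSet.univ (fun x _ => (Real.hasDerivAt_exp x).hasDerivWithinAt)
    Real.exp_injective.injOn (fun t : ℝ => (t : ℂ) ^ (s - 1) • f t)
  rw [range_exp', setIntegral_univ] at h
  rw [mellin, h]
  exact integral_congr_ae (ae_of_all _ fun u => kern f s u)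

lemma mellin_int (f : ℝ → ℂ) (s : ℂ) (h : MellinConvergent f s) :
    Integrable fun u : ℝ => f (Real.exp u) * cexp (s * u) := by
  have h' := (integrableOn_image_iff_integrableOn_abs_deriv_smul (s := Set.univ) (f := Real.exp)
    (f' := Real.exp) MeasurableSet.univ (fun x _ => (Real.hasDerivAt_exp x).hasDerivWithinAt)
    Real.exp_injective.injOn (fun t : ℝ => (t : ℂ) ^ (s - 1) • f t)).1 (by
      rw [range_exp']
      exact h)
  rw [integrableOn_univ] at h'
  refine h'.congr (ae_of_all _ fun u => kern f s u)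

section one

variable {l : ℝ} {h : ℝ → ℝ} (hs : ContDiff ℝ ∞ h) (hsup : ∀ x, l < |x| → h x = 0)

include hsup in
lemma fin_sum {x₀ : ℝ} (h0 : 0 < x₀) : ∃ N : ℕ, ∀ x : ℝ, x₀ < x →
    (∑' n : ℕ, h (((n : ℝ) + 1) * x)) = ∑ n ∈ Finset.range N, h (((n : ℝ) + 1) * x) ∧
    ∀ n : ℕ, N ≤ n → h (((n : ℝ) + 1) * x) = 0 := by
  obtain ⟨N, hN⟩ := exists_nat_gt (l / x₀)
  refine ⟨N, fun x hx => ?_⟩
  have hz : ∀ n : ℕ, N ≤ n → h (((n : ℝ) + 1) * x) = 0 := by
    intro n hn
    apply hsup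
    rw [div_lt_iff₀ h0] at hN
    have hn' : (N : ℝ) ≤ n := by exact_mod_cast hn
    have hx0 : 0 < x := h0.trans hx
    rw [abs_of_pos (by positivity)]
    have h1 : (N : ℝ) * x₀ ≤ (n : ℝ) * x := by gcongr
    nlinarith
  refine ⟨?_, hz⟩
  apply tsum_eq_sum
  intro n hn
  exact hz n (by simpa using hn)

include hs hsup in
lemma sum_cont {x₀ : ℝ} (h0 : 0 < x₀) :
    ContinuousAt (fun x : ℝ => ∑' n : ℕ, h (((n : ℝ) + 1) * x)) x₀ := by
  obtain ⟨N, hN⟩ := fin_sum hsup (half_pos h0)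
  have hc : Continuous fun x : ℝ => ∑ n ∈ Finset.range N, h (((n : ℝ) + 1) * x) :=
    continuous_finsetSum _ fun n _ => hs.continuous.comp (by fun_prop)
  refine hc.continuousAt.congr ?_
  filter_upwards [lt_mem_nhds (half_lt_self h0)] with x hx
  exact (hN x hx).1.symm

include hs hsup in
lemma Th_cont : Continuous (Th h) := by
  unfold Th
  apply Continuous.mul (by fun_prop)
  rw [continuous_iff_continuousAt]
  intro u
  exact ContinuousAt.comp (f := Real.exp) (g := fun x : ℝ => ∑' n : ℕ, h (((n : ℝ) + 1) * x))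
    (sum_cont hs hsup (Real.exp_pos u)) Real.continuous_exp.continuousAt

include hs hsup in
lemma pf_contOn : ContinuousOn (pf h) (Ioi 0) := by
  intro x hx
  exact (Complex.continuous_ofReal.continuousAt.comp (sum_cont hs hsup hx)).continuousWithinAt

include hs hsup in
lemma pf_li : LocallyIntegrableOn (pf h) (Ioi 0) :=
  (pf_contOn hs hsup).locallyIntegrableOn measurableSet_Ioi

include hsup in
lemma pf_top (a : ℝ) : (pf h) =O[atTop] (fun x : ℝ => x ^ (-a)) := by
  refine EventuallyEq.trans_isBigO (f₂ := fun _ => (0 : ℂ)) ?_ (isBigO_zero _ _)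
  filter_upwards [eventually_gt_atTop (max l 0)] with x hx
  have hx0 : 0 < x := (le_max_right _ _).trans_lt hx
  have hxl : l < x := (le_max_left _ _).trans_lt hx
  unfold pf
  rw [show (∑' n : ℕ, h (((n : ℝ) + 1) * x)) = 0 from ?_]
  · simp
  · convert tsum_zero with n
    apply hsup
    rw [abs_of_pos (by positivity)]
    have : (0 : ℝ) ≤ n := by positivity
    nlinarith

include hsup in
lemma h_top (a : ℝ) : (fun x : ℝ => (h x : ℂ)) =O[atTop] (fun x : ℝ => x ^ (-a)) := by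
  refine EventuallyEq.trans_isBigO (f₂ := fun _ => (0 : ℂ)) ?_ (isBigO_zero _ _)
  filter_upwards [eventually_gt_atTop (max l 0)] with x hx
  have hx0 : 0 < x := (le_max_right _ _).trans_lt hx
  have hxl : l < x := (le_max_left _ _).trans_lt hx
  rw [hsup x (by rwa [abs_of_pos hx0])]
  simp

include hs in
lemma h_bot : (fun x : ℝ => (h x : ℂ)) =O[𝓝[>] 0] (fun x : ℝ => x ^ (-(0 : ℝ))) := by
  have h1 : (fun x : ℝ => (h x : ℂ)) =O[𝓝 0] (fun _ : ℝ => (1 : ℝ)) :=
    (Complex.continuous_ofReal.comp hs.continuous).continuousAt.isBigO_one ℝ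
  refine (h1.mono nhdsWithin_le_nhds).congr_right ?_
  intro x
  simp

include hs in
lemma h_li : LocallyIntegrableOn (fun x : ℝ => (h x : ℂ)) (Ioi 0) :=
  ((Complex.continuous_ofReal.comp hs.continuous).continuousOn).locallyIntegrableOn
    measurableSet_Ioi

include hs hsup in
lemma h_diff {s : ℂ} (h0 : 0 < s.re) : DifferentiableAt ℂ (mellin fun x : ℝ => (h x : ℂ)) s :=
  mellin_differentiableAt_of_isBigO_rpow (h_li hs) (h_top hsup (s.re + 1)) (by linarith)
    (h_bot hs) h0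

include hs hsup in
lemma h_conv {s : ℂ} (h0 : 0 < s.re) : MellinConvergent (fun x : ℝ => (h x : ℂ)) s :=
  mellinConvergent_of_isBigO_rpow (h_li hs) (h_top hsup (s.re + 1)) (by linarith)
    (h_bot hs) h0

include hs hsup in
/-- the series identity for `Re s > 1` -/
lemma series {s : ℂ} (h1 : 1 < s.re) :
    mellin (pf h) s = riemannZeta s * mellin (fun x : ℝ => (h x : ℂ)) s := by
  have hconv := h_conv hs hsup (s := s) (by linarith)
  set F : ℕ → ℝ → ℂ := fun n x => (x : ℂ) ^ (s - 1) • ((h (((n : ℝ) + 1) * x) : ℝ) : ℂ) with hF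
  have hint : ∀ n : ℕ, Integrable (F n) (volume.restrict (Ioi 0)) := by
    intro n
    have := (MellinConvergent.comp_mul_left (f := fun x : ℝ => (h x : ℂ)) (s := s)
      (a := (n : ℝ) + 1) (by positivity)).2 hconv
    exact this
  have hnorm : ∀ n : ℕ, ∫ x in Ioi (0 : ℝ), ‖F n x‖ =
      (1 / ((n : ℝ) + 1) ^ s.re) * ∫ x in Ioi (0 : ℝ), x ^ (s.re - 1) * |h x| := by
    intro n
    have hb : (0 : ℝ) < (n : ℝ) + 1 := by positivity
    have h2 := integral_comp_mul_left_Ioi (fun x : ℝ => x ^ (s.re - 1) * |h x|) 0 hb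
    rw [mul_zero, smul_eq_mul] at h2
    have h3 : ∀ x ∈ Ioi (0 : ℝ), ‖F n x‖ = (((n : ℝ) + 1) ^ (s.re - 1))⁻¹ *
        ((((n : ℝ) + 1) * x) ^ (s.re - 1) * |h (((n : ℝ) + 1) * x)|) := by
      intro x hx
      have hx' : 0 < x := hx
      rw [hF]
      simp only
      rw [norm_smul, Complex.norm_cpow_eq_rpow_re_of_pos hx', Complex.norm_real, Real.norm_eq_abs,
        Real.mul_rpow hb.le hx'.le, Complex.sub_re, Complex.one_re]
      have : (((n : ℝ) + 1) ^ (s.re - 1)) ≠ 0 := (Real.rpow_pos_of_pos hb _).ne'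
      field_simp
    rw [setIntegral_congr_fun measurableSet_Ioi h3, integral_const_mul, h2, ← mul_assoc]
    congr 1
    rw [Real.rpow_sub_one hb.ne']
    have : (((n : ℝ) + 1) ^ s.re) ≠ 0 := (Real.rpow_pos_of_pos hb _).ne'
    field_simp
  have hsumm : Summable fun n : ℕ => ∫ x in Ioi (0 : ℝ), ‖F n x‖ := by
    simp only [hnorm]
    apply Summable.mul_right
    have h4 := (summable_nat_add_iff 1).2 (Real.summable_one_div_nat_rpow.2 h1)
    simpa using h4
  have h5 := hasSum_integral_of_summable_integral_norm hint hsumm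
  have h6 : ∫ x in Ioi (0 : ℝ), ∑' n : ℕ, F n x = mellin (pf h) s := by
    rw [mellin]
    apply setIntegral_congr_fun measurableSet_Ioi
    intro x _
    simp only [hF, pf, smul_eq_mul]
    rw [tsum_mul_left, Complex.ofReal_tsum]
  have h7 : ∀ n : ℕ, ∫ x in Ioi (0 : ℝ), F n x =
      (1 / ((n : ℂ) + 1) ^ s) * mellin (fun x : ℝ => (h x : ℂ)) s := by
    intro n
    have h8 := mellin_comp_mul_left (fun x : ℝ => (h x : ℂ)) s (a := (n : ℝ) + 1) (by positivity)
    rw [smul_eq_mul, Complex.cpow_neg] at h8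
    push_cast at h8
    rw [one_div]
    rw [← h8]
    rfl
  rw [h6] at h5
  rw [← h5.tsum_eq]
  simp only [h7]
  rw [tsum_mul_right, zeta_eq_tsum_one_div_nat_add_one_cpow h1]

/-- `(s - 1) ζ(s)`, for `Re s > 0` -/
def ZZ (s : ℂ) : ℂ := ((s - 1) * completedRiemannZeta₀ s - (s - 1) / s + 1) * (Gammaℝ s)⁻¹

lemma ZZ_eq {s : ℂ} (h0 : s ≠ 0) (h1 : s ≠ 1) : ZZ s = (s - 1) * riemannZeta s := by
  rw [ZZ, riemannZeta_def_of_ne_zero h0, completedRiemannZeta_eq]
  have h2 : (1 - s) ≠ 0 := sub_ne_zero.2 (Ne.symm h1)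
  have h3 : (s - 1) * (1 / (1 - s)) = -1 := by
    field_simp
    ring
  have h4 : (s - 1) * ((completedRiemannZeta₀ s - 1 / s - 1 / (1 - s)) / Gammaℝ s) =
      ((s - 1) * completedRiemannZeta₀ s - (s - 1) / s - (s - 1) * (1 / (1 - s))) *
        (Gammaℝ s)⁻¹ := by ring
  rw [h4, h3, sub_neg_eq_add]

lemma ZZ_diff {s : ℂ} (h0 : s ≠ 0) : DifferentiableAt ℂ ZZ s := by
  unfold ZZ
  have h1 : DifferentiableAt ℂ completedRiemannZeta₀ s := differentiable_completedZeta₀ s
  have h2 : DifferentiableAt ℂ (fun s => (Gammaℝ s)⁻¹) s := differentiable_Gammaℝ_inv s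
  have h3 : DifferentiableAt ℂ (fun s : ℂ => (s - 1) / s) s :=
    ((differentiableAt_id).sub_const 1).div differentiableAt_id h0
  exact (((((differentiableAt_id).sub_const 1).mul h1).sub h3).add_const 1).mul h2

end one

/-- boundedness at zero -/
lemma pf_bot {l : ℝ} {h : ℝ → ℝ} (h1 : S_POI) (hs : ContDiff ℝ ∞ h) (he : ∀ x, h (-x) = h x)
    (hsup : ∀ x, l < |x| → h x = 0) (h0 : h 0 = 0) (hi : ∫ x : ℝ, h x = 0) :
    (pf h) =O[𝓝[>] 0] (fun x : ℝ => x ^ (-(0 : ℝ))) := by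
  obtain ⟨hp, hk⟩ := h1 l h hs he hsup h0 hi
  obtain ⟨C, hC⟩ := hk 2
  have hC0 : 0 ≤ C := by
    have := hC 1 one_pos
    rw [one_pow, div_one] at this
    exact (abs_nonneg _).trans this
  set K : ℝ := ∑' n : ℕ, 1 / ((n : ℝ) + 1) ^ 2 with hK
  have hKs : Summable fun n : ℕ => 1 / ((n : ℝ) + 1) ^ 2 := by
    have h4 := (summable_nat_add_iff 1).2 (Real.summable_one_div_nat_pow.2 one_lt_two)
    simpa using h4
  have hK0 : 0 ≤ K := tsum_nonneg fun n => by positivity
  refine IsBigO.of_bound (C * K) ?_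
  have hmem : Ioo (0 : ℝ) 1 ∈ 𝓝[>] (0 : ℝ) := Ioo_mem_nhdsGT one_pos
  filter_upwards [hmem] with x hx
  have hx0 := hx.1
  have hx1 := hx.2
  rw [neg_zero, Real.rpow_zero, norm_one, mul_one]
  have h2 := hp (Real.log x)
  unfold Th at h2
  rw [Real.exp_log hx0, Real.exp_neg, Real.exp_log hx0] at h2
  have h3 : |∑' n : ℕ, hc h (((n : ℝ) + 1) * x⁻¹)| ≤ C * K * x ^ 2 := by
    have h5 : ∀ n : ℕ, ‖hc h (((n : ℝ) + 1) * x⁻¹)‖ ≤ (1 / ((n : ℝ) + 1) ^ 2) * (C * x ^ 2) := by
      intro n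
      have h6 := hC (((n : ℝ) + 1) * x⁻¹) (by positivity)
      rw [Real.norm_eq_abs]
      refine h6.trans_eq ?_
      field_simp
    have h7 : Summable fun n : ℕ => (1 / ((n : ℝ) + 1) ^ 2) * (C * x ^ 2) := hKs.mul_right _
    have h8 := tsum_of_norm_bounded h7.hasSum h5
    rw [tsum_mul_right, ← hK, Real.norm_eq_abs] at h8
    linarith
  have hE : Real.exp (Real.log x / 2) = Real.sqrt x := by
    rw [Real.sqrt_eq_rpow, Real.rpow_def_of_pos hx0]
    congr 1
    ring
  have hE' : Real.exp (-Real.log x / 2) = (Real.sqrt x)⁻¹ := by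
    rw [← hE, ← Real.exp_neg]
    congr 1
    ring
  rw [hE, hE'] at h2
  have hsq : 0 < Real.sqrt x := Real.sqrt_pos.2 hx0
  have h9 : (∑' n : ℕ, h (((n : ℝ) + 1) * x)) = x⁻¹ * ∑' n : ℕ, hc h (((n : ℝ) + 1) * x⁻¹) := by
    have h10 : x = Real.sqrt x * Real.sqrt x := (Real.mul_self_sqrt hx0.le).symm
    have h11 : (∑' n : ℕ, h (((n : ℝ) + 1) * x)) =
        (Real.sqrt x)⁻¹ * (Real.sqrt x * ∑' n : ℕ, h (((n : ℝ) + 1) * x)) := by
      rw [inv_mul_cancel_left₀ hsq.ne']
    rw [h11, h2, ← mul_assoc, ← mul_inv, ← h10]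
  unfold pf
  rw [Complex.norm_real, Real.norm_eq_abs, h9, abs_mul, abs_of_pos (inv_pos.2 hx0)]
  calc x⁻¹ * |∑' n : ℕ, hc h (((n : ℝ) + 1) * x⁻¹)| ≤ x⁻¹ * (C * K * x ^ 2) :=
        mul_le_mul_of_nonneg_left h3 (inv_pos.2 hx0).le
    _ = C * K * x := by field_simp
    _ ≤ C * K * 1 := mul_le_mul_of_nonneg_left hx1.le (by positivity)
    _ = C * K := mul_one _

theorem t_MEL (h1 : S_POI) : S_MEL := by
  intro l h hs he hsup h0 hi
  refine ⟨Th_cont hs hsup, ?_⟩
  intro z hz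
  obtain ⟨hz1, hz2⟩ := abs_lt.1 hz
  have hbot := pf_bot h1 hs he hsup h0 hi
  have hpd : ∀ s : ℂ, 0 < s.re → DifferentiableAt ℂ (mellin (pf h)) s := fun s h0 =>
    mellin_differentiableAt_of_isBigO_rpow (pf_li hs hsup) (pf_top hsup (s.re + 1)) (by linarith)
      hbot h0
  have hpc : ∀ s : ℂ, 0 < s.re → MellinConvergent (pf h) s := fun s h0 =>
    mellinConvergent_of_isBigO_rpow (pf_li hs hsup) (pf_top hsup (s.re + 1)) (by linarith)
      hbot h0
  set U : Set ℂ := {s : ℂ | 0 < s.re} with hU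
  have hUo : IsOpen U := isOpen_lt continuous_const continuous_re
  have hUc : IsPreconnected U := (convex_halfSpace_re_gt 0).isPreconnected
  have hne : ∀ s ∈ U, s ≠ 0 := by
    rintro s hs rfl
    simp [hU] at hs
  have hA : AnalyticOnNhd ℂ (fun s => (s - 1) * mellin (pf h) s) U :=
    DifferentiableOn.analyticOnNhd (fun s hs' =>
      (((differentiableAt_id).sub_const 1).mul (hpd s hs')).differentiableWithinAt) hUo
  have hB : AnalyticOnNhd ℂ (fun s => ZZ s * mellin (fun x : ℝ => (h x : ℂ)) s) U :=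
    DifferentiableOn.analyticOnNhd (fun s hs' =>
      ((ZZ_diff (hne s hs')).mul (h_diff hs hsup hs')).differentiableWithinAt) hUo
  have heq := hA.eqOn_of_preconnected_of_eventuallyEq hB hUc (z₀ := 2) (by simp [hU]) (by
    filter_upwards [(isOpen_lt continuous_const continuous_re).mem_nhds
      (show (1 : ℝ) < (2 : ℂ).re by norm_num)] with s hs1
    have hs1' : 1 < s.re := hs1
    have hs0 : s ≠ 0 := by
      rintro rfl
      simp at hs1'
      linarith
    have hs2 : s ≠ 1 := by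
      rintro rfl
      simp at hs1'
    rw [series hs hsup hs1', ZZ_eq hs0 hs2]
    ring)
  set s : ℂ := 1 / 2 + I * z with hsdef
  have hsre : s.re = 1 / 2 - z.im := by
    rw [hsdef]
    simp
    ring
  have hsU : s ∈ U := by
    show 0 < s.re
    rw [hsre]
    linarith
  have hs1 : s ≠ 1 := by
    intro h
    have := congrArg Complex.re h
    rw [hsre] at this
    simp at this
    linarith
  have hm := heq hsU
  simp only at hm
  rw [ZZ_eq (hne s hsU) hs1, mul_assoc] at hm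
  have hm' := mul_left_cancel₀ (sub_ne_zero.2 hs1) hm
  have hker : ∀ u : ℝ, pf h (Real.exp u) * cexp (s * u) = (Th h u : ℂ) * cexp (I * z * u) := by
    intro u
    unfold pf Th
    have h2 : cexp (s * u) = cexp (I * z * u) * ((Real.exp (u / 2) : ℝ) : ℂ) := by
      rw [Complex.ofReal_exp, ← Complex.exp_add]
      congr 1
      rw [hsdef]
      push_cast
      ring
    rw [h2]
    push_cast
    ring
  constructor
  · exact (mellin_int _ _ (hpc s hsU)).congr (ae_of_all _ hker)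
  · rw [← integral_congr_ae (ae_of_all _ hker), ← mellin_line, hm',
      ← mellin_line (fun x : ℝ => (h x : ℂ)) s]

end

end Pool.Agent.H478.WM.MEL
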