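import Pool.Agent.H478.WM.Stm2

/-!
# WM: Poisson summation
-/

open Complex MeasureTheory Filter Topology Set FourierTransform
open scoped ContDiff

namespace Pool.Agent.H478.WM.POI

noncomputable section

/-- a function which vanishes far away has compact support -/
theorem cpt {h : ℝ → ℝ} {l : ℝ} (hs : ∀ x, l < |x| → h x = 0) : HasCompactSupport h := by
  refine HasCompactSupport.intro (isCompact_Icc (a := -l) (b := l)) fun x hx => hs x ?_
  by_contra hcon
  push Not at hcon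
  exact hx (abs_le.1 hcon)

theorem cptC {h : ℝ → ℝ} (hs : HasCompactSupport h) :
    HasCompactSupport (fun x => (h x : ℂ)) :=
  hs.comp_left Complex.ofReal_zero

/-- the Fourier transform of an even function -/
theorem fou {h : ℝ → ℝ} (hh : Continuous h) (he : ∀ x, h (-x) = h x) (hs : HasCompactSupport h)
    (y : ℝ) : 𝓕 (fun x => (h x : ℂ)) y = (hc h y : ℂ) := by
  rw [Real.fourier_real_eq_integral_exp_smul]
  have hi : Integrable (fun v : ℝ => cexp (↑(-2 * Real.pi * v * y) * I) • (h v : ℂ)) := by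
    apply Continuous.integrable_of_hasCompactSupport
    · fun_prop
    · refine HasCompactSupport.intro hs (fun v hv => ?_)
      rw [image_eq_zero_of_notMem_tsupport hv, Complex.ofReal_zero, smul_zero]
  have hi' : Integrable (fun v : ℝ => cexp (↑(-2 * Real.pi * (-v) * y) * I) • (h (-v) : ℂ)) :=
    hi.comp_neg
  have h1 : ∫ v : ℝ, cexp (↑(-2 * Real.pi * (-v) * y) * I) • (h (-v) : ℂ) =
      ∫ v : ℝ, cexp (↑(-2 * Real.pi * v * y) * I) • (h v : ℂ) :=
    integral_neg_eq_self (fun v : ℝ => cexp (↑(-2 * Real.pi * v * y) * I) • (h v : ℂ)) volume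
  have h2 : ∫ v : ℝ, (cexp (↑(-2 * Real.pi * v * y) * I) • (h v : ℂ) +
      cexp (↑(-2 * Real.pi * (-v) * y) * I) • (h (-v) : ℂ)) =
      ∫ v : ℝ, (2 : ℂ) * ((h v * Real.cos (2 * Real.pi * v * y) : ℝ) : ℂ) := by
    congr 1
    funext v
    rw [he v]
    push_cast
    have e : Complex.cos (2 * Real.pi * v * y) =
        (cexp ((2 * Real.pi * v * y) * I) + cexp (-(2 * Real.pi * v * y) * I)) / 2 := rfl
    rw [e]
    have e1 : (-2 * (Real.pi : ℂ) * v * y) * I = -(2 * Real.pi * v * y) * I := by ring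
    have e2 : (-2 * (Real.pi : ℂ) * -v * y) * I = (2 * Real.pi * v * y) * I := by ring
    rw [e1, e2, smul_eq_mul, smul_eq_mul]
    ring
  rw [integral_add hi hi', h1, integral_const_mul, integral_complex_ofReal] at h2
  have h3 : (hc h y : ℂ) = ((∫ v : ℝ, h v * Real.cos (2 * Real.pi * v * y) : ℝ) : ℂ) := rfl
  rw [h3]
  linear_combination h2 / 2

/-- the values of a Schwartz function at the integers are summable -/
theorem summ (f : SchwartzMap ℝ ℂ) : Summable fun n : ℤ => f (n : ℝ) :=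
  summable_of_isBigO (Real.summable_abs_int_rpow one_lt_two)
    ((f.isBigO_cocompact_rpow (-2)).comp_tendsto Int.tendsto_coe_cofinite)

theorem hc_even (h : ℝ → ℝ) (y : ℝ) : hc h (-y) = hc h y := by
  unfold hc
  congr 1
  funext x
  rw [mul_neg, Real.cos_neg]

theorem hc_zero (h : ℝ → ℝ) (h0 : ∫ x : ℝ, h x = 0) : hc h 0 = 0 := by
  unfold hc
  simpa using h0

theorem hc_scale (h : ℝ → ℝ) {x : ℝ} (hx : 0 < x) (y : ℝ) :
    hc (fun t => h (t * x)) y = x⁻¹ * hc h (y / x) := by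
  unfold hc
  have h1 := Measure.integral_comp_mul_right
    (fun s : ℝ => h s * Real.cos (2 * Real.pi * s * (y / x))) x
  rw [abs_of_pos (inv_pos.2 hx), smul_eq_mul] at h1
  rw [← h1]
  congr 1
  funext t
  have e : 2 * Real.pi * (t * x) * (y / x) = 2 * Real.pi * t * y := by
    field_simp
  rw [e]

/-- Poisson summation for an even function with `h 0 = 0` and `∫ h = 0` -/
theorem poisson {h : ℝ → ℝ} (hh : ContDiff ℝ ∞ h) (he : ∀ x, h (-x) = h x)
    (hs : HasCompactSupport h) (h0 : h 0 = 0) (hI : ∫ x : ℝ, h x = 0) :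
    ∑' n : ℕ, h ((n : ℝ) + 1) = ∑' n : ℕ, hc h ((n : ℝ) + 1) := by
  obtain ⟨H, hH⟩ : ∃ H : SchwartzMap ℝ ℂ, (H : ℝ → ℂ) = fun x => (h x : ℂ) :=
    ⟨(cptC hs).toSchwartzMap (Complex.ofRealCLM.contDiff.comp hh), rfl⟩
  have hF : ∀ y : ℝ, (𝓕 H) y = (hc h y : ℂ) := by
    intro y
    rw [SchwartzMap.fourier_coe, hH]
    exact fou hh.continuous he hs y
  have h1 := SchwartzMap.tsum_eq_tsum_fourier H 0
  have e1 : ∑' n : ℤ, H (0 + (n : ℝ)) = 2 • ∑' n : ℕ, ((h ((n : ℝ) + 1) : ℝ) : ℂ) := by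
    have h2 : Function.Even (fun n : ℤ => H (n : ℝ)) := by
      intro n
      show H ((-n : ℤ) : ℝ) = H (n : ℝ)
      rw [hH]
      show ((h ((-n : ℤ) : ℝ) : ℝ) : ℂ) = ((h (n : ℝ) : ℝ) : ℂ)
      rw [Int.cast_neg, he]
    have h3 := tsum_int_eq_zero_add_two_mul_tsum_pnat h2 (summ H)
    simp only [zero_add]
    rw [h3, hH]
    simp only [Int.cast_zero, h0, Complex.ofReal_zero, zero_add]
    congr 1
    have h4 := tsum_pnat_eq_tsum_succ (f := fun n : ℕ => ((h ((n : ℤ) : ℝ) : ℝ) : ℂ))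
    rw [h4]
    congr 1
    funext n
    push_cast
    rfl
  have e2 : ∑' n : ℤ, (𝓕 H) (n : ℝ) * (_root_.fourier n) ((0 : ℝ) : UnitAddCircle) =
      2 • ∑' n : ℕ, ((hc h ((n : ℝ) + 1) : ℝ) : ℂ) := by
    have h2 : Function.Even (fun n : ℤ => (𝓕 H) (n : ℝ)) := by
      intro n
      show (𝓕 H) ((-n : ℤ) : ℝ) = (𝓕 H) (n : ℝ)
      rw [hF, hF, Int.cast_neg, hc_even]
    have h3 := tsum_int_eq_zero_add_two_mul_tsum_pnat h2 (summ (𝓕 H))
    have h5 : ∀ n : ℤ, (𝓕 H) (n : ℝ) * (_root_.fourier n) ((0 : ℝ) : UnitAddCircle) =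
        (𝓕 H) (n : ℝ) := by
      intro n
      have : ((0 : ℝ) : UnitAddCircle) = 0 := rfl
      rw [this, fourier_eval_zero, mul_one]
    simp only [h5]
    rw [h3]
    simp only [hF, Int.cast_zero, hc_zero h hI, Complex.ofReal_zero, zero_add]
    congr 1
    have h4 := tsum_pnat_eq_tsum_succ (f := fun n : ℕ => ((hc h ((n : ℤ) : ℝ) : ℝ) : ℂ))
    rw [h4]
    congr 1
    funext n
    push_cast
    rfl
  rw [e1, e2, ← Complex.ofReal_tsum, ← Complex.ofReal_tsum, nsmul_eq_mul, nsmul_eq_mul] at h1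
  have h6 := mul_left_cancel₀ (by norm_num : ((2 : ℕ) : ℂ) ≠ 0) h1
  exact_mod_cast h6

theorem t_POI : S_POI := by
  intro l h hh he hs h0 hI
  have hcs := cpt hs
  constructor
  · intro u
    obtain ⟨x, hx⟩ : ∃ x : ℝ, x = Real.exp u := ⟨_, rfl⟩
    have hx0 : 0 < x := by rw [hx]; exact Real.exp_pos u
    have h1 := poisson (h := fun t => h (t * x)) (hh.comp (contDiff_id.mul contDiff_const))
      (fun t => by
        show h (-t * x) = h (t * x)
        rw [neg_mul, he])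
      (cpt (l := l / x) (fun t ht => hs _ (by
        rw [abs_mul, abs_of_pos hx0]
        rwa [div_lt_iff₀ hx0] at ht)))
      (by simpa using h0)
      (by
        have := Measure.integral_comp_mul_right h x
        rw [this, hI, smul_zero])
    have h2 : ∀ n : ℕ, hc (fun t => h (t * x)) ((n : ℝ) + 1) =
        x⁻¹ * hc h (((n : ℝ) + 1) * Real.exp (-u)) := by
      intro n
      rw [hc_scale h hx0, Real.exp_neg, ← hx, div_eq_mul_inv]
    simp only [h2] at h1
    rw [tsum_mul_left] at h1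
    unfold Th
    rw [← hx, h1, ← mul_assoc]
    congr 1
    rw [hx, ← Real.exp_neg, ← Real.exp_add]
    congr 1
    ring
  · intro k
    obtain ⟨H, hH⟩ : ∃ H : SchwartzMap ℝ ℂ, (H : ℝ → ℂ) = fun x => (h x : ℂ) :=
      ⟨(cptC hcs).toSchwartzMap (Complex.ofRealCLM.contDiff.comp hh), rfl⟩
    have hF : ∀ y : ℝ, (𝓕 H) y = (hc h y : ℂ) := by
      intro y
      rw [SchwartzMap.fourier_coe, hH]
      exact fou hh.continuous he hcs y
    obtain ⟨C, -, hC⟩ := (𝓕 H).decay k 0
    refine ⟨C, fun y hy => ?_⟩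
    have h1 := hC y
    rw [norm_iteratedFDeriv_zero, hF, Complex.norm_real, Real.norm_eq_abs, Real.norm_eq_abs,
      abs_of_pos hy] at h1
    rw [le_div_iff₀ (pow_pos hy k), mul_comm]
    exact h1

end

end Pool.Agent.H478.WM.POI
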