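import Pool.Agent.H478.WM.Stm2

/-!
# Project WM, TRJ: trial functions with exponent `2 π`
-/

set_option autoImplicit false

open Complex MeasureTheory Filter Topology Set
open scoped ContDiff Convolution

namespace Pool.Agent.H478.WM.TRJ

/-! ### The cosine in a strip -/

theorem norm_cexp_le (z : ℂ) (x : ℝ) : ‖cexp (I * z * x)‖ ≤ Real.exp (|z.im| * |x|) := by
  rw [Complex.norm_exp]
  apply Real.exp_le_exp.2
  have h : (I * z * x).re = -(z.im * x) := by simp
  rw [h, ← abs_mul]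
  exact (neg_le_abs _)

theorem cos_eq (z : ℂ) (x : ℝ) :
    Complex.cos (z * x) = (cexp (I * z * x) + cexp (I * (-z) * x)) / 2 := by
  rw [Complex.cos]
  congr 2
  · congr 1
    ring
  · congr 1
    ring

theorem norm_cos_le (z : ℂ) (x : ℝ) : ‖Complex.cos (z * x)‖ ≤ Real.exp (|z.im| * |x|) := by
  rw [cos_eq]
  have h1 := norm_cexp_le z x
  have h2 := norm_cexp_le (-z) x
  rw [Complex.neg_im, abs_neg] at h2
  calc ‖(cexp (I * z * x) + cexp (I * (-z) * x)) / 2‖
      = ‖cexp (I * z * x) + cexp (I * (-z) * x)‖ / 2 := by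
        rw [norm_div]
        norm_num
    _ ≤ (‖cexp (I * z * x)‖ + ‖cexp (I * (-z) * x)‖) / 2 := by
        gcongr
        exact norm_add_le _ _
    _ ≤ _ := by linarith

/-- the transform of an even function by the exponential -/
theorem Ct_even (f : ℝ → ℂ) (hf : ∀ x, f (-x) = f x) (z : ℂ)
    (h1 : Integrable (fun x : ℝ => f x * cexp (I * z * x))) :
    Ct f z = ∫ x : ℝ, f x * cexp (I * z * x) := by
  have h2 : Integrable (fun x : ℝ => f x * cexp (I * (-z) * x)) := by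
    have h3 := h1.comp_neg
    refine h3.congr (Filter.Eventually.of_forall fun x => ?_)
    simp only [hf]
    congr 2
    push_cast
    ring
  have h4 : ∫ x : ℝ, f x * cexp (I * (-z) * x) = ∫ x : ℝ, f x * cexp (I * z * x) := by
    rw [← integral_neg_eq_self]
    refine integral_congr_ae (Filter.Eventually.of_forall fun x => ?_)
    simp only [hf]
    congr 2
    push_cast
    ring
  unfold Ct
  have h5 : ∀ x : ℝ, f x * Complex.cos (z * x) =
      (1 / 2) * (f x * cexp (I * z * x) + f x * cexp (I * (-z) * x)) := by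
    intro x
    rw [cos_eq]
    ring
  simp only [h5]
  rw [integral_const_mul, integral_add h1 h2, h4]
  ring

/-- the transform of a smooth function with compact support decays -/
theorem Ct_decay (f : ℝ → ℂ) (hf : ContDiff ℝ ∞ f) (hs : HasCompactSupport f) :
    ∃ C : ℝ, 0 ≤ C ∧ ∀ z : ℂ, |z.im| ≤ 1 / 2 → z ≠ 0 → ‖Ct f z‖ ≤ C / ‖z‖ ^ 2 := by
  have hd1 : ContDiff ℝ ∞ (deriv f) := (contDiff_infty_iff_deriv.1 hf).2
  have hd2 : ContDiff ℝ ∞ (deriv (deriv f)) :=
    (contDiff_infty_iff_deriv.1 hd1).2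
  have hs1 : HasCompactSupport (deriv f) := hs.deriv
  have hs2 : HasCompactSupport (deriv (deriv f)) := hs1.deriv
  have hder0 : ∀ x, HasDerivAt f (deriv f x) x := fun x =>
    (hf.differentiable (by norm_num) x).hasDerivAt
  have hder1 : ∀ x, HasDerivAt (deriv f) (deriv (deriv f) x) x := fun x =>
    (hd1.differentiable (by norm_num) x).hasDerivAt
  have hcE : Continuous (fun x : ℝ => Real.exp (1 / 2 * |x|)) := by fun_prop
  have hint : Integrable (fun x : ℝ => ‖deriv (deriv f) x‖ * Real.exp (1 / 2 * |x|)) := by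
    apply Continuous.integrable_of_hasCompactSupport
    · exact hd2.continuous.norm.mul hcE
    · exact hs2.norm.mul_right
  refine ⟨∫ x : ℝ, ‖deriv (deriv f) x‖ * Real.exp (1 / 2 * |x|),
    integral_nonneg fun x => by positivity, fun z hz hz0 => ?_⟩
  have hcos : Continuous (fun x : ℝ => Complex.cos (z * x)) := by fun_prop
  have hsin : Continuous (fun x : ℝ => Complex.sin (z * x)) := by fun_prop
  have hI : ∀ g k : ℝ → ℂ, Continuous g → HasCompactSupport g → Continuous k →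
      Integrable (g * k) := fun g k hg hgs hk =>
    (hg.mul hk).integrable_of_hasCompactSupport hgs.mul_right
  have hD1 : ∀ x : ℝ, HasDerivAt (fun y : ℝ => Complex.sin (z * y) / z)
      (Complex.cos (z * x)) x := by
    intro x
    have h1 : HasDerivAt (fun y : ℂ => Complex.sin (z * y) / z) (Complex.cos (z * x)) (x : ℂ) := by
      have h2 := ((Complex.hasDerivAt_sin (z * x)).comp (x : ℂ)
        ((hasDerivAt_id (x : ℂ)).const_mul z)).div_const z
      refine h2.congr_deriv ?_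
      field_simp
    exact h1.comp_ofReal
  have hD2 : ∀ x : ℝ, HasDerivAt (fun y : ℝ => -(Complex.cos (z * y) / z))
      (Complex.sin (z * x)) x := by
    intro x
    have h1 : HasDerivAt (fun y : ℂ => -(Complex.cos (z * y) / z)) (Complex.sin (z * x))
        (x : ℂ) := by
      have h2 := (((Complex.hasDerivAt_cos (z * x)).comp (x : ℂ)
        ((hasDerivAt_id (x : ℂ)).const_mul z)).div_const z).neg
      refine h2.congr_deriv ?_
      field_simp
    exact h1.comp_ofReal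
  have e1 : ∫ x : ℝ, f x * Complex.cos (z * x) =
      -∫ x : ℝ, deriv f x * (Complex.sin (z * x) / z) :=
    integral_mul_deriv_eq_deriv_mul_of_integrable (fun x _ => hder0 x) (fun x _ => hD1 x)
      (hI _ _ hf.continuous hs hcos) (hI _ _ hd1.continuous hs1 (hsin.div_const z))
      (hI _ _ hf.continuous hs (hsin.div_const z))
  have e2 : ∫ x : ℝ, deriv f x * Complex.sin (z * x) =
      -∫ x : ℝ, deriv (deriv f) x * (-(Complex.cos (z * x) / z)) :=
    integral_mul_deriv_eq_deriv_mul_of_integrable (fun x _ => hder1 x) (fun x _ => hD2 x)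
      (hI _ _ hd1.continuous hs1 hsin) (hI _ _ hd2.continuous hs2 (hcos.div_const z).neg)
      (hI _ _ hd1.continuous hs1 (hcos.div_const z).neg)
  have e3 : Ct f z = -(1 / z ^ 2) * ∫ x : ℝ, deriv (deriv f) x * Complex.cos (z * x) := by
    unfold Ct
    rw [e1]
    have h1 : ∀ x : ℝ, deriv f x * (Complex.sin (z * x) / z) =
        (1 / z) * (deriv f x * Complex.sin (z * x)) := fun x => by ring
    have h2 : ∀ x : ℝ, deriv (deriv f) x * (-(Complex.cos (z * x) / z)) =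
        -(1 / z) * (deriv (deriv f) x * Complex.cos (z * x)) := fun x => by ring
    simp only [h1]
    rw [integral_const_mul, e2]
    simp only [h2]
    rw [integral_const_mul]
    field_simp
  rw [e3, norm_mul, norm_neg, norm_div, norm_one, norm_pow]
  have h3 : ‖∫ x : ℝ, deriv (deriv f) x * Complex.cos (z * x)‖ ≤
      ∫ x : ℝ, ‖deriv (deriv f) x‖ * Real.exp (1 / 2 * |x|) := by
    refine norm_integral_le_of_norm_le hint (Filter.Eventually.of_forall fun x => ?_)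
    rw [norm_mul]
    refine mul_le_mul_of_nonneg_left ((norm_cos_le z x).trans ?_) (norm_nonneg _)
    apply Real.exp_le_exp.2
    gcongr
  calc 1 / ‖z‖ ^ 2 * ‖∫ x : ℝ, deriv (deriv f) x * Complex.cos (z * x)‖
      ≤ 1 / ‖z‖ ^ 2 * ∫ x : ℝ, ‖deriv (deriv f) x‖ * Real.exp (1 / 2 * |x|) := by gcongr
    _ = _ := by ring

/-- the mollifier -/
theorem bump (δ : ℝ) (hδ : 0 < δ) : ∃ ρ : ℝ → ℝ, ContDiff ℝ ∞ ρ ∧ (∀ x, ρ (-x) = ρ x) ∧
    HasCompactSupport ρ ∧ (∀ x, δ < |x| → ρ x = 0) ∧ ∫ x : ℝ, ρ x = 1 := by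
  let f : ContDiffBump (0 : ℝ) := ⟨δ / 2, δ, by positivity, by linarith⟩
  refine ⟨f.normed volume, f.contDiff_normed, f.normed_neg, f.hasCompactSupport_normed, ?_,
    f.integral_normed⟩
  intro x hx
  have h1 : x ∉ Function.support (f.normed volume) := by
    rw [f.support_normed_eq]
    intro h
    rw [Metric.mem_ball, dist_zero_right, Real.norm_eq_abs] at h
    exact absurd h (not_lt.2 hx.le)
  exact Function.notMem_support.1 h1

/-! ### The trial function -/

/-- integrability against an exponential -/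
theorem int_exp (G : ℝ → ℝ) (Λ : ℝ) (hG : Integrable G) (hs : ∀ x, Λ < |x| → G x = 0) (z : ℂ) :
    Integrable (fun x : ℝ => co G x * cexp (I * z * x)) := by
  have hc : Continuous (fun x : ℝ => cexp (I * z * x)) := by fun_prop
  have h1 : Integrable (fun x : ℝ => |G x| * Real.exp (|z.im| * Λ)) := hG.abs.mul_const _
  refine h1.mono' (hG.ofReal.aestronglyMeasurable.mul hc.aestronglyMeasurable)
    (Filter.Eventually.of_forall fun x => ?_)
  rw [norm_mul]
  have h2 : ‖co G x‖ = |G x| := by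
    unfold co
    rw [Complex.norm_real, Real.norm_eq_abs]
  rw [h2]
  by_cases hx : Λ < |x|
  · rw [hs x hx, abs_zero, zero_mul, zero_mul]
  · refine mul_le_mul_of_nonneg_left ((norm_cexp_le z x).trans ?_) (abs_nonneg _)
    apply Real.exp_le_exp.2
    exact mul_le_mul_of_nonneg_left (not_lt.1 hx) (abs_nonneg _)

/-- the convolution -/
noncomputable def kk (G ρ : ℝ → ℝ) (x : ℝ) : ℝ := ∫ u : ℝ, G u * ρ (x - u)

theorem kk_eq (G ρ : ℝ → ℝ) :
    kk G ρ = (G ⋆[ContinuousLinearMap.mul ℝ ℝ, volume] ρ) := by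
  funext x
  unfold kk convolution
  rfl

/-- smearing a function with compact support -/
theorem smear (G ρ : ℝ → ℝ) (Λ δ a : ℝ) (ha : a = Λ + δ) (hG : Integrable G)
    (hGe : ∀ x, G (-x) = G x) (hGs : ∀ x, Λ < |x| → G x = 0) (hc : ∫ x : ℝ, G x ≠ 0)
    (hρ : ContDiff ℝ ∞ ρ) (hρe : ∀ x, ρ (-x) = ρ x) (hρc : HasCompactSupport ρ)
    (hρs : ∀ x, δ < |x| → ρ x = 0) (hρ1 : ∫ x : ℝ, ρ x = 1) :
    Adm a (fun x => (∫ x : ℝ, G x)⁻¹ * kk G ρ x) ∧ ∀ z : ℂ,
      Ct (co (fun x => (∫ x : ℝ, G x)⁻¹ * kk G ρ x)) z =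
        ((∫ x : ℝ, G x : ℝ) : ℂ)⁻¹ * (Ct (co G) z * Ct (co ρ) z) := by
  obtain ⟨c, hcd⟩ : ∃ c, c = ∫ x : ℝ, G x := ⟨_, rfl⟩
  rw [← hcd] at hc ⊢
  have hρi : Integrable ρ := hρ.continuous.integrable_of_hasCompactSupport hρc
  have hkc : ContDiff ℝ ∞ (kk G ρ) := by
    rw [kk_eq]
    exact hρc.contDiff_convolution_right _ hG.locallyIntegrable hρ
  have hke : ∀ x, kk G ρ (-x) = kk G ρ x := by
    intro x
    unfold kk
    rw [← integral_neg_eq_self]
    refine integral_congr_ae (Filter.Eventually.of_forall fun u => ?_)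
    simp only
    rw [hGe, ← hρe]
    congr 2
    ring
  have hks : ∀ x, a < |x| → kk G ρ x = 0 := by
    intro x hx
    unfold kk
    refine integral_eq_zero_of_ae (Filter.Eventually.of_forall fun u => ?_)
    simp only [Pi.zero_apply]
    by_cases hu : Λ < |u|
    · rw [hGs u hu, zero_mul]
    · rw [hρs (x - u), mul_zero]
      have h1 := abs_sub_abs_le_abs_sub x u
      have h2 := not_lt.1 hu
      linarith
  have hk1 : ∫ x : ℝ, kk G ρ x = c := by
    rw [kk_eq, integral_convolution _ hG hρi, hρ1, hcd]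
    simp
  refine ⟨⟨⟨contDiff_const.mul hkc, fun x => ?_, fun x hx => ?_⟩, ?_⟩, fun z => ?_⟩
  · rw [hke]
  · rw [hks x hx, mul_zero]
  · rw [integral_const_mul, hk1, inv_mul_cancel₀ hc]
  · have hiG := int_exp G Λ hG hGs z
    have hiρ := int_exp ρ δ hρi hρs z
    have hki : Integrable (fun x => c⁻¹ * kk G ρ x) := by
      apply Continuous.integrable_of_hasCompactSupport (contDiff_const.mul hkc).continuous
      exact HasCompactSupport.intro (isCompact_Icc (a := -a) (b := a)) (fun x hx => by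
        have h1 : a < |x| := by
          by_contra h
          exact hx (abs_le.1 (not_lt.1 h))
        rw [hks x h1, mul_zero])
    have hik := int_exp (fun x => c⁻¹ * kk G ρ x) a hki (fun x hx => by
      rw [hks x hx, mul_zero]) z
    rw [Ct_even _ (fun x => by
        change ((c⁻¹ * kk G ρ (-x) : ℝ) : ℂ) = ((c⁻¹ * kk G ρ x : ℝ) : ℂ)
        rw [hke]) z hik,
      Ct_even (co G) (fun x => by unfold co; rw [hGe]) z hiG,
      Ct_even (co ρ) (fun x => by unfold co; rw [hρe]) z hiρ]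
    have h1 := integral_convolution (ContinuousLinearMap.mul ℝ ℂ) hiG hiρ
    rw [ContinuousLinearMap.mul_apply'] at h1
    rw [← h1, ← integral_const_mul]
    refine integral_congr_ae (Filter.Eventually.of_forall fun x => ?_)
    simp only
    unfold co kk convolution
    have h3 : ((∫ u : ℝ, G u * ρ (x - u) : ℝ) : ℂ) = ∫ u : ℝ, ((G u * ρ (x - u) : ℝ) : ℂ) :=
      integral_ofReal.symm
    rw [Complex.ofReal_mul, Complex.ofReal_inv, mul_assoc, h3, ← integral_mul_const]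
    congr 1
    refine integral_congr_ae (Filter.Eventually.of_forall fun u => ?_)
    simp only [ContinuousLinearMap.mul_apply']
    have h2 : cexp (I * z * x) = cexp (I * z * u) * cexp (I * z * ((x - u : ℝ) : ℂ)) := by
      rw [← Complex.exp_add]
      congr 1
      push_cast
      ring
    rw [h2]
    push_cast
    ring

/-! ### The window -/

theorem int3 {f g k : ℝ → ℝ} (hf : Integrable f) (hg : Integrable g) (hk : Integrable k)
    (b c : ℝ) : ∫ x : ℝ, (f x - b * g x + c * k x) =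
      (∫ x : ℝ, f x) - b * (∫ x : ℝ, g x) + c * ∫ x : ℝ, k x := by
  have h1 : ∫ x : ℝ, (f x - b * g x + c * k x) =
      (∫ x : ℝ, (f x - b * g x)) + ∫ x : ℝ, c * k x :=
    integral_add (hf.sub (hg.const_mul b)) (hk.const_mul c)
  have h2 : ∫ x : ℝ, (f x - b * g x) = (∫ x : ℝ, f x) - ∫ x : ℝ, b * g x :=
    integral_sub hf (hg.const_mul b)
  rw [h1, h2, integral_const_mul, integral_const_mul]

/-- smooth even functions which vanish off `[-l, l]`, `l = e ^ Λ` -/
structure Wn (Λ : ℝ) (w : ℝ → ℝ) : Prop where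
  smooth : ContDiff ℝ ∞ w
  even : ∀ x, w (-x) = w x
  supp : ∀ x, Real.exp Λ < |x| → w x = 0

theorem Wn.compact {Λ : ℝ} {w : ℝ → ℝ} (h : Wn Λ w) : HasCompactSupport w :=
  HasCompactSupport.intro (isCompact_Icc (a := -Real.exp Λ) (b := Real.exp Λ)) (fun x hx => by
    have h1 : Real.exp Λ < |x| := by
      by_contra h
      exact hx (abs_le.1 (not_lt.1 h))
    exact h.supp x h1)

theorem Wn.integrable {Λ : ℝ} {w : ℝ → ℝ} (h : Wn Λ w) : Integrable w :=
  h.smooth.continuous.integrable_of_hasCompactSupport h.compact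

/-- dilation -/
theorem Wn.dil {Λ : ℝ} {w : ℝ → ℝ} (h : Wn Λ w) {m : ℝ} (hm : 1 ≤ m) :
    Wn Λ (fun x => w (m * x)) := by
  refine ⟨h.smooth.comp (contDiff_const.mul contDiff_id), fun x => ?_, fun x hx => ?_⟩
  · rw [mul_neg, h.even]
  · apply h.supp
    rw [abs_mul, abs_of_nonneg (by linarith)]
    have : |x| ≤ m * |x| := le_mul_of_one_le_left (abs_nonneg _) hm
    linarith

theorem Wn.comb {Λ : ℝ} {w v r : ℝ → ℝ} (h : Wn Λ w) (h' : Wn Λ v) (h'' : Wn Λ r) (b c : ℝ) :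
    Wn Λ (fun x => w x - b * v x + c * r x) := by
  refine ⟨(h.smooth.sub (contDiff_const.mul h'.smooth)).add (contDiff_const.mul h''.smooth),
    fun x => ?_, fun x hx => ?_⟩
  · rw [h.even, h'.even, h''.even]
  · rw [h.supp x hx, h'.supp x hx, h''.supp x hx]
    ring

theorem hc_dil (w : ℝ → ℝ) {m : ℝ} (hm : 0 < m) (y : ℝ) :
    hc (fun x => w (m * x)) y = m⁻¹ * hc w (y / m) := by
  unfold hc
  have h1 := Measure.integral_comp_mul_left
    (fun t : ℝ => w t * Real.cos (2 * Real.pi * t * (y / m))) m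
  rw [abs_of_pos (inv_pos.2 hm), smul_eq_mul] at h1
  rw [← h1]
  refine integral_congr_ae (Filter.Eventually.of_forall fun x => ?_)
  simp only
  congr 2
  field_simp

theorem Wn.integrable_cos {Λ : ℝ} {w : ℝ → ℝ} (h : Wn Λ w) (y : ℝ) :
    Integrable (fun x : ℝ => w x * Real.cos (2 * Real.pi * x * y)) := by
  apply Continuous.integrable_of_hasCompactSupport
  · exact h.smooth.continuous.mul (by fun_prop)
  · exact h.compact.mul_right

theorem hc_comb {Λ : ℝ} {w v r : ℝ → ℝ} (h : Wn Λ w) (h' : Wn Λ v) (h'' : Wn Λ r) (b c y : ℝ) :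
    hc (fun x => w x - b * v x + c * r x) y = hc w y - b * hc v y + c * hc r y := by
  unfold hc
  have h1 : ∀ x : ℝ, (w x - b * v x + c * r x) * Real.cos (2 * Real.pi * x * y) =
      w x * Real.cos (2 * Real.pi * x * y) - b * (v x * Real.cos (2 * Real.pi * x * y)) +
        c * (r x * Real.cos (2 * Real.pi * x * y)) := fun x => by ring
  simp only [h1]
  exact int3 (h.integrable_cos y) (h'.integrable_cos y) (h''.integrable_cos y) b c

/-- the Mellin transform at `1/2` -/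
noncomputable def JJ (w : ℝ → ℝ) : ℝ := ∫ u : ℝ, w (Real.exp u) * Real.exp (u / 2)

theorem Wn.integrable_exp {Λ : ℝ} {w : ℝ → ℝ} (h : Wn Λ w) {a : ℝ} (ha : 0 < a) :
    Integrable (fun u : ℝ => w (Real.exp u) * Real.exp (a * u)) := by
  obtain ⟨M, hM⟩ := h.compact.exists_bound_of_continuous h.smooth.continuous
  have hc : Continuous (fun u : ℝ => w (Real.exp u) * Real.exp (a * u)) :=
    (h.smooth.continuous.comp Real.continuous_exp).mul (by fun_prop)
  have hsub : Function.support (fun u : ℝ => w (Real.exp u) * Real.exp (a * u)) ⊆ Iic Λ := by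
    intro u hu
    by_contra hcon
    apply hu
    have h1 : Real.exp Λ < |Real.exp u| := by
      rw [abs_of_pos (Real.exp_pos u)]
      exact Real.exp_lt_exp.2 (not_le.1 hcon)
    simp only
    rw [h.supp _ h1, zero_mul]
  rw [← integrableOn_iff_integrable_of_support_subset hsub]
  have h2 : IntegrableOn (fun u : ℝ => M * Real.exp (a * u)) (Iic Λ) :=
    (integrableOn_exp_mul_Iic ha Λ).const_mul M
  refine h2.mono' hc.aestronglyMeasurable (Filter.Eventually.of_forall fun u => ?_)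
  rw [norm_mul, Real.norm_eq_abs (Real.exp _), abs_of_pos (Real.exp_pos _)]
  exact mul_le_mul_of_nonneg_right (hM _) (Real.exp_pos _).le

theorem Wn.integrable_half {Λ : ℝ} {w : ℝ → ℝ} (h : Wn Λ w) :
    Integrable (fun u : ℝ => w (Real.exp u) * Real.exp (u / 2)) := by
  have h1 := h.integrable_exp (a := 1 / 2) (by norm_num)
  refine h1.congr (Filter.Eventually.of_forall fun u => ?_)
  simp only
  congr 2
  ring

theorem JJ_dil (w : ℝ → ℝ) (L : ℝ) :
    JJ (fun x => w (Real.exp L * x)) = Real.exp (-L / 2) * JJ w := by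
  unfold JJ
  rw [← integral_add_right_eq_self (fun u : ℝ => w (Real.exp u) * Real.exp (u / 2)) L,
    ← integral_const_mul]
  refine integral_congr_ae (Filter.Eventually.of_forall fun u => ?_)
  simp only
  rw [← Real.exp_add, add_comm L u]
  have h1 : Real.exp (u / 2) = Real.exp (-L / 2) * Real.exp ((u + L) / 2) := by
    rw [← Real.exp_add]
    congr 1
    ring
  rw [h1]
  ring

theorem JJ_comb {Λ : ℝ} {w v r : ℝ → ℝ} (h : Wn Λ w) (h' : Wn Λ v) (h'' : Wn Λ r) (b c : ℝ) :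
    JJ (fun x => w x - b * v x + c * r x) = JJ w - b * JJ v + c * JJ r := by
  unfold JJ
  have h1 : ∀ u : ℝ, (w (Real.exp u) - b * v (Real.exp u) + c * r (Real.exp u)) *
      Real.exp (u / 2) = w (Real.exp u) * Real.exp (u / 2) -
        b * (v (Real.exp u) * Real.exp (u / 2)) + c * (r (Real.exp u) * Real.exp (u / 2)) :=
    fun u => by ring
  simp only [h1]
  exact int3 h.integrable_half h'.integrable_half h''.integrable_half b c

/-- lower bound -/
theorem JJ_lower {Λ : ℝ} {w : ℝ → ℝ} (h : Wn Λ w) (h0 : ∀ x, 0 ≤ w x) :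
    Real.exp (-Λ / 2) * ((∫ x : ℝ, w x) / 2) ≤ JJ w := by
  have h1 : ∫ x : ℝ, w x = 2 * ∫ x in Ioi (0 : ℝ), w x := by
    rw [← integral_comp_abs]
    refine integral_congr_ae (Filter.Eventually.of_forall fun x => ?_)
    simp only
    rcases abs_cases x with ⟨hx, -⟩ | ⟨hx, -⟩
    · rw [hx]
    · rw [hx, h.even]
  have h2 : ∫ x in Ioi (0 : ℝ), w x = ∫ u : ℝ, w (Real.exp u) * Real.exp (1 * u) := by
    have h3 := integral_image_eq_integral_abs_deriv_smul (MeasurableSet.univ)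
      (fun x _ => (Real.hasDerivAt_exp x).hasDerivWithinAt) Real.exp_injective.injOn w
    rw [image_univ, Real.range_exp, setIntegral_univ] at h3
    rw [h3]
    refine integral_congr_ae (Filter.Eventually.of_forall fun u => ?_)
    simp only
    rw [abs_of_pos (Real.exp_pos u), smul_eq_mul, one_mul, mul_comm]
  rw [h1, h2, mul_div_cancel_left₀ _ (two_ne_zero), ← integral_const_mul]
  unfold JJ
  refine integral_mono ((h.integrable_exp one_pos).const_mul _) h.integrable_half fun u => ?_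
  simp only
  by_cases hu : u ≤ Λ
  · have h3 : Real.exp (-Λ / 2) * (w (Real.exp u) * Real.exp (1 * u)) =
        w (Real.exp u) * Real.exp (-Λ / 2 + u) := by
      rw [Real.exp_add, one_mul]
      ring
    rw [h3]
    refine mul_le_mul_of_nonneg_left (Real.exp_le_exp.2 (by linarith)) (h0 _)
  · have h4 : Real.exp Λ < |Real.exp u| := by
      rw [abs_of_pos (Real.exp_pos u)]
      exact Real.exp_lt_exp.2 (not_le.1 hu)
    rw [h.supp _ h4]
    simp

/-- the combination of dilates -/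
noncomputable def hh (w : ℝ → ℝ) (L : ℝ) (x : ℝ) : ℝ :=
  w x - (1 + Real.exp L) * w (Real.exp L * x) + Real.exp L * w (Real.exp (2 * L) * x)

theorem hh_Wn {Λ : ℝ} {w : ℝ → ℝ} (h : Wn Λ w) {L : ℝ} (hL : 0 ≤ L) : Wn Λ (hh w L) :=
  h.comb (h.dil (Real.one_le_exp hL)) (h.dil (Real.one_le_exp (by linarith))) _ _

theorem hh_zero (w : ℝ → ℝ) (L : ℝ) : hh w L 0 = 0 := by
  unfold hh
  rw [mul_zero, mul_zero]
  ring

theorem int_dil (w : ℝ → ℝ) {m : ℝ} (hm : 0 < m) :
    ∫ x : ℝ, w (m * x) = m⁻¹ * ∫ x : ℝ, w x := by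
  have h1 := Measure.integral_comp_mul_left w m
  rw [abs_of_pos (inv_pos.2 hm), smul_eq_mul] at h1
  exact h1

theorem hh_int {Λ : ℝ} {w : ℝ → ℝ} (h : Wn Λ w) {L : ℝ} (hL : 0 ≤ L) :
    ∫ x : ℝ, hh w L x = 0 := by
  unfold hh
  rw [int3 h.integrable (h.dil (Real.one_le_exp hL)).integrable
    (h.dil (Real.one_le_exp (by linarith : 0 ≤ 2 * L))).integrable, int_dil w (Real.exp_pos _),
    int_dil w (Real.exp_pos _)]
  have h1 : Real.exp (2 * L) = Real.exp L * Real.exp L := by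
    rw [← Real.exp_add]
    congr 1
    ring
  rw [h1]
  have h2 := (Real.exp_pos L).ne'
  field_simp
  ring

theorem hh_JJ {Λ : ℝ} {w : ℝ → ℝ} (h : Wn Λ w) {L : ℝ} (hL : 0 ≤ L) :
    JJ (hh w L) = -(Real.exp (L / 4) - Real.exp (-L / 4)) ^ 2 * JJ w := by
  have h1 : JJ (hh w L) = JJ w - (1 + Real.exp L) * JJ (fun x => w (Real.exp L * x)) +
      Real.exp L * JJ (fun x => w (Real.exp (2 * L) * x)) :=
    JJ_comb h (h.dil (Real.one_le_exp hL)) (h.dil (Real.one_le_exp (by linarith))) _ _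
  rw [h1, JJ_dil, JJ_dil]
  obtain ⟨q, hq⟩ : ∃ q, q = Real.exp (L / 4) := ⟨_, rfl⟩
  have hq0 : q ≠ 0 := by rw [hq]; exact (Real.exp_pos _).ne'
  have e1 : Real.exp L = q ^ 4 := by
    rw [hq, ← Real.exp_nat_mul]
    congr 1
    push_cast
    ring
  have e2 : Real.exp (-L / 2) = (q ^ 2)⁻¹ := by
    rw [hq, ← Real.exp_nat_mul, ← Real.exp_neg]
    congr 1
    push_cast
    ring
  have e3 : Real.exp (-(2 * L) / 2) = (q ^ 4)⁻¹ := by
    rw [hq, ← Real.exp_nat_mul, ← Real.exp_neg]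
    congr 1
    push_cast
    ring
  have e4 : Real.exp (-L / 4) = q⁻¹ := by
    rw [hq, ← Real.exp_neg]
    congr 1
    ring
  rw [e1, e2, e3, e4, ← hq]
  field_simp
  ring

/-- decay of the transform of the combination -/
theorem hh_hc {Λ : ℝ} {w : ℝ → ℝ} (h : Wn Λ w) {L C : ℝ} (hL : 0 ≤ L)
    (hw : ∀ y : ℝ, Real.exp (-2 * L) * Real.exp Λ ≤ y → |hc w y| ≤ C / y ^ 4) (y : ℝ)
    (hy : Real.exp Λ ≤ y) :
    |hc (hh w L) y| ≤ C * (1 + (1 + Real.exp L) * Real.exp (3 * L) + Real.exp (7 * L)) /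
      y ^ 4 := by
  have hm1 : (1 : ℝ) ≤ Real.exp L := Real.one_le_exp hL
  have hm2 : (1 : ℝ) ≤ Real.exp (2 * L) := Real.one_le_exp (by linarith)
  have h1 : hc (hh w L) y = hc w y - (1 + Real.exp L) * hc (fun x => w (Real.exp L * x)) y +
      Real.exp L * hc (fun x => w (Real.exp (2 * L) * x)) y :=
    hc_comb h (h.dil hm1) (h.dil hm2) _ _ _
  rw [hc_dil w (Real.exp_pos _), hc_dil w (Real.exp_pos _)] at h1
  have hy0 : 0 < y := lt_of_lt_of_le (Real.exp_pos _) hy
  have hle : ∀ b : ℝ, 0 ≤ b → b ≤ 2 → Real.exp (-2 * L) * Real.exp Λ ≤ y / Real.exp (b * L) := by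
    intro b hb hb2
    rw [div_eq_mul_inv, ← Real.exp_neg, mul_comm y]
    apply mul_le_mul _ hy (Real.exp_pos _).le (Real.exp_pos _).le
    apply Real.exp_le_exp.2
    nlinarith
  have k0 := hw y (by
    have := hle 0 le_rfl (by norm_num)
    rwa [zero_mul, Real.exp_zero, div_one] at this)
  have k1 := hw (y / Real.exp L) (by
    have := hle 1 (by norm_num) (by norm_num)
    rwa [one_mul] at this)
  have k2 := hw (y / Real.exp (2 * L)) (hle 2 (by norm_num) le_rfl)
  have e1 : Real.exp (2 * L) = Real.exp L ^ 2 := by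
    rw [← Real.exp_nat_mul]
    push_cast
    ring_nf
  have e3 : Real.exp (3 * L) = Real.exp L ^ 3 := by
    rw [← Real.exp_nat_mul]
    push_cast
    ring_nf
  have e7 : Real.exp (7 * L) = Real.exp L ^ 7 := by
    rw [← Real.exp_nat_mul]
    push_cast
    ring_nf
  rw [e1] at k2 h1
  rw [h1, e3, e7]
  obtain ⟨m, hm⟩ : ∃ m, m = Real.exp L := ⟨_, rfl⟩
  rw [← hm] at k1 k2 hm1 ⊢
  have hm0 : 0 < m := by linarith
  have a1 : |(1 + m) * (m⁻¹ * hc w (y / m))| ≤ (1 + m) * m⁻¹ * (C / (y / m) ^ 4) := by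
    rw [← mul_assoc, abs_mul, abs_of_pos (by positivity)]
    exact mul_le_mul_of_nonneg_left k1 (by positivity)
  have a2 : |m * ((m ^ 2)⁻¹ * hc w (y / m ^ 2))| ≤ m * (m ^ 2)⁻¹ * (C / (y / m ^ 2) ^ 4) := by
    rw [← mul_assoc, abs_mul, abs_of_pos (by positivity)]
    exact mul_le_mul_of_nonneg_left k2 (by positivity)
  calc |hc w y - (1 + m) * (m⁻¹ * hc w (y / m)) + m * ((m ^ 2)⁻¹ * hc w (y / m ^ 2))|
      ≤ |hc w y| + |(1 + m) * (m⁻¹ * hc w (y / m))| + |m * ((m ^ 2)⁻¹ * hc w (y / m ^ 2))| := by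
        refine (abs_add_le _ _).trans ?_
        gcongr
        exact abs_sub _ _
    _ ≤ C / y ^ 4 + (1 + m) * m⁻¹ * (C / (y / m) ^ 4) + m * (m ^ 2)⁻¹ * (C / (y / m ^ 2) ^ 4) := by
        gcongr
    _ = _ := by
        field_simp

/-! ### The theta type sums -/

/-- the constant `∑ 1/(n+1)^4` -/
noncomputable def Z4 : ℝ := ∑' n : ℕ, 1 / ((n : ℝ) + 1) ^ 4

theorem Z4_sum : Summable (fun n : ℕ => 1 / ((n : ℝ) + 1) ^ 4) := by
  have h1 := (summable_nat_add_iff 1).2 (Real.summable_one_div_nat_pow.2 (by norm_num : 1 < 4))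
  refine h1.congr fun n => ?_
  push_cast
  rfl

theorem Z4_nonneg : 0 ≤ Z4 := tsum_nonneg fun n => by positivity

theorem Th_zero {Λ : ℝ} {h : ℝ → ℝ} (hW : Wn Λ h) {u : ℝ} (hu : Λ < u) : Th h u = 0 := by
  unfold Th
  have h1 : ∀ n : ℕ, h (((n : ℝ) + 1) * Real.exp u) = 0 := by
    intro n
    apply hW.supp
    have h2 : Real.exp Λ < Real.exp u := Real.exp_lt_exp.2 hu
    have h3 : Real.exp u ≤ ((n : ℝ) + 1) * Real.exp u :=
      le_mul_of_one_le_left (Real.exp_pos u).le (by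
        have : (0 : ℝ) ≤ n := Nat.cast_nonneg n
        linarith)
    rw [abs_of_pos (by positivity)]
    linarith
  simp only [h1, tsum_zero, mul_zero]

theorem Th_tail {Λ : ℝ} {k : ℝ → ℝ} {C : ℝ} (hk : ∀ y : ℝ, Real.exp Λ ≤ y → |k y| ≤ C / y ^ 4)
    {u : ℝ} (hu : Λ ≤ u) : |Th k u| ≤ C * Z4 * Real.exp (-(7 / 2) * u) := by
  unfold Th
  have h1 : HasSum (fun n : ℕ => C * Real.exp (-4 * u) * (1 / ((n : ℝ) + 1) ^ 4))
      (C * Real.exp (-4 * u) * Z4) := Z4_sum.hasSum.mul_left _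
  have h2 : ‖∑' n : ℕ, k (((n : ℝ) + 1) * Real.exp u)‖ ≤ C * Real.exp (-4 * u) * Z4 := by
    refine tsum_of_norm_bounded h1 fun n => ?_
    have hn : (0 : ℝ) ≤ n := Nat.cast_nonneg n
    have h3 : Real.exp Λ ≤ ((n : ℝ) + 1) * Real.exp u :=
      (Real.exp_le_exp.2 hu).trans (le_mul_of_one_le_left (Real.exp_pos u).le (by linarith))
    refine (hk _ h3).trans (le_of_eq ?_)
    have h4 : Real.exp (-4 * u) = (Real.exp u ^ 4)⁻¹ := by
      rw [← Real.exp_nat_mul, ← Real.exp_neg]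
      congr 1
      push_cast
      ring
    rw [h4, mul_pow]
    field_simp
  rw [abs_mul, abs_of_pos (Real.exp_pos _)]
  rw [Real.norm_eq_abs] at h2
  calc Real.exp (u / 2) * |∑' n : ℕ, k (((n : ℝ) + 1) * Real.exp u)|
      ≤ Real.exp (u / 2) * (C * Real.exp (-4 * u) * Z4) := by gcongr
    _ = C * Z4 * (Real.exp (u / 2) * Real.exp (-4 * u)) := by ring
    _ = C * Z4 * Real.exp (-(7 / 2) * u) := by
        rw [← Real.exp_add]
        congr 2
        ring

/-- the symmetrised sum -/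
noncomputable def GG (h : ℝ → ℝ) (u : ℝ) : ℝ := Th h u + Th h (-u)

/-- its truncation -/
noncomputable def G0 (h : ℝ → ℝ) (Λ : ℝ) : ℝ → ℝ := (Icc (-Λ) Λ).indicator (GG h)

theorem GG_even (h : ℝ → ℝ) (u : ℝ) : GG h (-u) = GG h u := by
  unfold GG
  rw [neg_neg, add_comm]

theorem G0_even (h : ℝ → ℝ) (Λ u : ℝ) : G0 h Λ (-u) = G0 h Λ u := by
  unfold G0
  by_cases hu : u ∈ Icc (-Λ) Λ
  · have hu' : -u ∈ Icc (-Λ) Λ := ⟨by linarith [hu.2], by linarith [hu.1]⟩
    rw [indicator_of_mem hu, indicator_of_mem hu', GG_even]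
  · have hu' : -u ∉ Icc (-Λ) Λ := fun h' => hu ⟨by linarith [h'.2], by linarith [h'.1]⟩
    rw [indicator_of_notMem hu, indicator_of_notMem hu']

theorem G0_supp (h : ℝ → ℝ) (Λ u : ℝ) (hu : Λ < |u|) : G0 h Λ u = 0 := by
  unfold G0
  rw [indicator_of_notMem]
  intro h'
  exact absurd (abs_le.2 h') (not_le.2 hu)

theorem GG_tail (h3 : S_POI) {Λ : ℝ} {h : ℝ → ℝ} (hW : Wn Λ h) (h0 : h 0 = 0)
    (hi : ∫ x : ℝ, h x = 0) {C : ℝ} (hC : ∀ y : ℝ, Real.exp Λ ≤ y → |hc h y| ≤ C / y ^ 4)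
    {u : ℝ} (hu : Λ < |u|) : |GG h u| ≤ C * Z4 * Real.exp (-(7 / 2) * |u|) := by
  have key : ∀ v : ℝ, Λ < v → |GG h v| ≤ C * Z4 * Real.exp (-(7 / 2) * v) := by
    intro v hv
    unfold GG
    rw [Th_zero hW hv, zero_add, (h3 _ h hW.smooth hW.even hW.supp h0 hi).1 (-v), neg_neg]
    exact Th_tail hC hv.le
  rcases abs_cases u with ⟨h', -⟩ | ⟨h', -⟩
  · rw [h'] at hu ⊢
    exact key u hu
  · rw [h'] at hu ⊢
    rw [← GG_even]
    exact key (-u) hu

/-- the product of `ζ` and the Mellin transform -/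
noncomputable def EE (h : ℝ → ℝ) (z : ℂ) : ℂ :=
  riemannZeta (1 / 2 + I * z) * ∫ u : ℝ, (h (Real.exp u) : ℂ) * cexp ((1 / 2 + I * z) * u)

theorem exp_maj (t : ℝ) : Real.exp (-3 * |t|) ≤ (1 + t ^ 2)⁻¹ := by
  have h1 : 1 + t ^ 2 ≤ Real.exp (3 * |t|) := by
    have h2 := Real.quadratic_le_exp_of_nonneg (show 0 ≤ 3 * |t| by positivity)
    have h3 := sq_abs t
    nlinarith [abs_nonneg t]
  have h4 : Real.exp (-3 * |t|) = (Real.exp (3 * |t|))⁻¹ := by
    rw [← Real.exp_neg]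
    congr 1
    ring
  rw [h4]
  exact inv_anti₀ (by positivity) h1

/-- the transform of the truncated sum -/
theorem est (h3 : S_POI) (h4 : S_MEL) {Λ : ℝ} {h : ℝ → ℝ} (hW : Wn Λ h) (h0 : h 0 = 0)
    (hi : ∫ x : ℝ, h x = 0) {C : ℝ} (hC0 : 0 ≤ C)
    (hC : ∀ y : ℝ, Real.exp Λ ≤ y → |hc h y| ≤ C / y ^ 4) :
    Integrable (G0 h Λ) ∧ ∀ z : ℂ, |z.im| < 1 / 2 →
      ‖Ct (co (G0 h Λ)) z - (EE h z + EE h (-z))‖ ≤ C * Z4 * Real.pi := by
  obtain ⟨hcont, hmel⟩ := h4 _ h hW.smooth hW.even hW.supp h0 hi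
  have hGc : Continuous (GG h) := by
    unfold GG
    exact hcont.add (hcont.comp continuous_neg)
  have hint : Integrable (G0 h Λ) := by
    unfold G0
    exact (hGc.integrableOn_Icc).integrable_indicator measurableSet_Icc
  refine ⟨hint, fun z hz => ?_⟩
  obtain ⟨i1, e1⟩ := hmel z hz
  obtain ⟨i2, e2⟩ := hmel (-z) (by rwa [Complex.neg_im, abs_neg])
  have i2' : Integrable (fun u : ℝ => (Th h (-u) : ℂ) * cexp (I * z * u)) := by
    have h5 := i2.comp_neg
    refine h5.congr (Filter.Eventually.of_forall fun u => ?_)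
    simp only
    congr 2
    push_cast
    ring
  have e2' : ∫ u : ℝ, (Th h (-u) : ℂ) * cexp (I * z * u) = EE h (-z) := by
    unfold EE
    rw [← e2, ← integral_neg_eq_self (fun u : ℝ => (Th h u : ℂ) * cexp (I * (-z) * u))]
    refine integral_congr_ae (Filter.Eventually.of_forall fun u => ?_)
    simp only
    congr 2
    push_cast
    ring
  have e1' : ∫ u : ℝ, (Th h u : ℂ) * cexp (I * z * u) = EE h z := e1
  have e3 : ∫ u : ℝ, ((Th h u : ℂ) * cexp (I * z * u) + (Th h (-u) : ℂ) * cexp (I * z * u)) =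
      EE h z + EE h (-z) := by
    rw [integral_add i1 i2', e1', e2']
  have i4 := int_exp (G0 h Λ) Λ hint (G0_supp h Λ) z
  have i5 : Integrable (fun u : ℝ => (Th h u : ℂ) * cexp (I * z * u) +
      (Th h (-u) : ℂ) * cexp (I * z * u)) := i1.add i2'
  rw [Ct_even (co (G0 h Λ)) (fun x => by unfold co; rw [G0_even]) z i4, ← e3,
    ← integral_sub i4 i5]
  have h6 : ∫ u : ℝ, C * Z4 * (1 + u ^ 2)⁻¹ = C * Z4 * Real.pi := by
    rw [integral_const_mul, integral_univ_inv_one_add_sq]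
  rw [← h6]
  refine norm_integral_le_of_norm_le (integrable_inv_one_add_sq.const_mul _)
    (Filter.Eventually.of_forall fun u => ?_)
  have h7 : co (G0 h Λ) u * cexp (I * z * u) - ((Th h u : ℂ) * cexp (I * z * u) +
      (Th h (-u) : ℂ) * cexp (I * z * u)) =
      ((G0 h Λ u - GG h u : ℝ) : ℂ) * cexp (I * z * u) := by
    unfold co GG
    push_cast
    ring
  rw [h7, norm_mul, Complex.norm_real, Real.norm_eq_abs]
  by_cases hu : Λ < |u|
  · rw [G0_supp h Λ u hu, zero_sub, abs_neg]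
    have h8 := GG_tail h3 hW h0 hi hC hu
    have h9 := norm_cexp_le z u
    have h10 : Real.exp (|z.im| * |u|) ≤ Real.exp (1 / 2 * |u|) := by
      apply Real.exp_le_exp.2
      gcongr
    have h11 := Z4_nonneg
    calc |GG h u| * ‖cexp (I * z * u)‖
        ≤ (C * Z4 * Real.exp (-(7 / 2) * |u|)) * Real.exp (1 / 2 * |u|) := by
          apply mul_le_mul h8 (h9.trans h10) (norm_nonneg _) (by positivity)
      _ = C * Z4 * Real.exp (-3 * |u|) := by
          rw [mul_assoc, ← Real.exp_add]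
          congr 2
          ring
      _ ≤ C * Z4 * (1 + u ^ 2)⁻¹ := by
          gcongr
          exact exp_maj u
  · have h8 : G0 h Λ u = GG h u := by
      unfold G0
      rw [indicator_of_mem]
      exact abs_le.1 (not_lt.1 hu)
    have h11 := Z4_nonneg
    rw [h8, sub_self, abs_zero, zero_mul]
    positivity

theorem EE_zero (h : ℝ → ℝ) : EE h 0 = riemannZeta (1 / 2) * (JJ h : ℂ) := by
  unfold EE JJ
  rw [mul_zero, add_zero]
  congr 1
  have h1 : ((∫ u : ℝ, h (Real.exp u) * Real.exp (u / 2) : ℝ) : ℂ) =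
      ∫ u : ℝ, ((h (Real.exp u) * Real.exp (u / 2) : ℝ) : ℂ) := integral_ofReal.symm
  rw [h1]
  refine integral_congr_ae (Filter.Eventually.of_forall fun u => ?_)
  simp only
  push_cast
  congr 2
  ring

theorem Ct_zero (G : ℝ → ℝ) : Ct (co G) 0 = ((∫ x : ℝ, G x : ℝ) : ℂ) := by
  unfold Ct co
  simp only [zero_mul, Complex.cos_zero, mul_one]
  exact integral_ofReal

/-- the elementary inequality -/
theorem growth {ε c₀ K a : ℝ} (hε : 0 < ε) (hc : 0 < c₀) (ha1 : 1 ≤ a) (ha2 : 3 / (2 * ε) ≤ a)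
    (ha3 : K / c₀ ≤ a) :
    K * Real.exp ((2 * Real.pi - ε) * Real.exp (2 * a)) ≤
      c₀ * (Real.exp (-a / 2) * Real.exp ((2 * Real.pi - ε / 2) * Real.exp (2 * a))) := by
  obtain ⟨X, hX⟩ : ∃ X, X = Real.exp (2 * a) := ⟨_, rfl⟩
  have hX2 : 2 * a ^ 2 ≤ X := by
    have := Real.quadratic_le_exp_of_nonneg (show 0 ≤ 2 * a by linarith)
    rw [hX]
    nlinarith
  have h1 : 3 / 2 ≤ ε * a := by
    rw [div_le_iff₀ (by positivity)] at ha2
    nlinarith
  have h2 : a ≤ ε / 2 * X - a / 2 := by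
    have h3 : ε / 2 * (2 * a ^ 2) ≤ ε / 2 * X := by gcongr
    nlinarith
  have h4 : K ≤ c₀ * Real.exp (ε / 2 * X - a / 2) := by
    rw [div_le_iff₀ hc] at ha3
    calc K ≤ a * c₀ := ha3
      _ ≤ Real.exp (ε / 2 * X - a / 2) * c₀ := by
          gcongr
          have := Real.add_one_le_exp (ε / 2 * X - a / 2)
          linarith
      _ = _ := mul_comm _ _
  rw [← hX]
  have h5 : Real.exp (-a / 2) * Real.exp ((2 * Real.pi - ε / 2) * X) =
      Real.exp (ε / 2 * X - a / 2) * Real.exp ((2 * Real.pi - ε) * X) := by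
    rw [← Real.exp_add, ← Real.exp_add]
    congr 1
    ring
  rw [h5, ← mul_assoc]
  exact mul_le_mul_of_nonneg_right h4 (Real.exp_pos _).le

theorem t_TRJ (h1 : S_XI0) (h2 : S_WIN) (h3 : S_POI) (h4 : S_MEL) : S_TRJ := by
  intro ε₀ hε₀
  obtain ⟨-, hXe, hX0, -, hXz, -⟩ := h1
  obtain ⟨ε, hεd⟩ : ∃ ε, ε = min ε₀ 1 := ⟨_, rfl⟩
  have hε : 0 < ε := by rw [hεd]; exact lt_min hε₀ one_pos
  have hε1 : ε ≤ 1 := by rw [hεd]; exact min_le_right _ _
  have hεε : ε ≤ ε₀ := by rw [hεd]; exact min_le_left _ _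
  obtain ⟨δ, hδ⟩ : ∃ δ, δ = ε / 60 := ⟨_, rfl⟩
  have hδ0 : 0 < δ := by rw [hδ]; positivity
  have hδ1 : δ ≤ 1 / 60 := by rw [hδ]; linarith
  obtain ⟨C₁, l₀, hl₀, hw⟩ := h2 δ hδ0 (by linarith)
  obtain ⟨L, hL⟩ : ∃ L, L = -Real.log (1 - δ) / 2 := ⟨_, rfl⟩
  have hLpos : 0 < L := by
    rw [hL]
    have := Real.log_neg (show 0 < 1 - δ by linarith) (by linarith)
    linarith
  have hLe : Real.exp (-2 * L) = 1 - δ := by
    rw [hL, show -2 * (-Real.log (1 - δ) / 2) = Real.log (1 - δ) by ring,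
      Real.exp_log (by linarith)]
  obtain ⟨ρ, hρ1, hρ2, hρ3, hρ4, hρ5⟩ := bump δ hδ0
  have hcoρ : ContDiff ℝ ∞ (co ρ) := Complex.ofRealCLM.contDiff.comp hρ1
  have hcoρs : HasCompactSupport (co ρ) := hρ3.comp_left Complex.ofReal_zero
  obtain ⟨C₃, hC₃, hdec⟩ := Ct_decay (co ρ) hcoρ hcoρs
  obtain ⟨C, hCd⟩ : ∃ C, C = |C₁| *
      (1 + (1 + Real.exp L) * Real.exp (3 * L) + Real.exp (7 * L)) := ⟨_, rfl⟩
  have hC0 : 0 ≤ C := by rw [hCd]; positivity
  obtain ⟨K, hK⟩ : ∃ K, K = C * Z4 * Real.pi := ⟨_, rfl⟩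
  have hZ := Z4_nonneg
  have hK0 : 0 ≤ K := by
    rw [hK]
    have := Real.pi_pos
    positivity
  -- the value of the zeta function
  have hζ : riemannZeta (1 / 2) ≠ 0 := by
    intro h0
    apply hX0
    rw [hXz 0, mul_zero, add_zero]
    refine ⟨h0, ?_, ?_⟩ <;> norm_num
  obtain ⟨κ, hκ⟩ : ∃ κ, κ = (Real.exp (L / 4) - Real.exp (-L / 4)) ^ 2 := ⟨_, rfl⟩
  have hκ0 : 0 < κ := by
    rw [hκ]
    have : Real.exp (-L / 4) < Real.exp (L / 4) := Real.exp_lt_exp.2 (by linarith)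
    have h5 : 0 < Real.exp (L / 4) - Real.exp (-L / 4) := by linarith
    positivity
  obtain ⟨c₀, hc₀⟩ : ∃ c₀, c₀ = ‖riemannZeta (1 / 2)‖ * κ := ⟨_, rfl⟩
  have hc₀0 : 0 < c₀ := by
    rw [hc₀]
    exact mul_pos (norm_pos_iff.2 hζ) hκ0
  refine ⟨max (max 1 (3 / (2 * ε))) (max ((K * C₃ + K + 1) / c₀) (Real.log l₀ + δ)),
    lt_of_lt_of_le one_pos ((le_max_left _ _).trans (le_max_left _ _)), fun a ha => ?_⟩
  have ha1 : 1 ≤ a := ((le_max_left _ _).trans (le_max_left _ _)).trans ha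
  have ha2 : 3 / (2 * ε) ≤ a := ((le_max_right _ _).trans (le_max_left _ _)).trans ha
  have ha3 : (K * C₃ + K + 1) / c₀ ≤ a := ((le_max_left _ _).trans (le_max_right _ _)).trans ha
  have ha4 : Real.log l₀ + δ ≤ a := ((le_max_right _ _).trans (le_max_right _ _)).trans ha
  obtain ⟨Λ, hΛ⟩ : ∃ Λ, Λ = a - δ := ⟨_, rfl⟩
  have hl : l₀ ≤ Real.exp Λ := by
    rw [← Real.log_le_iff_le_exp (by linarith)]
    linarith
  obtain ⟨w, w1, w2, w3, w4, w5, w6⟩ := hw (Real.exp Λ) hl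
  have hW : Wn Λ w := ⟨w1, w2, w4⟩
  have hwy : ∀ y : ℝ, Real.exp (-2 * L) * Real.exp Λ ≤ y → |hc w y| ≤ |C₁| / y ^ 4 := by
    intro y hy
    rw [hLe] at hy
    refine (w6 y hy).trans ?_
    have hy0 : 0 < y := lt_of_lt_of_le (mul_pos (by linarith) (Real.exp_pos _)) hy
    gcongr
    exact le_abs_self _
  have hWh : Wn Λ (hh w L) := hh_Wn hW hLpos.le
  obtain ⟨hGi, hest⟩ := est h3 h4 hWh (hh_zero w L) (hh_int hW hLpos.le) hC0
    (fun y hy => by rw [hCd]; exact hh_hc hW hLpos.le hwy y hy)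
  rw [← hK] at hest
  -- the integral of the truncated sum
  obtain ⟨c, hcd⟩ : ∃ c, c = ∫ x : ℝ, G0 (hh w L) Λ x := ⟨_, rfl⟩
  have hI : ‖riemannZeta (1 / 2)‖ * (κ * (Real.exp (-Λ / 2) * ∫ x : ℝ, w x)) - K ≤ |c| := by
    have k1 := hest 0 (by norm_num)
    rw [Ct_zero, neg_zero, EE_zero, ← hcd] at k1
    have k2 : |JJ (hh w L)| = κ * JJ w := by
      have hJ0 : 0 ≤ JJ w := by
        unfold JJ
        exact integral_nonneg fun u => mul_nonneg (w3 _) (Real.exp_pos _).le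
      rw [hh_JJ hW hLpos.le, ← hκ, abs_mul, abs_neg, abs_of_pos hκ0, abs_of_nonneg hJ0]
    have k3 := JJ_lower hW w3
    have k4 : ‖riemannZeta (1 / 2) * (JJ (hh w L) : ℂ) + riemannZeta (1 / 2) * (JJ (hh w L) : ℂ)‖ =
        2 * (‖riemannZeta (1 / 2)‖ * (κ * JJ w)) := by
      rw [← two_mul, norm_mul, norm_mul, Complex.norm_real, Real.norm_eq_abs, k2]
      norm_num
    have k5 := norm_sub_norm_le (riemannZeta (1 / 2) * (JJ (hh w L) : ℂ) +
      riemannZeta (1 / 2) * (JJ (hh w L) : ℂ)) ((c : ℝ) : ℂ)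
    rw [norm_sub_rev, k4, Complex.norm_real, Real.norm_eq_abs] at k5
    have k6 : ‖riemannZeta (1 / 2)‖ * (κ * (Real.exp (-Λ / 2) * ((∫ x : ℝ, w x) / 2))) ≤
        ‖riemannZeta (1 / 2)‖ * (κ * JJ w) := by gcongr
    linarith
  have hX : (2 * Real.pi - ε / 2) * Real.exp (2 * a) ≤
      (1 - 2 * δ) * (2 * Real.pi * Real.exp Λ ^ 2) := by
    have e1 : Real.exp Λ ^ 2 = Real.exp (2 * a) * Real.exp (-2 * δ) := by
      rw [← Real.exp_nat_mul, ← Real.exp_add, hΛ]
      congr 1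
      push_cast
      ring
    have e2 : 1 - 2 * δ ≤ Real.exp (-2 * δ) := by
      have := Real.add_one_le_exp (-2 * δ)
      linarith
    have e3 := Real.pi_lt_d2
    have e4 := Real.pi_pos
    rw [e1]
    have e5 : 2 * Real.pi - ε / 2 ≤ (1 - 2 * δ) * (2 * Real.pi) * (1 - 2 * δ) := by
      rw [hδ]
      nlinarith [sq_nonneg ε]
    calc (2 * Real.pi - ε / 2) * Real.exp (2 * a)
        ≤ ((1 - 2 * δ) * (2 * Real.pi) * (1 - 2 * δ)) * Real.exp (2 * a) :=
          mul_le_mul_of_nonneg_right e5 (Real.exp_pos _).le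
      _ ≤ ((1 - 2 * δ) * (2 * Real.pi) * Real.exp (-2 * δ)) * Real.exp (2 * a) := by
          refine mul_le_mul_of_nonneg_right (mul_le_mul_of_nonneg_left e2 ?_)
            (Real.exp_pos _).le
          have : 0 ≤ 1 - 2 * δ := by linarith
          positivity
      _ = _ := by ring
  obtain ⟨E, hE⟩ : ∃ E, E = Real.exp ((2 * Real.pi - ε) * Real.exp (2 * a)) := ⟨_, rfl⟩
  have hE1 : 1 ≤ E := by
    rw [hE]
    apply Real.one_le_exp
    have := Real.pi_gt_three
    exact mul_nonneg (by linarith) (Real.exp_pos _).le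
  have hcE : (K * C₃ + 1) * E ≤ |c| := by
    have g1 := growth (K := K * C₃ + K + 1) hε hc₀0 ha1 ha2 ha3
    rw [← hE] at g1
    have g2 : c₀ * (Real.exp (-a / 2) * Real.exp ((2 * Real.pi - ε / 2) * Real.exp (2 * a))) ≤
        ‖riemannZeta (1 / 2)‖ * (κ * (Real.exp (-Λ / 2) * ∫ x : ℝ, w x)) := by
      rw [hc₀, mul_assoc]
      have g3 : Real.exp (-a / 2) ≤ Real.exp (-Λ / 2) := Real.exp_le_exp.2 (by linarith)
      have g4 : Real.exp ((2 * Real.pi - ε / 2) * Real.exp (2 * a)) ≤ ∫ x : ℝ, w x :=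
        (Real.exp_le_exp.2 hX).trans w5
      gcongr
    have g5 : K * 1 ≤ K * E := by gcongr
    nlinarith
  have hc0 : c ≠ 0 := by
    rintro rfl
    rw [abs_zero] at hcE
    have : 0 < (K * C₃ + 1) * E := by positivity
    linarith
  obtain ⟨hadm, hCt⟩ := smear (G0 (hh w L) Λ) ρ Λ δ a (by rw [hΛ]; ring) hGi
    (G0_even _ _) (G0_supp _ _) (by rw [← hcd]; exact hc0) hρ1 hρ2 hρ3 hρ4 hρ5
  refine ⟨_, hadm, fun z hz hz0 hXi => ?_⟩
  rw [hCt z, ← hcd]
  -- the zeros
  have hN := (hXz z).1 hXi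
  have hN' := (hXz (-z)).1 (by rw [hXe]; exact hXi)
  have hre : (1 / 2 + I * z).re = 1 / 2 - z.im := by
    simp
    ring
  have hzz : |z.im| < 1 / 2 := by
    have n1 := hN.2.1
    have n2 := hN.2.2
    rw [hre] at n1 n2
    rw [abs_lt]
    constructor <;> linarith
  have hE0 : EE (hh w L) z = 0 := by
    unfold EE
    rw [hN.1, zero_mul]
  have hE0' : EE (hh w L) (-z) = 0 := by
    unfold EE
    rw [hN'.1, zero_mul]
  have m1 := hest z hzz
  rw [hE0, hE0', add_zero, sub_zero] at m1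
  have m2 := hdec z hz hz0
  rw [norm_mul, norm_mul, norm_inv, Complex.norm_real, Real.norm_eq_abs]
  have hz2 : 0 < ‖z‖ ^ 2 := by
    have := norm_pos_iff.2 hz0
    positivity
  have hcp : 0 < |c| := abs_pos.2 hc0
  have hE' : Real.exp (-(2 * Real.pi - ε) * Real.exp (2 * a)) = E⁻¹ := by
    rw [hE, ← Real.exp_neg]
    congr 1
    ring
  have m3 : Real.exp (-(2 * Real.pi - ε) * Real.exp (2 * a)) ≤
      Real.exp (-(2 * Real.pi - ε₀) * Real.exp (2 * a)) := by
    apply Real.exp_le_exp.2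
    apply mul_le_mul_of_nonneg_right _ (Real.exp_pos _).le
    linarith
  calc |c|⁻¹ * (‖Ct (co (G0 (hh w L) Λ)) z‖ * ‖Ct (co ρ) z‖)
      ≤ |c|⁻¹ * (K * (C₃ / ‖z‖ ^ 2)) := by gcongr
    _ = |c|⁻¹ * (K * C₃) / ‖z‖ ^ 2 := by ring
    _ ≤ E⁻¹ / ‖z‖ ^ 2 := by
        apply div_le_div_of_nonneg_right _ hz2.le
        rw [inv_mul_le_iff₀ hcp]
        have hEp : 0 < E := by linarith
        rw [← div_eq_mul_inv, le_div_iff₀ hEp]
        nlinarith
    _ ≤ _ := by
        rw [← hE']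
        exact div_le_div_of_nonneg_right m3 hz2.le

end Pool.Agent.H478.WM.TRJ
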