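import Pool.Agent.H478.WM.Stm2

/-!
# Project WM, second part: WIN (Dolph-Chebyshev window)
-/

open Complex MeasureTheory Filter Topology Set
open scoped ContDiff FourierTransform

namespace Pool.Agent.H478.WM.WIN

noncomputable section

/-- the bump -/
def bf : ContDiffBump (0 : ℝ) := ⟨1 / 2, 1, by norm_num, by norm_num⟩

/-- the normalised bump -/
def b (x : ℝ) : ℝ := bf.normed volume x

theorem b_smooth : ContDiff ℝ ∞ b := bf.contDiff_normed

theorem b_even (x : ℝ) : b (-x) = b x := bf.normed_neg x

theorem b_nonneg (x : ℝ) : 0 ≤ b x := bf.nonneg_normed x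

theorem b_supp (x : ℝ) (h : 1 < |x|) : b x = 0 := by
  by_contra hne
  have h1 : x ∈ Function.support (bf.normed volume) := hne
  rw [bf.support_normed_eq, Metric.mem_ball, Real.dist_eq, sub_zero] at h1
  have h2 : bf.rOut = 1 := rfl
  linarith

theorem b_cs : HasCompactSupport b := bf.hasCompactSupport_normed

theorem b_int : ∫ x : ℝ, b x = 1 := bf.integral_normed

/-- the complex valued bump -/
def bc (x : ℝ) : ℂ := (b x : ℂ)

theorem bc_smooth : ContDiff ℝ ∞ bc := Complex.ofRealCLM.contDiff.comp b_smooth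

theorem bc_cs : HasCompactSupport bc := by
  have := b_cs.comp_left (g := fun r : ℝ => (r : ℂ)) (by simp)
  exact this

/-- the cosine transform of the bump -/
def B (y : ℝ) : ℝ := ∫ x : ℝ, b x * Real.cos (2 * Real.pi * x * y)

theorem b_cont : Continuous b := b_smooth.continuous

theorem b_mul_integrable (g : ℝ → ℝ) (hg : Continuous g) : Integrable (fun x : ℝ => b x * g x) :=
  (b_cont.mul hg).integrable_of_hasCompactSupport b_cs.mul_right

theorem B_re (y : ℝ) : B y = (𝓕 bc y).re := by
  rw [Real.fourier_real_eq_integral_exp_smul]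
  have hint : Integrable (fun v : ℝ => Complex.exp (↑(-2 * Real.pi * v * y) * Complex.I) • bc v) := by
    have hc : Continuous (fun v : ℝ => Complex.exp (↑(-2 * Real.pi * v * y) * Complex.I) • bc v) := by
      have := bc_smooth.continuous
      fun_prop
    refine hc.integrable_of_hasCompactSupport (bc_cs.mono ?_)
    intro v hv h0
    apply hv
    simp only
    rw [h0, smul_zero]
  have h1 : ∫ v : ℝ, (Complex.exp (↑(-2 * Real.pi * v * y) * Complex.I) • bc v).re =
      (∫ v : ℝ, Complex.exp (↑(-2 * Real.pi * v * y) * Complex.I) • bc v).re :=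
    Complex.reCLM.integral_comp_comm hint
  rw [← h1]
  unfold B
  refine integral_congr_ae (Eventually.of_forall fun v => ?_)
  simp only [smul_eq_mul, bc]
  rw [Complex.re_mul_ofReal, Complex.exp_ofReal_mul_I_re]
  have : -2 * Real.pi * v * y = -(2 * Real.pi * v * y) := by ring
  rw [this, Real.cos_neg]
  ring

theorem B_decay : ∃ K : ℝ, 0 < K ∧ ∀ y : ℝ, 0 < y → |B y| ≤ K / y ^ 5 := by
  obtain ⟨K, hK, h⟩ := (𝓕 (bc_cs.toSchwartzMap bc_smooth)).decay 5 0
  refine ⟨K, hK, fun y hy => ?_⟩
  have h1 := h y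
  rw [norm_iteratedFDeriv_zero] at h1
  have h2 : (𝓕 (bc_cs.toSchwartzMap bc_smooth)) y = 𝓕 bc y := rfl
  rw [h2, Real.norm_of_nonneg hy.le] at h1
  have h3 : |B y| ≤ ‖𝓕 bc y‖ := by
    rw [B_re]
    exact Complex.abs_re_le_norm _
  rw [le_div_iff₀ (by positivity)]
  calc |B y| * y ^ 5 ≤ ‖𝓕 bc y‖ * y ^ 5 := mul_le_mul_of_nonneg_right h3 (by positivity)
    _ = y ^ 5 * ‖𝓕 bc y‖ := by ring
    _ ≤ K := h1

/-- translates -/
theorem B_shift (a y : ℝ) : ∫ x : ℝ, (b (x - a) + b (x + a)) / 2 * Real.cos (2 * Real.pi * x * y) =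
    Real.cos (2 * Real.pi * a * y) * B y := by
  have i1 : Integrable (fun x : ℝ => b x * Real.cos (2 * Real.pi * (x + a) * y)) :=
    b_mul_integrable _ (by fun_prop)
  have i2 : Integrable (fun x : ℝ => b x * Real.cos (2 * Real.pi * (x - a) * y)) :=
    b_mul_integrable _ (by fun_prop)
  have e1 : ∫ x : ℝ, b (x - a) * Real.cos (2 * Real.pi * x * y) =
      ∫ x : ℝ, b x * Real.cos (2 * Real.pi * (x + a) * y) := by
    rw [← integral_sub_right_eq_self (fun x : ℝ => b x * Real.cos (2 * Real.pi * (x + a) * y)) a]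
    refine integral_congr_ae (Eventually.of_forall fun x => ?_)
    simp only [sub_add_cancel]
  have e2 : ∫ x : ℝ, b (x + a) * Real.cos (2 * Real.pi * x * y) =
      ∫ x : ℝ, b x * Real.cos (2 * Real.pi * (x - a) * y) := by
    rw [← integral_add_right_eq_self (fun x : ℝ => b x * Real.cos (2 * Real.pi * (x - a) * y)) a]
    refine integral_congr_ae (Eventually.of_forall fun x => ?_)
    simp only [add_sub_cancel_right]
  have j1 : Integrable (fun x : ℝ => b (x - a) * Real.cos (2 * Real.pi * x * y)) := by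
    have := i1.comp_sub_right a
    refine this.congr (Eventually.of_forall fun x => ?_)
    simp only [sub_add_cancel]
  have j2 : Integrable (fun x : ℝ => b (x + a) * Real.cos (2 * Real.pi * x * y)) := by
    have := i2.comp_add_right a
    refine this.congr (Eventually.of_forall fun x => ?_)
    simp only [add_sub_cancel_right]
  have e3 : ∫ x : ℝ, (b (x - a) + b (x + a)) / 2 * Real.cos (2 * Real.pi * x * y) =
      (1 / 2) * (∫ x : ℝ, b (x - a) * Real.cos (2 * Real.pi * x * y)) +
      (1 / 2) * (∫ x : ℝ, b (x + a) * Real.cos (2 * Real.pi * x * y)) := by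
    rw [← integral_const_mul, ← integral_const_mul, ← integral_add (j1.const_mul _) (j2.const_mul _)]
    refine integral_congr_ae (Eventually.of_forall fun x => ?_)
    simp only
    ring
  rw [e3, e1, e2, ← integral_const_mul, ← integral_const_mul,
    ← integral_add (i1.const_mul _) (i2.const_mul _)]
  unfold B
  rw [← integral_const_mul]
  refine integral_congr_ae (Eventually.of_forall fun x => ?_)
  simp only
  have h1 : 2 * Real.pi * (x + a) * y = 2 * Real.pi * x * y + 2 * Real.pi * a * y := by ring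
  have h2 : 2 * Real.pi * (x - a) * y = 2 * Real.pi * x * y - 2 * Real.pi * a * y := by ring
  rw [h1, h2, Real.cos_add, Real.cos_sub]
  ring

theorem shift_integrable (a y : ℝ) :
    Integrable (fun x : ℝ => (b (x - a) + b (x + a)) / 2 * Real.cos (2 * Real.pi * x * y)) := by
  have hc : HasCompactSupport (fun x : ℝ => (b (x - a) + b (x + a)) / 2 *
      Real.cos (2 * Real.pi * x * y)) := by
    refine HasCompactSupport.intro (K := Icc (-(1 + |a|)) (1 + |a|)) isCompact_Icc ?_
    intro x hx
    have h1 : 1 + |a| < |x| := by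
      by_contra hcon
      push Not at hcon
      exact hx (abs_le.1 hcon)
    have h2 : b (x - a) = 0 := b_supp _ (by
      have := abs_sub_abs_le_abs_sub x a
      linarith)
    have h3 : b (x + a) = 0 := b_supp _ (by
      have := abs_sub_abs_le_abs_sub x (-a)
      rw [abs_neg, sub_neg_eq_add] at this
      linarith)
    rw [h2, h3]
    simp
  have := b_cont
  exact Continuous.integrable_of_hasCompactSupport (by fun_prop) hc

/-- the window -/
def win (N : ℕ) (c : ℕ → ℝ) (L x : ℝ) : ℝ :=
  ∑ k ∈ Finset.range (N + 1), c k * ((b (x - k * L / N) + b (x + k * L / N)) / 2)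

theorem win_ft (N : ℕ) (c : ℕ → ℝ) (L s y : ℝ)
    (hc : ∀ x : ℝ, (Polynomial.Chebyshev.T ℝ (N : ℤ)).eval (s * x) =
      ∑ k ∈ Finset.range (N + 1), c k * (Polynomial.Chebyshev.T ℝ (k : ℤ)).eval x) :
    ∫ x : ℝ, win N c L x * Real.cos (2 * Real.pi * x * y) =
      (Polynomial.Chebyshev.T ℝ (N : ℤ)).eval (s * Real.cos (2 * Real.pi * L * y / N)) * B y := by
  have h1 : ∀ x : ℝ, win N c L x * Real.cos (2 * Real.pi * x * y) =
      ∑ k ∈ Finset.range (N + 1), c k * ((b (x - k * L / N) + b (x + k * L / N)) / 2 *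
        Real.cos (2 * Real.pi * x * y)) := by
    intro x
    unfold win
    rw [Finset.sum_mul]
    refine Finset.sum_congr rfl fun k _ => ?_
    ring
  simp_rw [h1]
  rw [integral_finsetSum _ (fun k _ => (shift_integrable _ _).const_mul _), hc, Finset.sum_mul]
  refine Finset.sum_congr rfl fun k _ => ?_
  rw [integral_const_mul, B_shift, Polynomial.Chebyshev.T_real_cos]
  have h2 : 2 * Real.pi * (k * L / N) * y = ((k : ℤ) : ℝ) * (2 * Real.pi * L * y / N) := by
    push_cast
    ring
  rw [h2]
  ring

theorem t_WIN (h1 : S_CHP) (h2 : S_CHB) : S_WIN := by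
  intro ε hε hε4
  obtain ⟨K, hK, hB⟩ := B_decay
  obtain ⟨hT1, hT2, hT3, hcc⟩ := h2
  refine ⟨K, 2 / ε, ?_, ?_⟩
  · rw [le_div_iff₀ hε]
    linarith
  intro l hl
  have hεl : 2 ≤ ε * l := by
    have := mul_le_mul_of_nonneg_left hl hε.le
    rwa [mul_div_cancel₀ _ hε.ne'] at this
  have hl8 : 8 ≤ l := by nlinarith
  have hpi := Real.pi_gt_three
  set L : ℝ := l - 1 with hL
  have hL0 : 0 < L := by rw [hL]; linarith
  set c : ℝ := 2 * Real.pi * L * ((1 - ε) * l) with hcdef
  have hc0 : 0 < c := by
    rw [hcdef]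
    have : 0 < 1 - ε := by linarith
    positivity
  have hcosh : 0 < Real.cosh c := Real.cosh_pos c
  obtain ⟨N, hN⟩ := exists_nat_gt (c + 2 * Real.pi * L * Real.cosh c)
  have hNc : c < N := by
    have : 0 < 2 * Real.pi * L * Real.cosh c := by positivity
    linarith
  have hN0 : (0 : ℝ) < N := hc0.trans hNc
  set t₀ : ℝ := c / N with ht₀
  have ht0 : 0 < t₀ := div_pos hc0 hN0
  have ht1 : t₀ < 1 := (div_lt_one hN0).2 hNc
  have hNt : N * t₀ = c := by
    rw [ht₀]
    field_simp
  obtain ⟨a, ha0, ha⟩ := h1 N (Real.cosh t₀) (Real.one_le_cosh t₀)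
  refine ⟨win N a L, ?_, ?_, ?_, ?_, ?_, ?_⟩
  · -- smooth
    unfold win
    have := b_smooth
    fun_prop
  · intro x
    unfold win
    refine Finset.sum_congr rfl fun k _ => ?_
    have e1 : -x - k * L / N = -(x + k * L / N) := by ring
    have e2 : -x + k * L / N = -(x - k * L / N) := by ring
    rw [e1, e2, b_even, b_even]
    ring
  · intro x
    unfold win
    refine Finset.sum_nonneg fun k _ => mul_nonneg (ha0 k) ?_
    have := b_nonneg (x - k * L / N)
    have := b_nonneg (x + k * L / N)
    linarith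
  · intro x hx
    unfold win
    refine Finset.sum_eq_zero fun k hk => ?_
    have hk' : (k : ℝ) ≤ N := by
      exact_mod_cast Nat.lt_succ_iff.1 (Finset.mem_range.1 hk)
    have hkL : |(k : ℝ) * L / N| ≤ L := by
      rw [abs_of_nonneg (by positivity), div_le_iff₀ hN0]
      nlinarith
    have e1 : b (x - k * L / N) = 0 := b_supp _ (by
      have := abs_sub_abs_le_abs_sub x (k * L / N)
      linarith)
    have e2 : b (x + k * L / N) = 0 := b_supp _ (by
      have := abs_sub_abs_le_abs_sub x (-(k * L / N))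
      rw [abs_neg, sub_neg_eq_add] at this
      linarith)
    rw [e1, e2]
    simp
  · -- the integral
    have e1 := win_ft N a L (Real.cosh t₀) 0 ha
    simp only [mul_zero, zero_div, Real.cos_zero, mul_one] at e1
    rw [e1, hT2, hNt]
    have e2 : B 0 = 1 := by
      unfold B
      simp only [mul_zero, Real.cos_zero, mul_one]
      exact b_int
    rw [e2, mul_one, Real.cosh_eq]
    have e3 : 0 < Real.exp (-c) := Real.exp_pos _
    have e4 : Real.exp ((1 - 2 * ε) * (2 * Real.pi * l ^ 2)) ≤ Real.exp (c - 1) := by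
      apply Real.exp_le_exp.2
      have e5 : c - (1 - 2 * ε) * (2 * Real.pi * l ^ 2) =
          2 * Real.pi * (ε * l ^ 2 - (1 - ε) * l) := by
        rw [hcdef, hL]
        ring
      have e6 : l ≤ ε * l ^ 2 - (1 - ε) * l := by nlinarith
      have e7 : 1 ≤ 2 * Real.pi * (ε * l ^ 2 - (1 - ε) * l) := by nlinarith
      linarith
    have e8 : Real.exp (c - 1) ≤ Real.exp c / 2 := by
      rw [Real.exp_sub, div_le_div_iff₀ (Real.exp_pos 1) (by norm_num)]
      have := Real.add_one_le_exp (1 : ℝ)
      have h9 := Real.exp_pos c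
      nlinarith
    linarith
  · intro y hy
    have hy1 : 1 ≤ y := by nlinarith
    have hy0 : 0 < y := by linarith
    rw [win_ft N a L (Real.cosh t₀) y ha, abs_mul]
    set θ : ℝ := 2 * Real.pi * L * y / N with hθ
    have hBy := hB y hy0
    have hct : 0 < Real.cosh t₀ := Real.cosh_pos t₀
    have hθ0 : t₀ ≤ θ := by
      rw [ht₀, hθ, hcdef]
      refine div_le_div_of_nonneg_right ?_ hN0.le
      exact mul_le_mul_of_nonneg_left hy (by positivity)
    by_cases hcase : θ ≤ Real.pi - t₀
    · have f1 : |Real.cos θ| ≤ Real.cos t₀ := by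
        rw [abs_le]
        constructor
        · have := Real.cos_le_cos_of_nonneg_of_le_pi (x := θ) (y := Real.pi - t₀)
            (by linarith) (by linarith) hcase
          rw [Real.cos_pi_sub] at this
          exact this
        · exact Real.cos_le_cos_of_nonneg_of_le_pi ht0.le (by linarith) hθ0
      have f2 := hcc t₀ ht0.le (by linarith)
      have f3 : |Real.cosh t₀ * Real.cos θ| ≤ 1 := by
        rw [abs_mul, abs_of_pos hct]
        calc Real.cosh t₀ * |Real.cos θ| ≤ Real.cosh t₀ * Real.cos t₀ :=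
              mul_le_mul_of_nonneg_left f1 hct.le
          _ = Real.cos t₀ * Real.cosh t₀ := by ring
          _ ≤ 1 := f2
      have f4 := hT1 N _ f3
      calc |(Polynomial.Chebyshev.T ℝ (N : ℤ)).eval (Real.cosh t₀ * Real.cos θ)| * |B y|
          ≤ 1 * (K / y ^ 5) := mul_le_mul f4 hBy (abs_nonneg _) zero_le_one
        _ = K / y ^ 5 := one_mul _
        _ ≤ K / y ^ 4 := by
            refine div_le_div_of_nonneg_left hK.le (by positivity) ?_
            exact pow_le_pow_right₀ hy1 (by norm_num)
    · push Not at hcase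
      have f1 : |Real.cosh t₀ * Real.cos θ| ≤ Real.cosh t₀ := by
        rw [abs_mul, abs_of_pos hct]
        exact mul_le_of_le_one_right hct.le (Real.abs_cos_le_one θ)
      have f2 := hT3 N t₀ _ f1
      rw [hNt] at f2
      have f3 : Real.cosh c ≤ y := by
        have g1 : N * (Real.pi - t₀) < 2 * Real.pi * L * y := by
          have := mul_lt_mul_of_pos_left hcase hN0
          rw [hθ, mul_div_cancel₀ _ hN0.ne'] at this
          exact this
        have g2 : N * (Real.pi - t₀) = N * Real.pi - c := by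
          rw [mul_sub, hNt]
        rw [g2] at g1
        have g3 : 2 * Real.pi * L * Real.cosh c < 2 * Real.pi * L * y := by nlinarith
        exact (lt_of_mul_lt_mul_left g3 (by positivity)).le
      have f4 : K / y ^ 5 * y = K / y ^ 4 := by
        field_simp
      calc |(Polynomial.Chebyshev.T ℝ (N : ℤ)).eval (Real.cosh t₀ * Real.cos θ)| * |B y|
          ≤ Real.cosh c * (K / y ^ 5) := mul_le_mul f2 hBy (abs_nonneg _) hcosh.le
        _ ≤ y * (K / y ^ 5) := mul_le_mul_of_nonneg_right f3 (by positivity)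
        _ = K / y ^ 4 := by rw [mul_comm, f4]

end

end Pool.Agent.H478.WM.WIN
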