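import Pool.Agent.H478.WM.Stm2

/-!
# Project WM, part WL: the energy of the sharper trial functions
-/

set_option autoImplicit false

open Complex MeasureTheory Filter Topology Set
open scoped ContDiff

namespace Pool.Agent.H478.WM.WL

noncomputable section

/-- the argument attached to a zero -/
def zz (ρ : ℂ) : ℂ := -I * (ρ - 1 / 2)

theorem zz_eq (ρ : ℂ) : 1 / 2 + I * zz ρ = ρ := by
  unfold zz
  linear_combination (-(ρ - 1 / 2)) * I_mul_I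

theorem zz_norm (ρ : ℂ) : ‖zz ρ‖ = ‖ρ - 1 / 2‖ := by
  unfold zz
  rw [norm_mul, norm_neg, norm_I, one_mul]

theorem zz_im (ρ : ℂ) (h : ρ ∈ NTZ) : |(zz ρ).im| ≤ 1 / 2 := by
  have e : (zz ρ).im = -(ρ.re - 1 / 2) := by
    unfold zz
    simp
  rw [e, abs_le]
  have h1 := h.2.1
  have h2 := h.2.2
  constructor <;> linarith

theorem nrm_pos (h3 : S_WTS) (ρ : ℂ) (h : ρ ∈ NTZ) : 0 < ‖ρ - 1 / 2‖ := by
  have h1 := (h3.2 ρ h).2.2.2.2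
  rw [norm_pos_iff]
  intro h0
  apply h1
  have h2 := congrArg Complex.im h0
  simpa using h2

theorem zz_ne (h3 : S_WTS) (ρ : ℂ) (h : ρ ∈ NTZ) : zz ρ ≠ 0 := by
  rw [← norm_pos_iff, zz_norm]
  exact nrm_pos h3 ρ h

/-- the total weight -/
def Sg : ℝ := ∑' ρ : NTZ, (mz ρ : ℝ) / ‖(ρ : ℂ) - 1 / 2‖ ^ 2

theorem Sg_nonneg : 0 ≤ Sg := tsum_nonneg fun ρ => by positivity

theorem inv_le (h3 : S_WTS) (ρ : NTZ) : 1 / ‖(ρ : ℂ) - 1 / 2‖ ^ 2 ≤ Sg := by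
  have h1 : (mz ρ : ℝ) / ‖(ρ : ℂ) - 1 / 2‖ ^ 2 ≤ Sg :=
    h3.1.le_tsum ρ fun j _ => by positivity
  have h2 : 1 ≤ mz ρ := (h3.2 ρ ρ.2).2.2.2.1
  have h4 : (1 : ℝ) ≤ mz ρ := by exact_mod_cast h2
  refine le_trans ?_ h1
  exact div_le_div_of_nonneg_right h4 (by positivity)

/-- the bound of the energy -/
theorem key (h2 : S_EXF) (h3 : S_WTS) (h4 : S_XI0) {a : ℝ} {k : ℝ → ℝ} {E : ℝ} (hE : 0 ≤ E)
    (hk : TR a k) (hb : ∀ z : ℂ, |z.im| ≤ 1 / 2 → z ≠ 0 → Xi z = 0 → ‖Ct (co k) z‖ ≤ E / ‖z‖ ^ 2) :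
    W k ≤ E ^ 2 * Sg ^ 2 := by
  have e1 : ∀ ρ : NTZ, ‖Ct (co k) (-I * ((ρ : ℂ) - 1 / 2))‖ ≤ E / ‖(ρ : ℂ) - 1 / 2‖ ^ 2 := by
    intro ρ
    have := hb (zz ρ) (zz_im ρ ρ.2) (zz_ne h3 ρ ρ.2)
      ((h4.2.2.2.2.1 (zz ρ)).2 (by rw [zz_eq]; exact ρ.2))
    rw [zz_norm] at this
    exact this
  have e2 : HasSum (fun ρ : NTZ => E ^ 2 * Sg * ((mz ρ : ℝ) / ‖(ρ : ℂ) - 1 / 2‖ ^ 2))
      (E ^ 2 * Sg * Sg) := h3.1.hasSum.mul_left _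
  have e3 : ‖(W k : ℂ)‖ ≤ E ^ 2 * Sg * Sg := by
    refine (h2 a k hk).norm_le_of_bounded e2 fun ρ => ?_
    rw [norm_mul, norm_pow, norm_natCast]
    have h5 : ‖Ct (co k) (-I * ((ρ : ℂ) - 1 / 2))‖ ^ 2 ≤ (E / ‖(ρ : ℂ) - 1 / 2‖ ^ 2) ^ 2 :=
      pow_le_pow_left₀ (norm_nonneg _) (e1 ρ) 2
    have h6 := inv_le h3 ρ
    have h7 : (0 : ℝ) ≤ (mz ρ : ℝ) * (E ^ 2 * (1 / ‖(ρ : ℂ) - 1 / 2‖ ^ 2)) := by positivity
    calc (mz ρ : ℝ) * ‖Ct (co k) (-I * ((ρ : ℂ) - 1 / 2))‖ ^ 2 ≤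
        (mz ρ : ℝ) * (E / ‖(ρ : ℂ) - 1 / 2‖ ^ 2) ^ 2 :=
          mul_le_mul_of_nonneg_left h5 (Nat.cast_nonneg _)
      _ = ((mz ρ : ℝ) * (E ^ 2 * (1 / ‖(ρ : ℂ) - 1 / 2‖ ^ 2))) *
          (1 / ‖(ρ : ℂ) - 1 / 2‖ ^ 2) := by ring
      _ ≤ ((mz ρ : ℝ) * (E ^ 2 * (1 / ‖(ρ : ℂ) - 1 / 2‖ ^ 2))) * Sg :=
          mul_le_mul_of_nonneg_left h6 h7
      _ = E ^ 2 * Sg * ((mz ρ : ℝ) / ‖(ρ : ℂ) - 1 / 2‖ ^ 2) := by ring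
  have e4 : W k ≤ ‖(W k : ℂ)‖ := by
    rw [norm_real]
    exact le_abs_self _
  refine e4.trans (e3.trans (le_of_eq ?_))
  ring

theorem t_WL (h1 : S_EXF) (h2 : S_WTS) (h3 : S_XI0) (h4 : S_TRJ) : S_WL := by
  have hSg := Sg_nonneg
  intro ε hε
  obtain ⟨a₁, ha₁, hk⟩ := h4 (ε / 4) (by positivity)
  refine ⟨max a₁ (Sg ^ 2 / ε), lt_max_of_lt_left ha₁, fun a ha => ?_⟩
  have ha1 : a₁ ≤ a := (le_max_left _ _).trans ha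
  have ha2 : Sg ^ 2 / ε ≤ a := (le_max_right _ _).trans ha
  obtain ⟨k, hadm, hb⟩ := hk a ha1
  refine ⟨k, hadm, ?_⟩
  set E : ℝ := Real.exp (-(2 * Real.pi - ε / 4) * Real.exp (2 * a)) with hE
  have q1 := key h1 h2 h3 (Real.exp_pos _).le hadm.1 hb
  rw [← hE] at q1
  refine q1.trans ?_
  have q2 : Sg ^ 2 ≤ Real.exp (ε / 2 * Real.exp (2 * a)) := by
    have r1 : Sg ^ 2 ≤ a * ε := (div_le_iff₀ hε).1 ha2
    have r2 : 2 * a ≤ Real.exp (2 * a) := by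
      have := Real.add_one_le_exp (2 * a)
      linarith
    have r3 := Real.add_one_le_exp (ε / 2 * Real.exp (2 * a))
    have r4 : ε / 2 * (2 * a) ≤ ε / 2 * Real.exp (2 * a) :=
      mul_le_mul_of_nonneg_left r2 (by positivity)
    linarith
  have q3 : E ^ 2 = Real.exp (-(4 * Real.pi - ε / 2) * Real.exp (2 * a)) := by
    rw [hE, ← Real.exp_nat_mul]
    congr 1
    push_cast
    ring
  calc E ^ 2 * Sg ^ 2 ≤ E ^ 2 * Real.exp (ε / 2 * Real.exp (2 * a)) :=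
        mul_le_mul_of_nonneg_left q2 (sq_nonneg _)
    _ = Real.exp (-(4 * Real.pi - ε) * Real.exp (2 * a)) := by
        rw [q3, ← Real.exp_add]
        congr 1
        ring

end

end Pool.Agent.H478.WM.WL
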