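import Pool.Agent.H478.WM.Fin
import Pool.Agent.H478.WM.CHP
import Pool.Agent.H478.WM.CHB
import Pool.Agent.H478.WM.WIN
import Pool.Agent.H478.WM.POI
import Pool.Agent.H478.WM.MEL
import Pool.Agent.H478.WM.TRJ
import Pool.Agent.H478.WM.WL

/-!
# Project WM: the theorems
-/

open Complex MeasureTheory Filter Topology Set
open scoped ContDiff

namespace Pool.Agent.H478.WM

noncomputable section

theorem f_WIN : S_WIN := WIN.t_WIN CHP.t_CHP CHB.t_CHB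
theorem f_MEL : S_MEL := MEL.t_MEL POI.t_POI
theorem f_TRJ : S_TRJ := TRJ.t_TRJ f_XI0 f_WIN POI.t_POI f_MEL
theorem f_WL : S_WL := WL.t_WL t_EXF t_WTS f_XI0 f_TRJ

theorem data (hRH : RiemannHypothesis) :
    ∃ (S : Sys) (u : ℝ → ℂ → ℂ) (γ : ℕ → ℝ) (P : ℂ → ℂ), Data S u γ P :=
  exists_data f_MINA f_MINB f_MINC f_MIND f_HE f_RZ f_LT f_IL ZEN.t_ZEN t_HAD t_ENUM f_PC f_RT f_SYS f_WK hRH

theorem bounded_of_rh (hRH : RiemannHypothesis) (a : ℝ) (g : ℝ → ℝ) (hg : TR a g) : 0 ≤ W g := by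
  obtain ⟨S, hG, hW⟩ := f_SYS hRH
  have hg' : TR (max a 1) g := ⟨hg.smooth, hg.even, fun x hx => hg.supp x ((le_max_left _ _).trans_lt hx)⟩
  rw [hW (max a 1) g (lt_of_lt_of_le one_pos (le_max_right _ _)) hg']
  have : 0 ≤ Q S (Ct (co g)) :=
    tsum_nonneg fun t => mul_nonneg (zero_le_one.trans (S.one_le t t.2)) (sq_nonneg _)
  linarith

theorem qW_small (hRH : RiemannHypothesis) (ε : ℝ) (hε : 0 < ε) :
    ∀ᶠ a in atTop, qW a ≤ Real.exp (-(4 * Real.pi - ε) * Real.exp (2 * a)) := by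
  obtain ⟨a₀, ha₀, h⟩ := f_WL ε hε
  filter_upwards [eventually_ge_atTop a₀] with a ha
  obtain ⟨k, hk, hkW⟩ := h a ha
  refine le_trans (csInf_le ⟨0, ?_⟩ ⟨k, hk, rfl⟩) hkW
  rintro r ⟨g, hg, rfl⟩
  exact bounded_of_rh hRH a g hg.1

/-- the criteria -/
theorem criteria :
    ((RiemannHypothesis ∧ AllSimple) →
      ∀ R ε : ℝ, 0 < ε → ∃ a₀ : ℝ, ∀ a, a₀ ≤ a → Conc (fun z => Xi z / Xi 0) a R ε) ∧
    ((∀ R ε a₀ : ℝ, 0 < ε → ∃ a, a₀ ≤ a ∧ Conc (fun z => Xi z / Xi 0) a R ε) →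
      RiemannHypothesis ∧ AllSimple) ∧
    (RiemannHypothesis → ∃ F : ℂ → ℂ, ∀ R ε : ℝ, 0 < ε → ∃ a₀ : ℝ, ∀ a, a₀ ≤ a → Conc F a R ε) ∧
    ((∀ a₀ : ℝ, ∃ a, a₀ ≤ a ∧ ∃ F : ℂ → ℂ, Conc F a 1 1) → RiemannHypothesis) ∧
    ((∀ a₀ : ℝ, ∃ a, a₀ ≤ a ∧ ∃ B : ℝ, ∀ g, Adm a g → B ≤ W g) → RiemannHypothesis) ∧
    (RiemannHypothesis → ∀ (a : ℝ) (g : ℝ → ℝ), TR a g → 0 ≤ W g) := by
  refine ⟨?_, ?_, ?_, ?_, ?_, bounded_of_rh⟩
  · rintro ⟨hRH, hs⟩ R ε hε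
    obtain ⟨S, u, γ, P, D⟩ := data hRH
    obtain ⟨a₀, _, h⟩ := conc_of f_MINA D R ε hε
    have : P = fun z => Xi z / Xi 0 := funext (xi_prod t_HAD f_XI0 t_WTS hRH hs D)
    rw [this] at h
    exact ⟨a₀, h⟩
  · intro H
    have hRH : RiemannHypothesis := rh_of_conc t_TCB f_QU f_NEG (fun a₀ => by
      obtain ⟨a, h1, h2⟩ := H 1 1 a₀ one_pos
      exact ⟨a, h1, _, h2⟩)
    obtain ⟨S, u, γ, P, D⟩ := data hRH
    exact ⟨hRH, simple_of_P t_PSIM f_XI0 t_WTS hRH D (P_of_conc f_MINA D H)⟩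
  · intro hRH
    obtain ⟨S, u, γ, P, D⟩ := data hRH
    refine ⟨P, fun R ε hε => ?_⟩
    obtain ⟨a₀, _, h⟩ := conc_of f_MINA D R ε hε
    exact ⟨a₀, h⟩
  · exact rh_of_conc t_TCB f_QU f_NEG
  · intro H
    by_contra hcon
    obtain ⟨a₁, _, hk⟩ := f_WK.1 1 one_pos
    obtain ⟨a₀, ha₀, h0⟩ := f_NEG hcon
    obtain ⟨a, ha, B, hB'⟩ := H (max a₀ a₁)
    obtain ⟨g, hg, hg0, hneg⟩ := h0 a ((le_max_left _ _).trans ha)
    obtain ⟨k, hk, _⟩ := hk a ((le_max_right _ _).trans ha)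
    obtain ⟨s₀, hs₀, hs⟩ := unbounded f_QU hk hg hneg (B - 1)
    have h1 := hB' _ (hk.lin hg hg0 s₀)
    have h2 := hs s₀ le_rfl
    linarith

/-- the structure of the minimisers on the Riemann hypothesis -/
theorem structure_rh (hRH : RiemannHypothesis) : ∃ (u : ℝ → ℂ → ℂ) (P : ℂ → ℂ), Minimisers u P ∧
    (∀ ε : ℝ, 0 < ε → ∀ᶠ a in atTop, qW a ≤ Real.exp (-(4 * Real.pi - ε) * Real.exp (2 * a))) ∧
    (AllSimple ↔ ∀ z, P z = Xi z / Xi 0) := by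
  obtain ⟨S, u, γ, P, D⟩ := data hRH
  exact ⟨u, P, minimisers f_IL f_RZ f_LT D, qW_small hRH, fun hs => xi_prod t_HAD f_XI0 t_WTS hRH hs D,
      fun hP => simple_of_P t_PSIM f_XI0 t_WTS hRH D hP⟩

end

end Pool.Agent.H478.WM
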