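import Pool.Agent.H478.WM.Stm3

/-!
# Project WM, task KB: the bound deduced from the identity
-/

set_option autoImplicit false

open Complex MeasureTheory Filter Topology Set
open scoped ContDiff

namespace Pool.Agent.H478.WM.KB

theorem m_pos (S : Sys) (t : S.G) : 0 < S.m t := lt_of_lt_of_le one_pos (S.one_le t t.2)

/-- the factor is bounded over the nodes -/
theorem factor_bound (S : Sys) (w : ℂ) (hw : w ≠ 0) :
    ∃ C : ℝ, 0 ≤ C ∧ ∀ t : S.G, ‖w ^ 2 / (((t : ℝ) : ℂ) ^ 2 - w ^ 2)‖ ≤ C := by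
  have hw2 : 0 < ‖w‖ ^ 2 := by
    have := norm_pos_iff.2 hw
    positivity
  have hev := S.summ.tendsto_cofinite_zero.eventually
    (gt_mem_nhds (show (0 : ℝ) < 1 / (2 * ‖w‖ ^ 2) by positivity))
  have hfin : {t : S.G | ¬ (S.m t / (t : ℝ) ^ 2 < 1 / (2 * ‖w‖ ^ 2))}.Finite := by
    rw [Filter.eventually_cofinite] at hev
    exact hev
  refine ⟨1 + ∑ t ∈ hfin.toFinset, ‖w ^ 2 / (((t : ℝ) : ℂ) ^ 2 - w ^ 2)‖,
    add_nonneg zero_le_one (Finset.sum_nonneg fun t _ => norm_nonneg _), fun t => ?_⟩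
  by_cases ht : S.m t / (t : ℝ) ^ 2 < 1 / (2 * ‖w‖ ^ 2)
  · have htp : 0 < (t : ℝ) := S.pos t t.2
    have h1 : 1 / (t : ℝ) ^ 2 < 1 / (2 * ‖w‖ ^ 2) :=
      lt_of_le_of_lt (div_le_div_of_nonneg_right (S.one_le t t.2) (by positivity)) ht
    have h2 : 2 * ‖w‖ ^ 2 < (t : ℝ) ^ 2 := by
      rw [div_lt_div_iff₀ (by positivity) (by positivity), one_mul, one_mul] at h1
      exact h1
    have h3 : ‖w‖ ^ 2 ≤ ‖((t : ℝ) : ℂ) ^ 2 - w ^ 2‖ := by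
      have h4 := norm_sub_norm_le (((t : ℝ) : ℂ) ^ 2) (w ^ 2)
      have h5 : ‖((t : ℝ) : ℂ) ^ 2‖ = (t : ℝ) ^ 2 := by
        rw [norm_pow, Complex.norm_real, Real.norm_of_nonneg htp.le]
      rw [h5, norm_pow] at h4
      linarith
    have h6 : ‖w ^ 2 / (((t : ℝ) : ℂ) ^ 2 - w ^ 2)‖ ≤ 1 := by
      rw [norm_div, norm_pow]
      exact div_le_one_of_le₀ h3 (norm_nonneg _)
    refine h6.trans ?_
    have := Finset.sum_nonneg (s := hfin.toFinset)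
      (f := fun t : S.G => ‖w ^ 2 / (((t : ℝ) : ℂ) ^ 2 - w ^ 2)‖) (fun t _ => norm_nonneg _)
    linarith
  · have hmem : t ∈ hfin.toFinset := hfin.mem_toFinset.2 ht
    have h1 := Finset.single_le_sum (s := hfin.toFinset)
      (f := fun t : S.G => ‖w ^ 2 / (((t : ℝ) : ℂ) ^ 2 - w ^ 2)‖) (fun t _ => norm_nonneg _) hmem
    have h2 : ‖w ^ 2 / (((t : ℝ) : ℂ) ^ 2 - w ^ 2)‖ ≤
      ∑ t ∈ hfin.toFinset, ‖w ^ 2 / (((t : ℝ) : ℂ) ^ 2 - w ^ 2)‖ := h1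
    linarith

/-- the product of the factor and `u` -/
noncomputable def vv (w : ℂ) (u : ℂ → ℂ) (z : ℂ) : ℂ := w ^ 2 / (z ^ 2 - w ^ 2) * u z

theorem vv_L2 {S : Sys} {w : ℂ} (hw : w ≠ 0) {u : ℂ → ℂ} (hu : L2 S u) : L2 S (vv w u) := by
  obtain ⟨C, hC, hb⟩ := factor_bound S w hw
  refine Summable.of_nonneg_of_le (fun t => ?_) (fun t => ?_) (hu.mul_left (C ^ 2))
  · have hm := m_pos S t
    positivity
  · have hm := m_pos S t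
    have h1 : ‖vv w u ((t : ℝ) : ℂ)‖ ^ 2 ≤ C ^ 2 * ‖u ((t : ℝ) : ℂ)‖ ^ 2 := by
      unfold vv
      rw [norm_mul, mul_pow]
      exact mul_le_mul_of_nonneg_right (pow_le_pow_left₀ (norm_nonneg _) (hb t) 2) (sq_nonneg _)
    calc S.m t * ‖vv w u ((t : ℝ) : ℂ)‖ ^ 2
        ≤ S.m t * (C ^ 2 * ‖u ((t : ℝ) : ℂ)‖ ^ 2) := mul_le_mul_of_nonneg_left h1 hm.le
      _ = _ := by ring

theorem vv_Q (S : Sys) (w : ℂ) (u : ℂ → ℂ) : Q S (vv w u) =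
    ∑' t : S.G, S.m t * ‖u ((t : ℝ) : ℂ)‖ ^ 2 * ‖w ^ 2 / (((t : ℝ) : ℂ) ^ 2 - w ^ 2)‖ ^ 2 := by
  unfold Q vv
  refine tsum_congr fun t => ?_
  rw [norm_mul, mul_pow]
  ring

/-- the sum in MID in terms of the bilinear form -/
theorem sum_eq (h1 : S_L2A) {S : Sys} {w : ℂ} (hw : w ≠ 0)
    (hne : ∀ t ∈ S.G, ((t : ℝ) : ℂ) ^ 2 ≠ w ^ 2) {u f : ℂ → ℂ} (hu : L2 S u) (hf : L2 S f) :
    ∑' t : S.G, (S.m t : ℂ) * (((t : ℝ) : ℂ) ^ 2 * u ((t : ℝ) : ℂ) * f ((t : ℝ) : ℂ) /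
      (((t : ℝ) : ℂ) ^ 2 - w ^ 2)) = Bf S u f + Bf S (vv w u) f := by
  have hs1 := (h1 S u f f 1 1 hu hf hf).2.1
  have hs2 := (h1 S (vv w u) f f 1 1 (vv_L2 hw hu) hf hf).2.1
  unfold Bf
  rw [← Summable.tsum_add hs1 hs2]
  refine tsum_congr fun t => ?_
  have hne' : ((t : ℝ) : ℂ) ^ 2 - w ^ 2 ≠ 0 := sub_ne_zero.2 (hne t t.2)
  unfold vv
  field_simp
  ring

theorem t_KB (h1 : S_L2A) (h2 : S_HE) (h3 : S_MID) : S_KB := by
  intro S a u h w θ ha hu hq hh hh0 hw hne hθ0 hθ hsum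
  have hLu := (h2 S a u ha hu.mem).2.2.1
  have hLh := (h2 S a h ha hh).2.2.1
  have hLv := vv_L2 (S := S) hw hLu
  obtain ⟨-, hid⟩ := h3 S a u h w ha hu hh hw hne
  rw [sum_eq h1 hw hne hLu hLu, sum_eq h1 hw hne hLu hLh] at hid
  rw [← vv_Q] at hsum
  have hQh : 0 ≤ Q S h := tsum_nonneg fun t => mul_nonneg (m_pos S t).le (sq_nonneg _)
  have hQv : 0 ≤ Q S (vv w u) := tsum_nonneg fun t => mul_nonneg (m_pos S t).le (sq_nonneg _)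
  -- the diagonal term
  have hBuu : Bf S u u = (qS S a : ℂ) := by
    rw [← hu.energy]
    unfold Bf Q
    rw [Complex.ofReal_tsum]
    refine tsum_congr fun t => ?_
    have him := hu.real (t : ℝ)
    have hre : u ((t : ℝ) : ℂ) = (((u ((t : ℝ) : ℂ)).re : ℝ) : ℂ) := by
      apply Complex.ext
      · rw [Complex.ofReal_re]
      · rw [Complex.ofReal_im]; exact him
    have hn : ‖u ((t : ℝ) : ℂ)‖ ^ 2 = (u ((t : ℝ) : ℂ)).re ^ 2 := by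
      rw [hre, Complex.norm_real, Real.norm_eq_abs, sq_abs, Complex.ofReal_re]
    rw [hn]
    push_cast
    rw [← hre]
    ring
  have hBuh : Bf S u h = 0 := by
    rw [hu.el h hh, hh0, mul_zero]
  have hc1 : ‖Bf S (vv w u) u‖ ^ 2 ≤ Q S (vv w u) * Q S u :=
    (h1 S (vv w u) u u 1 1 hLv hLu hLu).2.2.2.2.2
  have hc2 : ‖Bf S (vv w u) h‖ ^ 2 ≤ Q S (vv w u) * Q S h :=
    (h1 S (vv w u) h h 1 1 hLv hLh hLh).2.2.2.2.2
  rw [hBuu, hBuh, zero_add] at hid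
  rw [hu.energy] at hc1
  have hE : ‖Bf S (vv w u) u‖ ≤ qS S a / 2 := by
    refine le_of_sq_le_sq ?_ (by positivity)
    refine hc1.trans ?_
    calc Q S (vv w u) * qS S a ≤ (θ * qS S a) * qS S a :=
          mul_le_mul_of_nonneg_right hsum hq.le
      _ ≤ (1 / 4 * qS S a) * qS S a :=
          mul_le_mul_of_nonneg_right (mul_le_mul_of_nonneg_right hθ hq.le) hq.le
      _ = (qS S a / 2) ^ 2 := by ring
  have hM : qS S a / 2 ≤ ‖(qS S a : ℂ) + Bf S (vv w u) u‖ := by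
    have h4 := norm_sub_le_norm_add (qS S a : ℂ) (Bf S (vv w u) u)
    have h5 : ‖(qS S a : ℂ)‖ = qS S a := by
      rw [Complex.norm_real, Real.norm_of_nonneg hq.le]
    rw [h5] at h4
    linarith
  have hN : ‖Bf S (vv w u) h‖ ^ 2 ≤ θ * qS S a * Q S h :=
    hc2.trans (mul_le_mul_of_nonneg_right hsum hQh)
  have hid2 := congrArg (fun z : ℂ => ‖z‖ ^ 2) hid
  simp only [norm_mul, mul_pow] at hid2
  have h6 : (qS S a / 2) ^ 2 ≤ ‖(qS S a : ℂ) + Bf S (vv w u) u‖ ^ 2 :=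
    pow_le_pow_left₀ (by positivity) hM 2
  have h7 : ‖h w‖ ^ 2 * (qS S a / 2) ^ 2 ≤ ‖u w‖ ^ 2 * (θ * qS S a * Q S h) :=
    calc ‖h w‖ ^ 2 * (qS S a / 2) ^ 2 ≤ ‖h w‖ ^ 2 * ‖(qS S a : ℂ) + Bf S (vv w u) u‖ ^ 2 :=
          mul_le_mul_of_nonneg_left h6 (sq_nonneg _)
      _ = ‖u w‖ ^ 2 * ‖Bf S (vv w u) h‖ ^ 2 := hid2
      _ ≤ ‖u w‖ ^ 2 * (θ * qS S a * Q S h) := mul_le_mul_of_nonneg_left hN (sq_nonneg _)
  have h8 : (qS S a / 4) * (qS S a * ‖h w‖ ^ 2) ≤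
      (qS S a / 4) * (4 * θ * ‖u w‖ ^ 2 * Q S h) := by
    calc (qS S a / 4) * (qS S a * ‖h w‖ ^ 2) = ‖h w‖ ^ 2 * (qS S a / 2) ^ 2 := by ring
      _ ≤ ‖u w‖ ^ 2 * (θ * qS S a * Q S h) := h7
      _ = _ := by ring
  exact le_of_mul_le_mul_left h8 (by positivity)

end Pool.Agent.H478.WM.KB
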