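import Pool.Agent.H478.WM.Stm3

/-!
# Functions of the closure which vanish at `0` are small
-/

set_option autoImplicit false

open Complex MeasureTheory Filter Topology Set

namespace Pool.Agent.H478.WM.KER

open Pool.Agent.H478.WM

theorem nodes_countable (S : Sys) : S.G.Countable := by
  have h := S.summ.countable_support
  have h1 : Function.support (fun t : S.G => S.m t / (t : ℝ) ^ 2) = Set.univ := by
    refine Set.eq_univ_of_forall fun t => ?_
    rw [Function.mem_support]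
    have h2 := S.pos t t.2
    have h3 := S.one_le t t.2
    have : 0 < S.m t / (t : ℝ) ^ 2 := by positivity
    exact this.ne'
  rw [h1, Set.countable_univ_iff] at h
  exact Set.countable_coe_iff.1 h

theorem Q_nonneg (S : Sys) (u : ℂ → ℂ) : 0 ≤ Q S u := by
  unfold Q
  refine tsum_nonneg fun t => ?_
  have h3 := S.one_le t t.2
  positivity

theorem t_KER (h1 : S_HE) (h2 : S_KB) (h3 : S_MASS) (h4 : S_SM) : S_KER := by
  intro S u P hu hq hx hP R ε hε
  obtain ⟨r, hrG, hr⟩ := ((nodes_countable S).dense_compl ℝ).exists_mem_open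
    (isOpen_Ioi (a := max R 1)) ⟨max R 1 + 1, by
      rw [Set.mem_Ioi]
      linarith⟩
  rw [Set.mem_Ioi] at hr
  have hrR : R < r := lt_of_le_of_lt (le_max_left _ _) hr
  have hr1 : 1 < r := lt_of_le_of_lt (le_max_right _ _) hr
  have hr0 : 0 < r := by linarith
  obtain ⟨a₁, ha₁, hb₁⟩ := hP r 1 one_pos
  have hmem : InH S a₁ (u a₁) := (hu a₁ ha₁).1.mem
  have hc : Continuous (u a₁) := (h1 S a₁ (u a₁) ha₁ hmem).1.continuous
  obtain ⟨B, hB⟩ := (isCompact_closedBall (0 : ℂ) r).exists_bound_of_continuousOn hc.continuousOn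
  have hB0 : 0 ≤ B := (norm_nonneg _).trans (hB 0 (Metric.mem_closedBall_self hr0.le))
  have hM : ∀ a, a₁ ≤ a → ∀ z : ℂ, ‖z‖ ≤ r → ‖u a z‖ ≤ B + 2 := by
    intro a ha z hz
    have e1 := hb₁ a ha z hz
    have e2 := hb₁ a₁ le_rfl z hz
    have e3 := hB z (by rw [mem_closedBall_zero_iff]; exact hz)
    have e4 : u a z = (u a z - P z) - (u a₁ z - P z) + u a₁ z := by ring
    rw [e4]
    refine (norm_add_le _ _).trans ?_
    have e5 := norm_sub_le (u a z - P z) (u a₁ z - P z)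
    linarith
  obtain ⟨M, hMd⟩ : ∃ M : ℝ, M = B + 2 := ⟨_, rfl⟩
  rw [← hMd] at hM
  have hM0 : 0 < M := by rw [hMd]; linarith
  obtain ⟨θ, hθ0, hθ1, hθ2⟩ : ∃ θ : ℝ, 0 < θ ∧ θ ≤ 1 / 4 ∧ 4 * θ * M ^ 2 ≤ ε := by
    refine ⟨min (1 / 4) (ε / (4 * M ^ 2)), by positivity, min_le_left _ _, ?_⟩
    have e1 : min (1 / 4) (ε / (4 * M ^ 2)) ≤ ε / (4 * M ^ 2) := min_le_right _ _
    rw [le_div_iff₀ (by positivity)] at e1
    linarith
  obtain ⟨a₂, ha₂, hb₂⟩ := h4 S u hu (h3 S u hu hq hx) r θ hr0 hrG hθ0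
  refine ⟨max a₁ a₂, lt_of_lt_of_le ha₁ (le_max_left _ _), ?_⟩
  intro a ha h hh hh0 z hz
  have haa₁ : a₁ ≤ a := (le_max_left _ _).trans ha
  have haa₂ : a₂ ≤ a := (le_max_right _ _).trans ha
  have ha0 : 0 < a := lt_of_lt_of_le ha₁ haa₁
  obtain ⟨hmin, hqpos⟩ := hu a ha0
  have hQ := Q_nonneg S h
  have hcirc : ∀ w : ℂ, ‖w‖ = r → qS S a * ‖h w‖ ^ 2 ≤ ε * Q S h := by
    intro w hw
    obtain ⟨c1, c2⟩ := hb₂ a haa₂ w hw
    have hw0 : w ≠ 0 := by
      intro h0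
      rw [h0, norm_zero] at hw
      linarith
    have e1 := h2 S a (u a) h w θ ha0 hmin hqpos hh hh0 hw0 c1 hθ0.le hθ1 c2
    refine e1.trans ?_
    have e2 : ‖u a w‖ ^ 2 ≤ M ^ 2 := pow_le_pow_left₀ (norm_nonneg _) (hM a haa₁ w hw.le) 2
    have e3 : 4 * θ * ‖u a w‖ ^ 2 ≤ ε :=
      (mul_le_mul_of_nonneg_left e2 (by positivity)).trans hθ2
    exact mul_le_mul_of_nonneg_right e3 hQ
  obtain ⟨D, hD⟩ : ∃ D : ℝ, D = Real.sqrt (ε * Q S h / qS S a) := ⟨_, rfl⟩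
  have hDnn : 0 ≤ ε * Q S h / qS S a := div_nonneg (mul_nonneg hε.le hQ) hqpos.le
  have hD0 : 0 ≤ D := by rw [hD]; exact Real.sqrt_nonneg _
  have hD2 : D ^ 2 = ε * Q S h / qS S a := by rw [hD, Real.sq_sqrt hDnn]
  have hfr : ∀ w ∈ frontier (Metric.ball (0 : ℂ) r), ‖h w‖ ≤ D := by
    intro w hw
    rw [frontier_ball (0 : ℂ) hr0.ne', mem_sphere_zero_iff_norm] at hw
    have e1 := hcirc w hw
    rw [hD]
    apply Real.le_sqrt_of_sq_le
    rw [le_div_iff₀ hqpos, mul_comm]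
    exact e1
  have hdiff : DiffContOnCl ℂ h (Metric.ball (0 : ℂ) r) := (h1 S a h ha0 hh).1.diffContOnCl
  have hz' : z ∈ closure (Metric.ball (0 : ℂ) r) := by
    apply subset_closure
    rw [mem_ball_zero_iff]
    linarith
  have hfin := Complex.norm_le_of_forall_mem_frontier_norm_le Metric.isBounded_ball hdiff hfr hz'
  have e2 : ‖h z‖ ^ 2 ≤ D ^ 2 := pow_le_pow_left₀ (norm_nonneg _) hfin 2
  rw [hD2, le_div_iff₀ hqpos] at e2
  linarith

end Pool.Agent.H478.WM.KER
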