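import Pool.Agent.H478.WM.Stm3

/-!
# KK: all test functions
-/

set_option autoImplicit false

open Complex MeasureTheory Filter Topology Set
open scoped ContDiff

namespace Pool.Agent.H478.WM.KK

theorem arith (q X Y e Z ε QH QG : ℝ) (hq : 0 < q)
    (he2 : e ^ 2 ≤ ε / 4) (hε : 0 < ε) (hZ0 : 0 ≤ Z) (hZ : Z ≤ X + Y * e)
    (h1 : q * X ^ 2 ≤ ε / 4 * QH) (h2 : QH ≤ QG) (h3 : q * Y ^ 2 ≤ QG) :
    q * Z ^ 2 ≤ ε * QG := by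
  have a1 : Z ^ 2 ≤ 2 * X ^ 2 + 2 * (Y ^ 2 * e ^ 2) := by
    have b1 : Z ^ 2 ≤ (X + Y * e) ^ 2 := pow_le_pow_left₀ hZ0 hZ 2
    have b2 := sq_nonneg (X - Y * e)
    nlinarith
  have a2 : q * Z ^ 2 ≤ q * (2 * X ^ 2 + 2 * (Y ^ 2 * e ^ 2)) :=
    mul_le_mul_of_nonneg_left a1 hq.le
  have a3 : q * Y ^ 2 * e ^ 2 ≤ q * Y ^ 2 * (ε / 4) :=
    mul_le_mul_of_nonneg_left he2 (by positivity)
  have a4 : q * Y ^ 2 * (ε / 4) ≤ QG * (ε / 4) := mul_le_mul_of_nonneg_right h3 (by linarith)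
  have a5 : ε / 4 * QH ≤ ε / 4 * QG := mul_le_mul_of_nonneg_left h2 (by linarith)
  have a6 : q * (2 * X ^ 2 + 2 * (Y ^ 2 * e ^ 2)) = 2 * (q * X ^ 2) + 2 * (q * Y ^ 2 * e ^ 2) := by
    ring
  rw [a6] at a2
  linarith

theorem t_KK (h1 : S_KER) (h2 : S_DEC) : S_KK := by
  intro S u P hu hq hz hP R ε hε
  obtain ⟨a₁, ha₁, hK⟩ := h1 S u P hu hq hz hP R (ε / 4) (by linarith)
  obtain ⟨e, he0, he2⟩ : ∃ e : ℝ, 0 < e ∧ e ^ 2 ≤ ε / 4 :=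
    ⟨Real.sqrt (ε / 4), Real.sqrt_pos.2 (by linarith), (Real.sq_sqrt (by linarith)).le⟩
  obtain ⟨a₂, ha₂, hU⟩ := hP R e he0
  refine ⟨max a₁ a₂, lt_max_of_lt_left ha₁, fun a ha g hg z hz' => ?_⟩
  have hb₁ : a₁ ≤ a := (le_max_left _ _).trans ha
  have hb₂ : a₂ ≤ a := (le_max_right _ _).trans ha
  have ha0 : 0 < a := lt_of_lt_of_le ha₁ hb₁
  obtain ⟨hmin, hq0⟩ := hu a ha0
  obtain ⟨d1, d2, d3⟩ := h2 S a (u a) g ha0 hmin hq0 hg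
  have hh0 : (fun z => Ct g z - Ct g 0 * u a z) 0 = 0 := by
    show Ct g 0 - Ct g 0 * u a 0 = 0
    rw [hmin.one]
    ring
  have k1 : qS S a * ‖Ct g z - Ct g 0 * u a z‖ ^ 2 ≤
      ε / 4 * Q S (fun z => Ct g z - Ct g 0 * u a z) := hK a hb₁ _ d1 hh0 z hz'
  have k2 := hU a hb₂ z hz'
  have k3 : ‖Ct g z - Ct g 0 * P z‖ ≤ ‖Ct g z - Ct g 0 * u a z‖ + ‖Ct g 0‖ * e := by
    have k4 : Ct g z - Ct g 0 * P z = (Ct g z - Ct g 0 * u a z) + Ct g 0 * (u a z - P z) := by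
      ring
    rw [k4]
    refine (norm_add_le _ _).trans ?_
    rw [norm_mul]
    have := mul_le_mul_of_nonneg_left k2 (norm_nonneg (Ct g 0))
    linarith
  exact arith (qS S a) ‖Ct g z - Ct g 0 * u a z‖ ‖Ct g 0‖ e ‖Ct g z - Ct g 0 * P z‖ ε
    (Q S (fun z => Ct g z - Ct g 0 * u a z)) (Q S (Ct g)) hq0
    he2 hε (norm_nonneg _) k3 k1 d2 d3

end Pool.Agent.H478.WM.KK
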