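import Pool.Agent.H478.WM.Stm3

/-!
# Project WM, LL: ground states normalised in the space of square integrable functions
-/

set_option autoImplicit false

open Complex MeasureTheory Filter Topology Set
open scoped ContDiff

namespace Pool.Agent.H478.WM.LL

open Pool.Agent.H478.WM

theorem toTC {a : ℝ} {g : ℝ → ℝ} (h : TR a g) : TC a (co g) where
  smooth := Complex.ofRealCLM.contDiff.comp h.smooth
  even := fun x => by
    unfold co
    rw [h.even]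
  supp := fun x hx => by
    unfold co
    rw [h.supp x hx]
    rfl

theorem Q_nonneg (S : Sys) (u : ℂ → ℂ) : 0 ≤ Q S u :=
  tsum_nonneg fun t => mul_nonneg (zero_le_one.trans (S.one_le t t.2)) (sq_nonneg _)

theorem Ct_zero (g : ℝ → ℝ) : Ct (co g) 0 = ((∫ x : ℝ, g x : ℝ) : ℂ) := by
  unfold Ct co
  rw [← integral_complex_ofReal]
  refine integral_congr_ae (Eventually.of_forall fun x => ?_)
  simp

theorem norm_co (g : ℝ → ℝ) (x : ℝ) : ‖co g x‖ ^ 2 = g x ^ 2 := by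
  unfold co
  rw [Complex.norm_real, Real.norm_eq_abs, sq_abs]

/-- a test function of nearly minimal energy -/
theorem exists_near {S : Sys} {a : ℝ} (hq : 0 < qS S a) :
    ∃ h : ℝ → ℝ, Adm a h ∧ Q S (Ct (co h)) ≤ 2 * qS S a := by
  have hne : {r : ℝ | ∃ g : ℝ → ℝ, Adm a g ∧ r = Q S (Ct (co g))}.Nonempty := by
    by_contra h
    rw [Set.not_nonempty_iff_eq_empty] at h
    have h1 : qS S a = 0 := by
      unfold qS
      rw [h, Real.sInf_empty]
    linarith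
  have h2 : sInf {r : ℝ | ∃ g : ℝ → ℝ, Adm a g ∧ r = Q S (Ct (co g))} < 2 * qS S a := by
    show qS S a < 2 * qS S a
    linarith
  obtain ⟨r, ⟨g, hg, rfl⟩, h3⟩ := exists_lt_of_csInf_lt hne h2
  exact ⟨g, hg, h3.le⟩

theorem t_LL (_h1 : S_TCB) (h2 : S_PL) : S_LL := by
  intro S P hP hP0 hq hK C R ε hε
  -- the disc on which `P` is not small
  obtain ⟨r, hr0, hr1, hr⟩ : ∃ r : ℝ, 0 < r ∧ r < 1 ∧ ∀ x : ℝ, |x| ≤ r → 1 / 2 ≤ ‖P (x : ℂ)‖ := by
    have h3 := Metric.continuousAt_iff.1 (hP.continuousAt (x := 0)) (1 / 2) (by norm_num)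
    obtain ⟨δ, hδ, h4⟩ := h3
    refine ⟨min (δ / 2) (1 / 2), by positivity, lt_of_le_of_lt (min_le_right _ _) (by norm_num),
      fun x hx => ?_⟩
    have h5 : dist (x : ℂ) 0 < δ := by
      rw [dist_zero_right, Complex.norm_real, Real.norm_eq_abs]
      have := hx.trans (min_le_left _ _)
      linarith
    have h6 := h4 h5
    rw [hP0, dist_eq_norm] at h6
    have h7 : ‖(1 : ℂ)‖ ≤ ‖P x‖ + ‖P x - 1‖ := by
      have h8 : (1 : ℂ) = P x - (P x - 1) := by ring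
      calc ‖(1 : ℂ)‖ = ‖P x - (P x - 1)‖ := by rw [← h8]
        _ ≤ _ := norm_sub_le _ _
    rw [norm_one] at h7
    linarith
  set c₀ : ℝ := r / (16 * Real.pi) with hc₀
  have hc₀0 : 0 < c₀ := by positivity
  set C' : ℝ := max C 1 with hC'
  have hC'0 : 0 < C' := lt_of_lt_of_le one_pos (le_max_right _ _)
  obtain ⟨a₁, ha₁, hK1⟩ := hK 1 (1 / 64) (by norm_num)
  obtain ⟨a₂, ha₂, hK2⟩ := hK R (ε * c₀ / (2 * C')) (by positivity)
  refine ⟨max a₁ a₂, lt_max_of_lt_left ha₁, fun a ha g hg hgh z hz => ?_⟩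
  have ha1 : a₁ ≤ a := (le_max_left _ _).trans ha
  have ha2 : a₂ ≤ a := (le_max_right _ _).trans ha
  have ha0 : 0 < a := ha₁.trans_le ha1
  have hq0 := hq a ha0
  obtain ⟨h, hh, hQh⟩ := exists_near hq0
  have hCt0 : Ct (co h) 0 = 1 := by
    rw [Ct_zero, hh.2]
    rfl
  -- lower bound for the norm of `h`
  have hlow : ∀ x : ℝ, |x| ≤ r → 1 / 16 ≤ ‖Ct (co h) (x : ℂ)‖ ^ 2 := by
    intro x hx
    have h3 := hK1 a ha1 (co h) (toTC hh.1) (x : ℂ) (by
      rw [Complex.norm_real, Real.norm_eq_abs]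
      linarith)
    rw [hCt0, one_mul] at h3
    have h4 : qS S a * ‖Ct (co h) (x : ℂ) - P x‖ ^ 2 ≤ qS S a * (1 / 32) := by linarith
    have h5 : ‖Ct (co h) (x : ℂ) - P x‖ ^ 2 ≤ 1 / 32 := le_of_mul_le_mul_left h4 hq0
    have h6 : ‖Ct (co h) (x : ℂ) - P x‖ ≤ 1 / 4 := by
      by_contra h7
      push Not at h7
      nlinarith
    have h8 := hr x hx
    have h9 : ‖P x‖ ≤ ‖Ct (co h) (x : ℂ)‖ + ‖Ct (co h) (x : ℂ) - P x‖ := by
      have h10 : P x = Ct (co h) (x : ℂ) - (Ct (co h) (x : ℂ) - P x) := by ring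
      calc ‖P x‖ = ‖Ct (co h) (x : ℂ) - (Ct (co h) (x : ℂ) - P x)‖ := by rw [← h10]
        _ ≤ _ := norm_sub_le _ _
    have h11 : 1 / 4 ≤ ‖Ct (co h) (x : ℂ)‖ := by linarith
    nlinarith
  have hint : c₀ ≤ ∫ x : ℝ, h x ^ 2 := by
    obtain ⟨-, h3, h4, -, -⟩ := h2 a (co h) ha0 (toTC hh.1)
    have h5 : ∫ x : ℝ, ‖co h x‖ ^ 2 = ∫ x : ℝ, h x ^ 2 := by
      refine integral_congr_ae (Eventually.of_forall fun x => ?_)
      exact norm_co h x
    rw [h5] at h4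
    have h6 : ∫ _ in Icc (-r) r, (1 / 16 : ℝ) ≤ ∫ t in Icc (-r) r, ‖Ct (co h) (t : ℂ)‖ ^ 2 := by
      refine setIntegral_mono_on (integrable_const _) h3.integrableOn measurableSet_Icc ?_
      intro x hx
      exact hlow x (abs_le.2 hx)
    have h7 : ∫ t in Icc (-r) r, ‖Ct (co h) (t : ℂ)‖ ^ 2 ≤ ∫ t : ℝ, ‖Ct (co h) (t : ℂ)‖ ^ 2 :=
      setIntegral_le_integral h3 (Eventually.of_forall fun x => sq_nonneg _)
    have h8 : ∫ _ in Icc (-r) r, (1 / 16 : ℝ) = r / 8 := by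
      rw [setIntegral_const, Measure.real, Real.volume_Icc, ENNReal.toReal_ofReal (by linarith),
        smul_eq_mul]
      ring
    have h9 : r / 8 ≤ 2 * Real.pi * ∫ x : ℝ, h x ^ 2 := by linarith
    rw [hc₀, div_le_iff₀ (by positivity)]
    linarith
  have hg0 : 0 ≤ ∫ x : ℝ, g x ^ 2 := integral_nonneg fun x => sq_nonneg _
  have hQ1 : Q S (Ct (co g)) * c₀ ≤ 2 * C' * qS S a * ∫ x : ℝ, g x ^ 2 := by
    have h3 := hgh h hh.1
    have h4 : Q S (Ct (co g)) * c₀ ≤ Q S (Ct (co g)) * ∫ x : ℝ, h x ^ 2 :=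
      mul_le_mul_of_nonneg_left hint (Q_nonneg _ _)
    have h5 : C * Q S (Ct (co h)) * ∫ x : ℝ, g x ^ 2 ≤ C' * (2 * qS S a) * ∫ x : ℝ, g x ^ 2 := by
      refine mul_le_mul_of_nonneg_right ?_ hg0
      calc C * Q S (Ct (co h)) ≤ C' * Q S (Ct (co h)) :=
            mul_le_mul_of_nonneg_right (le_max_left _ _) (Q_nonneg _ _)
        _ ≤ C' * (2 * qS S a) := mul_le_mul_of_nonneg_left hQh hC'0.le
    linarith
  have h3 := hK2 a ha2 (co g) (toTC hg) z hz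
  have h4 : ε * c₀ / (2 * C') * Q S (Ct (co g)) ≤ qS S a * (ε * ∫ x : ℝ, g x ^ 2) := by
    calc ε * c₀ / (2 * C') * Q S (Ct (co g)) = ε / (2 * C') * (Q S (Ct (co g)) * c₀) := by ring
      _ ≤ ε / (2 * C') * (2 * C' * qS S a * ∫ x : ℝ, g x ^ 2) :=
          mul_le_mul_of_nonneg_left hQ1 (by positivity)
      _ = qS S a * (ε * ∫ x : ℝ, g x ^ 2) := by
          field_simp
  exact le_of_mul_le_mul_left (h3.trans h4) hq0

end Pool.Agent.H478.WM.LL
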