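import Pool.Agent.H478.WM.Stm3

/-!
# Project WM, task LN: ground states normalised by a measure on the frequency side
-/

set_option autoImplicit false

open Complex MeasureTheory Filter Topology Set
open scoped ContDiff

namespace Pool.Agent.H478.WM.LN

lemma tc_of_tr {a : ℝ} {g : ℝ → ℝ} (hg : TR a g) : TC a (co g) := by
  refine ⟨?_, fun x => ?_, fun x hx => ?_⟩
  · exact Complex.ofRealCLM.contDiff.comp hg.smooth
  · unfold co
    rw [hg.even]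
  · unfold co
    rw [hg.supp x hx, Complex.ofReal_zero]

lemma ct_zero {a : ℝ} {h : ℝ → ℝ} (hh : Adm a h) : Ct (co h) 0 = 1 := by
  unfold Ct co
  simp only [zero_mul, Complex.cos_zero, mul_one]
  rw [integral_complex_ofReal, hh.2, Complex.ofReal_one]

lemma Q_nonneg (S : Sys) (u : ℂ → ℂ) : 0 ≤ Q S u := by
  unfold Q
  exact tsum_nonneg fun t => mul_nonneg (zero_le_one.trans (S.one_le t.1 t.2)) (by positivity)

lemma ae_ball {ν : Measure ℂ} {r : ℝ} (h : ν (Metric.closedBall 0 r)ᶜ = 0) :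
    ∀ᵐ z ∂ν, ‖z‖ ≤ r := by
  rw [ae_iff]
  have e : {z : ℂ | ¬ ‖z‖ ≤ r} = (Metric.closedBall 0 r)ᶜ := by
    ext z
    rw [mem_compl_iff, Metric.mem_closedBall, dist_zero_right, mem_ofPred_eq]
  rw [e, h]

lemma int_sq {ν : Measure ℂ} [IsFiniteMeasure ν] {r : ℝ} (h : ν (Metric.closedBall 0 r)ᶜ = 0)
    {f : ℂ → ℂ} (hf : Continuous f) : Integrable (fun z => ‖f z‖ ^ 2) ν := by
  obtain ⟨M, hM⟩ := (isCompact_closedBall (0 : ℂ) r).exists_bound_of_continuousOn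
    (f := fun z => ‖f z‖ ^ 2) (by fun_prop)
  refine Integrable.of_bound (C := M) (by fun_prop) ?_
  filter_upwards [ae_ball h] with z hz
  exact hM z (by rw [Metric.mem_closedBall, dist_zero_right]; exact hz)

lemma sq_le (x y : ℂ) : ‖x‖ ^ 2 ≤ 2 * ‖y‖ ^ 2 + 2 * ‖x - y‖ ^ 2 := by
  have h := norm_add_le y (x - y)
  rw [add_sub_cancel] at h
  have h1 := norm_nonneg x
  have h2 := sq_nonneg (‖y‖ - ‖x - y‖)
  nlinarith [norm_nonneg y, norm_nonneg (x - y)]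

lemma int_le {ν : Measure ℂ} [IsFiniteMeasure ν] {r : ℝ} (h : ν (Metric.closedBall 0 r)ᶜ = 0)
    {f g : ℂ → ℂ} (hf : Continuous f) (hg : Continuous g) {K : ℝ}
    (hK : ∀ z, ‖z‖ ≤ r → ‖f z - g z‖ ^ 2 ≤ K) :
    ∫ z, ‖f z‖ ^ 2 ∂ν ≤ 2 * ∫ z, ‖g z‖ ^ 2 ∂ν + 2 * (K * ν.real univ) := by
  have h1 : ∫ z, ‖f z‖ ^ 2 ∂ν ≤ ∫ z, (2 * ‖g z‖ ^ 2 + 2 * K) ∂ν := by
    refine integral_mono_ae (int_sq h hf) (((int_sq h hg).const_mul 2).add (integrable_const _)) ?_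
    filter_upwards [ae_ball h] with z hz
    have h2 := sq_le (f z) (g z)
    have h3 := hK z hz
    linarith
  rw [integral_add ((int_sq h hg).const_mul 2) (integrable_const _), integral_const_mul,
    integral_const, smul_eq_mul] at h1
  linarith

theorem t_LN (h1 : S_TCB) : S_LN := by
  intro S P hP _ hq hK ν r hν hνr hp C R ε hε
  obtain ⟨p, hpd⟩ : ∃ p, p = ∫ z, ‖P z‖ ^ 2 ∂ν := ⟨_, rfl⟩
  rw [← hpd] at hp
  obtain ⟨V, hVd⟩ : ∃ V, V = ν.real univ := ⟨_, rfl⟩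
  have hV : 0 ≤ V := by rw [hVd]; exact measureReal_nonneg
  obtain ⟨C1, hC1d⟩ : ∃ C1, C1 = max C 1 := ⟨_, rfl⟩
  have hC1 : 1 ≤ C1 := by rw [hC1d]; exact le_max_right _ _
  have hCC : C ≤ C1 := by rw [hC1d]; exact le_max_left _ _
  have hC0 : 0 < C1 := by linarith
  obtain ⟨e1, he1d⟩ : ∃ e1, e1 = p / (8 * (V + 1)) := ⟨_, rfl⟩
  have he1 : 0 < e1 := by rw [he1d]; positivity
  obtain ⟨e2, he2d⟩ : ∃ e2, e2 = min (p / (32 * C1 * (V + 1))) (ε ^ 2 / (32 * C1)) := ⟨_, rfl⟩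
  have he2 : 0 < e2 := by rw [he2d]; exact lt_min (by positivity) (by positivity)
  have he2a : e2 * (32 * C1 * (V + 1)) ≤ p := by
    rw [← le_div_iff₀ (by positivity), he2d]
    exact min_le_left _ _
  have he2b : e2 * (32 * C1) ≤ ε ^ 2 := by
    rw [← le_div_iff₀ (by positivity), he2d]
    exact min_le_right _ _
  obtain ⟨a1, ha1, hK1⟩ := hK r e1 he1
  obtain ⟨a2, ha2, hK2⟩ := hK (max R r) e2 he2
  refine ⟨max a1 a2, lt_max_of_lt_left ha1, fun a ha g hg hcomp z hz => ?_⟩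
  have haa1 : a1 ≤ a := (le_max_left _ _).trans ha
  have haa2 : a2 ≤ a := (le_max_right _ _).trans ha
  have ha0 : 0 < a := ha1.trans_le haa1
  obtain ⟨q, hqd⟩ : ∃ q, q = qS S a := ⟨_, rfl⟩
  have hq0 : 0 < q := by rw [hqd]; exact hq a ha0
  -- an admissible function of small energy
  obtain ⟨h, hh, hQh⟩ : ∃ h : ℝ → ℝ, Adm a h ∧ Q S (Ct (co h)) ≤ 2 * q := by
    have hne : {r : ℝ | ∃ g : ℝ → ℝ, Adm a g ∧ r = Q S (Ct (co g))}.Nonempty := by
      by_contra hn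
      rw [Set.not_nonempty_iff_eq_empty] at hn
      unfold qS at hqd
      rw [hn, Real.sInf_empty] at hqd
      exact hq0.ne' hqd
    have hlt : sInf {r : ℝ | ∃ g : ℝ → ℝ, Adm a g ∧ r = Q S (Ct (co g))} < 2 * q := by
      have : sInf {r : ℝ | ∃ g : ℝ → ℝ, Adm a g ∧ r = Q S (Ct (co g))} = q := hqd.symm
      rw [this]
      linarith
    obtain ⟨_, ⟨h, hh, rfl⟩, hlt2⟩ := exists_lt_of_csInf_lt hne hlt
    exact ⟨h, hh, hlt2.le⟩
  have hcf : Continuous (Ct (co h)) := (h1 a _ ha0 (tc_of_tr hh.1)).1.continuous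
  have hcg : Continuous (Ct (co g)) := (h1 a _ ha0 (tc_of_tr hg)).1.continuous
  have hb1 : ∀ z, ‖z‖ ≤ r → ‖P z - Ct (co h) z‖ ^ 2 ≤ 2 * e1 := by
    intro z hz
    have h2 := hK1 a haa1 (co h) (tc_of_tr hh.1) z hz
    rw [ct_zero hh, one_mul, ← hqd, norm_sub_rev] at h2
    have h3 : q * ‖P z - Ct (co h) z‖ ^ 2 ≤ q * (2 * e1) := by
      refine h2.trans ?_
      have := mul_le_mul_of_nonneg_left hQh he1.le
      linarith
    exact le_of_mul_le_mul_left h3 hq0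
  have hnf := int_le hνr hP hcf hb1
  rw [← hpd, ← hVd] at hnf
  obtain ⟨nf, hnfd⟩ : ∃ nf, nf = ∫ z, ‖Ct (co h) z‖ ^ 2 ∂ν := ⟨_, rfl⟩
  rw [← hnfd] at hnf
  have hnf4 : p / 4 ≤ nf := by
    have h2 : e1 * V ≤ p / 8 := by
      rw [he1d, div_mul_eq_mul_div, div_le_div_iff₀ (by positivity) (by norm_num)]
      nlinarith
    linarith
  obtain ⟨ng, hngd⟩ : ∃ ng, ng = ∫ z, ‖Ct (co g) z‖ ^ 2 ∂ν := ⟨_, rfl⟩
  have hng0 : 0 ≤ ng := by
    rw [hngd]
    exact integral_nonneg fun z => by positivity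
  have hc := hcomp h hh.1
  rw [← hnfd, ← hngd] at hc
  have hG0 := Q_nonneg S (Ct (co g))
  have hH0 := Q_nonneg S (Ct (co h))
  have hGb : Q S (Ct (co g)) * p ≤ 8 * C1 * q * ng := by
    have h2 : Q S (Ct (co g)) * (p / 4) ≤ Q S (Ct (co g)) * nf :=
      mul_le_mul_of_nonneg_left hnf4 hG0
    have h3 : C * Q S (Ct (co h)) * ng ≤ C1 * (2 * q) * ng := by
      refine mul_le_mul_of_nonneg_right ?_ hng0
      exact (mul_le_mul_of_nonneg_right hCC hH0).trans (mul_le_mul_of_nonneg_left hQh hC0.le)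
    linarith
  have hD : ∀ z, ‖z‖ ≤ max R r →
      ‖Ct (co g) z - Ct (co g) 0 * P z‖ ^ 2 * p ≤ 8 * C1 * e2 * ng := by
    intro z hz
    have h2 := hK2 a haa2 (co g) (tc_of_tr hg) z hz
    rw [← hqd] at h2
    have h3 := mul_le_mul_of_nonneg_right h2 hp.le
    have h4 := mul_le_mul_of_nonneg_left hGb he2.le
    have h5 : q * (‖Ct (co g) z - Ct (co g) 0 * P z‖ ^ 2 * p) ≤ q * (8 * C1 * e2 * ng) := by
      linarith
    exact le_of_mul_le_mul_left h5 hq0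
  obtain ⟨c, hcd⟩ : ∃ c, c = Ct (co g) 0 := ⟨_, rfl⟩
  rw [← hcd] at hD ⊢
  have hng := int_le (K := 8 * C1 * e2 * ng / p) (g := fun z => c * P z) hνr hcg
    (continuous_const.mul hP)
    (fun z hz => by
      rw [le_div_iff₀ hp]
      exact hD z (hz.trans (le_max_right _ _)))
  have e3 : ∫ z, ‖c * P z‖ ^ 2 ∂ν = ‖c‖ ^ 2 * p := by
    rw [hpd, ← integral_const_mul]
    refine integral_congr_ae (Eventually.of_forall fun z => ?_)
    simp only [norm_mul]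
    ring
  rw [e3, ← hngd, ← hVd] at hng
  have hkV : 8 * C1 * e2 * ng / p * V ≤ ng / 4 := by
    rw [div_mul_eq_mul_div, div_le_div_iff₀ hp (by norm_num)]
    have h2 : e2 * (32 * C1 * V) ≤ p := by
      refine le_trans ?_ he2a
      have : 0 ≤ e2 * (32 * C1) := by positivity
      nlinarith
    have h3 := mul_le_mul_of_nonneg_left h2 hng0
    linarith
  have hngc : ng ≤ 4 * p * ‖c‖ ^ 2 := by linarith
  have h6 := hD z (hz.trans (le_max_left _ _))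
  have h7 : ‖Ct (co g) z - c * P z‖ ^ 2 ≤ (ε * ‖c‖) ^ 2 := by
    have h8 : 8 * C1 * e2 * ng ≤ 8 * C1 * e2 * (4 * p * ‖c‖ ^ 2) :=
      mul_le_mul_of_nonneg_left hngc (by positivity)
    have h9 : ‖Ct (co g) z - c * P z‖ ^ 2 * p ≤ (e2 * (32 * C1) * ‖c‖ ^ 2) * p := by
      linarith
    have h10 := le_of_mul_le_mul_right h9 hp
    have h11 := mul_le_mul_of_nonneg_right he2b (sq_nonneg ‖c‖)
    rw [mul_pow]
    linarith
  exact (pow_le_pow_iff_left₀ (norm_nonneg _) (by positivity) two_ne_zero).1 h7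

end Pool.Agent.H478.WM.LN
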