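import Pool.Agent.H478.WM.Stm3

/-!
# Project WM, third part: the mass of the minimisers leaves every node (helper289)
-/

set_option autoImplicit false

open Complex MeasureTheory Filter Topology Set
open scoped ContDiff

namespace Pool.Agent.H478.WM.MASS

/-- the nodes are locally finite -/
theorem gap (S : Sys) {t : ℝ} (ht : t ∈ S.G) :
    ∃ η : ℝ, 0 < η ∧ ∀ s ∈ S.G, t < s → t + 2 * η < s := by
  have ht0 := S.pos t ht
  have hfin : {s : ℝ | s ∈ S.G ∧ t < s ∧ s ≤ t + 1}.Finite := by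
    have h1 := S.summ.tendsto_cofinite_zero
    have h2 : ∀ᶠ s : S.G in cofinite, S.m s / (s : ℝ) ^ 2 < 1 / (t + 1) ^ 2 :=
      h1.eventually (gt_mem_nhds (by positivity))
    have h3 : {s : S.G | ¬ S.m s / (s : ℝ) ^ 2 < 1 / (t + 1) ^ 2}.Finite := h2
    refine (h3.image Subtype.val).subset ?_
    rintro s ⟨hs, hts, hs1⟩
    refine ⟨⟨s, hs⟩, ?_, rfl⟩
    have hs0 := S.pos s hs
    have h4 := S.one_le s hs
    show ¬ S.m s / s ^ 2 < 1 / (t + 1) ^ 2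
    rw [not_lt]
    exact div_le_div₀ (by linarith) h4 (by positivity) (pow_le_pow_left₀ hs0.le hs1 2)
  have hnm : t ∉ {s : ℝ | s ∈ S.G ∧ t < s ∧ s ≤ t + 1} := fun h => lt_irrefl _ h.2.1
  obtain ⟨δ, hδ, hball⟩ := Metric.isOpen_iff.1 hfin.isClosed.isOpen_compl t hnm
  have h5 : min δ 1 ≤ δ := min_le_left _ _
  have h6 : min δ 1 ≤ 1 := min_le_right _ _
  have h7 : 0 < min δ 1 := lt_min hδ one_pos
  refine ⟨min δ 1 / 3, by positivity, fun s hs hts => ?_⟩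
  by_contra hcon
  rw [not_lt] at hcon
  refine hball (?_ : s ∈ Metric.ball t δ) ⟨hs, hts, by linarith⟩
  rw [Metric.mem_ball, Real.dist_eq, abs_of_pos (by linarith)]
  linarith

theorem sq_real {S : Sys} {a : ℝ} {u : ℂ → ℂ} (hu : IsMin S a u) (s : ℝ) :
    u (s : ℂ) ^ 2 = ((‖u (s : ℂ)‖ ^ 2 : ℝ) : ℂ) := by
  have h1 : u (s : ℂ) = ((u (s : ℂ)).re : ℂ) :=
    Complex.ext (by rw [Complex.ofReal_re]) (by rw [Complex.ofReal_im, hu.real s])
  have h2 : ‖u (s : ℂ)‖ ^ 2 = (u (s : ℂ)).re ^ 2 := by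
    conv_lhs => rw [h1]
    rw [Complex.norm_real, Real.norm_eq_abs, sq_abs]
  rw [h2]
  conv_lhs => rw [h1]
  push_cast
  rfl

theorem key (h2 : S_HE) (h3 : S_ORT1) {S : Sys} {a : ℝ} {u : ℂ → ℂ} (ha : 0 < a)
    (hu : IsMin S a u) {t η x : ℝ} (ht : t ∈ S.G) (hη : 0 < η)
    (hgap : ∀ s ∈ S.G, t < s → t + 2 * η < s) (htx : t < x) (hx : x ≤ t + η)
    (hux : u (x : ℂ) = 0) :
    S.m t * ‖u (t : ℂ)‖ ^ 2 * (t ^ 2 / (x ^ 2 - t ^ 2)) ≤
      (t + 2 * η) ^ 2 / ((t + 2 * η) ^ 2 - (t + η) ^ 2) * qS S a := by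
  have ht0 := S.pos t ht
  obtain ⟨-, -, hL2, -⟩ := h2 S a u ha hu.mem
  obtain ⟨g1, g2⟩ := h3 S a u (x : ℂ) ha hu hux
  set K : ℝ := (t + 2 * η) ^ 2 / ((t + 2 * η) ^ 2 - (t + η) ^ 2) with hK
  have hKd : 0 < (t + 2 * η) ^ 2 - (t + η) ^ 2 := by nlinarith
  have hK0 : 0 ≤ K := by positivity
  let c : S.G → ℝ := fun s => S.m s * ‖u ((s : ℝ) : ℂ)‖ ^ 2
  let f : S.G → ℝ := fun s => c s * ((s : ℝ) ^ 2 / ((s : ℝ) ^ 2 - x ^ 2))
  have hc0 : ∀ s, 0 ≤ c s := fun s =>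
    mul_nonneg (by linarith [S.one_le s s.2]) (sq_nonneg _)
  have hcs : Summable c := hL2
  have hcq : ∑' s, c s = qS S a := hu.energy
  have hterm : ∀ s : S.G, (S.m s : ℂ) * (((s : ℝ) : ℂ) ^ 2 * (u ((s : ℝ) : ℂ)) ^ 2 /
      (((s : ℝ) : ℂ) ^ 2 - (x : ℂ) ^ 2)) = ((f s : ℝ) : ℂ) := by
    intro s
    rw [sq_real hu (s : ℝ)]
    show _ = ((S.m s * ‖u ((s : ℝ) : ℂ)‖ ^ 2 * ((s : ℝ) ^ 2 / ((s : ℝ) ^ 2 - x ^ 2)) : ℝ) : ℂ)
    push_cast
    ring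
  simp_rw [hterm] at g1 g2
  have hfs : Summable f := Complex.summable_ofReal.1 g1
  have hf0 : ∑' s, f s = 0 := by
    rw [← Complex.ofReal_tsum] at g2
    exact_mod_cast g2
  have hle : ∀ s, f s ≤ K * c s := by
    intro s
    have hs0 := S.pos s s.2
    show c s * ((s : ℝ) ^ 2 / ((s : ℝ) ^ 2 - x ^ 2)) ≤ K * c s
    rw [mul_comm K]
    refine mul_le_mul_of_nonneg_left ?_ (hc0 s)
    rcases le_or_gt (s : ℝ) t with h | h
    · have h4 : (s : ℝ) ^ 2 - x ^ 2 < 0 := by nlinarith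
      exact (div_nonpos_of_nonneg_of_nonpos (sq_nonneg _) h4.le).trans hK0
    · have h4 := hgap s s.2 h
      have h5 : 0 < (s : ℝ) ^ 2 - x ^ 2 := by nlinarith
      rw [hK, div_le_div_iff₀ h5 hKd]
      have h6 : (t + 2 * η) * x ≤ (s : ℝ) * (t + η) :=
        mul_le_mul h4.le hx (by linarith) (by linarith)
      have h7 : ((t + 2 * η) * x) ^ 2 ≤ ((s : ℝ) * (t + η)) ^ 2 :=
        pow_le_pow_left₀ (by nlinarith) h6 2
      nlinarith
  have hg : Summable fun s => K * c s - f s := (hcs.mul_left K).sub hfs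
  have h4 : K * c ⟨t, ht⟩ - f ⟨t, ht⟩ ≤ ∑' s, (K * c s - f s) :=
    hg.le_tsum ⟨t, ht⟩ fun s _ => sub_nonneg.2 (hle s)
  rw [(hcs.mul_left K).tsum_sub hfs, tsum_mul_left, hcq, hf0, sub_zero] at h4
  have h5 : f ⟨t, ht⟩ = -(S.m t * ‖u (t : ℂ)‖ ^ 2 * (t ^ 2 / (x ^ 2 - t ^ 2))) := by
    show S.m t * ‖u (t : ℂ)‖ ^ 2 * (t ^ 2 / (t ^ 2 - x ^ 2)) = _
    rw [← neg_sub (x ^ 2) (t ^ 2), div_neg]
    ring
  rw [h5] at h4
  have h6 := mul_nonneg hK0 (hc0 ⟨t, ht⟩)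
  linarith

theorem t_MASS (_ : S_L2A) (h2 : S_HE) (h3 : S_ORT1) : S_MASS := by
  intro S u hmin hq hz t ht ε hε
  have ht0 := S.pos t ht
  obtain ⟨η, hη, hgap⟩ := gap S ht
  obtain ⟨C, hC⟩ := hz t ht
  set K : ℝ := (t + 2 * η) ^ 2 / ((t + 2 * η) ^ 2 - (t + η) ^ 2) with hK
  have hKd : 0 < (t + 2 * η) ^ 2 - (t + η) ^ 2 := by nlinarith
  have hK0 : 0 ≤ K := by positivity
  have e1 : ∀ᶠ a in atTop, C * qS S a < η := by
    have h := hq.const_mul C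
    rw [mul_zero] at h
    exact h.eventually (gt_mem_nhds hη)
  have e2 : ∀ᶠ a in atTop, K * C * (2 * t + η) / t ^ 2 * qS S a < ε := by
    have h := hq.const_mul (K * C * (2 * t + η) / t ^ 2)
    rw [mul_zero] at h
    exact h.eventually (gt_mem_nhds hε)
  filter_upwards [e1, e2, hC, eventually_gt_atTop 0] with a h4 h5 h6 ha
  obtain ⟨x, hx1, hx2, hx3⟩ := h6
  obtain ⟨hu, hq0⟩ := hmin a ha
  have h7 := key h2 h3 ha hu ht hη hgap hx1 (by linarith) hx3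
  rw [← hK] at h7
  have h8 : 0 < x ^ 2 - t ^ 2 := by nlinarith
  have h9 : x ^ 2 - t ^ 2 ≤ C * qS S a * (2 * t + η) := by
    have h10 : x ^ 2 - t ^ 2 = (x - t) * (x + t) := by ring
    rw [h10]
    exact mul_le_mul (by linarith) (by linarith) (by linarith) (by linarith)
  set M : ℝ := S.m t * ‖u a (t : ℂ)‖ ^ 2 with hM
  have h11 : M * t ^ 2 ≤ K * qS S a * (x ^ 2 - t ^ 2) := by
    rw [← mul_div_assoc, div_le_iff₀ h8] at h7
    exact h7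
  have h12 : K * qS S a * (x ^ 2 - t ^ 2) ≤ K * qS S a * (C * qS S a * (2 * t + η)) :=
    mul_le_mul_of_nonneg_left h9 (mul_nonneg hK0 hq0.le)
  have h13 : K * qS S a * (C * qS S a * (2 * t + η)) =
      (K * C * (2 * t + η) / t ^ 2 * qS S a) * qS S a * t ^ 2 := by
    field_simp
  have h14 : (K * C * (2 * t + η) / t ^ 2 * qS S a) * qS S a * t ^ 2 ≤ ε * qS S a * t ^ 2 := by
    have := mul_le_mul_of_nonneg_right h5.le hq0.le
    exact mul_le_mul_of_nonneg_right this (by positivity)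
  have h15 : M * t ^ 2 ≤ ε * qS S a * t ^ 2 := by linarith
  exact le_of_mul_le_mul_right h15 (by positivity)

end Pool.Agent.H478.WM.MASS
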