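import Pool.Agent.H478.WM.Stm3

/-!
# The interpolation identity (MID), by helper719
-/

open Complex MeasureTheory Filter Topology Set
open scoped ContDiff

namespace Pool.Agent.H478.WM.MID

noncomputable section

theorem big (S : Sys) (A : ℝ) (hA : 0 ≤ A) : ∀ᶠ t : S.G in cofinite, A ≤ (t : ℝ) ^ 2 := by
  have h1 := S.summ.tendsto_cofinite_zero
  have h2 : ∀ᶠ t : S.G in cofinite, S.m t / (t : ℝ) ^ 2 < 1 / (A + 1) :=
    h1.eventually_lt_const (by positivity)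
  filter_upwards [h2] with t ht
  have h3 := S.one_le t t.2
  have h4 := S.pos t t.2
  have h5 : 0 < (t : ℝ) ^ 2 := by positivity
  rw [div_lt_div_iff₀ h5 (by positivity)] at ht
  nlinarith

theorem summ (S : Sys) (u f : ℂ → ℂ) (w : ℂ)
    (h : Summable (fun t : S.G => (S.m t : ℂ) * (u ((t : ℝ) : ℂ) * f ((t : ℝ) : ℂ)))) :
    Summable (fun t : S.G => (S.m t : ℂ) * (((t : ℝ) : ℂ) ^ 2 * u ((t : ℝ) : ℂ) *
      f ((t : ℝ) : ℂ) / (((t : ℝ) : ℂ) ^ 2 - w ^ 2))) := by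
  apply Summable.of_norm_bounded_eventually (h.norm.mul_left 2)
  filter_upwards [big S (2 * ‖w‖ ^ 2) (by positivity)] with t ht
  have h4 := S.pos t t.2
  have h5 : ‖((t : ℝ) : ℂ) ^ 2‖ = (t : ℝ) ^ 2 := by
    rw [norm_pow, Complex.norm_real, Real.norm_of_nonneg h4.le]
  have h6 : (t : ℝ) ^ 2 / 2 ≤ ‖((t : ℝ) : ℂ) ^ 2 - w ^ 2‖ := by
    have h7 := norm_sub_norm_le (((t : ℝ) : ℂ) ^ 2) (w ^ 2)
    rw [h5, norm_pow] at h7
    linarith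
  have h8 : 0 < (t : ℝ) ^ 2 := by positivity
  have h9 : 0 < ‖((t : ℝ) : ℂ) ^ 2 - w ^ 2‖ := by linarith
  have e1 : (S.m t : ℂ) * (((t : ℝ) : ℂ) ^ 2 * u ((t : ℝ) : ℂ) *
      f ((t : ℝ) : ℂ) / (((t : ℝ) : ℂ) ^ 2 - w ^ 2)) =
      (((t : ℝ) : ℂ) ^ 2 / (((t : ℝ) : ℂ) ^ 2 - w ^ 2)) *
      ((S.m t : ℂ) * (u ((t : ℝ) : ℂ) * f ((t : ℝ) : ℂ))) := by ring
  rw [e1, norm_mul]
  apply mul_le_mul_of_nonneg_right _ (norm_nonneg _)
  rw [norm_div, h5, div_le_iff₀ h9]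
  linarith

theorem t_MID (h1 : S_L2A) (h2 : S_HE) (h3 : S_LIN) (h4 : S_EX) : S_MID := by
  intro S a u f w ha hu hf hw hG
  obtain ⟨-, -, hu2, -⟩ := h2 S a u ha hu.mem
  obtain ⟨-, -, hf2, -⟩ := h2 S a f ha hf
  obtain ⟨-, huf, -⟩ := h1 S u f u 1 1 hu2 hf2 hu2
  obtain ⟨-, huu, -⟩ := h1 S u u u 1 1 hu2 hu2 hu2
  have hA := summ S u f w huf
  have hB := summ S u u w huu
  refine ⟨hA, ?_⟩
  have hv : InH S a (fun z => u w * f z + (-f w) * u z) := h3 S a f u (u w) (-f w) ha hf hu.mem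
  obtain ⟨k, hk, hkv⟩ := h4 S a _ w ha hw hv (by ring)
  have hv2 : InH S a (fun z => 1 * (u w * f z + (-f w) * u z) + w ^ 2 * k z) :=
    h3 S a _ k 1 (w ^ 2) ha hv hk
  have hel := hu.el _ hv2
  have h0 : (1 : ℂ) * (u w * f 0 + (-f w) * u 0) + w ^ 2 * k 0 = 0 := by
    rw [← hkv 0]
    ring
  have e1 : Bf S u (fun z => 1 * (u w * f z + (-f w) * u z) + w ^ 2 * k z) = 0 := by
    rw [hel]
    simp only [h0, mul_zero]
  have e2 : Bf S u (fun z => 1 * (u w * f z + (-f w) * u z) + w ^ 2 * k z) =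
      ∑' t : S.G, (u w * ((S.m t : ℂ) * (((t : ℝ) : ℂ) ^ 2 * u ((t : ℝ) : ℂ) *
        f ((t : ℝ) : ℂ) / (((t : ℝ) : ℂ) ^ 2 - w ^ 2))) -
        f w * ((S.m t : ℂ) * (((t : ℝ) : ℂ) ^ 2 * u ((t : ℝ) : ℂ) *
        u ((t : ℝ) : ℂ) / (((t : ℝ) : ℂ) ^ 2 - w ^ 2)))) := by
    unfold Bf
    refine tsum_congr fun t => ?_
    have hne : ((t : ℝ) : ℂ) ^ 2 - w ^ 2 ≠ 0 := sub_ne_zero.2 (hG t t.2)
    have hkt := hkv ((t : ℝ) : ℂ)
    have hk2 : k ((t : ℝ) : ℂ) = (u w * f ((t : ℝ) : ℂ) + (-f w) * u ((t : ℝ) : ℂ)) /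
        (((t : ℝ) : ℂ) ^ 2 - w ^ 2) := by
      rw [eq_div_iff hne, ← hkt]
      ring
    beta_reduce
    rw [hk2]
    field_simp
    ring
  rw [e2, (hA.mul_left (u w)).tsum_sub (hB.mul_left (f w)), tsum_mul_left, tsum_mul_left,
    sub_eq_zero] at e1
  exact e1.symm

end

end Pool.Agent.H478.WM.MID
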