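import Pool.Agent.H478.WM.Stm3

/-! Project WM, third part: the order of the zeros of `Xi`. -/

open Complex MeasureTheory Filter Topology Set
open scoped ContDiff

namespace Pool.Agent.H478.WM.ORD

lemma xi_diff : Differentiable ℂ Xi := by
  unfold Xi
  have h1 : Differentiable ℂ (fun z : ℂ => (1 / 2 : ℂ) + I * z) := by fun_prop
  have h2 : Differentiable ℂ (fun z : ℂ => completedRiemannZeta₀ (1 / 2 + I * z)) :=
    differentiable_completedZeta₀.comp h1
  exact (((h1.mul (h1.sub (differentiable_const _))).mul h2).add (differentiable_const _)).div_const _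

lemma xi_an (z : ℂ) : AnalyticAt ℂ Xi z := xi_diff.analyticAt z

lemma xi_ne_top (z : ℂ) : analyticOrderAt Xi z ≠ ⊤ := by
  intro h
  have h1 := (AnalyticOnNhd.analyticOrderAt_eq_top_iff_eq_zero z xi_an).mp h
  have h2 : Xi (I / 2) = 0 := by rw [h1]; rfl
  unfold Xi at h2
  have h3 : (1 / 2 : ℂ) + I * (I / 2) = 0 := by
    have h4 : I * I = -1 := Complex.I_mul_I
    linear_combination (1 / 2 : ℂ) * h4
  rw [h3] at h2
  norm_num at h2

/-- the quotient `ζ / Xi` -/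
noncomputable def Ez (s : ℂ) : ℂ := (Gammaℝ s)⁻¹ * (2 / (s * (s - 1)))

lemma zeta_eq {z : ℂ} (h0 : (1 / 2 : ℂ) + I * z ≠ 0) (h1 : (1 / 2 : ℂ) + I * z ≠ 1) :
    riemannZeta (1 / 2 + I * z) = Ez (1 / 2 + I * z) * Xi z := by
  rw [riemannZeta_def_of_ne_zero h0, completedRiemannZeta_eq]
  unfold Ez Xi
  set s : ℂ := 1 / 2 + I * z with hs
  have h2 : s - 1 ≠ 0 := sub_ne_zero.mpr h1
  have h3 : 1 - s ≠ 0 := sub_ne_zero.mpr (Ne.symm h1)
  have h4 : completedRiemannZeta₀ s - 1 / s - 1 / (1 - s) =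
      (2 / (s * (s - 1))) * ((s * (s - 1) * completedRiemannZeta₀ s + 1) / 2) := by
    field_simp
    ring
  rw [h4, div_eq_mul_inv]
  ring

theorem t_ORD : S_ORD := by
  intro t ht
  obtain ⟨ht0, htz⟩ := ht
  have hs : (1 / 2 : ℂ) + I * (t : ℂ) = 1 / 2 + t * I := by ring
  have hre : ((1 / 2 : ℂ) + I * (t : ℂ)).re = 1 / 2 := by simp
  have h0 : (1 / 2 : ℂ) + I * (t : ℂ) ≠ 0 := by
    intro h
    rw [h] at hre
    norm_num at hre
  have h1 : (1 / 2 : ℂ) + I * (t : ℂ) ≠ 1 := by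
    intro h
    rw [h] at hre
    norm_num at hre
  have haff : Differentiable ℂ (fun z : ℂ => (1 / 2 : ℂ) + I * z) := by fun_prop
  have hE : AnalyticAt ℂ Ez ((1 / 2 : ℂ) + I * (t : ℂ)) := by
    unfold Ez
    have e1 : AnalyticAt ℂ (fun s : ℂ => (Gammaℝ s)⁻¹) ((1 / 2 : ℂ) + I * (t : ℂ)) :=
      differentiable_Gammaℝ_inv.analyticAt _
    have e2 : AnalyticAt ℂ (fun s : ℂ => s * (s - 1)) ((1 / 2 : ℂ) + I * (t : ℂ)) :=
      analyticAt_id.mul (analyticAt_id.sub analyticAt_const)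
    exact e1.mul (analyticAt_const.div e2 (mul_ne_zero h0 (sub_ne_zero.mpr h1)))
  have hEc : AnalyticAt ℂ (fun z : ℂ => Ez (1 / 2 + I * z)) (t : ℂ) :=
    AnalyticAt.fun_comp hE (haff.analyticAt _)
  have hEn : Ez ((1 / 2 : ℂ) + I * (t : ℂ)) ≠ 0 := by
    unfold Ez
    refine mul_ne_zero (inv_ne_zero (Gammaℝ_ne_zero_of_re_pos (by rw [hre]; norm_num)))
      (div_ne_zero two_ne_zero (mul_ne_zero h0 (sub_ne_zero.mpr h1)))
  have hord : analyticOrderAt riemannZeta ((1 / 2 : ℂ) + I * (t : ℂ)) =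
      analyticOrderAt Xi (t : ℂ) := by
    have e1 : analyticOrderAt (riemannZeta ∘ (fun z : ℂ => (1 / 2 : ℂ) + I * z)) (t : ℂ) =
        analyticOrderAt riemannZeta ((1 / 2 : ℂ) + I * (t : ℂ)) := by
      refine analyticOrderAt_comp_of_deriv_ne_zero (haff.analyticAt _) ?_
      have e2 : HasDerivAt (fun z : ℂ => (1 / 2 : ℂ) + I * z) I (t : ℂ) := by
        simpa using ((hasDerivAt_id (t : ℂ)).const_mul I).const_add (1 / 2 : ℂ)
      rw [e2.deriv]
      exact I_ne_zero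
    rw [← e1]
    have e3 : (riemannZeta ∘ (fun z : ℂ => (1 / 2 : ℂ) + I * z)) =ᶠ[𝓝 (t : ℂ)]
        ((fun z : ℂ => Ez (1 / 2 + I * z)) * Xi) := by
      have f0 : ∀ᶠ z in 𝓝 (t : ℂ), (1 / 2 : ℂ) + I * z ≠ 0 :=
        haff.continuous.continuousAt.eventually_ne h0
      have f1 : ∀ᶠ z in 𝓝 (t : ℂ), (1 / 2 : ℂ) + I * z ≠ 1 :=
        haff.continuous.continuousAt.eventually_ne h1
      filter_upwards [f0, f1] with z g0 g1
      exact zeta_eq g0 g1
    rw [analyticOrderAt_congr e3, analyticOrderAt_mul hEc (xi_an _),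
      (hEc.analyticOrderAt_eq_zero).mpr hEn, zero_add]
  have hnat : analyticOrderNatAt Xi (t : ℂ) = mz (1 / 2 + t * I) := by
    unfold mz analyticOrderNatAt
    rw [← hs, hord]
  refine ⟨xi_ne_top _, hnat, ?_⟩
  rw [← hnat]
  have hX0 : Xi (t : ℂ) = 0 := by
    have e1 := zeta_eq h0 h1
    rw [hs, htz, ← hs] at e1
    rcases mul_eq_zero.mp e1.symm with e2 | e2
    · exact absurd e2 hEn
    · exact e2
  have h5 : analyticOrderAt Xi (t : ℂ) ≠ 0 := ((xi_an _).analyticOrderAt_ne_zero).mpr hX0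
  have h6 := Nat.cast_analyticOrderNatAt (xi_ne_top (t : ℂ))
  rw [← h6] at h5
  have h7 : analyticOrderNatAt Xi (t : ℂ) ≠ 0 := by
    intro h
    rw [h] at h5
    exact h5 rfl
  omega

end Pool.Agent.H478.WM.ORD
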