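import Pool.Agent.H478.WM.Stm3

/-!
# Project WM, third part: PHY, the kernel of the Xi function with exponential weights
-/

open Complex MeasureTheory Filter Topology Set
open scoped ContDiff

namespace Pool.Agent.H478.WM.PHY

theorem expo (ε a y : ℝ) :
    -(Real.pi - Real.pi * (1 - Real.exp (-(ε / (2 * Real.pi))))) * Real.exp (2 * y) ≤
      2 * Real.pi * Real.exp (2 * a) * a - Real.exp (2 * a) * (Real.pi - ε / 2) -
        2 * Real.pi * Real.exp (2 * a) * y := by
  have hpi := Real.pi_pos
  have h1 : Real.exp (2 * y) * Real.exp (-(ε / (2 * Real.pi))) =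
      Real.exp (2 * a) * Real.exp (2 * (y - a) - ε / (2 * Real.pi)) := by
    rw [← Real.exp_add, ← Real.exp_add]
    congr 1
    ring
  have h2 := Real.add_one_le_exp (2 * (y - a) - ε / (2 * Real.pi))
  have h3 : Real.pi * (2 * (y - a) - ε / (2 * Real.pi) + 1) =
      2 * Real.pi * (y - a) + (Real.pi - ε / 2) := by
    field_simp
    ring
  have h4 : Real.exp (2 * a) * (Real.pi * (2 * (y - a) - ε / (2 * Real.pi) + 1)) ≤
      Real.exp (2 * a) * (Real.pi * Real.exp (2 * (y - a) - ε / (2 * Real.pi))) :=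
    mul_le_mul_of_nonneg_left (mul_le_mul_of_nonneg_left h2 hpi.le) (Real.exp_pos _).le
  rw [h3] at h4
  have h5 : -(Real.pi - Real.pi * (1 - Real.exp (-(ε / (2 * Real.pi))))) * Real.exp (2 * y) =
      -(Real.pi * (Real.exp (2 * y) * Real.exp (-(ε / (2 * Real.pi))))) := by ring
  rw [h5, h1]
  linarith

theorem t_PHY (h1 : S_PHI) : S_PHY := by
  obtain ⟨Φ, hsm, hev, hb, hz⟩ := h1
  refine ⟨Φ, hz, fun ε hε => ?_⟩
  have hpi := Real.pi_pos
  have hδ : 0 < ε / (2 * Real.pi) := by positivity
  have hε1 : 0 < Real.pi * (1 - Real.exp (-(ε / (2 * Real.pi)))) := by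
    have : Real.exp (-(ε / (2 * Real.pi))) < 1 := Real.exp_lt_one_iff.2 (by linarith)
    exact mul_pos hpi (by linarith)
  obtain ⟨C, hC⟩ := hb _ hε1
  obtain ⟨C', hC'⟩ : ∃ C' : ℝ, C' = |C| + 1 := ⟨_, rfl⟩
  have hC'p : 0 < C' := by
    rw [hC']
    positivity
  have hCC : C ≤ C' := by
    rw [hC']
    linarith [le_abs_self C]
  refine ⟨|Real.log C'| / ε + 1, by positivity, fun a ha => ?_⟩
  refine ⟨C' * Real.exp (2 * Real.pi * Real.exp (2 * a) * a -
    Real.exp (2 * a) * (Real.pi - ε / 2)), by positivity, ?_, ?_⟩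
  · have key : ∀ x : ℝ, |Φ x| + |deriv Φ x| + |deriv (deriv Φ) x| ≤
        C' * Real.exp (2 * Real.pi * Real.exp (2 * a) * a -
          Real.exp (2 * a) * (Real.pi - ε / 2)) *
          Real.exp (-(2 * Real.pi * Real.exp (2 * a)) * |x|) := by
      intro x
      refine (hC x).trans ?_
      have e1 := expo ε a |x|
      have e2 : C * Real.exp (-(Real.pi - Real.pi * (1 - Real.exp (-(ε / (2 * Real.pi))))) *
          Real.exp (2 * |x|)) ≤ C' * Real.exp (-(Real.pi - Real.pi *
            (1 - Real.exp (-(ε / (2 * Real.pi))))) * Real.exp (2 * |x|)) :=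
        mul_le_mul_of_nonneg_right hCC (Real.exp_pos _).le
      refine e2.trans ?_
      rw [mul_assoc, ← Real.exp_add]
      refine mul_le_mul_of_nonneg_left (Real.exp_le_exp.2 ?_) hC'p.le
      linarith
    refine ⟨?_, ?_, ?_, ?_, ?_⟩
    · exact hsm
    · exact hev
    · intro x
      have := key x
      have h2 := abs_nonneg (Φ x)
      have h3 := abs_nonneg (deriv Φ x)
      have h4 := abs_nonneg (deriv (deriv Φ) x)
      linarith
    · intro x
      have := key x
      have h2 := abs_nonneg (Φ x)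
      have h3 := abs_nonneg (deriv Φ x)
      have h4 := abs_nonneg (deriv (deriv Φ) x)
      linarith
    · intro x
      have := key x
      have h2 := abs_nonneg (Φ x)
      have h3 := abs_nonneg (deriv Φ x)
      have h4 := abs_nonneg (deriv (deriv Φ) x)
      linarith
  · have e1 : C' ≤ Real.exp (ε / 2 * Real.exp (2 * a)) := by
      rw [← Real.log_le_iff_le_exp hC'p]
      have e2 := Real.add_one_le_exp (2 * a)
      have e3 : |Real.log C'| ≤ ε * a := by
        have e4 : |Real.log C'| / ε ≤ a := by linarith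
        rw [div_le_iff₀ hε] at e4
        linarith
      have e5 : ε / 2 * (2 * a + 1) ≤ ε / 2 * Real.exp (2 * a) :=
        mul_le_mul_of_nonneg_left e2 (by positivity)
      linarith [le_abs_self (Real.log C')]
    rw [mul_assoc, ← Real.exp_add]
    have e6 : Real.exp (-(Real.pi - ε) * Real.exp (2 * a)) =
        Real.exp (ε / 2 * Real.exp (2 * a)) * Real.exp (-(Real.exp (2 * a) * (Real.pi - ε / 2))) := by
      rw [← Real.exp_add]
      congr 1
      ring
    rw [e6]
    have e7 : 2 * Real.pi * Real.exp (2 * a) * a - Real.exp (2 * a) * (Real.pi - ε / 2) +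
        -(2 * Real.pi * Real.exp (2 * a) * a) = -(Real.exp (2 * a) * (Real.pi - ε / 2)) := by ring
    rw [e7]
    exact mul_le_mul_of_nonneg_right e1 (Real.exp_pos _).le

end Pool.Agent.H478.WM.PHY
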