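import Pool.Agent.H478.WM.Stm3

/-!
# Project WM, statement QD: multiple zeros lower the energy (by helper218)
-/

set_option autoImplicit false

open Complex MeasureTheory Filter Topology Set
open scoped ContDiff

namespace Pool.Agent.H478.WM.QD

open Pool.Agent.H478.WM

/-- the sum of the `m t / t ^ 4` -/
theorem summ4 (S : Sys) : Summable (fun t : S.G => S.m t / (t : ℝ) ^ 4) ∧
    ∑' t : S.G, S.m t / (t : ℝ) ^ 4 ≤ (∑' t : S.G, S.m t / (t : ℝ) ^ 2) ^ 2 := by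
  set s : ℝ := ∑' t : S.G, S.m t / (t : ℝ) ^ 2 with hs
  have hpos : ∀ t : S.G, 0 < (t : ℝ) := fun t => S.pos t t.2
  have hm : ∀ t : S.G, 1 ≤ S.m t := fun t => S.one_le t t.2
  have h0 : ∀ t : S.G, 0 ≤ S.m t / (t : ℝ) ^ 2 := fun t =>
    div_nonneg (zero_le_one.trans (hm t)) (sq_nonneg _)
  have h1 : ∀ t : S.G, 1 / (t : ℝ) ^ 2 ≤ s := by
    intro t
    have h2 : S.m t / (t : ℝ) ^ 2 ≤ s := S.summ.le_tsum t fun j _ => h0 j
    refine le_trans ?_ h2
    exact div_le_div_of_nonneg_right (hm t) (sq_nonneg _)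
  have h2 : ∀ t : S.G, S.m t / (t : ℝ) ^ 4 ≤ s * (S.m t / (t : ℝ) ^ 2) := by
    intro t
    have h3 : S.m t / (t : ℝ) ^ 4 = 1 / (t : ℝ) ^ 2 * (S.m t / (t : ℝ) ^ 2) := by
      have := hpos t
      field_simp
    rw [h3]
    exact mul_le_mul_of_nonneg_right (h1 t) (h0 t)
  have h3 : Summable (fun t : S.G => s * (S.m t / (t : ℝ) ^ 2)) := S.summ.mul_left s
  have h4 : Summable (fun t : S.G => S.m t / (t : ℝ) ^ 4) :=
    Summable.of_nonneg_of_le (fun t => div_nonneg (zero_le_one.trans (hm t)) (by positivity)) h2 h3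
  refine ⟨h4, ?_⟩
  calc ∑' t : S.G, S.m t / (t : ℝ) ^ 4 ≤ ∑' t : S.G, s * (S.m t / (t : ℝ) ^ 2) := h4.tsum_le_tsum h2 h3
    _ = s ^ 2 := by rw [tsum_mul_left, ← hs, sq]

/-- the values of the transform at real points -/
theorem Ct_real (k : ℝ → ℝ) (t : ℝ) :
    Ct (co k) (t : ℂ) = ((∫ x : ℝ, k x * Real.cos (t * x) : ℝ) : ℂ) := by
  unfold Ct co
  rw [← integral_complex_ofReal]
  refine integral_congr_ae (Eventually.of_forall fun x => ?_)
  simp only
  push_cast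
  rfl

/-- the bound of the energy -/
theorem Q_le (S : Sys) (k : ℝ → ℝ) {D : ℝ} (_hD : 0 ≤ D)
    (h : ∀ t ∈ S.G, |∫ x : ℝ, k x * Real.cos (t * x)| ≤ D / t ^ 2) :
    Q S (Ct (co k)) ≤ (∑' t : S.G, S.m t / (t : ℝ) ^ 2) ^ 2 * D ^ 2 := by
  obtain ⟨h1, h2⟩ := summ4 S
  have hm : ∀ t : S.G, 1 ≤ S.m t := fun t => S.one_le t t.2
  have h3 : ∀ t : S.G, S.m t * ‖Ct (co k) ((t : ℝ) : ℂ)‖ ^ 2 ≤ S.m t / (t : ℝ) ^ 4 * D ^ 2 := by
    intro t
    have h4 := h t t.2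
    have hpos : 0 < (t : ℝ) := S.pos t t.2
    rw [Ct_real, Complex.norm_real, Real.norm_eq_abs]
    have h5 : |∫ x : ℝ, k x * Real.cos (t * x)| ^ 2 ≤ (D / (t : ℝ) ^ 2) ^ 2 :=
      pow_le_pow_left₀ (abs_nonneg _) h4 2
    have h6 : S.m t / (t : ℝ) ^ 4 * D ^ 2 = S.m t * (D / (t : ℝ) ^ 2) ^ 2 := by
      field_simp
    rw [h6]
    exact mul_le_mul_of_nonneg_left h5 (zero_le_one.trans (hm t))
  have h4 : Summable (fun t : S.G => S.m t / (t : ℝ) ^ 4 * D ^ 2) := h1.mul_right _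
  have h5 : Summable (fun t : S.G => S.m t * ‖Ct (co k) ((t : ℝ) : ℂ)‖ ^ 2) :=
    Summable.of_nonneg_of_le (fun t => mul_nonneg (zero_le_one.trans (hm t)) (sq_nonneg _)) h3 h4
  unfold Q
  calc ∑' t : S.G, S.m t * ‖Ct (co k) ((t : ℝ) : ℂ)‖ ^ 2
      ≤ ∑' t : S.G, S.m t / (t : ℝ) ^ 4 * D ^ 2 := h5.tsum_le_tsum h3 h4
    _ = (∑' t : S.G, S.m t / (t : ℝ) ^ 4) * D ^ 2 := tsum_mul_right
    _ ≤ _ := mul_le_mul_of_nonneg_right h2 (sq_nonneg _)

theorem t_QD (h1 : S_XI0) (h2 : S_SYS) (h3 : S_PHY) (h4 : S_DVL) (h5 : S_TRK) : S_QD := by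
  intro hRH ε hε
  obtain ⟨S, hG, hW⟩ := h2 hRH
  obtain ⟨Φ, hΦ, hPHY⟩ := h3
  set s : ℝ := ∑' t : S.G, S.m t / (t : ℝ) ^ 2 with hs
  -- the value at zero
  set c₀ : ℝ := ∫ x : ℝ, Φ x with hc₀
  have hXi : Xi 0 = (c₀ : ℂ) := by
    rw [hΦ 0, hc₀, ← integral_complex_ofReal]
    refine integral_congr_ae (Eventually.of_forall fun x => ?_)
    simp
  have hc0 : c₀ ≠ 0 := by
    intro h
    rw [h, Complex.ofReal_zero] at hXi
    exact h1.2.2.1 hXi
  set e : ℝ := min ε 1 / 8 with he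
  have he0 : 0 < e := by
    have : 0 < min ε 1 := lt_min hε one_pos
    positivity
  have he1 : e ≤ 1 / 8 := by
    have : min ε 1 ≤ 1 := min_le_right _ _
    rw [he]
    linarith
  have he2 : 5 * e ≤ ε := by
    have : min ε 1 ≤ ε := min_le_left _ _
    rw [he]
    linarith
  clear_value e
  obtain ⟨a₁, ha₁, hA₁⟩ := hPHY e he0
  obtain ⟨a₂, ha₂, hA₂⟩ := h5 c₀ e hc0 he0 (by linarith)
  refine ⟨max a₁ (max a₂ (s ^ 2 / e)), lt_max_of_lt_left ha₁, fun a ha F hF => ?_⟩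
  have hle1 : a₁ ≤ a := (le_max_left _ _).trans ha
  have hle2 : a₂ ≤ a := (le_max_left _ _).trans ((le_max_right _ _).trans ha)
  have hle3 : s ^ 2 / e ≤ a := (le_max_right _ _).trans ((le_max_right _ _).trans ha)
  have ha0 : 0 < a := ha₁.trans_le hle1
  obtain ⟨B, hB0, hEB, hB⟩ := hA₁ a hle1
  have hpi := Real.pi_gt_three
  set X : ℝ := Real.exp (2 * a) with hX
  have hX0 : 0 < X := Real.exp_pos _
  have hX1 : 2 * a ≤ X := by
    have := Real.add_one_le_exp (2 * a)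
    linarith
  have hY : 0 < 2 * Real.pi * X := by positivity
  set P : ℝ := ∏ t ∈ F, (t / (2 * Real.pi * X)) ^ (2 * (mz (1 / 2 + t * I) - 1)) with hP
  have hP0 : 0 ≤ P := by
    refine Finset.prod_nonneg fun t ht => ?_
    have : 0 < t := (hF t ht).1.1
    positivity
  have hP1 : P ≤ 1 := by
    refine Finset.prod_le_one (fun t ht => ?_) (fun t ht => ?_)
    · have : 0 < t := (hF t ht).1.1
      positivity
    · have : 0 < t := (hF t ht).1.1
      refine pow_le_one₀ (by positivity) ?_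
      rw [div_le_one hY]
      exact (hF t ht).2
  obtain ⟨ψ, hψ1, hψ2, hψ3⟩ := h4 (2 * Real.pi * X) B Φ F hY hEB (fun z _ => hΦ z) hF
  have hψ4 : ∫ x : ℝ, ψ x = c₀ := by
    rw [hXi] at hψ2
    exact_mod_cast hψ2
  -- the bound
  have hB2 : B * P * Real.exp (-(2 * Real.pi * X * a)) ≤ P * Real.exp (-(Real.pi - e) * X) := by
    calc B * P * Real.exp (-(2 * Real.pi * X * a)) = P * (B * Real.exp (-(2 * Real.pi * X * a))) := by ring
      _ ≤ _ := mul_le_mul_of_nonneg_left hB hP0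
  have hB3 : B * P * Real.exp (-(2 * Real.pi * X * a)) ≤ Real.exp (-X) := by
    refine hB2.trans ?_
    calc P * Real.exp (-(Real.pi - e) * X) ≤ 1 * Real.exp (-(Real.pi - e) * X) :=
          mul_le_mul_of_nonneg_right hP1 (Real.exp_pos _).le
      _ = Real.exp (-(Real.pi - e) * X) := one_mul _
      _ ≤ Real.exp (-X) := by
          apply Real.exp_le_exp.2
          nlinarith
  obtain ⟨k, hk, hkt⟩ := hA₂ a hle2 (B * P) ψ (mul_nonneg hB0 hP0) hψ1 hψ4 hB3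
  refine ⟨k, hk, ?_⟩
  set E : ℝ := Real.exp (-(Real.pi - 2 * e) * X) with hE
  have hE0 : 0 < E := Real.exp_pos _
  have hQ := Q_le S k (D := P * E) (by positivity) (fun t ht => by
    have ht' : t ∈ Ord := by rw [← hG]; exact ht
    refine (hkt t ht'.1 (hψ3 t ht')).trans ?_
    refine div_le_div_of_nonneg_right ?_ (sq_nonneg _)
    calc B * P * Real.exp (-(2 * Real.pi * X * a) + e * X)
        = B * P * Real.exp (-(2 * Real.pi * X * a)) * Real.exp (e * X) := by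
          rw [Real.exp_add]
          ring
      _ ≤ P * Real.exp (-(Real.pi - e) * X) * Real.exp (e * X) :=
          mul_le_mul_of_nonneg_right hB2 (Real.exp_pos _).le
      _ = P * E := by
          rw [mul_assoc, ← Real.exp_add, hE]
          congr 2
          ring)
  rw [← hs] at hQ
  rw [hW a k ha0 hk.1]
  have hconst : 2 * s ^ 2 ≤ Real.exp (e * X) := by
    have k1 : s ^ 2 ≤ a * e := (div_le_iff₀ he0).1 hle3
    have k2 : e * X + 1 ≤ Real.exp (e * X) := Real.add_one_le_exp _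
    have k3 : e * (2 * a) ≤ e * X := mul_le_mul_of_nonneg_left hX1 he0.le
    linarith
  have hPP : ∏ t ∈ F, (t / (2 * Real.pi * X)) ^ (4 * (mz (1 / 2 + t * I) - 1)) = P ^ 2 := by
    rw [hP, ← Finset.prod_pow]
    refine Finset.prod_congr rfl fun t _ => ?_
    rw [← pow_mul]
    congr 1
    ring
  rw [hPP]
  calc 2 * Q S (Ct (co k)) ≤ 2 * (s ^ 2 * (P * E) ^ 2) := by linarith
    _ = (2 * s ^ 2) * E ^ 2 * P ^ 2 := by ring
    _ ≤ Real.exp (e * X) * E ^ 2 * P ^ 2 :=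
        mul_le_mul_of_nonneg_right (mul_le_mul_of_nonneg_right hconst (sq_nonneg _)) (sq_nonneg _)
    _ = Real.exp (-(2 * Real.pi - 5 * e) * X) * P ^ 2 := by
        rw [hE, ← Real.exp_nat_mul, ← Real.exp_add]
        congr 2
        push_cast
        ring
    _ ≤ Real.exp (-(2 * Real.pi - ε) * X) * P ^ 2 := by
        refine mul_le_mul_of_nonneg_right (Real.exp_le_exp.2 ?_) (sq_nonneg _)
        have : 0 ≤ (ε - 5 * e) * X := mul_nonneg (by linarith) hX0.le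
        nlinarith

end Pool.Agent.H478.WM.QD
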