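import Pool.Agent.H478.WM.Stm3

/-! Smallness of the sum on a circle. -/

set_option autoImplicit false

open Complex MeasureTheory Filter Topology Set
open scoped ContDiff

namespace Pool.Agent.H478.WM.SM

noncomputable section

open Pool.Agent.H478.WM

/-- the nodes are locally finite -/
theorem fin_nodes (S : Sys) (T : ℝ) : {t : S.G | (t : ℝ) < T}.Finite := by
  by_cases hT : 0 < T
  · have h1 := S.summ.tendsto_cofinite_zero
    have h2 : ∀ᶠ t : S.G in cofinite, S.m t / (t : ℝ) ^ 2 < 1 / T ^ 2 :=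
      h1.eventually (gt_mem_nhds (by positivity))
    have h3 := Filter.eventually_cofinite.1 h2
    refine h3.subset fun t ht => ?_
    have ht' : (t : ℝ) < T := ht
    show ¬ (S.m t / (t : ℝ) ^ 2 < 1 / T ^ 2)
    have h0 := S.pos t t.2
    rw [not_lt]
    have h4 : (1 : ℝ) / T ^ 2 ≤ 1 / (t : ℝ) ^ 2 := by
      refine one_div_le_one_div_of_le (by positivity) ?_
      exact pow_le_pow_left₀ h0.le ht'.le 2
    exact h4.trans (div_le_div_of_nonneg_right (S.one_le t t.2) (by positivity))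
  · refine Set.Finite.subset Set.finite_empty fun t ht => ?_
    have ht' : (t : ℝ) < T := ht
    have h0 := S.pos t t.2
    exact absurd (h0.trans ht') hT

/-- the bound for the factor -/
theorem fac_le {r t : ℝ} {w : ℂ} (hw : ‖w‖ = r) (hne : t ^ 2 ≠ r ^ 2) :
    ‖w ^ 2 / ((t : ℂ) ^ 2 - w ^ 2)‖ ^ 2 ≤ (r ^ 2 / |t ^ 2 - r ^ 2|) ^ 2 := by
  have h1 : |t ^ 2 - r ^ 2| ≤ ‖(t : ℂ) ^ 2 - w ^ 2‖ := by
    have h2 := abs_norm_sub_norm_le ((t : ℂ) ^ 2) (w ^ 2)
    rw [norm_pow, norm_pow, hw, Complex.norm_real, Real.norm_eq_abs, sq_abs] at h2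
    exact h2
  have h3 : 0 < |t ^ 2 - r ^ 2| := abs_pos.2 (sub_ne_zero.2 hne)
  refine pow_le_pow_left₀ (norm_nonneg _) ?_ 2
  rw [norm_div, norm_pow, hw]
  exact div_le_div_of_nonneg_left (by positivity) h3 h1

theorem alg1 (K θ n q : ℝ) (hK : 0 ≤ K) (hn : 0 ≤ n) :
    K * (θ / (2 * (n + 1) * (K + 1)) * q) = (K / (K + 1)) * (θ / (2 * (n + 1)) * q) := by
  field_simp

theorem alg2 (n θ q : ℝ) (hn : 0 ≤ n) :
    n * (θ / (2 * (n + 1)) * q) = (n / (n + 1)) * (θ / 2 * q) := by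
  field_simp

theorem t_SM (h1 : S_HE) : S_SM := by
  intro S u hu hmass r θ hr hrG hθ
  have hne : ∀ t ∈ S.G, t ^ 2 ≠ r ^ 2 := by
    intro t ht h
    have h0 := S.pos t ht
    have h2 : t = r := by
      have h3 : (t - r) * (t + r) = 0 := by linear_combination h
      rcases mul_eq_zero.1 h3 with h4 | h4
      · linarith
      · linarith
    exact hrG (h2 ▸ ht)
  set X : ℝ := r ^ 2 / √(θ / 2) with hX
  have hsq : 0 < √(θ / 2) := Real.sqrt_pos.2 (by linarith)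
  have hX0 : 0 < X := by positivity
  set T : ℝ := r + 1 + X with hT
  have hF := fin_nodes S T
  set F : Finset S.G := hF.toFinset with hFd
  have hFm : ∀ t : S.G, t ∈ F ↔ (t : ℝ) < T := fun t => by
    rw [hFd, Set.Finite.mem_toFinset]
    rfl
  set K : S.G → ℝ := fun t => (r ^ 2 / |(t : ℝ) ^ 2 - r ^ 2|) ^ 2 with hK
  have hK0 : ∀ t, 0 ≤ K t := fun t => by positivity
  set e : S.G → ℝ := fun t => θ / (2 * ((F.card : ℝ) + 1) * (K t + 1)) with he
  have he0 : ∀ t, 0 < e t := fun t => by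
    have := hK0 t
    positivity
  have hev : ∀ᶠ a in atTop, ∀ t ∈ F, S.m t * ‖u a ((t : ℝ) : ℂ)‖ ^ 2 ≤ e t * qS S a :=
    (Filter.eventually_all_finset F).2 fun t _ => hmass t t.2 (e t) (he0 t)
  obtain ⟨a₁, ha₁⟩ := Filter.eventually_atTop.1 hev
  refine ⟨max a₁ 1, by positivity, fun a ha w hw => ⟨?_, ?_⟩⟩
  · intro t ht h
    have h2 := congrArg norm h
    rw [norm_pow, norm_pow, hw, Complex.norm_real, Real.norm_eq_abs, sq_abs] at h2
    exact hne t ht h2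
  · have ha1 : a₁ ≤ a := (le_max_left _ _).trans ha
    have ha0 : 0 < a := lt_of_lt_of_le one_pos ((le_max_right _ _).trans ha)
    obtain ⟨hmin, hq⟩ := hu a ha0
    have hL2 : Summable (fun t : S.G => S.m t * ‖u a ((t : ℝ) : ℂ)‖ ^ 2) :=
      (h1 S a (u a) ha0 hmin.mem).2.2.1
    have hQ : ∑' t : S.G, S.m t * ‖u a ((t : ℝ) : ℂ)‖ ^ 2 = qS S a := hmin.energy
    have hm0 : ∀ t : S.G, 0 ≤ S.m t * ‖u a ((t : ℝ) : ℂ)‖ ^ 2 := fun t =>
      mul_nonneg (zero_le_one.trans (S.one_le t t.2)) (by positivity)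
    -- the majorant
    have hg1 : Summable (fun t : S.G => if t ∈ F then K t * (S.m t * ‖u a ((t : ℝ) : ℂ)‖ ^ 2) else 0) := by
      refine summable_of_ne_finset_zero (s := F) fun t ht => ?_
      rw [if_neg ht]
    have hg2 := hL2.mul_left (θ / 2)
    have hle : ∀ t : S.G, S.m t * ‖u a ((t : ℝ) : ℂ)‖ ^ 2 * ‖w ^ 2 / (((t : ℝ) : ℂ) ^ 2 - w ^ 2)‖ ^ 2 ≤
        (if t ∈ F then K t * (S.m t * ‖u a ((t : ℝ) : ℂ)‖ ^ 2) else 0) +
          θ / 2 * (S.m t * ‖u a ((t : ℝ) : ℂ)‖ ^ 2) := by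
      intro t
      have h2 := fac_le hw (hne t t.2)
      have h3 : S.m t * ‖u a ((t : ℝ) : ℂ)‖ ^ 2 * ‖w ^ 2 / (((t : ℝ) : ℂ) ^ 2 - w ^ 2)‖ ^ 2 ≤
          S.m t * ‖u a ((t : ℝ) : ℂ)‖ ^ 2 * K t := mul_le_mul_of_nonneg_left h2 (hm0 t)
      refine h3.trans ?_
      by_cases ht : t ∈ F
      · rw [if_pos ht]
        have h4 := mul_nonneg (by linarith : (0 : ℝ) ≤ θ / 2) (hm0 t)
        linarith
      · rw [if_neg ht, zero_add, mul_comm]
        refine mul_le_mul_of_nonneg_right ?_ (hm0 t)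
        have ht' : T ≤ (t : ℝ) := not_lt.1 fun h => ht ((hFm t).2 h)
        have h4 : X ≤ (t : ℝ) ^ 2 - r ^ 2 := by nlinarith
        have h5 : |(t : ℝ) ^ 2 - r ^ 2| = (t : ℝ) ^ 2 - r ^ 2 := abs_of_pos (hX0.trans_le h4)
        have h6 : r ^ 2 / |(t : ℝ) ^ 2 - r ^ 2| ≤ √(θ / 2) := by
          rw [h5, div_le_iff₀ (hX0.trans_le h4)]
          have h7 : √(θ / 2) * X = r ^ 2 := by
            rw [hX]
            field_simp
          exact h7.symm.le.trans (mul_le_mul_of_nonneg_left h4 hsq.le)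
        calc K t ≤ √(θ / 2) ^ 2 := pow_le_pow_left₀ (by positivity) h6 2
          _ = θ / 2 := Real.sq_sqrt (by linarith)
    have hs : Summable (fun t : S.G =>
        S.m t * ‖u a ((t : ℝ) : ℂ)‖ ^ 2 * ‖w ^ 2 / (((t : ℝ) : ℂ) ^ 2 - w ^ 2)‖ ^ 2) :=
      Summable.of_nonneg_of_le (fun t => mul_nonneg (hm0 t) (by positivity)) hle (hg1.add hg2)
    refine (hs.tsum_le_tsum hle (hg1.add hg2)).trans ?_
    rw [hg1.tsum_add hg2, tsum_mul_left, hQ]
    have h2 : ∑' t : S.G, (if t ∈ F then K t * (S.m t * ‖u a ((t : ℝ) : ℂ)‖ ^ 2) else 0) =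
        ∑ t ∈ F, K t * (S.m t * ‖u a ((t : ℝ) : ℂ)‖ ^ 2) := by
      rw [tsum_eq_sum (s := F) (fun t ht => if_neg ht)]
      exact Finset.sum_congr rfl fun t ht => if_pos ht
    have h3 : ∑ t ∈ F, K t * (S.m t * ‖u a ((t : ℝ) : ℂ)‖ ^ 2) ≤
        ∑ t ∈ F, θ / (2 * ((F.card : ℝ) + 1)) * qS S a := by
      refine Finset.sum_le_sum fun t ht => ?_
      have h4 := mul_le_mul_of_nonneg_left (ha₁ a ha1 t ht) (hK0 t)
      refine h4.trans ?_
      have h5 : K t * (e t * qS S a) = (K t / (K t + 1)) * (θ / (2 * ((F.card : ℝ) + 1)) * qS S a) := by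
        exact alg1 _ _ _ _ (hK0 t) (Nat.cast_nonneg _)
      rw [h5]
      refine mul_le_of_le_one_left (by positivity) ?_
      have := hK0 t
      rw [div_le_one (by positivity)]
      linarith
    rw [Finset.sum_const, nsmul_eq_mul] at h3
    have h6 : (F.card : ℝ) * (θ / (2 * ((F.card : ℝ) + 1)) * qS S a) ≤ θ / 2 * qS S a := by
      have h7 : (F.card : ℝ) * (θ / (2 * ((F.card : ℝ) + 1)) * qS S a) =
          ((F.card : ℝ) / ((F.card : ℝ) + 1)) * (θ / 2 * qS S a) := alg2 _ _ _ (Nat.cast_nonneg _)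
      rw [h7]
      refine mul_le_of_le_one_left (by positivity) ?_
      rw [div_le_one (by positivity)]
      linarith
    rw [h2]
    linarith

end

end Pool.Agent.H478.WM.SM
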