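import Pool.Agent.H478.WM.Fin2
import Pool.Agent.H478.WM.MID
import Pool.Agent.H478.WM.KB
import Pool.Agent.H478.WM.MASS
import Pool.Agent.H478.WM.SM
import Pool.Agent.H478.WM.KER
import Pool.Agent.H478.WM.DEC
import Pool.Agent.H478.WM.KK
import Pool.Agent.H478.WM.LL
import Pool.Agent.H478.WM.LN
import Pool.Agent.H478.WM.DIV
import Pool.Agent.H478.WM.PHY
import Pool.Agent.H478.WM.ORD
import Pool.Agent.H478.WM.DVL
import Pool.Agent.H478.WM.TRK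
import Pool.Agent.H478.WM.QD
import Pool.Agent.H478.WM.DT

/-!
# Project WM, third part: the theorems
-/

open Complex MeasureTheory Filter Topology Set
open scoped ContDiff

namespace Pool.Agent.H478.WM

noncomputable section

theorem f_MID : S_MID := MID.t_MID t_L2A f_HE f_LIN f_EX
theorem f_KB : S_KB := KB.t_KB t_L2A f_HE f_MID
theorem f_MASS : S_MASS := MASS.t_MASS t_L2A f_HE f_ORT1
theorem f_SM : S_SM := SM.t_SM f_HE
theorem f_KER : S_KER := KER.t_KER f_HE f_KB f_MASS f_SM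
theorem f_DEC : S_DEC := DEC.t_DEC t_TCB f_SUM t_L2A f_HE f_LIN
theorem f_KK : S_KK := KK.t_KK f_KER f_DEC
theorem f_LL : S_LL := LL.t_LL t_TCB t_PL
theorem f_LN : S_LN := LN.t_LN t_TCB
theorem f_PHY : S_PHY := PHY.t_PHY f_PHI
theorem f_DVL : S_DVL := DVL.t_DVL DIV.t_DIV ORD.t_ORD
theorem f_QD : S_QD := QD.t_QD f_XI0 f_SYS f_PHY f_DVL TRK.t_TRK

theorem TR.tc {a : ℝ} {g : ℝ → ℝ} (h : TR a g) : TC a (co g) :=
  ⟨Complex.ofRealCLM.contDiff.comp h.smooth, fun x => by simp [co, h.even x],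
    fun x hx => by simp [co, h.supp x hx]⟩

theorem Ct_zero (g : ℝ → ℝ) : Ct (co g) 0 = ((∫ x : ℝ, g x : ℝ) : ℂ) := by
  have h : Ct (co g) 0 = ∫ x : ℝ, ((g x : ℝ) : ℂ) := by
    unfold Ct co
    refine integral_congr_ae (ae_of_all _ fun x => ?_)
    simp
  rw [h]
  exact integral_ofReal

theorem Data.q_tendsto {S : Sys} {u : ℝ → ℂ → ℂ} {γ : ℕ → ℝ} {P : ℂ → ℂ} (hRH : RiemannHypothesis)
    (D : Data S u γ P) : Tendsto (fun a => qS S a) atTop (𝓝 0) := by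
  have h1 : ∀ᶠ a in atTop, qS S a ≤ Real.exp (-(4 * Real.pi - 1) * Real.exp (2 * a)) := by
    filter_upwards [qW_small hRH 1 one_pos, eventually_gt_atTop (0:ℝ)] with a ha h0
    rw [qW_eq h0 D.form] at ha
    have := (D.min a h0).2.1
    linarith
  have hlim : Tendsto (fun a : ℝ => Real.exp (-(4 * Real.pi - 1) * Real.exp (2 * a))) atTop (𝓝 0) := by
    refine Real.tendsto_exp_atBot.comp ?_
    have h1 : Tendsto (fun a : ℝ => Real.exp (2 * a)) atTop atTop :=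
      Real.tendsto_exp_atTop.comp (tendsto_id.const_mul_atTop two_pos)
    exact h1.const_mul_atTop_of_neg (by linarith [Real.pi_gt_three])
  refine tendsto_of_tendsto_of_tendsto_of_le_of_le' tendsto_const_nhds hlim ?_ h1
  filter_upwards [eventually_gt_atTop (0:ℝ)] with a h0
  exact (D.min a h0).2.1.le

/-- the kernel estimate for the Riemann zeta function -/
theorem Data.kk {S : Sys} {u : ℝ → ℂ → ℂ} {γ : ℕ → ℝ} {P : ℂ → ℂ} (hRH : RiemannHypothesis)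
    (D : Data S u γ P) (R ε : ℝ) (hε : 0 < ε) : ∃ a₀ : ℝ, 0 < a₀ ∧ ∀ a, a₀ ≤ a → ∀ g : ℝ → ℂ, TC a g →
    ∀ z : ℂ, ‖z‖ ≤ R → qS S a * ‖Ct g z - Ct g 0 * P z‖ ^ 2 ≤ ε * Q S (Ct g) := by
  refine f_KK S u P (fun a ha => ⟨(D.min a ha).1, (D.min a ha).2.1⟩) (D.q_tendsto hRH) ?_ D.lim R ε hε
  intro t ht
  rw [← D.range] at ht
  obtain ⟨n, rfl⟩ := ht
  exact D.rate n

theorem Data.P_cont {S : Sys} {u : ℝ → ℂ → ℂ} {γ : ℕ → ℝ} {P : ℂ → ℂ} (D : Data S u γ P) : Continuous P := by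
  have hloc : TendstoLocallyUniformly (fun (n : ℕ) z => u (n : ℝ) z) P atTop := by
    rw [tendstoLocallyUniformly_iff_forall_isCompact]
    intro K hK
    obtain ⟨R, hR⟩ := hK.isBounded.exists_norm_le
    rw [Metric.tendstoUniformlyOn_iff]
    intro ε hε
    obtain ⟨a₀, _, h⟩ := D.lim R (ε / 2) (by linarith)
    obtain ⟨N, hN⟩ := exists_nat_ge a₀
    filter_upwards [eventually_ge_atTop N] with n hn z hz
    have := h n (hN.trans (by exact_mod_cast hn)) z (hR z hz)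
    rw [dist_comm, dist_eq_norm]
    linarith
  have hev : ∀ᶠ n : ℕ in atTop, Continuous (fun z => u (n : ℝ) z) := by
    filter_upwards [eventually_gt_atTop 0] with n hn
    exact ((D.min n (by exact_mod_cast hn)).2.2).continuous
  exact hloc.continuous hev.frequently

theorem Data.P_zero {S : Sys} {u : ℝ → ℂ → ℂ} {γ : ℕ → ℝ} {P : ℂ → ℂ} (D : Data S u γ P) : P 0 = 1 := by
  refine tendsto_nhds_unique (D.prod 0) ?_
  refine tendsto_const_nhds.congr fun N => ?_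
  simp [PP]

theorem W_eq_two {S : Sys} {u : ℝ → ℂ → ℂ} {γ : ℕ → ℝ} {P : ℂ → ℂ} (D : Data S u γ P) {a : ℝ} (ha : 0 < a)
    {g : ℝ → ℝ} (hg : TR a g) : W g = 2 * Q S (Ct (co g)) := D.form a g ha hg

/-- (1) all test functions -/
theorem all_test (hRH : RiemannHypothesis) {S : Sys} {u : ℝ → ℂ → ℂ} {γ : ℕ → ℝ} {P : ℂ → ℂ}
    (D : Data S u γ P) (R ε : ℝ) (hε : 0 < ε) : ∀ᶠ a in atTop, ∀ g : ℝ → ℝ, TR a g → ∀ z : ℂ, ‖z‖ ≤ R →
    qW a * ‖Ct (co g) z - ((∫ x : ℝ, g x : ℝ) : ℂ) * P z‖ ^ 2 ≤ ε * W g := by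
  obtain ⟨a₀, ha₀, h⟩ := D.kk hRH R ε hε
  filter_upwards [eventually_ge_atTop a₀] with a ha g hg z hz
  have h0 : 0 < a := ha₀.trans_le ha
  have h1 := h a ha (co g) hg.tc z hz
  rw [Ct_zero] at h1
  rw [qW_eq h0 D.form, W_eq_two D h0 hg]
  linarith

/-- (2) ground states normalised in the mean square -/
theorem ground_L2 (hRH : RiemannHypothesis) {S : Sys} {u : ℝ → ℂ → ℂ} {γ : ℕ → ℝ} {P : ℂ → ℂ}
    (D : Data S u γ P) (C R ε : ℝ) (hε : 0 < ε) : ∀ᶠ a in atTop, ∀ g : ℝ → ℝ, TR a g →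
    (∀ h : ℝ → ℝ, TR a h → W g * ∫ x : ℝ, h x ^ 2 ≤ C * W h * ∫ x : ℝ, g x ^ 2) →
    ∀ z : ℂ, ‖z‖ ≤ R → ‖Ct (co g) z - ((∫ x : ℝ, g x : ℝ) : ℂ) * P z‖ ^ 2 ≤ ε * ∫ x : ℝ, g x ^ 2 := by
  obtain ⟨a₀, ha₀, h⟩ := f_LL S P D.P_cont D.P_zero (fun a ha => (D.min a ha).2.1) (D.kk hRH) C R ε hε
  filter_upwards [eventually_ge_atTop a₀] with a ha g hg hm z hz
  have h0 : 0 < a := ha₀.trans_le ha
  rw [← Ct_zero]
  refine h a ha g hg (fun k hk => ?_) z hz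
  have := hm k hk
  rw [W_eq_two D h0 hg, W_eq_two D h0 hk] at this
  nlinarith

/-- (3) ground states normalised by a measure on the frequency side -/
theorem ground_measure (hRH : RiemannHypothesis) {S : Sys} {u : ℝ → ℂ → ℂ} {γ : ℕ → ℝ} {P : ℂ → ℂ}
    (D : Data S u γ P) (ν : Measure ℂ) (r : ℝ) (hν : IsFiniteMeasure ν)
    (hr : ν (Metric.closedBall 0 r)ᶜ = 0) (hp : 0 < ∫ z, ‖P z‖ ^ 2 ∂ν) (C R ε : ℝ) (hε : 0 < ε) :
    ∀ᶠ a in atTop, ∀ g : ℝ → ℝ, TR a g →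
    (∀ h : ℝ → ℝ, TR a h → W g * ∫ z, ‖Ct (co h) z‖ ^ 2 ∂ν ≤ C * W h * ∫ z, ‖Ct (co g) z‖ ^ 2 ∂ν) →
    ∀ z : ℂ, ‖z‖ ≤ R → ‖Ct (co g) z - ((∫ x : ℝ, g x : ℝ) : ℂ) * P z‖ ≤ ε * |∫ x : ℝ, g x| := by
  obtain ⟨a₀, ha₀, h⟩ := f_LN S P D.P_cont D.P_zero (fun a ha => (D.min a ha).2.1) (D.kk hRH) ν r hν hr hp
    C R ε hε
  filter_upwards [eventually_ge_atTop a₀] with a ha g hg hm z hz
  have h0 : 0 < a := ha₀.trans_le ha
  have e : |∫ x : ℝ, g x| = ‖Ct (co g) 0‖ := by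
    rw [Ct_zero, Complex.norm_real, Real.norm_eq_abs]
  rw [e, ← Ct_zero]
  refine h a ha g hg (fun k hk => ?_) z hz
  have := hm k hk
  rw [W_eq_two D h0 hg, W_eq_two D h0 hk] at this
  nlinarith

/-- (4) multiple zeros lower the energy -/
theorem energy_le (hRH : RiemannHypothesis) (ε : ℝ) (hε : 0 < ε) : ∀ᶠ a in atTop, ∀ F : Finset ℝ,
    (∀ t ∈ F, t ∈ Ord ∧ t ≤ 2 * Real.pi * Real.exp (2 * a)) →
    qW a ≤ Real.exp (-(2 * Real.pi - ε) * Real.exp (2 * a)) *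
      ∏ t ∈ F, (t / (2 * Real.pi * Real.exp (2 * a))) ^ (4 * (mz (1 / 2 + t * I) - 1)) := by
  obtain ⟨S, u, γ, P, D⟩ := data hRH
  obtain ⟨a₀, ha₀, h⟩ := f_QD hRH ε hε
  filter_upwards [eventually_ge_atTop a₀] with a ha F hF
  obtain ⟨k, hk, hW⟩ := h a ha F hF
  exact (qW_le (ha₀.trans_le ha) D.form hk).trans hW

/-- (5) the energy bounds the number of missing zeros -/
theorem excess_le (hRH : RiemannHypothesis) : ∀ᶠ a in atTop, ∀ F : Finset ℝ,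
    (∀ t ∈ F, t ∈ Ord ∧ t ≤ Real.pi * Real.exp (2 * a)) →
    4 * Real.log 2 * ((∑ t ∈ F, (mz (1 / 2 + t * I) - 1) : ℕ) : ℝ) ≤ Real.log (1 / qW a) := by
  obtain ⟨S, u, γ, P, D⟩ := data hRH
  filter_upwards [energy_le hRH 1 one_pos, eventually_gt_atTop (0:ℝ)] with a ha h0 F hF
  have hq : 0 < qW a := by
    rw [qW_eq h0 D.form]
    have := (D.min a h0).2.1
    linarith
  have hE : 0 < Real.exp (2 * a) := Real.exp_pos _
  have hpi := Real.pi_gt_three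
  have h1 := ha F (fun t ht => ⟨(hF t ht).1, (hF t ht).2.trans (by nlinarith)⟩)
  have h2 : ∏ t ∈ F, (t / (2 * Real.pi * Real.exp (2 * a))) ^ (4 * (mz (1 / 2 + t * I) - 1)) ≤
      ∏ t ∈ F, (1 / 2 : ℝ) ^ (4 * (mz (1 / 2 + t * I) - 1)) := by
    refine Finset.prod_le_prod (fun t ht => ?_) (fun t ht => ?_)
    · have := (hF t ht).1.1
      positivity
    · refine pow_le_pow_left₀ ?_ ?_ _
      · have := (hF t ht).1.1
        positivity
      · rw [div_le_div_iff₀ (by positivity) two_pos]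
        have := (hF t ht).2
        nlinarith
  have h3 : qW a ≤ (1 / 2 : ℝ) ^ (4 * ∑ t ∈ F, (mz (1 / 2 + t * I) - 1)) := by
    have e : ∏ t ∈ F, (1 / 2 : ℝ) ^ (4 * (mz (1 / 2 + t * I) - 1)) =
        (1 / 2 : ℝ) ^ (4 * ∑ t ∈ F, (mz (1 / 2 + t * I) - 1)) := by
      rw [Finset.prod_pow_eq_pow_sum, Finset.mul_sum]
    rw [← e]
    refine h1.trans ?_
    have h4 : Real.exp (-(2 * Real.pi - 1) * Real.exp (2 * a)) ≤ 1 := by
      rw [Real.exp_le_one_iff]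
      nlinarith
    have h5 : 0 ≤ ∏ t ∈ F, (t / (2 * Real.pi * Real.exp (2 * a))) ^ (4 * (mz (1 / 2 + t * I) - 1)) := by
      refine Finset.prod_nonneg fun t ht => ?_
      have := (hF t ht).1.1
      positivity
    calc _ ≤ 1 * ∏ t ∈ F, (t / (2 * Real.pi * Real.exp (2 * a))) ^ (4 * (mz (1 / 2 + t * I) - 1)) :=
          mul_le_mul_of_nonneg_right h4 h5
      _ ≤ _ := by rw [one_mul]; exact h2
  have h6 := Real.log_le_log hq h3
  have hl : Real.log (1 / 2 : ℝ) = -Real.log 2 := by rw [one_div, Real.log_inv]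
  have hl2 : Real.log (1 / qW a) = -Real.log (qW a) := by rw [one_div, Real.log_inv]
  rw [Real.log_pow, hl] at h6
  rw [hl2]
  rw [Nat.cast_mul] at h6
  push_cast at h6 ⊢
  linarith

end

end Pool.Agent.H478.WM
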