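import Pool.Agent.H478.WM.Stm

/-!
# Project WM: existence of a minimising sequence with a limit
-/

open Complex MeasureTheory Filter Topology Set
open scoped ContDiff

namespace Pool.Agent.H478.WM

namespace MINA

theorem toTC {a : ℝ} {g : ℝ → ℝ} (h : TR a g) : TC a (co g) where
  smooth := Complex.ofRealCLM.contDiff.comp h.smooth
  even := fun x => by
    unfold co
    rw [h.even]
  supp := fun x hx => by
    unfold co
    rw [h.supp x hx, Complex.ofReal_zero]

theorem intble {a : ℝ} {g : ℝ → ℂ} (h : TC a g) (z : ℂ) :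
    Integrable fun x : ℝ => g x * Complex.cos (z * x) := by
  have hc : Continuous fun x : ℝ => g x * Complex.cos (z * x) :=
    h.smooth.continuous.mul (Complex.continuous_cos.comp (continuous_const.mul Complex.continuous_ofReal))
  refine hc.integrable_of_hasCompactSupport ?_
  refine HasCompactSupport.intro (isCompact_Icc (a := -a) (b := a)) fun x hx => ?_
  have h1 : a < |x| := by
    by_contra hcon
    exact hx (abs_le.1 (not_lt.1 hcon))
  rw [h.supp x h1, zero_mul]

/-- the set of the test functions is not empty -/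
theorem exists_adm {a : ℝ} (ha : 0 < a) : ∃ g, Adm a g := by
  let f : ContDiffBump (0 : ℝ) := ⟨a / 2, a, by linarith, by linarith⟩
  refine ⟨f.normed volume, ⟨f.contDiff_normed, fun x => f.normed_neg x, fun x hx => ?_⟩,
    f.integral_normed⟩
  by_contra hne
  have h1 : x ∈ Function.support (f.normed volume) := hne
  rw [f.support_normed_eq] at h1
  have h2 : dist x 0 < a := h1
  rw [Real.dist_eq, sub_zero] at h2
  exact lt_asymm hx h2

theorem adm_mid {a : ℝ} {g h : ℝ → ℝ} (hg : Adm a g) (hh : Adm a h) :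
    Adm a fun x => (g x + h x) / 2 := by
  refine ⟨⟨?_, fun x => ?_, fun x hx => ?_⟩, ?_⟩
  · exact (hg.1.smooth.add hh.1.smooth).div_const 2
  · show (g (-x) + h (-x)) / 2 = (g x + h x) / 2
    rw [hg.1.even, hh.1.even]
  · show (g x + h x) / 2 = 0
    rw [hg.1.supp x hx, hh.1.supp x hx]
    norm_num
  · have i1 : Integrable g := by
      by_contra hcon
      have h1 := hg.2
      rw [integral_undef hcon] at h1
      norm_num at h1
    have i2 : Integrable h := by
      by_contra hcon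
      have h1 := hh.2
      rw [integral_undef hcon] at h1
      norm_num at h1
    have h3 : ∫ x : ℝ, (g x + h x) / 2 = (∫ x : ℝ, (g x + h x)) / 2 := integral_div 2 _
    rw [h3, integral_add i1 i2, hg.2, hh.2]
    norm_num

theorem Ct_mid {a : ℝ} {g h : ℝ → ℝ} (hg : Adm a g) (hh : Adm a h) (z : ℂ) :
    2 * Ct (co fun x => (g x + h x) / 2) z = Ct (co g) z + Ct (co h) z := by
  unfold Ct
  rw [← integral_add (intble (toTC hg.1) z) (intble (toTC hh.1) z), ← integral_const_mul]
  refine integral_congr_ae (Filter.Eventually.of_forall fun x => ?_)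
  simp only [co]
  push_cast
  ring

theorem m_nonneg (S : Sys) (t : S.G) : 0 ≤ S.m t := zero_le_one.trans (S.one_le t t.2)

theorem Q_nonneg (S : Sys) (u : ℂ → ℂ) : 0 ≤ Q S u :=
  tsum_nonneg fun t => mul_nonneg (m_nonneg S t) (by positivity)

theorem Q_two (S : Sys) (u : ℂ → ℂ) : Q S (fun z => 2 * u z) = 4 * Q S u := by
  unfold Q
  rw [← tsum_mul_left]
  refine tsum_congr fun t => ?_
  rw [norm_mul, Complex.norm_ofNat]
  ring

end MINA

open MINA in
/-- **MINA.** Existence of a minimising sequence with a limit. -/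
theorem t_MINA (_h1 : S_TCB) (h2 : S_SUM) (h3 : S_L2A) (h4 : S_CAU) : S_MINA := by
  intro S a ha
  have hbdd : BddBelow {r : ℝ | ∃ g : ℝ → ℝ, Adm a g ∧ r = Q S (Ct (co g))} := by
    refine ⟨0, ?_⟩
    rintro r ⟨g, _, rfl⟩
    exact Q_nonneg S _
  have hne : {r : ℝ | ∃ g : ℝ → ℝ, Adm a g ∧ r = Q S (Ct (co g))}.Nonempty := by
    obtain ⟨g, hg⟩ := exists_adm ha
    exact ⟨_, g, hg, rfl⟩
  have hle : ∀ g, Adm a g → qS S a ≤ Q S (Ct (co g)) := fun g hg => csInf_le hbdd ⟨g, hg, rfl⟩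
  have hex : ∀ n : ℕ, ∃ g : ℝ → ℝ, Adm a g ∧ Q S (Ct (co g)) < qS S a + 1 / ((n : ℝ) + 1) := by
    intro n
    have hpos : (0 : ℝ) < 1 / ((n : ℝ) + 1) := by positivity
    obtain ⟨r, ⟨g, hg, hr⟩, hlt⟩ := exists_lt_of_csInf_lt hne (lt_add_of_pos_right (qS S a) hpos)
    exact ⟨g, hg, hr ▸ hlt⟩
  choose g hg hgQ using hex
  have hL : ∀ n, L2 S (Ct (co (g n))) := fun n => h2 S a _ ha (toTC (hg n).1)
  have hdiff : ∀ m n : ℕ, Q S (fun z => Ct (co (g m)) z - Ct (co (g n)) z) ≤
      2 / ((m : ℝ) + 1) + 2 / ((n : ℝ) + 1) := by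
    intro m n
    obtain ⟨-, -, -, -, hpar, -⟩ := h3 S (Ct (co (g m))) (Ct (co (g n))) (Ct (co (g n))) 1 1 (hL m)
      (hL n) (hL n)
    have hmid : Q S (fun z => Ct (co (g m)) z + Ct (co (g n)) z) =
        4 * Q S (Ct (co fun x => (g m x + g n x) / 2)) := by
      rw [← Q_two]
      congr 1
      funext z
      exact (Ct_mid (hg m) (hg n) z).symm
    have h5 := hle _ (adm_mid (hg m) (hg n))
    have h6 := hgQ m
    have h7 := hgQ n
    have e1 : 2 / ((m : ℝ) + 1) = 2 * (1 / ((m : ℝ) + 1)) := by ring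
    have e2 : 2 / ((n : ℝ) + 1) = 2 * (1 / ((n : ℝ) + 1)) := by ring
    rw [e1, e2]
    rw [hmid] at hpar
    linarith
  obtain ⟨u, hu⟩ := h4 S a (fun n => co (g n)) ha (fun n => toTC (hg n).1) (by
    intro ε hε
    obtain ⟨N, hN⟩ := exists_nat_gt (4 / ε)
    refine ⟨N, fun m n hm hn => (hdiff m n).trans ?_⟩
    have hN0 : 0 < (N : ℝ) := lt_trans (by positivity) hN
    have hNe : 4 / (N : ℝ) ≤ ε := by
      rw [div_lt_iff₀ hε] at hN
      rw [div_le_iff₀ hN0]
      linarith
    have hm' : (N : ℝ) ≤ (m : ℝ) + 1 := by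
      have : (N : ℝ) ≤ m := by exact_mod_cast hm
      linarith
    have hn' : (N : ℝ) ≤ (n : ℝ) + 1 := by
      have : (N : ℝ) ≤ n := by exact_mod_cast hn
      linarith
    have e1 : 2 / ((m : ℝ) + 1) ≤ 2 / N := div_le_div_of_nonneg_left (by norm_num) hN0 hm'
    have e2 : 2 / ((n : ℝ) + 1) ≤ 2 / N := div_le_div_of_nonneg_left (by norm_num) hN0 hn'
    have e3 : 2 / (N : ℝ) + 2 / N = 4 / N := by ring
    linarith)
  refine ⟨g, u, hg, ?_, hu⟩
  refine tendsto_of_tendsto_of_tendsto_of_le_of_le (tendsto_const_nhds (x := qS S a))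
    (h := fun n : ℕ => qS S a + 1 / ((n : ℝ) + 1)) ?_ (fun n => hle _ (hg n)) fun n => (hgQ n).le
  have h8 := (tendsto_one_div_add_atTop_nhds_zero_nat (𝕜 := ℝ)).const_add (qS S a)
  rwa [add_zero] at h8

end Pool.Agent.H478.WM
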