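import Pool.Agent.H478.WM.Stm

/-!
# Project WM: the rate of convergence of the zeros (helper740)
-/

open Complex MeasureTheory Filter Topology Set
open scoped ContDiff

namespace Pool.Agent.H478.WM

namespace RTx

/-- one zero at a real point between two consecutive nodes -/
lemma one_zero (h2 : S_HE) (h3 : S_ORT1) {S : Sys} {a g g' b x : ℝ} {u : ℂ → ℂ}
    (ha : 0 < a) (hu : IsMin S a u) (hg : g ∈ S.G) (hg' : 0 < g')
    (hgap : ∀ t ∈ S.G, g < t → g' ≤ t) (hgx : g < x) (hxb : x ≤ b) (hbg : b < g')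
    (hx : u (x : ℂ) = 0) :
    g ^ 2 * ‖u (g : ℂ)‖ ^ 2 ≤ g' ^ 2 / (g' ^ 2 - b ^ 2) * qS S a * (x ^ 2 - g ^ 2) := by
  have hg0 := S.pos g hg
  have hx0 : 0 < x := hg0.trans hgx
  have hb0 : 0 < b := by linarith
  set K : ℝ := g' ^ 2 / (g' ^ 2 - b ^ 2) with hK
  have hgb : 0 < g' ^ 2 - b ^ 2 := by nlinarith
  have hK0 : 0 < K := by
    rw [hK]
    positivity
  -- real values
  have hre : ∀ t : ℝ, u (t : ℂ) = ((u (t : ℂ)).re : ℂ) := fun t => by
    apply Complex.ext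
    · simp
    · simp [hu.real t]
  have hnorm : ∀ t : ℝ, ‖u (t : ℂ)‖ ^ 2 = (u (t : ℂ)).re ^ 2 := fun t => by
    have h0 := hre t
    rw [h0, Complex.norm_real, Real.norm_eq_abs, sq_abs]
    simp
  obtain ⟨o1, o2⟩ := h3 S a u (x : ℂ) ha hu hx
  set T : S.G → ℝ := fun t => S.m t * ((t : ℝ) ^ 2 * (u ((t : ℝ) : ℂ)).re ^ 2 / ((t : ℝ) ^ 2 - x ^ 2))
    with hT
  have hTe : ∀ t : S.G, (S.m t : ℂ) * (((t : ℝ) : ℂ) ^ 2 * (u ((t : ℝ) : ℂ)) ^ 2 /
      (((t : ℝ) : ℂ) ^ 2 - (x : ℂ) ^ 2)) = (T t : ℂ) := by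
    intro t
    rw [hT]
    simp only
    rw [hre t]
    push_cast
    simp
  simp_rw [hTe] at o1 o2
  have s1 : Summable T := by
    have := Complex.summable_ofReal.mp o1
    exact this
  have s1' : ∑' t, T t = 0 := by
    have h0 : ((∑' t : S.G, T t : ℝ) : ℂ) = ∑' t : S.G, (T t : ℂ) := Complex.ofReal_tsum T
    rw [o2] at h0
    exact_mod_cast h0
  -- square summability
  obtain ⟨-, -, hL2, -⟩ := h2 S a u ha hu.mem
  have s2 : Summable (fun t : S.G => S.m t * ‖u ((t : ℝ) : ℂ)‖ ^ 2) := hL2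
  have s2' : ∑' t : S.G, S.m t * ‖u ((t : ℝ) : ℂ)‖ ^ 2 = qS S a := hu.energy
  have s3 : Summable (fun t : S.G => K * (S.m t * ‖u ((t : ℝ) : ℂ)‖ ^ 2) - T t) :=
    (s2.mul_left K).sub s1
  have s3' : ∑' t : S.G, (K * (S.m t * ‖u ((t : ℝ) : ℂ)‖ ^ 2) - T t) = K * qS S a := by
    rw [(s2.mul_left K).tsum_sub s1, tsum_mul_left, s2', s1', sub_zero]
  have hnn : ∀ t : S.G, 0 ≤ K * (S.m t * ‖u ((t : ℝ) : ℂ)‖ ^ 2) - T t := by
    intro t
    have ht0 := S.pos t t.2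
    have hm := S.one_le t t.2
    have hm0 : 0 < S.m t := by linarith
    rw [hnorm]
    rcases lt_trichotomy (t : ℝ) x with h | h | h
    · have h4 : T t ≤ 0 := by
        rw [hT]
        simp only
        apply mul_nonpos_of_nonneg_of_nonpos hm0.le
        apply div_nonpos_of_nonneg_of_nonpos (by positivity)
        nlinarith
      have h5 : 0 ≤ K * (S.m t * (u ((t : ℝ) : ℂ)).re ^ 2) := by positivity
      linarith
    · have h4 : T t = 0 := by
        rw [hT]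
        simp only
        rw [h]
        simp
      rw [h4, sub_zero]
      positivity
    · have h6 : g' ≤ t := hgap t t.2 (hgx.trans h)
      have h7 : 0 < (t : ℝ) ^ 2 - x ^ 2 := by nlinarith
      have h8 : (t : ℝ) ^ 2 / ((t : ℝ) ^ 2 - x ^ 2) ≤ K := by
        rw [hK, div_le_div_iff₀ h7 hgb]
        have h9 : x ^ 2 ≤ b ^ 2 := by nlinarith
        have h10 : g' ^ 2 ≤ (t : ℝ) ^ 2 := by nlinarith
        nlinarith [sq_nonneg (t : ℝ), sq_nonneg b, sq_nonneg x, sq_nonneg g']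
      have h11 : T t = S.m t * (u ((t : ℝ) : ℂ)).re ^ 2 * ((t : ℝ) ^ 2 / ((t : ℝ) ^ 2 - x ^ 2)) := by
        rw [hT]
        simp only
        ring
      rw [h11]
      have h12 := mul_le_mul_of_nonneg_left h8
        (show 0 ≤ S.m t * (u ((t : ℝ) : ℂ)).re ^ 2 by positivity)
      linarith
  have h4 := s3.le_tsum ⟨g, hg⟩ (fun t _ => hnn t)
  rw [s3'] at h4
  have hxg : 0 < x ^ 2 - g ^ 2 := by nlinarith
  have h5 : g ^ 2 * ‖u (g : ℂ)‖ ^ 2 / (x ^ 2 - g ^ 2) ≤ K * qS S a := by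
    refine le_trans ?_ h4
    rw [hnorm, hT]
    simp only
    have hm := S.one_le g hg
    have h6 : S.m g * (g ^ 2 * (u (g : ℂ)).re ^ 2 / (g ^ 2 - x ^ 2)) =
        -(S.m g * (g ^ 2 * (u (g : ℂ)).re ^ 2 / (x ^ 2 - g ^ 2))) := by
      rw [← neg_sub (x ^ 2) (g ^ 2), div_neg, mul_neg]
    rw [h6]
    have h7 : 0 ≤ g ^ 2 * (u (g : ℂ)).re ^ 2 / (x ^ 2 - g ^ 2) := by positivity
    have h8 : 0 ≤ K * (S.m g * (u (g : ℂ)).re ^ 2) := by positivity
    nlinarith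
  rwa [div_le_iff₀ hxg] at h5

end RTx

open RTx in
theorem t_RT (_h1 : S_L2A) (h2 : S_HE) (h3 : S_ORT1) (h4 : S_LB) : S_RT := by
  intro S γ v u hmono hrange hsum hmin hv hPP hlim j
  have hmem : ∀ n, γ n ∈ S.G := fun n => by
    rw [← hrange]
    exact Set.mem_range_self n
  have hpos : ∀ n, 0 < γ n := fun n => S.pos _ (hmem n)
  set g := γ j with hg
  set g' := γ (j + 1) with hg'
  have hgg' : g < g' := hmono (Nat.lt_succ_self j)
  have hg0 : 0 < g := hpos j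
  set b := (g + g') / 2 with hb
  have hgb : g < b := by rw [hb]; linarith
  have hbg' : b < g' := by rw [hb]; linarith
  have hb0 : 0 < b := hg0.trans hgb
  obtain ⟨c, hc, hLB⟩ := h4 γ v u j hmono hpos hsum hv hPP (fun i _ => hlim i)
  have hgap : ∀ t ∈ S.G, g < t → g' ≤ t := by
    intro t ht hgt
    rw [← hrange] at ht
    obtain ⟨n, rfl⟩ := ht
    have hn : j < n := hmono.lt_iff_lt.1 hgt
    exact hmono.monotone hn
  set K : ℝ := g' ^ 2 / (g' ^ 2 - b ^ 2) with hK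
  have hev : ∀ᶠ a in atTop, 1 / b ^ 2 < v a j := by
    have h5 : 1 / b ^ 2 < 1 / γ j ^ 2 := by
      rw [← hg]
      apply one_div_lt_one_div_of_lt (by positivity)
      nlinarith
    exact (hlim j).eventually (lt_mem_nhds h5)
  refine ⟨K * b ^ 4 / (2 * g ^ 3 * c ^ 2), ?_⟩
  filter_upwards [hev, hLB, eventually_gt_atTop (0 : ℝ)] with a ha1 ha2 ha
  have hv0 : 0 < v a j := lt_trans (by positivity) ha1
  obtain ⟨-, hv1⟩ := hv a ha j
  rw [← hg] at hv1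
  have hsq : 0 < √(v a j) := Real.sqrt_pos.2 hv0
  obtain ⟨x, hx⟩ : ∃ x : ℝ, x = 1 / √(v a j) := ⟨_, rfl⟩
  have hx0 : 0 < x := by rw [hx]; positivity
  have hx2 : x ^ 2 = 1 / v a j := by
    rw [hx, div_pow, one_pow, Real.sq_sqrt hv0.le]
  have hvx : v a j * x ^ 2 = 1 := by
    rw [hx2]
    field_simp
  have hgx : g < x := by
    have h5 : g ^ 2 < x ^ 2 := by
      rw [hx2, lt_div_iff₀ hv0]
      linarith
    exact lt_of_pow_lt_pow_left₀ 2 hx0.le h5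
  have hxb : x ≤ b := by
    have h5 : x ^ 2 ≤ b ^ 2 := by
      rw [hx2, div_le_iff₀ hv0]
      rw [div_lt_iff₀ (by positivity)] at ha1
      linarith
    exact le_of_sq_le_sq h5 hb0.le
  have hux : u a (x : ℂ) = 0 := by
    have h5 := hPP a ha (x : ℂ)
    have h6 : Tendsto (fun N => PP (v a) N (x : ℂ)) atTop (𝓝 0) := by
      refine tendsto_const_nhds.congr' ?_
      filter_upwards [eventually_gt_atTop j] with N hN
      unfold PP
      symm
      apply Finset.prod_eq_zero (Finset.mem_range.2 hN)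
      have : (v a j : ℂ) * (x : ℂ) ^ 2 = 1 := by exact_mod_cast hvx
      rw [this, sub_self]
    exact tendsto_nhds_unique h5 h6
  refine ⟨x, hgx, ?_, hux⟩
  have h5 := one_zero h2 h3 ha (hmin a ha) (hmem j) (hpos (j + 1)) hgap hgx hxb hbg' hux
  rw [← hK] at h5
  have h6 : 1 - v a j * γ j ^ 2 = (x ^ 2 - g ^ 2) / x ^ 2 := by
    rw [hx2, ← hg]
    field_simp
  rw [h6] at ha2
  have hxg : 0 < x ^ 2 - g ^ 2 := by nlinarith
  have h7 : (c * ((x ^ 2 - g ^ 2) / x ^ 2)) ^ 2 ≤ ‖u a (g : ℂ)‖ ^ 2 :=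
    pow_le_pow_left₀ (by positivity) ha2 2
  have h8 : g ^ 2 * (c * ((x ^ 2 - g ^ 2) / x ^ 2)) ^ 2 ≤ K * qS S a * (x ^ 2 - g ^ 2) :=
    (mul_le_mul_of_nonneg_left h7 (by positivity)).trans h5
  have h9 : g ^ 2 * c ^ 2 * (x ^ 2 - g ^ 2) ≤ K * qS S a * x ^ 4 := by
    have e : g ^ 2 * (c * ((x ^ 2 - g ^ 2) / x ^ 2)) ^ 2 =
        (g ^ 2 * c ^ 2 * (x ^ 2 - g ^ 2) / x ^ 4) * (x ^ 2 - g ^ 2) := by
      field_simp
    rw [e] at h8
    have h10 := le_of_mul_le_mul_right h8 hxg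
    rwa [div_le_iff₀ (by positivity)] at h10
  have hq : 0 ≤ K * qS S a := by
    have h10 : 0 ≤ K * qS S a * x ^ 4 := le_trans (by positivity) h9
    have hx4 : 0 < x ^ 4 := by positivity
    exact nonneg_of_mul_nonneg_left h10 hx4
  have h11 : K * qS S a * x ^ 4 ≤ K * qS S a * b ^ 4 :=
    mul_le_mul_of_nonneg_left (pow_le_pow_left₀ hx0.le hxb 4) hq
  have h12 : 2 * g * (x - g) ≤ x ^ 2 - g ^ 2 := by nlinarith [sq_nonneg (x - g)]
  have h13 : g ^ 2 * c ^ 2 * (2 * g * (x - g)) ≤ K * qS S a * b ^ 4 :=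
    (mul_le_mul_of_nonneg_left h12 (by positivity)).trans (h9.trans h11)
  have h14 : x - g ≤ K * b ^ 4 / (2 * g ^ 3 * c ^ 2) * qS S a := by
    rw [div_mul_eq_mul_div, le_div_iff₀ (by positivity)]
    linarith
  linarith

end Pool.Agent.H478.WM
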