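import Pool.Agent.H478.WM.Stm

/-!
# Project WM, second part: sharper trial functions (exponent `4 π` instead of `2 π`)
-/

open Complex MeasureTheory Filter Topology Set
open scoped ContDiff

namespace Pool.Agent.H478.WM

noncomputable section

/-- **CHP.** The Chebyshev polynomial of a dilated argument has nonnegative Chebyshev coefficients.
Proof. Strong induction on `N`, for all `s ≥ 1` simultaneously. `N = 0, 1` clear. In general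
`T_N(s x) = T_N(x) + ∫_1^s x T_N'(r x) dr = T_N(x) + N ∫_1^s x U_(N-1)(r x) dr` and
`U_(N-1) = 2 ∑ T_j` over `0 < j ≤ N-1`, `j ≡ N-1 mod 2` (plus `T_0` if `N - 1` is even), so by induction `U_(N-1)(r x)` is a combination of
`T_k(x)`, `k < N`, with nonnegative coefficients depending continuously on `r` (polynomials in `r`); and `x T_k = (T_(k+1) + T_|k-1|)/2`. Integrate the coefficients.
(To avoid continuity questions one may argue with the explicit coefficient functions: prove that there are polynomials `a_(N,k)(r)` with `T_N(r x) = ∑ a_(N,k)(r) T_k(x)` and that all of them are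
nonnegative for `r ≥ 1` because their derivatives are; or show by induction on `N` that the polynomial `a_(N,k)(1 + δ)` in `δ` has nonnegative coefficients: `d/dδ` of it is a nonnegative combination.) -/
def S_CHP : Prop := ∀ (N : ℕ) (s : ℝ), 1 ≤ s → ∃ c : ℕ → ℝ, (∀ k, 0 ≤ c k) ∧
  ∀ x : ℝ, (Polynomial.Chebyshev.T ℝ (N : ℤ)).eval (s * x) =
    ∑ k ∈ Finset.range (N + 1), c k * (Polynomial.Chebyshev.T ℝ (k : ℤ)).eval x

/-- **CHB.** Bounds. `|T_N(y)| ≤ 1` for `|y| ≤ 1` and `T_N(cosh t) = cosh (N t)`, `|T_N(y)| ≤ cosh (N t)` for `|y| ≤ cosh t`; `cos t cosh t ≤ 1` on `[0, π/2]`.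
Proof. Mathlib (`Polynomial.Chebyshev`, real cosine and hyperbolic cosine), the last one: the derivative of `cos t cosh t` is `cos t sinh t - sin t cosh t ≤ 0` since `tanh t ≤ t ≤ tan t`. -/
def S_CHB : Prop := (∀ (N : ℕ) (y : ℝ), |y| ≤ 1 → |(Polynomial.Chebyshev.T ℝ (N : ℤ)).eval y| ≤ 1) ∧
  (∀ (N : ℕ) (t : ℝ), (Polynomial.Chebyshev.T ℝ (N : ℤ)).eval (Real.cosh t) = Real.cosh (N * t)) ∧
  (∀ (N : ℕ) (t y : ℝ), |y| ≤ Real.cosh t → |(Polynomial.Chebyshev.T ℝ (N : ℤ)).eval y| ≤ Real.cosh (N * t)) ∧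
  (∀ t : ℝ, 0 ≤ t → t ≤ Real.pi / 2 → Real.cos t * Real.cosh t ≤ 1)

/-- **WIN.** A nonnegative window on `[-l, l]` whose Fourier transform is bounded beyond `(1 - ε) l` although its integral is `exp ((1 - ε') 2 π l²)` (Dolph-Chebyshev window). uses S_CHP, S_CHB.
Proof. Let `L = l (1 - e)`, `e = ε/4`, `b x = b₀ (x / (e l))` with `b₀` smooth, even, nonnegative, supported in `[-1, 1]`, of integral one (`ContDiffBump`); `b̂ y = ∫ b x cos (2π x y) dx = e l b̂₀(e l y)`, and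
`|b̂₀ t| ≤ K / |t|^5`, `|b̂₀ t| ≤ K/|t|^4` (integrate by parts). Let `c = 2 π L l (1 - ε)`... any `c ≤ 2 π L (1 - ε) l`; take equality. For `N` large (depending on `l`) let `s = cosh (c/N)` and, by CHP,
`τ y = T_N(s cos (2 π L y / N)) = ∑_k c_k cos (k 2 π L y / N)`, `c_k ≥ 0`. Put `w x = ∑_k c_k (b (x - k L/N) + b (x + k L/N))/2`: smooth, even, nonnegative, zero for `|x| ≥ L + e l = l`, and `ŵ y = τ y b̂ y`.
`∫ w = τ 0 b̂ 0 = T_N(s) e l = cosh c · e l ≥ exp ((1 - 2 ε) 2 π l²)` for large `l` since `c = 2 π l² (1 - e)(1 - ε)`. For `y ≥ (1 - ε) l`: `θ = 2 π L y / N ≥ c / N`. If `θ ≤ π - c/N` then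
`|cos θ| ≤ cos (c/N) ≤ 1/cosh (c/N)`, so `|τ y| ≤ 1` and `|ŵ y| ≤ |b̂ y| ≤ e l K/(e l y)^4 ≤ C/y^4` (`l ≥ 1`). If `θ > π - c/N`: `|τ y| ≤ cosh c` (CHB), `|ŵ y| ≤ cosh c · e l K/(e l y)^5 ≤ (C/y^4) (cosh c)/y ≤ C/y^4`
as soon as `N` is so large that `y > (π N - c)/(2 π L) ≥ cosh c`. -/
def S_WIN : Prop := ∀ ε : ℝ, 0 < ε → ε < 1 / 4 → ∃ C l₀ : ℝ, 1 ≤ l₀ ∧ ∀ l : ℝ, l₀ ≤ l → ∃ w : ℝ → ℝ,
  ContDiff ℝ ∞ w ∧ (∀ x, w (-x) = w x) ∧ (∀ x, 0 ≤ w x) ∧ (∀ x, l < |x| → w x = 0) ∧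
  Real.exp ((1 - 2 * ε) * (2 * Real.pi * l ^ 2)) ≤ ∫ x : ℝ, w x ∧
  ∀ y : ℝ, (1 - ε) * l ≤ y → |∫ x : ℝ, w x * Real.cos (2 * Real.pi * x * y)| ≤ C / y ^ 4

/-- the theta type sum of `h`, in logarithmic variable: `g u = e^(u/2) ∑_{n ≥ 1} h (n e^u)` -/
def Th (h : ℝ → ℝ) (u : ℝ) : ℝ := Real.exp (u / 2) * ∑' n : ℕ, h (((n : ℝ) + 1) * Real.exp u)

/-- the Fourier cosine transform with the normalisation of Poisson summation -/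
def hc (h : ℝ → ℝ) (y : ℝ) : ℝ := ∫ x : ℝ, h x * Real.cos (2 * Real.pi * x * y)

/-- **POI.** Poisson summation.
Proof. `h` extends to a Schwartz function; `∑_{n ∈ ℤ} h (n x) = (1/x) ∑_{n ∈ ℤ} ĥ(n/x)`, both even, `h 0 = 0`, `ĥ 0 = ∫ h = 0` (Mathlib: `SchwartzMap.tsum_eq_tsum_fourier` or `Real.tsum_eq_tsum_fourier...`). With
`x = e^u`: `Th h u = e^(u/2) ∑_{n≥1} h(n e^u) = e^(-u/2) ∑_{n≥1} ĥ(n e^(-u)) = Th (hc h) (-u)`. Rapid decay of `ĥ`: integrate by parts. -/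
def S_POI : Prop := ∀ (l : ℝ) (h : ℝ → ℝ), ContDiff ℝ ∞ h → (∀ x, h (-x) = h x) → (∀ x, l < |x| → h x = 0) →
  h 0 = 0 → ∫ x : ℝ, h x = 0 →
  (∀ u : ℝ, Th h u = Th (hc h) (-u)) ∧ (∀ k : ℕ, ∃ C : ℝ, ∀ y : ℝ, 0 < y → |hc h y| ≤ C / y ^ k)

/-- **MEL.** The transform of `Th h` contains the factor `ζ(1/2 + i z)`. uses S_POI.
Proof. `Th h u = 0` for `e^u > l`, and `|Th h u| ≤ C_k e^(k u)` for `u ≤ 0` by POI; `Th h` is continuous (the sum is locally finite), so the integral converges for every `z` and is an entire function of `z`. Let `s = 1/2 + i z`. For `Re s > 1`: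
`∫ Th h u e^{i z u} du = ∫ e^{s u} ∑_n h(n e^u) du = ∑_n n^{-s} ∫ e^{s u} h(e^u) du = ζ(s) M(s)` (Fubini: `∑ n^{-Re s} < ∞`), `M(s) = ∫ h(e^u) e^{s u} du`, which converges for `Re s > -1` as `h x = O(x²)` at `0` (even, smooth, `h 0 = 0`), analytic there.
Both `(s-1) ∫ Th h u e^{i z u} du` and `(s-1) ζ(s) M(s)` are analytic for `Re s > 0` (the second one after removing the singularity of `(s-1)ζ(s)` at `s = 1`), hence equal there for `s ≠ 1`. -/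
def S_MEL : Prop := ∀ (l : ℝ) (h : ℝ → ℝ), ContDiff ℝ ∞ h → (∀ x, h (-x) = h x) → (∀ x, l < |x| → h x = 0) →
  h 0 = 0 → ∫ x : ℝ, h x = 0 →
  Continuous (Th h) ∧ ∀ z : ℂ, |z.im| < 1 / 2 → Integrable (fun u : ℝ => (Th h u : ℂ) * cexp (I * z * u)) ∧
    ∫ u : ℝ, (Th h u : ℂ) * cexp (I * z * u) =
      riemannZeta (1 / 2 + I * z) * ∫ u : ℝ, (h (Real.exp u) : ℂ) * cexp ((1 / 2 + I * z) * u)

/-- **TRJ.** Trial functions with exponent `2 π`. uses S_XI0, S_WIN, S_POI, S_MEL.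
Proof. Let `ε₁ > 0` be small in terms of `ε`, `a` large, `l = e^(a - ε₁)`, `w` from WIN (with `ε₁`), `μ = (1 - ε₁)^(-1/2) > 1`, `h x = w x - (1 + μ) w (μ x) + μ w (μ² x)`. Then `h` is smooth, even, `0` for `|x| > l`, `h 0 = 0`, `∫ h = (1 - (1+μ)/μ + 1/μ) ∫ w = 0`, and
`hc h y = hc w y - ((1+μ)/μ) hc w (y/μ) + (1/μ) hc w (y/μ²)`, so `|hc h y| ≤ C'/y^4` for `y ≥ l` (`y/μ² = (1-ε₁) y ≥ (1 - ε₁) l`), `C'` depends on `ε₁` only.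
`g = Th h`, `G u = g u + g (-u)`, even, real. For `u > log l`: `g u = 0` and `|g (-u)| = |Th (hc h) u| ≤ e^(u/2) ∑ C'/(n e^u)^4 ≤ 2 C' e^(-7u/2)`. Let `G₀ = G` on `[-log l, log l]` and `0` outside. If `Xi z = 0`, then `s = 1/2 + i z ∈ NTZ` (XI0), so `|Im z| < 1/2` and `ζ(s) = 0`, also `ζ(1/2 - i z) = 0`
(`Xi (-z) = 0`), and by MEL `∫ G u cos (z u) du = 0` (`cos (z u) = (e^{izu} + e^{-izu})/2`), hence `|∫ G₀ u cos (z u) du| = |∫_{|u| > log l} G cos (z u)| ≤ 2 ∫_{log l}^∞ 2 C' e^(-7u/2) e^(u/2) du ≤ C''`.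
At `z = 0`: `∫ G = 2 ζ(1/2) ∫ h(e^u) e^(u/2) du = 2 ζ(1/2) (1 - μ^(-1/2)) (1 - μ^(1/2)) ∫ w(e^u) e^(u/2) du` (substitute: `∫ w(μ e^u) e^(u/2) du = μ^(-1/2) ∫ w(e^u) e^(u/2) du`), and `∫ w(e^u) e^(u/2) du = ∫_0^∞ w x x^(-1/2) dx ≥ l^(-1/2) ∫_0^∞ w = l^(-1/2) (∫ w)/2`. `ζ(1/2) ≠ 0` because `Xi 0 ≠ 0`.
So `|∫ G₀| ≥ c₁ l^(-1/2) exp ((1 - 2ε₁) 2 π l²) - C''`, `c₁ = c₁(ε₁) > 0`. Finally `k = (G₀ * ρ)/(∫ G₀)` with `ρ` smooth, even, nonnegative, `∫ ρ = 1`, supported in `[-ε₁, ε₁]`: smooth, even, real, supported in `[-a, a]`, `∫ k = 1`, and `Ct k z = (∫ G₀ cos (z u)) (Ct ρ z)/∫ G₀` (both even), `|Ct ρ z| ≤ C₃/‖z‖²` for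
`|Im z| ≤ 1/2` (two integrations by parts). So `‖Ct k z‖ ≤ C₄ l^(1/2) exp (-(1 - 2ε₁) 2 π l²)/‖z‖² ≤ exp (-(2π - ε) e^(2a))/‖z‖²` for large `a`, as `l² = e^(2a - 2ε₁)`. -/
def S_TRJ : Prop := ∀ ε : ℝ, 0 < ε → ∃ a₀ : ℝ, 0 < a₀ ∧ ∀ a, a₀ ≤ a → ∃ k : ℝ → ℝ, Adm a k ∧
  ∀ z : ℂ, |z.im| ≤ 1 / 2 → z ≠ 0 → Xi z = 0 →
    ‖Ct (co k) z‖ ≤ Real.exp (-(2 * Real.pi - ε) * Real.exp (2 * a)) / ‖z‖ ^ 2

/-- **WL.** The energy of the trial functions. uses S_EXF, S_WTS, S_XI0, S_TRJ.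
Proof. As in WK (1) of the first part (module `Pool.Agent.H478.WM.WK`): `|W k| ≤ ∑_ρ mz ρ ‖Ct k z_ρ‖² ≤ exp (-2 (2π - ε/4) e^{2a}) ∑ mz/‖z_ρ‖⁴ ≤ exp (-(4π - ε) e^{2a})` for large `a`. -/
def S_WL : Prop := ∀ ε : ℝ, 0 < ε → ∃ a₀ : ℝ, 0 < a₀ ∧ ∀ a, a₀ ≤ a → ∃ k : ℝ → ℝ, Adm a k ∧
    W k ≤ Real.exp (-(4 * Real.pi - ε) * Real.exp (2 * a))

end

end Pool.Agent.H478.WM
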