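import Pool.Agent.H478.WM.Stm

/-!
# Project WM, third part: functions of nearly minimal energy, other normalisations, multiple zeros
-/

open Complex MeasureTheory Filter Topology Set
open scoped ContDiff

namespace Pool.Agent.H478.WM

noncomputable section

/-! ## Part A. Concentration of all functions of energy `O(q)` -/

/-- **MID.** The interpolation identity. uses S_L2A, S_HE, S_LIN, S_EX.
Proof. `v z := f z * u w - u z * f w` is in the closure (LIN, `hu.mem`) and `v w = 0`, `w ≠ 0`, so EX gives `k` in the closure with `(z² - w²) k z = v z`.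
`v₂ z := z² k z = v z + w² k z` is in the closure (LIN) and `v₂ 0 = 0`, so `hu.el` gives `Bf S u v₂ = 0`. At a node `t`, `v₂ t = t² v t / (t² - w²)`, hence
`∑ m t * t² u t (f t u w - u t f w) / (t² - w²) = 0`; split the sum. Summability: `‖t² / (t² - w²)‖` is bounded over the nodes (for `t² ≥ 2 ‖w‖²` it is `≤ 2`; the other nodes are
finitely many because of `S.summ` and `S.one_le`), and `∑ m t ‖u t‖ ‖f t‖ < ∞` (L2A, HE: both in `L2`). -/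
def S_MID : Prop := ∀ (S : Sys) (a : ℝ) (u f : ℂ → ℂ) (w : ℂ), 0 < a → IsMin S a u → InH S a f → w ≠ 0 →
  (∀ t ∈ S.G, ((t : ℝ) : ℂ) ^ 2 ≠ w ^ 2) →
  Summable (fun t : S.G => (S.m t : ℂ) * (((t : ℝ) : ℂ) ^ 2 * u ((t : ℝ) : ℂ) * f ((t : ℝ) : ℂ) /
    (((t : ℝ) : ℂ) ^ 2 - w ^ 2))) ∧
  f w * ∑' t : S.G, (S.m t : ℂ) * (((t : ℝ) : ℂ) ^ 2 * u ((t : ℝ) : ℂ) * u ((t : ℝ) : ℂ) /
    (((t : ℝ) : ℂ) ^ 2 - w ^ 2)) =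
  u w * ∑' t : S.G, (S.m t : ℂ) * (((t : ℝ) : ℂ) ^ 2 * u ((t : ℝ) : ℂ) * f ((t : ℝ) : ℂ) /
    (((t : ℝ) : ℂ) ^ 2 - w ^ 2))

/-- **KB.** The bound deduced from the identity. uses S_L2A, S_HE, S_MID.
Proof. Write `q = qS S a`, `r t = w² / (t² - w²)`, so `t²/(t² - w²) = 1 + r t`. `‖r t‖` is bounded over the nodes (as in MID), so everything is summable.
`M := ∑ m u² t²/(t² - w²) = ∑ m u² + ∑ m u² r = q + E` since `u t` is real at the nodes (`hu.real`), so `u t ^ 2 = ‖u t‖²` and `∑ m ‖u‖² = Q S u = q` (`hu.energy`);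
`‖E‖ ≤ ∑ m ‖u‖² ‖r‖ ≤ (∑ m ‖u‖²)^(1/2) (∑ m ‖u‖² ‖r‖²)^(1/2) ≤ q θ^(1/2) ≤ q/2`, so `‖M‖ ≥ q/2`.
`N := ∑ m u h t²/(t² - w²) = ∑ m u h + ∑ m u h r`, the first sum is `Bf S u h = q h 0 = 0` (`hu.el`), and `‖∑ m u h r‖² ≤ (Q S h) (∑ m ‖u‖² ‖r‖²) ≤ Q S h θ q`.
MID for `f = h`: `h w M = u w N`, so `‖h w‖² (q/2)² ≤ ‖u w‖² Q S h θ q`; divide by `q/4 > 0`. -/
def S_KB : Prop := ∀ (S : Sys) (a : ℝ) (u h : ℂ → ℂ) (w : ℂ) (θ : ℝ), 0 < a → IsMin S a u → 0 < qS S a →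
  InH S a h → h 0 = 0 → w ≠ 0 → (∀ t ∈ S.G, ((t : ℝ) : ℂ) ^ 2 ≠ w ^ 2) → 0 ≤ θ → θ ≤ 1 / 4 →
  ∑' t : S.G, S.m t * ‖u ((t : ℝ) : ℂ)‖ ^ 2 * ‖w ^ 2 / (((t : ℝ) : ℂ) ^ 2 - w ^ 2)‖ ^ 2 ≤ θ * qS S a →
  qS S a * ‖h w‖ ^ 2 ≤ 4 * θ * ‖u w‖ ^ 2 * Q S h

/-- **MASS.** The mass of the minimisers leaves every node. uses S_L2A, S_HE, S_ORT1.
Proof. Fix the node `t`. The nodes are locally finite (`S.summ`, `S.one_le`), so there is `η > 0` without nodes in `(t, t + 2η]`. For large `a` there is `x` with `t < x ≤ t + C q`, `C q ≤ η`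
(`q = qS S a → 0`), `u a x = 0`; no node equals `x`. ORT1 at `x` (all terms are real: `hu.real`): with `c_s = m s * s² (u s)² ≥ 0`, `∑_{s < x} c_s/(x² - s²) = ∑_{s > x} c_s/(s² - x²)`. The left side is
`≥ c_t/(x² - t²)`. On the right `s ≥ t + 2η` and `s²/(s² - x²) ≤ (t+2η)²/((t+2η)² - (t+η)²) =: K`, so it is `≤ K ∑ m s ‖u s‖² = K q`. Hence
`m t * t² ‖u t‖² ≤ K q (x² - t²) ≤ K q · C q (2 t + η)`, i.e. `m t ‖u t‖² ≤ (K C (2t+η)/t²) q²`, and `q → 0`. -/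
def S_MASS : Prop := ∀ (S : Sys) (u : ℝ → ℂ → ℂ), (∀ a, 0 < a → IsMin S a (u a) ∧ 0 < qS S a) →
  Tendsto (fun a => qS S a) atTop (𝓝 0) →
  (∀ t ∈ S.G, ∃ C : ℝ, ∀ᶠ a in atTop, ∃ x : ℝ, t < x ∧ x ≤ t + C * qS S a ∧ u a (x : ℂ) = 0) →
  ∀ t ∈ S.G, ∀ ε : ℝ, 0 < ε → ∀ᶠ a in atTop, S.m t * ‖u a (t : ℂ)‖ ^ 2 ≤ ε * qS S a

/-- **SM.** Smallness of the sum in KB on a circle. uses S_HE.
Proof. For `‖w‖ = r`: `‖t² - w²‖ ≥ |t² - r²| ≥ δ > 0` for all nodes (`r ∉ G`, nodes locally finite, and `t² - r² → ∞`). Let `T > 2 r + 1` be such that `(r²/(T² - r²))² ≤ θ/2`. For the nodes `t ≥ T` the factor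
`‖w²/(t² - w²)‖² ≤ (r²/(T² - r²))² ≤ θ/2`, total contribution `≤ (θ/2) Q S (u a) = (θ/2) q`. For the finitely many nodes `t < T` it is `≤ (r²/δ)² =: K`, and by the hypothesis
`∑_{t < T} m t ‖u a t‖² ≤ (θ/(2K+1)) q` for large `a` (finite intersection of eventual statements). -/
def S_SM : Prop := ∀ (S : Sys) (u : ℝ → ℂ → ℂ), (∀ a, 0 < a → IsMin S a (u a) ∧ 0 < qS S a) →
  (∀ t ∈ S.G, ∀ ε : ℝ, 0 < ε → ∀ᶠ a in atTop, S.m t * ‖u a (t : ℂ)‖ ^ 2 ≤ ε * qS S a) →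
  ∀ r θ : ℝ, 0 < r → r ∉ S.G → 0 < θ → ∃ a₀ : ℝ, 0 < a₀ ∧ ∀ a, a₀ ≤ a → ∀ w : ℂ, ‖w‖ = r →
    (∀ t ∈ S.G, ((t : ℝ) : ℂ) ^ 2 ≠ w ^ 2) ∧
    ∑' t : S.G, S.m t * ‖u a ((t : ℝ) : ℂ)‖ ^ 2 * ‖w ^ 2 / (((t : ℝ) : ℂ) ^ 2 - w ^ 2)‖ ^ 2 ≤ θ * qS S a

/-- **KER.** Functions of the closure which vanish at `0` are small. uses S_HE, S_KB, S_MASS, S_SM.
Proof. Choose `r > max R 1` with `r ∉ S.G` (the nodes are locally finite, in particular countable). Choose `a₁` with `‖u a z - P z‖ ≤ 1` for `a ≥ a₁`, `‖z‖ ≤ r`; then `‖P z‖ ≤ ‖u a₁ z‖ + 1 ≤ B` on the disc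
(`u a₁` is continuous by HE), so `‖u a z‖ ≤ B + 1` for all `a ≥ a₁`, `‖z‖ ≤ r`. Let `θ > 0` with `θ ≤ 1/4`, `4 θ (B+1)² ≤ ε`. By MASS and SM there is `a₂` such that KB applies for `a ≥ a₂` to all `w` with `‖w‖ = r`:
`q ‖h w‖² ≤ 4 θ (B+1)² Q S h ≤ ε Q S h`. `h` is entire (HE), so by the maximum principle the bound holds for `‖w‖ ≤ r`. -/
def S_KER : Prop := ∀ (S : Sys) (u : ℝ → ℂ → ℂ) (P : ℂ → ℂ), (∀ a, 0 < a → IsMin S a (u a) ∧ 0 < qS S a) →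
  Tendsto (fun a => qS S a) atTop (𝓝 0) →
  (∀ t ∈ S.G, ∃ C : ℝ, ∀ᶠ a in atTop, ∃ x : ℝ, t < x ∧ x ≤ t + C * qS S a ∧ u a (x : ℂ) = 0) →
  (∀ R ε : ℝ, 0 < ε → ∃ a₀ : ℝ, 0 < a₀ ∧ ∀ a, a₀ ≤ a → ∀ z : ℂ, ‖z‖ ≤ R → ‖u a z - P z‖ ≤ ε) →
  ∀ R ε : ℝ, 0 < ε → ∃ a₀ : ℝ, 0 < a₀ ∧ ∀ a, a₀ ≤ a → ∀ h : ℂ → ℂ, InH S a h → h 0 = 0 →
    ∀ z : ℂ, ‖z‖ ≤ R → qS S a * ‖h z‖ ^ 2 ≤ ε * Q S h

/-- **DEC.** Orthogonal decomposition of a test function. uses S_TCB, S_SUM, S_L2A, S_HE, S_LIN.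
Proof. `Ct g` is in the closure (constant sequence), in `L2` (SUM); put `c = Ct g 0`, `h = Ct g - c u` (LIN). At the nodes `u t` is real (`hu.real`), so `‖Ct g t - c u t‖² = ‖Ct g t‖² - 2 Re (conj c * (u t * Ct g t)) + ‖c‖² ‖u t‖²`;
sum with the weights: `Q S h = Q S (Ct g) - 2 Re (conj c * Bf S u (Ct g)) + ‖c‖² Q S u`, `Bf S u (Ct g) = q c` (`hu.el`), `Q S u = q`, so `Q S h = Q S (Ct g) - q ‖c‖²`, and `Q S h ≥ 0`, `q ‖c‖² ≥ 0`. -/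
def S_DEC : Prop := ∀ (S : Sys) (a : ℝ) (u : ℂ → ℂ) (g : ℝ → ℂ), 0 < a → IsMin S a u → 0 < qS S a → TC a g →
  InH S a (fun z => Ct g z - Ct g 0 * u z) ∧ Q S (fun z => Ct g z - Ct g 0 * u z) ≤ Q S (Ct g) ∧
  qS S a * ‖Ct g 0‖ ^ 2 ≤ Q S (Ct g)

/-- **KK.** All test functions. uses S_KER, S_DEC.
Proof. With `h = Ct g - Ct g 0 * u a` from DEC (`h 0 = 0` as `u 0 = 1`): `‖Ct g z - Ct g 0 * P z‖² ≤ 2 ‖h z‖² + 2 ‖Ct g 0‖² ‖u a z - P z‖²`; multiply by `q`: KER with `ε/4` gives `2 q ‖h z‖² ≤ (ε/2) Q S h ≤ (ε/2) Q S (Ct g)`, and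
`2 q ‖Ct g 0‖² ‖u a z - P z‖² ≤ 2 Q S (Ct g) ε'²` with `ε'² ≤ ε/4`. -/
def S_KK : Prop := ∀ (S : Sys) (u : ℝ → ℂ → ℂ) (P : ℂ → ℂ), (∀ a, 0 < a → IsMin S a (u a) ∧ 0 < qS S a) →
  Tendsto (fun a => qS S a) atTop (𝓝 0) →
  (∀ t ∈ S.G, ∃ C : ℝ, ∀ᶠ a in atTop, ∃ x : ℝ, t < x ∧ x ≤ t + C * qS S a ∧ u a (x : ℂ) = 0) →
  (∀ R ε : ℝ, 0 < ε → ∃ a₀ : ℝ, 0 < a₀ ∧ ∀ a, a₀ ≤ a → ∀ z : ℂ, ‖z‖ ≤ R → ‖u a z - P z‖ ≤ ε) →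
  ∀ R ε : ℝ, 0 < ε → ∃ a₀ : ℝ, 0 < a₀ ∧ ∀ a, a₀ ≤ a → ∀ g : ℝ → ℂ, TC a g →
    ∀ z : ℂ, ‖z‖ ≤ R → qS S a * ‖Ct g z - Ct g 0 * P z‖ ^ 2 ≤ ε * Q S (Ct g)

/-- **LL.** Ground states normalised in `L²(ℝ)` (also approximate ones, up to a constant factor of the Rayleigh quotient). uses S_TCB, S_PL.
Proof. We may assume `C > 0` (else use `max C 1`; the left side is `≤` anyway since `Q, ∫ ≥ 0`). `P` is continuous at `0` with `P 0 = 1`: choose `r ∈ (0, 1)` with `‖P x‖ ≥ 1/2` for real `|x| ≤ r`. For `a` large take `h` with `Adm a h`, `Q S (Ct (co h)) ≤ 2 qS S a`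
(definition of the infimum `qS S a > 0`). The hypothesis `hK` with `R = 1`, `ε = 1/64`: `Ct (co h) 0 = ∫ h = 1`, so `‖Ct (co h) x - P x‖² ≤ 2/64`, thus `‖Ct (co h) x‖ ≥ 1/4` on `[-r, r]` and by Plancherel (PL, `‖co h x‖ = |h x|`)
`∫ h² = (1/2π) ∫ ‖Ct (co h) x‖² dx ≥ r/(16 π) =: c₀`. The assumption on `g` gives `Q S (Ct (co g)) c₀ ≤ C · 2 qS S a ∫ g²`. Then `hK` with `ε' = ε c₀/(2 C)`: `qS S a ‖Ct (co g) z - Ct (co g) 0 P z‖² ≤ ε' Q S (Ct (co g)) ≤ ε qS S a ∫ g²`. Divide by `qS S a`. -/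
def S_LL : Prop := ∀ (S : Sys) (P : ℂ → ℂ), Continuous P → P 0 = 1 → (∀ a, 0 < a → 0 < qS S a) →
  (∀ R ε : ℝ, 0 < ε → ∃ a₀ : ℝ, 0 < a₀ ∧ ∀ a, a₀ ≤ a → ∀ g : ℝ → ℂ, TC a g →
    ∀ z : ℂ, ‖z‖ ≤ R → qS S a * ‖Ct g z - Ct g 0 * P z‖ ^ 2 ≤ ε * Q S (Ct g)) →
  ∀ C R ε : ℝ, 0 < ε → ∃ a₀ : ℝ, 0 < a₀ ∧ ∀ a, a₀ ≤ a → ∀ g : ℝ → ℝ, TR a g →
    (∀ h : ℝ → ℝ, TR a h → Q S (Ct (co g)) * ∫ x : ℝ, h x ^ 2 ≤ C * Q S (Ct (co h)) * ∫ x : ℝ, g x ^ 2) →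
    ∀ z : ℂ, ‖z‖ ≤ R → ‖Ct (co g) z - Ct (co g) 0 * P z‖ ^ 2 ≤ ε * ∫ x : ℝ, g x ^ 2

/-- **LN.** Ground states normalised by a measure with bounded support on the frequency side. uses S_TCB.
Proof. We may assume `C ≥ 1`, `R ≥ r`. Let `p = ∫ ‖P z‖² dν > 0`, `V = ν univ` (real, finite), `n f = ∫ ‖f z‖² dν` for continuous `f` (integrable: bounded on the closed ball of radius `r`, `ν` lives there). Choose `h`, `Adm a h`, `Q S (Ct (co h)) ≤ 2 q`, `q = qS S a`. By `hK` (small `ε₁`)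
`‖Ct (co h) z - P z‖² ≤ 2 ε₁` on the ball, so `n (Ct (co h)) ≥ p/2 - 2 ε₁ V ≥ p/4` (from `‖P‖² ≤ 2 ‖f‖² + 2 ‖P - f‖²`). The assumption on `g`: `Q S (Ct (co g)) p/4 ≤ 2 C q n(g)`, `n(g) = n (Ct (co g))`. `hK` with `ε₂`: for `‖z‖ ≤ R`,
`‖Ct (co g) z - c P z‖² ≤ ε₂ (8 C/p) n(g)`, `c = Ct (co g) 0`. Integrate over `ν`: `n(g) ≤ 2 ‖c‖² p + 2 V ε₂ (8C/p) n(g) ≤ 2 ‖c‖² p + n(g)/2` for small `ε₂`, so `n(g) ≤ 4 p ‖c‖²` and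
`‖Ct (co g) z - c P z‖² ≤ 32 C ε₂ ‖c‖² ≤ ε² ‖c‖²` for small `ε₂`. -/
def S_LN : Prop := ∀ (S : Sys) (P : ℂ → ℂ), Continuous P → P 0 = 1 → (∀ a, 0 < a → 0 < qS S a) →
  (∀ R ε : ℝ, 0 < ε → ∃ a₀ : ℝ, 0 < a₀ ∧ ∀ a, a₀ ≤ a → ∀ g : ℝ → ℂ, TC a g →
    ∀ z : ℂ, ‖z‖ ≤ R → qS S a * ‖Ct g z - Ct g 0 * P z‖ ^ 2 ≤ ε * Q S (Ct g)) →
  ∀ (ν : Measure ℂ) (r : ℝ), IsFiniteMeasure ν → ν (Metric.closedBall 0 r)ᶜ = 0 → 0 < ∫ z, ‖P z‖ ^ 2 ∂ν →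
  ∀ C R ε : ℝ, 0 < ε → ∃ a₀ : ℝ, 0 < a₀ ∧ ∀ a, a₀ ≤ a → ∀ g : ℝ → ℝ, TR a g →
    (∀ h : ℝ → ℝ, TR a h → Q S (Ct (co g)) * ∫ z, ‖Ct (co h) z‖ ^ 2 ∂ν ≤
      C * Q S (Ct (co h)) * ∫ z, ‖Ct (co g) z‖ ^ 2 ∂ν) →
    ∀ z : ℂ, ‖z‖ ≤ R → ‖Ct (co g) z - Ct (co g) 0 * P z‖ ≤ ε * ‖Ct (co g) 0‖

/-! ## Part B. Multiple zeros lower the energy -/

/-- smooth even functions which together with two derivatives are bounded by `B exp (-Y |x|)` -/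
structure EB (Y B : ℝ) (ψ : ℝ → ℝ) : Prop where
  smooth : ContDiff ℝ ∞ ψ
  even : ∀ x : ℝ, ψ (-x) = ψ x
  b0 : ∀ x : ℝ, |ψ x| ≤ B * Real.exp (-Y * |x|)
  b1 : ∀ x : ℝ, |deriv ψ x| ≤ B * Real.exp (-Y * |x|)
  b2 : ∀ x : ℝ, |deriv (deriv ψ) x| ≤ B * Real.exp (-Y * |x|)

/-- **DIV.** Division of the transform of an exponentially decreasing function by `1 - z²/γ²`, with a gain `γ²/Y²` in the bound.
Proof. Let `φ x = γ ∫_0^∞ sin (γ s) ψ (x + s) ds`. (1) `φ x = γ ∫_x^∞ sin (γ (v - x)) ψ v dv = γ (cos (γ x) ∫_x^∞ sin (γ v) ψ v dv - sin (γ x) ∫_x^∞ cos (γ v) ψ v dv)` is smooth (products of smooth functions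
and primitives of smooth functions), `φ' x = -γ² ∫_x^∞ cos (γ (v - x)) ψ v dv`, `φ'' = γ² (ψ - φ)`. (2) Even: `φ x - φ (-x) = γ ∫_{-∞}^∞ sin (γ (v - x)) ψ v dv = -γ sin (γ x) ∫ ψ v cos (γ v) dv = 0` since `ψ` is even.
(3) Bounds: integrating by parts also `φ' x = γ ∫_0^∞ sin (γ s) ψ' (x + s) ds` and `φ'' x = γ ∫_0^∞ sin (γ s) ψ'' (x + s) ds`; for `x ≥ 0`, with `|sin (γ s)| ≤ γ s`, each of the three is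
`≤ γ ∫_0^∞ γ s B exp (-Y (x + s)) ds = (γ²/Y²) B exp (-Y x)`. For `x < 0` use evenness of `φ` (`φ'` odd, `φ''` even). (4) `ψ = φ + φ''/γ²`; multiply by `cos (z x)`, `|cos (z x)| ≤ exp (|Im z| |x|)`, `|Im z| < Y`, and integrate by parts twice:
`∫ φ'' cos (z x) = -z² ∫ φ cos (z x)`. -/
def S_DIV : Prop := ∀ (Y B γ : ℝ) (ψ : ℝ → ℝ), 0 < γ → γ ≤ Y → EB Y B ψ →
  ∫ x : ℝ, ψ x * Real.cos (γ * x) = 0 →
  ∃ φ : ℝ → ℝ, EB Y (B * (γ / Y) ^ 2) φ ∧ ∀ z : ℂ, |z.im| < Y →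
    ∫ x : ℝ, (ψ x : ℂ) * Complex.cos (z * x) =
      (1 - z ^ 2 / (γ : ℂ) ^ 2) * ∫ x : ℝ, (φ x : ℂ) * Complex.cos (z * x)

/-- **PHY.** The kernel of the Xi function with exponential weights. uses S_PHI.
Proof. `Φ` from PHI, with `ε₁` small in terms of `ε`: `|Φ x|, |Φ' x|, |Φ'' x| ≤ C exp (-(π - ε₁) e^{2|x|})`. Let `Y = 2π e^{2a}`, `c = π/(π - ε₁)`. From `log s ≤ s/c - 1 + log c` with `s = e^{2(|x| - a)}`: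
`Y (|x| - a) = π e^{2a} log s ≤ e^{2a} ((π - ε₁) s - π + π log c)`, i.e. `Y |x| - (π - ε₁) e^{2|x|} ≤ Y a - e^{2a} (π - π log c)`. So `EB Y B Φ` with `B = C exp (Y a - e^{2a} (π - π log c))`, and
`B exp (-Y a) = C exp (-(π - π log c) e^{2a}) ≤ exp (-(π - ε) e^{2a})` if `π log c ≤ ε/2` and `a` is large. (`C > 0` may be assumed.) `Φ` must not depend on `a`, but it may depend on nothing else: take the `Φ` of PHI once. -/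
def S_PHY : Prop := ∃ Φ : ℝ → ℝ, (∀ z : ℂ, Xi z = ∫ x : ℝ, (Φ x : ℂ) * Complex.cos (z * x)) ∧
  ∀ ε : ℝ, 0 < ε → ∃ a₀ : ℝ, 0 < a₀ ∧ ∀ a, a₀ ≤ a → ∃ B : ℝ, 0 ≤ B ∧
    EB (2 * Real.pi * Real.exp (2 * a)) B Φ ∧
    B * Real.exp (-(2 * Real.pi * Real.exp (2 * a) * a)) ≤ Real.exp (-(Real.pi - ε) * Real.exp (2 * a))

/-- **ORD.** The order of the zero of `Xi` is the multiplicity of the zero of zeta.
Proof. Let `t ∈ Ord`, `s₀ = 1/2 + i t`, `t ≠ 0`. Near `s₀` (`s ≠ 0, 1`, `Re s > 0`): `completedRiemannZeta s = π^{-s/2} Γ(s/2) ζ(s)` and `completedRiemannZeta₀ s = completedRiemannZeta s + 1/s + 1/(1-s)`, so for `z` near `t`, `s = 1/2 + i z`: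
`Xi z = (s (s-1) completedRiemannZeta₀ s + 1)/2 = s (s-1) π^{-s/2} Γ(s/2) ζ(s)/2 = E s * ζ(s)` with `E` analytic and nonzero near `s₀`. So the order of `Xi` at `t` is the order of `z ↦ ζ(1/2 + i z)` at `t`, which is the order of `ζ` at `s₀` because the
affine map has nonzero derivative (`analyticOrderAt_comp_of_deriv_ne_zero`, or the definition: `ζ s = (s - s₀)^m g s` with `g s₀ ≠ 0` gives `(i (z - t))^m g (1/2 + i z)`). -/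
def S_ORD : Prop := ∀ t ∈ Ord, analyticOrderAt Xi (t : ℂ) ≠ ⊤ ∧
  analyticOrderNatAt Xi (t : ℂ) = mz (1 / 2 + t * I) ∧ 1 ≤ mz (1 / 2 + t * I)

/-- **DVL.** Division by all excess zeros. uses S_DIV, S_ORD.
Proof. Induction on `N = ∑_{t ∈ F} e t` for all functions `e` with `e t + 1 ≤ mz (1/2 + t I)` on `F`, the conclusion being: there is `ψ` with `EB Y (B ∏ (t/Y)^(2 e t)) ψ` and `Xi z = ∏ (1 - z²/t²)^(e t) * ∫ ψ cos (z x)` for `|Im z| < Y`. `N = 0`: `ψ = Φ`. Step: choose `t₀ ∈ F` with `e t₀ ≥ 1` and apply the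
induction hypothesis to `e' = e` except `e' t₀ = e t₀ - 1`. The function `ψ^ z := ∫ ψ cos (z x)` is analytic for `|Im z| < Y` (differentiate under the integral; `|cos (z x)| ≤ exp (|Im z| |x|)`). Near `t₀`: `Xi z = (z - t₀)^(e' t₀) g z ψ^ z` with `g t₀ ≠ 0` (the other factors do not vanish at `t₀`: the elements of `F`
are distinct positive numbers), and the order of `Xi` at `t₀` is `≥ e t₀ + 1 > e' t₀` (ORD), so `ψ^ t₀ = 0` (real: `∫ ψ x cos (t₀ x) = 0`), and DIV applies (`t₀ ≤ Y`). Finally, take `e t = mz (1/2 + t I) - 1` on `F`: for `t ∈ F` the same argument (order of `Xi` is `e t + 1`) gives `ψ^ t = 0`;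
for `t ∈ Ord \ F` the product is nonzero at `t` and `Xi t = 0` (order `≥ 1`), so `ψ^ t = 0`. At `z = 0` the product is `1`: `∫ ψ = Xi 0`. -/
def S_DVL : Prop := ∀ (Y B : ℝ) (Φ : ℝ → ℝ) (F : Finset ℝ), 0 < Y → EB Y B Φ →
  (∀ z : ℂ, |z.im| < Y → Xi z = ∫ x : ℝ, (Φ x : ℂ) * Complex.cos (z * x)) →
  (∀ t ∈ F, t ∈ Ord ∧ t ≤ Y) →
  ∃ ψ : ℝ → ℝ, EB Y (B * ∏ t ∈ F, (t / Y) ^ (2 * (mz (1 / 2 + t * I) - 1))) ψ ∧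
    ((∫ x : ℝ, ψ x : ℝ) : ℂ) = Xi 0 ∧ ∀ t ∈ Ord, ∫ x : ℝ, ψ x * Real.cos (t * x) = 0

/-- **TRK.** Truncation. Proof. Let `Y = 2π e^{2a}`, `δ = min (ε/(8π)) (1/2)`, and let `χ = χ_a` be smooth, even, `1` on `|x| ≤ a - δ`, `0` for `|x| ≥ a`, `0 ≤ χ ≤ 1`, `|χ'|, |χ''| ≤ K` with `K` depending on `δ` only (as in TRI, module WM.TRI: `χ x = η (x - a) η (-x - a)`).
`I_a = ∫ ψ χ`, `|c₀ - I_a| ≤ 2 ∫_{a-δ}^∞ B e^{-Y x} dx ≤ 2 B e^{-Y (a - δ)}/Y = (2/Y) B e^{-Y a} e^{2πδ e^{2a}} ≤ (2/Y) exp (-e^{2a} + (ε/4) e^{2a}) ≤ |c₀|/2` for large `a` (`ε < 1`). `k = ψ χ/I_a`. If `∫ ψ cos (t x) = 0`: `∫ ψ χ cos (t x) = -∫ ψ (1-χ) cos (t x) = (1/t²) ∫ (ψ (1-χ))'' cos (t x) dx` and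
`|(ψ (1 - χ))''| ≤ 4 (K + 1) B e^{-Y |x|}` on `|x| ≥ a - δ`, zero elsewhere. So `|∫ k cos (t x)| ≤ (2/|c₀|) (1/t²) 8 (K+1) B e^{-Y (a - δ)}/Y ≤ B exp (-Y a + ε e^{2a})/t²` for large `a`. -/
def S_TRK : Prop := ∀ c₀ ε : ℝ, c₀ ≠ 0 → 0 < ε → ε < 1 → ∃ a₀ : ℝ, 0 < a₀ ∧ ∀ a, a₀ ≤ a →
  ∀ (B : ℝ) (ψ : ℝ → ℝ), 0 ≤ B → EB (2 * Real.pi * Real.exp (2 * a)) B ψ → ∫ x : ℝ, ψ x = c₀ →
  B * Real.exp (-(2 * Real.pi * Real.exp (2 * a) * a)) ≤ Real.exp (-Real.exp (2 * a)) →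
  ∃ k : ℝ → ℝ, Adm a k ∧ ∀ t : ℝ, 0 < t → ∫ x : ℝ, ψ x * Real.cos (t * x) = 0 →
    |∫ x : ℝ, k x * Real.cos (t * x)| ≤
      B * Real.exp (-(2 * Real.pi * Real.exp (2 * a) * a) + ε * Real.exp (2 * a)) / t ^ 2

/-- **QD.** Multiple zeros lower the energy. uses S_XI0, S_SYS, S_PHY, S_DVL, S_TRK.
Proof. `S` from SYS (`S.G = Ord`). We may assume `ε < 1`; `c₀` = the real number `Xi 0` (`Xi 0 = ∫ Φ` is real, nonzero by XI0). Let `ε' = ε/8`. For `a` large: `B, Φ` from PHY (with `ε'`), `Y = 2π e^{2a}`, `ψ` from DVL, `B' = B ∏ (t/Y)^(2 (mz - 1)) ≤ B` (all factors in `[0,1]`), so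
`B' e^{-Y a} ≤ exp (-(π - ε') e^{2a}) ≤ exp (-e^{2a})`; `k` from TRK (with `ε'`). For a node `t`, `Ct (co k) t = ∫ k x cos (t x)` (a real number), `|.| ≤ B' e^{-Y a} e^{ε' e^{2a}}/t² ≤ ∏ (t/Y)^(2 (mz-1)) exp (-(π - 2 ε') e^{2a})/t²`. So
`W k = 2 Q S (Ct (co k)) ≤ 2 (∑ m t/t⁴) ∏ (..)^(4 (mz - 1)) exp (-(2π - 4 ε') e^{2a})`, `∑ m t/t⁴ < ∞` (`S.summ`, the nodes are bounded below by a positive number), and the constant is `≤ exp (ε' e^{2a})` for large `a`. -/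
def S_QD : Prop := RiemannHypothesis → ∀ ε : ℝ, 0 < ε → ∃ a₀ : ℝ, 0 < a₀ ∧ ∀ a, a₀ ≤ a →
  ∀ F : Finset ℝ, (∀ t ∈ F, t ∈ Ord ∧ t ≤ 2 * Real.pi * Real.exp (2 * a)) →
  ∃ k : ℝ → ℝ, Adm a k ∧ W k ≤ Real.exp (-(2 * Real.pi - ε) * Real.exp (2 * a)) *
    ∏ t ∈ F, (t / (2 * Real.pi * Real.exp (2 * a))) ^ (4 * (mz (1 / 2 + t * I) - 1))

/-- **DT.** A lower bound for the energies bounds the number of multiple zeros. uses S_QD, S_WTS.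
Proof. For `T ≥ 1` large let `π e^{2a} = T`, so `t/(2π e^{2a}) ≤ 1/2` for `t ≤ T`, and with `N = ∑_{t ∈ F} (mz - 1)`: `exp (-C e^{2a}) ≤ q a ≤ W k ≤ exp (0) (1/2)^(4 N)` (QD with `ε = 1`; `hq` is the statement that `q` is a lower bound). So `4 N log 2 ≤ C e^{2a} = C T/π`.
For the `T` below the threshold `T₀`: the ordinates `≤ T₀` are finitely many (WTS: `∑ mz/‖ρ - 1/2‖² < ∞` with `mz ≥ 1`), so `N` is bounded by a constant (the sum of `mz` over them) `≤ C'' T` as `T ≥ 1`. -/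
def S_DT : Prop := RiemannHypothesis → ∀ (q : ℝ → ℝ) (C : ℝ), (∀ a k, 0 < a → Adm a k → q a ≤ W k) →
  (∀ᶠ a in atTop, Real.exp (-C * Real.exp (2 * a)) ≤ q a) →
  ∃ C' : ℝ, ∀ T : ℝ, 1 ≤ T → ∀ F : Finset ℝ, (∀ t ∈ F, t ∈ Ord ∧ t ≤ T) →
    ((∑ t ∈ F, (mz (1 / 2 + t * I) - 1) : ℕ) : ℝ) ≤ C' * T

end

end Pool.Agent.H478.WM
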