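import Pool.Agent.H478.WM.Stm3
import Pool.Agent.H478.WM.TRI

open Complex MeasureTheory Filter Topology Set
open scoped ContDiff

namespace Pool.Agent.H478.WM.TRK

open Pool.Agent.H478.WM

/-- the elementary bound for the exponential -/
theorem exp_le {Y s : ℝ} (hY : 2 ≤ Y) (hs : 0 ≤ s) : Real.exp (-Y * s) ≤ (1 + s ^ 2)⁻¹ := by
  have h1 : Real.exp (-Y * s) = (Real.exp (Y * s))⁻¹ := by
    rw [neg_mul, Real.exp_neg]
  rw [h1]
  refine inv_anti₀ (by positivity) ?_
  have h2 := Real.quadratic_le_exp_of_nonneg (x := Y * s) (by positivity)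
  have h3 : 2 * s ≤ Y * s := mul_le_mul_of_nonneg_right hY hs
  have h4 : 0 ≤ Y * s := by positivity
  have h5 : (2 * s) ^ 2 ≤ (Y * s) ^ 2 := pow_le_pow_left₀ (by positivity) h3 2
  nlinarith [sq_nonneg s]

/-- two integrations by parts -/
theorem ibp {p p1 p2 D : ℝ → ℝ} (t : ℝ)
    (h1 : ∀ x, HasDerivAt p (p1 x) x) (h2 : ∀ x, HasDerivAt p1 (p2 x) x) (h3 : Continuous p2)
    (hD : Integrable D) (b0 : ∀ x, |p x| ≤ D x)
    (b1 : ∀ x, |p1 x| ≤ D x) (b2 : ∀ x, |p2 x| ≤ D x) :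
    Integrable (fun x : ℝ => p x * Real.cos (t * x)) ∧
    |∫ x : ℝ, p x * Real.cos (t * x)| ≤ ∫ x, D x ∧
    t ^ 2 * |∫ x : ℝ, p x * Real.cos (t * x)| ≤ ∫ x, D x := by
  have c0 : Continuous p := continuous_iff_continuousAt.2 fun x => (h1 x).continuousAt
  have c1 : Continuous p1 := continuous_iff_continuousAt.2 fun x => (h2 x).continuousAt
  have ccos : Continuous (fun x : ℝ => Real.cos (t * x)) := by fun_prop
  have csin : Continuous (fun x : ℝ => Real.sin (t * x)) := by fun_prop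
  have bcos : ∀ (q : ℝ → ℝ), (∀ x, |q x| ≤ D x) → ∀ x : ℝ, ‖q x * Real.cos (t * x)‖ ≤ D x := by
    intro q hb x
    rw [norm_mul, Real.norm_eq_abs, Real.norm_eq_abs]
    have := mul_le_mul_of_nonneg_left (Real.abs_cos_le_one (t * x)) (abs_nonneg (q x))
    rw [mul_one] at this
    exact this.trans (hb x)
  have bsin : ∀ (q : ℝ → ℝ), (∀ x, |q x| ≤ D x) → ∀ x : ℝ, ‖q x * Real.sin (t * x)‖ ≤ D x := by
    intro q hb x
    rw [norm_mul, Real.norm_eq_abs, Real.norm_eq_abs]
    have := mul_le_mul_of_nonneg_left (Real.abs_sin_le_one (t * x)) (abs_nonneg (q x))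
    rw [mul_one] at this
    exact this.trans (hb x)
  have icos : ∀ q : ℝ → ℝ, Continuous q → (∀ x, |q x| ≤ D x) →
      Integrable (fun x : ℝ => q x * Real.cos (t * x)) := fun q hq hb =>
    hD.mono' (hq.mul ccos).aestronglyMeasurable (ae_of_all _ (bcos q hb))
  have isin : ∀ q : ℝ → ℝ, Continuous q → (∀ x, |q x| ≤ D x) →
      Integrable (fun x : ℝ => q x * Real.sin (t * x)) := fun q hq hb =>
    hD.mono' (hq.mul csin).aestronglyMeasurable (ae_of_all _ (bsin q hb))
  have dcos : ∀ x : ℝ, HasDerivAt (fun x : ℝ => Real.cos (t * x)) (-Real.sin (t * x) * t) x := by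
    intro x
    have e : HasDerivAt (fun x : ℝ => t * x) t x := by
      simpa using (hasDerivAt_id x).const_mul t
    exact (Real.hasDerivAt_cos (t * x)).comp x e
  have dsin : ∀ x : ℝ, HasDerivAt (fun x : ℝ => Real.sin (t * x)) (Real.cos (t * x) * t) x := by
    intro x
    have e : HasDerivAt (fun x : ℝ => t * x) t x := by
      simpa using (hasDerivAt_id x).const_mul t
    exact (Real.hasDerivAt_sin (t * x)).comp x e
  have e1 : ∫ x : ℝ, Real.cos (t * x) * p2 x = - ∫ x : ℝ, (-Real.sin (t * x) * t) * p1 x := by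
    refine integral_mul_deriv_eq_deriv_mul_of_integrable (fun x _ => dcos x) (fun x _ => h2 x) ?_ ?_ ?_
    · refine (icos p2 h3 b2).congr (ae_of_all _ fun x => ?_)
      simp only [Pi.mul_apply]
      ring
    · refine ((isin p1 c1 b1).const_mul (-t)).congr (ae_of_all _ fun x => ?_)
      simp only [Pi.mul_apply]
      ring
    · refine (icos p1 c1 b1).congr (ae_of_all _ fun x => ?_)
      simp only [Pi.mul_apply]
      ring
  have e2 : ∫ x : ℝ, Real.sin (t * x) * p1 x = - ∫ x : ℝ, (Real.cos (t * x) * t) * p x := by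
    refine integral_mul_deriv_eq_deriv_mul_of_integrable (fun x _ => dsin x) (fun x _ => h1 x) ?_ ?_ ?_
    · refine (isin p1 c1 b1).congr (ae_of_all _ fun x => ?_)
      simp only [Pi.mul_apply]
      ring
    · refine ((icos p c0 b0).const_mul t).congr (ae_of_all _ fun x => ?_)
      simp only [Pi.mul_apply]
      ring
    · refine (isin p c0 b0).congr (ae_of_all _ fun x => ?_)
      simp only [Pi.mul_apply]
      ring
  have f1 : ∫ x : ℝ, p2 x * Real.cos (t * x) = ∫ x : ℝ, Real.cos (t * x) * p2 x :=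
    integral_congr_ae (ae_of_all _ fun x => by ring)
  have f2 : ∫ x : ℝ, (-Real.sin (t * x) * t) * p1 x = -t * ∫ x : ℝ, Real.sin (t * x) * p1 x := by
    rw [← integral_const_mul]
    exact integral_congr_ae (ae_of_all _ fun x => by ring)
  have f3 : ∫ x : ℝ, (Real.cos (t * x) * t) * p x = t * ∫ x : ℝ, p x * Real.cos (t * x) := by
    rw [← integral_const_mul]
    exact integral_congr_ae (ae_of_all _ fun x => by ring)
  have f4 : ∫ x : ℝ, p2 x * Real.cos (t * x) = - t ^ 2 * ∫ x : ℝ, p x * Real.cos (t * x) := by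
    rw [f1, e1, f2, e2, f3]
    ring
  have nb : ∀ q : ℝ → ℝ, (∀ x, |q x| ≤ D x) → |∫ x : ℝ, q x * Real.cos (t * x)| ≤ ∫ x, D x := by
    intro q hb
    rw [← Real.norm_eq_abs]
    exact norm_integral_le_of_norm_le hD (ae_of_all _ (bcos q hb))
  refine ⟨icos p c0 b0, nb p b0, ?_⟩
  have f5 := nb p2 b2
  rw [f4, abs_mul, abs_neg, abs_of_nonneg (sq_nonneg t)] at f5
  exact f5

/-- the main estimate -/
theorem main {Y B δ K a : ℝ} {ψ : ℝ → ℝ} (hψ : EB Y B ψ) (hY : 2 ≤ Y) (hB : 0 ≤ B) (hδ : 0 < δ)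
    (hK0 : 0 < K)
    (hK : ∀ s, |triw δ s| ≤ K ∧ |deriv (triw δ) s| ≤ K ∧ |deriv (deriv (triw δ)) s| ≤ K)
    (ha : δ ≤ a) (t : ℝ) :
    Integrable (fun x : ℝ => (ψ x * triw δ (x - a)) * Real.cos (t * x)) ∧
    |∫ x : ℝ, (ψ x * triw δ (x - a)) * Real.cos (t * x)| ≤
      4 * K * B * Real.exp (-Y * (a - δ)) * Real.pi ∧
    t ^ 2 * |∫ x : ℝ, (ψ x * triw δ (x - a)) * Real.cos (t * x)| ≤
      4 * K * B * Real.exp (-Y * (a - δ)) * Real.pi := by
  have hΦ := hψ.smooth
  have hΦ1 : ContDiff ℝ ∞ (deriv ψ) := (contDiff_infty_iff_deriv.1 hΦ).2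
  have hΦ2 : ContDiff ℝ ∞ (deriv (deriv ψ)) := (contDiff_infty_iff_deriv.1 hΦ1).2
  have hw : ContDiff ℝ ∞ (triw δ) := triw_contDiff δ
  have hw1 : ContDiff ℝ ∞ (deriv (triw δ)) := (contDiff_infty_iff_deriv.1 hw).2
  have hw2 : ContDiff ℝ ∞ (deriv (deriv (triw δ))) := (contDiff_infty_iff_deriv.1 hw1).2
  have dΦ : ∀ x, HasDerivAt ψ (deriv ψ x) x := fun x => ((contDiff_infty_iff_deriv.1 hΦ).1 x).hasDerivAt
  have dΦ1 : ∀ x, HasDerivAt (deriv ψ) (deriv (deriv ψ) x) x :=
    fun x => ((contDiff_infty_iff_deriv.1 hΦ1).1 x).hasDerivAt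
  have dw : ∀ x, HasDerivAt (fun x => triw δ (x - a)) (deriv (triw δ) (x - a)) x :=
    fun x => (((contDiff_infty_iff_deriv.1 hw).1 (x - a)).hasDerivAt).comp_sub_const x a
  have dw1 : ∀ x, HasDerivAt (fun x => deriv (triw δ) (x - a)) (deriv (deriv (triw δ)) (x - a)) x :=
    fun x => (((contDiff_infty_iff_deriv.1 hw1).1 (x - a)).hasDerivAt).comp_sub_const x a
  have cΦ := hΦ.continuous
  have cΦ1 := hΦ1.continuous
  have cΦ2 := hΦ2.continuous
  have cw : Continuous (fun x => triw δ (x - a)) := hw.continuous.comp (by fun_prop)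
  have cw1 : Continuous (fun x => deriv (triw δ) (x - a)) := hw1.continuous.comp (by fun_prop)
  have cw2 : Continuous (fun x => deriv (deriv (triw δ)) (x - a)) := hw2.continuous.comp (by fun_prop)
  set c : ℝ := 4 * K * B * Real.exp (-Y * (a - δ)) with hc
  have hc0 : 0 ≤ c := by positivity
  have hD : Integrable (fun x : ℝ => c * (1 + (x - (a - δ)) ^ 2)⁻¹) :=
    (integrable_inv_one_add_sq.comp_sub_right (a - δ)).const_mul c
  have hDint : ∫ x : ℝ, c * (1 + (x - (a - δ)) ^ 2)⁻¹ = c * Real.pi := by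
    rw [integral_const_mul, integral_sub_right_eq_self (fun x : ℝ => (1 + x ^ 2)⁻¹) (a - δ),
      integral_univ_inv_one_add_sq]
  have key : ∀ q : ℝ → ℝ, (∀ x, |q x| ≤ 4 * K * max |ψ x| (max |deriv ψ x| |deriv (deriv ψ) x|)) →
      (∀ x, x < a - δ → q x = 0) → ∀ x, |q x| ≤ c * (1 + (x - (a - δ)) ^ 2)⁻¹ := by
    intro q hq hq0 x
    rcases lt_or_ge x (a - δ) with hx | hx
    · rw [hq0 x hx, abs_zero]
      positivity
    · have hx0 : 0 ≤ x := by linarith
      have m1 : max |ψ x| (max |deriv ψ x| |deriv (deriv ψ) x|) ≤ B * Real.exp (-Y * x) := by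
        have b0 := hψ.b0 x
        have b1 := hψ.b1 x
        have b2 := hψ.b2 x
        rw [abs_of_nonneg hx0] at b0 b1 b2
        exact max_le b0 (max_le b1 b2)
      have m2 : Real.exp (-Y * x) ≤ Real.exp (-Y * (a - δ)) * (1 + (x - (a - δ)) ^ 2)⁻¹ := by
        have e : -Y * x = -Y * (a - δ) + -Y * (x - (a - δ)) := by ring
        rw [e, Real.exp_add]
        exact mul_le_mul_of_nonneg_left (exp_le hY (by linarith)) (Real.exp_pos _).le
      calc |q x| ≤ 4 * K * (B * Real.exp (-Y * x)) :=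
            (hq x).trans (mul_le_mul_of_nonneg_left m1 (by positivity))
        _ ≤ 4 * K * (B * (Real.exp (-Y * (a - δ)) * (1 + (x - (a - δ)) ^ 2)⁻¹)) :=
            mul_le_mul_of_nonneg_left (mul_le_mul_of_nonneg_left m2 hB) (by positivity)
        _ = _ := by rw [hc]; ring
  have hm : ∀ x, |ψ x| ≤ max |ψ x| (max |deriv ψ x| |deriv (deriv ψ) x|) ∧
      |deriv ψ x| ≤ max |ψ x| (max |deriv ψ x| |deriv (deriv ψ) x|) ∧
      |deriv (deriv ψ) x| ≤ max |ψ x| (max |deriv ψ x| |deriv (deriv ψ) x|) := fun x =>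
    ⟨le_max_left _ _, (le_max_left _ _).trans (le_max_right _ _),
      (le_max_right _ _).trans (le_max_right _ _)⟩
  have hprod : ∀ {u v M : ℝ}, |u| ≤ M → |v| ≤ K → |u * v| ≤ K * M := by
    intro u v M hu hv
    rw [abs_mul, mul_comm K M]
    exact mul_le_mul hu hv (abs_nonneg _) ((abs_nonneg _).trans hu)
  have b0 : ∀ x, |ψ x * triw δ (x - a)| ≤ c * (1 + (x - (a - δ)) ^ 2)⁻¹ := by
    refine key (fun x => ψ x * triw δ (x - a)) ?_ ?_
    · intro x
      obtain ⟨k0, k1, k2⟩ := hK (x - a)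
      obtain ⟨m0, m1, m2⟩ := hm x
      have := hprod m0 k0
      have e1 : 0 ≤ K * max |ψ x| (max |deriv ψ x| |deriv (deriv ψ) x|) :=
        (abs_nonneg _).trans this
      linarith
    · intro x hx
      rw [triw_zero hδ (by linarith), mul_zero]
  have b1 : ∀ x, |deriv ψ x * triw δ (x - a) + ψ x * deriv (triw δ) (x - a)| ≤
      c * (1 + (x - (a - δ)) ^ 2)⁻¹ := by
    refine key (fun x => deriv ψ x * triw δ (x - a) + ψ x * deriv (triw δ) (x - a)) ?_ ?_
    · intro x
      obtain ⟨k0, k1, k2⟩ := hK (x - a)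
      obtain ⟨m0, m1, m2⟩ := hm x
      have f1 := hprod m1 k0
      have f2 := hprod m0 k1
      have f3 := abs_add_le (deriv ψ x * triw δ (x - a)) (ψ x * deriv (triw δ) (x - a))
      have e1 : 0 ≤ K * max |ψ x| (max |deriv ψ x| |deriv (deriv ψ) x|) :=
        (abs_nonneg _).trans f1
      linarith
    · intro x hx
      rw [triw_zero hδ (by linarith), (triw_deriv_zero hδ (by linarith)).1, mul_zero, mul_zero, add_zero]
  have b2 : ∀ x, |(deriv (deriv ψ) x * triw δ (x - a) + deriv ψ x * deriv (triw δ) (x - a)) +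
      (deriv ψ x * deriv (triw δ) (x - a) + ψ x * deriv (deriv (triw δ)) (x - a))| ≤
      c * (1 + (x - (a - δ)) ^ 2)⁻¹ := by
    refine key (fun x => (deriv (deriv ψ) x * triw δ (x - a) + deriv ψ x * deriv (triw δ) (x - a)) +
      (deriv ψ x * deriv (triw δ) (x - a) + ψ x * deriv (deriv (triw δ)) (x - a))) ?_ ?_
    · intro x
      obtain ⟨k0, k1, k2⟩ := hK (x - a)
      obtain ⟨m0, m1, m2⟩ := hm x
      have f1 := hprod m2 k0
      have f2 := hprod m1 k1
      have f4 := hprod m0 k2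
      have g1 := abs_add_le (deriv (deriv ψ) x * triw δ (x - a) + deriv ψ x * deriv (triw δ) (x - a))
        (deriv ψ x * deriv (triw δ) (x - a) + ψ x * deriv (deriv (triw δ)) (x - a))
      have g2 := abs_add_le (deriv (deriv ψ) x * triw δ (x - a)) (deriv ψ x * deriv (triw δ) (x - a))
      have g3 := abs_add_le (deriv ψ x * deriv (triw δ) (x - a)) (ψ x * deriv (deriv (triw δ)) (x - a))
      linarith
    · intro x hx
      rw [triw_zero hδ (by linarith), (triw_deriv_zero hδ (by linarith)).1,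
        (triw_deriv_zero hδ (by linarith)).2]
      ring
  have h1 : ∀ x, HasDerivAt (fun x => ψ x * triw δ (x - a))
      (deriv ψ x * triw δ (x - a) + ψ x * deriv (triw δ) (x - a)) x := fun x => (dΦ x).mul (dw x)
  have h2 : ∀ x, HasDerivAt (fun x => deriv ψ x * triw δ (x - a) + ψ x * deriv (triw δ) (x - a))
      ((deriv (deriv ψ) x * triw δ (x - a) + deriv ψ x * deriv (triw δ) (x - a)) +
      (deriv ψ x * deriv (triw δ) (x - a) + ψ x * deriv (deriv (triw δ)) (x - a))) x :=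
    fun x => ((dΦ1 x).mul (dw x)).add ((dΦ x).mul (dw1 x))
  have h3 : Continuous (fun x => (deriv (deriv ψ) x * triw δ (x - a) + deriv ψ x * deriv (triw δ) (x - a)) +
      (deriv ψ x * deriv (triw δ) (x - a) + ψ x * deriv (deriv (triw δ)) (x - a))) :=
    ((cΦ2.mul cw).add (cΦ1.mul cw1)).add ((cΦ1.mul cw1).add (cΦ.mul cw2))
  have r := ibp t h1 h2 h3 hD b0 b1 b2
  rw [hDint] at r
  exact r

theorem t_TRK : S_TRK := by
  intro c₀ ε hc₀ hε hε1
  have hpi3 := Real.pi_gt_three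
  have hpi4 := Real.pi_le_four
  obtain ⟨δ, hδdef⟩ : ∃ δ : ℝ, δ = ε / 32 := ⟨_, rfl⟩
  have hδ : 0 < δ := by rw [hδdef]; positivity
  have hδ2 : 2 * Real.pi * δ ≤ ε / 4 := by
    rw [hδdef]
    have : 2 * Real.pi * (ε / 32) = Real.pi * (ε / 16) := by ring
    rw [this]
    have := mul_le_mul_of_nonneg_right hpi4 (by positivity : 0 ≤ ε / 16)
    linarith
  obtain ⟨K, hK0, hK⟩ := triw_bound hδ
  have hc : 0 < |c₀| := abs_pos.2 hc₀
  obtain ⟨M, hM⟩ : ∃ M : ℝ, M = 16 * Real.pi * K / |c₀| := ⟨_, rfl⟩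
  have hM0 : 0 < M := by rw [hM]; positivity
  refine ⟨1 + M / ε, by positivity, ?_⟩
  intro a ha B ψ hB hψ hint hsmall
  have hMε : 0 < M / ε := by positivity
  have ha1 : 1 ≤ a := by linarith
  have haδ : δ ≤ a := by rw [hδdef]; linarith
  obtain ⟨E, hE⟩ : ∃ E : ℝ, E = Real.exp (2 * a) := ⟨_, rfl⟩
  rw [← hE] at hψ hsmall ⊢
  have hE0 : 0 < E := by rw [hE]; exact Real.exp_pos _
  have hE2 : 2 * a ≤ E := by
    have := Real.add_one_le_exp (2 * a)
    rw [hE]
    linarith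
  obtain ⟨Y, hYdef⟩ : ∃ Y : ℝ, Y = 2 * Real.pi * E := ⟨_, rfl⟩
  rw [← hYdef] at hψ hsmall ⊢
  have hY : 2 ≤ Y := by rw [hYdef]; nlinarith
  -- M is small
  have hMa : M ≤ Real.exp (3 / 4 * ε * E) := by
    have h8 : M / ε ≤ a := by linarith
    rw [div_le_iff₀ hε] at h8
    have h9 := Real.add_one_le_exp (3 / 4 * ε * E)
    have h10 : ε * (2 * a) ≤ ε * E := mul_le_mul_of_nonneg_left hE2 hε.le
    have h11 : 0 < ε * a := by positivity
    nlinarith
  have hMc : 16 * Real.pi * K = M * |c₀| := by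
    rw [hM]
    field_simp
  -- the factor exp (Y δ)
  have hYδ : Real.exp (-Y * (a - δ)) ≤ Real.exp (-(Y * a)) * Real.exp (ε / 4 * E) := by
    rw [← Real.exp_add]
    apply Real.exp_le_exp.2
    have : Y * δ ≤ ε / 4 * E := by
      calc Y * δ = (2 * Real.pi * δ) * E := by rw [hYdef]; ring
        _ ≤ ε / 4 * E := mul_le_mul_of_nonneg_right hδ2 hE0.le
    nlinarith
  obtain ⟨G, hG⟩ : ∃ G : ℝ, G = 4 * K * B * Real.exp (-Y * (a - δ)) * Real.pi := ⟨_, rfl⟩
  have hmain := fun t : ℝ => main hψ hY hB hδ hK0 hK haδ t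
  rw [← hG] at hmain
  -- `4 G ≤ |c₀| * B * exp (- Y a + ε E)` and `4 G ≤ |c₀|`
  have hG1 : 4 * G ≤ |c₀| * (B * Real.exp (-(Y * a) + ε * E)) := by
    have s1 : 4 * G ≤ (16 * Real.pi * K) * B * (Real.exp (-(Y * a)) * Real.exp (ε / 4 * E)) := by
      have := mul_le_mul_of_nonneg_left hYδ (by positivity : 0 ≤ (16 * Real.pi * K) * B)
      calc 4 * G = (16 * Real.pi * K) * B * Real.exp (-Y * (a - δ)) := by rw [hG]; ring
        _ ≤ _ := this
    have s2 : (16 * Real.pi * K) * B * (Real.exp (-(Y * a)) * Real.exp (ε / 4 * E)) =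
        |c₀| * (B * (Real.exp (-(Y * a)) * Real.exp (ε / 4 * E) * M)) := by
      rw [hMc]
      ring
    have s3 : Real.exp (-(Y * a)) * Real.exp (ε / 4 * E) * M ≤ Real.exp (-(Y * a) + ε * E) := by
      calc Real.exp (-(Y * a)) * Real.exp (ε / 4 * E) * M
          ≤ Real.exp (-(Y * a)) * Real.exp (ε / 4 * E) * Real.exp (3 / 4 * ε * E) :=
            mul_le_mul_of_nonneg_left hMa (by positivity)
        _ = Real.exp (-(Y * a) + ε * E) := by
            rw [← Real.exp_add, ← Real.exp_add]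
            congr 1
            ring
    rw [s2] at s1
    exact s1.trans (mul_le_mul_of_nonneg_left (mul_le_mul_of_nonneg_left s3 hB) hc.le)
  have hG2 : 4 * G ≤ |c₀| := by
    refine hG1.trans ?_
    have s1 : B * Real.exp (-(Y * a) + ε * E) ≤ 1 := by
      rw [Real.exp_add, ← mul_assoc]
      calc B * Real.exp (-(Y * a)) * Real.exp (ε * E) ≤ Real.exp (-E) * Real.exp (ε * E) :=
            mul_le_mul_of_nonneg_right hsmall (Real.exp_pos _).le
        _ = Real.exp (-(1 - ε) * E) := by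
            rw [← Real.exp_add]
            congr 1
            ring
        _ ≤ 1 := by
            apply Real.exp_le_one_iff.2
            have : 0 ≤ (1 - ε) * E := mul_nonneg (by linarith) hE0.le
            linarith
    calc |c₀| * (B * Real.exp (-(Y * a) + ε * E)) ≤ |c₀| * 1 := mul_le_mul_of_nonneg_left s1 hc.le
      _ = |c₀| := mul_one _
  have hw : ContDiff ℝ ∞ (triw δ) := triw_contDiff _
  -- the cut-off kernel
  obtain ⟨k₀, hk₀⟩ : ∃ k₀ : ℝ → ℝ, k₀ = fun x => ψ x * (1 - triw δ (x - a) -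
    triw δ (-x - a)) := ⟨_, rfl⟩
  have hTR : TR a k₀ := by
    refine ⟨?_, ?_, ?_⟩
    · rw [hk₀]
      exact hψ.smooth.mul ((contDiff_const.sub (hw.comp (contDiff_id.sub contDiff_const))).sub
        (hw.comp (contDiff_neg.sub contDiff_const)))
    · intro x
      rw [hk₀]
      simp only [neg_neg]
      rw [hψ.even]
      ring
    · intro x hx
      rw [hk₀]
      simp only
      rcases lt_abs.1 hx with h | h
      · rw [triw_one hδ (by linarith : 0 ≤ x - a), triw_zero hδ (by linarith : -x - a ≤ -δ)]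
        ring
      · rw [triw_one hδ (by linarith : 0 ≤ -x - a), triw_zero hδ (by linarith : x - a ≤ -δ)]
        ring
  -- integrability of the full integrand
  have iψ : ∀ t : ℝ, Integrable (fun x : ℝ => ψ x * Real.cos (t * x)) := by
    intro t
    have hD : Integrable (fun x : ℝ => B * (1 + x ^ 2)⁻¹) := integrable_inv_one_add_sq.const_mul B
    refine hD.mono' (Continuous.aestronglyMeasurable ?_) (ae_of_all _ ?_)
    · have := hψ.smooth.continuous
      fun_prop
    · intro x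
      rw [norm_mul, Real.norm_eq_abs, Real.norm_eq_abs]
      have h3 := hψ.b0 x
      have h4 := exp_le hY (abs_nonneg x)
      rw [sq_abs] at h4
      calc |ψ x| * |Real.cos (t * x)| ≤ |ψ x| * 1 :=
            mul_le_mul_of_nonneg_left (Real.abs_cos_le_one _) (abs_nonneg _)
        _ = |ψ x| := mul_one _
        _ ≤ B * Real.exp (-Y * |x|) := h3
        _ ≤ B * (1 + x ^ 2)⁻¹ := mul_le_mul_of_nonneg_left h4 hB
  -- the transform of the cut-off kernel
  have hT : ∀ t : ℝ, ∫ x : ℝ, k₀ x * Real.cos (t * x) = (∫ x : ℝ, ψ x * Real.cos (t * x)) -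
      2 * ∫ x : ℝ, (ψ x * triw δ (x - a)) * Real.cos (t * x) := by
    intro t
    obtain ⟨i1, -, -⟩ := hmain t
    have i2 : Integrable (fun x : ℝ => (ψ x * triw δ (-x - a)) * Real.cos (t * x)) := by
      refine i1.comp_neg.congr (ae_of_all _ fun x => ?_)
      simp only
      rw [hψ.even, mul_neg, Real.cos_neg]
    have e2 : ∫ x : ℝ, (ψ x * triw δ (-x - a)) * Real.cos (t * x) =
        ∫ x : ℝ, (ψ x * triw δ (x - a)) * Real.cos (t * x) := by
      rw [← integral_neg_eq_self (fun x : ℝ => (ψ x * triw δ (x - a)) * Real.cos (t * x)) volume]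
      refine integral_congr_ae (ae_of_all _ fun x => ?_)
      simp only
      rw [hψ.even, mul_neg, Real.cos_neg]
    have e3 : ∫ x : ℝ, k₀ x * Real.cos (t * x) = ∫ x : ℝ, (ψ x * Real.cos (t * x) -
        (ψ x * triw δ (x - a)) * Real.cos (t * x) -
        (ψ x * triw δ (-x - a)) * Real.cos (t * x)) := by
      refine integral_congr_ae (ae_of_all _ fun x => ?_)
      simp only [hk₀]
      ring
    have i3 : Integrable (fun x : ℝ => ψ x * Real.cos (t * x) -
        (ψ x * triw δ (x - a)) * Real.cos (t * x)) := (iψ t).sub i1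
    rw [e3, integral_sub i3 i2, integral_sub (iψ t) i1, e2]
    ring
  -- the integral
  have hI2 : |c₀| / 2 ≤ |∫ x : ℝ, k₀ x| := by
    have h0 := hT 0
    simp only [zero_mul, Real.cos_zero, mul_one] at h0
    have h1 := (hmain 0).2.1
    simp only [zero_mul, Real.cos_zero, mul_one] at h1
    rw [h0, hint]
    have h4 := abs_sub_abs_le_abs_sub c₀ (2 * ∫ x : ℝ, ψ x * triw δ (x - a))
    rw [abs_mul, abs_two] at h4
    linarith
  have hI0 : (∫ x : ℝ, k₀ x) ≠ 0 := by
    intro h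
    rw [h, abs_zero] at hI2
    linarith
  refine ⟨fun x => k₀ x / ∫ x : ℝ, k₀ x, ⟨⟨?_, ?_, ?_⟩, ?_⟩, ?_⟩
  · exact hTR.smooth.div_const _
  · intro x
    rw [hTR.even]
  · intro x hx
    rw [hTR.supp x hx, zero_div]
  · rw [integral_div, div_self hI0]
  · intro t ht hz
    obtain ⟨-, -, i3⟩ := hmain t
    have e4 : ∫ x : ℝ, (k₀ x / ∫ x : ℝ, k₀ x) * Real.cos (t * x) =
        (∫ x : ℝ, k₀ x * Real.cos (t * x)) / ∫ x : ℝ, k₀ x := by
      rw [← integral_div]
      refine integral_congr_ae (ae_of_all _ fun x => ?_)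
      simp only
      ring
    simp only
    rw [e4, hT t, hz, zero_sub, abs_div, abs_neg, abs_mul, abs_two]
    have hzn : 0 < t ^ 2 := by positivity
    have hIp : 0 < |∫ x : ℝ, k₀ x| := by linarith
    rw [div_le_div_iff₀ hIp hzn]
    obtain ⟨J, hJ⟩ : ∃ J : ℝ, J = |∫ x : ℝ, (ψ x * triw δ (x - a)) * Real.cos (t * x)| := ⟨_, rfl⟩
    rw [← hJ] at i3 ⊢
    have h7 : (B * Real.exp (-(Y * a) + ε * E)) * (|c₀| / 2) ≤
        (B * Real.exp (-(Y * a) + ε * E)) * |∫ x : ℝ, k₀ x| :=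
      mul_le_mul_of_nonneg_left hI2 (by positivity)
    refine le_trans ?_ h7
    nlinarith

end Pool.Agent.H478.WM.TRK
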